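import Mathlib
import Pool.Agent.Helper99.FK.Defs

/-!
# Faber-Krahn inequality for the infinite-mass Dirac operator on ALL smooth domains: definitions

`F : Finset (ℂ × ℝ)` is a finite family of closed discs (centre, radius), `D` a bounded open set whose
frontier lies on the union of these discs.
-/

set_option autoImplicit false

open Complex MeasureTheory Set Metric Filter
open scoped ComplexConjugate Topology

namespace Pool.Agent.FKM

noncomputable section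

/-- union of the closed discs of a finite family -/
def cl (F : Finset (ℂ × ℝ)) : Set ℂ := ⋃ b ∈ F, closedBall b.1 b.2

/-- `D` is a bounded union of components of the complement of the discs of `F` -/
structure Reg (F : Finset (ℂ × ℝ)) (D : Set ℂ) : Prop where
  pos : ∀ b ∈ F, 0 < b.2
  op : IsOpen D
  bdd : Bornology.IsBounded D
  disj : Disjoint D (cl F)
  front : frontier D ⊆ cl F

/-- the angles of the points of the circle `b` which are exposed to `D` -/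
def expo (D : Set ℂ) (b : ℂ × ℝ) : Set ℝ :=
  {θ | θ ∈ Ioc (-Real.pi) Real.pi ∧ circleMap b.1 b.2 θ ∈ closure D}

/-- boundary integral of `G z ν`, where `ν = exp (i θ)` is the unit normal pointing into `D` -/
def bInt (F : Finset (ℂ × ℝ)) (D : Set ℂ) (G : ℂ → ℂ → ℝ) : ℝ :=
  ∑ b ∈ F, b.2 * ∫ θ in expo D b, G (circleMap b.1 b.2 θ) (exp (θ * I))

/-- real inner product of the plane -/
def ip (a b : ℂ) : ℝ := (conj a * b).re

/-- divergence of a vector field -/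
def dv (Y : ℂ → ℂ) (z : ℂ) : ℝ := (fderiv ℝ Y z 1).re + (fderiv ℝ Y z I).im

/-- gradient of a real function, as a complex number -/
def gr (f : ℂ → ℝ) (z : ℂ) : ℂ := ⟨fderiv ℝ f z 1, fderiv ℝ f z I⟩

/-- `K` is a closed and relatively open part of the complement of `D` -/
structure Part (D K K2 : Set ℂ) : Prop where
  closed : IsClosed K
  closed2 : IsClosed K2
  disj : Disjoint K K2
  union : K ∪ K2 = Dᶜ

open scoped Classical in
/-- the discs with centre in `K` -/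
def inK (F : Finset (ℂ × ℝ)) (K : Set ℂ) : Finset (ℂ × ℝ) := F.filter (fun b => b.1 ∈ K)

/-- the components of the complement of `D` -/
def CC (D : Set ℂ) : Set (Set ℂ) := {K | ∃ z ∈ Dᶜ, K = connectedComponentIn Dᶜ z}

/-! ### moving fronts: discs `closedBall p (t * v p)`, `p ∈ P` -/

/-- the swept set at time `t` -/
def Ut (P : Finset ℂ) (v : ℂ → ℝ) (t : ℝ) : Set ℂ := ⋃ p ∈ P, closedBall p (t * v p)

/-- the discs at time `t`, together with those of `F` -/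
def Ft (F : Finset (ℂ × ℝ)) (P : Finset ℂ) (v : ℂ → ℝ) (t : ℝ) : Finset (ℂ × ℝ) :=
  F ∪ P.image (fun p => (p, t * v p))

/-- the angles of the exposed points of the disc `p` at time `t` -/
def Et (D : Set ℂ) (P : Finset ℂ) (v : ℂ → ℝ) (t : ℝ) (p : ℂ) : Set ℝ :=
  {θ | θ ∈ Ioc (-Real.pi) Real.pi ∧ circleMap p (t * v p) θ ∈ D ∧
    ∀ q ∈ P, q ≠ p → t * v q < dist (circleMap p (t * v p) θ) q}

/-- front integral at time `t` -/
def fInt (D : Set ℂ) (P : Finset ℂ) (v : ℂ → ℝ) (t : ℝ) (G : ℂ → ℂ → ℝ) : ℝ :=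
  ∑ p ∈ P, t * v p * ∫ θ in Et D P v t p, G (circleMap p (t * v p) θ) (exp (θ * I))

/-- total exposed angle at time `t` -/
def Th (D : Set ℂ) (P : Finset ℂ) (v : ℂ → ℝ) (t : ℝ) : ℝ :=
  ∑ p ∈ P, volume.real (Et D P v t p)

/-- the front issued from `K` moves into `D` during the time interval `[t0, t1]` -/
structure Front (D K K2 : Set ℂ) (P : Finset ℂ) (v : ℂ → ℝ) (t0 t1 : ℝ) : Prop where
  op : IsOpen D
  bdd : Bornology.IsBounded D
  part : Part D K K2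
  sub : ∀ p ∈ P, p ∈ K
  vpos : ∀ p, 0 < v p
  t0pos : 0 < t0
  t01 : t0 ≤ t1
  cover : ∀ z ∈ frontier D, z ∈ K → ∃ p ∈ P, dist z p < t0 * v p
  free : ∀ p ∈ P, closedBall p (t1 * v p) ⊆ K ∪ D

/-! ### corners of the front -/

/-- cosine of the angle at the centre of a disc of radius `a` in the triangle `a, b, d` -/
def cosA (a b d : ℝ) : ℝ := (a ^ 2 + d ^ 2 - b ^ 2) / (2 * a * d)

/-- half of the angle of the circle of radius `a` covered by a disc of radius `b` at distance `d` -/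
def alp (a b d : ℝ) : ℝ := Real.arccos (cosA a b d)

/-- the angle between the outer normals at a corner -/
def psi (a b d : ℝ) : ℝ := Real.arccos ((a ^ 2 + b ^ 2 - d ^ 2) / (2 * a * b))

/-- the corner `σ ∈ {1, -1}` of the discs `p, q` at time `t` -/
def cor (v : ℂ → ℝ) (t : ℝ) (p q : ℂ) (σ : ℝ) : ℂ :=
  circleMap p (t * v p) (arg (q - p) + σ * alp (v p) (v q) (dist p q / t))

/-- the circles of `p, q` cross at time `t` -/
def Cross (v : ℂ → ℝ) (t : ℝ) (p q : ℂ) : Prop :=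
  |v p - v q| < dist p q / t ∧ dist p q / t < v p + v q

/-- the corner `σ` of the discs `p, q` is exposed at time `t` -/
def cEx (D : Set ℂ) (P : Finset ℂ) (v : ℂ → ℝ) (t : ℝ) (p q : ℂ) (σ : ℝ) : Prop :=
  Cross v t p q ∧ cor v t p q σ ∈ D ∧
    ∀ l ∈ P, l ≠ p → l ≠ q → t * v l < dist (cor v t p q σ) l

/-- no tangent circles and no triple points at time `t` -/
def Gen (P : Finset ℂ) (v : ℂ → ℝ) (t : ℝ) : Prop :=
  (∀ p ∈ P, ∀ q ∈ P, p ≠ q → dist p q ≠ t * (v p + v q) ∧ dist p q ≠ t * |v p - v q|) ∧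
  ∀ p ∈ P, ∀ q ∈ P, ∀ l ∈ P, p ≠ q → q ≠ l → p ≠ l →
    ∀ x : ℂ, ¬(dist x p = t * v p ∧ dist x q = t * v q ∧ dist x l = t * v l)

/-- directions between the outer normals at the corner `σ` of `p, q` -/
def wedge (v : ℂ → ℝ) (t : ℝ) (p q : ℂ) (σ : ℝ) : Set ℝ :=
  {θ | θ ∈ Ioc (-Real.pi) Real.pi ∧ ∃ k : ℤ, σ * (θ - arg (q - p)) + 2 * Real.pi * k ∈
    Ioo (alp (v p) (v q) (dist p q / t)) (Real.pi - alp (v q) (v p) (dist p q / t))}

/-- the two signs -/
def sgn2 : Finset ℝ := {1, -1}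

/-! ### the profile function -/

/-- radius of the disc of area `A` -/
def rad (A : ℝ) : ℝ := Real.sqrt (A / Real.pi)

/-- the Robin parameter `E J₁(E r)/J₀(E r)` of the disc of area `A` -/
def aF (E A : ℝ) : ℝ := E * FK.j1 (E * rad A) / FK.j0 (E * rad A)

/-- `k = E² + a²` -/
def kF (E A : ℝ) : ℝ := E ^ 2 + aF E A ^ 2

/-- `δ = a / r` -/
def dF (E A : ℝ) : ℝ := aF E A / rad A

/-- the functional -/
def QQ (E : ℝ) (g P : ℂ → ℝ) (F : Finset (ℂ × ℝ)) (D : Set ℂ) : ℝ :=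
  (∫ z in D, P z) + aF E (volume.real D) * bInt F D (fun z _ => g z)

/-- the density `4 |∂̄ u|² - E² |u|²` -/
def PU (E : ℝ) (u : ℂ → ℂ) (z : ℂ) : ℝ := 4 * ‖FK.dzb u z‖ ^ 2 - E ^ 2 * ‖u z‖ ^ 2

/-- the density `|u|²` -/
def gU (u : ℂ → ℂ) (z : ℂ) : ℝ := ‖u z‖ ^ 2

/-- the data used in the sweeping argument: `g = |u|²`, `P = 4|∂̄u|² - E²|u|²`,
`Om = 2 ∂̄u / u`, `be = ∇ arg u` near the closure of `W` -/
structure Dat where
  E : ℝ
  X : ℝ
  W : Set ℂ
  g : ℂ → ℝ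
  P : ℂ → ℝ
  Om : ℂ → ℂ
  be : ℂ → ℂ
  C : ℝ
  hX : FK.Profile X
  E_pos : 0 < E
  W_op : IsOpen W
  W_bdd : Bornology.IsBounded W
  area : E ^ 2 * volume.real W ≤ Real.pi * X ^ 2
  g_cont : ContDiff ℝ 1 g
  P_cont : Continuous P
  Om_cont : ContDiff ℝ 1 Om
  be_cont : ContDiff ℝ 1 be
  C_one : 1 ≤ C
  g_low : ∀ z ∈ closure W, 1 ≤ C * g z
  g_nonneg : ∀ z, 0 ≤ g z
  g_le : ∀ z, g z ≤ C
  g_lip : ∀ z w, |g z - g w| ≤ C * dist z w
  g_taylor : ∀ z w, |g w - g z - ip (gr g w) (w - z)| ≤ C * dist z w ^ 2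
  P_le : ∀ z, |P z| ≤ C
  Om_le : ∀ z, ‖Om z‖ ≤ C
  dvOm_le : ∀ z, |dv Om z| ≤ C
  be_le : ∀ z, ‖be z‖ ≤ C
  grad : ∀ z ∈ closure W, gr g z = g z * (2 * Om z - 2 * I * be z)
  P_eq : ∀ z ∈ closure W, P z = g z * (‖Om z‖ ^ 2 - E ^ 2)
  curl : ∀ z ∈ W, dv (fun w => -I * be w) z = 0
  integ : ∀ (χ : ℂ → ℝ) (S : Set ℂ), ContDiff ℝ 1 χ → IsCompact S → S ⊆ W →
    (∀ z ∉ S, fderiv ℝ χ z = 0) → (∀ z ∉ S, ∃ k : ℤ, χ z = k) →
    ∃ m : ℤ, ∫ z in S, ip (gr χ z) (-I * be z) = 2 * Real.pi * m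

/-- speed of the front: `1 / g` on the closure of `W` -/
def Dat.v (S : Dat) (z : ℂ) : ℝ := 1 / max (S.g z) (1 / S.C)

/-- the functional of the data -/
def Dat.Q (S : Dat) (F : Finset (ℂ × ℝ)) (D : Set ℂ) : ℝ := QQ S.E S.g S.P F D

/-- circulation of `be` around the part `K` -/
def Dat.w (S : Dat) (F : Finset (ℂ × ℝ)) (D K : Set ℂ) : ℝ :=
  bInt (inK F K) D (fun z ν => ip ν (-I * S.be z))

/-- weighted length of the part `K` -/
def Dat.M (S : Dat) (F : Finset (ℂ × ℝ)) (D K : Set ℂ) : ℝ :=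
  bInt (inK F K) D (fun z _ => S.g z)

end

end Pool.Agent.FKM
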