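import Mathlib
import Pool.Agent.Helper13.FKM.Defs

/-!
FKM-1: elementary facts on circles and exposed sets.

Plan. `finite_circ`: circleMap c r θ lies on the circle (c', r'): expand the square of the distance;
if c = c' this says r = r'. Otherwise it fixes cos (θ - arg (c' - c)), so there are at most two points
(two distinct circles meet in at most two points; circleMap is injective on Ioc (-π) π).
`mem_frontier_of_expo`: the point is in the closed disc of b, which is disjoint from D.
-/

set_option autoImplicit false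

open Complex MeasureTheory Set Metric Filter
open scoped ComplexConjugate Topology

namespace Pool.Agent.FKM

private theorem dist_circleMap_centre {c : ℂ} {r : ℝ} (hr : 0 < r) (θ : ℝ) :
    dist (circleMap c r θ) c = r := by
  have := circleMap_mem_sphere c hr.le θ
  rwa [mem_sphere] at this

theorem finite_circ {c c' : ℂ} {r r' : ℝ} (hr : 0 < r) (hr' : 0 < r')
    (h : (c, r) ≠ (c', r')) :
    {θ | θ ∈ Ioc (-Real.pi) Real.pi ∧ dist (circleMap c r θ) c' = r'}.Finite := by
  by_cases hc : c = c'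
  · subst hc
    have hne : r ≠ r' := fun h1 => h (by rw [h1])
    convert Set.finite_empty
    ext θ
    simp only [mem_setOf_eq, mem_empty_iff_false, iff_false, not_and]
    intro _ h2
    rw [dist_circleMap_centre hr] at h2
    exact hne h2
  · set d : ℂ := c' - c with hd
    have hd0 : d ≠ 0 := sub_ne_zero.mpr (Ne.symm hc)
    set κ : ℝ := (r ^ 2 + ‖d‖ ^ 2 - r' ^ 2) / (2 * r) with hκ
    -- the polynomial
    set q : Polynomial ℂ := Polynomial.C (conj d) * Polynomial.X ^ 2 -
      Polynomial.C (2 * (κ : ℂ)) * Polynomial.X + Polynomial.C d with hq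
    have hq0 : q ≠ 0 := by
      intro h0
      have h1 : q.coeff 0 = d := by
        rw [hq]
        simp
      rw [h0, Polynomial.coeff_zero] at h1
      exact hd0 h1.symm
    have hfin : {w : ℂ | q.IsRoot w}.Finite := Polynomial.finite_setOf_isRoot hq0
    have hinj : Set.InjOn (fun θ : ℝ => exp (θ * I)) (Ioc (-Real.pi) Real.pi) := by
      intro a ha b hb hab
      simp only at hab
      have h1 := arg_exp_mul_I a
      have h2 := arg_exp_mul_I b
      rw [hab] at h1
      have e1 : toIocMod Real.two_pi_pos (-Real.pi) a = a := by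
        rw [toIocMod_eq_self]
        convert ha using 1
        ring_nf
      have e2 : toIocMod Real.two_pi_pos (-Real.pi) b = b := by
        rw [toIocMod_eq_self]
        convert hb using 1
        ring_nf
      rw [← e1, ← e2, ← h1, ← h2]
    have hsub : {θ | θ ∈ Ioc (-Real.pi) Real.pi ∧ dist (circleMap c r θ) c' = r'} ⊆
        (Ioc (-Real.pi) Real.pi) ∩ (fun θ : ℝ => exp (θ * I)) ⁻¹' {w : ℂ | q.IsRoot w} := by
      rintro θ ⟨hθ, hdist⟩
      refine ⟨hθ, ?_⟩
      simp only [mem_preimage, mem_setOf_eq, Polynomial.IsRoot.def]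
      set w : ℂ := exp (θ * I) with hw
      have hwn : w * conj w = 1 := by
        rw [mul_conj, normSq_eq_norm_sq, hw, norm_exp_ofReal_mul_I]
        norm_num
      have h1 : ‖(r : ℂ) * w - d‖ ^ 2 = r' ^ 2 := by
        rw [← hdist, dist_eq_norm]
        congr 2
        rw [hd, hw]
        unfold circleMap
        ring
      have h2 : (((r : ℂ) * w - d) * conj ((r : ℂ) * w - d)) = ((r' ^ 2 : ℝ) : ℂ) := by
        rw [mul_conj, normSq_eq_norm_sq, h1]
      have h3 : d * conj d = ((‖d‖ ^ 2 : ℝ) : ℂ) := by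
        rw [mul_conj, normSq_eq_norm_sq]
      have h4 : (2 * r : ℂ) * κ = ((r ^ 2 + ‖d‖ ^ 2 - r' ^ 2 : ℝ) : ℂ) := by
        rw [hκ]
        push_cast
        have : (r : ℂ) ≠ 0 := by exact_mod_cast hr.ne'
        field_simp
      have h5 : (r : ℂ) * (conj d * w + d * conj w) = 2 * r * κ := by
        rw [h4]
        rw [map_sub, map_mul, conj_ofReal] at h2
        push_cast at h2 h3 ⊢
        linear_combination (-1 : ℂ) * h2 + h3 + (r : ℂ) ^ 2 * hwn
      have h6 : conj d * w + d * conj w = 2 * κ := by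
        have : (r : ℂ) ≠ 0 := by exact_mod_cast hr.ne'
        apply mul_left_cancel₀ this
        rw [h5]
        ring
      rw [hq]
      simp only [Polynomial.eval_add, Polynomial.eval_sub, Polynomial.eval_mul, Polynomial.eval_C,
        Polynomial.eval_pow, Polynomial.eval_X]
      linear_combination w * h6 - d * hwn
    refine Set.Finite.subset ?_ hsub
    rw [Set.inter_comm]
    refine Set.Finite.of_finite_image (f := fun θ : ℝ => exp (θ * I)) (hfin.subset ?_)
      (hinj.mono Set.inter_subset_right)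
    rintro _ ⟨θ, hθ, rfl⟩
    exact hθ.1

/-- two distinct circles have a finite intersection -/
theorem finite_inter {b b' : ℂ × ℝ} (hr : 0 < b.2) (hr' : 0 < b'.2) (h : b ≠ b') :
    {x : ℂ | dist x b.1 = b.2 ∧ dist x b'.1 = b'.2}.Finite := by
  have hf := finite_circ (c := b.1) (c' := b'.1) hr hr' h
  refine (hf.image (circleMap b.1 b.2)).subset ?_
  rintro x ⟨h1, h2⟩
  have hx : circleMap b.1 b.2 (arg (x - b.1)) = x := by
    unfold circleMap
    rw [dist_eq_norm] at h1
    rw [← h1, norm_mul_exp_arg_mul_I]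
    ring
  exact ⟨arg (x - b.1), ⟨arg_mem_Ioc _, by rw [hx]; exact h2⟩, hx⟩

theorem measurableSet_expo (D : Set ℂ) (b : ℂ × ℝ) : MeasurableSet (expo D b) :=
  measurableSet_Ioc.inter (isClosed_closure.preimage (continuous_circleMap b.1 b.2)).measurableSet

theorem expo_subset (D : Set ℂ) (b : ℂ × ℝ) : expo D b ⊆ Ioc (-Real.pi) Real.pi :=
  fun _ h => h.1

theorem expo_mono {D D' : Set ℂ} (h : D' ⊆ D) (b : ℂ × ℝ) : expo D' b ⊆ expo D b :=
  fun _ hx => ⟨hx.1, closure_mono h hx.2⟩

theorem Reg.lt_dist {F : Finset (ℂ × ℝ)} {D : Set ℂ} (h : Reg F D) {b : ℂ × ℝ} (hb : b ∈ F)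
    {x : ℂ} (hx : x ∈ D) : b.2 < dist x b.1 := by
  by_contra hlt
  push Not at hlt
  refine Set.disjoint_left.mp h.disj hx ?_
  unfold cl
  exact mem_biUnion (x := b) hb (mem_closedBall.mpr hlt)

theorem Reg.le_dist {F : Finset (ℂ × ℝ)} {D : Set ℂ} (h : Reg F D) {b : ℂ × ℝ} (hb : b ∈ F)
    {x : ℂ} (hx : x ∈ closure D) : b.2 ≤ dist x b.1 := by
  have hcl : IsClosed {x : ℂ | b.2 ≤ dist x b.1} :=
    isClosed_le continuous_const (continuous_id.dist continuous_const)
  exact closure_minimal (fun y hy => (h.lt_dist hb hy).le) hcl hx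

theorem mem_frontier_of_expo {F : Finset (ℂ × ℝ)} {D : Set ℂ} (h : Reg F D) {b : ℂ × ℝ}
    (hb : b ∈ F) {θ : ℝ} (hθ : θ ∈ expo D b) : circleMap b.1 b.2 θ ∈ frontier D := by
  rw [h.op.frontier_eq]
  refine ⟨hθ.2, fun hD => ?_⟩
  have h1 := h.lt_dist hb hD
  rw [dist_circleMap_centre (h.pos b hb)] at h1
  exact lt_irrefl _ h1

/-- the frontier of `D` consists of exposed points of circles -/
theorem exists_circle {F : Finset (ℂ × ℝ)} {D : Set ℂ} (h : Reg F D) {x : ℂ}
    (hx : x ∈ frontier D) : ∃ b ∈ F, dist x b.1 = b.2 := by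
  have h1 := h.front hx
  unfold cl at h1
  rw [mem_iUnion₂] at h1
  obtain ⟨b, hb, hxb⟩ := h1
  exact ⟨b, hb, le_antisymm (mem_closedBall.mp hxb) (h.le_dist hb (frontier_subset_closure hx))⟩

theorem bInt_nonneg {F : Finset (ℂ × ℝ)} {D : Set ℂ} (h : Reg F D) {G : ℂ → ℂ → ℝ}
    (hG : ∀ z ν, 0 ≤ G z ν) : 0 ≤ bInt F D G := by
  unfold bInt
  exact Finset.sum_nonneg fun b hb =>
    mul_nonneg (h.pos b hb).le (integral_nonneg fun θ => hG _ _)

/-- the boundary integral is the sum over the two parts of the complement -/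
theorem bInt_split {F : Finset (ℂ × ℝ)} {D K K2 : Set ℂ} (h : Reg F D) (hp : Part D K K2)
    (G : ℂ → ℂ → ℝ) : bInt F D G = bInt (inK F K) D G + bInt (inK F K2) D G := by
  classical
  have hK : inK F K2 = F.filter (fun b => ¬ b.1 ∈ K) := by
    unfold inK
    refine Finset.filter_congr fun b hb => ?_
    have hbD : b.1 ∈ Dᶜ := by
      intro hD
      refine Set.disjoint_left.mp h.disj hD ?_
      unfold cl
      exact mem_biUnion (x := b) hb (mem_closedBall_self (h.pos b hb).le)
    rw [← hp.union] at hbD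
    constructor
    · intro h2 h1
      exact Set.disjoint_left.mp hp.disj h1 h2
    · intro h1
      rcases hbD with h2 | h2
      · exact absurd h2 h1
      · exact h2
  unfold bInt
  rw [hK]
  unfold inK
  exact (Finset.sum_filter_add_sum_filter_not F (fun b => b.1 ∈ K) _).symm

private theorem isClosed_cl (N : Finset (ℂ × ℝ)) : IsClosed (cl N) := by
  unfold cl
  exact isClosed_biUnion_finset fun b _ => isClosed_closedBall

private theorem cl_union [DecidableEq (ℂ × ℝ)] (F N : Finset (ℂ × ℝ)) :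
    cl (F ∪ N) = cl F ∪ cl N := by
  unfold cl
  rw [Finset.set_biUnion_union]

/-- adding finitely many closed discs to the complement -/
theorem reg_add {F N : Finset (ℂ × ℝ)} {D : Set ℂ} (h : Reg F D) (hN : ∀ b ∈ N, 0 < b.2) :
    Reg (F ∪ N) (D \ cl N) := by
  have hop : IsOpen (D \ cl N) := h.op.sdiff (isClosed_cl N)
  refine ⟨?_, hop, h.bdd.subset diff_subset, ?_, ?_⟩
  · intro b hb
    rcases Finset.mem_union.mp hb with hb | hb
    · exact h.pos b hb
    · exact hN b hb
  · rw [cl_union, Set.disjoint_left]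
    rintro x ⟨hxD, hxN⟩ (hx | hx)
    · exact Set.disjoint_left.mp h.disj hxD hx
    · exact hxN hx
  · intro x hx
    rw [cl_union]
    by_cases hxN : x ∈ cl N
    · exact Or.inr hxN
    · left
      apply h.front
      rw [h.op.frontier_eq]
      rw [hop.frontier_eq] at hx
      exact ⟨closure_mono diff_subset hx.1, fun hD => hx.2 ⟨hD, hxN⟩⟩

theorem bInt_add {F N : Finset (ℂ × ℝ)} {D : Set ℂ} (h : Reg F D) (hN : ∀ b ∈ N, 0 < b.2)
    {g : ℂ → ℝ} (hg : Continuous g) (hg0 : ∀ z, 0 ≤ g z) :
    bInt (F ∪ N) (D \ cl N) (fun z _ => g z) ≤ bInt F D (fun z _ => g z)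
      + ∑ b ∈ N, b.2 * ∫ θ in Ioc (-Real.pi) Real.pi, g (circleMap b.1 b.2 θ) := by
  have hint : ∀ (b : ℂ × ℝ), IntegrableOn (fun θ : ℝ => g (circleMap b.1 b.2 θ))
      (Ioc (-Real.pi) Real.pi) := by
    intro b
    have hc : Continuous (fun θ : ℝ => g (circleMap b.1 b.2 θ)) :=
      hg.comp (continuous_circleMap b.1 b.2)
    exact (hc.integrableOn_Icc).mono_set Ioc_subset_Icc_self
  have hmono : ∀ (b : ℂ × ℝ) (S T : Set ℝ), S ⊆ T → T ⊆ Ioc (-Real.pi) Real.pi →
      ∫ θ in S, g (circleMap b.1 b.2 θ) ≤ ∫ θ in T, g (circleMap b.1 b.2 θ) := by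
    intro b S T hST hT
    refine setIntegral_mono_set ((hint b).mono_set hT) ?_ (HasSubset.Subset.eventuallyLE hST)
    exact Eventually.of_forall fun θ => hg0 _
  have hnn : ∀ (b : ℂ × ℝ), 0 < b.2 → ∀ S : Set ℝ,
      0 ≤ b.2 * ∫ θ in S, g (circleMap b.1 b.2 θ) := fun b hb S =>
    mul_nonneg hb.le (integral_nonneg fun θ => hg0 _)
  have h1 : bInt (F ∪ N) (D \ cl N) (fun z _ => g z) ≤
      bInt F (D \ cl N) (fun z _ => g z) + bInt N (D \ cl N) (fun z _ => g z) := by
    unfold bInt
    rw [← Finset.sum_union_inter]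
    refine le_add_of_nonneg_right (Finset.sum_nonneg fun b hb => ?_)
    exact hnn b (h.pos b (Finset.mem_inter.mp hb).1) _
  refine h1.trans (add_le_add ?_ ?_)
  · unfold bInt
    refine Finset.sum_le_sum fun b hb => mul_le_mul_of_nonneg_left ?_ (h.pos b hb).le
    exact hmono b _ _ (expo_mono diff_subset b) (expo_subset D b)
  · unfold bInt
    refine Finset.sum_le_sum fun b hb => mul_le_mul_of_nonneg_left ?_ (hN b hb).le
    exact hmono b _ _ (expo_subset _ b) subset_rfl

end Pool.Agent.FKM
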