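import Mathlib
import Pool.Agent.Helper13.FKM.Defs
import Pool.Agent.Helper99.FK.Bes2

/-!
FKM-25: the profile function. Import Pool.Agent.Helper99.FK.Bes2 (hasDerivAt_j0, hasDerivAt_xj1, xZ_nonneg,
j1_le_of, ...).

Plan. r = rad A, x = E r ∈ (0, X], dr/dA = 1/(2 π r), FK.Profile gives j0 > 0 on [0, X]. With t(x) = j1/j0:
t' = 1 + t^2 - t/x (x ≠ 0), so da/dr = E^2 + a^2 - a/r = k - δ. 2 δ ≤ k is x nn - 2 j0 j1 ≥ 0, i.e. xZ_nonneg.
E^2/2 ≤ δ: x j1(x) = ∫ s j0 ≥ x^2 j0(x)/2 (j0 decreasing on [0,X]). aF ≤ E because j1 ≤ j0 on [0,X]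
(Profile.lt, root). So E^2 ≤ k ≤ 2 E^2, δ ≤ k/2 ≤ E^2. Lipschitz bounds: dk/dA = 2 a (k-δ)/(2 π r) =
δ (k-δ)/π, dδ/dA = (k - 2 δ)/(2 A); integrate from A' to A with A/2 ≤ A' and E^2 A ≤ π X^2.
-/

set_option autoImplicit false

open Complex MeasureTheory Set Metric Filter
open scoped ComplexConjugate Topology

namespace Pool.Agent.FKM

theorem rad_pos {A : ℝ} (hA : 0 < A) : 0 < rad A ∧ Real.pi * rad A ^ 2 = A := by
  have hpi := Real.pi_pos
  have h1 : 0 < A / Real.pi := div_pos hA hpi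
  refine ⟨Real.sqrt_pos.2 h1, ?_⟩
  unfold rad
  rw [Real.sq_sqrt h1.le]
  field_simp

/-- the argument of the Bessel functions lies in `(0, X]` -/
private theorem bes_arg {E X A : ℝ} (hX : FK.Profile X) (hE : 0 < E) (hA : 0 < A)
    (hEA : E ^ 2 * A ≤ Real.pi * X ^ 2) : 0 < E * rad A ∧ E * rad A ≤ X := by
  obtain ⟨h1, h2⟩ := rad_pos hA
  refine ⟨mul_pos hE h1, ?_⟩
  have hpi := Real.pi_pos
  rw [← h2] at hEA
  have h3 : (E * rad A) ^ 2 ≤ X ^ 2 := by
    have : Real.pi * (E * rad A) ^ 2 ≤ Real.pi * X ^ 2 := by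
      calc Real.pi * (E * rad A) ^ 2 = E ^ 2 * (Real.pi * rad A ^ 2) := by ring
        _ ≤ _ := hEA
    exact le_of_mul_le_mul_left this hpi
  exact (pow_le_pow_iff_left₀ (mul_pos hE h1).le hX.pos.le two_ne_zero).1 h3

private theorem bes_arg_lt {E X A : ℝ} (hX : FK.Profile X) (hE : 0 < E) (hA : 0 < A)
    (hEA : E ^ 2 * A < Real.pi * X ^ 2) : E * rad A < X := by
  obtain ⟨h1, h2⟩ := rad_pos hA
  have h3 := bes_arg hX hE hA hEA.le
  refine lt_of_le_of_ne h3.2 fun h => ?_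
  rw [← h, ← h2] at hEA
  have : E ^ 2 * (Real.pi * rad A ^ 2) = Real.pi * (E * rad A) ^ 2 := by ring
  rw [h2] at this
  rw [h2] at hEA
  linarith

private theorem rad_deriv {A : ℝ} (hA : 0 < A) :
    HasDerivAt rad (1 / (2 * Real.pi * rad A)) A := by
  have hpi := Real.pi_pos
  have h1 : 0 < A / Real.pi := div_pos hA hpi
  have h2 : HasDerivAt (fun A : ℝ => A / Real.pi) (1 / Real.pi) A :=
    (hasDerivAt_id A).div_const Real.pi
  have h3 := h2.sqrt h1.ne'
  have h4 : rad = fun A : ℝ => Real.sqrt (A / Real.pi) := rfl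
  rw [h4]
  refine h3.congr_deriv ?_
  have h5 : Real.sqrt (A / Real.pi) ≠ 0 := (Real.sqrt_pos.2 h1).ne'
  field_simp

theorem aF_deriv {E X A : ℝ} (hX : FK.Profile X) (hE : 0 < E) (hA : 0 < A)
    (hEA : E ^ 2 * A ≤ Real.pi * X ^ 2) :
    HasDerivAt (aF E) ((kF E A - dF E A) / (2 * Real.pi * rad A)) A := by
  obtain ⟨hx0, hxX⟩ := bes_arg hX hE hA hEA
  obtain ⟨hr, hrA⟩ := rad_pos hA
  have hpi := Real.pi_pos
  have hj0 := (hX.j0_pos _ ⟨hx0.le, hxX⟩).ne'
  have h1 := (FK.hasDerivAt_j1 hx0.ne').div (FK.hasDerivAt_j0 (E * rad A)) hj0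
  have h2 := (rad_deriv hA).const_mul E
  have h3 : HasDerivAt (fun A => (FK.j1 / FK.j0) (E * rad A)) _ A :=
    HasDerivAt.comp (h₂ := FK.j1 / FK.j0) (h := fun A => E * rad A) A h1 h2
  have h4 := h3.const_mul E
  have h5 : aF E = fun A => E * (FK.j1 / FK.j0) (E * rad A) := by
    funext B
    unfold aF
    rw [Pi.div_apply, mul_div_assoc]
  rw [h5]
  refine h4.congr_deriv ?_
  unfold kF dF aF
  generalize hR : rad A = r at *
  field_simp
  ring

private theorem bes_low {X x : ℝ} (hX : FK.Profile X) (hx : 0 ≤ x) (hxX : x ≤ X) :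
    x ^ 2 * FK.j0 x / 2 ≤ x * FK.j1 x := by
  have hd : ∀ y : ℝ, HasDerivAt (fun y => y * FK.j1 y - y ^ 2 * FK.j0 y / 2)
      (y ^ 2 * FK.j1 y / 2) y := by
    intro y
    have h := (FK.hasDerivAt_xj1 y).sub
      (((hasDerivAt_pow 2 y).mul (FK.hasDerivAt_j0 y)).div_const 2)
    refine h.congr_deriv ?_
    push_cast
    ring
  have hmono : MonotoneOn (fun y => y * FK.j1 y - y ^ 2 * FK.j0 y / 2) (Icc 0 X) := by
    apply monotoneOn_of_deriv_nonneg (convex_Icc 0 X)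
    · exact fun y _ => (hd y).continuousAt.continuousWithinAt
    · exact fun y _ => (hd y).differentiableAt.differentiableWithinAt
    · intro y hy
      rw [interior_Icc] at hy
      rw [(hd y).deriv]
      have h1 := hX.j1_pos y ⟨hy.1, hy.2.le⟩
      positivity
  have h1 := hmono ⟨le_rfl, hX.pos.le⟩ ⟨hx, hxX⟩ hx
  simp only [zero_mul, ne_eq, OfNat.ofNat_ne_zero, not_false_eq_true, zero_pow, zero_div,
    sub_zero] at h1
  linarith

theorem aF_bounds {E X A : ℝ} (hX : FK.Profile X) (hE : 0 < E) (hA : 0 < A)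
    (hEA : E ^ 2 * A ≤ Real.pi * X ^ 2) :
    0 < aF E A ∧ aF E A ≤ E ∧ 2 * dF E A ≤ kF E A ∧ E ^ 2 / 2 ≤ dF E A ∧ dF E A ≤ E ^ 2 ∧
      E ^ 2 ≤ kF E A ∧ kF E A ≤ 2 * E ^ 2 := by
  obtain ⟨hx0, hxX⟩ := bes_arg hX hE hA hEA
  obtain ⟨hr, hrA⟩ := rad_pos hA
  have hj0 := hX.j0_pos _ ⟨hx0.le, hxX⟩
  have hj1 := hX.j1_pos _ ⟨hx0, hxX⟩
  have hle : FK.j1 (E * rad A) ≤ FK.j0 (E * rad A) := by
    rcases hxX.lt_or_eq with h | h
    · exact (hX.lt _ ⟨hx0.le, h⟩).le
    · rw [h, hX.root]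
  have ha0 : 0 < aF E A := by
    unfold aF
    positivity
  have haE : aF E A ≤ E := by
    unfold aF
    rw [div_le_iff₀ hj0]
    exact mul_le_mul_of_nonneg_left hle hE.le
  have h2d : 2 * dF E A ≤ kF E A := by
    have h1 := FK.xZ_nonneg hx0.le
    unfold FK.xZ FK.nn at h1
    unfold dF kF aF
    generalize FK.j1 (E * rad A) = b at *
    generalize FK.j0 (E * rad A) = a at *
    generalize rad A = r at *
    have h2 : (E ^ 2 + (E * b / a) ^ 2) - 2 * (E * b / a / r)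
        = ((E * r) ^ 2 * (a ^ 2 + b ^ 2) - 2 * (a * (E * r * b))) / (a ^ 2 * r ^ 2) := by
      field_simp
    have h3 : 0 ≤ ((E * r) ^ 2 * (a ^ 2 + b ^ 2) - 2 * (a * (E * r * b))) / (a ^ 2 * r ^ 2) :=
      div_nonneg h1 (by positivity)
    linarith
  have hdlow : E ^ 2 / 2 ≤ dF E A := by
    have h1 := bes_low hX hx0.le hxX
    unfold dF aF
    generalize FK.j1 (E * rad A) = b at *
    generalize FK.j0 (E * rad A) = a at *
    generalize rad A = r at *
    rw [le_div_iff₀ hr, le_div_iff₀ hj0]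
    have h2 : (E ^ 2 / 2 * r * a) * r ≤ (E * b) * r := by
      calc (E ^ 2 / 2 * r * a) * r = (E * r) ^ 2 * a / 2 := by ring
        _ ≤ E * r * b := h1
        _ = (E * b) * r := by ring
    exact le_of_mul_le_mul_right h2 hr
  have hk2 : kF E A ≤ 2 * E ^ 2 := by
    unfold kF
    have : aF E A ^ 2 ≤ E ^ 2 := pow_le_pow_left₀ ha0.le haE 2
    linarith
  refine ⟨ha0, haE, h2d, hdlow, by linarith, ?_, hk2⟩
  unfold kF
  have := sq_nonneg (aF E A)
  linarith

theorem aF_zero (E : ℝ) : aF E 0 = 0 := by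
  unfold aF rad
  rw [zero_div, Real.sqrt_zero, mul_zero, FK.j1_zero, mul_zero, zero_div]

theorem aF_mono {E X A A' : ℝ} (hX : FK.Profile X) (hE : 0 < E) (hA' : 0 ≤ A') (hAA : A' ≤ A)
    (hEA : E ^ 2 * A ≤ Real.pi * X ^ 2) : 0 ≤ aF E A' ∧ aF E A' ≤ aF E A := by
  have hle : ∀ s, s ≤ A → E ^ 2 * s ≤ Real.pi * X ^ 2 := fun s hs =>
    (mul_le_mul_of_nonneg_left hs (sq_nonneg E)).trans hEA
  rcases hA'.eq_or_lt with rfl | hA'
  · rw [aF_zero]
    refine ⟨le_rfl, ?_⟩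
    rcases hAA.eq_or_lt with rfl | hA
    · rw [aF_zero]
    · exact (aF_bounds hX hE hA hEA).1.le
  · refine ⟨(aF_bounds hX hE hA' (hle _ hAA)).1.le, ?_⟩
    have hmono : MonotoneOn (aF E) (Icc A' A) := by
      apply monotoneOn_of_deriv_nonneg (convex_Icc A' A)
      · intro s hs
        exact (aF_deriv hX hE (hA'.trans_le hs.1) (hle s hs.2)).continuousAt.continuousWithinAt
      · intro s hs
        have hs' := interior_subset hs
        exact (aF_deriv hX hE (hA'.trans_le hs'.1)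
          (hle s hs'.2)).differentiableAt.differentiableWithinAt
      · intro s hs
        have hs' := interior_subset hs
        have hs0 := hA'.trans_le hs'.1
        rw [(aF_deriv hX hE hs0 (hle s hs'.2)).deriv]
        obtain ⟨-, -, h3, h4, -, h6, -⟩ := aF_bounds hX hE hs0 (hle s hs'.2)
        have hr := (rad_pos hs0).1
        have hpi := Real.pi_pos
        apply div_nonneg
        · have : 0 ≤ dF E s := le_trans (by positivity) h4
          linarith
        · positivity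
    exact hmono ⟨le_rfl, hAA⟩ ⟨hAA, le_rfl⟩ hAA

private theorem kF_deriv {E X A : ℝ} (hX : FK.Profile X) (hE : 0 < E) (hA : 0 < A)
    (hEA : E ^ 2 * A ≤ Real.pi * X ^ 2) :
    HasDerivAt (kF E) (dF E A * (kF E A - dF E A) / Real.pi) A := by
  have h1 := aF_deriv hX hE hA hEA
  have h2 := (h1.pow 2).const_add (E ^ 2)
  have h3 : HasDerivAt (kF E) _ A := h2
  refine h3.congr_deriv ?_
  have hr := (rad_pos hA).1
  have hpi := Real.pi_pos
  have h4 : dF E A = aF E A / rad A := rfl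
  generalize kF E A - dF E A = q
  rw [h4]
  push_cast
  field_simp

private theorem dF_deriv {E X A : ℝ} (hX : FK.Profile X) (hE : 0 < E) (hA : 0 < A)
    (hEA : E ^ 2 * A ≤ Real.pi * X ^ 2) :
    HasDerivAt (dF E) ((kF E A - 2 * dF E A) / (2 * A)) A := by
  have h1 := aF_deriv hX hE hA hEA
  obtain ⟨hr, hrA⟩ := rad_pos hA
  have hpi := Real.pi_pos
  have h2 := h1.div (rad_deriv hA) hr.ne'
  have h3 : dF E = aF E / rad := rfl
  rw [h3]
  refine h2.congr_deriv ?_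
  have h4 : dF E A = aF E A / rad A := rfl
  have h5 : (aF E / rad) A = aF E A / rad A := rfl
  rw [h5, ← h4]
  have h6 : aF E A = dF E A * rad A := by rw [h4]; field_simp
  rw [h6]
  have h7 : (2 * A) = 2 * Real.pi * rad A ^ 2 := by rw [mul_assoc, hrA]
  rw [h7]
  generalize dF E A = d
  generalize kF E A = k
  field_simp
  ring

theorem aF_lip {E X : ℝ} (hX : FK.Profile X) (hE : 0 < E) :
    ∃ B : ℝ, 0 < B ∧ ∀ A A', 0 < A → E ^ 2 * A ≤ Real.pi * X ^ 2 → A / 2 ≤ A' → A' ≤ A →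
      |kF E A - kF E A'| ≤ B * (1 - A' / A) ∧ |dF E A - dF E A'| ≤ B * (1 - A' / A) := by
  refine ⟨2 * E ^ 2 * X ^ 2 + E ^ 2, by positivity, ?_⟩
  intro A A' hA hEA hA2 hAA
  have hpi := Real.pi_pos
  have hA' : 0 < A' := by linarith
  have hle : ∀ s, s ≤ A → E ^ 2 * s ≤ Real.pi * X ^ 2 := fun s hs =>
    (mul_le_mul_of_nonneg_left hs (sq_nonneg E)).trans hEA
  have hd0 : 0 ≤ 1 - A' / A := by
    rw [sub_nonneg, div_le_one hA]
    exact hAA
  have hdd : A - A' = A * (1 - A' / A) := by field_simp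
  have habs : ‖A - A'‖ = A * (1 - A' / A) := by
    rw [Real.norm_eq_abs, abs_of_nonneg (by linarith), hdd]
  constructor
  · have hm := Convex.norm_image_sub_le_of_norm_hasDerivWithin_le (f := kF E)
      (f' := fun s => dF E s * (kF E s - dF E s) / Real.pi) (s := Icc A' A) (x := A') (y := A)
      (C := 2 * E ^ 4 / Real.pi)
      (fun s hs => (kF_deriv hX hE (hA'.trans_le hs.1) (hle s hs.2)).hasDerivWithinAt)
      (fun s hs => by
        obtain ⟨-, -, h3, h4, h5, h6, h7⟩ := aF_bounds hX hE (hA'.trans_le hs.1) (hle s hs.2)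
        have h8 : 0 ≤ dF E s := le_trans (by positivity) h4
        have h9 : 0 ≤ kF E s - dF E s := by linarith
        have h10 : kF E s - dF E s ≤ 2 * E ^ 2 := by linarith
        rw [Real.norm_eq_abs, abs_of_nonneg (by positivity)]
        apply div_le_div_of_nonneg_right _ hpi.le
        calc dF E s * (kF E s - dF E s) ≤ E ^ 2 * (2 * E ^ 2) :=
              mul_le_mul h5 h10 h9 (by positivity)
          _ = 2 * E ^ 4 := by ring)
      (convex_Icc A' A) ⟨le_rfl, hAA⟩ ⟨hAA, le_rfl⟩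
    rw [Real.norm_eq_abs, habs] at hm
    refine hm.trans ?_
    rw [← mul_assoc]
    apply mul_le_mul_of_nonneg_right _ hd0
    have h1 : 2 * E ^ 4 / Real.pi * A = 2 * E ^ 2 * (E ^ 2 * A / Real.pi) := by ring
    have h2 : E ^ 2 * A / Real.pi ≤ X ^ 2 := by
      rw [div_le_iff₀ hpi]
      linarith
    rw [h1]
    have h3 : 2 * E ^ 2 * (E ^ 2 * A / Real.pi) ≤ 2 * E ^ 2 * X ^ 2 :=
      mul_le_mul_of_nonneg_left h2 (by positivity)
    have h4 : 0 ≤ E ^ 2 := sq_nonneg E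
    linarith
  · have hm := Convex.norm_image_sub_le_of_norm_hasDerivWithin_le (f := dF E)
      (f' := fun s => (kF E s - 2 * dF E s) / (2 * s)) (s := Icc A' A) (x := A') (y := A)
      (C := E ^ 2 / A)
      (fun s hs => (dF_deriv hX hE (hA'.trans_le hs.1) (hle s hs.2)).hasDerivWithinAt)
      (fun s hs => by
        have hs0 := hA'.trans_le hs.1
        obtain ⟨-, -, h3, h4, h5, h6, h7⟩ := aF_bounds hX hE hs0 (hle s hs.2)
        have h9 : 0 ≤ kF E s - 2 * dF E s := by linarith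
        have h10 : kF E s - 2 * dF E s ≤ E ^ 2 := by linarith
        rw [Real.norm_eq_abs, abs_of_nonneg (by positivity)]
        have h11 : A ≤ 2 * s := by linarith [hs.1]
        exact div_le_div₀ (sq_nonneg E) h10 hA h11)
      (convex_Icc A' A) ⟨le_rfl, hAA⟩ ⟨hAA, le_rfl⟩
    rw [Real.norm_eq_abs, habs] at hm
    refine hm.trans ?_
    rw [← mul_assoc]
    apply mul_le_mul_of_nonneg_right _ hd0
    rw [div_mul_cancel₀ _ hA.ne']
    have h4 : 0 ≤ 2 * E ^ 2 * X ^ 2 := by positivity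
    linarith

theorem aF_cont {E X : ℝ} (hX : FK.Profile X) (hE : 0 < E) {A : ℝ} (hA : 0 < A)
    (hEA : E ^ 2 * A < Real.pi * X ^ 2) :
    aF E A < E ∧ ∃ E' > E, E' ^ 2 * A < Real.pi * X ^ 2 ∧ aF E' A ≤ E := by
  obtain ⟨hx0, hxX⟩ := bes_arg hX hE hA hEA.le
  have hlt := bes_arg_lt hX hE hA hEA
  have hj0 := hX.j0_pos _ ⟨hx0.le, hxX⟩
  have h1 : aF E A < E := by
    unfold aF
    rw [div_lt_iff₀ hj0]
    exact mul_lt_mul_of_pos_left (hX.lt _ ⟨hx0.le, hlt⟩) hE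
  refine ⟨h1, ?_⟩
  have hc1 : ContinuousAt (fun e : ℝ => aF e A) E := by
    unfold aF
    apply ContinuousAt.div
    · exact (continuous_id.mul (FK.continuous_j1.comp
        (continuous_id.mul continuous_const))).continuousAt
    · exact (FK.continuous_j0.comp (continuous_id.mul continuous_const)).continuousAt
    · exact hj0.ne'
  have hc2 : ContinuousAt (fun e : ℝ => e ^ 2 * A) E := by fun_prop
  have he1 : ∀ᶠ e in 𝓝 E, aF e A < E := hc1.eventually (gt_mem_nhds h1)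
  have he2 : ∀ᶠ e in 𝓝 E, e ^ 2 * A < Real.pi * X ^ 2 := hc2.eventually (gt_mem_nhds hEA)
  have he3 : ∀ᶠ e in 𝓝[>] E, (aF e A < E ∧ e ^ 2 * A < Real.pi * X ^ 2) ∧ E < e :=
    ((he1.and he2).filter_mono nhdsWithin_le_nhds).and self_mem_nhdsWithin
  obtain ⟨e, ⟨h2, h3⟩, h4⟩ := he3.exists
  exact ⟨e, h4, h3, h2.le⟩

end Pool.Agent.FKM
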