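import Mathlib
import Pool.Agent.Helper13.FKM.Basic
import Pool.Agent.Helper13.FKM.BesA

/-!
FKM-32: effect of removing one small disc.

Plan. reg_add, bInt_add with N = {(z, ρ)}; |P| ≤ C, |closedBall z ρ| = π ρ^2; aF_mono; aF ≤ E.
-/

set_option autoImplicit false

open Complex MeasureTheory Set Metric Filter
open scoped ComplexConjugate Topology

namespace Pool.Agent.FKM

theorem add_disc (S : Dat) {F : Finset (ℂ × ℝ)} {D : Set ℂ} (h : Reg F D) (hD : D ⊆ S.W) {z : ℂ}
    {ρ : ℝ} (hρ : 0 < ρ) :
    Reg (F ∪ {(z, ρ)}) (D \ closedBall z ρ) ∧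
      S.Q (F ∪ {(z, ρ)}) (D \ closedBall z ρ) ≤ S.Q F D + S.C * (Real.pi * ρ ^ 2)
        + S.E * (2 * Real.pi * ρ * S.C) := by
  have hN : ∀ b ∈ ({(z, ρ)} : Finset (ℂ × ℝ)), 0 < b.2 := by
    intro b hb
    rw [Finset.mem_singleton] at hb
    rw [hb]
    exact hρ
  have hcl : cl ({(z, ρ)} : Finset (ℂ × ℝ)) = closedBall z ρ := by
    unfold cl
    simp
  have hreg := reg_add h hN
  rw [hcl] at hreg
  refine ⟨hreg, ?_⟩
  have hgc : Continuous S.g := S.g_cont.continuous
  have hb := bInt_add h hN hgc S.g_nonneg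
  rw [hcl, Finset.sum_singleton] at hb
  -- areas
  have hWfin : volume S.W ≠ ⊤ := S.W_bdd.measure_lt_top.ne
  have hDfin : volume D ≠ ⊤ := h.bdd.measure_lt_top.ne
  have hDW : volume.real D ≤ volume.real S.W := measureReal_mono hD hWfin
  have hDB : volume.real (D \ closedBall z ρ) ≤ volume.real D :=
    measureReal_mono sdiff_subset hDfin
  have hA0 : 0 ≤ volume.real D := measureReal_nonneg
  have hA1 : 0 ≤ volume.real (D \ closedBall z ρ) := measureReal_nonneg
  have hEA : S.E ^ 2 * volume.real D ≤ Real.pi * S.X ^ 2 := by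
    refine le_trans ?_ S.area
    exact mul_le_mul_of_nonneg_left hDW (sq_nonneg _)
  have hmono := aF_mono S.hX S.E_pos hA1 hDB hEA
  have haE : aF S.E (volume.real D) ≤ S.E := by
    rcases hA0.eq_or_lt with h0 | h0
    · rw [← h0, aF_zero]
      exact S.E_pos.le
    · exact (aF_bounds S.hX S.E_pos h0 hEA).2.1
  -- the integral of `P`
  have hint : IntegrableOn S.P D volume := by
    refine Measure.integrableOn_of_bounded hDfin S.P_cont.aestronglyMeasurable
      (M := S.C) ?_
    exact Filter.Eventually.of_forall fun w => by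
      rw [Real.norm_eq_abs]
      exact S.P_le w
  have hsplit : (∫ w in D ∩ closedBall z ρ, S.P w) + ∫ w in D \ closedBall z ρ, S.P w
      = ∫ w in D, S.P w := integral_inter_add_sdiff isClosed_closedBall.measurableSet hint
  have hball : volume.real (closedBall z ρ) = Real.pi * ρ ^ 2 := by
    rw [measureReal_def, Complex.volume_closedBall]
    rw [ENNReal.toReal_mul, ENNReal.toReal_pow, ENNReal.toReal_ofReal hρ.le]
    rw [mul_comm]
    simp
  have hP : |∫ w in D ∩ closedBall z ρ, S.P w| ≤ S.C * (Real.pi * ρ ^ 2) := by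
    rw [← Real.norm_eq_abs]
    have hfin : volume (D ∩ closedBall z ρ) < ⊤ :=
      (measure_mono inter_subset_left).trans_lt h.bdd.measure_lt_top
    have h1 : ‖∫ w in D ∩ closedBall z ρ, S.P w‖ ≤ S.C * volume.real (D ∩ closedBall z ρ) := by
      refine norm_setIntegral_le_of_norm_le_const hfin ?_
      intro w _
      rw [Real.norm_eq_abs]
      exact S.P_le w
    refine h1.trans ?_
    have hC : 0 ≤ S.C := le_trans zero_le_one S.C_one
    refine mul_le_mul_of_nonneg_left ?_ hC
    rw [← hball]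
    exact measureReal_mono inter_subset_right (isCompact_closedBall z ρ).measure_ne_top
  -- the integral of `g` over the new circle
  have hcirc : ∫ θ in Ioc (-Real.pi) Real.pi, S.g (circleMap z ρ θ) ≤ 2 * Real.pi * S.C := by
    have h1 : ‖∫ θ in Ioc (-Real.pi) Real.pi, S.g (circleMap z ρ θ)‖
        ≤ S.C * volume.real (Ioc (-Real.pi) Real.pi) := by
      refine norm_setIntegral_le_of_norm_le_const ?_ ?_
      · rw [Real.volume_Ioc]; exact ENNReal.ofReal_lt_top
      · intro θ _
        rw [Real.norm_eq_abs, abs_of_nonneg (S.g_nonneg _)]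
        exact S.g_le _
    have h2 : volume.real (Ioc (-Real.pi) Real.pi) = 2 * Real.pi := by
      rw [Real.volume_real_Ioc_of_le (by linarith [Real.pi_pos])]
      ring
    rw [h2] at h1
    have h3 := (le_abs_self _).trans ((Real.norm_eq_abs _).symm.le.trans h1)
    linarith
  have hb2 : bInt (F ∪ {(z, ρ)}) (D \ closedBall z ρ) (fun z _ => S.g z)
      ≤ bInt F D (fun z _ => S.g z) + 2 * Real.pi * ρ * S.C := by
    refine hb.trans ?_
    have : ρ * ∫ θ in Ioc (-Real.pi) Real.pi, S.g (circleMap z ρ θ)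
        ≤ ρ * (2 * Real.pi * S.C) := mul_le_mul_of_nonneg_left hcirc hρ.le
    simp only
    linarith
  have hb0 : 0 ≤ bInt F D (fun z _ => S.g z) := bInt_nonneg h fun z _ => S.g_nonneg z
  have hC0 : 0 ≤ 2 * Real.pi * ρ * S.C := by
    have hC : 0 ≤ S.C := le_trans zero_le_one S.C_one
    positivity
  unfold Dat.Q QQ
  have h5 : aF S.E (volume.real (D \ closedBall z ρ)) *
      bInt (F ∪ {(z, ρ)}) (D \ closedBall z ρ) (fun z _ => S.g z)
      ≤ aF S.E (volume.real D) * bInt F D (fun z _ => S.g z) + S.E * (2 * Real.pi * ρ * S.C) := by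
    calc aF S.E (volume.real (D \ closedBall z ρ)) *
        bInt (F ∪ {(z, ρ)}) (D \ closedBall z ρ) (fun z _ => S.g z)
        ≤ aF S.E (volume.real (D \ closedBall z ρ)) *
          (bInt F D (fun z _ => S.g z) + 2 * Real.pi * ρ * S.C) :=
          mul_le_mul_of_nonneg_left hb2 hmono.1
      _ ≤ aF S.E (volume.real D) * (bInt F D (fun z _ => S.g z) + 2 * Real.pi * ρ * S.C) :=
          mul_le_mul_of_nonneg_right hmono.2 (by linarith)
      _ = aF S.E (volume.real D) * bInt F D (fun z _ => S.g z)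
          + aF S.E (volume.real D) * (2 * Real.pi * ρ * S.C) := by ring
      _ ≤ _ := by
          have := mul_le_mul_of_nonneg_right haE hC0
          linarith
  have h6 := neg_le_of_abs_le hP
  linarith

end Pool.Agent.FKM
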