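import Mathlib
import Pool.Agent.Helper13.FKM.Basic

/-!
FKM-6: coarea formula for the fronts.

Plan. Cell of p: z = p + (τ v p) e^{iθ} with dist z p / v p < dist z q / v q for q ≠ p and z ∈ D is, for
τ ∈ (s, t], exactly θ ∈ Et D P v τ p. Polar coordinates around p (Complex.polarCoord, shift by p), r = τ v p.
`coarea_set`: (D ∩ Ut t) \ Ut s is the disjoint union of the cells up to the null sets
{dist z p * v q = dist z q * v p} (p ≠ q; a circle or a line: on all but finitely many rays from p at most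
two points).
-/

set_option autoImplicit false

open Complex MeasureTheory Set Metric Filter
open scoped ComplexConjugate Topology

namespace Pool.Agent.FKM

/-- the cell of `p` between the times `s` and `t` -/
def cellP (D : Set ℂ) (P : Finset ℂ) (v : ℂ → ℝ) (s t : ℝ) (p : ℂ) : Set ℂ :=
  {z | z ∈ D ∧ s * v p < dist z p ∧ dist z p ≤ t * v p ∧
    ∀ q ∈ P, q ≠ p → dist z p * v q < dist z q * v p}

private lemma coarea_meas_cell {D : Set ℂ} (hD : IsOpen D) (P : Finset ℂ) (v : ℂ → ℝ)
    (s t : ℝ) (p : ℂ) : MeasurableSet (cellP D P v s t p) := by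
  have h1 : MeasurableSet {z : ℂ | s * v p < dist z p} :=
    (isOpen_lt continuous_const (continuous_id.dist continuous_const)).measurableSet
  have h2 : MeasurableSet {z : ℂ | dist z p ≤ t * v p} :=
    (isClosed_le (continuous_id.dist continuous_const) continuous_const).measurableSet
  have h3 : MeasurableSet (⋂ q ∈ P, {z : ℂ | q ≠ p → dist z p * v q < dist z q * v p}) := by
    refine P.measurableSet_biInter (fun q _ => ?_)
    by_cases h : q = p
    · simp [h]
    · have : {z : ℂ | q ≠ p → dist z p * v q < dist z q * v p} =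
          {z : ℂ | dist z p * v q < dist z q * v p} := by
        ext z
        exact ⟨fun hz => hz h, fun hz _ => hz⟩
      rw [this]
      exact (isOpen_lt ((continuous_id.dist continuous_const).mul continuous_const)
        ((continuous_id.dist continuous_const).mul continuous_const)).measurableSet
  have h4 : cellP D P v s t p = (D ∩ ({z : ℂ | s * v p < dist z p} ∩ ({z : ℂ | dist z p ≤ t * v p}
      ∩ (⋂ q ∈ P, {z : ℂ | q ≠ p → dist z p * v q < dist z q * v p})))) := by
    ext z
    simp only [cellP, mem_inter_iff, mem_iInter]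
    rfl
  rw [h4]
  exact hD.measurableSet.inter (h1.inter (h2.inter h3))

private lemma coarea_meas_Et {D : Set ℂ} (hD : IsOpen D) (P : Finset ℂ) (v : ℂ → ℝ)
    (t : ℝ) (p : ℂ) : MeasurableSet (Et D P v t p) := by
  have h3 : IsOpen (⋂ q ∈ P, {z : ℂ | q ≠ p → t * v q < dist z q}) := by
    refine isOpen_biInter_finset (fun q _ => ?_)
    by_cases h : q = p
    · simp [h]
    · have : {z : ℂ | q ≠ p → t * v q < dist z q} = {z : ℂ | t * v q < dist z q} := by
        ext z
        exact ⟨fun hz => hz h, fun hz _ => hz⟩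
      rw [this]
      exact isOpen_lt continuous_const (continuous_id.dist continuous_const)
  have h4 : Et D P v t p = Ioc (-Real.pi) Real.pi ∩ (circleMap p (t * v p) ⁻¹'
      (D ∩ (⋂ q ∈ P, {z : ℂ | q ≠ p → t * v q < dist z q}))) := by
    ext θ
    simp only [Et, mem_inter_iff, mem_preimage, mem_iInter]
    rfl
  rw [h4]
  exact measurableSet_Ioc.inter ((hD.inter h3).preimage (continuous_circleMap _ _)).measurableSet

private lemma coarea_mem_iff {D : Set ℂ} {P : Finset ℂ} {v : ℂ → ℝ} (hv : ∀ p, 0 < v p)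
    {s t τ : ℝ} (h0 : 0 ≤ s) (hτ : τ ∈ Ioc s t) {p : ℂ} {θ : ℝ}
    (hθ : θ ∈ Ioc (-Real.pi) Real.pi) :
    circleMap p (τ * v p) θ ∈ cellP D P v s t p ↔ θ ∈ Et D P v τ p := by
  have hvp := hv p
  have hτ0 : 0 < τ := lt_of_le_of_lt h0 hτ.1
  have hd : dist (circleMap p (τ * v p) θ) p = τ * v p := by
    have h1 := circleMap_mem_sphere p (mul_pos hτ0 hvp).le θ
    exact h1
  constructor
  · rintro ⟨h1, -, -, h4⟩
    refine ⟨hθ, h1, fun q hq hqp => ?_⟩
    have h5 := h4 q hq hqp
    rw [hd] at h5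
    have h6 : (τ * v q) * v p < dist (circleMap p (τ * v p) θ) q * v p := by linarith
    exact lt_of_mul_lt_mul_right h6 hvp.le
  · rintro ⟨-, h1, h4⟩
    refine ⟨h1, ?_, ?_, fun q hq hqp => ?_⟩
    · rw [hd]; exact mul_lt_mul_of_pos_right hτ.1 hvp
    · rw [hd]; exact mul_le_mul_of_nonneg_right hτ.2 hvp.le
    · have h5 := mul_lt_mul_of_pos_right (h4 q hq hqp) hvp
      rw [hd]
      linarith

theorem coarea_cell {D : Set ℂ} (hD : IsOpen D) {P : Finset ℂ} {v : ℂ → ℝ}
    (hv : ∀ p, 0 < v p) {s t : ℝ} (h0 : 0 ≤ s) (hst : s ≤ t) {p : ℂ} (hp : p ∈ P)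
    {f : ℂ → ℝ} (hf : Continuous f) :
    ∫ z in cellP D P v s t p, f z =
      ∫ τ in s..t, τ * v p ^ 2 * ∫ θ in Et D P v τ p, f (circleMap p (τ * v p) θ) := by
  have hvp := hv p
  have hcell := coarea_meas_cell hD P v s t p
  set G : ℂ → ℝ := (cellP D P v s t p).indicator f with hG
  -- polar coordinates
  have e1 : ∫ z in cellP D P v s t p, f z =
      ∫ y in Ioi (0 : ℝ) ×ˢ Ioo (-Real.pi) Real.pi, y.1 * G (circleMap p y.1 y.2) := by
    rw [← integral_indicator hcell, ← integral_add_left_eq_self _ p,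
      ← Complex.integral_comp_polarCoord_symm]
    rw [polarCoord_target]
    refine setIntegral_congr_fun (measurableSet_Ioi.prod measurableSet_Ioo) (fun y _ => ?_)
    simp only [smul_eq_mul]
    congr 2
    rw [Complex.polarCoord_symm_apply, circleMap, Complex.exp_mul_I]
    push_cast
    rfl
  have hcm : Continuous (fun y : ℝ × ℝ => circleMap p y.1 y.2) := by
    unfold circleMap
    fun_prop
  have hint : IntegrableOn (fun y : ℝ × ℝ => y.1 * G (circleMap p y.1 y.2))
      (Ioi (0 : ℝ) ×ˢ Ioo (-Real.pi) Real.pi) (volume.prod volume) := by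
    have hS : MeasurableSet ((fun y : ℝ × ℝ => circleMap p y.1 y.2) ⁻¹' cellP D P v s t p) :=
      hcm.measurable hcell
    have h1 : (fun y : ℝ × ℝ => y.1 * G (circleMap p y.1 y.2)) =
        ((fun y : ℝ × ℝ => circleMap p y.1 y.2) ⁻¹' cellP D P v s t p).indicator
          (fun y => y.1 * f (circleMap p y.1 y.2)) := by
      ext y
      by_cases hy : circleMap p y.1 y.2 ∈ cellP D P v s t p
      · rw [indicator_of_mem (by exact hy), hG, indicator_of_mem hy]
      · rw [indicator_of_notMem (by exact hy), hG, indicator_of_notMem hy, mul_zero]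
    rw [h1]
    unfold IntegrableOn
    rw [integrable_indicator_iff hS]
    unfold IntegrableOn
    rw [Measure.restrict_restrict hS]
    have hcont : Continuous (fun y : ℝ × ℝ => y.1 * f (circleMap p y.1 y.2)) :=
      continuous_fst.mul (hf.comp hcm)
    have hK : IsCompact (Icc (0 : ℝ) (t * v p) ×ˢ Icc (-Real.pi) Real.pi) :=
      isCompact_Icc.prod isCompact_Icc
    refine (hcont.continuousOn.integrableOn_compact hK).mono_set ?_
    rintro y ⟨hy1, hy2⟩
    have hy0 : 0 < y.1 := hy2.1
    have hy3 : dist (circleMap p y.1 y.2) p = y.1 := circleMap_mem_sphere p hy0.le y.2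
    have hy4 : dist (circleMap p y.1 y.2) p ≤ t * v p := hy1.2.2.1
    rw [hy3] at hy4
    exact ⟨⟨hy0.le, hy4⟩, Ioo_subset_Icc_self hy2.2⟩
  have e2 : ∫ y in Ioi (0 : ℝ) ×ˢ Ioo (-Real.pi) Real.pi, y.1 * G (circleMap p y.1 y.2) =
      ∫ r in Ioi (0 : ℝ), r * ∫ θ in Ioo (-Real.pi) Real.pi, G (circleMap p r θ) := by
    rw [Measure.volume_eq_prod, setIntegral_prod _ hint]
    refine setIntegral_congr_fun measurableSet_Ioi (fun r _ => ?_)
    simp only
    rw [integral_const_mul]
  have e3 : ∫ r in Ioi (0 : ℝ), r * ∫ θ in Ioo (-Real.pi) Real.pi, G (circleMap p r θ) =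
      ∫ r in Ioc (s * v p) (t * v p), r * ∫ θ in Ioo (-Real.pi) Real.pi,
        G (circleMap p r θ) := by
    refine setIntegral_eq_of_subset_of_forall_sdiff_eq_zero measurableSet_Ioi ?_ ?_
    · intro r hr
      exact lt_of_le_of_lt (mul_nonneg h0 hvp.le) hr.1
    · rintro r ⟨hr, hr2⟩
      have hr0 : 0 < r := hr
      have h1 : ∀ θ : ℝ, G (circleMap p r θ) = 0 := by
        intro θ
        rw [hG, indicator_of_notMem]
        rintro ⟨-, h2, h3, -⟩
        have h4 : dist (circleMap p r θ) p = r := circleMap_mem_sphere p hr0.le θ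
        rw [h4] at h2 h3
        exact hr2 ⟨h2, h3⟩
      simp only [h1, integral_zero, mul_zero]
  rw [e1, e2, e3]
  -- change of variable
  have hle : s * v p ≤ t * v p := mul_le_mul_of_nonneg_right hst hvp.le
  rw [intervalIntegral.integral_of_le hst]
  have e4 : ∫ τ in Ioc s t, τ * v p ^ 2 * ∫ θ in Et D P v τ p, f (circleMap p (τ * v p) θ) =
      ∫ τ in Ioc s t, (fun r => v p * (r * ∫ θ in Ioo (-Real.pi) Real.pi,
        G (circleMap p r θ))) (τ * v p) := by
    refine setIntegral_congr_fun measurableSet_Ioc (fun τ hτ => ?_)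
    simp only
    have h1 : ∫ θ in Ioo (-Real.pi) Real.pi, G (circleMap p (τ * v p) θ) =
        ∫ θ in Et D P v τ p, f (circleMap p (τ * v p) θ) := by
      rw [← integral_Ioc_eq_integral_Ioo]
      have h2 : ∫ θ in Ioc (-Real.pi) Real.pi, G (circleMap p (τ * v p) θ) =
          ∫ θ in Ioc (-Real.pi) Real.pi, (Et D P v τ p).indicator
            (fun θ => f (circleMap p (τ * v p) θ)) θ := by
        refine setIntegral_congr_fun measurableSet_Ioc (fun θ hθ => ?_)
        have h3 := coarea_mem_iff (D := D) (P := P) hv h0 hτ (p := p) hθ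
        by_cases h4 : θ ∈ Et D P v τ p
        · rw [indicator_of_mem h4, hG, indicator_of_mem (h3.2 h4)]
        · rw [indicator_of_notMem h4, hG, indicator_of_notMem (fun h5 => h4 (h3.1 h5))]
      rw [h2, setIntegral_indicator (coarea_meas_Et hD P v τ p)]
      congr 2
      exact inter_eq_self_of_subset_right (fun θ hθ => hθ.1)
    rw [h1]
    ring
  have key := intervalIntegral.integral_comp_mul_right (a := s) (b := t)
    (fun r => v p * (r * ∫ θ in Ioo (-Real.pi) Real.pi, G (circleMap p r θ))) hvp.ne'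
  rw [e4, ← intervalIntegral.integral_of_le hst, key,
    intervalIntegral.integral_const_mul, intervalIntegral.integral_of_le hle, smul_eq_mul,
    inv_mul_cancel_left₀ hvp.ne']

private lemma coarea_null {p q : ℂ} (hpq : p ≠ q) {a b : ℝ} (ha : 0 < a) (hb : 0 < b) :
    volume {z : ℂ | dist z p * b = dist z q * a} = 0 := by
  by_cases hab : a = b
  · subst hab
    have h1 : {z : ℂ | dist z p * a = dist z q * a} ⊆
        (AffineSubspace.perpBisector p q : Set ℂ) := by
      intro z hz
      rw [SetLike.mem_coe, AffineSubspace.mem_perpBisector_iff_dist_eq]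
      exact mul_right_cancel₀ ha.ne' hz
    refine measure_mono_null h1 ?_
    refine Measure.addHaar_affineSubspace _ _ ?_
    rw [Ne, AffineSubspace.perpBisector_eq_top]
    exact hpq
  · have hk : b ^ 2 - a ^ 2 ≠ 0 := by
      intro h
      have h1 : (b - a) * (b + a) = 0 := by linarith
      rcases mul_eq_zero.1 h1 with h2 | h2
      · exact hab (by linarith)
      · linarith
    obtain ⟨k, hkk⟩ : ∃ k, k = b ^ 2 - a ^ 2 := ⟨_, rfl⟩
    rw [← hkk] at hk
    obtain ⟨x, hx⟩ : ∃ x, x = (b ^ 2 * p.re - a ^ 2 * q.re) / k := ⟨_, rfl⟩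
    obtain ⟨y, hy⟩ : ∃ y, y = (b ^ 2 * p.im - a ^ 2 * q.im) / k := ⟨_, rfl⟩
    have hx' : k * x = b ^ 2 * p.re - a ^ 2 * q.re := by
      rw [hx]; field_simp
    have hy' : k * y = b ^ 2 * p.im - a ^ 2 * q.im := by
      rw [hy]; field_simp
    obtain ⟨R, hR⟩ : ∃ R, R = x ^ 2 + y ^ 2 - (b ^ 2 * (p.re ^ 2 + p.im ^ 2) -
        a ^ 2 * (q.re ^ 2 + q.im ^ 2)) / k := ⟨_, rfl⟩
    have hR' : k * R = k * (x ^ 2 + y ^ 2) - (b ^ 2 * (p.re ^ 2 + p.im ^ 2) -
        a ^ 2 * (q.re ^ 2 + q.im ^ 2)) := by
      rw [hR]; field_simp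
    have h1 : {z : ℂ | dist z p * b = dist z q * a} ⊆ sphere (⟨x, y⟩ : ℂ) (Real.sqrt R) := by
      intro z hz
      have hz1 : dist z p * b = dist z q * a := hz
      have hz2 : (dist z p) ^ 2 * b ^ 2 = (dist z q) ^ 2 * a ^ 2 := by
        rw [← mul_pow, hz1, mul_pow]
      have hd : ∀ w : ℂ, (dist z w) ^ 2 = (z.re - w.re) ^ 2 + (z.im - w.im) ^ 2 := by
        intro w
        rw [Complex.dist_eq, Complex.sq_norm, Complex.normSq_apply, Complex.sub_re,
          Complex.sub_im]
        ring
      rw [hd, hd] at hz2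
      have h2 : (dist z (⟨x, y⟩ : ℂ)) ^ 2 = R := by
        rw [hd]
        apply mul_left_cancel₀ hk
        rw [hR']
        simp only
        have e1 : k * ((z.re - x) ^ 2 + (z.im - y) ^ 2) = k * (z.re ^ 2 + z.im ^ 2) -
            2 * z.re * (k * x) - 2 * z.im * (k * y) + k * (x ^ 2 + y ^ 2) := by ring
        rw [e1, hx', hy', hkk]
        linarith
      rw [mem_sphere, ← h2, Real.sqrt_sq dist_nonneg]
    exact measure_mono_null h1 (Measure.addHaar_sphere _ _ _)

theorem coarea_set {D : Set ℂ} (hD : IsOpen D) {P : Finset ℂ} {v : ℂ → ℝ}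
    (hv : ∀ p, 0 < v p) {s t : ℝ} (h0 : 0 ≤ s) (hst : s ≤ t) {f : ℂ → ℝ} (hf : Continuous f) :
    ∫ z in (D ∩ Ut P v t) \ Ut P v s, f z =
      ∑ p ∈ P, ∫ z in cellP D P v s t p, f z := by
  rw [← integral_biUnion_finset]
  · refine setIntegral_congr_set ?_
    have hN : volume (⋃ p ∈ P, ⋃ q ∈ P, {z : ℂ | p ≠ q ∧ dist z p * v q = dist z q * v p}) = 0 := by
      refine (measure_biUnion_null_iff P.countable_toSet).2 (fun p _ => ?_)
      refine (measure_biUnion_null_iff P.countable_toSet).2 (fun q _ => ?_)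
      by_cases h : p = q
      · simp [h]
      · exact measure_mono_null (fun z hz => hz.2) (coarea_null h (hv p) (hv q))
    rw [Filter.eventuallyEq_set]
    have hae : ∀ᵐ z : ℂ, z ∉ ⋃ p ∈ P, ⋃ q ∈ P,
        {z : ℂ | p ≠ q ∧ dist z p * v q = dist z q * v p} := measure_eq_zero_iff_ae_notMem.1 hN
    filter_upwards [hae] with z hz
    constructor
    · rintro ⟨⟨hzD, hzt⟩, hzs⟩
      simp only [Ut, mem_iUnion, exists_prop, mem_closedBall, not_exists, not_and, not_le]
        at hzt hzs
      obtain ⟨q0, hq0, hq0t⟩ := hzt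
      obtain ⟨p, hp, hmin⟩ := P.exists_min_image (fun p => dist z p / v p) ⟨q0, hq0⟩
      have hmin' : ∀ q ∈ P, dist z p * v q ≤ dist z q * v p := by
        intro q hq
        have h1 := hmin q hq
        rwa [div_le_div_iff₀ (hv p) (hv q)] at h1
      simp only [mem_iUnion, exists_prop]
      refine ⟨p, hp, hzD, hzs p hp, ?_, ?_⟩
      · have h1 := hmin q0 hq0
        have h2 : dist z q0 / v q0 ≤ t := by
          rw [div_le_iff₀ (hv q0)]; exact hq0t
        have h3 := h1.trans h2
        rwa [div_le_iff₀ (hv p)] at h3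
      · intro q hq hqp
        refine lt_of_le_of_ne (hmin' q hq) (fun heq => hz ?_)
        simp only [mem_iUnion, exists_prop]
        exact ⟨p, hp, q, hq, hqp.symm, heq⟩
    · intro hz2
      simp only [mem_iUnion, exists_prop] at hz2
      obtain ⟨p, hp, hzD, h1, h2, h3⟩ := hz2
      refine ⟨⟨hzD, ?_⟩, ?_⟩
      · simp only [Ut, mem_iUnion, exists_prop, mem_closedBall]
        exact ⟨p, hp, h2⟩
      · simp only [Ut, mem_iUnion, exists_prop, mem_closedBall, not_exists, not_and, not_le]
        intro q hq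
        by_cases hqp : q = p
        · rw [hqp]; exact h1
        · have h4 := h3 q hq hqp
          have h5 := mul_lt_mul_of_pos_right h1 (hv q)
          have h6 : (s * v q) * v p < dist z q * v p := by
            linarith
          exact lt_of_mul_lt_mul_right h6 (hv p).le
  · intro p _
    exact coarea_meas_cell hD P v s t p
  · intro p hp q hq hpq
    rw [Function.onFun, Set.disjoint_left]
    rintro z ⟨-, -, -, h1⟩ ⟨-, -, -, h2⟩
    have h3 := h1 q hq hpq.symm
    have h4 := h2 p hp hpq
    exact lt_asymm h3 h4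
  · intro p _
    refine (hf.continuousOn.integrableOn_compact (isCompact_closedBall p (t * v p))).mono_set ?_
    rintro z ⟨-, -, h1, -⟩
    exact h1

end Pool.Agent.FKM
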