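import Mathlib
import Pool.Agent.Helper13.FKM.Defs

/-!
FKM-2: topology of the parts `K, K2` of the complement of `D`.

Plan. The complement of a large ball is connected, so it lies in K or in K2: one of them is bounded.
frontier K: a point of K which is a limit of points of D ∪ K2, hence (K2 closed, disjoint from K) of D.
`sep`: one of K, K2 is compact, so the distance is positive. `exists_near`: the nearest point of K.
`reg_comp`: components of an open set are open; a frontier point of the component is not in D.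
-/

set_option autoImplicit false

open Complex MeasureTheory Set Metric Filter
open scoped ComplexConjugate Topology

namespace Pool.Agent.FKM

/-- the exterior of a disc is preconnected -/
theorem partL_isPreconnected_ext {R : ℝ} (hR : 0 < R) : IsPreconnected {z : ℂ | R < ‖z‖} := by
  have h1 : IsPreconnected {w : ℂ | Real.log R < w.re} :=
    (convex_halfSpace_re_gt (Real.log R)).isPreconnected
  have h2 : Complex.exp '' {w : ℂ | Real.log R < w.re} = {z : ℂ | R < ‖z‖} := by
    ext z
    constructor
    · rintro ⟨w, hw, rfl⟩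
      simp only [mem_ofPred_eq] at hw ⊢
      rw [Complex.norm_exp]
      exact (Real.log_lt_iff_lt_exp hR).1 hw
    · intro hz
      simp only [mem_ofPred_eq] at hz
      have hz0 : z ≠ 0 := by
        rintro rfl
        simp at hz
        linarith
      refine ⟨Complex.log z, ?_, Complex.exp_log hz0⟩
      simp only [mem_ofPred_eq, Complex.log_re]
      exact Real.log_lt_log hR hz
  rw [← h2]
  exact h1.image _ Complex.continuous_exp.continuousOn

theorem part_bdd {D K K2 : Set ℂ} (hb : Bornology.IsBounded D) (hp : Part D K K2) :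
    Bornology.IsBounded K ∨ Bornology.IsBounded K2 := by
  obtain ⟨r, hr⟩ := hb.subset_closedBall 0
  set R := max r 1 with hR
  have hR0 : 0 < R := lt_max_of_lt_right one_pos
  have hsub : {z : ℂ | R < ‖z‖} ⊆ K ∪ K2 := by
    intro z hz
    rw [hp.union]
    intro hzD
    have h1 := hr hzD
    rw [mem_closedBall, dist_zero_right] at h1
    have h2 : r ≤ R := le_max_left _ _
    simp only [mem_ofPred_eq] at hz
    linarith
  have hbd : ∀ S : Set ℂ, Disjoint {z : ℂ | R < ‖z‖} S → Bornology.IsBounded S := by
    intro S hS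
    refine (isBounded_closedBall (x := (0 : ℂ)) (r := R)).subset ?_
    intro z hz
    rw [mem_closedBall, dist_zero_right]
    by_contra hcon
    push Not at hcon
    exact (Set.disjoint_left.1 hS) hcon hz
  rcases isPreconnected_iff_subset_of_disjoint_closed.1 (partL_isPreconnected_ext hR0) K K2
    hp.closed hp.closed2 hsub (by rw [hp.disj.inter_eq, inter_empty]) with h | h
  · right
    exact hbd _ (hp.disj.mono_left h)
  · left
    exact hbd _ (hp.disj.symm.mono_left h)

theorem part_sep {D K K2 : Set ℂ} (hb : Bornology.IsBounded D) (hp : Part D K K2) :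
    ∃ η > 0, ∀ x ∈ K, ∀ y ∈ K2, η ≤ dist x y := by
  have key : ∀ A B : Set ℂ, IsCompact A → IsClosed B → Disjoint A B →
      ∃ η > 0, ∀ x ∈ A, ∀ y ∈ B, η ≤ dist x y := by
    intro A B hA hB hAB
    obtain ⟨r, hr, h⟩ := exists_pos_forall_lt_edist hA hB hAB
    refine ⟨r, by exact_mod_cast hr, fun x hx y hy => ?_⟩
    have h1 := h x hx y hy
    rw [edist_dist] at h1
    have h2 : (r : ENNReal) = ENNReal.ofReal (r : ℝ) := (ENNReal.ofReal_coe_nnreal).symm
    rw [h2] at h1
    exact (ENNReal.ofReal_lt_ofReal_iff_of_nonneg r.coe_nonneg).1 h1 |>.le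
  rcases part_bdd hb hp with h | h
  · exact key K K2 (isCompact_of_isClosed_isBounded hp.closed h) hp.closed2 hp.disj
  · obtain ⟨η, hη, h1⟩ := key K2 K (isCompact_of_isClosed_isBounded hp.closed2 h) hp.closed
      hp.disj.symm
    refine ⟨η, hη, fun x hx y hy => ?_⟩
    rw [dist_comm]
    exact h1 y hy x hx

theorem part_frontier {D K K2 : Set ℂ} (hD : IsOpen D) (hp : Part D K K2) :
    frontier K = frontier D ∩ K := by
  have hKD : ∀ x ∈ K, x ∉ D := by
    intro x hx hxD
    have : x ∈ Dᶜ := by rw [← hp.union]; exact Or.inl hx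
    exact this hxD
  rw [hp.closed.frontier_eq, hD.frontier_eq]
  ext x
  constructor
  · rintro ⟨hxK, hxi⟩
    refine ⟨⟨?_, hKD x hxK⟩, hxK⟩
    by_contra hcl
    apply hxi
    rw [mem_interior]
    refine ⟨(closure D)ᶜ ∩ K2ᶜ, ?_, (isClosed_closure.isOpen_compl).inter hp.closed2.isOpen_compl,
      hcl, fun h2 => (Set.disjoint_left.1 hp.disj) hxK h2⟩
    rintro y ⟨hy1, hy2⟩
    have hy3 : y ∈ Dᶜ := fun h => hy1 (subset_closure h)
    rw [← hp.union] at hy3
    exact hy3.resolve_right hy2
  · rintro ⟨⟨hxc, hxD⟩, hxK⟩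
    refine ⟨hxK, fun hxi => ?_⟩
    rw [_root_.mem_closure_iff] at hxc
    obtain ⟨y, hy1, hy2⟩ := hxc _ isOpen_interior hxi
    exact hKD y (interior_subset hy1) hy2

/-- nearest point of `K` -/
theorem part_near {D K K2 : Set ℂ} (hD : IsOpen D) (hp : Part D K K2) (hK : K.Nonempty) {x : ℂ}
    (hx : x ∉ K) : ∃ y ∈ frontier D ∩ K, dist x y = infDist x K ∧ 0 < dist x y ∧
      ∀ z ∈ K, dist x y ≤ dist x z := by
  have hne : Kᶜ ≠ univ := by
    intro h
    obtain ⟨z, hz⟩ := hK
    have : z ∈ Kᶜ := by rw [h]; trivial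
    exact this hz
  obtain ⟨y, hy, hd⟩ := exists_mem_frontier_infDist_compl_eq_dist (show x ∈ Kᶜ from hx) hne
  rw [frontier_compl, part_frontier hD hp] at hy
  rw [compl_compl] at hd
  refine ⟨y, hy, hd.symm, ?_, fun z hz => ?_⟩
  · rw [dist_pos]
    rintro rfl
    exact hx hy.2
  · rw [← hd]
    exact infDist_le_dist_of_mem hz

theorem Part.symm' {D K K2 : Set ℂ} (hp : Part D K K2) : Part D K2 K :=
  ⟨hp.closed2, hp.closed, hp.disj.symm, by rw [union_comm]; exact hp.union⟩

/-- the components of `D` are regular -/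
theorem reg_comp {F : Finset (ℂ × ℝ)} {D : Set ℂ} (h : Reg F D) {z : ℂ} (hz : z ∈ D) :
    Reg F (connectedComponentIn D z) ∧ IsConnected (connectedComponentIn D z) := by
  have hsub : connectedComponentIn D z ⊆ D := connectedComponentIn_subset _ _
  have hop : IsOpen (connectedComponentIn D z) := h.op.connectedComponentIn
  refine ⟨⟨h.pos, hop, h.bdd.subset hsub, h.disj.mono_left hsub, ?_⟩,
    isConnected_connectedComponentIn_iff.2 hz⟩
  intro x hx
  rw [hop.frontier_eq] at hx
  obtain ⟨hxc, hxn⟩ := hx
  have hxD : x ∉ D := by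
    intro hxD
    have hop2 : IsOpen (connectedComponentIn D x) := h.op.connectedComponentIn
    obtain ⟨y, hy1, hy2⟩ := _root_.mem_closure_iff.1 hxc _ hop2 (mem_connectedComponentIn hxD)
    have e1 := connectedComponentIn_eq hy1
    have e2 := connectedComponentIn_eq hy2
    apply hxn
    rw [e2, ← e1]
    exact mem_connectedComponentIn hxD
  apply h.front
  rw [h.op.frontier_eq]
  exact ⟨closure_mono hsub hxc, hxD⟩

end Pool.Agent.FKM
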