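import Mathlib
import Pool.Agent.Helper13.FKM.Basic
import Pool.Agent.Helper13.FKM.PartL

/-!
FKM-7: the domain at time `t` and its boundary integrals.

Plan. reg_front: D \ Ut is open bounded; its frontier is in frontier D ∪ (boundary of Ut) ⊆ cl F ∪ Ut.
part_front: (D \ Ut)ᶜ = K ∪ Ut ∪ K2 and Ut ⊆ K ∪ D is disjoint from K2 (hf.free, t ≤ t1).
bInt_front: let D' = D \ Ut. (i) b ∈ F with b.1 ∈ K: expo D' b = ∅, because a circle point in closure D' is
in frontier D ∩ K, hence (cover) in an open ball ball p (t v p) disjoint from D'. (ii) b ∈ F with b.1 ∈ K2: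
expo D' b = expo D b, because near a point of K2 the sets D and D' coincide (Ut closed, disjoint from K2).
(iii) expo D' (p, t v p) = Et D P v t p up to a finite set (finite_circ): if x is on the circle p and in
closure D' then x is in no open ball, so x ∉ frontier D ∩ K, x ∉ K2, hence x ∈ D, and dist x q ≥ t v q with
equality for finitely many θ only; conversely if θ ∈ Et then x + ε e^{iθ} ∈ D' for small ε > 0.
If (p, t v p) happens to be in F both sides give 0 for it.
-/

set_option autoImplicit false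

open Complex MeasureTheory Set Metric Filter
open scoped ComplexConjugate Topology

namespace Pool.Agent.FKM

theorem isClosed_Ut (P : Finset ℂ) (v : ℂ → ℝ) (t : ℝ) : IsClosed (Ut P v t) := by
  unfold Ut
  exact P.finite_toSet.isClosed_biUnion (fun p _ => isClosed_closedBall)

theorem cl_Ft (F : Finset (ℂ × ℝ)) (P : Finset ℂ) (v : ℂ → ℝ) (t : ℝ) :
    cl (Ft F P v t) = cl F ∪ Ut P v t := by
  classical
  ext x
  simp only [cl, Ft, Ut, mem_iUnion, Finset.mem_union, Finset.mem_image, mem_union, exists_prop]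
  constructor
  · rintro ⟨b, hb | ⟨p, hp, rfl⟩, hx⟩
    · exact Or.inl ⟨b, hb, hx⟩
    · exact Or.inr ⟨p, hp, hx⟩
  · rintro (⟨b, hb, hx⟩ | ⟨p, hp, hx⟩)
    · exact ⟨b, Or.inl hb, hx⟩
    · exact ⟨_, Or.inr ⟨p, hp, rfl⟩, hx⟩

theorem Front.tpos {D K K2 : Set ℂ} {P : Finset ℂ} {v : ℂ → ℝ} {t0 t1 : ℝ}
    (hf : Front D K K2 P v t0 t1) {t : ℝ} (ht : t ∈ Icc t0 t1) : 0 < t :=
  lt_of_lt_of_le hf.t0pos ht.1

theorem Front.Ut_sub {D K K2 : Set ℂ} {P : Finset ℂ} {v : ℂ → ℝ} {t0 t1 : ℝ}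
    (hf : Front D K K2 P v t0 t1) {t : ℝ} (ht : t ∈ Icc t0 t1) : Ut P v t ⊆ K ∪ D := by
  intro x hx
  simp only [Ut, mem_iUnion, exists_prop] at hx
  obtain ⟨p, hp, hx⟩ := hx
  refine hf.free p hp (closedBall_subset_closedBall ?_ hx)
  exact mul_le_mul_of_nonneg_right ht.2 (hf.vpos p).le

theorem Front.Ut_disj {D K K2 : Set ℂ} {P : Finset ℂ} {v : ℂ → ℝ} {t0 t1 : ℝ}
    (hf : Front D K K2 P v t0 t1) {t : ℝ} (ht : t ∈ Icc t0 t1) : Disjoint (Ut P v t) K2 := by
  rw [Set.disjoint_left]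
  intro x hx hx2
  rcases hf.Ut_sub ht hx with h | h
  · exact Set.disjoint_left.1 hf.part.disj h hx2
  · have h2 : x ∈ Dᶜ := by
      rw [← hf.part.union]
      exact Or.inr hx2
    exact h2 h

/-- a frontier point of `D` in `K` is not in the closure of `D \ Ut` -/
theorem Front.not_mem_closure {D K K2 : Set ℂ} {P : Finset ℂ} {v : ℂ → ℝ} {t0 t1 : ℝ}
    (hf : Front D K K2 P v t0 t1) {t : ℝ} (ht : t ∈ Icc t0 t1) {x : ℂ}
    (hx : x ∈ frontier D) (hxK : x ∈ K) : x ∉ closure (D \ Ut P v t) := by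
  intro hc
  obtain ⟨p, hp, hd⟩ := hf.cover x hx hxK
  have h1 : x ∈ ball p (t * v p) := by
    rw [mem_ball]
    exact lt_of_lt_of_le hd (mul_le_mul_of_nonneg_right ht.1 (hf.vpos p).le)
  obtain ⟨y, hy1, hy2⟩ := mem_closure_iff.1 hc _ isOpen_ball h1
  apply hy2.2
  simp only [Ut, mem_iUnion, exists_prop]
  exact ⟨p, hp, ball_subset_closedBall hy1⟩

theorem reg_front {F : Finset (ℂ × ℝ)} {D K K2 : Set ℂ} {P : Finset ℂ} {v : ℂ → ℝ} {t0 t1 : ℝ}
    (h : Reg F D) (hf : Front D K K2 P v t0 t1) {t : ℝ} (ht : t ∈ Icc t0 t1) :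
    Reg (Ft F P v t) (D \ Ut P v t) := by
  classical
  have hop : IsOpen (D \ Ut P v t) := h.op.sdiff (isClosed_Ut P v t)
  refine ⟨?_, hop, h.bdd.subset sdiff_subset, ?_, ?_⟩
  · intro b hb
    rw [Ft, Finset.mem_union, Finset.mem_image] at hb
    rcases hb with hb | ⟨p, hp, rfl⟩
    · exact h.pos b hb
    · exact mul_pos (hf.tpos ht) (hf.vpos p)
  · rw [cl_Ft, Set.disjoint_union_right]
    exact ⟨h.disj.mono_left sdiff_subset, Set.disjoint_left.2 (fun x hx hx2 => hx.2 hx2)⟩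
  · rw [cl_Ft]
    intro x hx
    by_cases hxU : x ∈ Ut P v t
    · exact Or.inr hxU
    · left
      apply h.front
      have h1 : x ∈ closure D := closure_mono sdiff_subset hx.1
      rw [frontier, hop.interior_eq] at hx
      rw [frontier, h.op.interior_eq]
      exact ⟨h1, fun h2 => hx.2 ⟨h2, hxU⟩⟩

theorem part_front {D K K2 : Set ℂ} {P : Finset ℂ} {v : ℂ → ℝ} {t0 t1 : ℝ}
    (hf : Front D K K2 P v t0 t1) {t : ℝ} (ht : t ∈ Icc t0 t1) :
    Part (D \ Ut P v t) (K ∪ Ut P v t) K2 := by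
  refine ⟨hf.part.closed.union (isClosed_Ut P v t), hf.part.closed2, ?_, ?_⟩
  · rw [Set.disjoint_union_left]
    exact ⟨hf.part.disj, hf.Ut_disj ht⟩
  · rw [Set.sdiff_eq, Set.compl_inter, compl_compl, ← hf.part.union]
    ext x
    simp only [mem_union]
    tauto

/-- a closed disc in the complement of `D` with centre in `K` is contained in `K` -/
theorem ball_sub_part {D K K2 : Set ℂ} (hp : Part D K K2) {c : ℂ} {r : ℝ} (hr : 0 ≤ r)
    (hd : Disjoint D (closedBall c r)) (hc : c ∈ K) : closedBall c r ⊆ K := by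
  have hconn : IsPreconnected (closedBall c r) := (convex_closedBall c r).isPreconnected
  have hcb : c ∈ closedBall c r := mem_closedBall_self hr
  have hsub : closedBall c r ⊆ K ∪ K2 := by
    rw [hp.union]
    intro x hx hxD
    exact Set.disjoint_left.1 hd hxD hx
  have h1 := isPreconnected_closed_iff.1 hconn K K2 hp.closed hp.closed2 hsub ⟨c, hcb, hc⟩
  intro x hx
  rcases hsub hx with h2 | h2
  · exact h2
  · exfalso
    obtain ⟨y, _, hy1, hy2⟩ := h1 ⟨x, hx, h2⟩
    exact Set.disjoint_left.1 hp.disj hy1 hy2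

theorem disj_ball {F : Finset (ℂ × ℝ)} {D : Set ℂ} (hdisj : Disjoint D (cl F)) {b : ℂ × ℝ}
    (hb : b ∈ F) : Disjoint D (closedBall b.1 b.2) := by
  refine hdisj.mono_right ?_
  intro x hx
  simp only [cl, mem_iUnion, exists_prop]
  exact ⟨b, hb, hx⟩

/-- discs of `F` in `K` are covered by the front -/
theorem expo_front_K {F : Finset (ℂ × ℝ)} {D K K2 : Set ℂ} {P : Finset ℂ} {v : ℂ → ℝ} {t0 t1 : ℝ}
    (hpos : ∀ b ∈ F, 0 < b.2) (hdisj : Disjoint D (cl F))
    (hf : Front D K K2 P v t0 t1) {t : ℝ} (ht : t ∈ Icc t0 t1) {b : ℂ × ℝ} (hb : b ∈ F)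
    (hbK : b.1 ∈ K) : expo (D \ Ut P v t) b = ∅ := by
  rw [Set.eq_empty_iff_forall_notMem]
  rintro θ ⟨_, hθ⟩
  have hxb : circleMap b.1 b.2 θ ∈ closedBall b.1 b.2 :=
    circleMap_mem_closedBall _ (hpos b hb).le _
  have hxK := ball_sub_part hf.part (hpos b hb).le (disj_ball hdisj hb) hbK hxb
  refine hf.not_mem_closure ht ?_ hxK hθ
  rw [frontier, hf.op.interior_eq]
  refine ⟨closure_mono sdiff_subset hθ, fun hD => ?_⟩
  exact Set.disjoint_left.1 (disj_ball hdisj hb) hD hxb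

/-- discs of `F` in `K2` do not see the front -/
theorem expo_front_K2 {F : Finset (ℂ × ℝ)} {D K K2 : Set ℂ} {P : Finset ℂ} {v : ℂ → ℝ} {t0 t1 : ℝ}
    (hpos : ∀ b ∈ F, 0 < b.2) (hdisj : Disjoint D (cl F))
    (hf : Front D K K2 P v t0 t1) {t : ℝ} (ht : t ∈ Icc t0 t1) {b : ℂ × ℝ} (hb : b ∈ F)
    (hbK : b.1 ∈ K2) : expo (D \ Ut P v t) b = expo D b := by
  refine Set.Subset.antisymm (expo_mono sdiff_subset b) ?_
  rintro θ ⟨hθ1, hθ2⟩
  refine ⟨hθ1, ?_⟩
  have hp2 : Part D K2 K := ⟨hf.part.closed2, hf.part.closed, hf.part.disj.symm, by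
    rw [Set.union_comm]; exact hf.part.union⟩
  have hxb : circleMap b.1 b.2 θ ∈ closedBall b.1 b.2 :=
    circleMap_mem_closedBall _ (hpos b hb).le _
  have hxK := ball_sub_part hp2 (hpos b hb).le (disj_ball hdisj hb) hbK hxb
  have hxU : circleMap b.1 b.2 θ ∉ Ut P v t := fun h => Set.disjoint_left.1 (hf.Ut_disj ht) h hxK
  have h1 : circleMap b.1 b.2 θ ∈ closure D \ closure (Ut P v t) := by
    rw [(isClosed_Ut P v t).closure_eq]
    exact ⟨hθ2, hxU⟩
  exact closure_sdiff h1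

/-- the exposed angles of the moving discs -/
theorem expo_front_P {D K K2 : Set ℂ} {P : Finset ℂ} {v : ℂ → ℝ} {t0 t1 : ℝ}
    (hf : Front D K K2 P v t0 t1) {t : ℝ} (ht : t ∈ Icc t0 t1) {p : ℂ} (hp : p ∈ P) :
    expo (D \ Ut P v t) (p, t * v p) =ᵐ[volume] Et D P v t p := by
  classical
  have htp := hf.tpos ht
  have hr : ∀ q, 0 < t * v q := fun q => mul_pos htp (hf.vpos q)
  set S : Set ℝ := ⋃ q ∈ P.erase p,
    {θ | θ ∈ Ioc (-Real.pi) Real.pi ∧ dist (circleMap p (t * v p) θ) q = t * v q} with hS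
  have hSfin : S.Finite := by
    refine (P.erase p).finite_toSet.biUnion (fun q hq => ?_)
    refine finite_circ (hr p) (hr q) (fun h => ?_)
    exact (Finset.mem_erase.1 (Finset.mem_coe.1 hq)).1 (congrArg Prod.fst h).symm
  have hS0 : volume S = 0 := hSfin.measure_zero _
  have hae : ∀ᵐ θ ∂(volume : Measure ℝ), θ ∉ S := measure_eq_zero_iff_ae_notMem.1 hS0
  filter_upwards [hae] with θ hθS
  refine propext ⟨?_, ?_⟩
  · rintro ⟨hθ1, hθ2⟩
    have hnb : ∀ q ∈ P, t * v q ≤ dist (circleMap p (t * v p) θ) q := by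
      intro q hq
      by_contra hcon
      push Not at hcon
      obtain ⟨y, hy1, hy2⟩ := mem_closure_iff.1 hθ2 _ isOpen_ball (mem_ball.2 hcon)
      apply hy2.2
      simp only [Ut, mem_iUnion, exists_prop]
      exact ⟨q, hq, ball_subset_closedBall hy1⟩
    have hxU : circleMap p (t * v p) θ ∈ Ut P v t := by
      simp only [Ut, mem_iUnion, exists_prop]
      exact ⟨p, hp, circleMap_mem_closedBall _ (hr p).le _⟩
    refine ⟨hθ1, ?_, ?_⟩
    · rcases hf.Ut_sub ht hxU with h1 | h1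
      · by_contra hxD
        refine hf.not_mem_closure ht ?_ h1 hθ2
        rw [frontier, hf.op.interior_eq]
        exact ⟨closure_mono sdiff_subset hθ2, hxD⟩
      · exact h1
    · intro q hq hqp
      refine lt_of_le_of_ne (hnb q hq) (fun heq => hθS ?_)
      rw [hS]
      simp only [mem_iUnion, exists_prop, Finset.mem_erase]
      exact ⟨q, ⟨hqp, hq⟩, hθ1, heq.symm⟩
  · rintro ⟨hθ1, hθ2, hθ3⟩
    refine ⟨hθ1, ?_⟩
    show circleMap p (t * v p) θ ∈ closure (D \ Ut P v t)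
    -- approach from outside
    have hcont : Continuous (fun ε : ℝ => circleMap p (t * v p + ε) θ) := by
      unfold circleMap
      fun_prop
    have h0 : circleMap p (t * v p + 0) θ = circleMap p (t * v p) θ := by rw [add_zero]
    have htend : Tendsto (fun ε : ℝ => circleMap p (t * v p + ε) θ) (𝓝[>] 0)
        (𝓝 (circleMap p (t * v p) θ)) := by
      rw [← h0]
      exact (hcont.tendsto 0).mono_left nhdsWithin_le_nhds
    refine mem_closure_of_tendsto htend ?_
    have e1 : ∀ᶠ ε : ℝ in 𝓝[>] 0, circleMap p (t * v p + ε) θ ∈ D :=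
      htend.eventually (hf.op.mem_nhds hθ2)
    have e2 : ∀ᶠ ε : ℝ in 𝓝[>] 0, ∀ q ∈ P.erase p,
        t * v q < dist (circleMap p (t * v p + ε) θ) q := by
      rw [Filter.eventually_all_finset]
      intro q hq
      have hq' := Finset.mem_erase.1 hq
      have h1 : {y : ℂ | t * v q < dist y q} ∈ 𝓝 (circleMap p (t * v p) θ) :=
        (isOpen_lt continuous_const (continuous_id.dist continuous_const)).mem_nhds
          (hθ3 q hq'.2 hq'.1)
      exact htend.eventually h1
    have e3 : ∀ᶠ ε : ℝ in 𝓝[>] 0, (0 : ℝ) < ε := self_mem_nhdsWithin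
    filter_upwards [e1, e2, e3] with ε h1 h2 h3
    refine ⟨h1, ?_⟩
    simp only [Ut, mem_iUnion, exists_prop, not_exists, not_and, mem_closedBall, not_le]
    intro q hq
    by_cases hqp : q = p
    · subst hqp
      have h4 : dist (circleMap q (t * v q + ε) θ) q = t * v q + ε := by
        rw [dist_eq_norm, circleMap_sub_center, norm_circleMap_zero, abs_of_pos (by have := hr q; linarith)]
      rw [h4]
      linarith
    · exact h2 q (Finset.mem_erase.2 ⟨hqp, hq⟩)

theorem sum_image_front {P : Finset ℂ} {v : ℂ → ℝ} {t : ℝ} (f : ℂ × ℝ → ℝ) :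
    ∑ b ∈ P.image (fun p => (p, t * v p)), f b = ∑ p ∈ P, f (p, t * v p) := by
  rw [Finset.sum_image]
  intro p _ q _ hpq
  exact congrArg Prod.fst hpq

/-- `F` may be empty here (`K2 = ∅`) -/
theorem bInt_front {F : Finset (ℂ × ℝ)} {D K K2 : Set ℂ} {P : Finset ℂ} {v : ℂ → ℝ} {t0 t1 : ℝ}
    (hpos : ∀ b ∈ F, 0 < b.2) (hdisj : Disjoint D (cl F))
    (hf : Front D K K2 P v t0 t1) {t : ℝ} (ht : t ∈ Icc t0 t1)
    (G : ℂ → ℂ → ℝ) (hG : Continuous (Function.uncurry G)) :
    bInt (Ft F P v t) (D \ Ut P v t) G = bInt (inK F K2) D G + fInt D P v t G := by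
  classical
  set D' := D \ Ut P v t with hD'
  set f : ℂ × ℝ → ℝ := fun b => b.2 * ∫ θ in expo D' b, G (circleMap b.1 b.2 θ) (exp (θ * I))
    with hfdef
  have hfK : ∀ b ∈ F, b.1 ∈ K → f b = 0 := by
    intro b hb hbK
    simp only [hfdef]
    rw [hD', expo_front_K hpos hdisj hf ht hb hbK]
    simp
  -- the moving discs
  have hmov : ∑ b ∈ P.image (fun p => (p, t * v p)), f b = fInt D P v t G := by
    rw [sum_image_front, fInt]
    refine Finset.sum_congr rfl (fun p hp => ?_)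
    simp only [hfdef]
    rw [setIntegral_congr_set (expo_front_P hf ht hp)]
  have hsplit : ∑ b ∈ Ft F P v t, f b = ∑ b ∈ F, f b + ∑ b ∈ P.image (fun p => (p, t * v p)), f b := by
    have h1 := Finset.sum_union_inter (s₁ := F) (s₂ := P.image (fun p => (p, t * v p))) (f := f)
    have h2 : ∑ b ∈ F ∩ P.image (fun p => (p, t * v p)), f b = 0 := by
      refine Finset.sum_eq_zero (fun b hb => ?_)
      rw [Finset.mem_inter, Finset.mem_image] at hb
      obtain ⟨hb1, p, hp, hpb⟩ := hb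
      refine hfK b hb1 ?_
      rw [← hpb]
      exact hf.sub p hp
    rw [h2, add_zero] at h1
    rw [← h1]
    rfl
  have hF : ∑ b ∈ F, f b = bInt (inK F K2) D G := by
    unfold bInt inK
    rw [Finset.sum_filter]
    refine Finset.sum_congr rfl (fun b hb => ?_)
    split_ifs with h2
    · simp only [hfdef]
      rw [hD', expo_front_K2 hpos hdisj hf ht hb h2]
    · refine hfK b hb ?_
      have h3 : b.1 ∈ Dᶜ := by
        intro hbD
        exact Set.disjoint_left.1 (disj_ball hdisj hb) hbD (mem_closedBall_self (hpos b hb).le)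
      rw [← hf.part.union] at h3
      exact h3.resolve_right h2
  show ∑ b ∈ Ft F P v t, f b = _
  rw [hsplit, hF, hmov]

theorem bInt_front_inK {F : Finset (ℂ × ℝ)} {D K K2 : Set ℂ} {P : Finset ℂ} {v : ℂ → ℝ}
    {t0 t1 : ℝ} (h : Reg F D) (hf : Front D K K2 P v t0 t1) {t : ℝ} (ht : t ∈ Icc t0 t1)
    (G : ℂ → ℂ → ℝ) (hG : Continuous (Function.uncurry G)) :
    bInt (inK (Ft F P v t) (K ∪ Ut P v t)) (D \ Ut P v t) G = fInt D P v t G := by
  classical
  have h1 := bInt_split (reg_front h hf ht) (part_front hf ht) G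
  have h2 := bInt_front h.pos h.disj hf ht G hG
  have h3 : bInt (inK (Ft F P v t) K2) (D \ Ut P v t) G = bInt (inK F K2) D G := by
    have h4 : inK (Ft F P v t) K2 = inK F K2 := by
      unfold inK Ft
      rw [Finset.filter_union]
      have h5 : (P.image (fun p => (p, t * v p))).filter (fun b => b.1 ∈ K2) = ∅ := by
        rw [Finset.filter_eq_empty_iff]
        intro b hb hb2
        obtain ⟨p, hp, rfl⟩ := Finset.mem_image.1 hb
        exact Set.disjoint_left.1 hf.part.disj (hf.sub p hp) hb2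
      rw [h5, Finset.union_empty]
    rw [h4]
    unfold bInt
    refine Finset.sum_congr rfl (fun b hb => ?_)
    unfold inK at hb
    rw [Finset.mem_filter] at hb
    rw [expo_front_K2 h.pos h.disj hf ht hb.1 hb.2]
  linarith

/-- the same for a bounded open set without discs (`K = Dᶜ`) -/
theorem reg_front0 {D K : Set ℂ} {P : Finset ℂ} {v : ℂ → ℝ} {t0 t1 : ℝ}
    (hf : Front D K ∅ P v t0 t1) {t : ℝ} (ht : t ∈ Icc t0 t1) :
    Reg (Ft ∅ P v t) (D \ Ut P v t) ∧ closure (D \ Ut P v t) ⊆ D := by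
  classical
  have hop : IsOpen (D \ Ut P v t) := hf.op.sdiff (isClosed_Ut P v t)
  have hcl : closure (D \ Ut P v t) ⊆ D := by
    intro x hx
    by_contra hxD
    have h1 : x ∈ K ∪ ∅ := by
      rw [hf.part.union]
      exact hxD
    rw [Set.union_empty] at h1
    refine hf.not_mem_closure ht ?_ h1 hx
    rw [frontier, hf.op.interior_eq]
    exact ⟨closure_mono sdiff_subset hx, hxD⟩
  refine ⟨⟨?_, hop, hf.bdd.subset sdiff_subset, ?_, ?_⟩, hcl⟩
  · intro b hb
    rw [Ft, Finset.empty_union, Finset.mem_image] at hb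
    obtain ⟨p, hp, rfl⟩ := hb
    exact mul_pos (hf.tpos ht) (hf.vpos p)
  · rw [cl_Ft]
    have h1 : cl (∅ : Finset (ℂ × ℝ)) = ∅ := by simp [cl]
    rw [h1, Set.empty_union]
    exact Set.disjoint_left.2 (fun x hx hx2 => hx.2 hx2)
  · rw [cl_Ft]
    intro x hx
    right
    by_contra hxU
    rw [frontier, hop.interior_eq] at hx
    exact hx.2 ⟨hcl hx.1, hxU⟩

end Pool.Agent.FKM
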