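import Mathlib
import Pool.Agent.Helper13.FKM.Basic
import Pool.Agent.Helper13.FKM.PartL

/-!
FKM-4: the collar of `K` swept in a short time.

Plan. Let x ∈ D, p ∈ A with dist x p ≤ τ v p, y the nearest point of K to x (part_near): y ∈ frontier D,
dist x y ≤ dist x p. As K2 is at positive distance and y ∈ frontier D is on a circle b ∈ F
(exists_circle), b.1 ∈ K because closedBall b.1 b.2 ⊆ Dᶜ = K ∪ K2 is connected and contains y ∈ K. The
whole closed disc b is in K, so dist x y ≤ dist x b.1 - b.2, and dist x b.1 ≤ dist x y + b.2, hence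
equality: x = b.1 + (b.2 + σ) e^{iθ}, y = circleMap b.1 b.2 θ, σ = dist x y, θ ∈ expo D b. Moreover
σ g y ≤ σ (g p + C dist y p) ≤ τ + 2 C σ' ^2 ≤ τ (1 + C' τ) with σ' = dist x p ≤ C τ. So the set is contained
in the union over b ∈ inK F K of the polar sectors θ ∈ expo D b, b.2 < r ≤ b.2 + τ(1 + C' τ)/g(y_θ).
Integrate g^2 in polar coordinates: g(x)^2 ≤ g(y)^2 + C'' τ, r ≤ b.2 + C'' τ. So the integral is at most
τ bInt + C3 τ^2 with C3 depending on F, D.
-/

set_option autoImplicit false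

open Complex MeasureTheory Set Metric Filter
open scoped ComplexConjugate Topology

namespace Pool.Agent.FKM

/-- a polar sector with variable radius -/
private def sect (c : ℂ) (ρ : ℝ) (E : Set ℝ) (φ : ℝ → ℝ) (τ' : ℝ) : Set ℂ :=
  {z | ρ < ‖z - c‖ ∧ arg (z - c) ∈ E ∧ (‖z - c‖ - ρ) * φ (arg (z - c)) ≤ τ'}

private theorem measurableSet_sect (c : ℂ) (ρ : ℝ) {E : Set ℝ} (hE : MeasurableSet E)
    {φ : ℝ → ℝ} (hφ : Measurable φ) (τ' : ℝ) : MeasurableSet (sect c ρ E φ τ') := by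
  have h1 : Measurable (fun z : ℂ => ‖z - c‖) := by fun_prop
  have h2 : Measurable (fun z : ℂ => arg (z - c)) :=
    Complex.measurable_arg.comp (by fun_prop)
  have h3 : Measurable (fun z : ℂ => (‖z - c‖ - ρ) * φ (arg (z - c))) :=
    (h1.sub measurable_const).mul (hφ.comp h2)
  have h4 : sect c ρ E φ τ' = {z : ℂ | ρ < ‖z - c‖} ∩ ((fun z : ℂ => arg (z - c)) ⁻¹' E ∩
      {z : ℂ | (‖z - c‖ - ρ) * φ (arg (z - c)) ≤ τ'}) := by
    ext z; exact Iff.rfl
  rw [h4]
  exact (measurableSet_lt measurable_const h1).inter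
    ((h2 hE).inter (measurableSet_le h3 measurable_const))

/-- integral over a polar sector with variable radius -/
private theorem sector_le (c : ℂ) (ρ : ℝ) {E : Set ℝ} (hE : MeasurableSet E)
    {φ H : ℝ → ℝ} (hφ : Measurable φ) (hφ0 : ∀ θ ∈ E, 0 < φ θ) (hH : Measurable H) (τ' : ℝ)
    (f : ℂ → ℝ) (hf : ∀ z ∈ sect c ρ E φ τ', ‖z - c‖ * f z ≤ H (arg (z - c))) :
    ∫⁻ z in sect c ρ E φ τ', ENNReal.ofReal (f z) ≤
      ∫⁻ θ in E, ENNReal.ofReal (H θ) * ENNReal.ofReal (τ' / φ θ) := by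
  have hTm := measurableSet_sect c ρ hE hφ τ'
  set T := sect c ρ E φ τ' with hT
  set F : ℂ → ENNReal := T.indicator (fun z => ENNReal.ofReal (f z)) with hF
  have h1 : ∫⁻ z in T, ENNReal.ofReal (f z) = ∫⁻ w, F (c + w) := by
    rw [lintegral_add_left_eq_self F c, hF, lintegral_indicator hTm]
  rw [h1, ← Complex.lintegral_comp_polarCoord_symm]
  set S : Set (ℝ × ℝ) := {p | ρ < p.1 ∧ p.2 ∈ E ∧ (p.1 - ρ) * φ p.2 ≤ τ'} with hS
  have hSm : MeasurableSet S := by
    have h3 : Measurable (fun p : ℝ × ℝ => (p.1 - ρ) * φ p.2) :=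
      (measurable_fst.sub measurable_const).mul (hφ.comp measurable_snd)
    have h4 : S = {p : ℝ × ℝ | ρ < p.1} ∩ (Prod.snd ⁻¹' E ∩
        {p : ℝ × ℝ | (p.1 - ρ) * φ p.2 ≤ τ'}) := by
      ext p; exact Iff.rfl
    rw [h4]
    exact (measurableSet_lt measurable_const measurable_fst).inter
      ((measurable_snd hE).inter (measurableSet_le h3 measurable_const))
  set G : ℝ × ℝ → ENNReal := S.indicator (fun p => ENNReal.ofReal (H p.2)) with hG
  have hGm : Measurable G :=
    Measurable.indicator (ENNReal.measurable_ofReal.comp (hH.comp measurable_snd)) hSm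
  have h2 : ∫⁻ p in polarCoord.target, ENNReal.ofReal p.1 • F (c + Complex.polarCoord.symm p) ≤
      ∫⁻ p in polarCoord.target, G p := by
    refine setLIntegral_mono' ?_ ?_
    · exact polarCoord.open_target.measurableSet
    · intro p hp
      have hp' : p.1 ∈ Ioi (0 : ℝ) ∧ p.2 ∈ Ioo (-Real.pi) Real.pi := hp
      have hr : 0 < p.1 := hp'.1
      have hθ : p.2 ∈ Ioc (-Real.pi) Real.pi := ⟨hp'.2.1, hp'.2.2.le⟩
      have hn : ‖c + Complex.polarCoord.symm p - c‖ = p.1 := by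
        rw [add_sub_cancel_left, Complex.norm_polarCoord_symm, abs_of_pos hr]
      have ha : arg (c + Complex.polarCoord.symm p - c) = p.2 := by
        rw [add_sub_cancel_left, Complex.polarCoord_symm_apply]
        have := Complex.arg_mul_cos_add_sin_mul_I hr hθ
        push_cast at this ⊢
        exact this
      by_cases hmem : c + Complex.polarCoord.symm p ∈ T
      · have h3 := hf _ hmem
        rw [hn, ha] at h3
        have h4 : p ∈ S := by
          have h5 : ρ < ‖c + Complex.polarCoord.symm p - c‖ ∧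
            arg (c + Complex.polarCoord.symm p - c) ∈ E ∧
            (‖c + Complex.polarCoord.symm p - c‖ - ρ) *
              φ (arg (c + Complex.polarCoord.symm p - c)) ≤ τ' := hmem
          rw [hn, ha] at h5
          exact h5
        rw [hF, hG, indicator_of_mem hmem, indicator_of_mem h4, smul_eq_mul,
          ← ENNReal.ofReal_mul hr.le]
        exact ENNReal.ofReal_le_ofReal h3
      · rw [hF, indicator_of_notMem hmem, smul_zero]
        exact zero_le
  refine h2.trans ((lintegral_mono' Measure.restrict_le_self (le_refl _)).trans ?_)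
  rw [Measure.volume_eq_prod, lintegral_prod_symm _ hGm.aemeasurable,
    ← lintegral_indicator hE]
  refine lintegral_mono (fun θ => ?_)
  by_cases hθE : θ ∈ E
  · rw [indicator_of_mem hθE]
    have hφp := hφ0 θ hθE
    have h3 : ∀ r : ℝ, G (r, θ) = (Ioc ρ (ρ + τ' / φ θ)).indicator
        (fun _ => ENNReal.ofReal (H θ)) r := by
      intro r
      by_cases hr : r ∈ Ioc ρ (ρ + τ' / φ θ)
      · rw [indicator_of_mem hr, hG, indicator_of_mem]
        refine ⟨hr.1, hθE, ?_⟩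
        have h4 := hr.2
        have h5 : r - ρ ≤ τ' / φ θ := by linarith
        rwa [le_div_iff₀ hφp] at h5
      · rw [indicator_of_notMem hr, hG, indicator_of_notMem]
        intro hcon
        apply hr
        refine ⟨hcon.1, ?_⟩
        have h5 : (r - ρ) * φ θ ≤ τ' := hcon.2.2
        rw [← le_div_iff₀ hφp] at h5
        linarith
    simp_rw [h3]
    rw [lintegral_indicator measurableSet_Ioc, setLIntegral_const, Real.volume_Ioc,
      add_sub_cancel_left]
  · rw [indicator_of_notMem hθE]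
    have h3 : ∀ r : ℝ, G (r, θ) = 0 := by
      intro r
      rw [hG, indicator_of_notMem]
      exact fun hcon => hθE hcon.2.1
    simp_rw [h3]
    simp

private theorem collar_geom {F : Finset (ℂ × ℝ)} {D K K2 : Set ℂ} (h : Reg F D)
    (hp : Part D K K2) {x p : ℂ} (hx : x ∈ D) (hpK : p ∈ K) :
    ∃ b ∈ inK F K, arg (x - b.1) ∈ expo D b ∧
      dist x (circleMap b.1 b.2 (arg (x - b.1))) ≤ dist x p ∧
      ‖x - b.1‖ = dist x (circleMap b.1 b.2 (arg (x - b.1))) + b.2 ∧ b.2 < ‖x - b.1‖ := by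
  have hxK : x ∉ K := by
    intro hc
    have : x ∈ Dᶜ := by rw [← hp.union]; exact Or.inl hc
    exact this hx
  obtain ⟨y, ⟨hyF, hyK⟩, -, hpos, hmin⟩ := part_near h.op hp ⟨p, hpK⟩ hxK
  obtain ⟨b, hb, hyb⟩ := exists_circle h hyF
  have hbpos := h.pos b hb
  have hball : closedBall b.1 b.2 ⊆ K := by
    have hsub : closedBall b.1 b.2 ⊆ K ∪ K2 := by
      intro z hz
      rw [hp.union]
      intro hzD
      exact (Set.disjoint_left.1 h.disj hzD) (Set.mem_biUnion (x := b) hb hz)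
    have hconn : IsPreconnected (closedBall b.1 b.2) := (convex_closedBall b.1 b.2).isPreconnected
    have hyb' : y ∈ closedBall b.1 b.2 := mem_closedBall.2 hyb.le
    intro z hz
    by_contra hzK
    have hz2 : z ∈ K2 := (hsub hz).resolve_left hzK
    obtain ⟨w, -, hw1, hw2⟩ := isPreconnected_closed_iff.1 hconn K K2 hp.closed hp.closed2 hsub
      ⟨y, hyb', hyK⟩ ⟨z, hz, hz2⟩
    exact Set.disjoint_left.1 hp.disj hw1 hw2
  have hbK : b ∈ inK F K := by
    classical
    unfold inK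
    exact Finset.mem_filter.2 ⟨hb, hball (mem_closedBall_self hbpos.le)⟩
  have hlt : b.2 < dist x b.1 := h.lt_dist hb hx
  rw [dist_eq_norm] at hlt
  have hwpos : 0 < ‖x - b.1‖ := hbpos.trans hlt
  obtain ⟨θ, hθ⟩ : ∃ θ, θ = arg (x - b.1) := ⟨_, rfl⟩
  have hw : (‖x - b.1‖ : ℂ) * exp (θ * I) = x - b.1 := by
    rw [hθ]; exact Complex.norm_mul_exp_arg_mul_I _
  have hxz : x - circleMap b.1 b.2 θ = ((‖x - b.1‖ - b.2 : ℝ) : ℂ) * exp (θ * I) := by
    rw [circleMap]
    push_cast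
    rw [sub_mul, hw]
    ring
  have hd : dist x (circleMap b.1 b.2 θ) = ‖x - b.1‖ - b.2 := by
    rw [dist_eq_norm, hxz, norm_mul, Complex.norm_exp_ofReal_mul_I, mul_one, Complex.norm_real,
      Real.norm_eq_abs, abs_of_nonneg (by linarith)]
  have hz0 : circleMap b.1 b.2 θ ∈ closedBall b.1 b.2 := by
    rw [mem_closedBall, dist_eq_norm, circleMap_sub_center, norm_circleMap_zero, abs_of_pos hbpos]
  have h1 : dist x y ≤ ‖x - b.1‖ - b.2 := by
    rw [← hd]; exact hmin _ (hball hz0)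
  have h2 : ‖x - b.1‖ ≤ dist x y + b.2 := by
    rw [← dist_eq_norm, ← hyb]; exact dist_triangle _ _ _
  have h3 : dist x y + dist y b.1 = dist x b.1 := by
    rw [hyb, dist_eq_norm x b.1]; linarith
  obtain ⟨t, ⟨ht0, ht1⟩, hty⟩ := dist_add_dist_eq_iff.1 h3
  rw [AffineMap.lineMap_apply_module'] at hty
  have h4 : y - b.1 = ((1 - t : ℝ) : ℂ) * (x - b.1) := by
    rw [← hty, Complex.real_smul]
    push_cast
    ring
  have h5 : (1 - t) * ‖x - b.1‖ = b.2 := by
    rw [dist_eq_norm, h4, norm_mul, Complex.norm_real, Real.norm_eq_abs,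
      abs_of_nonneg (by linarith)] at hyb
    exact hyb
  have h6 : y = circleMap b.1 b.2 θ := by
    have h7 : y = b.1 + ((1 - t : ℝ) : ℂ) * (x - b.1) := by rw [← h4]; ring
    rw [h7, circleMap, ← hw, ← mul_assoc, ← h5]
    push_cast
    ring
  refine ⟨b, hbK, ?_, ?_, ?_, hlt⟩
  · refine ⟨?_, ?_⟩
    · exact ⟨Complex.neg_pi_lt_arg _, Complex.arg_le_pi _⟩
    · rw [← hθ, ← h6]
      exact frontier_subset_closure hyF
  · rw [← hθ, ← h6]
    exact hmin _ hpK
  · rw [← hθ, hd]; ring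

private theorem lint_biUnion_le (s : Finset (ℂ × ℝ)) (T : ℂ × ℝ → Set ℂ) (f : ℂ → ENNReal) :
    ∫⁻ x in ⋃ b ∈ s, T b, f x ≤ ∑ b ∈ s, ∫⁻ x in T b, f x := by
  classical
  induction s using Finset.induction_on with
  | empty => simp
  | insert b s hb ih =>
    rw [Finset.set_biUnion_insert, Finset.sum_insert hb]
    exact (lintegral_union_le _ _ _).trans (add_le_add (le_refl _) ih)

/-- the constant of one circle -/
private noncomputable def kb (C a : ℝ) : ℝ :=
  (a * (4 * C ^ 2 + 4 * C ^ 5) + 2 * C ^ 2 + 2 * C * (4 * C ^ 2 + 4 * C ^ 5)) +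
    2 * C ^ 3 * (a * C + (a * (4 * C ^ 2 + 4 * C ^ 5) + 2 * C ^ 2
      + 2 * C * (4 * C ^ 2 + 4 * C ^ 5)))

private theorem kb_nonneg {C a : ℝ} (hC : 0 < C) (ha : 0 ≤ a) : 0 ≤ kb C a := by
  unfold kb; positivity

private theorem alg_bound {C a G τ : ℝ} (hC : 0 < C) (ha : 0 ≤ a) (hG1 : 1 / C ≤ G) (hG2 : G ≤ C)
    (hτ0 : 0 ≤ τ) (hτ1 : τ ≤ 1) :
    (a + 2 * C * τ) * (G + 2 * C ^ 2 * τ) ^ 2 * ((τ * (1 + 2 * C ^ 3 * τ)) / G) ≤
      τ * (a * G + kb C a * τ) := by
  have hGpos : 0 < G := lt_of_lt_of_le (by positivity) hG1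
  obtain ⟨c1, hc1⟩ : ∃ c1, c1 = 4 * C ^ 2 + 4 * C ^ 5 := ⟨_, rfl⟩
  have hc1p : 0 ≤ c1 := by rw [hc1]; positivity
  obtain ⟨k1, hk1⟩ : ∃ k1, k1 = a * c1 + 2 * C ^ 2 + 2 * C * c1 := ⟨_, rfl⟩
  have hk1p : 0 ≤ k1 := by rw [hk1]; positivity
  have hkb : kb C a = k1 + 2 * C ^ 3 * (a * C + k1) := by rw [kb, hk1, hc1]
  have hinv : 1 / G ≤ C := by
    rw [div_le_iff₀ hGpos]
    rw [div_le_iff₀ hC] at hG1
    linarith
  have h1 : (G + 2 * C ^ 2 * τ) ^ 2 / G ≤ G + c1 * τ := by
    have h2 : (G + 2 * C ^ 2 * τ) ^ 2 / G = G + 4 * C ^ 2 * τ + 4 * C ^ 4 * τ ^ 2 * (1 / G) := by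
      field_simp
      ring
    rw [h2, hc1]
    have h3 : 4 * C ^ 4 * τ ^ 2 * (1 / G) ≤ 4 * C ^ 4 * τ ^ 2 * C :=
      mul_le_mul_of_nonneg_left hinv (by positivity)
    have h4 : 4 * C ^ 4 * τ ^ 2 * C ≤ 4 * C ^ 5 * τ := by
      have : 4 * C ^ 4 * τ ^ 2 * C = 4 * C ^ 5 * (τ * τ) := by ring
      rw [this]
      exact mul_le_mul_of_nonneg_left (by nlinarith) (by positivity)
    linarith
  have h5 : (a + 2 * C * τ) * (G + c1 * τ) ≤ a * G + τ * k1 := by
    have h6 : (a + 2 * C * τ) * (G + c1 * τ) = a * G + τ * (a * c1 + 2 * C * G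
        + 2 * C * c1 * τ) := by ring
    rw [h6, hk1]
    have h7 : 2 * C * G ≤ 2 * C ^ 2 := by nlinarith
    have h8 : 2 * C * c1 * τ ≤ 2 * C * c1 := mul_le_of_le_one_right (by positivity) hτ1
    have h9 : τ * (a * c1 + 2 * C * G + 2 * C * c1 * τ) ≤
        τ * (a * c1 + 2 * C ^ 2 + 2 * C * c1) := mul_le_mul_of_nonneg_left (by linarith) hτ0
    linarith
  have h10 : (a + 2 * C * τ) * ((G + 2 * C ^ 2 * τ) ^ 2 / G) ≤ a * G + τ * k1 :=
    (mul_le_mul_of_nonneg_left h1 (by positivity)).trans h5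
  have h11 : (a * G + τ * k1) * (1 + 2 * C ^ 3 * τ) ≤ a * G + kb C a * τ := by
    rw [hkb]
    have h12 : (a * G + τ * k1) * (1 + 2 * C ^ 3 * τ) = a * G + τ * k1
        + 2 * C ^ 3 * τ * (a * G + τ * k1) := by ring
    rw [h12]
    have h13 : a * G + τ * k1 ≤ a * C + k1 := by
      have h14 : a * G ≤ a * C := mul_le_mul_of_nonneg_left hG2 ha
      have h15 : τ * k1 ≤ k1 := mul_le_of_le_one_left hk1p hτ1
      linarith
    have h16 : 2 * C ^ 3 * τ * (a * G + τ * k1) ≤ 2 * C ^ 3 * τ * (a * C + k1) :=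
      mul_le_mul_of_nonneg_left h13 (by positivity)
    linarith
  calc (a + 2 * C * τ) * (G + 2 * C ^ 2 * τ) ^ 2 * ((τ * (1 + 2 * C ^ 3 * τ)) / G)
      = τ * (((a + 2 * C * τ) * ((G + 2 * C ^ 2 * τ) ^ 2 / G)) * (1 + 2 * C ^ 3 * τ)) := by ring
    _ ≤ τ * ((a * G + τ * k1) * (1 + 2 * C ^ 3 * τ)) :=
        mul_le_mul_of_nonneg_left (mul_le_mul_of_nonneg_right h10 (by positivity)) hτ0
    _ ≤ τ * (a * G + kb C a * τ) := mul_le_mul_of_nonneg_left h11 hτ0

theorem collar {F : Finset (ℂ × ℝ)} {D K K2 : Set ℂ} (h : Reg F D) (hp : Part D K K2)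
    {g v : ℂ → ℝ} {C : ℝ} (hC : 0 < C) (hg : ∀ z w, |g z - g w| ≤ C * dist z w)
    (hgle : ∀ z, g z ≤ C) (hg0 : ∀ z, 0 ≤ g z)
    (hv : ∀ z ∈ closure D, v z * g z = 1) (hvC : ∀ z ∈ closure D, v z ≤ C)
    {γ : ℝ} (hγ : 0 < γ) :
    ∃ τ1 > 0, ∀ τ ∈ Ioc 0 τ1, ∀ A : Set ℂ, A ⊆ K → A ⊆ closure D →
      ∫ z in {z | z ∈ D ∧ ∃ p ∈ A, dist z p ≤ τ * v p}, g z ^ 2 ≤
        τ * (bInt (inK F K) D (fun z _ => g z) + γ) := by
  classical
  have hgc : Continuous g := by
    have h1 : LipschitzWith ⟨C, hC.le⟩ g := LipschitzWith.of_dist_le_mul (fun z w => by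
      rw [Real.dist_eq]; exact hg z w)
    exact h1.continuous
  have hglow : ∀ z ∈ closure D, 1 / C ≤ g z := by
    intro z hz
    have h1 := hv z hz
    have h2 := mul_le_mul_of_nonneg_right (hvC z hz) (hg0 z)
    rw [div_le_iff₀ hC]
    linarith
  have hgpos : ∀ z ∈ closure D, 0 < g z := fun z hz =>
    lt_of_lt_of_le (by positivity) (hglow z hz)
  have hvpos : ∀ z ∈ closure D, 0 < v z := by
    intro z hz
    have h1 := hv z hz
    by_contra hcon
    push Not at hcon
    have h2 : v z * g z ≤ 0 := mul_nonpos_of_nonpos_of_nonneg hcon (hg0 z)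
    linarith
  have hpi := Real.pi_pos
  set s := inK F K with hs
  have hsF : ∀ b ∈ s, b ∈ F := fun b hb => by
    rw [hs] at hb; unfold inK at hb; exact (Finset.mem_filter.1 hb).1
  obtain ⟨ε, hε⟩ : ∃ ε, ε = γ / (2 * Real.pi * (s.card + 1)) := ⟨_, rfl⟩
  have hεpos : 0 < ε := by rw [hε]; positivity
  obtain ⟨KK, hKK⟩ : ∃ KK, KK = 1 + ∑ b ∈ s, kb C b.2 := ⟨_, rfl⟩
  have hkbn : ∀ b ∈ s, 0 ≤ kb C b.2 := fun b hb => kb_nonneg hC (h.pos b (hsF b hb)).le
  have hKKpos : 0 < KK := by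
    have := Finset.sum_nonneg hkbn
    rw [hKK]; linarith
  have hKKle : ∀ b ∈ s, kb C b.2 ≤ KK := by
    intro b hb
    have := Finset.single_le_sum hkbn hb
    rw [hKK]; linarith
  refine ⟨min 1 (min (1 / (2 * C ^ 3)) (ε / KK)), by positivity, ?_⟩
  rintro τ ⟨hτ0, hτ1⟩ A hAK hAD
  have hτ_one : τ ≤ 1 := hτ1.trans (min_le_left _ _)
  have hτ_C : 2 * C ^ 3 * τ ≤ 1 := by
    have h1 : τ ≤ 1 / (2 * C ^ 3) := hτ1.trans ((min_le_right _ _).trans (min_le_left _ _))
    rw [le_div_iff₀ (by positivity)] at h1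
    linarith
  have hτ_ε : KK * τ ≤ ε := by
    have h1 : τ ≤ ε / KK := hτ1.trans ((min_le_right _ _).trans (min_le_right _ _))
    rw [le_div_iff₀ hKKpos] at h1
    linarith
  obtain ⟨τ', hτ'⟩ : ∃ τ', τ' = τ * (1 + 2 * C ^ 3 * τ) := ⟨_, rfl⟩
  have hτ'2 : τ' ≤ 2 * τ := by rw [hτ']; nlinarith
  set T : ℂ × ℝ → Set ℂ := fun b => sect b.1 b.2 (expo D b)
    (fun θ => g (circleMap b.1 b.2 θ)) τ' with hT
  -- the swept set is contained in the sectors
  have hsub : {z | z ∈ D ∧ ∃ p ∈ A, dist z p ≤ τ * v p} ⊆ ⋃ b ∈ s, T b := by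
    rintro x ⟨hxD, p, hpA, hxp⟩
    obtain ⟨b, hb, hbE, hb1, hb2, hb3⟩ := collar_geom h hp hxD (hAK hpA)
    refine Set.mem_biUnion (x := b) hb ⟨hb3, hbE, ?_⟩
    obtain ⟨y, hy⟩ : ∃ y, y = circleMap b.1 b.2 (arg (x - b.1)) := ⟨_, rfl⟩
    have hyD : y ∈ closure D := by rw [hy]; exact hbE.2
    show (‖x - b.1‖ - b.2) * g (circleMap b.1 b.2 (arg (x - b.1))) ≤ τ'
    rw [← hy] at hb1 hb2 ⊢
    have hpD := hAD hpA
    have h1 : ‖x - b.1‖ - b.2 = dist x y := by linarith
    rw [h1]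
    have h2 : g y ≤ g p + C * dist y p := by
      have := (abs_le.1 (hg y p)).2
      linarith
    have h3 : dist x p ≤ C * τ := by
      refine hxp.trans ?_
      rw [mul_comm C τ]
      exact mul_le_mul_of_nonneg_left (hvC p hpD) hτ0.le
    have h4 : dist y p ≤ 2 * (C * τ) := by
      have := dist_triangle_left y p x
      linarith
    have h5 : dist x y * g p ≤ τ := by
      calc dist x y * g p ≤ dist x p * g p := mul_le_mul_of_nonneg_right hb1 (hg0 p)
        _ ≤ (τ * v p) * g p := mul_le_mul_of_nonneg_right hxp (hg0 p)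
        _ = τ := by rw [mul_assoc, hv p hpD, mul_one]
    have h6 : dist x y * (C * dist y p) ≤ (C * τ) * (C * (2 * (C * τ))) := by
      refine mul_le_mul (hb1.trans h3) (mul_le_mul_of_nonneg_left h4 hC.le) ?_ (by positivity)
      exact mul_nonneg hC.le dist_nonneg
    calc dist x y * g y ≤ dist x y * (g p + C * dist y p) :=
          mul_le_mul_of_nonneg_left h2 dist_nonneg
      _ = dist x y * g p + dist x y * (C * dist y p) := by ring
      _ ≤ τ + (C * τ) * (C * (2 * (C * τ))) := add_le_add h5 h6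
      _ = τ' := by rw [hτ']; ring
  -- the integral over one sector
  have hcirc : ∀ b : ℂ × ℝ, Continuous (fun θ => g (circleMap b.1 b.2 θ)) := fun b =>
    hgc.comp (continuous_circleMap _ _)
  have hone : ∀ b ∈ s, ∫⁻ z in T b, ENNReal.ofReal (g z ^ 2) ≤
      ENNReal.ofReal (τ * (b.2 * (∫ θ in expo D b, g (circleMap b.1 b.2 θ))
        + ε * (2 * Real.pi))) := by
    intro b hb
    have hbpos := h.pos b (hsF b hb)
    have hEm := measurableSet_expo D b
    have hEfin : volume (expo D b) ≤ ENNReal.ofReal (2 * Real.pi) := by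
      refine (measure_mono (expo_subset D b)).trans (le_of_eq ?_)
      rw [Real.volume_Ioc]; congr 1; ring
    have hEtop : volume (expo D b) ≠ ⊤ := (hEfin.trans_lt ENNReal.ofReal_lt_top).ne
    have h1 := sector_le b.1 b.2 hEm (φ := fun θ => g (circleMap b.1 b.2 θ))
      (H := fun θ => (b.2 + 2 * C * τ) * (g (circleMap b.1 b.2 θ) + 2 * C ^ 2 * τ) ^ 2)
      (hcirc b).measurable (fun θ hθ => hgpos _ hθ.2)
      (by have := (hcirc b).measurable; fun_prop) τ' (fun z => g z ^ 2) (by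
        rintro z ⟨hz1, hz2, hz3⟩
        obtain ⟨y, hy⟩ : ∃ y, y = circleMap b.1 b.2 (arg (z - b.1)) := ⟨_, rfl⟩
        have hyD : y ∈ closure D := by rw [hy]; exact hz2.2
        simp only at hz3
        rw [← hy] at hz3 ⊢
        have hG1 := hglow y hyD
        have h2 : ‖z - b.1‖ - b.2 ≤ 2 * C * τ := by
          have h3 : (‖z - b.1‖ - b.2) * (1 / C) ≤ 2 * τ :=
            (mul_le_mul_of_nonneg_left hG1 (by linarith)).trans (hz3.trans hτ'2)
          rw [mul_one_div, div_le_iff₀ hC] at h3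
          linarith
        have hd : dist z y = ‖z - b.1‖ - b.2 := by
          have hw : (‖z - b.1‖ : ℂ) * exp (arg (z - b.1) * I) = z - b.1 :=
            Complex.norm_mul_exp_arg_mul_I _
          have hzy : z - y = ((‖z - b.1‖ - b.2 : ℝ) : ℂ) * exp (arg (z - b.1) * I) := by
            rw [hy, circleMap]
            push_cast
            rw [sub_mul, hw]
            ring
          rw [dist_eq_norm, hzy, norm_mul, Complex.norm_exp_ofReal_mul_I, mul_one,
            Complex.norm_real, Real.norm_eq_abs, abs_of_nonneg (by linarith)]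
        have h4 : g z ≤ g y + 2 * C ^ 2 * τ := by
          have h5 := (abs_le.1 (hg z y)).2
          rw [hd] at h5
          nlinarith
        have h6 : g z ^ 2 ≤ (g y + 2 * C ^ 2 * τ) ^ 2 := pow_le_pow_left₀ (hg0 z) h4 2
        exact mul_le_mul (by linarith) h6 (sq_nonneg _) (by positivity))
    refine h1.trans ?_
    have h7 : ∀ θ ∈ expo D b, ENNReal.ofReal ((b.2 + 2 * C * τ) *
        (g (circleMap b.1 b.2 θ) + 2 * C ^ 2 * τ) ^ 2) *
          ENNReal.ofReal (τ' / g (circleMap b.1 b.2 θ)) ≤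
        ENNReal.ofReal (τ * (b.2 * g (circleMap b.1 b.2 θ) + ε)) := by
      intro θ hθ
      rw [← ENNReal.ofReal_mul (by positivity)]
      refine ENNReal.ofReal_le_ofReal ?_
      rw [hτ']
      refine (alg_bound hC hbpos.le (hglow _ hθ.2) (hgle _) hτ0.le hτ_one).trans ?_
      refine mul_le_mul_of_nonneg_left (add_le_add (le_refl _) ?_) hτ0.le
      exact (mul_le_mul_of_nonneg_right (hKKle b hb) hτ0.le).trans hτ_ε
    refine (setLIntegral_mono' hEm h7).trans ?_
    have hcont : Continuous (fun θ => τ * (b.2 * g (circleMap b.1 b.2 θ) + ε)) :=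
      continuous_const.mul ((continuous_const.mul (hcirc b)).add continuous_const)
    have hint : ∀ f : ℝ → ℝ, Continuous f → IntegrableOn f (expo D b) := by
      intro f hf
      exact (hf.continuousOn.integrableOn_compact isCompact_Icc).mono_set
        ((expo_subset D b).trans Ioc_subset_Icc_self)
    rw [← ofReal_integral_eq_lintegral_ofReal (hint _ hcont)
      (ae_of_all _ (fun θ => by have := hg0 (circleMap b.1 b.2 θ); positivity))]
    refine ENNReal.ofReal_le_ofReal ?_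
    rw [integral_const_mul]
    refine mul_le_mul_of_nonneg_left ?_ hτ0.le
    rw [integral_add ((hint _ (hcirc b)).const_mul _) (hint _ continuous_const),
      integral_const_mul, setIntegral_const, smul_eq_mul, mul_comm _ ε]
    refine add_le_add (le_refl _) (mul_le_mul_of_nonneg_left ?_ hεpos.le)
    exact ENNReal.toReal_le_of_le_ofReal (by positivity) hEfin
  -- the sum
  have hB : bInt s D (fun z _ => g z) = ∑ b ∈ s, b.2 * ∫ θ in expo D b,
      g (circleMap b.1 b.2 θ) := rfl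
  have hterm : ∀ b ∈ s, 0 ≤ b.2 * ∫ θ in expo D b, g (circleMap b.1 b.2 θ) := fun b hb =>
    mul_nonneg (h.pos b (hsF b hb)).le (integral_nonneg (fun θ => hg0 _))
  have hB0 : 0 ≤ bInt s D (fun z _ => g z) := by rw [hB]; exact Finset.sum_nonneg hterm
  have htot : ∫⁻ z in {z | z ∈ D ∧ ∃ p ∈ A, dist z p ≤ τ * v p}, ENNReal.ofReal (g z ^ 2) ≤
      ENNReal.ofReal (τ * (bInt s D (fun z _ => g z) + γ)) := by
    refine (lintegral_mono_set hsub).trans ((lint_biUnion_le s T _).trans ?_)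
    refine (Finset.sum_le_sum hone).trans ?_
    rw [← ENNReal.ofReal_sum_of_nonneg (fun b hb => by
      have := hterm b hb
      positivity)]
    refine ENNReal.ofReal_le_ofReal ?_
    rw [← Finset.mul_sum]
    refine mul_le_mul_of_nonneg_left ?_ hτ0.le
    rw [Finset.sum_add_distrib, ← hB, Finset.sum_const, nsmul_eq_mul]
    refine add_le_add (le_refl _) ?_
    rw [hε]
    have h1 : (s.card : ℝ) * (γ / (2 * Real.pi * (s.card + 1)) * (2 * Real.pi)) =
        γ * (s.card / (s.card + 1)) := by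
      field_simp
    rw [h1]
    refine mul_le_of_le_one_right hγ.le ?_
    rw [div_le_one (by positivity)]
    linarith
  rw [integral_eq_lintegral_of_nonneg_ae (ae_of_all _ (fun z => sq_nonneg _))
    (hgc.pow 2).aestronglyMeasurable]
  exact ENNReal.toReal_le_of_le_ofReal (by positivity) htot

end Pool.Agent.FKM
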