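import Mathlib
import Pool.Agent.Helper13.FKM.Basic

/-!
FKM-8: continuity in time of the front integrals.

Plan. Fix t ∈ Icc t0 t1. For θ outside the finite set where the point x = circleMap p (t v p) θ lies on
another circle (finite_circ; the centres are distinct): either dist x q < t v q for some q ∈ P, q ≠ p, and
then θ ∉ Et for all times near t; or dist x q > t v q for all q ≠ p. In the second case x ∉ frontier D:
frontier D ⊆ Dᶜ = K ∪ K2, points of frontier D ∩ K are in an open ball ball q (t0 v q) ⊆ ball q (t v q) (so
q = p is impossible, and q ≠ p too), and x ∈ closedBall p (t1 v p) is not in K2. So x ∈ D or x ∉ closure D, and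
membership in Et is locally constant in time. Dominated convergence.
-/

set_option autoImplicit false

open Complex MeasureTheory Set Metric Filter
open scoped ComplexConjugate Topology

namespace Pool.Agent.FKM

private theorem Cont_circ (p : ℂ) (r : ℝ) : Continuous fun x : ℝ × ℝ => circleMap p (x.1 * r) x.2 := by
  unfold circleMap
  fun_prop

theorem measurableSet_Et {D : Set ℂ} (hD : IsOpen D) (P : Finset ℂ) (v : ℂ → ℝ) (t : ℝ) (p : ℂ) :
    MeasurableSet (Et D P v t p) := by
  have hc : Continuous fun θ : ℝ => circleMap p (t * v p) θ := continuous_circleMap p _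
  have h : Et D P v t p = Ioc (-Real.pi) Real.pi ∩ ((fun θ : ℝ => circleMap p (t * v p) θ) ⁻¹' D ∩
      ⋂ q ∈ P, {θ : ℝ | q ≠ p → t * v q < dist (circleMap p (t * v p) θ) q}) := by
    ext θ
    simp only [Et, mem_inter_iff, mem_preimage, mem_iInter]
    rfl
  rw [h]
  refine measurableSet_Ioc.inter ((hD.preimage hc).measurableSet.inter ?_)
  refine Finset.measurableSet_biInter P fun q _ => ?_
  by_cases hq : q = p
  · have : {θ : ℝ | q ≠ p → t * v q < dist (circleMap p (t * v p) θ) q} = univ := by
      ext θ
      simp [hq]
    rw [this]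
    exact MeasurableSet.univ
  · have : {θ : ℝ | q ≠ p → t * v q < dist (circleMap p (t * v p) θ) q}
        = {θ : ℝ | t * v q < dist (circleMap p (t * v p) θ) q} := by
      ext θ
      simp [hq]
    rw [this]
    exact (isOpen_lt continuous_const (hc.dist continuous_const)).measurableSet

theorem cont_E {D K K2 : Set ℂ} {P : Finset ℂ} {v : ℂ → ℝ} {t0 t1 : ℝ}
    (hf : Front D K K2 P v t0 t1) {p : ℂ} (hp : p ∈ P) {G : ℂ → ℂ → ℝ}
    (hG : Continuous (Function.uncurry G)) :
    ContinuousOn (fun t => ∫ θ in Et D P v t p, G (circleMap p (t * v p) θ) (exp (θ * I)))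
      (Icc t0 t1) := by
  -- the integrand
  have hGc : Continuous fun x : ℝ × ℝ => G (circleMap p (x.1 * v p) x.2) (exp (x.2 * I)) := by
    have h1 : Continuous fun x : ℝ × ℝ => exp ((x.2 : ℂ) * I) := by fun_prop
    exact hG.comp ((Cont_circ p (v p)).prodMk h1)
  obtain ⟨M, hM⟩ : ∃ M : ℝ, ∀ x ∈ Icc t0 t1 ×ˢ Icc (-Real.pi) Real.pi,
      ‖G (circleMap p (x.1 * v p) x.2) (exp (x.2 * I))‖ ≤ M := by
    obtain ⟨M, hM⟩ := (isCompact_Icc.prod isCompact_Icc).bddAbove_image
      (K := Icc t0 t1 ×ˢ Icc (-Real.pi) Real.pi) hGc.norm.continuousOn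
    exact ⟨M, fun x hx => hM (mem_image_of_mem _ hx)⟩
  have hrw : ∀ t, ∫ θ in Et D P v t p, G (circleMap p (t * v p) θ) (exp (θ * I))
      = ∫ θ in Ioc (-Real.pi) Real.pi, (Et D P v t p).indicator
        (fun θ => G (circleMap p (t * v p) θ) (exp (θ * I))) θ := by
    intro t
    rw [setIntegral_indicator (measurableSet_Et hf.op P v t p)]
    congr 2
    ext θ
    constructor
    · intro h
      exact ⟨h.1, h⟩
    · exact fun h => h.2
  simp only [hrw]
  intro t ht
  refine continuousWithinAt_of_dominated (bound := fun _ => M) ?_ ?_ ?_ ?_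
  · refine Eventually.of_forall fun s => ?_
    refine AEStronglyMeasurable.indicator ?_ (measurableSet_Et hf.op P v s p)
    have : Continuous fun θ : ℝ => G (circleMap p (s * v p) θ) (exp (θ * I)) :=
      hGc.comp (by fun_prop : Continuous fun θ : ℝ => (s, θ))
    exact this.aestronglyMeasurable
  · refine eventually_of_mem self_mem_nhdsWithin fun s hs => ?_
    refine (ae_restrict_iff' measurableSet_Ioc).2 (Eventually.of_forall fun θ hθ => ?_)
    have h1 := hM (s, θ) ⟨hs, ⟨hθ.1.le, hθ.2⟩⟩
    refine le_trans ?_ h1
    exact norm_indicator_le_norm_self _ _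
  · exact integrableOn_const (by rw [Real.volume_Ioc]; exact ENNReal.ofReal_ne_top) (by simp)
  · -- pointwise continuity
    have ht0 : 0 < t := hf.t0pos.trans_le ht.1
    have hfin : (⋃ q ∈ P, {θ : ℝ | q ≠ p ∧ θ ∈ Ioc (-Real.pi) Real.pi ∧
        dist (circleMap p (t * v p) θ) q = t * v q}).Finite := by
      refine P.finite_toSet.biUnion fun q _ => ?_
      by_cases hq : q = p
      · have : {θ : ℝ | q ≠ p ∧ θ ∈ Ioc (-Real.pi) Real.pi ∧
            dist (circleMap p (t * v p) θ) q = t * v q} = ∅ := by
          ext θ
          simp [hq]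
        rw [this]
        exact Set.finite_empty
      · have h1 := finite_circ (c := p) (c' := q) (mul_pos ht0 (hf.vpos p))
          (mul_pos ht0 (hf.vpos q)) (fun h => hq (congrArg Prod.fst h).symm)
        exact h1.subset fun θ hθ => hθ.2
    have hnull := hfin.measure_zero (volume : Measure ℝ)
    refine (ae_restrict_iff' measurableSet_Ioc).2 ?_
    filter_upwards [compl_mem_ae_iff.2 hnull] with θ hθ hθI
    have hne : ∀ q ∈ P, q ≠ p → dist (circleMap p (t * v p) θ) q ≠ t * v q := by
      intro q hq hqp heq
      exact hθ (mem_biUnion (Finset.mem_coe.2 hq) ⟨hqp, hθI, heq⟩)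
    have hcx : Continuous fun s : ℝ => circleMap p (s * v p) θ :=
      (Cont_circ p (v p)).comp (by fun_prop : Continuous fun s : ℝ => (s, θ))
    have hcG : Continuous fun s : ℝ => G (circleMap p (s * v p) θ) (exp (θ * I)) :=
      hGc.comp (by fun_prop : Continuous fun s : ℝ => (s, θ))
    refine ContinuousAt.continuousWithinAt ?_
    by_cases hcase : ∃ q ∈ P, q ≠ p ∧ dist (circleMap p (t * v p) θ) q < t * v q
    · obtain ⟨q, hq, hqp, hlt⟩ := hcase
      have hev : ∀ᶠ s in 𝓝 t, dist (circleMap p (s * v p) θ) q < s * v q := by
        refine (hcx.dist continuous_const).continuousAt.eventually_lt ?_ hlt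
        exact (continuous_id.mul continuous_const).continuousAt
      have heq : (fun s => (Et D P v s p).indicator
          (fun θ => G (circleMap p (s * v p) θ) (exp (θ * I))) θ) =ᶠ[𝓝 t] fun _ => 0 := by
        filter_upwards [hev] with s hs
        refine indicator_of_notMem ?_ _
        intro h
        exact absurd (h.2.2 q hq hqp) (not_lt.2 hs.le)
      exact (continuousAt_const).congr heq.symm
    · push Not at hcase
      have hgt : ∀ q ∈ P, q ≠ p → t * v q < dist (circleMap p (t * v p) θ) q :=
        fun q hq hqp => lt_of_le_of_ne (hcase q hq hqp) (hne q hq hqp).symm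
      have hdist : dist (circleMap p (t * v p) θ) p = t * v p := by
        have h1 : circleMap p (t * v p) θ ∈ sphere p |t * v p| := circleMap_mem_sphere' _ _ _
        rw [mem_sphere] at h1
        rw [h1, abs_of_pos (mul_pos ht0 (hf.vpos p))]
      have hnf : circleMap p (t * v p) θ ∉ frontier D := by
        intro hfr
        have hnD : circleMap p (t * v p) θ ∉ D := by
          intro hD
          have := hf.op.inter_frontier_eq
          exact absurd (show circleMap p (t * v p) θ ∈ D ∩ frontier D from ⟨hD, hfr⟩)
            (by rw [this]; exact notMem_empty _)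
        have hKK : circleMap p (t * v p) θ ∈ K ∪ K2 := by
          rw [hf.part.union]
          exact hnD
        rcases hKK with hK | hK2
        · obtain ⟨q, hq, hlt⟩ := hf.cover _ hfr hK
          have hle : t0 * v q ≤ t * v q := mul_le_mul_of_nonneg_right ht.1 (hf.vpos q).le
          by_cases hqp : q = p
          · rw [hqp] at hlt hle
            rw [hdist] at hlt
            linarith
          · have := hgt q hq hqp
            linarith
        · have hmem : circleMap p (t * v p) θ ∈ closedBall p (t1 * v p) := by
            rw [mem_closedBall, hdist]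
            exact mul_le_mul_of_nonneg_right ht.2 (hf.vpos p).le
          rcases hf.free p hp hmem with hK | hD
          · exact disjoint_left.1 hf.part.disj hK hK2
          · exact hnD hD
      have hevq : ∀ᶠ s in 𝓝 t, ∀ q ∈ P, q ≠ p → s * v q < dist (circleMap p (s * v p) θ) q := by
        rw [Filter.eventually_all_finset]
        intro q hq
        by_cases hqp : q = p
        · exact Eventually.of_forall fun s h => absurd hqp h
        · have hlt := hgt q hq hqp
          have : ∀ᶠ s in 𝓝 t, s * v q < dist (circleMap p (s * v p) θ) q := by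
            refine ContinuousAt.eventually_lt ?_ (hcx.dist continuous_const).continuousAt hlt
            exact (continuous_id.mul continuous_const).continuousAt
          filter_upwards [this] with s hs _
          exact hs
      by_cases hD : circleMap p (t * v p) θ ∈ D
      · have hevD : ∀ᶠ s in 𝓝 t, circleMap p (s * v p) θ ∈ D :=
          hcx.continuousAt.eventually_mem (hf.op.mem_nhds hD)
        have heq : (fun s => (Et D P v s p).indicator
            (fun θ => G (circleMap p (s * v p) θ) (exp (θ * I))) θ) =ᶠ[𝓝 t]
            fun s => G (circleMap p (s * v p) θ) (exp (θ * I)) := by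
          filter_upwards [hevD, hevq] with s hs hsq
          exact indicator_of_mem (show θ ∈ Et D P v s p from ⟨hθI, hs, hsq⟩) _
        exact hcG.continuousAt.congr heq.symm
      · have hncl : circleMap p (t * v p) θ ∉ closure D := by
          intro hcl
          apply hnf
          rw [hf.op.frontier_eq]
          exact ⟨hcl, hD⟩
        have hevD : ∀ᶠ s in 𝓝 t, circleMap p (s * v p) θ ∈ (closure D)ᶜ :=
          hcx.continuousAt.eventually_mem (isClosed_closure.isOpen_compl.mem_nhds hncl)
        have heq : (fun s => (Et D P v s p).indicator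
            (fun θ => G (circleMap p (s * v p) θ) (exp (θ * I))) θ) =ᶠ[𝓝 t] fun _ => 0 := by
          filter_upwards [hevD] with s hs
          refine indicator_of_notMem ?_ _
          intro h
          exact hs (subset_closure h.2.1)
        exact (continuousAt_const).congr heq.symm

end Pool.Agent.FKM
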