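import Mathlib
import Pool.Agent.Helper13.FKM.Collar
import Pool.Agent.Helper13.FKM.Coarea
import Pool.Agent.Helper13.FKM.ExF
import Pool.Agent.Helper13.FKM.Cont

/-!
FKM-30: starting the front.

Plan. exists_net: compactness. exists_t0: for p ∈ P ⊆ frontier D ∩ K ⊆ closure W we have S.v p * S.g p = 1 and
D ∩ Ut P S.v τ ⊆ {z | z ∈ D ∧ ∃ p ∈ A, dist z p ≤ τ * S.v p} with A = frontier D ∩ K. For θ ∈ Et and
x = circleMap p (t v p) θ: g(x) ≥ g p - C t v p. So t Th t = ∑ (t v p^2) g(p)^2 |Et p| ≤ (1 + C' t) ∑ t v p^2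
∫_{Et} g(x)^2; integrate over t ∈ [ρ τ, τ] (coarea_set, coarea_cell with f = g^2):
∫_{ρτ}^τ t Th t dt ≤ (1 + C' τ) ∫_{D ∩ Ut τ} g^2 ≤ (1 + C' τ) τ (M + γ') by `collar`. So for some t0 ∈ [ρτ, τ],
t0 Th t0 ≤ (1 + C'τ)(M + γ')/(1 - ρ) ≤ M + γ if ρ, γ', τ are small. Volume: |D ∩ Ut τ| ≤ C^2 ∫ g^2
≤ C^2 τ (M + γ').
-/

set_option autoImplicit false

open Complex MeasureTheory Set Metric Filter
open scoped ComplexConjugate Topology

namespace Pool.Agent.FKM

theorem exists_net {A : Set ℂ} (hA : IsCompact A) {δ : ℝ} (hδ : 0 < δ) :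
    ∃ P : Finset ℂ, (∀ p ∈ P, p ∈ A) ∧ ∀ z ∈ A, ∃ p ∈ P, dist z p < δ := by
  obtain ⟨t, ht, hfin, hcov⟩ := hA.finite_cover_balls hδ
  refine ⟨hfin.toFinset, fun p hp => ht (hfin.mem_toFinset.1 hp), fun z hz => ?_⟩
  have h1 := hcov hz
  simp only [mem_iUnion, exists_prop, mem_ball] at h1
  obtain ⟨p, hp, hd⟩ := h1
  exact ⟨p, hfin.mem_toFinset.2 hp, hd⟩

theorem v_facts (S : Dat) : (∀ z, 0 < S.v z) ∧ (∀ z, 1 / S.C ≤ S.v z) ∧ (∀ z, S.v z ≤ S.C) ∧
    ∀ z ∈ closure S.W, S.v z * S.g z = 1 := by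
  have hC := S.C_one
  have hC0 : 0 < S.C := by linarith
  have hm : ∀ z, 0 < max (S.g z) (1 / S.C) := fun z => lt_max_of_lt_right (by positivity)
  refine ⟨fun z => ?_, fun z => ?_, fun z => ?_, fun z hz => ?_⟩
  · unfold Dat.v
    exact one_div_pos.2 (hm z)
  · unfold Dat.v
    refine one_div_le_one_div_of_le (hm z) (max_le (S.g_le z) ?_)
    rw [div_le_iff₀ hC0]
    nlinarith
  · unfold Dat.v
    rw [div_le_iff₀ (hm z)]
    have h1 : 1 / S.C ≤ max (S.g z) (1 / S.C) := le_max_right _ _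
    calc (1 : ℝ) = S.C * (1 / S.C) := by field_simp
      _ ≤ S.C * max (S.g z) (1 / S.C) := mul_le_mul_of_nonneg_left h1 hC0.le
  · have h1 := S.g_low z hz
    have h2 : 1 / S.C ≤ S.g z := by
      rw [div_le_iff₀ hC0]; linarith
    have h3 : 0 < S.g z := lt_of_lt_of_le (by positivity) h2
    unfold Dat.v
    rw [max_eq_left h2]
    field_simp

/-- the lower bound for the frozen length of one disc -/
private theorem netT0_cell (S : Dat) {D : Set ℂ} (hDo : IsOpen D) (P : Finset ℂ) {p : ℂ}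
    (hp : p ∈ closure S.W) {t τ : ℝ} (ht0 : 0 < t) (htτ : t ≤ τ) (hτ : 2 * S.C ^ 3 * τ ≤ 1) :
    (1 - 2 * S.C ^ 3 * τ) * (t * volume.real (Et D P S.v t p)) ≤
      t * S.v p ^ 2 * ∫ θ in Et D P S.v t p, S.g (circleMap p (t * S.v p) θ) ^ 2 := by
  obtain ⟨hv0, -, hvC, hvg⟩ := v_facts S
  have hC := S.C_one
  have hC0 : 0 < S.C := by linarith
  have hτ0 : 0 < τ := lt_of_lt_of_le ht0 htτ
  have hvp := hv0 p
  have hvgp := hvg p hp
  have hvCp := hvC p
  have hfin : volume (Et D P S.v t p) ≠ ⊤ := by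
    refine ne_top_of_le_ne_top ?_ (measure_mono (fun θ hθ => hθ.1))
    rw [Real.volume_Ioc]
    exact ENNReal.ofReal_ne_top
  have hgc : Continuous fun θ : ℝ => S.v p ^ 2 * S.g (circleMap p (t * S.v p) θ) ^ 2 := by
    have h1 : Continuous S.g := S.g_cont.continuous
    have h2 : Continuous fun θ : ℝ => circleMap p (t * S.v p) θ := continuous_circleMap p _
    exact continuous_const.mul ((h1.comp h2).pow 2)
  have h1 : (1 - 2 * S.C ^ 3 * τ) * volume.real (Et D P S.v t p) ≤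
      ∫ θ in Et D P S.v t p, S.v p ^ 2 * S.g (circleMap p (t * S.v p) θ) ^ 2 := by
    have e1 : ∫ _ in Et D P S.v t p, (1 - 2 * S.C ^ 3 * τ) =
        (1 - 2 * S.C ^ 3 * τ) * volume.real (Et D P S.v t p) := by
      rw [setIntegral_const, smul_eq_mul, mul_comm]
    rw [← e1]
    refine setIntegral_mono_on (integrableOn_const hfin) ?_
      (measurableSet_Et hDo P S.v t p) ?_
    · refine (hgc.continuousOn.integrableOn_compact
        (isCompact_Icc (a := -Real.pi) (b := Real.pi))).mono_set ?_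
      exact fun θ hθ => ⟨hθ.1.1.le, hθ.1.2⟩
    · intro θ _
      set x := circleMap p (t * S.v p) θ with hx
      have hd : dist x p = t * S.v p := circleMap_mem_sphere p (mul_pos ht0 hvp).le θ
      have h2 := S.g_lip p x
      rw [dist_comm, hd] at h2
      have h3 : S.g p - S.g x ≤ S.C * (t * S.v p) := (le_abs_self _).trans h2
      have h4 : S.v p * S.g p - S.v p * S.g x ≤ S.v p * (S.C * (t * S.v p)) := by
        rw [← mul_sub]
        exact mul_le_mul_of_nonneg_left h3 hvp.le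
      have h5 : S.v p * (S.C * (t * S.v p)) ≤ S.C ^ 3 * τ := by
        have e2 : S.v p * (S.C * (t * S.v p)) = S.C * t * (S.v p * S.v p) := by ring
        have e3 : S.C ^ 3 * τ = S.C * τ * (S.C * S.C) := by ring
        rw [e2, e3]
        exact mul_le_mul (mul_le_mul_of_nonneg_left htτ (by linarith))
          (mul_le_mul hvCp hvCp hvp.le (by linarith)) (by positivity) (by positivity)
      have h6 : 1 - S.C ^ 3 * τ ≤ S.v p * S.g x := by linarith
      have h7 : 0 ≤ 1 - S.C ^ 3 * τ := by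
        have : 0 < S.C ^ 3 * τ := by positivity
        linarith
      have h8 : (1 - S.C ^ 3 * τ) ^ 2 ≤ (S.v p * S.g x) ^ 2 := pow_le_pow_left₀ h7 h6 2
      rw [← mul_pow]
      nlinarith [sq_nonneg (S.C ^ 3 * τ)]
  rw [integral_const_mul] at h1
  calc (1 - 2 * S.C ^ 3 * τ) * (t * volume.real (Et D P S.v t p))
      = t * ((1 - 2 * S.C ^ 3 * τ) * volume.real (Et D P S.v t p)) := by ring
    _ ≤ t * (S.v p ^ 2 * ∫ θ in Et D P S.v t p, S.g (circleMap p (t * S.v p) θ) ^ 2) :=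
        mul_le_mul_of_nonneg_left h1 ht0.le
    _ = _ := by ring

theorem exists_t0 (S : Dat) {F : Finset (ℂ × ℝ)} {D K K2 : Set ℂ} (h : Reg F D) (hD : D ⊆ S.W)
    (hp : Part D K K2) {γ : ℝ} (hγ : 0 < γ) :
    ∃ τ1 > 0, ∃ ρ ∈ Ioo (0 : ℝ) 1, ∀ τ ∈ Ioc 0 τ1, ∀ P : Finset ℂ,
      (∀ p ∈ P, p ∈ frontier D) → Front D K K2 P S.v (ρ * τ) τ →
      (∃ t0 ∈ Icc (ρ * τ) τ, t0 * Th D P S.v t0 ≤ S.M F D K + γ) ∧
      ∀ t ∈ Icc (ρ * τ) τ, volume.real (D ∩ Ut P S.v t) ≤ γ := by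
  obtain ⟨hv0, -, hvC, hvg⟩ := v_facts S
  have hC := S.C_one
  have hC0 : 0 < S.C := by linarith
  have hclD : closure D ⊆ closure S.W := closure_mono hD
  have hgc : Continuous S.g := S.g_cont.continuous
  set M := S.M F D K with hM
  have hM0 : 0 ≤ M := by
    rw [hM]
    unfold Dat.M bInt
    refine Finset.sum_nonneg fun b hb => mul_nonneg ?_ ?_
    · have hb' : b ∈ F := by
        classical
        unfold inK at hb
        exact (Finset.mem_filter.1 hb).1
      exact (h.pos b hb').le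
    · exact integral_nonneg fun θ => S.g_nonneg _
  have hMγ : 0 < M + γ := by linarith
  obtain ⟨τ2, hτ2, hcol⟩ := collar h hp (g := S.g) (v := S.v) hC0 S.g_lip S.g_le S.g_nonneg
    (fun z hz => hvg z (hclD hz)) (fun z _ => hvC z) (γ := γ / 2) (by positivity)
  set ρ := γ / (8 * (M + γ)) with hρ
  have hρ0 : 0 < ρ := by positivity
  have hρ1 : ρ ≤ 1 / 8 := by
    rw [hρ, div_le_iff₀ (by positivity)]
    linarith
  have hρM : ρ * (M + γ) = γ / 8 := by
    rw [hρ]; field_simp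
  set τ1 := min τ2 (min (ρ / (2 * S.C ^ 3)) (γ / (S.C ^ 2 * (M + γ)))) with hτ1
  have hτ1pos : 0 < τ1 := by
    rw [hτ1]
    positivity
  refine ⟨τ1, hτ1pos, ρ, ⟨hρ0, by linarith⟩, ?_⟩
  rintro τ ⟨hτ0, hττ1⟩ P hPf hf
  have hττ2 : τ ≤ τ2 := hττ1.trans (min_le_left _ _)
  have hτC : 2 * S.C ^ 3 * τ ≤ ρ := by
    have h1 : τ ≤ ρ / (2 * S.C ^ 3) :=
      hττ1.trans ((min_le_right _ _).trans (min_le_left _ _))
    rw [le_div_iff₀ (by positivity)] at h1
    linarith
  have hτγ : S.C ^ 2 * (τ * (M + γ)) ≤ γ := by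
    have h1 : τ ≤ γ / (S.C ^ 2 * (M + γ)) :=
      hττ1.trans ((min_le_right _ _).trans (min_le_right _ _))
    rw [le_div_iff₀ (by positivity)] at h1
    linarith
  have hPcl : ∀ p ∈ P, p ∈ closure D := fun p hp => frontier_subset_closure (hPf p hp)
  -- the collar estimate for the front
  have hset : ∀ t, D ∩ Ut P S.v t = {z | z ∈ D ∧ ∃ p ∈ (P : Set ℂ), dist z p ≤ t * S.v p} := by
    intro t
    ext z
    simp only [Ut, mem_inter_iff, mem_iUnion, exists_prop, mem_closedBall]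
    exact Iff.rfl
  have hcolP : ∀ t, 0 < t → t ≤ τ → ∫ z in D ∩ Ut P S.v t, S.g z ^ 2 ≤ t * (M + γ / 2) := by
    intro t ht0 htτ
    rw [hset t]
    exact hcol t ⟨ht0, htτ.trans hττ2⟩ (P : Set ℂ) (fun p hp => hf.sub p hp)
      (fun p hp => hPcl p hp)
  have hρτ : 0 < ρ * τ := by positivity
  have hρττ : ρ * τ ≤ τ := by nlinarith
  have hbd : Bornology.IsBounded D := hf.bdd
  have hint : ∀ X : Set ℂ, X ⊆ D → IntegrableOn (fun z => S.g z ^ 2) X := by
    intro X hX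
    obtain ⟨r, hr⟩ := hbd.subset_closedBall 0
    exact ((hgc.pow 2).continuousOn.integrableOn_compact (isCompact_closedBall 0 r)).mono_set
      (hX.trans hr)
  constructor
  · by_contra hcon
    push Not at hcon
    -- coarea
    have hfc : Continuous fun z => S.g z ^ 2 := hgc.pow 2
    have e1 := coarea_set hf.op hf.vpos (P := P) hρτ.le hρττ hfc
    have e2 : ∑ p ∈ P, ∫ z in cellP D P S.v (ρ * τ) τ p, S.g z ^ 2 =
        ∑ p ∈ P, ∫ t in (ρ * τ)..τ, t * S.v p ^ 2 *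
          ∫ θ in Et D P S.v t p, S.g (circleMap p (t * S.v p) θ) ^ 2 :=
      Finset.sum_congr rfl fun p hp => coarea_cell hf.op hf.vpos hρτ.le hρττ hp hfc
    have hcE : ∀ p ∈ P, ContinuousOn (fun t => t * S.v p ^ 2 *
        ∫ θ in Et D P S.v t p, S.g (circleMap p (t * S.v p) θ) ^ 2) (Icc (ρ * τ) τ) := by
      intro p hp
      have h1 := cont_E hf hp (G := fun z _ => S.g z ^ 2) (hfc.comp continuous_fst)
      exact (continuousOn_id.mul continuousOn_const).mul h1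
    have hii : ∀ p ∈ P, IntervalIntegrable (fun t => t * S.v p ^ 2 *
        ∫ θ in Et D P S.v t p, S.g (circleMap p (t * S.v p) θ) ^ 2) volume (ρ * τ) τ := by
      intro p hp
      refine ContinuousOn.intervalIntegrable ?_
      rw [uIcc_of_le hρττ]
      exact hcE p hp
    rw [← intervalIntegral.integral_finsetSum hii] at e2
    have e3 : ∫ _ in (ρ * τ)..τ, (1 - 2 * S.C ^ 3 * τ) * (M + γ) ≤
        ∫ t in (ρ * τ)..τ, ∑ p ∈ P, t * S.v p ^ 2 *
          ∫ θ in Et D P S.v t p, S.g (circleMap p (t * S.v p) θ) ^ 2 := by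
      refine intervalIntegral.integral_mono_on hρττ (by simp) ?_ ?_
      · refine ContinuousOn.intervalIntegrable ?_
        rw [uIcc_of_le hρττ]
        exact continuousOn_finsetSum P hcE
      · intro t ht
        have h1 := (hcon t ht).le
        have h2 : 0 ≤ 1 - 2 * S.C ^ 3 * τ := by linarith
        calc (1 - 2 * S.C ^ 3 * τ) * (M + γ)
            ≤ (1 - 2 * S.C ^ 3 * τ) * (t * Th D P S.v t) := mul_le_mul_of_nonneg_left h1 h2
          _ = ∑ p ∈ P, (1 - 2 * S.C ^ 3 * τ) * (t * volume.real (Et D P S.v t p)) := by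
              unfold Th
              rw [Finset.mul_sum, Finset.mul_sum]
          _ ≤ _ := Finset.sum_le_sum fun p hp =>
              netT0_cell S hf.op P (hclD (hPcl p hp)) (hρτ.trans_le ht.1) ht.2 (by linarith)
    rw [intervalIntegral.integral_const, smul_eq_mul] at e3
    have e4 : ∫ z in (D ∩ Ut P S.v τ) \ Ut P S.v (ρ * τ), S.g z ^ 2 ≤
        ∫ z in D ∩ Ut P S.v τ, S.g z ^ 2 := by
      refine setIntegral_mono_set (hint _ inter_subset_left) ?_ ?_
      · exact Eventually.of_forall fun z => sq_nonneg _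
      · exact (sdiff_subset).eventuallyLE
    have e5 := hcolP τ hτ0 le_rfl
    rw [e1, e2] at e4
    have e6 : (τ - ρ * τ) * ((1 - 2 * S.C ^ 3 * τ) * (M + γ)) ≤ τ * (M + γ / 2) := by
      linarith
    have e7 : (1 - ρ) * ((1 - 2 * S.C ^ 3 * τ) * (M + γ)) ≤ M + γ / 2 := by
      have e8 : (τ - ρ * τ) * ((1 - 2 * S.C ^ 3 * τ) * (M + γ)) =
          τ * ((1 - ρ) * ((1 - 2 * S.C ^ 3 * τ) * (M + γ))) := by ring
      rw [e8] at e6
      exact le_of_mul_le_mul_left e6 hτ0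
    have e9 : (1 - ρ) * (M + γ) ≤ (1 - 2 * S.C ^ 3 * τ) * (M + γ) :=
      mul_le_mul_of_nonneg_right (by linarith) hMγ.le
    have e10 : (1 - ρ) * ((1 - ρ) * (M + γ)) ≤ M + γ / 2 :=
      (mul_le_mul_of_nonneg_left e9 (by linarith)).trans e7
    nlinarith [mul_pos hρ0 hρ0, mul_pos (mul_pos hρ0 hρ0) hMγ]
  · intro t ht
    have ht0 : 0 < t := hρτ.trans_le ht.1
    have h1 := hcolP t ht0 ht.2
    have hfin : volume (D ∩ Ut P S.v t) ≠ ⊤ :=
      ((hbd.subset inter_subset_left).measure_lt_top).ne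
    have hmeas : MeasurableSet (D ∩ Ut P S.v t) :=
      hf.op.measurableSet.inter (isClosed_Ut P S.v t).measurableSet
    have h2 : volume.real (D ∩ Ut P S.v t) ≤ ∫ z in D ∩ Ut P S.v t, S.C ^ 2 * S.g z ^ 2 := by
      have e1 : volume.real (D ∩ Ut P S.v t) = ∫ _ in D ∩ Ut P S.v t, (1 : ℝ) := by
        rw [setIntegral_const, smul_eq_mul, mul_one]
      rw [e1]
      refine setIntegral_mono_on (integrableOn_const hfin)
        ((hint _ inter_subset_left).const_mul _) hmeas fun z hz => ?_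
      have h3 := S.g_low z (subset_closure (hD hz.1))
      rw [← mul_pow]
      nlinarith
    rw [integral_const_mul] at h2
    have h3 : S.C ^ 2 * ∫ z in D ∩ Ut P S.v t, S.g z ^ 2 ≤ S.C ^ 2 * (τ * (M + γ)) := by
      refine mul_le_mul_of_nonneg_left (h1.trans ?_) (by positivity)
      exact mul_le_mul ht.2 (by linarith) (by linarith) hτ0.le
    linarith

end Pool.Agent.FKM
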