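import Mathlib
import Pool.Agent.Helper13.FKM.ExF
import Pool.Agent.Helper13.FKM.Coarea
import Pool.Agent.Helper13.FKM.NetT0

/-!
FKM-36: approximation of a smooth domain from inside by complements of discs.

Plan. K = Ωᶜ, K2 = ∅, frontier Ω = {φ = 0} ∩ closure Ω is compact (for Ω bounded; if Ω is empty take D = ∅). Let
v z = 1/max ‖gr φ z‖ c0 with 2 c0 = min of ‖gr φ‖ on frontier Ω (so v p = 1/‖gr φ p‖ on frontier Ω). For small τ and
a fine net P of frontier Ω: Front Ω K ∅ P v (ρ τ) τ. For z ∈ Ω ∩ Ut P v τ: dist z p ≤ τ v p with φ p = 0 gives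
-φ z ≤ ‖gr φ p‖ dist z p + C (dist z p)^2 ≤ τ (1 + C' τ). coarea_cell with f_p = g/v p, summed over p:
∫_{ρτ}^τ fInt Ω P v t (g) dt ≤ ∫_{z ∈ Ω, -φ z < τ(1+C'τ)} g(z) (‖gr φ z‖ + C' τ) ≤ by the limit hypothesis
(1 + small) τ (L + small) (the term C' τ ∫ g over the collar is O(τ^2), because the collar has measure O(τ):
‖gr φ‖ ≥ c and the hypothesis hL1 applied to g = 1). So some t ∈ [ρτ, τ] has fInt ≤ L + ε (ρ small), and
D = Ω \ Ut P v t, F = Ft ∅ P v t (reg_front0, bInt_front with F = ∅). |Ω \ D| ≤ |{z ∈ Ω | -φ z < 2τ}| → 0.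
-/

set_option autoImplicit false

open Complex MeasureTheory Set Metric Filter
open scoped ComplexConjugate Topology

namespace Pool.Agent.FKM

namespace Approx

theorem fderiv_eq_gr (f : ℂ → ℝ) (z w : ℂ) : fderiv ℝ f z w = ip (gr f z) w := by
  have h1 : w = w.re • (1 : ℂ) + w.im • I := by
    apply Complex.ext <;> simp
  have h2 : fderiv ℝ f z w = w.re * fderiv ℝ f z 1 + w.im * fderiv ℝ f z I := by
    conv_lhs => rw [h1]
    rw [map_add, map_smul, map_smul, smul_eq_mul, smul_eq_mul]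
  rw [h2]
  simp only [ip, gr, Complex.mul_re, Complex.conj_re, Complex.conj_im]
  ring

theorem abs_fderiv_le (f : ℂ → ℝ) (z w : ℂ) : |fderiv ℝ f z w| ≤ ‖gr f z‖ * ‖w‖ := by
  rw [fderiv_eq_gr, ip]
  calc |(conj (gr f z) * w).re| ≤ ‖conj (gr f z) * w‖ := Complex.abs_re_le_norm _
    _ = ‖gr f z‖ * ‖w‖ := by rw [norm_mul, Complex.norm_conj]

theorem gr_ne_zero {f : ℂ → ℝ} {z : ℂ} (h : fderiv ℝ f z ≠ 0) : 0 < ‖gr f z‖ := by
  rw [norm_pos_iff]
  intro h0
  apply h
  ext w
  have := fderiv_eq_gr f z w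
  rw [h0] at this
  rw [this]
  simp [ip]

theorem norm_gr_sq (f : ℂ → ℝ) (z : ℂ) :
    ‖gr f z‖ ^ 2 = fderiv ℝ f z 1 ^ 2 + fderiv ℝ f z I ^ 2 := by
  rw [← Complex.normSq_eq_norm_sq, Complex.normSq_apply]
  simp only [gr]
  ring

theorem contDiff_part {f : ℂ → ℝ} (hf : ContDiff ℝ 2 f) (v : ℂ) :
    ContDiff ℝ 1 (fun z => fderiv ℝ f z v) := by
  have h1 : ContDiff ℝ 1 (fderiv ℝ f) := by
    apply hf.fderiv_right
    norm_num
  exact h1.clm_apply contDiff_const

theorem continuous_gr {f : ℂ → ℝ} (hf : ContDiff ℝ 2 f) : Continuous (gr f) := by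
  have h1 := (contDiff_part hf 1).continuous
  have h2 := (contDiff_part hf I).continuous
  have : gr f = fun z => ((fderiv ℝ f z 1 : ℝ) : ℂ) + ((fderiv ℝ f z I : ℝ) : ℂ) * I := by
    funext z
    apply Complex.ext <;> simp [gr]
  rw [this]
  fun_prop

/-- the gradient does not vanish close to the frontier -/
theorem exists_c {Ω : Set ℂ} {φ : ℂ → ℝ} (hφ : ContDiff ℝ 2 φ)
    (hΩ : Ω = {z | φ z < 0}) (hb : Bornology.IsBounded Ω)
    (hnd : ∀ z, φ z = 0 → fderiv ℝ φ z ≠ 0) :
    ∃ c > 0, (∀ z ∈ frontier Ω, 2 * c ≤ ‖gr φ z‖) ∧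
      ∃ s0 > 0, ∀ z ∈ Ω, -s0 < φ z → c ≤ ‖gr φ z‖ := by
  have hcont : Continuous φ := hφ.continuous
  have hgr := (continuous_gr hφ).norm
  have hfr : ∀ z ∈ frontier Ω, φ z = 0 := by
    intro z hz
    rw [hΩ] at hz
    exact frontier_lt_subset_eq hcont continuous_const hz
  have hcl : ∀ z ∈ closure Ω, φ z ≤ 0 := by
    intro z hz
    rw [hΩ] at hz
    exact closure_lt_subset_le hcont continuous_const hz
  have hA : IsCompact (frontier Ω) :=
    hb.isCompact_closure.of_isClosed_subset isClosed_frontier frontier_subset_closure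
  obtain ⟨c, hc, hc1⟩ : ∃ c > 0, ∀ z ∈ frontier Ω, 2 * c ≤ ‖gr φ z‖ := by
    rcases (frontier Ω).eq_empty_or_nonempty with he | hne
    · refine ⟨1, one_pos, ?_⟩
      intro z hz
      rw [he] at hz
      exact absurd hz (notMem_empty z)
    · obtain ⟨z0, hz0, hmin⟩ := hA.exists_isMinOn hne hgr.continuousOn
      refine ⟨‖gr φ z0‖ / 2, half_pos (gr_ne_zero (hnd z0 (hfr z0 hz0))), ?_⟩
      intro z hz
      have := hmin hz
      simp only [mem_ofPred_eq] at this
      linarith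
  refine ⟨c, hc, hc1, ?_⟩
  -- the compact set where the gradient is small
  set B : Set ℂ := closure Ω ∩ {z | ‖gr φ z‖ ≤ c} with hB
  have hBc : IsCompact B :=
    hb.isCompact_closure.inter_right (isClosed_le hgr continuous_const)
  rcases B.eq_empty_or_nonempty with he | hne
  · refine ⟨1, one_pos, ?_⟩
    intro z hz _
    by_contra hcon
    have : z ∈ B := ⟨subset_closure hz, (not_le.mp hcon).le⟩
    rw [he] at this
    exact this
  · obtain ⟨z0, hz0, hmax⟩ := hBc.exists_isMaxOn hne hcont.continuousOn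
    have hneg : φ z0 < 0 := by
      rcases lt_or_eq_of_le (hcl z0 hz0.1) with h | h
      · exact h
      · exfalso
        have hz0' : z0 ∈ frontier Ω := by
          refine ⟨hz0.1, ?_⟩
          intro hint
          have : z0 ∈ Ω := interior_subset hint
          rw [hΩ] at this
          exact absurd h (ne_of_lt this)
        have h1 := hc1 z0 hz0'
        have h2 : ‖gr φ z0‖ ≤ c := hz0.2
        linarith
    refine ⟨-φ z0, by linarith, ?_⟩
    intro z hz hz2
    by_contra hcon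
    have hzB : z ∈ B := ⟨subset_closure hz, (not_le.mp hcon).le⟩
    have := hmax hzB
    simp only [mem_ofPred_eq] at this
    linarith

theorem collar_meas {Ω : Set ℂ} (hΩ : IsOpen Ω) {φ : ℂ → ℝ} (hφ : Continuous φ) (s : ℝ) :
    MeasurableSet {z | z ∈ Ω ∧ -s < φ z} :=
  (hΩ.inter (isOpen_lt continuous_const hφ)).measurableSet

theorem integrableOn_bdd {S : Set ℂ} (hS : Bornology.IsBounded S) {f : ℂ → ℝ}
    (hf : Continuous f) : IntegrableOn f S := by
  have h1 : IntegrableOn f (closure S) := hf.continuousOn.integrableOn_compact hS.isCompact_closure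
  exact h1.mono_set subset_closure

/-- integration by parts in one direction -/
theorem ibp {φ ψ a : ℂ → ℝ} (hφ : ContDiff ℝ 1 φ) (hψ : ContDiff ℝ 1 ψ)
    (hψc : HasCompactSupport ψ) (ha : ContDiff ℝ 1 a) (v : ℂ) (s : ℝ)
    (hav : ∀ z, fderiv ℝ φ z v = a z) :
    ∫ z, (1 / s) * (1 / (1 + (φ z / s) ^ 2)) * (ψ z * a z ^ 2) ≤
      ∫ z, 2 * |fderiv ℝ (fun w => ψ w * a w) z v| := by
  have hg : ContDiff ℝ 1 (fun w => ψ w * a w) := hψ.mul ha
  have hgc : HasCompactSupport (fun w => ψ w * a w) := hψc.mul_right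
  have hf : ContDiff ℝ 1 (fun w => Real.arctan (φ w / s)) :=
    Real.contDiff_arctan.comp (hφ.div_const s)
  have hfd : ∀ z, fderiv ℝ (fun w => Real.arctan (φ w / s)) z v =
      (1 / (1 + (φ z / s) ^ 2)) * (a z / s) := by
    intro z
    have h1 : HasFDerivAt φ (fderiv ℝ φ z) z :=
      (hφ.differentiable (by norm_num) z).hasFDerivAt
    have h2 : HasFDerivAt (fun w => φ w / s) ((1 / s) • fderiv ℝ φ z) z := by
      have := h1.const_mul (1 / s)
      refine this.congr_of_eventuallyEq ?_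
      filter_upwards with w
      ring
    have h3 := h2.arctan
    rw [h3.fderiv]
    simp only [_root_.smul_apply, smul_eq_mul, hav]
    ring
  have hgd : Continuous (fun z => fderiv ℝ (fun w => ψ w * a w) z v) :=
    (hg.continuous_fderiv (by norm_num)).clm_apply continuous_const
  have hgdc : HasCompactSupport (fun z => fderiv ℝ (fun w => ψ w * a w) z v) := by
    have := hgc.fderiv (𝕜 := ℝ)
    exact this.comp_left (g := fun L : ℂ →L[ℝ] ℝ => L v) (by simp)
  have hfdcont : Continuous (fun z => fderiv ℝ (fun w => Real.arctan (φ w / s)) z v) :=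
    (hf.continuous_fderiv (by norm_num)).clm_apply continuous_const
  have key := integral_mul_fderiv_eq_neg_fderiv_mul_of_integrable (μ := (volume : Measure ℂ))
    (f := fun w => Real.arctan (φ w / s)) (g := fun w => ψ w * a w) (v := v)
    ((hfdcont.mul hg.continuous).integrable_of_hasCompactSupport hgc.mul_left)
    ((hf.continuous.mul hgd).integrable_of_hasCompactSupport hgdc.mul_left)
    ((hf.continuous.mul hg.continuous).integrable_of_hasCompactSupport hgc.mul_left)
    (fun x _ => hf.differentiable (by norm_num) x)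
    (fun x _ => hg.differentiable (by norm_num) x)
  have e1 : ∫ z, (1 / s) * (1 / (1 + (φ z / s) ^ 2)) * (ψ z * a z ^ 2) =
      ∫ z, fderiv ℝ (fun w => Real.arctan (φ w / s)) z v * (ψ z * a z) := by
    congr 1
    funext z
    rw [hfd]
    ring
  have e2 : ∫ z, (1 / s) * (1 / (1 + (φ z / s) ^ 2)) * (ψ z * a z ^ 2) =
      ∫ z, -(Real.arctan (φ z / s) * fderiv ℝ (fun w => ψ w * a w) z v) := by
    rw [e1, integral_neg, key, neg_neg]
  rw [e2]
  apply integral_mono
  · exact ((hf.continuous.mul hgd).integrable_of_hasCompactSupport hgdc.mul_left).neg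
  · apply Continuous.integrable_of_hasCompactSupport
    · exact continuous_const.mul hgd.abs
    · exact (hgdc.comp_left (g := fun x : ℝ => |x|) (by simp)).mul_left
  · intro z
    show -(Real.arctan (φ z / s) * fderiv ℝ (fun w => ψ w * a w) z v) ≤
      2 * |fderiv ℝ (fun w => ψ w * a w) z v|
    have h1 : |Real.arctan (φ z / s)| ≤ 2 := by
      rw [abs_le]
      have hl := Real.neg_pi_div_two_lt_arctan (φ z / s)
      have hr := Real.arctan_lt_pi_div_two (φ z / s)
      have hpi := Real.pi_lt_four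
      constructor <;> linarith
    calc -(Real.arctan (φ z / s) * fderiv ℝ (fun w => ψ w * a w) z v)
        ≤ |Real.arctan (φ z / s) * fderiv ℝ (fun w => ψ w * a w) z v| := neg_le_abs _
      _ = |Real.arctan (φ z / s)| * |fderiv ℝ (fun w => ψ w * a w) z v| := abs_mul _ _
      _ ≤ 2 * |fderiv ℝ (fun w => ψ w * a w) z v| :=
          mul_le_mul_of_nonneg_right h1 (abs_nonneg _)

end Approx

/-- the collar bound `hL1` -/
theorem collar_bdd {Ω : Set ℂ} {φ : ℂ → ℝ} (hφ : ∀ k : ℕ, ContDiff ℝ k φ)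
    (hΩ : Ω = {z | φ z < 0}) (hb : Bornology.IsBounded Ω)
    (hnd : ∀ z, φ z = 0 → fderiv ℝ φ z ≠ 0) :
    ∃ L1 : ℝ, ∀ᶠ s : ℝ in 𝓝[>] 0,
      (1 / s) * ∫ z in {z | z ∈ Ω ∧ -s < φ z}, ‖gr φ z‖ ≤ L1 := by
  have hφ2 : ContDiff ℝ 2 φ := hφ 2
  have hφ1 : ContDiff ℝ 1 φ := hφ 1
  obtain ⟨c, hc, -, s0, hs0, hcs⟩ := Approx.exists_c hφ2 hΩ hb hnd
  have hop : IsOpen Ω := by
    rw [hΩ]
    exact isOpen_lt hφ2.continuous continuous_const
  obtain ⟨R, hR, hRb⟩ := hb.subset_closedBall_lt 0 0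
  let ψ : ContDiffBump (0 : ℂ) := ⟨R, R + 1, hR, by linarith⟩
  have hψ1 : ContDiff ℝ 1 (ψ : ℂ → ℝ) := ψ.contDiff
  have hψc : HasCompactSupport (ψ : ℂ → ℝ) := ψ.hasCompactSupport
  have hψone : ∀ z ∈ Ω, ψ z = 1 := fun z hz => ψ.one_of_mem_closedBall (hRb hz)
  have ha1 := Approx.contDiff_part hφ2 1
  have ha2 := Approx.contDiff_part hφ2 I
  set B1 := ∫ z, 2 * |fderiv ℝ (fun w => ψ w * fderiv ℝ φ w 1) z 1| with hB1
  set B2 := ∫ z, 2 * |fderiv ℝ (fun w => ψ w * fderiv ℝ φ w I) z I| with hB2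
  refine ⟨(2 / c) * (B1 + B2), ?_⟩
  have hev : ∀ᶠ s : ℝ in 𝓝[>] 0, s ∈ Ioo 0 s0 := Ioo_mem_nhdsGT hs0
  filter_upwards [hev] with s hs
  obtain ⟨hs1, hs2⟩ := hs
  have i1 := Approx.ibp (ψ := ψ) hφ1 hψ1 hψc ha1 1 s (fun z => rfl)
  have i2 := Approx.ibp (ψ := ψ) hφ1 hψ1 hψc ha2 I s (fun z => rfl)
  have hcont1 : Continuous (fun z => (1 / s) * (1 / (1 + (φ z / s) ^ 2)) *
      (ψ z * fderiv ℝ φ z 1 ^ 2)) := by
    have h0 : ∀ z, 1 + (φ z / s) ^ 2 ≠ 0 := fun z => by positivity
    have := hφ2.continuous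
    have := hψ1.continuous
    have := ha1.continuous
    fun_prop (disch := exact h0 _)
  have hcont2 : Continuous (fun z => (1 / s) * (1 / (1 + (φ z / s) ^ 2)) *
      (ψ z * fderiv ℝ φ z I ^ 2)) := by
    have h0 : ∀ z, 1 + (φ z / s) ^ 2 ≠ 0 := fun z => by positivity
    have := hφ2.continuous
    have := hψ1.continuous
    have := ha2.continuous
    fun_prop (disch := exact h0 _)
  have hint1 := hcont1.integrable_of_hasCompactSupport (μ := (volume : Measure ℂ))
    (hψc.mul_right (f' := fun z => fderiv ℝ φ z 1 ^ 2)).mul_left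
  have hint2 := hcont2.integrable_of_hasCompactSupport (μ := (volume : Measure ℂ))
    (hψc.mul_right (f' := fun z => fderiv ℝ φ z I ^ 2)).mul_left
  have hsum : ∫ z, ((1 / s) * (1 / (1 + (φ z / s) ^ 2)) * (ψ z * fderiv ℝ φ z 1 ^ 2) +
      (1 / s) * (1 / (1 + (φ z / s) ^ 2)) * (ψ z * fderiv ℝ φ z I ^ 2)) ≤ B1 + B2 := by
    rw [integral_add hint1 hint2]
    exact add_le_add i1 i2
  have hbd : Bornology.IsBounded {z | z ∈ Ω ∧ -s < φ z} := hb.subset (fun z hz => hz.1)
  have hmeas := Approx.collar_meas hop hφ2.continuous s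
  have hgrc := (Approx.continuous_gr hφ2).norm
  have hle : ∫ z in {z | z ∈ Ω ∧ -s < φ z}, (1 / s) * (c / 2) * ‖gr φ z‖ ≤ B1 + B2 := by
    refine le_trans ?_ hsum
    refine le_trans (setIntegral_mono_on
      (g := fun z => ((1 / s) * (1 / (1 + (φ z / s) ^ 2)) * (ψ z * fderiv ℝ φ z 1 ^ 2) +
      (1 / s) * (1 / (1 + (φ z / s) ^ 2)) * (ψ z * fderiv ℝ φ z I ^ 2)))
      (Approx.integrableOn_bdd hbd (by fun_prop))
      (hint1.add hint2).integrableOn hmeas ?_) ?_
    · intro z hz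
      have hz1 := hcs z hz.1 (by linarith [hz.2])
      have hz2 := hz.2
      have hz3 : φ z < 0 := by
        have := hz.1
        rw [hΩ] at this
        exact this
      have hq : (φ z / s) ^ 2 ≤ 1 := by
        rw [div_pow, div_le_one (by positivity)]
        nlinarith
      have hq2 : (1 : ℝ) / 2 ≤ 1 / (1 + (φ z / s) ^ 2) := by
        apply one_div_le_one_div_of_le (by positivity)
        linarith
      have hn := Approx.norm_gr_sq φ z
      have hn2 : c * ‖gr φ z‖ ≤ ‖gr φ z‖ ^ 2 := by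
        nlinarith [norm_nonneg (gr φ z)]
      have hone := hψone z hz.1
      simp only [hone, one_mul]
      rw [← mul_add, ← hn, mul_assoc, mul_assoc]
      apply mul_le_mul_of_nonneg_left _ (by positivity)
      calc c / 2 * ‖gr φ z‖ = 1 / 2 * (c * ‖gr φ z‖) := by ring
        _ ≤ 1 / 2 * ‖gr φ z‖ ^ 2 := by
            apply mul_le_mul_of_nonneg_left hn2; norm_num
        _ ≤ _ := mul_le_mul_of_nonneg_right hq2 (by positivity)
    · apply setIntegral_le_integral (hint1.add hint2)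
      filter_upwards with z
      have hψ0 : 0 ≤ ψ z := ψ.nonneg
      simp only [Pi.zero_apply]
      exact add_nonneg (mul_nonneg (by positivity) (mul_nonneg hψ0 (sq_nonneg _)))
        (mul_nonneg (by positivity) (mul_nonneg hψ0 (sq_nonneg _)))
  rw [integral_const_mul] at hle
  calc (1 / s) * ∫ z in {z | z ∈ Ω ∧ -s < φ z}, ‖gr φ z‖
      = (2 / c) * ((1 / s) * (c / 2) * ∫ z in {z | z ∈ Ω ∧ -s < φ z}, ‖gr φ z‖) := by
        field_simp
    _ ≤ (2 / c) * (B1 + B2) := by
        apply mul_le_mul_of_nonneg_left hle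
        positivity

namespace Approx

theorem taylor {φ : ℂ → ℝ} (hφ : ContDiff ℝ 2 φ) (R : ℝ) :
    ∃ K : ℝ, 0 ≤ K ∧ ∀ p ∈ closedBall (0 : ℂ) R, ∀ z ∈ closedBall (0 : ℂ) R,
      |φ z - φ p - fderiv ℝ φ p (z - p)| ≤ K * ‖z - p‖ ^ 2 ∧
      ‖gr φ p‖ ≤ ‖gr φ z‖ + K * ‖z - p‖ := by
  have h1 : ContDiff ℝ 1 (fderiv ℝ φ) := hφ.fderiv_right (by norm_num)
  obtain ⟨K0, hK0⟩ := h1.contDiffOn.exists_lipschitzOnWith (s := closedBall (0 : ℂ) R)
    (by norm_num) (convex_closedBall _ _) (isCompact_closedBall _ _)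
  refine ⟨2 * K0, by positivity, ?_⟩
  intro p hp z hz
  have hlip : ∀ w ∈ closedBall (0 : ℂ) R, ‖fderiv ℝ φ w - fderiv ℝ φ p‖ ≤ K0 * ‖w - p‖ := by
    intro w hw
    have := hK0.dist_le_mul w hw p hp
    rwa [dist_eq_norm, dist_eq_norm] at this
  constructor
  · have hseg : segment ℝ p z ⊆ closedBall (0 : ℂ) R :=
      (convex_closedBall _ _).segment_subset hp hz
    have := (convex_segment p z).norm_image_sub_le_of_norm_hasFDerivWithin_le'
      (f := φ) (f' := fderiv ℝ φ) (φ := fderiv ℝ φ p) (C := K0 * ‖z - p‖) (x := p) (y := z)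
      (fun w _ => ((hφ.differentiable (by norm_num)) w).hasFDerivAt.hasFDerivWithinAt)
      (fun w hw => by
        refine (hlip w (hseg hw)).trans ?_
        apply mul_le_mul_of_nonneg_left _ (by positivity)
        exact norm_sub_le_of_mem_segment hw)
      (left_mem_segment ℝ p z) (right_mem_segment ℝ p z)
    rw [Real.norm_eq_abs] at this
    refine this.trans ?_
    have h0 : (0 : ℝ) ≤ K0 := K0.2
    nlinarith [sq_nonneg ‖z - p‖, mul_nonneg h0 (sq_nonneg ‖z - p‖)]
  · have h2 : ‖gr φ p - gr φ z‖ ≤ 2 * K0 * ‖z - p‖ := by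
      refine (Complex.norm_le_abs_re_add_abs_im _).trans ?_
      have hz1 := hlip z hz
      have e1 : (gr φ p - gr φ z).re = -((fderiv ℝ φ z - fderiv ℝ φ p) 1) := by
        simp [gr]
      have e2 : (gr φ p - gr φ z).im = -((fderiv ℝ φ z - fderiv ℝ φ p) I) := by
        simp [gr]
      rw [e1, e2, abs_neg, abs_neg]
      have b1 := (fderiv ℝ φ z - fderiv ℝ φ p).le_opNorm 1
      have b2 := (fderiv ℝ φ z - fderiv ℝ φ p).le_opNorm I
      rw [Real.norm_eq_abs] at b1 b2
      simp only [norm_one, mul_one, Complex.norm_I] at b1 b2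
      linarith
    have h3 : ‖gr φ p‖ ≤ ‖gr φ p - gr φ z‖ + ‖gr φ z‖ := by
      have := norm_add_le (gr φ p - gr φ z) (gr φ z)
      simpa using this
    linarith

theorem measurableSet_cellP {D : Set ℂ} (hD : IsOpen D) (P : Finset ℂ) (v : ℂ → ℝ) (s t : ℝ)
    (p : ℂ) : MeasurableSet (cellP D P v s t p) := by
  have e : cellP D P v s t p = D ∩ ({z | s * v p < dist z p} ∩ ({z | dist z p ≤ t * v p} ∩
      ⋂ q ∈ P, {z | q ≠ p → dist z p * v q < dist z q * v p})) := by
    ext z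
    simp only [cellP, mem_ofPred_eq, mem_inter_iff, mem_iInter]
  rw [e]
  refine hD.measurableSet.inter ((isOpen_lt (by fun_prop) (by fun_prop)).measurableSet.inter
    ((isClosed_le (by fun_prop) (by fun_prop)).measurableSet.inter ?_))
  refine Finset.measurableSet_biInter P (fun q _ => ?_)
  by_cases hq : q = p
  · subst hq
    simp
  · have : {z : ℂ | q ≠ p → dist z p * v q < dist z q * v p} =
        {z | dist z p * v q < dist z q * v p} := by
      ext z
      simp [hq]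
    rw [this]
    exact (isOpen_lt (by fun_prop) (by fun_prop)).measurableSet

/-- averaging -/
theorem exists_le_avg {f : ℝ → ℝ} {a b K : ℝ} (hab : a < b) (hf : ContinuousOn f (Icc a b))
    (h : ∫ t in a..b, f t ≤ K * (b - a)) : ∃ t ∈ Icc a b, f t ≤ K := by
  by_contra hcon
  push Not at hcon
  have := intervalIntegral.integral_lt_integral_of_continuousOn_of_le_of_exists_lt hab
    (f := fun _ => K) (g := f) continuousOn_const hf (fun x hx => (hcon x ⟨hx.1.le, hx.2⟩).le)
    ⟨a, ⟨le_refl _, hab.le⟩, hcon a ⟨le_refl _, hab.le⟩⟩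
  rw [intervalIntegral.integral_const, smul_eq_mul] at this
  linarith [mul_comm K (b - a)]

end Approx

theorem approx {Ω : Set ℂ} {φ g : ℂ → ℝ} (hφ : ∀ k : ℕ, ContDiff ℝ k φ)
    (hΩ : Ω = {z | φ z < 0}) (hb : Bornology.IsBounded Ω) (hnd : ∀ z, φ z = 0 → fderiv ℝ φ z ≠ 0)
    (hg : Continuous g) (hg0 : ∀ z, 0 ≤ g z) {L L1 : ℝ}
    (hL : Tendsto (fun s : ℝ => (1 / s) * ∫ z in {z | z ∈ Ω ∧ -s < φ z}, g z * ‖gr φ z‖)
      (𝓝[>] 0) (𝓝 L))
    (hL1 : ∀ᶠ s : ℝ in 𝓝[>] 0, (1 / s) * ∫ z in {z | z ∈ Ω ∧ -s < φ z}, ‖gr φ z‖ ≤ L1)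
    {ε : ℝ} (hε : 0 < ε) :
    ∃ (F : Finset (ℂ × ℝ)) (D : Set ℂ), Reg F D ∧ closure D ⊆ Ω ∧
      volume.real (Ω \ D) ≤ ε ∧ bInt F D (fun z _ => g z) ≤ L + ε := by
  have hφ2 : ContDiff ℝ 2 φ := hφ 2
  have hφc := hφ2.continuous
  obtain ⟨c, hc, hc2, s0, hs0, hcs⟩ := Approx.exists_c hφ2 hΩ hb hnd
  have hop : IsOpen Ω := by
    rw [hΩ]
    exact isOpen_lt hφc continuous_const
  have hneg : ∀ z ∈ Ω, φ z < 0 := by
    intro z hz
    rw [hΩ] at hz
    exact hz
  have hfr : ∀ z ∈ frontier Ω, φ z = 0 := by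
    intro z hz
    rw [hΩ] at hz
    exact frontier_lt_subset_eq hφc continuous_const hz
  have hA : IsCompact (frontier Ω) :=
    hb.isCompact_closure.of_isClosed_subset isClosed_frontier frontier_subset_closure
  obtain ⟨R, hR, hRb⟩ := hb.closure.subset_closedBall_lt 0 0
  obtain ⟨K, hK, hT⟩ := Approx.taylor hφ2 R
  have hgrc := (Approx.continuous_gr hφ2).norm
  -- bounds for `g` and the gradient
  obtain ⟨G, hG0, hG⟩ : ∃ G > 0, ∀ z ∈ closedBall (0 : ℂ) R, g z ≤ G ∧ ‖gr φ z‖ ≤ G := by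
    have hc1 : Continuous (fun z => g z + ‖gr φ z‖) := hg.add hgrc
    obtain ⟨M, hM⟩ := (isCompact_closedBall (0 : ℂ) R).exists_bound_of_continuousOn
      hc1.continuousOn
    refine ⟨max M 1, lt_max_of_lt_right one_pos, ?_⟩
    intro z hz
    have h1 := hM z hz
    rw [Real.norm_eq_abs] at h1
    have h2 := (le_abs_self _).trans h1
    have h3 := hg0 z
    have h4 := norm_nonneg (gr φ z)
    exact ⟨le_max_of_le_left (by linarith), le_max_of_le_left (by linarith)⟩
  -- the limit is nonnegative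
  have hL0 : 0 ≤ L := by
    refine ge_of_tendsto hL ?_
    filter_upwards [self_mem_nhdsWithin] with s hs
    have hs' : (0 : ℝ) < s := hs
    refine mul_nonneg (by positivity) (integral_nonneg (fun z => ?_))
    exact mul_nonneg (hg0 z) (norm_nonneg _)
  have hL10 : 0 ≤ L1 := by
    obtain ⟨s, hs, hs1⟩ := (hL1.and self_mem_nhdsWithin).exists
    have hs' : (0 : ℝ) < s := hs1
    refine le_trans (mul_nonneg (by positivity) (integral_nonneg (fun z => ?_))) hs
    exact norm_nonneg _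
  -- constants
  set C1 : ℝ := K / (4 * c ^ 2) + 1 with hC1
  have hC1pos : 0 < C1 := by positivity
  set B : ℝ := K / (2 * c) with hB
  have hB0 : 0 ≤ B := by positivity
  set ρ : ℝ := (ε / 4) / (L + ε / 2) with hρ
  have hρ0 : 0 < ρ := by positivity
  have hρ1 : ρ ≤ 1 / 2 := by
    rw [hρ, div_le_iff₀ (by positivity)]
    linarith
  have hρeq : (L + ε / 2) * (1 - ρ) = L + ε / 4 := by
    rw [hρ]
    field_simp
    ring
  -- choice of τ
  have hσ : Tendsto (fun τ : ℝ => τ * (1 + C1 * τ)) (𝓝[>] 0) (𝓝[>] 0) := by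
    rw [tendsto_nhdsWithin_iff]
    constructor
    · have : Tendsto (fun τ : ℝ => τ * (1 + C1 * τ)) (𝓝 0) (𝓝 (0 * (1 + C1 * 0))) := by
        apply Continuous.tendsto
        fun_prop
      rw [zero_mul] at this
      exact this.mono_left nhdsWithin_le_nhds
    · filter_upwards [self_mem_nhdsWithin] with τ hτ
      have : (0 : ℝ) < τ := hτ
      exact mul_pos this (by positivity)
  have ev1 : ∀ᶠ τ : ℝ in 𝓝[>] 0, (1 / (τ * (1 + C1 * τ))) *
      ∫ z in {z | z ∈ Ω ∧ -(τ * (1 + C1 * τ)) < φ z}, g z * ‖gr φ z‖ < L + ε / 4 :=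
    (hL.comp hσ).eventually (gt_mem_nhds (by linarith))
  have ev2 : ∀ᶠ τ : ℝ in 𝓝[>] 0, (1 / (τ * (1 + C1 * τ))) *
      ∫ z in {z | z ∈ Ω ∧ -(τ * (1 + C1 * τ)) < φ z}, ‖gr φ z‖ ≤ L1 := hσ.eventually hL1
  have ev3 : ∀ᶠ τ : ℝ in 𝓝[>] 0, τ * (1 + C1 * τ) < s0 :=
    (hσ.mono_right nhdsWithin_le_nhds).eventually (gt_mem_nhds hs0)
  have ev4 : ∀ᶠ τ : ℝ in 𝓝[>] 0,
      (1 + C1 * τ) * (L + ε / 4 + B * τ * (G / c) * L1) < (L + ε) * (1 - ρ) := by
    have h1 : Tendsto (fun τ : ℝ => (1 + C1 * τ) * (L + ε / 4 + B * τ * (G / c) * L1)) (𝓝 0)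
        (𝓝 ((1 + C1 * 0) * (L + ε / 4 + B * 0 * (G / c) * L1))) := by
      apply Continuous.tendsto
      fun_prop
    have h2 : (1 + C1 * 0) * (L + ε / 4 + B * 0 * (G / c) * L1) < (L + ε) * (1 - ρ) := by
      have : (L + ε) * (1 - ρ) = (L + ε / 2) * (1 - ρ) + ε / 2 * (1 - ρ) := by ring
      rw [this, hρeq]
      have : 0 < ε / 2 * (1 - ρ) := mul_pos (by positivity) (by linarith)
      linarith
    exact (h1.mono_left nhdsWithin_le_nhds).eventually (gt_mem_nhds h2)
  have ev5 : ∀ᶠ τ : ℝ in 𝓝[>] 0, (1 / c) * (τ * (1 + C1 * τ) * L1) < ε := by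
    have h1 : Tendsto (fun τ : ℝ => (1 / c) * (τ * (1 + C1 * τ) * L1)) (𝓝 0)
        (𝓝 ((1 / c) * (0 * (1 + C1 * 0) * L1))) := by
      apply Continuous.tendsto
      fun_prop
    have h2 : (1 / c) * (0 * (1 + C1 * 0) * L1) < ε := by
      rw [zero_mul, zero_mul, mul_zero]
      exact hε
    exact (h1.mono_left nhdsWithin_le_nhds).eventually (gt_mem_nhds h2)
  obtain ⟨τ, hτ1, hτ2, hτ3, hτ4, hτ5, hτ6⟩ :=
    (ev1.and (ev2.and (ev3.and (ev4.and (ev5.and self_mem_nhdsWithin))))).exists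
  have hτ : (0 : ℝ) < τ := hτ6
  set σ : ℝ := τ * (1 + C1 * τ) with hσdef
  have hσ0 : 0 < σ := by positivity
  -- the speed
  set v : ℂ → ℝ := fun z => 1 / max ‖gr φ z‖ c with hv
  have hvpos : ∀ z, 0 < v z := by
    intro z
    have : 0 < max ‖gr φ z‖ c := lt_max_of_lt_right hc
    simp only [hv]
    positivity
  have hvA : ∀ p ∈ frontier Ω, v p * ‖gr φ p‖ = 1 := by
    intro p hp
    have h1 := hc2 p hp
    have h2 : max ‖gr φ p‖ c = ‖gr φ p‖ := max_eq_left (by linarith)
    simp only [hv]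
    rw [h2]
    have : 0 < ‖gr φ p‖ := by linarith
    field_simp
  have hvle : ∀ p ∈ frontier Ω, v p ≤ 1 / (2 * c) := by
    intro p hp
    have h1 := hc2 p hp
    have h3 := hvA p hp
    have h4 : 0 < ‖gr φ p‖ := by linarith
    rw [le_div_iff₀ (by positivity)]
    calc v p * (2 * c) ≤ v p * ‖gr φ p‖ := mul_le_mul_of_nonneg_left h1 (hvpos p).le
      _ = 1 := h3
  have hvge : ∀ p ∈ frontier Ω, 1 / G ≤ v p := by
    intro p hp
    have hpR : p ∈ closedBall (0 : ℂ) R := hRb (frontier_subset_closure hp)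
    have h1 := (hG p hpR).2
    have h3 := hvA p hp
    rw [div_le_iff₀ hG0]
    calc 1 = v p * ‖gr φ p‖ := h3.symm
      _ ≤ v p * G := mul_le_mul_of_nonneg_left h1 (hvpos p).le
  -- the net
  obtain ⟨P, hPA, hPnet⟩ := exists_net hA (δ := ρ * τ * (1 / G)) (by positivity)
  have hFront : Front Ω Ωᶜ ∅ P v (ρ * τ) τ := by
    refine ⟨hop, hb, ⟨hop.isClosed_compl, isClosed_empty, disjoint_empty _, union_empty _⟩,
      ?_, hvpos, by positivity, ?_, ?_, ?_⟩
    · intro p hp
      have h1 := hfr p (hPA p hp)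
      intro hp2
      have := hneg p hp2
      linarith
    · nlinarith
    · intro z hz _
      obtain ⟨p, hp, hd⟩ := hPnet z hz
      refine ⟨p, hp, hd.trans_le ?_⟩
      exact mul_le_mul_of_nonneg_left (hvge p (hPA p hp)) (by positivity)
    · intro p _ x _
      rw [compl_union_self]
      exact mem_univ x
  -- geometric estimate
  have hgeo : ∀ p ∈ P, ∀ z ∈ Ω, dist z p ≤ τ * v p →
      -σ < φ z ∧ 1 / v p ≤ ‖gr φ z‖ + B * τ := by
    intro p hp z hz hd
    have hpA := hPA p hp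
    have hpR : p ∈ closedBall (0 : ℂ) R := hRb (frontier_subset_closure hpA)
    have hzR : z ∈ closedBall (0 : ℂ) R := hRb (subset_closure hz)
    obtain ⟨t1, t2⟩ := hT p hpR z hzR
    rw [dist_eq_norm] at hd
    have h3 := hvA p hpA
    have h4 := hvle p hpA
    have hvp := hvpos p
    have hgp : 0 ≤ ‖gr φ p‖ := norm_nonneg _
    have hzp : 0 ≤ ‖z - p‖ := norm_nonneg _
    constructor
    · have h5 := Approx.abs_fderiv_le φ p (z - p)
      have h6 : ‖gr φ p‖ * ‖z - p‖ ≤ τ := by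
        calc ‖gr φ p‖ * ‖z - p‖ ≤ ‖gr φ p‖ * (τ * v p) := mul_le_mul_of_nonneg_left hd hgp
          _ = τ * (v p * ‖gr φ p‖) := by ring
          _ = τ := by rw [h3, mul_one]
      have h7 : ‖z - p‖ ^ 2 ≤ (τ * (1 / (2 * c))) ^ 2 := by
        apply pow_le_pow_left₀ hzp
        exact hd.trans (mul_le_mul_of_nonneg_left h4 hτ.le)
      have h8 : K * ‖z - p‖ ^ 2 ≤ K / (4 * c ^ 2) * τ ^ 2 := by
        calc K * ‖z - p‖ ^ 2 ≤ K * (τ * (1 / (2 * c))) ^ 2 := mul_le_mul_of_nonneg_left h7 hK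
          _ = K / (4 * c ^ 2) * τ ^ 2 := by
            field_simp
            ring
      rw [hfr p hpA] at t1
      have h9 := (abs_le.mp t1).1
      have h10 := (abs_le.mp h5).1
      have h11 : σ = τ + K / (4 * c ^ 2) * τ ^ 2 + τ ^ 2 := by
        rw [hσdef, hC1]
        ring
      have h12 : 0 < τ ^ 2 := by positivity
      linarith
    · have h5 : 1 / v p = ‖gr φ p‖ := by
        rw [div_eq_iff hvp.ne']
        linarith [mul_comm (v p) ‖gr φ p‖]
      rw [h5]
      refine t2.trans ?_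
      have : K * ‖z - p‖ ≤ B * τ := by
        calc K * ‖z - p‖ ≤ K * (τ * (1 / (2 * c))) :=
              mul_le_mul_of_nonneg_left (hd.trans (mul_le_mul_of_nonneg_left h4 hτ.le)) hK
          _ = B * τ := by rw [hB]; ring
      linarith
  -- the collar
  set col : Set ℂ := {z | z ∈ Ω ∧ -σ < φ z} with hcol
  have hcolm : MeasurableSet col := Approx.collar_meas hop hφc σ
  have hcolb : Bornology.IsBounded col := hb.subset (fun z hz => hz.1)
  have hUt : ∀ t ≤ τ, Ω ∩ Ut P v t ⊆ col := by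
    intro t ht z hz
    obtain ⟨hz1, hz2⟩ := hz
    simp only [Ut, mem_iUnion, mem_closedBall, exists_prop] at hz2
    obtain ⟨p, hp, hd⟩ := hz2
    refine ⟨hz1, (hgeo p hp z hz1 (hd.trans ?_)).1⟩
    exact mul_le_mul_of_nonneg_right ht (hvpos p).le
  -- continuity of the front integral
  have hGc : Continuous (Function.uncurry (fun (z _ : ℂ) => g z)) := hg.comp continuous_fst
  have hcontp : ∀ p ∈ P, ContinuousOn (fun t => t * v p *
      ∫ θ in Et Ω P v t p, g (circleMap p (t * v p) θ)) (Icc (ρ * τ) τ) := by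
    intro p hp
    have := cont_E hFront hp hGc
    exact (continuousOn_id.mul continuousOn_const).mul this
  have hρτ : ρ * τ < τ := by nlinarith
  have hcontf : ContinuousOn (fun t => fInt Ω P v t (fun z _ => g z)) (Icc (ρ * τ) τ) := by
    simp only [fInt]
    exact continuousOn_finsetSum _ hcontp
  -- the integral of the front integral
  have hint : ∫ t in (ρ * τ)..τ, fInt Ω P v t (fun z _ => g z) ≤
      ∫ z in col, g z * (‖gr φ z‖ + B * τ) := by
    have e1 : ∫ t in (ρ * τ)..τ, fInt Ω P v t (fun z _ => g z) =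
        ∑ p ∈ P, (1 / v p) * ∫ z in cellP Ω P v (ρ * τ) τ p, g z := by
      simp only [fInt]
      rw [intervalIntegral.integral_finsetSum]
      · apply Finset.sum_congr rfl
        intro p hp
        rw [coarea_cell hop hvpos (by positivity) hρτ.le hp hg,
          ← intervalIntegral.integral_const_mul]
        congr 1
        funext t
        have := (hvpos p).ne'
        field_simp
      · intro p hp
        apply ContinuousOn.intervalIntegrable
        rw [uIcc_of_le hρτ.le]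
        exact hcontp p hp
    rw [e1]
    have hcf : Continuous (fun z => g z * (‖gr φ z‖ + B * τ)) := by fun_prop
    have e2 : ∑ p ∈ P, (1 / v p) * ∫ z in cellP Ω P v (ρ * τ) τ p, g z ≤
        ∑ p ∈ P, ∫ z in cellP Ω P v (ρ * τ) τ p, g z * (‖gr φ z‖ + B * τ) := by
      apply Finset.sum_le_sum
      intro p hp
      rw [← integral_const_mul]
      have hcb : Bornology.IsBounded (cellP Ω P v (ρ * τ) τ p) := hb.subset (fun z hz => hz.1)
      apply setIntegral_mono_on (Approx.integrableOn_bdd hcb (by fun_prop))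
        (Approx.integrableOn_bdd hcb hcf) (Approx.measurableSet_cellP hop P v _ _ p)
      intro z hz
      rw [mul_comm (1 / v p)]
      exact mul_le_mul_of_nonneg_left (hgeo p hp z hz.1 hz.2.2.1).2 (hg0 z)
    refine e2.trans ?_
    rw [← coarea_set hop hvpos (by positivity) hρτ.le hcf]
    apply setIntegral_mono_set (Approx.integrableOn_bdd hcolb hcf)
    · filter_upwards with z
      simp only [Pi.zero_apply]
      exact mul_nonneg (hg0 z) (by positivity)
    · apply LE.le.eventuallyLE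
      exact sdiff_subset.trans (hUt τ le_rfl)
  -- estimate of the integral over the collar
  have hcc : ∀ z ∈ col, c ≤ ‖gr φ z‖ := by
    intro z hz
    exact hcs z hz.1 (by linarith [hz.2])
  have hn1 : ∫ z in col, ‖gr φ z‖ ≤ σ * L1 := by
    rw [one_div, inv_mul_le_iff₀ hσ0] at hτ2
    exact hτ2
  have hn2 : ∫ z in col, g z * ‖gr φ z‖ ≤ σ * (L + ε / 4) := by
    have := hτ1.le
    rw [one_div, inv_mul_le_iff₀ hσ0] at this
    exact this
  have hn3 : ∫ z in col, g z ≤ (G / c) * (σ * L1) := by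
    calc ∫ z in col, g z ≤ ∫ z in col, (G / c) * ‖gr φ z‖ := by
          apply setIntegral_mono_on (Approx.integrableOn_bdd hcolb hg)
            (Approx.integrableOn_bdd hcolb (by fun_prop)) hcolm
          intro z hz
          have h1 := (hG z (hRb (subset_closure hz.1))).1
          have h2 := hcc z hz
          calc g z ≤ G := h1
            _ = G / c * c := by field_simp
            _ ≤ G / c * ‖gr φ z‖ := mul_le_mul_of_nonneg_left h2 (by positivity)
      _ = (G / c) * ∫ z in col, ‖gr φ z‖ := integral_const_mul _ _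
      _ ≤ (G / c) * (σ * L1) := mul_le_mul_of_nonneg_left hn1 (by positivity)
  have hn4 : ∫ z in col, g z * (‖gr φ z‖ + B * τ) ≤
      σ * (L + ε / 4) + B * τ * ((G / c) * (σ * L1)) := by
    have e : ∫ z in col, g z * (‖gr φ z‖ + B * τ) =
        (∫ z in col, g z * ‖gr φ z‖) + B * τ * ∫ z in col, g z := by
      rw [← integral_const_mul, ← integral_add]
      · congr 1
        funext z
        ring
      · exact Approx.integrableOn_bdd hcolb (by fun_prop)
      · exact Approx.integrableOn_bdd hcolb (by fun_prop)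
    rw [e]
    exact add_le_add hn2 (mul_le_mul_of_nonneg_left hn3 (by positivity))
  have hn5 : σ * (L + ε / 4) + B * τ * ((G / c) * (σ * L1)) ≤ (L + ε) * (τ - ρ * τ) := by
    have := mul_le_mul_of_nonneg_left hτ4.le hτ.le
    calc σ * (L + ε / 4) + B * τ * ((G / c) * (σ * L1))
        = τ * ((1 + C1 * τ) * (L + ε / 4 + B * τ * (G / c) * L1)) := by
          rw [hσdef]
          ring
      _ ≤ τ * ((L + ε) * (1 - ρ)) := this
      _ = (L + ε) * (τ - ρ * τ) := by ring
  obtain ⟨t, ht, htf⟩ := Approx.exists_le_avg hρτ hcontf ((hint.trans hn4).trans hn5)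
  obtain ⟨hreg, hclos⟩ := reg_front0 hFront ht
  refine ⟨Ft ∅ P v t, Ω \ Ut P v t, hreg, hclos, ?_, ?_⟩
  · have hsub : Ω \ (Ω \ Ut P v t) ⊆ col := by
      rw [sdiff_sdiff_right_self]
      exact hUt t ht.2
    have hfin : volume col ≠ ⊤ := hcolb.measure_lt_top.ne
    calc volume.real (Ω \ (Ω \ Ut P v t)) ≤ volume.real col := measureReal_mono hsub hfin
      _ = (1 / c) * ∫ z in col, c := by
          rw [setIntegral_const, smul_eq_mul]
          field_simp
      _ ≤ (1 / c) * ∫ z in col, ‖gr φ z‖ := by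
          apply mul_le_mul_of_nonneg_left _ (by positivity)
          exact setIntegral_mono_on (Approx.integrableOn_bdd hcolb continuous_const)
            (Approx.integrableOn_bdd hcolb hgrc) hcolm hcc
      _ ≤ (1 / c) * (σ * L1) := mul_le_mul_of_nonneg_left hn1 (by positivity)
      _ ≤ ε := hτ5.le
  · rw [bInt_front (F := ∅) (by simp) (by simp [cl]) hFront ht _ hGc]
    have : bInt (inK ∅ ∅) Ω (fun z _ => g z) = 0 := by
      simp [bInt, inK]
    rw [this, zero_add]
    exact htf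

end Pool.Agent.FKM
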