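import Mathlib
import Pool.Agent.Helper13.FKM.Defs

/-!
FKM: quantities of the front in the data `S`.
-/

set_option autoImplicit false

open Complex MeasureTheory Set Metric Filter
open scoped ComplexConjugate Topology

namespace Pool.Agent.FKM

noncomputable section

/-- Euclidean length of the front -/
def LL (S : Dat) (D : Set ℂ) (P : Finset ℂ) (t : ℝ) : ℝ :=
  ∑ p ∈ P, t * S.v p * volume.real (Et D P S.v t p)

/-- speed of the area -/
def VV (S : Dat) (D : Set ℂ) (P : Finset ℂ) (t : ℝ) : ℝ :=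
  ∑ p ∈ P, t * S.v p ^ 2 * volume.real (Et D P S.v t p)

/-- flux of `Om` through the front -/
def PsiO (S : Dat) (D : Set ℂ) (P : Finset ℂ) (t : ℝ) : ℝ :=
  fInt D P S.v t (fun z ν => ip ν (S.Om z))

/-- speed of the integral of `P` -/
def PPf (S : Dat) (D : Set ℂ) (P : Finset ℂ) (t : ℝ) : ℝ :=
  ∑ p ∈ P, t * S.v p ^ 2 * ∫ θ in Et D P S.v t p, S.P (circleMap p (t * S.v p) θ)

/-- area at time `t` -/
def AA (S : Dat) (D : Set ℂ) (P : Finset ℂ) (t : ℝ) : ℝ := volume.real (D \ Ut P S.v t)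

/-- the integral of `P` at time `t` -/
def IP (S : Dat) (D : Set ℂ) (P : Finset ℂ) (t : ℝ) : ℝ := ∫ z in D \ Ut P S.v t, S.P z

end

end Pool.Agent.FKM
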