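import Mathlib
import Pool.Agent.Helper13.FKM.FrDefs
import Pool.Agent.Helper13.FKM.Cont
import Pool.Agent.Helper13.FKM.Coarea

/-!
FKM-39: derivatives in time.

Plan. For t0 ≤ s ≤ t ≤ t1: D \ Ut s = (D \ Ut t) ∪ ((D ∩ Ut t) \ Ut s) disjoint union (Ut is monotone in t), so
IP s - IP t = ∫_{(D ∩ Ut t) \ Ut s} P = ∫_s^t PPf (coarea_set, coarea_cell), and with f = 1 the same for AA, VV. The
integrands are continuous on Icc t0 t1 (cont_E), so FTC (intervalIntegral.integral_hasDerivAt_right, or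
the version at an interior point).
-/

set_option autoImplicit false

open Complex MeasureTheory Set Metric Filter
open scoped ComplexConjugate Topology

namespace Pool.Agent.FKM

private theorem volEt_eq (S : Dat) (D : Set ℂ) (P : Finset ℂ) (t : ℝ) (p : ℂ) :
    volume.real (Et D P S.v t p) = ∫ θ in Et D P S.v t p,
      (fun _ _ => (1 : ℝ)) (circleMap p (t * S.v p) θ) (exp (θ * I)) := by
  rw [setIntegral_const, smul_eq_mul, mul_one]

private theorem cont_vol (S : Dat) {D K K2 : Set ℂ} {P : Finset ℂ} {t0 t1 : ℝ}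
    (hf : Front D K K2 P S.v t0 t1) {p : ℂ} (hp : p ∈ P) :
    ContinuousOn (fun t => volume.real (Et D P S.v t p)) (Icc t0 t1) := by
  have h := cont_E hf hp (G := fun _ _ => (1 : ℝ)) continuous_const
  refine h.congr fun t _ => ?_
  exact volEt_eq S D P t p

theorem cont_front (S : Dat) {D K K2 : Set ℂ} {P : Finset ℂ} {t0 t1 : ℝ}
    (hf : Front D K K2 P S.v t0 t1) :
    ContinuousOn (Th D P S.v) (Icc t0 t1) ∧ ContinuousOn (LL S D P) (Icc t0 t1) ∧
      ContinuousOn (VV S D P) (Icc t0 t1) ∧ ContinuousOn (PsiO S D P) (Icc t0 t1) ∧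
      ContinuousOn (PPf S D P) (Icc t0 t1) := by
  refine ⟨?_, ?_, ?_, ?_, ?_⟩
  · unfold Th
    exact continuousOn_finsetSum _ fun p hp => cont_vol S hf hp
  · unfold LL
    exact continuousOn_finsetSum _ fun p hp =>
      (continuousOn_id.mul continuousOn_const).mul (cont_vol S hf hp)
  · unfold VV
    exact continuousOn_finsetSum _ fun p hp =>
      (continuousOn_id.mul continuousOn_const).mul (cont_vol S hf hp)
  · unfold PsiO fInt
    refine continuousOn_finsetSum _ fun p hp =>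
      (continuousOn_id.mul continuousOn_const).mul
        (cont_E hf hp (G := fun z ν => ip ν (S.Om z)) ?_)
    have h1 : Continuous S.Om := S.Om_cont.continuous
    unfold ip Function.uncurry
    fun_prop
  · unfold PPf
    refine continuousOn_finsetSum _ fun p hp =>
      (continuousOn_id.mul continuousOn_const).mul (cont_E hf hp (G := fun z _ => S.P z) ?_)
    have h1 : Continuous S.P := S.P_cont
    unfold Function.uncurry
    fun_prop

private theorem Ut_closed (P : Finset ℂ) (v : ℂ → ℝ) (t : ℝ) : IsClosed (Ut P v t) := by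
  unfold Ut
  exact P.finite_toSet.isClosed_biUnion (fun p _ => isClosed_closedBall)

private theorem Ut_mono {P : Finset ℂ} {v : ℂ → ℝ} (hv : ∀ p, 0 < v p) {s t : ℝ} (hst : s ≤ t) :
    Ut P v s ⊆ Ut P v t := by
  intro x hx
  simp only [Ut, mem_iUnion, exists_prop] at hx ⊢
  obtain ⟨p, hp, hx⟩ := hx
  exact ⟨p, hp, closedBall_subset_closedBall (mul_le_mul_of_nonneg_right hst (hv p).le) hx⟩

private theorem diff_int {D : Set ℂ} (hD : IsOpen D) (hb : Bornology.IsBounded D) {P : Finset ℂ}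
    {v : ℂ → ℝ} (hv : ∀ p, 0 < v p) {s t : ℝ} (h0 : 0 ≤ s) (hst : s ≤ t) {f : ℂ → ℝ}
    (hf : Continuous f) :
    (∫ z in D \ Ut P v s, f z) - ∫ z in D \ Ut P v t, f z =
      ∑ p ∈ P, ∫ τ in s..t, τ * v p ^ 2 * ∫ θ in Et D P v τ p, f (circleMap p (τ * v p) θ) := by
  have hint : IntegrableOn f D volume := by
    have h1 : IntegrableOn f (closure D) volume :=
      hf.continuousOn.integrableOn_compact (hb.isCompact_closure)
    exact h1.mono_set subset_closure
  have hsub := Ut_mono (P := P) hv hst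
  have hU : D \ Ut P v s = (D \ Ut P v t) ∪ ((D ∩ Ut P v t) \ Ut P v s) := by
    ext x
    simp only [Set.mem_sdiff, mem_union, mem_inter_iff]
    constructor
    · rintro ⟨h1, h2⟩
      by_cases h3 : x ∈ Ut P v t
      · exact Or.inr ⟨⟨h1, h3⟩, h2⟩
      · exact Or.inl ⟨h1, h3⟩
    · rintro (⟨h1, h2⟩ | ⟨⟨h1, h2⟩, h3⟩)
      · exact ⟨h1, fun h => h2 (hsub h)⟩
      · exact ⟨h1, h3⟩
  have hdisj : Disjoint (D \ Ut P v t) ((D ∩ Ut P v t) \ Ut P v s) := by
    rw [Set.disjoint_left]
    rintro x ⟨_, h1⟩ ⟨⟨_, h2⟩, _⟩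
    exact h1 h2
  have hmeas : MeasurableSet ((D ∩ Ut P v t) \ Ut P v s) :=
    (hD.measurableSet.inter (Ut_closed P v t).measurableSet).diff (Ut_closed P v s).measurableSet
  rw [hU, setIntegral_union hdisj hmeas (hint.mono_set sdiff_subset)
    (hint.mono_set (sdiff_subset.trans inter_subset_left)), add_sub_cancel_left,
    coarea_set hD hv h0 hst hf]
  exact Finset.sum_congr rfl fun p hp => coarea_cell hD hv h0 hst hp hf

theorem area_int (S : Dat) {D K K2 : Set ℂ} {P : Finset ℂ} {t0 t1 : ℝ}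
    (hf : Front D K K2 P S.v t0 t1) {s t : ℝ} (hs : t0 ≤ s) (hst : s ≤ t) (ht : t ≤ t1) :
    AA S D P s - AA S D P t = ∫ τ in s..t, VV S D P τ ∧
      IP S D P s - IP S D P t = ∫ τ in s..t, PPf S D P τ := by
  have h0 : 0 ≤ s := hf.t0pos.le.trans hs
  have hsub : uIcc s t ⊆ Icc t0 t1 := by
    rw [uIcc_of_le hst]
    exact Icc_subset_Icc hs ht
  constructor
  · have h1 := diff_int hf.op hf.bdd (P := P) hf.vpos h0 hst (f := fun _ => (1 : ℝ))
      continuous_const
    have h2 : ∀ r : ℝ, ∫ z in D \ Ut P S.v r, (1 : ℝ) = AA S D P r := by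
      intro r
      rw [setIntegral_const, smul_eq_mul, mul_one]
      rfl
    rw [h2, h2] at h1
    rw [h1]
    unfold VV
    rw [intervalIntegral.integral_finsetSum]
    · refine Finset.sum_congr rfl fun p _ => ?_
      refine intervalIntegral.integral_congr fun τ _ => ?_
      show _ = τ * S.v p ^ 2 * volume.real (Et D P S.v τ p)
      rw [volEt_eq]
    · intro p hp
      apply ContinuousOn.intervalIntegrable
      exact ((continuousOn_id.mul continuousOn_const).mul (cont_vol S hf hp)).mono hsub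
  · have h1 := diff_int hf.op hf.bdd (P := P) hf.vpos h0 hst S.P_cont
    unfold IP
    rw [h1]
    unfold PPf
    rw [intervalIntegral.integral_finsetSum]
    intro p hp
    apply ContinuousOn.intervalIntegrable
    refine ((continuousOn_id.mul continuousOn_const).mul
      (cont_E hf hp (G := fun z _ => S.P z) ?_)).mono hsub
    have h1 : Continuous S.P := S.P_cont
    unfold Function.uncurry
    fun_prop

private theorem prim_deriv {f A : ℝ → ℝ} {t0 t1 t : ℝ} (hc : ContinuousOn f (Icc t0 t1))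
    (hA : ∀ x ∈ Icc t0 t1, A t0 - A x = ∫ τ in t0..x, f τ) (ht : t ∈ Ioo t0 t1) :
    HasDerivAt A (-(f t)) t := by
  have hsub : uIcc t0 t ⊆ Icc t0 t1 := by
    rw [uIcc_of_le ht.1.le]
    exact Icc_subset_Icc le_rfl ht.2.le
  have h1 : HasDerivAt (fun x => ∫ τ in t0..x, f τ) (f t) t := by
    apply intervalIntegral.integral_hasDerivAt_right
    · exact (hc.mono hsub).intervalIntegrable
    · exact (hc.mono Ioo_subset_Icc_self).stronglyMeasurableAtFilter isOpen_Ioo t ht
    · exact hc.continuousAt (Icc_mem_nhds ht.1 ht.2)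
  have h2 : HasDerivAt (fun x => A t0 - ∫ τ in t0..x, f τ) (-(f t)) t := by
    simpa using h1.const_sub (A t0)
  refine h2.congr_of_eventuallyEq ?_
  filter_upwards [Icc_mem_nhds ht.1 ht.2] with x hx
  rw [← hA x hx]
  ring

private theorem prim_cont {f A : ℝ → ℝ} {t0 t1 : ℝ} (h01 : t0 ≤ t1)
    (hc : ContinuousOn f (Icc t0 t1))
    (hA : ∀ x ∈ Icc t0 t1, A t0 - A x = ∫ τ in t0..x, f τ) : ContinuousOn A (Icc t0 t1) := by
  have h1 : ContinuousOn (fun x => ∫ τ in t0..x, f τ) (uIcc t0 t1) := by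
    apply intervalIntegral.continuousOn_primitive_interval
    rw [uIcc_of_le h01]
    exact hc.integrableOn_compact isCompact_Icc
  rw [uIcc_of_le h01] at h1
  have h2 : ContinuousOn (fun x => A t0 - ∫ τ in t0..x, f τ) (Icc t0 t1) :=
    continuousOn_const.sub h1
  refine h2.congr fun x hx => ?_
  show A x = A t0 - ∫ τ in t0..x, f τ
  rw [← hA x hx]
  ring

theorem area_deriv (S : Dat) {D K K2 : Set ℂ} {P : Finset ℂ} {t0 t1 : ℝ}
    (hf : Front D K K2 P S.v t0 t1) {t : ℝ} (ht : t ∈ Ioo t0 t1) :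
    HasDerivAt (AA S D P) (-(VV S D P t)) t ∧ HasDerivAt (IP S D P) (-(PPf S D P t)) t := by
  obtain ⟨-, -, h3, -, h5⟩ := cont_front S hf
  exact ⟨prim_deriv h3 (fun x hx => (area_int S hf le_rfl hx.1 hx.2).1) ht,
    prim_deriv h5 (fun x hx => (area_int S hf le_rfl hx.1 hx.2).2) ht⟩

theorem area_cont (S : Dat) {D K K2 : Set ℂ} {P : Finset ℂ} {t0 t1 : ℝ}
    (hf : Front D K K2 P S.v t0 t1) :
    ContinuousOn (AA S D P) (Icc t0 t1) ∧ ContinuousOn (IP S D P) (Icc t0 t1) := by
  obtain ⟨-, -, h3, -, h5⟩ := cont_front S hf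
  exact ⟨prim_cont hf.t01 h3 (fun x hx => (area_int S hf le_rfl hx.1 hx.2).1),
    prim_cont hf.t01 h5 (fun x hx => (area_int S hf le_rfl hx.1 hx.2).2)⟩

end Pool.Agent.FKM
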