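import Mathlib
import Pool.Agent.Helper13.FKM.Defs
import Pool.Agent.Helper13.FKM.PartL

/-!
FKM-17: auxiliary discs covering `K`.

Plan. The compact set K ∩ closedBall 0 R minus the open balls ball p (t v p), p ∈ P, is contained in
interior K, because frontier K = frontier D ∩ K (part_frontier) is covered by these open balls (hf.cover).
Cover it by finitely many open balls whose closed balls are in interior K.
-/

set_option autoImplicit false

open Complex MeasureTheory Set Metric Filter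
open scoped ComplexConjugate Topology

namespace Pool.Agent.FKM

theorem aux_cover {D K K2 : Set ℂ} {P : Finset ℂ} {v : ℂ → ℝ} {t : ℝ}
    (hf : Front D K K2 P v t t) (R : ℝ) :
    ∃ Q : Finset (ℂ × ℝ), (∀ b ∈ Q, 0 < b.2 ∧ closedBall b.1 b.2 ⊆ interior K) ∧
      K ∩ closedBall 0 R ⊆ (⋃ p ∈ P, ball p (t * v p)) ∪ ⋃ b ∈ Q, ball b.1 b.2 := by
  classical
  set U : Set ℂ := ⋃ p ∈ P, ball p (t * v p) with hU
  have hUo : IsOpen U := isOpen_biUnion fun p _ => isOpen_ball
  set T : Set ℂ := (K ∩ closedBall 0 R) \ U with hT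
  have hTc : IsCompact T := by
    have h1 : IsCompact (K ∩ closedBall (0 : ℂ) R) :=
      (isCompact_closedBall (0 : ℂ) R).inter_left hf.part.closed
    exact h1.diff hUo
  have hTi : T ⊆ interior K := by
    intro z hz
    by_contra hzi
    have hzK : z ∈ K := hz.1.1
    have hzf : z ∈ frontier K := ⟨subset_closure hzK, hzi⟩
    have hzD : z ∈ frontier D := by
      rw [part_frontier hf.op hf.part] at hzf
      exact hzf.1
    obtain ⟨p, hp, hd⟩ := hf.cover z hzD hzK
    apply hz.2
    rw [hU, mem_iUnion₂]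
    exact ⟨p, hp, mem_ball.2 hd⟩
  have hr : ∀ z : ℂ, ∃ r : ℝ, 0 < r ∧ (z ∈ T → closedBall z r ⊆ interior K) := by
    intro z
    by_cases hz : z ∈ T
    · obtain ⟨r, hr, hs⟩ := Metric.nhds_basis_closedBall.mem_iff.1
        (isOpen_interior.mem_nhds (hTi hz))
      exact ⟨r, hr, fun _ => hs⟩
    · exact ⟨1, one_pos, fun h => absurd h hz⟩
  choose r hr0 hrs using hr
  obtain ⟨F, hF1, hF2⟩ := hTc.elim_nhds_subcover (fun z => ball z (r z))
    (fun z _ => ball_mem_nhds z (hr0 z))
  refine ⟨F.image fun z => (z, r z), ?_, ?_⟩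
  · intro b hb
    obtain ⟨z, hz, rfl⟩ := Finset.mem_image.1 hb
    exact ⟨hr0 z, hrs z (hF1 z hz)⟩
  · intro z hz
    by_cases hzU : z ∈ U
    · exact Or.inl hzU
    · right
      obtain ⟨w, hw, hzw⟩ := mem_iUnion₂.1 (hF2 ⟨hz, hzU⟩)
      rw [mem_iUnion₂]
      exact ⟨(w, r w), Finset.mem_image_of_mem _ hw, hzw⟩

end Pool.Agent.FKM
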