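import Mathlib
import Pool.Agent.Helper13.FKM.Defs

/-!
FKM-26: some component can be swept (never stuck).

Plan. `Good`: quadratic in l with coefficient (k-δ)/(2πp). If m i0 ≥ 1: at l = 2π, p ≤ 1, the value is at least
2π((k-δ) - k + δ) = 0 and the derivative 2(k-δ) - k = k - 2δ ≥ 0. Otherwise m i0 = -q, q ≥ 1 odd, and
∑_{i ≠ i0} (m i + 1) = 1 + q. For i ≠ i0 with m i ≥ 1 the quadratic with max (p i) (1/2) is nonnegative for all l
if max (p i) (1/2) ≤ 4 m i δ(k-δ)/k^2 (discriminant); note 4δ(k-δ)/k^2 ≥ 1/2 because δ ≥ k/4 and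
k - δ ≥ k/2. So if all these fail, p i > 4 m i δ(k-δ)/k^2 for all i ≠ i0 with m i ≥ 1. Odd m i: m i + 1 ≤ 0 if
not m i ≥ 1, and m i ≥ (m i + 1)/2 if m i ≥ 1, so the sum of these p i is > 2(1+q)δ(k-δ)/k^2 ≥ (1+q)δ/(k+qδ)
(as 2(k-δ)(k+qδ) ≥ k^2), hence p i0 < (k-δ)/(k+qδ). Then for l ≥ 2π: value at 2π is
2π((k-δ)/p - k - qδ) ≥ 0, derivative at 2π 2(k-δ)/p - k ≥ 0.
-/

set_option autoImplicit false

open Complex MeasureTheory Set Metric Filter
open scoped ComplexConjugate Topology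

namespace Pool.Agent.FKM

/-- the part with share `p` and index `m` can be swept -/
def Good (k δ p : ℝ) (m : ℤ) (l0 : ℝ) : Prop :=
  ∀ l, l0 ≤ l → 0 ≤ (k - δ) / (2 * Real.pi * p) * l ^ 2 - k * l + 2 * Real.pi * m * δ

private theorem good_aux {k δ p : ℝ} {m : ℤ} (hp : 0 < p) (h0 : 0 ≤ k - δ)
    (h1 : k - m * δ ≤ (k - δ) / p) (h2 : k ≤ 2 * ((k - δ) / p)) :
    Good k δ p m (2 * Real.pi) := by
  intro l hl
  have hpi := Real.pi_pos
  obtain ⟨s, hs, rfl⟩ : ∃ s, 0 ≤ s ∧ l = 2 * Real.pi + s := ⟨l - 2 * Real.pi, by linarith, by ring⟩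
  have key : (k - δ) / (2 * Real.pi * p) * (2 * Real.pi + s) ^ 2 - k * (2 * Real.pi + s)
      + 2 * Real.pi * m * δ = 2 * Real.pi * ((k - δ) / p - (k - m * δ))
      + s * (2 * ((k - δ) / p) - k) + (k - δ) * s ^ 2 / (2 * Real.pi * p) := by
    field_simp
    ring
  rw [key]
  have e1 : 0 ≤ 2 * Real.pi * ((k - δ) / p - (k - m * δ)) :=
    mul_nonneg (by positivity) (by linarith)
  have e2 : 0 ≤ s * (2 * ((k - δ) / p) - k) := mul_nonneg hs (by linarith)
  have e3 : 0 ≤ (k - δ) * s ^ 2 / (2 * Real.pi * p) := by positivity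
  linarith

private theorem good_disc {k δ P : ℝ} {m : ℤ} (hP : 0 < P) (h0 : 0 < k - δ)
    (h : P * k ^ 2 ≤ 4 * m * δ * (k - δ)) (l0 : ℝ) : Good k δ P m l0 := by
  intro l _
  have hpi := Real.pi_pos
  have key : (k - δ) / (2 * Real.pi * P) * l ^ 2 - k * l + 2 * Real.pi * m * δ
      = ((2 * (k - δ) * l - 2 * Real.pi * P * k) ^ 2
        + 4 * Real.pi ^ 2 * P * (4 * m * δ * (k - δ) - P * k ^ 2))
        / (8 * Real.pi * P * (k - δ)) := by
    field_simp
    ring
  rw [key]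
  have e1 : 0 ≤ 4 * m * δ * (k - δ) - P * k ^ 2 := by linarith
  positivity

theorem select {ι : Type*} [Fintype ι] [DecidableEq ι] (i0 : ι) (m : ι → ℤ)
    (hodd : ∀ i, Odd (m i)) (hsum : ∑ i, m i = 2 - (Fintype.card ι : ℤ)) (p : ι → ℝ)
    (hp : ∀ i, 0 ≤ p i) (hp0 : 0 < p i0) (hp1 : ∑ i, p i = 1) {k δ : ℝ} (hδ : 0 < δ)
    (hk : 2 * δ ≤ k) (hk4 : k ≤ 4 * δ) :
    Good k δ (p i0) (m i0) (2 * Real.pi) ∨
      ∃ i, i ≠ i0 ∧ Good k δ (max (p i) (1 / 2)) (m i) 0 := by
  have hk0 : 0 < k := by linarith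
  have hkd : k / 2 ≤ k - δ := by linarith
  have hkd0 : 0 < k - δ := by linarith
  have hp01 : p i0 ≤ 1 := by
    rw [← hp1]
    exact Finset.single_le_sum (fun i _ => hp i) (Finset.mem_univ i0)
  have hdiv : k - δ ≤ (k - δ) / p i0 := by
    rw [le_div_iff₀ hp0]
    nlinarith
  by_cases h1 : 1 ≤ m i0
  · left
    have h1' : (1 : ℝ) ≤ m i0 := by exact_mod_cast h1
    refine good_aux hp0 hkd0.le ?_ ?_
    · nlinarith
    · linarith
  by_cases hex : ∃ i, i ≠ i0 ∧ Good k δ (max (p i) (1 / 2)) (m i) 0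
  · exact Or.inr hex
  left
  push Not at hex
  set c : ℝ := 2 * δ * (k - δ) / k ^ 2 with hc
  have hc0 : 0 < c := by positivity
  -- lower bound for the other shares
  have hlow : ∀ i, i ≠ i0 → c * ((m i : ℝ) + 1) ≤ p i := by
    intro i hi
    by_cases hm : 1 ≤ m i
    · have hm' : (1 : ℝ) ≤ m i := by exact_mod_cast hm
      by_contra hcon
      push Not at hcon
      apply hex i hi
      have hP : 0 < max (p i) (1 / 2) := lt_max_of_lt_right (by norm_num)
      refine good_disc hP hkd0 ?_ 0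
      have hk2 : 0 < k ^ 2 := by positivity
      rw [← le_div_iff₀ hk2]
      refine max_le ?_ ?_
      · have h3 : c * ((m i : ℝ) + 1) ≤ 4 * m i * δ * (k - δ) / k ^ 2 := by
          rw [hc, div_mul_eq_mul_div]
          refine div_le_div_of_nonneg_right ?_ hk2.le
          have : 0 ≤ δ * (k - δ) := by positivity
          nlinarith
        linarith
      · rw [le_div_iff₀ hk2]
        have h4 : k ^ 2 ≤ 8 * (δ * (k - δ)) := by nlinarith
        have h5 : δ * (k - δ) ≤ m i * (δ * (k - δ)) := by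
          have : 0 ≤ δ * (k - δ) := by positivity
          nlinarith
        nlinarith
    · have hm2 : m i + 1 ≤ 0 := by
        obtain ⟨t, ht⟩ := hodd i
        omega
      have hm' : (m i : ℝ) + 1 ≤ 0 := by exact_mod_cast hm2
      exact (mul_nonpos_of_nonneg_of_nonpos hc0.le hm').trans (hp i)
  -- the sum over the other parts
  have hs1 : ∑ i ∈ Finset.univ.erase i0, p i = 1 - p i0 := by
    rw [← hp1, ← Finset.add_sum_erase _ _ (Finset.mem_univ i0)]
    ring
  have hs2 : ∑ i ∈ Finset.univ.erase i0, ((m i : ℝ) + 1) = 1 - m i0 := by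
    rw [Finset.sum_add_distrib]
    have h3 : ∑ i ∈ Finset.univ.erase i0, (m i : ℝ) = 2 - (Fintype.card ι : ℝ) - m i0 := by
      have h4 : ∑ i, (m i : ℝ) = 2 - (Fintype.card ι : ℝ) := by exact_mod_cast hsum
      rw [← h4, ← Finset.add_sum_erase _ _ (Finset.mem_univ i0)]
      ring
    have h4 : ((Finset.univ.erase i0).card : ℝ) = (Fintype.card ι : ℝ) - 1 := by
      rw [Finset.card_erase_of_mem (Finset.mem_univ i0), Finset.card_univ,
        Nat.cast_sub (Fintype.card_pos_iff.mpr ⟨i0⟩)]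
      simp
    rw [h3, Finset.sum_const, nsmul_eq_mul, h4]
    ring
  have hs3 : c * (1 - m i0) ≤ 1 - p i0 := by
    rw [← hs1, ← hs2, Finset.mul_sum]
    exact Finset.sum_le_sum fun i hi => hlow i (Finset.ne_of_mem_erase hi)
  -- `q = - m i0`
  set q : ℝ := -(m i0 : ℝ) with hq
  have hq0 : 0 ≤ q := by
    have : m i0 ≤ 0 := by omega
    have : (m i0 : ℝ) ≤ 0 := by exact_mod_cast this
    rw [hq]
    linarith
  have hkq : 0 < k + q * δ := by positivity
  have hkey : p i0 ≤ (k - δ) / (k + q * δ) := by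
    have h3 : δ / (k + q * δ) ≤ c := by
      rw [hc, div_le_div_iff₀ hkq (by positivity)]
      have h4 : k ^ 2 ≤ 2 * (k - δ) * (k + q * δ) := by
        have h5 : k * (k + q * δ) ≤ 2 * (k - δ) * (k + q * δ) :=
          mul_le_mul_of_nonneg_right (by linarith) hkq.le
        have h6 : 0 ≤ k * (q * δ) := by positivity
        nlinarith
      nlinarith [mul_le_mul_of_nonneg_left h4 hδ.le]
    have h4 : 1 - (1 + q) * (δ / (k + q * δ)) = (k - δ) / (k + q * δ) := by
      field_simp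
      ring
    rw [← h4]
    have h5 : (1 + q) * (δ / (k + q * δ)) ≤ (1 + q) * c :=
      mul_le_mul_of_nonneg_left h3 (by linarith)
    have h6 : c * (1 - m i0) = (1 + q) * c := by rw [hq]; ring
    linarith
  have hkey2 : k + q * δ ≤ (k - δ) / p i0 := by
    rw [le_div_iff₀ hp0]
    rw [le_div_iff₀ hkq] at hkey
    linarith
  refine good_aux hp0 hkd0.le ?_ ?_
  · have : k - m i0 * δ = k + q * δ := by rw [hq]; ring
    rw [this]
    exact hkey2
  · linarith

end Pool.Agent.FKM
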