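import Mathlib
import Pool.Agent.Helper13.FKM.BesA
import Pool.Agent.Helper13.FKM.Select

/-!
FKM-27: the sweeping inequality persists for a short time.

Plan. r' = rad A' ≤ r = rad A, 2 r'^2 ≥ r^2. k, δ at A; k', δ' at A'; η = B (1 - A'/A) with B from aF_lip:
|k-k'|, |δ-δ'| ≤ η ≤ B c1 ε. Put l = Lf / r'. If Mf > 0: Vf ≥ Lf^2/Mf, so
(k'-δ')/(2 π r') Vf (Mf + Mo) ≥ r' (k'-δ')/(2π) l^2 (Mf+Mo)/Mf and Mf/(Mf+Mo) ≤ p + c1 ε ≤ p (1 + c1 ε/c2)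
(p ≥ c2). So the bracket is at least r' ( (k-δ)/(2πp) l^2 - k l + 2π m δ - C(ε l^2 + ε l) - 2π|m| η ) and Good
applies (l ≥ l0). r' ε l^2 = ε Lf^2/r' ≤ ε Vf Mf/r' ≤ C ε Vf as Mf ≤ c1 r ≤ 2 c1 r'; r' ε l = ε Lf ≤ C ε Vf.
If Mf = 0 then Lf = 0 and l0 ≤ 0 (or l0 r' ≤ Lf = 0 forces l0 = 0), Good at l = 0 gives m ≥ 0 and the bracket
is (k'-δ')/(2πr') Vf Mo + 2π m a' ≥ 0. The constant C depends on E, X, c1, c2 only.
-/

set_option autoImplicit false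

open Complex MeasureTheory Set Metric Filter
open scoped ComplexConjugate Topology

namespace Pool.Agent.FKM

theorem bracket {E X : ℝ} (hX : FK.Profile X) (hE : 0 < E) {c1 c2 : ℝ} (hc1 : 1 ≤ c1)
    (hc2 : 0 < c2) :
    ∃ C : ℝ, 0 < C ∧ ∀ (A A' ε Lf Vf Mf Mo p l0 : ℝ) (m : ℤ),
      0 < A → E ^ 2 * A ≤ Real.pi * X ^ 2 → A / 2 ≤ A' → A' ≤ A → 0 < ε → ε ≤ 1 →
      1 - A' / A ≤ c1 * ε → 0 ≤ Lf → 0 ≤ Vf → 0 ≤ Mf → 0 ≤ Mo → Lf ^ 2 ≤ Vf * Mf →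
      Lf ≤ c1 * Vf → Mf ≤ c1 * rad A → c2 ≤ p → 0 ≤ l0 → l0 * rad A' ≤ Lf →
      Mf ≤ (p + c1 * ε) * (Mf + Mo) → Good (kF E A) (dF E A) p m l0 →
      -(C * (ε * Vf + |(m : ℝ)| * (1 - A' / A) * rad A)) ≤
        (kF E A' - dF E A') / (2 * Real.pi * rad A') * Vf * (Mf + Mo) - kF E A' * Lf
          + 2 * Real.pi * m * aF E A' := by
  obtain ⟨B, hB, hlip⟩ := aF_lip hX hE
  have hpi := Real.pi_pos
  have hc10 : 0 < c1 := by linarith
  set K1 : ℝ := 2 * B * c1 / c2 + 2 * E ^ 2 * c1 / c2 ^ 2 with hK1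
  have hK10 : 0 < K1 := by positivity
  refine ⟨2 * Real.pi * B + B * c1 ^ 2 + K1 * c1 / Real.pi, by positivity, ?_⟩
  intro A A' ε Lf Vf Mf Mo p l0 m hA hEA hA2 hAA hε hε1 hτ hLf hVf hMf hMo hLV hLfV hMfr hp hl0 hlL
    hMfp hgood
  have hA' : 0 < A' := by linarith
  have hEA' : E ^ 2 * A' ≤ Real.pi * X ^ 2 :=
    (mul_le_mul_of_nonneg_left hAA (by positivity)).trans hEA
  obtain ⟨hr, hrA⟩ := rad_pos hA
  obtain ⟨hr', hrA'⟩ := rad_pos hA'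
  obtain ⟨-, -, h2δ, -, -, -, -⟩ := aF_bounds hX hE hA hEA
  obtain ⟨-, -, h2δ', hδ'1, hδ'2, hk'1, hk'2⟩ := aF_bounds hX hE hA' hEA'
  obtain ⟨hk, hδ⟩ := hlip A A' hA hEA hA2 hAA
  have ha' : aF E A' = dF E A' * rad A' := by
    unfold dF
    field_simp
  set r := rad A with hrdef
  set r' := rad A' with hrdef'
  set k := kF E A with hkdef
  set k' := kF E A' with hkdef'
  set δ := dF E A with hδdef
  set δ' := dF E A' with hδdef'
  set τ := 1 - A' / A with hτdef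
  have hτ0 : 0 ≤ τ := by
    rw [hτdef, sub_nonneg, div_le_one hA]
    exact hAA
  have hrr : r' ≤ r := by
    by_contra hcon
    push Not at hcon
    have h1 : r ^ 2 < r' ^ 2 := pow_lt_pow_left₀ hcon hr.le two_ne_zero
    have h2 := mul_lt_mul_of_pos_left h1 hpi
    linarith
  have hrr2 : r ≤ 2 * r' := by
    by_contra hcon
    push Not at hcon
    have h1 : (2 * r') ^ 2 < r ^ 2 := pow_lt_pow_left₀ hcon (by positivity) two_ne_zero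
    have h2 := mul_lt_mul_of_pos_left h1 hpi
    have h3 : Real.pi * (2 * r') ^ 2 = 4 * A' := by rw [← hrA']; ring
    linarith
  have hp0 : 0 < p := by linarith
  have hl : l0 ≤ Lf / r' := by
    rw [le_div_iff₀ hr']
    exact hlL
  have hG := hgood (Lf / r') hl
  have hG' : 0 ≤ (k - δ) / (2 * Real.pi * p) * (Lf ^ 2 / r') - k * Lf + 2 * Real.pi * m * δ * r' := by
    have h1 := mul_nonneg hG hr'.le
    have h2 : ((k - δ) / (2 * Real.pi * p) * (Lf / r') ^ 2 - k * (Lf / r') + 2 * Real.pi * m * δ) * r'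
        = (k - δ) / (2 * Real.pi * p) * (Lf ^ 2 / r') - k * Lf + 2 * Real.pi * m * δ * r' := by
      field_simp
    rw [← h2]
    exact h1
  obtain ⟨hk1, hk2⟩ := abs_le.1 hk
  obtain ⟨hd1, hd2⟩ := abs_le.1 hδ
  have hLr : Lf ^ 2 / r' ≤ 2 * c1 * Vf := by
    rw [div_le_iff₀ hr']
    calc Lf ^ 2 ≤ Vf * Mf := hLV
      _ ≤ Vf * (c1 * r) := mul_le_mul_of_nonneg_left hMfr hVf
      _ ≤ Vf * (c1 * (2 * r')) := by gcongr
      _ = 2 * c1 * Vf * r' := by ring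
  -- the main term
  have hS : Lf ^ 2 / p - c1 * ε * Lf ^ 2 / p ^ 2 ≤ Vf * (Mf + Mo) := by
    have h1 : Lf ^ 2 ≤ Vf * (Mf + Mo) * (p + c1 * ε) := by
      calc Lf ^ 2 ≤ Vf * Mf := hLV
        _ ≤ Vf * ((p + c1 * ε) * (Mf + Mo)) := mul_le_mul_of_nonneg_left hMfp hVf
        _ = Vf * (Mf + Mo) * (p + c1 * ε) := by ring
    have h2 : 0 < p + c1 * ε := by positivity
    have h3 : Lf ^ 2 / (p + c1 * ε) ≤ Vf * (Mf + Mo) := by
      rw [div_le_iff₀ h2]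
      exact h1
    refine le_trans ?_ h3
    have h4 : Lf ^ 2 / (p + c1 * ε) - (Lf ^ 2 / p - c1 * ε * Lf ^ 2 / p ^ 2)
        = Lf ^ 2 * (c1 * ε) ^ 2 / (p ^ 2 * (p + c1 * ε)) := by
      field_simp
      ring
    have h5 : 0 ≤ Lf ^ 2 * (c1 * ε) ^ 2 / (p ^ 2 * (p + c1 * ε)) := by positivity
    linarith
  have hE2 : 0 ≤ E ^ 2 := sq_nonneg E
  have hkd' : 0 ≤ k' - δ' := by linarith
  have hkd2 : k' - δ' ≤ 2 * E ^ 2 := by linarith
  have hmain : (k - δ) * (Lf ^ 2 / p) - K1 * ε * Lf ^ 2 ≤ (k' - δ') * (Vf * (Mf + Mo)) := by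
    have h1 : (k' - δ') * (Lf ^ 2 / p - c1 * ε * Lf ^ 2 / p ^ 2) ≤ (k' - δ') * (Vf * (Mf + Mo)) :=
      mul_le_mul_of_nonneg_left hS hkd'
    have h2 : (k - δ) - (k' - δ') ≤ 2 * B * (c1 * ε) := by
      have : B * τ ≤ B * (c1 * ε) := mul_le_mul_of_nonneg_left hτ hB.le
      linarith
    have h3 : ((k - δ) - (k' - δ')) * (Lf ^ 2 / p) ≤ 2 * B * (c1 * ε) * (Lf ^ 2 / c2) := by
      calc ((k - δ) - (k' - δ')) * (Lf ^ 2 / p) ≤ 2 * B * (c1 * ε) * (Lf ^ 2 / p) :=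
            mul_le_mul_of_nonneg_right h2 (by positivity)
        _ ≤ 2 * B * (c1 * ε) * (Lf ^ 2 / c2) := by gcongr
    have h4 : (k' - δ') * (c1 * ε * Lf ^ 2 / p ^ 2) ≤ 2 * E ^ 2 * (c1 * ε * Lf ^ 2 / c2 ^ 2) := by
      gcongr
    have h5 : K1 * ε * Lf ^ 2 = 2 * B * (c1 * ε) * (Lf ^ 2 / c2)
        + 2 * E ^ 2 * (c1 * ε * Lf ^ 2 / c2 ^ 2) := by
      rw [hK1]
      field_simp
    rw [h5]
    linarith
  have hmain2 : (k - δ) / (2 * Real.pi * p) * (Lf ^ 2 / r') - K1 * c1 / Real.pi * (ε * Vf)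
      ≤ (k' - δ') / (2 * Real.pi * r') * Vf * (Mf + Mo) := by
    have h1 : (k - δ) / (2 * Real.pi * p) * (Lf ^ 2 / r') - K1 * ε / (2 * Real.pi) * (Lf ^ 2 / r')
        ≤ (k' - δ') / (2 * Real.pi * r') * Vf * (Mf + Mo) := by
      have e1 : (k - δ) / (2 * Real.pi * p) * (Lf ^ 2 / r') - K1 * ε / (2 * Real.pi) * (Lf ^ 2 / r')
          = ((k - δ) * (Lf ^ 2 / p) - K1 * ε * Lf ^ 2) / (2 * Real.pi * r') := by
        field_simp
      have e2 : (k' - δ') / (2 * Real.pi * r') * Vf * (Mf + Mo)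
          = ((k' - δ') * (Vf * (Mf + Mo))) / (2 * Real.pi * r') := by
        field_simp
      rw [e1, e2]
      exact div_le_div_of_nonneg_right hmain (by positivity)
    have h2 : K1 * ε / (2 * Real.pi) * (Lf ^ 2 / r') ≤ K1 * c1 / Real.pi * (ε * Vf) := by
      calc K1 * ε / (2 * Real.pi) * (Lf ^ 2 / r') ≤ K1 * ε / (2 * Real.pi) * (2 * c1 * Vf) :=
            mul_le_mul_of_nonneg_left hLr (by positivity)
        _ = K1 * c1 / Real.pi * (ε * Vf) := by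
          field_simp
    linarith
  have h2nd : k' * Lf ≤ k * Lf + B * c1 ^ 2 * (ε * Vf) := by
    have h1 : (k' - k) * Lf ≤ B * (c1 * ε) * (c1 * Vf) := by
      calc (k' - k) * Lf ≤ B * τ * Lf := mul_le_mul_of_nonneg_right (by linarith) hLf
        _ ≤ B * (c1 * ε) * (c1 * Vf) := by gcongr
    have h2 : B * (c1 * ε) * (c1 * Vf) = B * c1 ^ 2 * (ε * Vf) := by ring
    rw [h2] at h1
    linarith
  have h3rd : 2 * Real.pi * m * δ * r' - 2 * Real.pi * B * (|(m : ℝ)| * τ * r)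
      ≤ 2 * Real.pi * m * aF E A' := by
    rw [ha']
    have h1 : (m : ℝ) * (δ - δ') ≤ |(m : ℝ)| * (B * τ) := by
      calc (m : ℝ) * (δ - δ') ≤ |(m : ℝ) * (δ - δ')| := le_abs_self _
        _ = |(m : ℝ)| * |δ - δ'| := abs_mul _ _
        _ ≤ |(m : ℝ)| * (B * τ) := mul_le_mul_of_nonneg_left hδ (abs_nonneg _)
    have h2 : (m : ℝ) * (δ - δ') * r' ≤ |(m : ℝ)| * (B * τ) * r := by
      calc (m : ℝ) * (δ - δ') * r' ≤ |(m : ℝ)| * (B * τ) * r' :=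
            mul_le_mul_of_nonneg_right h1 hr'.le
        _ ≤ |(m : ℝ)| * (B * τ) * r := by gcongr
    have h3 := mul_le_mul_of_nonneg_left h2 (by positivity : 0 ≤ 2 * Real.pi)
    linarith
  have e0 : 0 ≤ ε * Vf := by positivity
  have e1 : 0 ≤ |(m : ℝ)| * τ * r := by positivity
  have hexp : (2 * Real.pi * B + B * c1 ^ 2 + K1 * c1 / Real.pi) * (ε * Vf + |(m : ℝ)| * τ * r)
      = 2 * Real.pi * B * (ε * Vf) + B * c1 ^ 2 * (ε * Vf) + K1 * c1 / Real.pi * (ε * Vf)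
        + (2 * Real.pi * B * (|(m : ℝ)| * τ * r) + B * c1 ^ 2 * (|(m : ℝ)| * τ * r)
          + K1 * c1 / Real.pi * (|(m : ℝ)| * τ * r)) := by ring
  rw [hexp]
  have f1 : 0 ≤ 2 * Real.pi * B * (ε * Vf) := by positivity
  have f2 : 0 ≤ B * c1 ^ 2 * (|(m : ℝ)| * τ * r) := by positivity
  have f3 : 0 ≤ K1 * c1 / Real.pi * (|(m : ℝ)| * τ * r) := by positivity
  linarith

end Pool.Agent.FKM
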