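import Mathlib
import Pool.Agent.Helper13.FKM.Defs

/-!
FKM: tops and merging corners of a finite family of discs in the direction `exp (θ I)`
-/

set_option autoImplicit false

open Complex MeasureTheory Set Metric Filter
open scoped ComplexConjugate Topology

namespace Pool.Agent.FKM

noncomputable section

/-- the highest point of the disc `b` in the direction `θ` -/
def top1 (θ : ℝ) (b : ℂ × ℝ) : ℂ := circleMap b.1 b.2 θ

open scoped Classical in
/-- discs whose highest point is in no other disc and satisfies `O` -/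
def tops (N : Finset (ℂ × ℝ)) (O : ℂ → Prop) (θ : ℝ) : Finset (ℂ × ℝ) :=
  N.filter (fun b => O (top1 θ b) ∧ ∀ b' ∈ N, b' ≠ b → b'.2 < dist (top1 θ b) b'.1)

/-- `x` is the highest point of the intersection of the discs `b, b'`, their highest points are not in
the intersection, `x` is in no other open disc and satisfies `O` -/
def IsMrg (N : Finset (ℂ × ℝ)) (O : ℂ → Prop) (θ : ℝ) (b b' : ℂ × ℝ) (x : ℂ) : Prop :=
  b'.2 < dist (top1 θ b) b'.1 ∧ b.2 < dist (top1 θ b') b.1 ∧ dist x b.1 = b.2 ∧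
  dist x b'.1 = b'.2 ∧
  (∀ y, dist y b.1 ≤ b.2 → dist y b'.1 ≤ b'.2 → ip (exp (θ * I)) y ≤ ip (exp (θ * I)) x) ∧
  O x ∧ ∀ l ∈ N, l.2 ≤ dist x l.1

open scoped Classical in
/-- ordered pairs of distinct discs with a merging corner -/
def mrg (N : Finset (ℂ × ℝ)) (O : ℂ → Prop) (θ : ℝ) : Finset ((ℂ × ℝ) × (ℂ × ℝ)) :=
  (N ×ˢ N).filter (fun c => c.1 ≠ c.2 ∧ ∃ x, IsMrg N O θ c.1 c.2 x)

/-- no highest point of a disc is on another circle -/
def GenDir (N : Finset (ℂ × ℝ)) (θ : ℝ) : Prop :=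
  ∀ b ∈ N, ∀ b' ∈ N, b ≠ b' → dist (top1 θ b) b'.1 ≠ b'.2

end

end Pool.Agent.FKM
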