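import Mathlib
import Pool.Agent.Helper13.FKM.Defs

/-!
FKM-16: intersection graph of a finite closed cover of a connected set.

Plan. Let A1 be the union of the sets C a ∩ A with a reachable from i, A2 the union of the others. Both are
relatively closed in A, they cover A, and if they met, some reachable a and non-reachable b would have a
common point in A. As A is preconnected and A1 is nonempty, A2 is empty.
-/

set_option autoImplicit false

open Complex MeasureTheory Set Metric Filter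
open scoped ComplexConjugate Topology

namespace Pool.Agent.FKM

theorem cover_conn {ι X : Type*} [Finite ι] [TopologicalSpace X] {C : ι → Set X}
    (hC : ∀ i, IsClosed (C i)) {A : Set X} (hA : IsPreconnected A) (hcov : A ⊆ ⋃ i, C i)
    {i j : ι} (hi : (C i ∩ A).Nonempty) (hj : (C j ∩ A).Nonempty) :
    Relation.ReflTransGen (fun a b => (C a ∩ C b ∩ A).Nonempty) i j := by
  classical
  by_contra hij
  set R : Set ι := {a | Relation.ReflTransGen (fun a b => (C a ∩ C b ∩ A).Nonempty) i a} with hR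
  have h1 : IsClosed (⋃ a ∈ R, C a) := (Set.toFinite R).isClosed_biUnion fun a _ => hC a
  have h2 : IsClosed (⋃ a ∈ Rᶜ, C a) := (Set.toFinite Rᶜ).isClosed_biUnion fun a _ => hC a
  have hcov' : A ⊆ (⋃ a ∈ R, C a) ∪ ⋃ a ∈ Rᶜ, C a := by
    intro x hx
    obtain ⟨a, ha⟩ := Set.mem_iUnion.1 (hcov hx)
    by_cases haR : a ∈ R
    · exact Or.inl (Set.mem_biUnion haR ha)
    · exact Or.inr (Set.mem_biUnion haR ha)
  obtain ⟨x, hxi, hxA⟩ := hi
  obtain ⟨y, hyj, hyA⟩ := hj
  obtain ⟨z, hzA, hz1, hz2⟩ := isPreconnected_closed_iff.1 hA _ _ h1 h2 hcov'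
    ⟨x, hxA, Set.mem_biUnion (show i ∈ R from Relation.ReflTransGen.refl) hxi⟩
    ⟨y, hyA, Set.mem_biUnion (show j ∈ Rᶜ from hij) hyj⟩
  obtain ⟨a, haR, hza⟩ := Set.mem_iUnion₂.1 hz1
  obtain ⟨b, hbR, hzb⟩ := Set.mem_iUnion₂.1 hz2
  exact hbR (Relation.ReflTransGen.tail haR ⟨z, ⟨hza, hzb⟩, hzA⟩)

end Pool.Agent.FKM
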