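import Mathlib
import Pool.Agent.Helper13.FKM.Defs

/-!
FKM-15: maximal spanning tree.

Plan. Let E be the finite set of edges {s(a,b) | a ≠ b, adj a b}. For T ⊆ E and s : ℝ let T_{≥ s} be the edges
of weight ≥ s. Choose T ⊆ E of minimal cardinality such that for all s, x, y: x ~ y in E_{≥ s} implies
x ~ y in T_{≥ s} (E itself has this property). T connects V, so |V| ≤ |T| + 1
(SimpleGraph.Connected.card_vert_le_card_edgeSet_add_one). If e = s(a,b) ∈ T and a ~ b through edges of
weight > w a b, then also through edges of T of weight ≥ s' for some s' > w a b (finitely many weights), so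
e can be removed from T: contradiction with minimality. The same argument for the third property: if
b ~ c in E_{> w} then b ~ c in T_{> w} and s(a,c) can be replaced by s(a,b) followed by that path.
-/

set_option autoImplicit false

open Complex MeasureTheory Set Metric Filter
open scoped ComplexConjugate Topology

namespace Pool.Agent.FKM

/-- edges of `T` connect the ends of each edge of the graph through edges of at least its weight -/
private def PP {V : Type*} (adj : V → V → Prop) (w : V → V → ℝ) (T : Finset (Sym2 V)) : Prop :=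
  (∀ a b, s(a, b) ∈ T → a ≠ b ∧ adj a b) ∧
  ∀ x y, adj x y → Relation.ReflTransGen (fun u v => s(u, v) ∈ T ∧ w x y ≤ w u v) x y

private theorem w_eq {V : Type*} {w : V → V → ℝ} (hw : ∀ a b, w a b = w b a) {a b u v : V}
    (h : s(u, v) = s(a, b)) : w u v = w a b := by
  rcases Sym2.eq_iff.1 h with ⟨rfl, rfl⟩ | ⟨rfl, rfl⟩
  · rfl
  · exact hw _ _

private theorem PP_erase {V : Type*} [DecidableEq V] {adj : V → V → Prop} {w : V → V → ℝ}
    (hw : ∀ a b, w a b = w b a) {T : Finset (Sym2 V)} (hT : PP adj w T) {a b : V}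
    (h : Relation.ReflTransGen (fun u v => s(u, v) ∈ T.erase s(a, b) ∧ w a b ≤ w u v) a b) :
    PP adj w (T.erase s(a, b)) := by
  refine ⟨fun u v huv => hT.1 u v (Finset.mem_of_mem_erase huv), fun x y hxy => ?_⟩
  refine Relation.reflTransGen_closed ?_ _ _ (hT.2 x y hxy)
  rintro u v ⟨huv, hwuv⟩
  by_cases he : s(u, v) = s(a, b)
  · have hwe := w_eq hw he
    have h1 : Relation.ReflTransGen
        (fun u v => s(u, v) ∈ T.erase s(a, b) ∧ w x y ≤ w u v) a b := by
      refine Relation.ReflTransGen.mono ?_ _ _ h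
      rintro u' v' ⟨h2, h3⟩
      exact ⟨h2, by linarith⟩
    rcases Sym2.eq_iff.1 he with ⟨rfl, rfl⟩ | ⟨rfl, rfl⟩
    · exact h1
    · rw [← Relation.reflTransGen_swap]
      refine Relation.ReflTransGen.mono ?_ _ _ h1
      rintro u' v' ⟨h2, h3⟩
      refine ⟨?_, ?_⟩
      · rw [show s(v', u') = s(u', v') from Sym2.eq_swap]
        exact h2
      · rw [hw v' u']
        exact h3
  · exact Relation.ReflTransGen.single ⟨Finset.mem_erase.2 ⟨he, huv⟩, hwuv⟩

private theorem PP_path {V : Type*} [DecidableEq V] {adj : V → V → Prop} {w : V → V → ℝ}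
    {T : Finset (Sym2 V)} (hT : PP adj w T) {c : ℝ} {a b : V}
    (h : Relation.ReflTransGen (fun x y => adj x y ∧ c < w x y) a b) :
    Relation.ReflTransGen (fun u v => s(u, v) ∈ T ∧ c < w u v) a b := by
  refine Relation.reflTransGen_closed ?_ _ _ h
  rintro u v ⟨huv, hwuv⟩
  refine Relation.ReflTransGen.mono ?_ _ _ (hT.2 u v huv)
  rintro u' v' ⟨h2, h3⟩
  exact ⟨h2, by linarith⟩

theorem kruskal {V : Type*} [Fintype V] [DecidableEq V] [Nonempty V] (adj : V → V → Prop)
    (hs : ∀ a b, adj a b → adj b a) (w : V → V → ℝ) (hw : ∀ a b, w a b = w b a)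
    (hc : ∀ a b, Relation.ReflTransGen adj a b) :
    ∃ T : Finset (Sym2 V), Fintype.card V ≤ T.card + 1 ∧
      (∀ a b, s(a, b) ∈ T → a ≠ b ∧ adj a b ∧
        ¬ Relation.ReflTransGen (fun x y => adj x y ∧ w a b < w x y) a b) ∧
      (∀ a b c, s(a, b) ∈ T → s(a, c) ∈ T → b ≠ c → w a b = w a c →
        ¬ Relation.ReflTransGen (fun x y => adj x y ∧ w a b < w x y) b c) := by
  classical
  have hE : ∃ n, ∃ T : Finset (Sym2 V), PP adj w T ∧ T.card = n := by
    refine ⟨_, Finset.univ.filter (fun e => ∃ a b, e = s(a, b) ∧ a ≠ b ∧ adj a b), ?_, rfl⟩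
    refine ⟨?_, ?_⟩
    · intro a b hab
      rw [Finset.mem_filter] at hab
      obtain ⟨-, a', b', he, hne, had⟩ := hab
      rcases Sym2.eq_iff.1 he with ⟨rfl, rfl⟩ | ⟨rfl, rfl⟩
      · exact ⟨hne, had⟩
      · exact ⟨hne.symm, hs _ _ had⟩
    · intro x y hxy
      by_cases hne : x = y
      · subst hne
        exact Relation.ReflTransGen.refl
      · refine Relation.ReflTransGen.single ⟨?_, le_rfl⟩
        rw [Finset.mem_filter]
        exact ⟨Finset.mem_univ _, x, y, rfl, hne, hxy⟩
  obtain ⟨T, hT, hTn⟩ := Nat.find_spec hE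
  have hmin : ∀ e ∈ T, ¬ PP adj w (T.erase e) := by
    intro e he hP
    have h1 := Nat.find_min' hE ⟨T.erase e, hP, rfl⟩
    have h2 := Finset.card_erase_lt_of_mem he
    omega
  refine ⟨T, ?_, ?_, ?_⟩
  · have hconn : (SimpleGraph.fromEdgeSet (T : Set (Sym2 V))).Connected := by
      rw [SimpleGraph.connected_iff]
      refine ⟨fun x y => ?_, inferInstance⟩
      rw [SimpleGraph.reachable_iff_reflTransGen]
      refine Relation.reflTransGen_closed ?_ _ _ (hc x y)
      intro u v huv
      refine Relation.ReflTransGen.mono ?_ _ _ (hT.2 u v huv)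
      rintro u' v' ⟨h2, -⟩
      rw [SimpleGraph.fromEdgeSet_adj]
      exact ⟨h2, (hT.1 u' v' h2).1⟩
    have h1 := hconn.card_vert_le_card_edgeSet_add_one
    rw [Nat.card_eq_fintype_card] at h1
    refine h1.trans (Nat.add_le_add_right ?_ 1)
    rw [Nat.card_coe_set_eq, ← Set.ncard_coe_finset T]
    refine Set.ncard_le_ncard ?_ T.finite_toSet
    rw [SimpleGraph.edgeSet_fromEdgeSet]
    exact Set.sdiff_subset
  · intro a b hab
    refine ⟨(hT.1 a b hab).1, (hT.1 a b hab).2, fun h => hmin _ hab (PP_erase hw hT ?_)⟩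
    refine Relation.ReflTransGen.mono ?_ _ _ (PP_path hT h)
    rintro u v ⟨h2, h3⟩
    refine ⟨Finset.mem_erase.2 ⟨fun he => ?_, h2⟩, h3.le⟩
    rw [w_eq hw he] at h3
    exact lt_irrefl _ h3
  · intro a b c hab hac hbc hwe h
    refine hmin _ hac (PP_erase hw hT ?_)
    have h1 : Relation.ReflTransGen
        (fun u v => s(u, v) ∈ T.erase s(a, c) ∧ w a c ≤ w u v) b c := by
      refine Relation.ReflTransGen.mono ?_ _ _ (PP_path hT h)
      rintro u v ⟨h2, h3⟩
      rw [hwe] at h3
      refine ⟨Finset.mem_erase.2 ⟨fun he => ?_, h2⟩, h3.le⟩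
      rw [w_eq hw he] at h3
      exact lt_irrefl _ h3
    refine Relation.ReflTransGen.head ⟨Finset.mem_erase.2 ⟨fun he => ?_, hab⟩, hwe.ge⟩ h1
    rcases Sym2.eq_iff.1 he with ⟨-, h4⟩ | ⟨h3, h4⟩
    · exact hbc h4
    · exact hbc (h4.trans h3)

end Pool.Agent.FKM
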