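import Mathlib
import Pool.Agent.Helper13.FKM.CntDefs
import Pool.Agent.Helper13.FKM.Basic

/-!
FKM-18: highest points of lenses.

Plan. e = exp (θ I), height ip e. The unique highest point of a closed disc b is top1 θ b, and on the segment
from x ∈ closedBall b to top1 θ b the height strictly increases if x ≠ top1 θ b. lens_max: compactness; if
the maximum x were in the open ball b', moving from x towards top1 θ b inside b would increase the height
(x ≠ top1 θ b because top1 θ b ∉ b'); so x is on the circle b', and by symmetry on the circle b.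
lift1: move from x towards top1 θ b. lift2: move from the point in the direction e. ext_up: a point with
‖x‖ ≥ R has arbitrarily close points of {R ≤ ‖·‖} which are higher: x + s e if ip e x ≥ 0; otherwise rotate x
about 0 towards e (write x = |x| exp (φ I), the height is |x| cos (φ - θ)).
-/

set_option autoImplicit false

open Complex MeasureTheory Set Metric Filter
open scoped ComplexConjugate Topology

namespace Pool.Agent.FKM

private theorem ip_add' (e a b : ℂ) : ip e (a + b) = ip e a + ip e b := by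
  simp [ip, mul_add]

private theorem ip_smul' (e a : ℂ) (s : ℝ) : ip e (s * a) = s * ip e a := by
  simp only [ip, mul_re, mul_im, ofReal_re, ofReal_im, conj_re, conj_im]
  ring

private theorem ip_exp_self (θ : ℝ) : ip (exp (θ * I)) (exp (θ * I)) = 1 := by
  have h : ‖exp (θ * I)‖ = 1 := norm_exp_ofReal_mul_I θ
  rw [ip, ← normSq_eq_conj_mul_self, ofReal_re, normSq_eq_norm_sq, h]
  norm_num

private theorem normSq_sub_smul (w : ℂ) (s θ : ℝ) :
    ‖w - s * exp (θ * I)‖ ^ 2 = ‖w‖ ^ 2 - 2 * s * ip (exp (θ * I)) w + s ^ 2 := by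
  have h1 := ip_exp_self θ
  simp only [ip, mul_re, conj_re, conj_im] at h1
  rw [← normSq_eq_norm_sq, ← normSq_eq_norm_sq]
  simp only [ip, normSq_apply, sub_re, sub_im, mul_re, mul_im, ofReal_re, ofReal_im, conj_re,
    conj_im]
  linear_combination s ^ 2 * h1

private theorem ip_le_norm (w : ℂ) (θ : ℝ) : ip (exp (θ * I)) w ≤ ‖w‖ := by
  have h : ‖exp (θ * I)‖ = 1 := norm_exp_ofReal_mul_I θ
  calc ip (exp (θ * I)) w ≤ ‖conj (exp (θ * I)) * w‖ := re_le_norm _
    _ = ‖w‖ := by rw [norm_mul, RCLike.norm_conj, h, one_mul]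

private theorem ip_top (θ : ℝ) (b : ℂ × ℝ) :
    ip (exp (θ * I)) (top1 θ b) = ip (exp (θ * I)) b.1 + b.2 := by
  rw [top1, circleMap, ip_add', ip_smul', ip_exp_self, mul_one]

theorem ip_le_top {b : ℂ × ℝ} (hb : 0 < b.2) {θ : ℝ} {y : ℂ} (hy : dist y b.1 ≤ b.2) :
    ip (exp (θ * I)) y ≤ ip (exp (θ * I)) (top1 θ b) ∧
      (ip (exp (θ * I)) y = ip (exp (θ * I)) (top1 θ b) → y = top1 θ b) := by
  rw [dist_eq_norm] at hy
  have hsplit : ip (exp (θ * I)) y = ip (exp (θ * I)) b.1 + ip (exp (θ * I)) (y - b.1) := by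
    rw [← ip_add', add_sub_cancel]
  have h1 := ip_le_norm (y - b.1) θ
  rw [ip_top, hsplit]
  refine ⟨by linarith, fun h => ?_⟩
  have h2 : ip (exp (θ * I)) (y - b.1) = b.2 := by linarith
  have h3 := normSq_sub_smul (y - b.1) b.2 θ
  rw [h2] at h3
  have h4 : ‖y - b.1‖ = b.2 := le_antisymm hy (by linarith)
  rw [h4] at h3
  have h5 : ‖y - b.1 - b.2 * exp (θ * I)‖ ^ 2 = 0 := by rw [h3]; ring
  have h6 : y - b.1 - b.2 * exp (θ * I) = 0 := norm_eq_zero.1 (pow_eq_zero_iff two_ne_zero |>.1 h5)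
  rw [top1, circleMap]
  linear_combination h6

/-- from a point `x ≠ top` of the disc `b` one can move up inside `b` and inside an open set -/
theorem lift1 {b : ℂ × ℝ} (hb : 0 < b.2) {θ : ℝ} {x : ℂ} (hx : dist x b.1 ≤ b.2)
    (hne : x ≠ top1 θ b) {U : Set ℂ} (hU : IsOpen U) (hxU : x ∈ U) :
    ∃ y ∈ U, dist y b.1 ≤ b.2 ∧ ip (exp (θ * I)) x < ip (exp (θ * I)) y := by
  have hlt : ip (exp (θ * I)) x < ip (exp (θ * I)) (top1 θ b) :=
    lt_of_le_of_ne (ip_le_top hb hx).1 fun h => hne ((ip_le_top hb hx).2 h)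
  have htop : top1 θ b ∈ closedBall b.1 b.2 := by
    rw [top1]
    exact circleMap_mem_closedBall b.1 hb.le θ
  have hc : Tendsto (fun s : ℝ => x + s * (top1 θ b - x)) (𝓝[>] 0) (𝓝 x) := by
    have h1 : Continuous fun s : ℝ => x + (s : ℂ) * (top1 θ b - x) := by fun_prop
    have h2 := h1.tendsto 0
    simp only [ofReal_zero, zero_mul, add_zero] at h2
    exact h2.mono_left nhdsWithin_le_nhds
  have hev := hc.eventually (hU.mem_nhds hxU)
  have hev2 : ∀ᶠ s : ℝ in 𝓝[>] 0, s ∈ Ioo (0 : ℝ) 1 := Ioo_mem_nhdsGT one_pos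
  obtain ⟨s, hs, hs0, hs1⟩ := (hev.and hev2).exists
  refine ⟨_, hs, ?_, ?_⟩
  · have hconv := convex_closedBall (E := ℂ) b.1 b.2
    have h1 := hconv (mem_closedBall.2 hx) htop (sub_nonneg.2 hs1.le) hs0.le (by ring)
    have h2 : x + (s : ℂ) * (top1 θ b - x) = (1 - s) • x + s • top1 θ b := by
      rw [real_smul, real_smul]
      push_cast
      ring
    rw [h2]
    exact mem_closedBall.1 h1
  · have h1 : ip (exp (θ * I)) (top1 θ b - x) =
        ip (exp (θ * I)) (top1 θ b) - ip (exp (θ * I)) x := by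
      have := ip_add' (exp (θ * I)) (top1 θ b - x) x
      rw [sub_add_cancel] at this
      linarith
    rw [ip_add', ip_smul', h1]
    have := mul_pos hs0 (sub_pos.2 hlt)
    linarith

theorem lift2 {θ : ℝ} {x : ℂ} {U : Set ℂ} (hU : IsOpen U) (hxU : x ∈ U) :
    ∃ y ∈ U, ip (exp (θ * I)) x < ip (exp (θ * I)) y := by
  have hc : Tendsto (fun s : ℝ => x + s * exp (θ * I)) (𝓝[>] 0) (𝓝 x) := by
    have h1 : Continuous fun s : ℝ => x + (s : ℂ) * exp (θ * I) := by fun_prop
    have h2 := h1.tendsto 0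
    simp only [ofReal_zero, zero_mul, add_zero] at h2
    exact h2.mono_left nhdsWithin_le_nhds
  have hev := hc.eventually (hU.mem_nhds hxU)
  have hev2 : ∀ᶠ s : ℝ in 𝓝[>] 0, s ∈ Ioi (0 : ℝ) := self_mem_nhdsWithin
  obtain ⟨s, hs, hs0⟩ := (hev.and hev2).exists
  refine ⟨_, hs, ?_⟩
  rw [ip_add', ip_smul', ip_exp_self]
  have : (0 : ℝ) < s := hs0
  linarith

/-- two distinct discs with a common point, no highest point in the other one -/
theorem lens_max {b b' : ℂ × ℝ} (hb : 0 < b.2) (hb' : 0 < b'.2) {θ : ℝ}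
    (hne : ∃ y, dist y b.1 ≤ b.2 ∧ dist y b'.1 ≤ b'.2) (h1 : b'.2 < dist (top1 θ b) b'.1)
    (h2 : b.2 < dist (top1 θ b') b.1) :
    ∃ x, dist x b.1 = b.2 ∧ dist x b'.1 = b'.2 ∧
      ∀ y, dist y b.1 ≤ b.2 → dist y b'.1 ≤ b'.2 →
        ip (exp (θ * I)) y ≤ ip (exp (θ * I)) x := by
  have hcomp : IsCompact (closedBall b.1 b.2 ∩ closedBall b'.1 b'.2) :=
    (isCompact_closedBall _ _).inter_right isClosed_closedBall
  have hcont : Continuous fun y : ℂ => ip (exp (θ * I)) y := by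
    unfold ip
    fun_prop
  obtain ⟨y₀, hy₀, hy₀'⟩ := hne
  obtain ⟨x, ⟨hx, hx'⟩, hmax⟩ := hcomp.exists_isMaxOn
    ⟨y₀, mem_closedBall.2 hy₀, mem_closedBall.2 hy₀'⟩ hcont.continuousOn
  rw [mem_closedBall] at hx hx'
  have hm : ∀ y, dist y b.1 ≤ b.2 → dist y b'.1 ≤ b'.2 →
      ip (exp (θ * I)) y ≤ ip (exp (θ * I)) x := fun y hy hy' =>
    hmax ⟨mem_closedBall.2 hy, mem_closedBall.2 hy'⟩
  refine ⟨x, ?_, ?_, hm⟩
  · by_contra hcon
    have hlt : dist x b.1 < b.2 := lt_of_le_of_ne hx hcon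
    have hxt : x ≠ top1 θ b' := by
      rintro rfl
      linarith
    obtain ⟨y, hyU, hyb, hylt⟩ := lift1 hb' hx' hxt (isOpen_ball (x := b.1) (ε := b.2))
      (mem_ball.2 hlt)
    have := hm y (mem_ball.1 hyU).le hyb
    linarith
  · by_contra hcon
    have hlt : dist x b'.1 < b'.2 := lt_of_le_of_ne hx' hcon
    have hxt : x ≠ top1 θ b := by
      rintro rfl
      linarith
    obtain ⟨y, hyU, hyb, hylt⟩ := lift1 hb hx hxt (isOpen_ball (x := b'.1) (ε := b'.2))
      (mem_ball.2 hlt)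
    have := hm y hyb (mem_ball.1 hyU).le
    linarith

theorem ext_up {R : ℝ} (hR : 0 < R) {θ : ℝ} {x : ℂ} (hx : R ≤ ‖x‖) {U : Set ℂ} (hU : IsOpen U)
    (hxU : x ∈ U) : ∃ y ∈ U, R ≤ ‖y‖ ∧ ip (exp (θ * I)) x < ip (exp (θ * I)) y := by
  rcases le_or_gt 0 (ip (exp (θ * I)) x) with h0 | h0
  · have hc : Tendsto (fun s : ℝ => x + s * exp (θ * I)) (𝓝[>] 0) (𝓝 x) := by
      have h1 : Continuous fun s : ℝ => x + (s : ℂ) * exp (θ * I) := by fun_prop
      have h2 := h1.tendsto 0
      simp only [ofReal_zero, zero_mul, add_zero] at h2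
      exact h2.mono_left nhdsWithin_le_nhds
    have hev := hc.eventually (hU.mem_nhds hxU)
    have hev2 : ∀ᶠ s : ℝ in 𝓝[>] 0, s ∈ Ioi (0 : ℝ) := self_mem_nhdsWithin
    obtain ⟨s, hs, hs0⟩ := (hev.and hev2).exists
    have hs0' : (0 : ℝ) < s := hs0
    refine ⟨_, hs, ?_, ?_⟩
    · have h1 := normSq_sub_smul x (-s) θ
      have h2 : x - ((-s : ℝ) : ℂ) * exp (θ * I) = x + s * exp (θ * I) := by
        push_cast
        ring
      rw [h2] at h1
      have h3 : ‖x‖ ^ 2 ≤ ‖x + s * exp (θ * I)‖ ^ 2 := by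
        rw [h1]
        nlinarith [mul_nonneg hs0'.le h0]
      exact hx.trans (le_of_sq_le_sq h3 (norm_nonneg _))
    · rw [ip_add', ip_smul', ip_exp_self]
      linarith
  · -- rotate towards the direction
    obtain ⟨σ, hσ, hσ'⟩ : ∃ σ : ℝ, σ ^ 2 = 1 ∧ σ * (conj (exp (θ * I)) * x).im ≤ 0 := by
      rcases le_or_gt (conj (exp (θ * I)) * x).im 0 with h | h
      · exact ⟨1, by norm_num, by linarith⟩
      · exact ⟨-1, by norm_num, by linarith⟩
    have hσ2 : σ = 1 ∨ σ = -1 := by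
      have h : (σ - 1) * (σ + 1) = 0 := by linear_combination hσ
      rcases mul_eq_zero.1 h with h | h
      · exact Or.inl (by linarith)
      · exact Or.inr (by linarith)
    have hc : Tendsto (fun s : ℝ => x * exp ((σ * s : ℝ) * I)) (𝓝[>] 0) (𝓝 x) := by
      have h1 : Continuous fun s : ℝ => x * exp ((σ * s : ℝ) * I) := by fun_prop
      have h2 := h1.tendsto 0
      simp only [mul_zero, ofReal_zero, zero_mul, Complex.exp_zero, mul_one] at h2
      exact h2.mono_left nhdsWithin_le_nhds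
    have hev := hc.eventually (hU.mem_nhds hxU)
    have hev2 : ∀ᶠ s : ℝ in 𝓝[>] 0, s ∈ Ioo (0 : ℝ) 1 := Ioo_mem_nhdsGT one_pos
    obtain ⟨s, hs, hs0, hs1⟩ := (hev.and hev2).exists
    refine ⟨_, hs, ?_, ?_⟩
    · rw [norm_mul, norm_exp_ofReal_mul_I, mul_one]
      exact hx
    · have hpi := Real.pi_gt_three
      have hsin : 0 < Real.sin s := Real.sin_pos_of_pos_of_lt_pi hs0 (by linarith)
      have hcos : Real.cos s < 1 := by
        have h1 := Real.sin_sq_add_cos_sq s
        have h2 : Real.cos s ≤ 1 := Real.cos_le_one s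
        rcases eq_or_lt_of_le h2 with h3 | h3
        · rw [h3] at h1
          nlinarith
        · exact h3
      have hip : ip (exp (θ * I)) (x * exp ((σ * s : ℝ) * I)) =
          ip (exp (θ * I)) x * Real.cos s - σ * (conj (exp (θ * I)) * x).im * Real.sin s := by
        have h1 : ip (exp (θ * I)) (x * exp ((σ * s : ℝ) * I)) =
            ((conj (exp (θ * I)) * x) * exp ((σ * s : ℝ) * I)).re := by
          rw [ip, mul_assoc]
        rw [h1, mul_re, exp_ofReal_mul_I_re, exp_ofReal_mul_I_im, ip]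
        rcases hσ2 with h | h
        · rw [h, one_mul, one_mul]
        · rw [h, neg_one_mul, Real.cos_neg, Real.sin_neg]; ring
      rw [hip]
      nlinarith [mul_pos (neg_pos.2 h0) (sub_pos.2 hcos), mul_nonneg (neg_nonneg.2 hσ') hsin.le]

end Pool.Agent.FKM
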