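import Mathlib
import Pool.Agent.Helper13.FKM.CntDefs
import Pool.Agent.Helper13.FKM.Lens
import Pool.Agent.Helper13.FKM.Kruskal
import Pool.Agent.Helper13.FKM.Cover

/-!
FKM-19: counting tops and merging corners of a connected union of discs.

Plan. e = exp (θ I). If N is empty the claim is 0 ≤ 2. Nodes: the elements of N (a Fintype), adj b b' iff the
closed discs meet; connected by cover_conn with A = cl N. w b b' = sSup of ip e over the intersection
(attained, compact). Kruskal gives T with |N| ≤ |T| + 1. Let {b, b'} ∈ T.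
(a) top1 b ∈ open ball b' (or with b, b' exchanged; both at once is impossible by ip_le_top and GenDir). Then
w b b' = ip e (top1 b). The map edge ↦ b from the edges of type (a) to N \ tops is injective: if {b, j} and
{b, k} are both of type (a) via b, j ≠ k, then top1 b is in both open balls j, k, so w j k > ip e (top1 b)
(lift2), contradicting the third property of kruskal.
(b) otherwise by GenDir top1 b ∉ b', top1 b' ∉ b; let x be as in lens_max, w b b' = ip e x. If x were in an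
open ball l ∈ N (l ≠ b, b' as x is on these circles) then w b l > ip e x and w b' l > ip e x (lift1), so b, b'
would be connected through heavier edges: contradiction. So (b, b') and (b', b) are in mrg.
Hence |N| - 1 ≤ |T| ≤ (|N| - |tops|) + |mrg|/2.
-/

set_option autoImplicit false

open Complex MeasureTheory Set Metric Filter
open scoped ComplexConjugate Topology

namespace Pool.Agent.FKM

private theorem cntI_cont_ip (e : ℂ) : Continuous (ip e) := by
  unfold ip
  fun_prop

/-- the height of the intersection of two discs -/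
private noncomputable def cntI_w (θ : ℝ) (a b : ℂ × ℝ) : ℝ :=
  sSup (ip (exp (θ * I)) '' (closedBall a.1 a.2 ∩ closedBall b.1 b.2))

private theorem cntI_w_comm (θ : ℝ) (a b : ℂ × ℝ) : cntI_w θ a b = cntI_w θ b a := by
  unfold cntI_w
  rw [inter_comm]

private theorem cntI_le_w {θ : ℝ} {a b : ℂ × ℝ} {y : ℂ} (ha : dist y a.1 ≤ a.2)
    (hb : dist y b.1 ≤ b.2) : ip (exp (θ * I)) y ≤ cntI_w θ a b := by
  apply le_csSup
  · exact (((isCompact_closedBall a.1 a.2).inter_right isClosed_closedBall).image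
      (cntI_cont_ip _)).bddAbove
  · exact ⟨y, ⟨ha, hb⟩, rfl⟩

private theorem cntI_w_le {θ : ℝ} {a b : ℂ × ℝ} {B : ℝ}
    (hne : ∃ y, dist y a.1 ≤ a.2 ∧ dist y b.1 ≤ b.2)
    (h : ∀ y, dist y a.1 ≤ a.2 → dist y b.1 ≤ b.2 → ip (exp (θ * I)) y ≤ B) :
    cntI_w θ a b ≤ B := by
  obtain ⟨y, hy⟩ := hne
  apply csSup_le
  · exact ⟨_, ⟨y, ⟨hy.1, hy.2⟩, rfl⟩⟩
  · rintro _ ⟨z, ⟨hz1, hz2⟩, rfl⟩
    exact h z hz1 hz2

private theorem cntI_top_mem {θ : ℝ} {b : ℂ × ℝ} (hb : 0 < b.2) : dist (top1 θ b) b.1 ≤ b.2 := by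
  unfold top1
  rw [dist_eq_norm, circleMap_sub_center, norm_circleMap_zero, abs_of_pos hb]

/-- weight of an edge whose lens contains the top of `a` -/
private theorem cntI_w_top {θ : ℝ} {a b : ℂ × ℝ} (ha : 0 < a.2)
    (h : dist (top1 θ a) b.1 < b.2) : cntI_w θ a b = ip (exp (θ * I)) (top1 θ a) := by
  apply le_antisymm
  · exact cntI_w_le ⟨top1 θ a, cntI_top_mem ha, h.le⟩ fun y hy _ => (ip_le_top ha hy).1
  · exact cntI_le_w (cntI_top_mem ha) h.le

private theorem cntI_mem_tops {N : Finset (ℂ × ℝ)} {O : ℂ → Prop} {θ : ℝ} {b : ℂ × ℝ} :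
    b ∈ tops N O θ ↔ b ∈ N ∧ O (top1 θ b) ∧ ∀ b' ∈ N, b' ≠ b → b'.2 < dist (top1 θ b) b'.1 := by
  classical
  unfold tops
  rw [Finset.mem_filter]

private theorem cntI_mrg_symm {N : Finset (ℂ × ℝ)} {O : ℂ → Prop} {θ : ℝ} {b b' : ℂ × ℝ} {x : ℂ}
    (h : IsMrg N O θ b b' x) : IsMrg N O θ b' b x :=
  ⟨h.2.1, h.1, h.2.2.2.1, h.2.2.1, fun y h1 h2 => h.2.2.2.2.1 y h2 h1, h.2.2.2.2.2⟩

theorem cnt_island {N : Finset (ℂ × ℝ)} (hpos : ∀ b ∈ N, 0 < b.2) (hc : IsPreconnected (cl N))
    {θ : ℝ} (hg : GenDir N θ) :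
    2 * (tops N (fun _ => True) θ).card ≤ 2 + (mrg N (fun _ => True) θ).card := by
  classical
  rcases N.eq_empty_or_nonempty with hN | hN
  · subst hN
    simp [tops]
  have : Nonempty {b // b ∈ N} := ⟨⟨hN.choose, hN.choose_spec⟩⟩
  -- connectedness
  have hconn : ∀ a b : {b // b ∈ N}, Relation.ReflTransGen
      (fun a b : {b // b ∈ N} => ∃ y, dist y a.1.1 ≤ a.1.2 ∧ dist y b.1.1 ≤ b.1.2) a b := by
    intro a b
    have hmem : ∀ c : {b // b ∈ N}, c.1.1 ∈ closedBall c.1.1 c.1.2 ∩ cl N := by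
      intro c
      have h1 : c.1.1 ∈ closedBall c.1.1 c.1.2 := mem_closedBall_self (hpos c.1 c.2).le
      exact ⟨h1, mem_iUnion₂.mpr ⟨c.1, c.2, h1⟩⟩
    have hcov : cl N ⊆ ⋃ c : {b // b ∈ N}, closedBall c.1.1 c.1.2 := by
      intro z hz
      obtain ⟨c, hcN, hz⟩ := mem_iUnion₂.mp hz
      exact mem_iUnion.mpr ⟨⟨c, hcN⟩, hz⟩
    have h := cover_conn (C := fun c : {b // b ∈ N} => closedBall c.1.1 c.1.2)
      (fun c => isClosed_closedBall) hc hcov (i := a) (j := b) ⟨_, hmem a⟩ ⟨_, hmem b⟩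
    refine Relation.ReflTransGen.mono ?_ _ _ h
    rintro c d ⟨y, ⟨hy1, hy2⟩, _⟩
    exact ⟨y, hy1, hy2⟩
  obtain ⟨T, hT1, hT2, hT3⟩ := kruskal
    (fun a b : {b // b ∈ N} => ∃ y, dist y a.1.1 ≤ a.1.2 ∧ dist y b.1.1 ≤ b.1.2)
    (fun a b ⟨y, h1, h2⟩ => ⟨y, h2, h1⟩) (fun a b => cntI_w θ a.1 b.1)
    (fun a b => cntI_w_comm θ a.1 b.1) hconn
  -- edges of type (a)
  set isA : Sym2 {b // b ∈ N} → Prop := fun e => ∃ a b : {b // b ∈ N}, e = s(a, b) ∧
    dist (top1 θ a.1) b.1.1 < b.1.2 with hisA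
  set Ta := T.filter isA with hTa
  set Tb := T.filter (fun e => ¬ isA e) with hTb
  have hTab : Ta.card + Tb.card = T.card := Finset.card_filter_add_card_filter_not _
  -- injection of the edges of type (a) into the covered nodes
  have hf : ∀ e ∈ Ta, ∃ a : {b // b ∈ N}, ∃ b : {b // b ∈ N}, e = s(a, b) ∧
      dist (top1 θ a.1) b.1.1 < b.1.2 := fun e he => (Finset.mem_filter.mp he).2
  choose! f hf' using hf
  have hTaN : Ta.card ≤ (N \ tops N (fun _ => True) θ).card := by
    apply Finset.card_le_card_of_injOn (fun e => (f e).1)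
    · intro e he
      obtain ⟨b, hb, hd⟩ := hf' e he
      have heT : s(f e, b) ∈ T := by
        rw [← hb]; exact (Finset.mem_filter.mp he).1
      have hne : f e ≠ b := (hT2 _ _ heT).1
      rw [Finset.coe_sdiff]
      refine ⟨(f e).2, ?_⟩
      intro hmem
      have hmem' := (cntI_mem_tops.mp (Finset.mem_coe.mp hmem)).2.2 b.1 b.2
        (fun h => hne (Subtype.ext h.symm))
      linarith
    · intro e1 he1 e2 he2 heq
      have heq' : f e1 = f e2 := Subtype.ext heq
      obtain ⟨j, hj, hdj⟩ := hf' e1 he1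
      obtain ⟨k, hk, hdk⟩ := hf' e2 he2
      rw [← heq'] at hk hdk
      by_cases hjk : j = k
      · rw [hj, hk, hjk]
      · exfalso
        have hjT : s(f e1, j) ∈ T := by
          rw [← hj]; exact (Finset.mem_filter.mp he1).1
        have hkT : s(f e1, k) ∈ T := by
          rw [← hk]; exact (Finset.mem_filter.mp he2).1
        have hpa := hpos (f e1).1 (f e1).2
        have hwj := cntI_w_top hpa hdj
        have hwk := cntI_w_top hpa hdk
        refine hT3 (f e1) j k hjT hkT hjk (by rw [hwj, hwk]) ?_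
        obtain ⟨y, hyU, hy⟩ := lift2 (θ := θ) (x := top1 θ (f e1).1)
          (U := ball j.1.1 j.1.2 ∩ ball k.1.1 k.1.2) (isOpen_ball.inter isOpen_ball) ⟨hdj, hdk⟩
        apply Relation.ReflTransGen.single
        refine ⟨⟨y, (mem_ball.mp hyU.1).le, (mem_ball.mp hyU.2).le⟩, ?_⟩
        show cntI_w θ (f e1).1 j.1 < cntI_w θ j.1 k.1
        rw [hwj]
        exact hy.trans_le (cntI_le_w (mem_ball.mp hyU.1).le (mem_ball.mp hyU.2).le)
  -- edges of type (b) give merging corners
  have hB : ∀ a b : {b // b ∈ N}, s(a, b) ∈ Tb →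
      a ≠ b ∧ ∃ x, IsMrg N (fun _ => True) θ a.1 b.1 x := by
    intro a b hab
    obtain ⟨habT, hnA⟩ := Finset.mem_filter.mp hab
    obtain ⟨hne, hadj, hK⟩ := hT2 a b habT
    refine ⟨hne, ?_⟩
    have hne' : a.1 ≠ b.1 := fun h => hne (Subtype.ext h)
    have h1 : b.1.2 < dist (top1 θ a.1) b.1.1 := by
      rcases lt_trichotomy (dist (top1 θ a.1) b.1.1) b.1.2 with h | h | h
      · exact absurd ⟨a, b, rfl, h⟩ hnA
      · exact absurd h (hg a.1 a.2 b.1 b.2 hne')
      · exact h
    have h2 : a.1.2 < dist (top1 θ b.1) a.1.1 := by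
      rcases lt_trichotomy (dist (top1 θ b.1) a.1.1) a.1.2 with h | h | h
      · exact absurd ⟨b, a, Sym2.eq_swap, h⟩ hnA
      · exact absurd h (hg b.1 b.2 a.1 a.2 hne'.symm)
      · exact h
    have hpa := hpos a.1 a.2
    have hpb := hpos b.1 b.2
    obtain ⟨x, hxa, hxb, hmax⟩ := lens_max hpa hpb hadj h1 h2
    have hwx : cntI_w θ a.1 b.1 = ip (exp (θ * I)) x :=
      le_antisymm (cntI_w_le hadj hmax) (cntI_le_w hxa.le hxb.le)
    refine ⟨x, h1, h2, hxa, hxb, hmax, trivial, ?_⟩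
    intro l hl
    by_contra hlt
    rw [not_le] at hlt
    apply hK
    have hxta : x ≠ top1 θ a.1 := by
      intro h; rw [h] at hxb; linarith
    have hxtb : x ≠ top1 θ b.1 := by
      intro h; rw [h] at hxa; linarith
    obtain ⟨y, hyU, hya, hyx⟩ := lift1 hpa hxa.le hxta (isOpen_ball (x := l.1) (ε := l.2))
      (mem_ball.mpr hlt)
    obtain ⟨z, hzU, hzb, hzx⟩ := lift1 hpb hxb.le hxtb (isOpen_ball (x := l.1) (ε := l.2))
      (mem_ball.mpr hlt)
    have s1 : (∃ y, dist y a.1.1 ≤ a.1.2 ∧ dist y l.1 ≤ l.2) ∧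
        cntI_w θ a.1 b.1 < cntI_w θ a.1 l := by
      refine ⟨⟨y, hya, (mem_ball.mp hyU).le⟩, ?_⟩
      rw [hwx]
      exact hyx.trans_le (cntI_le_w hya (mem_ball.mp hyU).le)
    have s2 : (∃ y, dist y l.1 ≤ l.2 ∧ dist y b.1.1 ≤ b.1.2) ∧
        cntI_w θ a.1 b.1 < cntI_w θ l b.1 := by
      refine ⟨⟨z, (mem_ball.mp hzU).le, hzb⟩, ?_⟩
      rw [hwx]
      exact hzx.trans_le (cntI_le_w (mem_ball.mp hzU).le hzb)
    exact (Relation.ReflTransGen.single (b := (⟨l, hl⟩ : {b // b ∈ N})) s1).tail s2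
  have hTbM : 2 * Tb.card ≤ (mrg N (fun _ => True) θ).card := by
    set D : Finset ({b // b ∈ N} × {b // b ∈ N}) :=
      Finset.univ.filter (fun c => s(c.1, c.2) ∈ Tb) with hD
    have hD1 : 2 * Tb.card ≤ D.card := by
      rw [Finset.card_eq_sum_card_fiberwise (f := fun c => s(c.1, c.2)) (s := D) (t := Tb)
        (fun c hc => (Finset.mem_filter.mp hc).2)]
      rw [mul_comm, ← smul_eq_mul]
      apply Finset.card_nsmul_le_sum
      intro e he
      induction e using Sym2.ind with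
      | _ a b =>
        have hne := (hB a b he).1
        have h2 : ({(a, b), (b, a)} : Finset ({b // b ∈ N} × {b // b ∈ N})) ⊆
            D.filter (fun c => s(c.1, c.2) = s(a, b)) := by
          intro c hc
          rw [Finset.mem_insert, Finset.mem_singleton] at hc
          rw [Finset.mem_filter, hD, Finset.mem_filter]
          rcases hc with rfl | rfl
          · exact ⟨⟨Finset.mem_univ _, he⟩, rfl⟩
          · have hs : s(b, a) = s(a, b) := Sym2.eq_swap
            exact ⟨⟨Finset.mem_univ _, by rw [hs]; exact he⟩, hs⟩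
        calc 2 = ({(a, b), (b, a)} : Finset ({b // b ∈ N} × {b // b ∈ N})).card := by
              rw [Finset.card_pair]
              intro h
              exact hne (Prod.mk.inj h).1
          _ ≤ _ := Finset.card_le_card h2
    refine hD1.trans ?_
    apply Finset.card_le_card_of_injOn (fun c => (c.1.1, c.2.1))
    · intro c hc
      have hc' := hB c.1 c.2 (Finset.mem_filter.mp hc).2
      rw [Finset.mem_coe, mrg, Finset.mem_filter, Finset.mem_product]
      exact ⟨⟨c.1.2, c.2.2⟩, fun h => hc'.1 (Subtype.ext h), hc'.2⟩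
    · intro c _ d _ h
      have h' := Prod.mk.inj h
      exact Prod.ext (Subtype.ext h'.1) (Subtype.ext h'.2)
  have hcard : Fintype.card {b // b ∈ N} = N.card := Fintype.card_coe N
  have hsub : (tops N (fun _ => True) θ) ⊆ N := fun b hb => (cntI_mem_tops.mp hb).1
  have h1 := Finset.card_sdiff_of_subset hsub
  have h2 := Finset.card_le_card hsub
  omega

end Pool.Agent.FKM
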