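import Mathlib
import Pool.Agent.Helper13.FKM.CntDefs
import Pool.Agent.Helper13.FKM.Lens

/-!
FKM-20: the set above the lowest point of a bounded complementary region is connected.

Plan. e = exp (θ I), h = ip e, ℓ the line h = h y. Every point of Vᶜ has h > h y (it is open and hlow), so
V ⊇ {h ≤ h y}; points z ≠ y of ℓ are not in closure Vᶜ, so they are interior to V. Let A' = V ∩ {h > h y} and
suppose A' = A1 ∪ A2, disjoint, both relatively closed in A' (and relatively open), nonempty.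
Each z ∈ ℓ \ {y} has a ball in V whose upper half is convex, hence inside one of A1, A2; as each of the two
components (half lines) of ℓ \ {y} is connected, all these half balls along one half line are inside the same
A_j. Far away (Vᶜ bounded: V contains the exterior of a ball) the set {R ≤ ‖z‖} ∩ {h > h y} is connected
(union of two quadrant-like pieces and a top piece, or join points by paths) and touches both half lines, so
both belong to the same one, say A1. The discs b, b': closedBall b ∩ {h > h y} is convex, and near the point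
z ∈ ball b with h z = h y (hb, and z ≠ y since dist y b.1 = b.2) it meets the upper half ball at z, so it is inside
A1; similarly b'. By hloc A' ∩ ball y η ⊆ A1. So closure A2 does not meet ℓ at all: A2 is closed in the plane
and relatively open in V; V = (A1 ∪ {h ≤ h y}) ∪ A2 contradicts IsPreconnected V.
-/

set_option autoImplicit false

open Complex MeasureTheory Set Metric Filter
open scoped ComplexConjugate Topology

namespace Pool.Agent.FKM

/-- path from a point above the axis to the far point `M` -/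
private theorem valley_conn {V : Set ℂ} {R M : ℝ} (hM : 0 < M) (hRM : R ≤ M)
    (hO : ∀ z : ℂ, R ≤ ‖z‖ → z ∈ V) (hax : ∀ z : ℂ, z.re = 0 → z ≠ 0 → z ∈ interior V)
    {z : ℂ} (hz : z.re = 0) (hz0 : z ≠ 0) {ε : ℝ} (hε : 0 < ε) :
    ∃ η : ℝ, 0 < η ∧ η < ε ∧ ∃ S : Set ℂ, IsPreconnected S ∧ S ⊆ V ∩ {z | 0 < z.re} ∧
      (⟨η, z.im⟩ : ℂ) ∈ S ∧ (⟨M, 0⟩ : ℂ) ∈ S := by
  have him : z.im ≠ 0 := by
    intro h
    exact hz0 (Complex.ext (by simpa using hz) (by simpa using h))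
  obtain ⟨σ, hσ, hσz⟩ : ∃ σ : ℝ, (σ = 1 ∨ σ = -1) ∧ σ * z.im = |z.im| := by
    rcases lt_or_gt_of_ne him with h | h
    · exact ⟨-1, Or.inr rfl, by rw [abs_of_neg h]; ring⟩
    · exact ⟨1, Or.inl rfl, by rw [abs_of_pos h]; ring⟩
  have hσ2 : σ * σ = 1 := by rcases hσ with rfl | rfl <;> norm_num
  have habs : 0 < |z.im| := abs_pos.2 him
  have hkey : ∀ t : ℝ, 0 ≤ t → |z.im + σ * t| = |z.im| + t := by
    intro t ht
    have h1 : σ * (z.im + σ * t) = |z.im| + t := by
      rw [mul_add, hσz, ← mul_assoc, hσ2, one_mul]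
    have h2 : |z.im + σ * t| = |σ * (z.im + σ * t)| := by
      rw [abs_mul]
      have : |σ| = 1 := by rcases hσ with rfl | rfl <;> norm_num
      rw [this, one_mul]
    rw [h2, h1, abs_of_nonneg (by positivity)]
  have hcmk : ∀ a b : ℝ → ℝ, Continuous a → Continuous b →
      Continuous (fun t : ℝ => (⟨a t, b t⟩ : ℂ)) := by
    intro a b ha hb
    have : (fun t : ℝ => (⟨a t, b t⟩ : ℂ)) = fun t => (a t : ℂ) + (b t : ℂ) * I := by
      funext t
      apply Complex.ext <;> simp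
    rw [this]
    fun_prop
  let K : Set ℂ := (fun t : ℝ => (⟨0, z.im + σ * t⟩ : ℂ)) '' Icc 0 M
  have hKc : IsCompact K :=
    isCompact_Icc.image (hcmk (fun _ => 0) (fun t => z.im + σ * t) (by fun_prop) (by fun_prop))
  have hKV : K ⊆ interior V := by
    rintro w ⟨t, ht, rfl⟩
    refine hax _ rfl ?_
    intro h
    have h1 : z.im + σ * t = 0 := congrArg Complex.im h
    have h2 := hkey t ht.1
    rw [h1, abs_zero] at h2
    have := ht.1
    linarith
  obtain ⟨δ, hδ, hδK⟩ := hKc.exists_thickening_subset_open isOpen_interior hKV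
  obtain ⟨η, hη0, hη⟩ : ∃ η : ℝ, 0 < η ∧ η < min ε (min δ M) :=
    exists_between (lt_min hε (lt_min hδ hM))
  have hηε : η < ε := hη.trans_le (min_le_left _ _)
  have hηδ : η < δ := hη.trans_le ((min_le_right _ _).trans (min_le_left _ _))
  have hηM : η < M := hη.trans_le ((min_le_right _ _).trans (min_le_right _ _))
  let S1 : Set ℂ := (fun t : ℝ => (⟨η, z.im + σ * t⟩ : ℂ)) '' Icc 0 M
  let S2 : Set ℂ := (fun t : ℝ => (⟨t, z.im + σ * M⟩ : ℂ)) '' Icc η M
  let S3 : Set ℂ := (fun t : ℝ => (⟨M, t⟩ : ℂ)) '' uIcc 0 (z.im + σ * M)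
  have h1 : IsPreconnected S1 := isPreconnected_Icc.image _
    (hcmk (fun _ => η) (fun t => z.im + σ * t) (by fun_prop) (by fun_prop)).continuousOn
  have h2 : IsPreconnected S2 := isPreconnected_Icc.image _
    (hcmk (fun t => t) (fun _ => z.im + σ * M) (by fun_prop) (by fun_prop)).continuousOn
  have h3 : IsPreconnected S3 := isPreconnected_uIcc.image _
    (hcmk (fun _ => M) (fun t => t) (by fun_prop) (by fun_prop)).continuousOn
  have h12 : IsPreconnected (S1 ∪ S2) :=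
    h1.union (⟨η, z.im + σ * M⟩ : ℂ) ⟨M, ⟨hM.le, le_rfl⟩, rfl⟩ ⟨η, ⟨le_rfl, hηM.le⟩, rfl⟩ h2
  have h123 : IsPreconnected (S1 ∪ S2 ∪ S3) :=
    h12.union (⟨M, z.im + σ * M⟩ : ℂ) (Or.inr ⟨M, ⟨hηM.le, le_rfl⟩, rfl⟩)
      ⟨z.im + σ * M, right_mem_uIcc, rfl⟩ h3
  refine ⟨η, hη0, hηε, S1 ∪ S2 ∪ S3, h123, ?_, Or.inl (Or.inl ⟨0, ⟨le_rfl, hM.le⟩, by simp⟩),
    Or.inr ⟨0, left_mem_uIcc, rfl⟩⟩
  rintro w ((⟨t, ht, rfl⟩ | ⟨t, ht, rfl⟩) | ⟨t, ht, rfl⟩)
  · refine ⟨interior_subset (hδK ?_), hη0⟩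
    rw [mem_thickening_iff]
    refine ⟨_, ⟨t, ht, rfl⟩, ?_⟩
    have : dist (⟨η, z.im + σ * t⟩ : ℂ) (⟨0, z.im + σ * t⟩ : ℂ) = η := by
      rw [Complex.dist_eq]
      have : (⟨η, z.im + σ * t⟩ : ℂ) - (⟨0, z.im + σ * t⟩ : ℂ) = (η : ℂ) := by
        apply Complex.ext <;> simp
      rw [this, Complex.norm_real, Real.norm_of_nonneg hη0.le]
    change dist (⟨η, z.im + σ * t⟩ : ℂ) (⟨0, z.im + σ * t⟩ : ℂ) < δ
    rw [this]
    exact hηδ
  · refine ⟨hO _ ?_, lt_of_lt_of_le hη0 ht.1⟩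
    refine (hRM.trans ?_).trans (Complex.abs_im_le_norm _)
    change M ≤ |z.im + σ * M|
    rw [hkey M hM.le]
    linarith
  · refine ⟨hO _ ?_, hM⟩
    refine (hRM.trans ?_).trans (Complex.abs_re_le_norm _)
    exact le_abs_self M

/-- the statement for the direction `1` and the point `0` -/
private theorem valley0 {V C C' : Set ℂ} (hV : IsClosed V) (hc : IsPreconnected V) {R : ℝ}
    (hO : ∀ z : ℂ, R ≤ ‖z‖ → z ∈ V) (hlow : ∀ z ∈ closure Vᶜ, z ≠ 0 → 0 < z.re)
    (hCV : C ⊆ V) (hC : Convex ℝ C) (hCz : ∃ z ∈ interior C, z.re = 0 ∧ z ≠ 0)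
    (hCV' : C' ⊆ V) (hC' : Convex ℝ C') (hCz' : ∃ z ∈ interior C', z.re = 0 ∧ z ≠ 0)
    (hloc : ∃ η > 0, ∀ z ∈ V, ‖z‖ < η → 0 < z.re → z ∈ C ∪ C') :
    IsPreconnected (V ∩ {z | 0 < z.re}) := by
  have hax : ∀ z : ℂ, z.re = 0 → z ≠ 0 → z ∈ interior V := by
    intro z hz hz0
    by_contra h
    rw [interior_eq_compl_closure_compl, notMem_compl_iff] at h
    exact absurd hz (hlow z h hz0).ne'
  obtain ⟨M, hM, hRM⟩ : ∃ M : ℝ, 0 < M ∧ R ≤ M := ⟨|R| + 1, by positivity, by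
    linarith [le_abs_self R]⟩
  have hHo : IsOpen {z : ℂ | 0 < z.re} := isOpen_lt continuous_const Complex.continuous_re
  have hHc : Convex ℝ {z : ℂ | 0 < z.re} := convex_halfSpace_re_gt 0
  have hMA : (⟨M, 0⟩ : ℂ) ∈ V ∩ {z : ℂ | 0 < z.re} :=
    ⟨hO _ (hRM.trans ((le_abs_self M).trans (Complex.abs_re_le_norm (⟨M, 0⟩ : ℂ)))), hM⟩
  intro u v hu hv hsub hau hbv
  by_contra hne
  wlog hMu : (⟨M, 0⟩ : ℂ) ∈ u generalizing u v
  · refine this v u hv hu (by rwa [union_comm]) hbv hau (by rwa [inter_comm v u]) ?_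
    rcases hsub hMA with h | h
    · exact absurd h hMu
    · exact h
  -- connected sets meeting `u` are inside `u`
  have hmono : ∀ S : Set ℂ, IsPreconnected S → S ⊆ V ∩ {z : ℂ | 0 < z.re} →
      ∀ p ∈ S, p ∈ u → S ⊆ u := by
    intro S hS hSA p hp hpu q hq
    by_contra hqu
    have hqv : q ∈ v := (hsub (hSA hq)).resolve_left hqu
    obtain ⟨r, hr, hruv⟩ := hS u v hu hv (hSA.trans hsub) ⟨p, hp, hpu⟩ ⟨q, hq, hqv⟩
    exact hne ⟨r, hSA hr, hruv⟩
  -- convex sets with an axis point in the interior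
  have hconv : ∀ S : Set ℂ, Convex ℝ S → S ⊆ V → (∃ z ∈ interior S, z.re = 0 ∧ z ≠ 0) →
      S ∩ {z : ℂ | 0 < z.re} ⊆ u := by
    rintro S hS hSV ⟨z, hzS, hz, hz0⟩
    obtain ⟨ε, hε, hball⟩ := Metric.isOpen_iff.1 isOpen_interior z hzS
    obtain ⟨η, hη, hηε, T, hT, hTA, hT1, hT2⟩ := valley_conn hM hRM hO hax hz hz0 hε
    have hTu : (⟨η, z.im⟩ : ℂ) ∈ u := hmono T hT hTA _ hT2 hMu hT1
    refine hmono _ (hS.inter hHc).isPreconnected (inter_subset_inter_left _ hSV) _ ⟨?_, hη⟩ hTu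
    apply interior_subset
    apply hball
    rw [mem_ball, Complex.dist_eq]
    have : (⟨η, z.im⟩ : ℂ) - z = (η : ℂ) := by
      apply Complex.ext <;> simp [hz]
    rw [this, Complex.norm_real, Real.norm_of_nonneg hη.le]
    exact hηε
  have hCu := hconv C hC hCV hCz
  have hCu' := hconv C' hC' hCV' hCz'
  -- the closure of the other part stays above the axis
  have hcl : ∀ x ∈ closure ((V ∩ {z : ℂ | 0 < z.re}) ∩ v), 0 < x.re := by
    intro x hx
    have hx0 : 0 ≤ x.re := by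
      have h1 : closure ((V ∩ {z : ℂ | 0 < z.re}) ∩ v) ⊆ {z : ℂ | 0 ≤ z.re} :=
        closure_minimal (fun z hz => show (0 : ℝ) ≤ z.re from le_of_lt hz.1.2)
          (isClosed_le continuous_const Complex.continuous_re)
      exact h1 hx
    refine lt_of_le_of_ne hx0 (fun h0 => ?_)
    by_cases hx' : x = 0
    · subst hx'
      obtain ⟨η, hη, hloc⟩ := hloc
      obtain ⟨q, hq, hqd⟩ := Metric.mem_closure_iff.1 hx η hη
      rw [dist_comm, dist_zero_right] at hqd
      have hqC := hloc q hq.1.1 hqd hq.1.2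
      have hqu : q ∈ u := by
        rcases hqC with h | h
        · exact hCu ⟨h, hq.1.2⟩
        · exact hCu' ⟨h, hq.1.2⟩
      exact hne ⟨q, hq.1, hqu, hq.2⟩
    · have hxi := hax x h0.symm hx'
      obtain ⟨ε, hε, hball⟩ := Metric.isOpen_iff.1 isOpen_interior x hxi
      have hbu := hconv (ball x ε) (convex_ball x ε) (hball.trans interior_subset)
        ⟨x, by rw [isOpen_ball.interior_eq]; exact mem_ball_self hε, h0.symm, hx'⟩
      obtain ⟨q, hq, hqd⟩ := Metric.mem_closure_iff.1 hx ε hε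
      rw [dist_comm] at hqd
      exact hne ⟨q, hq.1, hbu ⟨hqd, hq.1.2⟩, hq.2⟩
  -- the other part is closed
  have hclosed : closure ((V ∩ {z : ℂ | 0 < z.re}) ∩ v) ⊆ (V ∩ {z : ℂ | 0 < z.re}) ∩ v := by
    intro x hx
    have hxV : x ∈ V := closure_minimal (fun z hz => hz.1.1) hV hx
    have hxA : x ∈ V ∩ {z : ℂ | 0 < z.re} := ⟨hxV, hcl x hx⟩
    refine ⟨hxA, ?_⟩
    rcases hsub hxA with h | h
    · exfalso
      obtain ⟨q, hq⟩ := mem_closure_iff.1 hx u hu h
      exact hne ⟨q, hq.2.1, hq.1, hq.2.2⟩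
    · exact h
  have hcl2 : IsClosed ((V ∩ {z : ℂ | 0 < z.re}) ∩ v) := isClosed_of_closure_subset hclosed
  obtain ⟨a, haA, hau⟩ := hau
  obtain ⟨b, hbA, hbv⟩ := hbv
  obtain ⟨x, hxV, hx1, hx2⟩ := hc (((V ∩ {z : ℂ | 0 < z.re}) ∩ v)ᶜ) (v ∩ {z : ℂ | 0 < z.re})
    hcl2.isOpen_compl (hv.inter hHo)
    (by
      intro x hx
      by_cases h : x ∈ (V ∩ {z : ℂ | 0 < z.re}) ∩ v
      · exact Or.inr ⟨h.2, h.1.2⟩
      · exact Or.inl h)
    ⟨a, haA.1, fun h => hne ⟨a, haA, hau, h.2⟩⟩ ⟨b, hbA.1, hbv, hbA.2⟩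
  exact hx1 ⟨⟨hxV, hx2.2⟩, hx2.1⟩

theorem valley {V : Set ℂ} (hV : IsClosed V) (hc : IsPreconnected V)
    (hO : Bornology.IsBounded Vᶜ) {θ : ℝ} {y : ℂ}
    (hlow : ∀ z ∈ closure Vᶜ, z ≠ y → ip (exp (θ * I)) y < ip (exp (θ * I)) z)
    (hy : y ∈ closure Vᶜ) {b b' : ℂ × ℝ}
    (hbV : closedBall b.1 b.2 ⊆ V) (hbV' : closedBall b'.1 b'.2 ⊆ V)
    (hyb : dist y b.1 = b.2) (hyb' : dist y b'.1 = b'.2)
    (hloc : ∃ η > 0, ∀ z ∈ V, dist z y < η → ip (exp (θ * I)) y < ip (exp (θ * I)) z →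
      z ∈ closedBall b.1 b.2 ∪ closedBall b'.1 b'.2)
    (hb : ∃ z, dist z b.1 < b.2 ∧ ip (exp (θ * I)) z = ip (exp (θ * I)) y)
    (hb' : ∃ z, dist z b'.1 < b'.2 ∧ ip (exp (θ * I)) z = ip (exp (θ * I)) y) :
    IsPreconnected (V ∩ {z | ip (exp (θ * I)) y < ip (exp (θ * I)) z}) := by
  have he1 : ‖exp (θ * I)‖ = 1 := Complex.norm_exp_ofReal_mul_I θ
  generalize exp (θ * I) = e at *
  have he0 : e ≠ 0 := by
    rintro rfl
    simp at he1
  have hee : conj e * e = 1 := by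
    rw [mul_comm, Complex.mul_conj, Complex.normSq_eq_norm_sq, he1]
    norm_num
  let g : ℂ ≃ₜ ℂ := (Homeomorph.mulLeft₀ e he0).trans (Homeomorph.addLeft y)
  have hg : ∀ w, g w = y + e * w := fun w => rfl
  have hgi : ∀ w w', dist (g w) (g w') = dist w w' := by
    intro w w'
    rw [hg, hg, Complex.dist_eq, Complex.dist_eq, add_sub_add_left_eq_sub, ← mul_sub, norm_mul,
      he1, one_mul]
  have hgy : g 0 = y := by rw [hg, mul_zero, add_zero]
  have hip : ∀ w, ip e (g w) = ip e y + w.re := by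
    intro w
    unfold ip
    rw [hg, mul_add, ← mul_assoc, hee, one_mul, Complex.add_re]
  have hgn : ∀ w, dist (g w) y = ‖w‖ := by
    intro w
    rw [← hgy, hgi, dist_zero_right]
  have hball : ∀ b : ℂ × ℝ, Convex ℝ (g ⁻¹' closedBall b.1 b.2) := by
    intro b w1 h1 w2 h2 s t hs ht hst
    have h3 := (convex_closedBall b.1 b.2) h1 h2 hs ht hst
    have h4 : s • g w1 + t • g w2 = g (s • w1 + t • w2) := by
      rw [hg, hg, hg]
      simp only [Complex.real_smul]
      have : (s : ℂ) + t = 1 := by exact_mod_cast hst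
      linear_combination y * this
    rw [h4] at h3
    exact h3
  have hbz : ∀ b : ℂ × ℝ, dist y b.1 = b.2 →
      (∃ z, dist z b.1 < b.2 ∧ ip e z = ip e y) →
      ∃ z ∈ interior (g ⁻¹' closedBall b.1 b.2), z.re = 0 ∧ z ≠ 0 := by
    rintro b hyb ⟨z, hz, hzy⟩
    refine ⟨g.symm z, ?_, ?_, ?_⟩
    · have h1 : g ⁻¹' ball b.1 b.2 ⊆ g ⁻¹' closedBall b.1 b.2 := preimage_mono ball_subset_closedBall
      refine interior_mono h1 ?_
      rw [(isOpen_ball.preimage g.continuous).interior_eq]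
      simpa using hz
    · have h1 := hip (g.symm z)
      rw [g.apply_symm_apply, hzy] at h1
      linarith
    · intro h
      have h1 : z = y := by rw [← g.apply_symm_apply z, h, hgy]
      rw [h1, hyb] at hz
      exact lt_irrefl _ hz
  obtain ⟨R, hR⟩ := hO.subset_ball y
  have hmain : IsPreconnected ((g ⁻¹' V) ∩ {z | 0 < z.re}) := by
    refine valley0 (C := g ⁻¹' closedBall b.1 b.2) (C' := g ⁻¹' closedBall b'.1 b'.2) (R := R)
      (hV.preimage g.continuous) (g.isPreconnected_preimage.2 hc) ?_ ?_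
      (preimage_mono hbV) (hball b) (hbz b hyb hb) (preimage_mono hbV') (hball b')
      (hbz b' hyb' hb') ?_
    · intro z hz
      by_contra h
      have h1 : g z ∈ ball y R := hR h
      rw [mem_ball, hgn] at h1
      linarith
    · intro z hz hz0
      rw [← preimage_compl, ← g.preimage_closure] at hz
      have h1 := hlow (g z) hz (by
        intro h
        apply hz0
        apply g.injective
        rw [h, hgy])
      rw [hip] at h1
      linarith
    · obtain ⟨η, hη, hloc⟩ := hloc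
      refine ⟨η, hη, fun z hz hzn hzr => ?_⟩
      have h1 := hloc (g z) hz (by rwa [hgn]) (by rw [hip]; linarith)
      exact h1
  have himg : V ∩ {z | ip e y < ip e z} = g '' ((g ⁻¹' V) ∩ {z | 0 < z.re}) := by
    ext z
    constructor
    · rintro ⟨hz, hzr⟩
      refine ⟨g.symm z, ⟨by simpa using hz, ?_⟩, g.apply_symm_apply z⟩
      have h1 := hip (g.symm z)
      rw [g.apply_symm_apply] at h1
      have h2 : ip e y < ip e z := hzr
      change 0 < (g.symm z).re
      linarith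
    · rintro ⟨w, ⟨hw, hwr⟩, rfl⟩
      refine ⟨hw, ?_⟩
      change ip e y < ip e (g w)
      rw [hip]
      have : 0 < w.re := hwr
      linarith
  rw [himg]
  exact hmain.image _ g.continuous.continuousOn

end Pool.Agent.FKM
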