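import Mathlib
import Pool.Agent.Helper13.FKM.CntDefs
import Pool.Agent.Helper13.FKM.Lens
import Pool.Agent.Helper13.FKM.Kruskal
import Pool.Agent.Helper13.FKM.Cover
import Pool.Agent.Helper13.FKM.Valley

/-!
FKM-21: counting for the outer boundary.

Plan. Z = {R ≤ ‖z‖}. Nodes: Option N, C none = Z, C (some b) = closedBall b; adj = the sets meet; connected
by cover_conn (A = cl N ∪ Z; Z is nonempty and so are the discs). w a a' = sSup of ip e over C a ∩ C a' (for
none-none put 0; the other intersections are compact). Kruskal: T with |N| + 1 ≤ |T| + 1. Let {a, a'} ∈ T.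
(a) edges via a covered node b (b ∉ tops N (‖·‖ < R) θ, i.e. top1 b in another open ball, or R ≤ ‖top1 b‖):
{b, b'} with top1 b in the open ball b', or {b, none} with R ≤ ‖top1 b‖: weight ip e (top1 b). Injective map to
covered nodes as in CntI, using lift2 for two discs and ext_up for a disc and Z.
(b) {b, none} with ‖top1 b‖ < R: the maximum x of ip e over b ∩ Z has ‖x‖ = R (otherwise lift1 in the open set
{R < ‖·‖}), x is in an open ball l ∈ N (hZ); l ≠ b (otherwise ext_up inside ball b contradicts maximality);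
then w b l > ip e x (lift1) and w l none > ip e x (ext_up): not in T.
(c) {b, b'} with top1 b ∉ b', top1 b' ∉ b, x from lens_max: x is in no open ball l ∈ N (as in CntI); if
R < ‖x‖ then lift1 gives w b none > ip e x and w b' none > ip e x, not in T; if ‖x‖ = R then hZ gives an open
ball containing x, impossible. So ‖x‖ < R and (b, b'), (b', b) ∈ mrg.
So |T_c| ≥ |N| - (|N| - |tops|) = |tops|.
Extra pair. O = (cl N ∪ Z)ᶜ is bounded, open, nonempty (hne). Let y minimise ip e on closure O. y is in no open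
ball of N and ‖y‖ < R (hZ, and R < ‖y‖ impossible). Claims: y is on the circles of exactly two discs b, b' and
is the highest point of b ∩ b'. If y is on the circle of one disc b only and y ≠ top1 b there is z ∈ b higher
than y, and y - ε (z - y) ∈ O is lower than y; if y = top1 b, points of O near the circle next to y are lower.
h2 excludes three circles. If z ∈ b ∩ b' is higher than y then y - ε (z - y) is outside b, b' (strict
convexity) so in O and lower: contradiction. y ≠ top1 b, top1 b' by GenDir, so (uniqueness in ip_le_top)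
top1 b ∉ b', top1 b' ∉ b. Thus (b, b'), (b', b) ∈ mrg. Any other minimiser would be a crossing point too, so
h3 gives uniqueness of y (hlow of `valley`). The line ip e = ip e y meets the open ball b: otherwise y is
top1 b or the lowest point of b; the latter and h2 (crossing) contradict that y is the highest point of
b ∩ b' (moving inside b' from y goes below... precisely: b is above y, so b ∩ b' would contain higher points
than y, because the circles cross). valley shows that V ∩ {ip e > ip e y} is connected, so by cover_conn b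
and b' are connected through edges of weight > ip e y = w b b': hence {b, b'} ∉ T. So |mrg| ≥ 2 |T_c| + 2.
-/

set_option autoImplicit false

open Complex MeasureTheory Set Metric Filter
open scoped ComplexConjugate Topology

namespace Pool.Agent.FKM

namespace CntO

/-- the height in the direction `exp (θ I)` -/
noncomputable abbrev cntH (θ : ℝ) (z : ℂ) : ℝ := ip (exp (θ * I)) z

theorem cntO_eq (θ : ℝ) (z : ℂ) : cntH θ z = Real.cos θ * z.re + Real.sin θ * z.im := by
  unfold cntH ip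
  rw [Complex.mul_re, Complex.conj_re, Complex.conj_im, Complex.exp_ofReal_mul_I_re,
    Complex.exp_ofReal_mul_I_im]
  ring

theorem cntO_cont (θ : ℝ) : Continuous (cntH θ) := by
  have : cntH θ = fun z : ℂ => Real.cos θ * z.re + Real.sin θ * z.im := funext (cntO_eq θ)
  rw [this]
  fun_prop

theorem cntO_add (θ : ℝ) (z w : ℂ) : cntH θ (z + w) = cntH θ z + cntH θ w := by
  simp only [cntO_eq, Complex.add_re, Complex.add_im]; ring

theorem cntO_sub (θ : ℝ) (z w : ℂ) : cntH θ (z - w) = cntH θ z - cntH θ w := by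
  simp only [cntO_eq, Complex.sub_re, Complex.sub_im]; ring

theorem cntO_smul (θ t : ℝ) (z : ℂ) : cntH θ ((t : ℂ) * z) = t * cntH θ z := by
  simp only [cntO_eq, Complex.re_ofReal_mul, Complex.im_ofReal_mul]; ring

theorem cntO_exp (θ : ℝ) : cntH θ (exp (θ * I)) = 1 := by
  rw [cntO_eq, Complex.exp_ofReal_mul_I_re, Complex.exp_ofReal_mul_I_im]
  nlinarith [Real.sin_sq_add_cos_sq θ]

theorem cntO_expI (θ : ℝ) : cntH θ (exp (θ * I) * I) = 0 := by
  rw [cntO_eq]
  simp only [Complex.mul_re, Complex.mul_im, Complex.I_re, Complex.I_im,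
    Complex.exp_ofReal_mul_I_re, Complex.exp_ofReal_mul_I_im]
  ring

theorem cntO_le (θ : ℝ) (z : ℂ) : |cntH θ z| ≤ ‖z‖ := by
  unfold cntH ip
  refine (Complex.abs_re_le_norm _).trans ?_
  rw [norm_mul, RCLike.norm_conj, Complex.norm_exp_ofReal_mul_I, one_mul]

theorem cntO_dist (θ : ℝ) (z w : ℂ) : |cntH θ z - cntH θ w| ≤ dist z w := by
  rw [← cntO_sub, dist_eq]
  exact cntO_le θ _

/-- strict convexity of discs -/
theorem cntO_convex {b : ℂ × ℝ} {y z : ℂ} (hy : dist y b.1 = b.2) (hz : dist z b.1 ≤ b.2)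
    (hne : z ≠ y) {ε : ℝ} (hε : 0 < ε) : b.2 < dist (y - (ε : ℂ) * (z - y)) b.1 := by
  have hr : 0 ≤ b.2 := hy ▸ dist_nonneg
  have h1 : ((y.re - b.1.re) ^ 2 + (y.im - b.1.im) ^ 2) = b.2 ^ 2 := by
    rw [← hy, dist_eq, Complex.sq_norm, Complex.normSq_apply]
    simp only [Complex.sub_re, Complex.sub_im]; ring
  have h2 : ((z.re - b.1.re) ^ 2 + (z.im - b.1.im) ^ 2) ≤ b.2 ^ 2 := by
    have : dist z b.1 ^ 2 ≤ b.2 ^ 2 := pow_le_pow_left₀ dist_nonneg hz 2
    refine le_trans (le_of_eq ?_) this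
    rw [dist_eq, Complex.sq_norm, Complex.normSq_apply]
    simp only [Complex.sub_re, Complex.sub_im]; ring
  have h3 : 0 < (z.re - y.re) ^ 2 + (z.im - y.im) ^ 2 := by
    have : 0 < Complex.normSq (z - y) := Complex.normSq_pos.mpr (sub_ne_zero.mpr hne)
    rw [Complex.normSq_apply] at this
    simp only [Complex.sub_re, Complex.sub_im] at this
    nlinarith
  refine lt_of_pow_lt_pow_left₀ 2 dist_nonneg ?_
  rw [dist_eq, Complex.sq_norm, Complex.normSq_apply]
  simp only [Complex.sub_re, Complex.sub_im, Complex.re_ofReal_mul, Complex.im_ofReal_mul]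
  have key : (y.re - ε * (z.re - y.re) - b.1.re) * (y.re - ε * (z.re - y.re) - b.1.re) +
      (y.im - ε * (z.im - y.im) - b.1.im) * (y.im - ε * (z.im - y.im) - b.1.im) =
      (1 + ε) * ((y.re - b.1.re) ^ 2 + (y.im - b.1.im) ^ 2) -
      ε * ((z.re - b.1.re) ^ 2 + (z.im - b.1.im) ^ 2) +
      ε * (1 + ε) * ((z.re - y.re) ^ 2 + (z.im - y.im) ^ 2) := by ring
  rw [key, h1]
  have h4 : ε * ((z.re - b.1.re) ^ 2 + (z.im - b.1.im) ^ 2) ≤ ε * b.2 ^ 2 :=
    mul_le_mul_of_nonneg_left h2 hε.le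
  have h5 : 0 < ε * (1 + ε) * ((z.re - y.re) ^ 2 + (z.im - y.im) ^ 2) := by positivity
  nlinarith

/-- the unbounded region together with the discs -/
def cntV (N : Finset (ℂ × ℝ)) (R : ℝ) : Set ℂ := cl N ∪ {z | R ≤ ‖z‖}

theorem cntO_mem {N : Finset (ℂ × ℝ)} {R : ℝ} {z : ℂ} :
    z ∈ (cntV N R)ᶜ ↔ ‖z‖ < R ∧ ∀ l ∈ N, l.2 < dist z l.1 := by
  unfold cntV cl
  simp only [mem_compl_iff, mem_union, mem_iUnion, mem_closedBall, mem_ofPred_eq, not_or, not_le,
    exists_prop, not_exists, not_and]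
  tauto

theorem cntO_closed (N : Finset (ℂ × ℝ)) (R : ℝ) : IsClosed (cntV N R) := by
  refine IsClosed.union ?_ (isClosed_le continuous_const continuous_norm)
  exact N.finite_toSet.isClosed_biUnion fun b _ => isClosed_closedBall

theorem cntO_bdd (N : Finset (ℂ × ℝ)) (R : ℝ) : Bornology.IsBounded (cntV N R)ᶜ := by
  refine (isBounded_ball (x := (0 : ℂ)) (r := R)).subset fun z hz => ?_
  rw [mem_ball_zero_iff]
  exact (cntO_mem.mp hz).1

/-- near `y` only the discs containing `y` matter -/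
theorem cntO_local (N : Finset (ℂ × ℝ)) {R : ℝ} {y : ℂ} (hy : ‖y‖ < R) :
    ∃ η > 0, ∀ z : ℂ, dist z y < η → ‖z‖ < R ∧ ∀ l ∈ N, dist z l.1 ≤ l.2 → dist y l.1 ≤ l.2 := by
  have h1 : ∀ᶠ z in 𝓝 y, ‖z‖ < R := continuous_norm.continuousAt.eventually (gt_mem_nhds hy)
  have h2 : ∀ᶠ z in 𝓝 y, ∀ l ∈ N, dist z l.1 ≤ l.2 → dist y l.1 ≤ l.2 := by
    rw [Filter.eventually_all_finset]
    intro l hl
    by_cases h : dist y l.1 ≤ l.2
    · exact Filter.Eventually.of_forall fun z _ => h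
    · have h' : l.2 < dist y l.1 := not_le.mp h
      have : ∀ᶠ z in 𝓝 y, l.2 < dist z l.1 :=
        ((continuous_id.dist continuous_const).continuousAt (x := y)).eventually (lt_mem_nhds h')
      filter_upwards [this] with z hz hz'
      exact absurd hz' (not_le.mpr hz)
  obtain ⟨η, hη, h⟩ := Metric.eventually_nhds_iff.mp (h1.and h2)
  exact ⟨η, hη, fun z hz => h hz⟩

/-- a lowest point of the closure of the bounded complementary region -/
structure CntMin (N : Finset (ℂ × ℝ)) (R θ : ℝ) (y : ℂ) : Prop where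
  mem : y ∈ closure (cntV N R)ᶜ
  le : ∀ z ∈ (cntV N R)ᶜ, cntH θ y ≤ cntH θ z

theorem CntMin.out {N : Finset (ℂ × ℝ)} {R θ : ℝ} {y : ℂ} (h : CntMin N R θ y) :
    ∀ l ∈ N, l.2 ≤ dist y l.1 := by
  intro l hl
  have hsub : (cntV N R)ᶜ ⊆ {z | l.2 ≤ dist z l.1} := fun z hz => ((cntO_mem.mp hz).2 l hl).le
  have hcl : IsClosed {z : ℂ | l.2 ≤ dist z l.1} :=
    isClosed_le continuous_const (continuous_id.dist continuous_const)
  exact closure_minimal hsub hcl h.mem

theorem CntMin.norm_lt {N : Finset (ℂ × ℝ)} {R θ : ℝ} {y : ℂ} (h : CntMin N R θ y)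
    (hZ : ∀ z : ℂ, ‖z‖ = R → ∃ b ∈ N, dist z b.1 < b.2) : ‖y‖ < R := by
  have hsub : (cntV N R)ᶜ ⊆ {z | ‖z‖ ≤ R} := fun z hz => (cntO_mem.mp hz).1.le
  have hcl : IsClosed {z : ℂ | ‖z‖ ≤ R} := isClosed_le continuous_norm continuous_const
  have h1 : ‖y‖ ≤ R := closure_minimal hsub hcl h.mem
  rcases h1.eq_or_lt with h2 | h2
  · obtain ⟨b, hb, hb'⟩ := hZ y h2
    exact absurd hb' (not_lt.mpr (h.out b hb))
  · exact h2

/-- small displacement -/
theorem cntO_small (w : ℂ) {η : ℝ} (hη : 0 < η) : ∃ ε : ℝ, 0 < ε ∧ ‖(ε : ℂ) * w‖ < η := by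
  refine ⟨η / (2 * (‖w‖ + 1)), by positivity, ?_⟩
  have h1 : 0 < ‖w‖ + 1 := by positivity
  rw [norm_mul, Complex.norm_real, Real.norm_of_nonneg (by positivity)]
  rw [div_mul_eq_mul_div, div_lt_iff₀ (by positivity)]
  nlinarith [norm_nonneg w]

theorem CntMin.max {N : Finset (ℂ × ℝ)} {R θ : ℝ} {y : ℂ} (h : CntMin N R θ y)
    (hZ : ∀ z : ℂ, ‖z‖ = R → ∃ b ∈ N, dist z b.1 < b.2) {z : ℂ}
    (hz : ∀ l ∈ N, dist y l.1 = l.2 → dist z l.1 ≤ l.2) : cntH θ z ≤ cntH θ y := by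
  by_contra hlt
  rw [not_le] at hlt
  have hne : z ≠ y := fun h => by rw [h] at hlt; exact lt_irrefl _ hlt
  obtain ⟨η, hη, hloc⟩ := cntO_local N (h.norm_lt hZ)
  obtain ⟨ε, hε, hs⟩ := cntO_small (z - y) hη
  set y' := y - (ε : ℂ) * (z - y) with hy'
  have hd : dist y' y < η := by
    rw [dist_eq, hy', sub_sub_cancel_left, norm_neg]; exact hs
  obtain ⟨h1, h2⟩ := hloc y' hd
  have hmem : y' ∈ (cntV N R)ᶜ := by
    rw [cntO_mem]
    refine ⟨h1, fun l hl => ?_⟩
    by_contra hle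
    rw [not_lt] at hle
    have h3 := h2 l hl hle
    have h4 : dist y l.1 = l.2 := le_antisymm h3 (h.out l hl)
    have h5 := cntO_convex h4 (hz l hl h4) hne hε
    exact absurd hle (not_le.mpr h5)
  have h6 := h.le y' hmem
  have h7 : cntH θ y' = cntH θ y - ε * (cntH θ z - cntH θ y) := by
    rw [hy', cntO_sub, cntO_smul, cntO_sub]
  rw [h7] at h6
  nlinarith [mul_pos hε (sub_pos.mpr hlt)]

/-- the lowest point is a crossing point -/
theorem CntMin.cross {N : Finset (ℂ × ℝ)} {R θ : ℝ} {y : ℂ} (h : CntMin N R θ y)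
    (hpos : ∀ b ∈ N, 0 < b.2)
    (hZ : ∀ z : ℂ, ‖z‖ = R → ∃ b ∈ N, dist z b.1 < b.2) :
    ∃ b ∈ N, ∃ b' ∈ N, b ≠ b' ∧ dist y b.1 = b.2 ∧ dist y b'.1 = b'.2 := by
  by_contra hcon
  push Not at hcon
  -- some circle contains y
  obtain ⟨b, hb, hyb⟩ : ∃ b ∈ N, dist y b.1 = b.2 := by
    by_contra hno
    push Not at hno
    have := h.max hZ (z := y + exp (θ * I)) (fun l hl hl' => absurd hl' (hno l hl))
    rw [cntO_add, cntO_exp] at this
    linarith
  have honly : ∀ l ∈ N, dist y l.1 = l.2 → l = b := by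
    intro l hl hl'
    by_contra hne
    exact hcon b hb l hl (fun h => hne h.symm) hyb hl'
  have hbp := hpos b hb
  -- y is the top of b
  have htop : y = top1 θ b := by
    have h1 := h.max hZ (z := top1 θ b) (fun l hl hl' => by
      rw [honly l hl hl']
      unfold top1
      rw [dist_eq, circleMap_sub_center, norm_circleMap_zero, abs_of_pos hbp])
    have h2 := ip_le_top hbp (θ := θ) hyb.le
    exact h2.2 (le_antisymm h2.1 h1)
  obtain ⟨η, hη, hloc⟩ := cntO_local N (h.norm_lt hZ)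
  -- the point y' = y - (ε ^ 2 / (4 r)) e + ε i e
  set e := exp (θ * I) with he
  have hcont : Continuous (fun ε : ℝ =>
      (((-(ε ^ 2 / (4 * b.2)) : ℝ) : ℂ) * e + (ε : ℂ) * (e * I))) := by
    fun_prop
  have h0 : Tendsto (fun ε : ℝ =>
      (((-(ε ^ 2 / (4 * b.2)) : ℝ) : ℂ) * e + (ε : ℂ) * (e * I))) (𝓝[>] 0) (𝓝 0) := by
    have := hcont.tendsto 0
    simp only [ne_eq, OfNat.ofNat_ne_zero, not_false_eq_true, zero_pow, zero_div, neg_zero,
      Complex.ofReal_zero, zero_mul, add_zero] at this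
    exact this.mono_left nhdsWithin_le_nhds
  obtain ⟨ε, hε1, hε⟩ := ((h0.eventually (Metric.ball_mem_nhds 0 hη)).and
    self_mem_nhdsWithin).exists
  rw [dist_zero_right] at hε1
  have hε0 : 0 < ε := hε
  set y' := y + ((((-(ε ^ 2 / (4 * b.2)) : ℝ) : ℂ) * e + (ε : ℂ) * (e * I))) with hy'
  have hd : dist y' y < η := by
    rw [dist_eq, hy', add_sub_cancel_left]; exact hε1
  obtain ⟨h1, h2⟩ := hloc y' hd
  have hh : cntH θ y' = cntH θ y - ε ^ 2 / (4 * b.2) := by
    rw [hy', cntO_add, cntO_add, cntO_smul, cntO_smul, cntO_exp, cntO_expI]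
    ring
  have hfar : b.2 < dist y' b.1 := by
    refine lt_of_pow_lt_pow_left₀ 2 dist_nonneg ?_
    have hre : y.re - b.1.re = b.2 * Real.cos θ := by
      rw [htop]; unfold top1; simp [circleMap, Complex.exp_ofReal_mul_I_re]
    have him : y.im - b.1.im = b.2 * Real.sin θ := by
      rw [htop]; unfold top1; simp [circleMap, Complex.exp_ofReal_mul_I_im]
    rw [dist_eq, Complex.sq_norm, Complex.normSq_apply]
    have hre' : (y' - b.1).re = (b.2 - ε ^ 2 / (4 * b.2)) * Real.cos θ - ε * Real.sin θ := by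
      rw [hy']
      simp only [Complex.sub_re, Complex.add_re, Complex.mul_re, Complex.ofReal_re,
        Complex.ofReal_im, Complex.I_re, Complex.I_im, he, Complex.exp_ofReal_mul_I_re,
        Complex.exp_ofReal_mul_I_im]
      linarith
    have him' : (y' - b.1).im = (b.2 - ε ^ 2 / (4 * b.2)) * Real.sin θ + ε * Real.cos θ := by
      rw [hy']
      simp only [Complex.sub_im, Complex.add_im, Complex.mul_im, Complex.ofReal_re,
        Complex.ofReal_im, Complex.I_re, Complex.I_im, he, Complex.exp_ofReal_mul_I_re,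
        Complex.exp_ofReal_mul_I_im]
      linarith
    rw [hre', him']
    have hsc := Real.sin_sq_add_cos_sq θ
    have key : ((b.2 - ε ^ 2 / (4 * b.2)) * Real.cos θ - ε * Real.sin θ) *
        ((b.2 - ε ^ 2 / (4 * b.2)) * Real.cos θ - ε * Real.sin θ) +
        ((b.2 - ε ^ 2 / (4 * b.2)) * Real.sin θ + ε * Real.cos θ) *
        ((b.2 - ε ^ 2 / (4 * b.2)) * Real.sin θ + ε * Real.cos θ) =
        ((b.2 - ε ^ 2 / (4 * b.2)) ^ 2 + ε ^ 2) * (Real.sin θ ^ 2 + Real.cos θ ^ 2) := by ring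
    rw [key, hsc, mul_one]
    have h5 : b.2 * (ε ^ 2 / (4 * b.2)) = ε ^ 2 / 4 := by field_simp
    have h6 : 0 ≤ (ε ^ 2 / (4 * b.2)) ^ 2 := sq_nonneg _
    nlinarith [pow_pos hε0 2]
  have hmem : y' ∈ (cntV N R)ᶜ := by
    rw [cntO_mem]
    refine ⟨h1, fun l hl => ?_⟩
    by_contra hle
    rw [not_lt] at hle
    have h3 := h2 l hl hle
    have h4 : dist y l.1 = l.2 := le_antisymm h3 (h.out l hl)
    rw [honly l hl h4] at hle
    exact absurd hle (not_le.mpr hfar)
  have h6 := h.le y' hmem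
  rw [hh] at h6
  have : 0 < ε ^ 2 / (4 * b.2) := by positivity
  linarith

theorem cntO_exists_min {N : Finset (ℂ × ℝ)} {R : ℝ} (θ : ℝ)
    (hne : ∃ z : ℂ, ‖z‖ < R ∧ z ∉ cl N) : ∃ y, CntMin N R θ y := by
  have hcomp : IsCompact (closure (cntV N R)ᶜ) := (cntO_bdd N R).isCompact_closure
  have hne' : (closure (cntV N R)ᶜ).Nonempty := by
    obtain ⟨z, hz, hz'⟩ := hne
    refine ⟨z, subset_closure ?_⟩
    unfold cntV
    simp only [mem_compl_iff, mem_union, mem_ofPred_eq, not_or, not_le]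
    exact ⟨hz', hz⟩
  obtain ⟨y, hy, hmin⟩ := hcomp.exists_isMinOn hne' (cntO_cont θ).continuousOn
  exact ⟨y, hy, fun z hz => hmin (subset_closure hz)⟩

/-! ### the graph -/

/-- the sets of the nodes -/
def cntC (N : Finset (ℂ × ℝ)) (R : ℝ) (o : Option ↥N) : Set ℂ :=
  o.elim {z | R ≤ ‖z‖} (fun b => closedBall b.1.1 b.1.2)

theorem cntC_none {N : Finset (ℂ × ℝ)} {R : ℝ} {z : ℂ} : z ∈ cntC N R none ↔ R ≤ ‖z‖ := Iff.rfl

theorem cntC_some {N : Finset (ℂ × ℝ)} {R : ℝ} {b : ↥N} {z : ℂ} :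
    z ∈ cntC N R (some b) ↔ dist z b.1.1 ≤ b.1.2 := Iff.rfl

theorem cntC_closed {N : Finset (ℂ × ℝ)} {R : ℝ} (o : Option ↥N) : IsClosed (cntC N R o) := by
  cases o with
  | none => exact isClosed_le continuous_const continuous_norm
  | some b => exact isClosed_closedBall

theorem cntC_sub {N : Finset (ℂ × ℝ)} {R : ℝ} (o : Option ↥N) : cntC N R o ⊆ cntV N R := by
  intro z hz
  cases o with
  | none => exact Or.inr hz
  | some b =>
    refine Or.inl ?_
    unfold cl
    exact mem_biUnion b.2 hz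

theorem cntC_cov (N : Finset (ℂ × ℝ)) (R : ℝ) : cntV N R ⊆ ⋃ o, cntC N R o := by
  intro z hz
  rcases hz with hz | hz
  · unfold cl at hz
    simp only [mem_iUnion] at hz
    obtain ⟨b, hb, hz⟩ := hz
    exact mem_iUnion.mpr ⟨some ⟨b, hb⟩, hz⟩
  · exact mem_iUnion.mpr ⟨none, hz⟩

theorem cntC_compact {N : Finset (ℂ × ℝ)} {R : ℝ} {a a' : Option ↥N} (h : a ≠ none ∨ a' ≠ none) :
    IsCompact (cntC N R a ∩ cntC N R a') := by
  rcases h with h | h
  · cases a with
    | none => exact absurd rfl h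
    | some b => exact (isCompact_closedBall _ _).inter_right (cntC_closed a')
  · cases a' with
    | none => exact absurd rfl h
    | some b => exact (isCompact_closedBall _ _).inter_left (cntC_closed a)

/-- the weights -/
noncomputable def cntW (N : Finset (ℂ × ℝ)) (R θ : ℝ) (a a' : Option ↥N) : ℝ :=
  sSup (cntH θ '' (cntC N R a ∩ cntC N R a'))

theorem cntW_comm (N : Finset (ℂ × ℝ)) (R θ : ℝ) (a a' : Option ↥N) :
    cntW N R θ a a' = cntW N R θ a' a := by
  unfold cntW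
  rw [inter_comm]

theorem cntW_ge {N : Finset (ℂ × ℝ)} {R θ : ℝ} {a a' : Option ↥N} (h : a ≠ none ∨ a' ≠ none)
    {z : ℂ} (hz : z ∈ cntC N R a) (hz' : z ∈ cntC N R a') : cntH θ z ≤ cntW N R θ a a' :=
  le_csSup ((cntC_compact h).bddAbove_image (cntO_cont θ).continuousOn)
    (mem_image_of_mem _ ⟨hz, hz'⟩)

theorem cntW_eq {N : Finset (ℂ × ℝ)} {R θ : ℝ} {a a' : Option ↥N}
    {z : ℂ} (hz : z ∈ cntC N R a) (hz' : z ∈ cntC N R a')
    (hmax : ∀ y, y ∈ cntC N R a → y ∈ cntC N R a' → cntH θ y ≤ cntH θ z) :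
    cntW N R θ a a' = cntH θ z := by
  refine IsGreatest.csSup_eq ⟨mem_image_of_mem _ ⟨hz, hz'⟩, ?_⟩
  rintro _ ⟨y, hy, rfl⟩
  exact hmax y hy.1 hy.2

theorem cntW_max {N : Finset (ℂ × ℝ)} {R θ : ℝ} {a a' : Option ↥N} (h : a ≠ none ∨ a' ≠ none)
    (hne : (cntC N R a ∩ cntC N R a').Nonempty) :
    ∃ z, z ∈ cntC N R a ∧ z ∈ cntC N R a' ∧
      ∀ y, y ∈ cntC N R a → y ∈ cntC N R a' → cntH θ y ≤ cntH θ z := by
  obtain ⟨z, hz, hmax⟩ := (cntC_compact h).exists_isMaxOn hne (cntO_cont θ).continuousOn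
  exact ⟨z, hz.1, hz.2, fun y hy hy' => hmax ⟨hy, hy'⟩⟩

/-- adjacency -/
def cntA (N : Finset (ℂ × ℝ)) (R : ℝ) (a a' : Option ↥N) : Prop :=
  (cntC N R a ∩ cntC N R a').Nonempty

theorem cntA_nonempty {N : Finset (ℂ × ℝ)} (hpos : ∀ b ∈ N, 0 < b.2) (R : ℝ) (a : Option ↥N) :
    (cntC N R a).Nonempty := by
  cases a with
  | none =>
    refine ⟨((|R| : ℝ) : ℂ), ?_⟩
    rw [cntC_none, Complex.norm_real, Real.norm_eq_abs, abs_abs]
    exact le_abs_self R
  | some b =>
    refine ⟨b.1.1, ?_⟩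
    rw [cntC_some, dist_self]
    exact (hpos b.1 b.2).le

theorem cntA_conn {N : Finset (ℂ × ℝ)} {R : ℝ} (hpos : ∀ b ∈ N, 0 < b.2)
    (hc : IsPreconnected (cntV N R)) (a a' : Option ↥N) :
    Relation.ReflTransGen (cntA N R) a a' := by
  have h1 : ∀ o : Option ↥N, (cntC N R o ∩ cntV N R).Nonempty := by
    intro o
    rw [inter_eq_left.mpr (cntC_sub o)]
    exact cntA_nonempty hpos R o
  exact Relation.ReflTransGen.mono (fun x y hxy => Set.Nonempty.mono inter_subset_left hxy)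
    _ _ (cover_conn cntC_closed hc (cntC_cov N R) (h1 a) (h1 a'))

/-- two heavier edges -/
theorem cnt_path2 {N : Finset (ℂ × ℝ)} {R θ s : ℝ} {a l a' : Option ↥N}
    (h : l ≠ none ∨ (a ≠ none ∧ a' ≠ none)) {y y' : ℂ}
    (hy : y ∈ cntC N R a) (hyl : y ∈ cntC N R l) (hs : s < cntH θ y)
    (hy' : y' ∈ cntC N R l) (hya' : y' ∈ cntC N R a') (hs' : s < cntH θ y') :
    Relation.ReflTransGen (fun x z => cntA N R x z ∧ s < cntW N R θ x z) a a' := by
  have h1 : s < cntW N R θ a l := by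
    refine hs.trans_le (cntW_ge ?_ hy hyl)
    rcases h with h | h
    · exact Or.inr h
    · exact Or.inl h.1
  have h2 : s < cntW N R θ l a' := by
    refine hs'.trans_le (cntW_ge ?_ hy' hya')
    rcases h with h | h
    · exact Or.inl h
    · exact Or.inr h.2
  exact (Relation.ReflTransGen.single ⟨⟨y, hy, hyl⟩, h1⟩).tail ⟨⟨y', hy', hya'⟩, h2⟩

theorem top_dist {θ : ℝ} {b : ℂ × ℝ} (hb : 0 < b.2) : dist (top1 θ b) b.1 = b.2 := by
  unfold top1
  rw [dist_eq, circleMap_sub_center, norm_circleMap_zero, abs_of_pos hb]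

/-- the highest point of `b` is in the interior of the node `j` -/
def cntIn (N : Finset (ℂ × ℝ)) (R θ : ℝ) (b : ↥N) (j : Option ↥N) : Prop :=
  j.elim (R ≤ ‖top1 θ b.1‖) (fun b' => dist (top1 θ b.1) b'.1.1 < b'.1.2)

theorem cntIn_mem {N : Finset (ℂ × ℝ)} {R θ : ℝ} {b : ↥N} {j : Option ↥N}
    (h : cntIn N R θ b j) : top1 θ b.1 ∈ cntC N R j := by
  cases j with
  | none => exact h
  | some b' => exact le_of_lt h

theorem cntIn_weight {N : Finset (ℂ × ℝ)} {R θ : ℝ} (hpos : ∀ b ∈ N, 0 < b.2) {b : ↥N}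
    {j : Option ↥N} (h : cntIn N R θ b j) : cntW N R θ (some b) j = cntH θ (top1 θ b.1) := by
  have hb := hpos b.1 b.2
  refine cntW_eq (cntC_some.mpr (top_dist hb).le) (cntIn_mem h) fun y hy _ => ?_
  exact (ip_le_top hb hy).1

/-- two nodes containing the highest point of `b` in the interior are joined above this point -/
theorem cntIn_path {N : Finset (ℂ × ℝ)} {R θ : ℝ} (hR : 0 < R) {b : ↥N}
    {j k : Option ↥N} (hj : cntIn N R θ b j) (hk : cntIn N R θ b k) (hjk : j ≠ k) :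
    Relation.ReflTransGen (fun x z => cntA N R x z ∧ cntH θ (top1 θ b.1) < cntW N R θ x z) j k := by
  cases j with
  | none =>
    cases k with
    | none => exact absurd rfl hjk
    | some c =>
      obtain ⟨y, hyU, hyR, hlt⟩ := ext_up hR (θ := θ) hj (isOpen_ball (x := c.1.1) (ε := c.1.2))
        (mem_ball.mpr hk)
      have hyc : y ∈ cntC N R (some c) := cntC_some.mpr (mem_ball.mp hyU).le
      refine Relation.ReflTransGen.single ⟨⟨y, hyR, hyc⟩, hlt.trans_le (cntW_ge ?_ hyR hyc)⟩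
      exact Or.inr (Option.some_ne_none c)
  | some c =>
    cases k with
    | none =>
      obtain ⟨y, hyU, hyR, hlt⟩ := ext_up hR (θ := θ) hk (isOpen_ball (x := c.1.1) (ε := c.1.2))
        (mem_ball.mpr hj)
      have hyc : y ∈ cntC N R (some c) := cntC_some.mpr (mem_ball.mp hyU).le
      refine Relation.ReflTransGen.single ⟨⟨y, hyc, hyR⟩, hlt.trans_le (cntW_ge ?_ hyc hyR)⟩
      exact Or.inl (Option.some_ne_none c)
    | some d =>
      obtain ⟨y, hyU, hlt⟩ := lift2 (θ := θ) (x := top1 θ b.1)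
        ((isOpen_ball (x := c.1.1) (ε := c.1.2)).inter (isOpen_ball (x := d.1.1) (ε := d.1.2)))
        ⟨mem_ball.mpr hj, mem_ball.mpr hk⟩
      have hyc : y ∈ cntC N R (some c) := cntC_some.mpr (mem_ball.mp hyU.1).le
      have hyd : y ∈ cntC N R (some d) := cntC_some.mpr (mem_ball.mp hyU.2).le
      refine Relation.ReflTransGen.single ⟨⟨y, hyc, hyd⟩, hlt.trans_le (cntW_ge ?_ hyc hyd)⟩
      exact Or.inl (Option.some_ne_none c)

/-- a covered node is not a top -/
theorem cntIn_not_top {N : Finset (ℂ × ℝ)} {R θ : ℝ} {b : ↥N} {j : Option ↥N}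
    (hj : cntIn N R θ b j) (hjb : some b ≠ j) : b.1 ∉ tops N (fun z => ‖z‖ < R) θ := by
  classical
  unfold tops
  rw [Finset.mem_filter]
  rintro ⟨_, h1, h2⟩
  cases j with
  | none => exact absurd h1 (not_lt.mpr hj)
  | some c =>
    have hne : c.1 ≠ b.1 := fun h => hjb (by rw [Subtype.ext h])
    exact absurd (h2 c.1 c.2 hne) (not_lt.mpr (le_of_lt hj))

/-- a disc whose highest point is inside `ball 0 R` is joined to the exterior above every common
point -/
theorem cnt_edge_none {N : Finset (ℂ × ℝ)} {R θ : ℝ} (hR : 0 < R) (hpos : ∀ b ∈ N, 0 < b.2)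
    (hZ : ∀ z : ℂ, ‖z‖ = R → ∃ b ∈ N, dist z b.1 < b.2) {b : ↥N} (htop : ‖top1 θ b.1‖ < R)
    (hadj : cntA N R (some b) none) :
    Relation.ReflTransGen (fun x z => cntA N R x z ∧
      cntW N R θ (some b) none < cntW N R θ x z) (some b) none := by
  have hb := hpos b.1 b.2
  obtain ⟨x, hxb, hxR, hmax⟩ := cntW_max (θ := θ) (Or.inl (Option.some_ne_none b)) hadj
  have hw : cntW N R θ (some b) none = cntH θ x := cntW_eq hxb hxR hmax
  have hxR' : R ≤ ‖x‖ := hxR
  have hne : x ≠ top1 θ b.1 := fun h => by rw [h] at hxR'; exact absurd htop (not_lt.mpr hxR')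
  have hxeq : ‖x‖ = R := by
    rcases hxR'.eq_or_lt with h | h
    · exact h.symm
    · obtain ⟨y, hyU, hyb, hlt⟩ := lift1 hb (θ := θ) hxb hne
        (U := {z : ℂ | R < ‖z‖}) (isOpen_lt continuous_const continuous_norm) h
      have hyU' : R < ‖y‖ := hyU
      exact absurd (hmax y hyb (cntC_none.mpr hyU'.le)) (not_le.mpr hlt)
  obtain ⟨l, hl, hxl⟩ := hZ x hxeq
  rw [hw]
  by_cases hlb : l = b.1
  · exfalso
    obtain ⟨y, hyU, hyR, hlt⟩ := ext_up hR (θ := θ) hxR' (isOpen_ball (x := l.1) (ε := l.2))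
      (mem_ball.mpr hxl)
    have hyb : y ∈ cntC N R (some b) := by
      rw [cntC_some, ← hlb]; exact (mem_ball.mp hyU).le
    exact absurd (hmax y hyb hyR) (not_le.mpr hlt)
  · obtain ⟨y, hyU, hyb, hlt⟩ := lift1 hb (θ := θ) hxb hne
      (isOpen_ball (x := l.1) (ε := l.2)) (mem_ball.mpr hxl)
    obtain ⟨y', hyU', hyR', hlt'⟩ := ext_up hR (θ := θ) hxR' (isOpen_ball (x := l.1) (ε := l.2))
      (mem_ball.mpr hxl)
    exact cnt_path2 (l := some ⟨l, hl⟩) (Or.inl (Option.some_ne_none _)) hyb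
      (cntC_some.mpr (mem_ball.mp hyU).le) hlt (cntC_some.mpr (mem_ball.mp hyU').le) hyR' hlt'

/-- two discs without covered tops: either a merging corner or a heavier path -/
theorem cnt_edge_some {N : Finset (ℂ × ℝ)} {R θ : ℝ} (hpos : ∀ b ∈ N, 0 < b.2)
    (hZ : ∀ z : ℂ, ‖z‖ = R → ∃ b ∈ N, dist z b.1 < b.2) {b b' : ↥N} (hbb : b ≠ b')
    (h1 : b'.1.2 < dist (top1 θ b.1) b'.1.1) (h2 : b.1.2 < dist (top1 θ b'.1) b.1.1)
    (hadj : cntA N R (some b) (some b'))
    (hno : ¬ Relation.ReflTransGen (fun x z => cntA N R x z ∧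
      cntW N R θ (some b) (some b') < cntW N R θ x z) (some b) (some b')) :
    (b.1, b'.1) ∈ mrg N (fun z => ‖z‖ < R) θ := by
  classical
  have hb := hpos b.1 b.2
  have hb' := hpos b'.1 b'.2
  obtain ⟨z, hz, hz'⟩ := hadj
  obtain ⟨x, hx, hx', hmax⟩ := lens_max hb hb' (θ := θ) ⟨z, hz, hz'⟩ h1 h2
  have hw : cntW N R θ (some b) (some b') = cntH θ x :=
    cntW_eq (cntC_some.mpr hx.le) (cntC_some.mpr hx'.le) fun y hy hy' => hmax y hy hy'
  rw [hw] at hno
  have hne : x ≠ top1 θ b.1 := fun h => by rw [← h, hx'] at h1; exact lt_irrefl _ h1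
  have hne' : x ≠ top1 θ b'.1 := fun h => by rw [← h, hx] at h2; exact lt_irrefl _ h2
  have hout : ∀ l ∈ N, l.2 ≤ dist x l.1 := by
    intro l hl
    by_contra hlt
    rw [not_le] at hlt
    obtain ⟨y, hyU, hyb, hlt1⟩ := lift1 hb (θ := θ) hx.le hne
      (isOpen_ball (x := l.1) (ε := l.2)) (mem_ball.mpr hlt)
    obtain ⟨y', hyU', hyb', hlt2⟩ := lift1 hb' (θ := θ) hx'.le hne'
      (isOpen_ball (x := l.1) (ε := l.2)) (mem_ball.mpr hlt)
    exact hno (cnt_path2 (l := some ⟨l, hl⟩) (Or.inl (Option.some_ne_none _)) hyb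
      (cntC_some.mpr (mem_ball.mp hyU).le) hlt1 (cntC_some.mpr (mem_ball.mp hyU').le) hyb' hlt2)
  have hlt : ‖x‖ < R := by
    by_contra hge
    rw [not_lt] at hge
    rcases hge.eq_or_lt with h | h
    · obtain ⟨l, hl, hxl⟩ := hZ x h.symm
      exact absurd (hout l hl) (not_le.mpr hxl)
    · obtain ⟨y, hyU, hyb, hlt1⟩ := lift1 hb (θ := θ) hx.le hne
        (U := {z : ℂ | R < ‖z‖}) (isOpen_lt continuous_const continuous_norm) h
      obtain ⟨y', hyU', hyb', hlt2⟩ := lift1 hb' (θ := θ) hx'.le hne'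
        (U := {z : ℂ | R < ‖z‖}) (isOpen_lt continuous_const continuous_norm) h
      have hyR : R < ‖y‖ := hyU
      have hyR' : R < ‖y'‖ := hyU'
      exact hno (cnt_path2 (l := none) (Or.inr ⟨Option.some_ne_none _, Option.some_ne_none _⟩)
        hyb (cntC_none.mpr hyR.le) hlt1 (cntC_none.mpr hyR'.le) hyb' hlt2)
  unfold mrg
  rw [Finset.mem_filter, Finset.mem_product]
  exact ⟨⟨b.2, b'.2⟩, fun h => hbb (Subtype.ext h), x, h1, h2, hx, hx', hmax, hlt, hout⟩

theorem mrg_symm {N : Finset (ℂ × ℝ)} {O : ℂ → Prop} {θ : ℝ} {b b' : ℂ × ℝ}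
    (h : (b, b') ∈ mrg N O θ) : (b', b) ∈ mrg N O θ := by
  classical
  unfold mrg at h ⊢
  rw [Finset.mem_filter, Finset.mem_product] at h ⊢
  obtain ⟨⟨h1, h2⟩, h3, x, h4, h5, h6, h7, h8, h9⟩ := h
  exact ⟨⟨h2, h1⟩, h3.symm, x, h5, h4, h7, h6, fun y hy hy' => h8 y hy' hy, h9⟩

theorem mrg_ne {N : Finset (ℂ × ℝ)} {O : ℂ → Prop} {θ : ℝ} {b b' : ℂ × ℝ}
    (h : (b, b') ∈ mrg N O θ) : b ≠ b' := by
  classical
  unfold mrg at h
  rw [Finset.mem_filter] at h
  exact h.2.1

theorem cnt_noloop {α : Type*} {r p : α → α → Prop} (h : ∀ a b, r a b → a ≠ b → p a b) {a b : α}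
    (hab : Relation.ReflTransGen r a b) : Relation.ReflTransGen p a b := by
  classical
  induction hab with
  | refl => exact Relation.ReflTransGen.refl
  | @tail x y _ hbc ih =>
    by_cases hxy : x = y
    · rw [← hxy]; exact ih
    · exact ih.tail (h x y hbc hxy)

/-- the two discs of the lowest point -/
theorem cnt_extra {N : Finset (ℂ × ℝ)} {R : ℝ} (hpos : ∀ b ∈ N, 0 < b.2)
    (hc : IsPreconnected (cntV N R))
    (hZ : ∀ z : ℂ, ‖z‖ = R → ∃ b ∈ N, dist z b.1 < b.2)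
    (hne : ∃ z : ℂ, ‖z‖ < R ∧ z ∉ cl N) {θ : ℝ} (hg : GenDir N θ)
    (h2 : ∀ x : ℂ, ‖x‖ < R → (∀ l ∈ N, l.2 ≤ dist x l.1) →
      (∀ b ∈ N, ∀ b' ∈ N, b ≠ b' → dist x b.1 = b.2 → dist x b'.1 = b'.2 →
        |b.2 - b'.2| < dist b.1 b'.1 ∧ dist b.1 b'.1 < b.2 + b'.2) ∧
      (∀ b ∈ N, ∀ b' ∈ N, ∀ l ∈ N, b ≠ b' → b' ≠ l → b ≠ l →
        ¬ (dist x b.1 = b.2 ∧ dist x b'.1 = b'.2 ∧ dist x l.1 = l.2)))
    (h3 : ∀ x y : ℂ, x ≠ y →
      (∃ b ∈ N, ∃ b' ∈ N, b ≠ b' ∧ dist x b.1 = b.2 ∧ dist x b'.1 = b'.2) →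
      (∃ b ∈ N, ∃ b' ∈ N, b ≠ b' ∧ dist y b.1 = b.2 ∧ dist y b'.1 = b'.2) →
      ip (exp (θ * I)) x ≠ ip (exp (θ * I)) y) :
    ∃ b b' : ↥N, (b.1, b'.1) ∈ mrg N (fun z => ‖z‖ < R) θ ∧
      Relation.ReflTransGen (fun x z => cntA N R x z ∧
        cntW N R θ (some b) (some b') < cntW N R θ x z) (some b) (some b') := by
  classical
  obtain ⟨y, hmin⟩ := cntO_exists_min θ hne
  obtain ⟨b, hb, b', hb', hbb, hyb, hyb'⟩ := hmin.cross hpos hZ
  have hbp := hpos b hb
  have hbp' := hpos b' hb'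
  have hyR := hmin.norm_lt hZ
  have hout := hmin.out
  obtain ⟨hcross, htrip⟩ := h2 y hyR hout
  have hS : ∀ l ∈ N, dist y l.1 = l.2 → l = b ∨ l = b' := by
    intro l hl hyl
    by_contra hcon
    rw [not_or] at hcon
    exact htrip b hb b' hb' l hl hbb (fun h => hcon.2 h.symm) (fun h => hcon.1 h.symm)
      ⟨hyb, hyb', hyl⟩
  have hmax : ∀ z, dist z b.1 ≤ b.2 → dist z b'.1 ≤ b'.2 → cntH θ z ≤ cntH θ y := by
    intro z hz hz'
    refine hmin.max hZ fun l hl hyl => ?_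
    rcases hS l hl hyl with h | h
    · rw [h]; exact hz
    · rw [h]; exact hz'
  have hnt : y ≠ top1 θ b := fun h => hg b hb b' hb' hbb (by rw [← h]; exact hyb')
  have hnt' : y ≠ top1 θ b' := fun h => hg b' hb' b hb hbb.symm (by rw [← h]; exact hyb)
  have ht : b'.2 < dist (top1 θ b) b'.1 := by
    by_contra hle
    rw [not_lt] at hle
    have h4 := hmax _ (top_dist (θ := θ) hbp).le hle
    have h5 := ip_le_top hbp (θ := θ) hyb.le
    exact hnt (h5.2 (le_antisymm h5.1 h4))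
  have ht' : b.2 < dist (top1 θ b') b.1 := by
    by_contra hle
    rw [not_lt] at hle
    have h4 := hmax _ hle (top_dist (θ := θ) hbp').le
    have h5 := ip_le_top hbp' (θ := θ) hyb'.le
    exact hnt' (h5.2 (le_antisymm h5.1 h4))
  have hmrg : (b, b') ∈ mrg N (fun z => ‖z‖ < R) θ := by
    unfold mrg
    rw [Finset.mem_filter, Finset.mem_product]
    exact ⟨⟨hb, hb'⟩, hbb, y, ht, ht', hyb, hyb', hmax, hyR, hout⟩
  -- a point of both open discs
  obtain ⟨z0, hz0, hz0'⟩ : ∃ z0, dist z0 b.1 < b.2 ∧ dist z0 b'.1 < b'.2 := by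
    have h4 := (hcross b hb b' hb' hbb hyb hyb').2
    have h5 : ¬ Disjoint (ball b.1 b.2) (ball b'.1 b'.2) := by
      rw [disjoint_ball_ball_iff hbp hbp', not_le]
      exact h4
    rw [Set.not_disjoint_iff] at h5
    obtain ⟨z, hz, hz'⟩ := h5
    exact ⟨z, hz, hz'⟩
  have hz0y : cntH θ z0 ≤ cntH θ y := hmax z0 hz0.le hz0'.le
  -- the line through y meets the open disc
  have hline : ∀ c : ℂ × ℝ, 0 < c.2 → dist y c.1 = c.2 → y ≠ top1 θ c → dist z0 c.1 < c.2 →
      ∃ z, dist z c.1 < c.2 ∧ ip (exp (θ * I)) z = ip (exp (θ * I)) y := by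
    intro c hc0 hyc hnc hzc
    have h5 := ip_le_top hc0 (θ := θ) hyc.le
    have htc : cntH θ (top1 θ c) = cntH θ c.1 + c.2 := by
      have : top1 θ c = c.1 + (c.2 : ℂ) * exp (θ * I) := by
        unfold top1; rfl
      rw [this, cntO_add, cntO_smul, cntO_exp, mul_one]
    have h6 : cntH θ y < cntH θ c.1 + c.2 := by
      rw [← htc]
      exact lt_of_le_of_ne h5.1 fun h => hnc (h5.2 h)
    have h7 : cntH θ c.1 - c.2 < cntH θ y := by
      have h8 := (cntO_dist θ z0 c.1).trans_lt hzc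
      have := abs_lt.mp h8
      linarith
    refine ⟨c.1 + ((cntH θ y - cntH θ c.1 : ℝ) : ℂ) * exp (θ * I), ?_, ?_⟩
    · rw [dist_eq, add_sub_cancel_left, norm_mul, Complex.norm_exp_ofReal_mul_I, mul_one,
        Complex.norm_real, Real.norm_eq_abs, abs_lt]
      constructor <;> linarith
    · show cntH θ _ = cntH θ y
      rw [cntO_add, cntO_smul, cntO_exp]
      ring
  have hlow : ∀ z ∈ closure (cntV N R)ᶜ, z ≠ y → ip (exp (θ * I)) y < ip (exp (θ * I)) z := by
    intro z hz hzy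
    have hcl : IsClosed {z : ℂ | cntH θ y ≤ cntH θ z} :=
      isClosed_le continuous_const (cntO_cont θ)
    have h4 : cntH θ y ≤ cntH θ z := closure_minimal (fun w hw => hmin.le w hw) hcl hz
    rcases h4.eq_or_lt with h5 | h5
    · exfalso
      have hmin' : CntMin N R θ z := ⟨hz, fun w hw => by rw [← h5]; exact hmin.le w hw⟩
      exact h3 y z hzy.symm ⟨b, hb, b', hb', hbb, hyb, hyb'⟩ (hmin'.cross hpos hZ) h5
    · exact h5
  have hloc : ∃ η > 0, ∀ z ∈ cntV N R, dist z y < η →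
      ip (exp (θ * I)) y < ip (exp (θ * I)) z → z ∈ closedBall b.1 b.2 ∪ closedBall b'.1 b'.2 := by
    obtain ⟨η, hη, h4⟩ := cntO_local N hyR
    refine ⟨η, hη, fun z hz hd _ => ?_⟩
    obtain ⟨h5, h6⟩ := h4 z hd
    rcases hz with hz | hz
    · unfold cl at hz
      simp only [mem_iUnion] at hz
      obtain ⟨l, hl, hz⟩ := hz
      have h7 := h6 l hl hz
      rcases hS l hl (le_antisymm h7 (hout l hl)) with h | h
      · left; rw [← h]; exact hz
      · right; rw [← h]; exact hz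
    · exact absurd h5 (not_lt.mpr hz)
  have hsub : ∀ c ∈ N, closedBall c.1 c.2 ⊆ cntV N R := by
    intro c hc z hz
    refine Or.inl ?_
    unfold cl
    exact mem_biUnion hc hz
  have hval := valley (cntO_closed N R) hc (cntO_bdd N R) hlow hmin.mem (hsub b hb) (hsub b' hb')
    hyb hyb' hloc (hline b hbp hyb hnt hz0) (hline b' hbp' hyb' hnt' hz0')
  refine ⟨⟨b, hb⟩, ⟨b', hb'⟩, hmrg, ?_⟩
  have hw : cntW N R θ (some ⟨b, hb⟩) (some ⟨b', hb'⟩) = cntH θ y :=
    cntW_eq (cntC_some.mpr hyb.le) (cntC_some.mpr hyb'.le) fun z hz hz' => hmax z hz hz'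
  rw [hw]
  have htopmem : ∀ c : ↥N, y ≠ top1 θ c.1 → dist y c.1.1 = c.1.2 →
      (cntC N R (some c) ∩ (cntV N R ∩ {z | ip (exp (θ * I)) y < ip (exp (θ * I)) z})).Nonempty := by
    intro c hnc hyc
    have hcp := hpos c.1 c.2
    have h5 := ip_le_top hcp (θ := θ) hyc.le
    refine ⟨top1 θ c.1, cntC_some.mpr (top_dist hcp).le,
      cntC_sub (some c) (cntC_some.mpr (top_dist hcp).le), ?_⟩
    exact lt_of_le_of_ne h5.1 fun h => hnc (h5.2 h)
  have hcc := cover_conn (C := cntC N R) cntC_closed hval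
    (inter_subset_left.trans (cntC_cov N R)) (htopmem ⟨b, hb⟩ hnt hyb) (htopmem ⟨b', hb'⟩ hnt' hyb')
  refine cnt_noloop ?_ hcc
  rintro a a' ⟨z, ⟨hza, hza'⟩, _, hzy⟩ haa
  refine ⟨⟨z, hza, hza'⟩, lt_of_lt_of_le hzy (cntW_ge ?_ hza hza')⟩
  by_contra hcon
  rw [not_or, not_not, not_not] at hcon
  exact haa (hcon.1.trans hcon.2.symm)

end CntO

open CntO in
theorem cnt_outer {N : Finset (ℂ × ℝ)} {R : ℝ} (hR : 0 < R) (hpos : ∀ b ∈ N, 0 < b.2)
    (hc : IsPreconnected (cl N ∪ {z | R ≤ ‖z‖}))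
    (hZ : ∀ z : ℂ, ‖z‖ = R → ∃ b ∈ N, dist z b.1 < b.2)
    (hne : ∃ z : ℂ, ‖z‖ < R ∧ z ∉ cl N) {θ : ℝ} (hg : GenDir N θ)
    (h2 : ∀ x : ℂ, ‖x‖ < R → (∀ l ∈ N, l.2 ≤ dist x l.1) →
      (∀ b ∈ N, ∀ b' ∈ N, b ≠ b' → dist x b.1 = b.2 → dist x b'.1 = b'.2 →
        |b.2 - b'.2| < dist b.1 b'.1 ∧ dist b.1 b'.1 < b.2 + b'.2) ∧
      (∀ b ∈ N, ∀ b' ∈ N, ∀ l ∈ N, b ≠ b' → b' ≠ l → b ≠ l →
        ¬ (dist x b.1 = b.2 ∧ dist x b'.1 = b'.2 ∧ dist x l.1 = l.2)))
    (h3 : ∀ x y : ℂ, x ≠ y →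
      (∃ b ∈ N, ∃ b' ∈ N, b ≠ b' ∧ dist x b.1 = b.2 ∧ dist x b'.1 = b'.2) →
      (∃ b ∈ N, ∃ b' ∈ N, b ≠ b' ∧ dist y b.1 = b.2 ∧ dist y b'.1 = b'.2) →
      ip (exp (θ * I)) x ≠ ip (exp (θ * I)) y) :
    2 * (tops N (fun z => ‖z‖ < R) θ).card + 2 ≤ (mrg N (fun z => ‖z‖ < R) θ).card := by
  classical
  have hc' : IsPreconnected (cntV N R) := hc
  obtain ⟨b₀, b₀', hmrg₀, hpath₀⟩ := cnt_extra hpos hc' hZ hne hg h2 h3
  obtain ⟨T, hT1, hT2, hT3⟩ := kruskal (cntA N R) (fun a b h => by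
    unfold cntA at h ⊢; rwa [inter_comm]) (cntW N R θ) (cntW_comm N R θ) (cntA_conn hpos hc')
  set M := mrg N (fun z => ‖z‖ < R) θ with hM
  set Tp := tops N (fun z => ‖z‖ < R) θ with hTp
  set Mp : Finset (Sym2 (ℂ × ℝ)) := M.image (fun c => s(c.1, c.2)) with hMp
  -- edges covered by a highest point
  set rA : Sym2 (Option ↥N) → ℂ × ℝ → Prop := fun e c =>
    ∃ (b : ↥N) (j : Option ↥N), b.1 = c ∧ e = s(some b, j) ∧ some b ≠ j ∧ cntIn N R θ b j with hrA
  set TA := T.filter (fun e => ∃ c, rA e c) with hTA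
  set TC := T.filter (fun e => ¬ ∃ c, rA e c) with hTC
  have hTcard : TA.card + TC.card = T.card := Finset.card_filter_add_card_filter_not _
  have hA : TA.card ≤ (N \ Tp).card := by
    refine Finset.card_le_card_of_forall_subsingleton rA ?_ ?_
    · intro e he
      obtain ⟨c, b, j, hbc, he', hbj, hin⟩ := (Finset.mem_filter.mp he).2
      refine ⟨c, ?_, b, j, hbc, he', hbj, hin⟩
      rw [← hbc, Finset.mem_sdiff]
      exact ⟨b.2, cntIn_not_top hin hbj⟩
    · rintro c hcc e ⟨he, b, j, hbc, he', hbj, hin⟩ e' ⟨hee, d, k, hdc, hee', hdk, hink⟩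
      have hbd : b = d := Subtype.ext (hbc.trans hdc.symm)
      subst hbd
      have heT : e ∈ T := (Finset.mem_filter.mp he).1
      have heT' : e' ∈ T := (Finset.mem_filter.mp hee).1
      rw [he'] at heT ⊢
      rw [hee'] at heT' ⊢
      by_contra hne'
      have hjk : j ≠ k := fun h => hne' (by rw [h])
      have hw1 := cntIn_weight hpos hin
      have hw2 := cntIn_weight hpos hink
      refine hT3 (some b) j k heT heT' hjk (by rw [hw1, hw2]) ?_
      rw [hw1]
      exact cntIn_path hR hin hink hjk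
  have hC : TC.card ≤ (Mp.erase s(b₀.1, b₀'.1)).card := by
    refine Finset.card_le_card_of_forall_subsingleton (fun (e : Sym2 (Option ↥N))
      (q : Sym2 (ℂ × ℝ)) => ∃ b b' : ↥N, e = s(some b, some b') ∧ q = s(b.1, b'.1)) ?_ ?_
    · intro e he
      obtain ⟨heT, hno⟩ := Finset.mem_filter.mp he
      induction e using Sym2.ind with
      | _ a a' =>
      obtain ⟨haa, hadj, hnp⟩ := hT2 a a' heT
      -- no end is none
      have hnone : ∀ b : ↥N, s(some b, none) ∈ T → (¬ ∃ c, rA s(some b, none) c) → False := by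
        intro b hbT hno'
        obtain ⟨_, hadj', hnp'⟩ := hT2 (some b) none hbT
        have htop : ‖top1 θ b.1‖ < R := by
          by_contra hge
          exact hno' ⟨b.1, b, none, rfl, rfl, Option.some_ne_none b, not_lt.mp hge⟩
        exact hnp' (cnt_edge_none hR hpos hZ htop hadj')
      cases a with
      | none =>
        cases a' with
        | none => exact absurd rfl haa
        | some b =>
          rw [Sym2.eq_swap] at heT hno
          exact (hnone b heT hno).elim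
      | some b =>
        cases a' with
        | none => exact (hnone b heT hno).elim
        | some b' =>
          have hbb : b ≠ b' := fun h => haa (by rw [h])
          have hbb1 : b.1 ≠ b'.1 := fun h => hbb (Subtype.ext h)
          have h5 : b'.1.2 < dist (top1 θ b.1) b'.1.1 := by
            rcases lt_trichotomy (dist (top1 θ b.1) b'.1.1) b'.1.2 with h | h | h
            · exact (hno ⟨b.1, b, some b', rfl, rfl, haa, h⟩).elim
            · exact (hg b.1 b.2 b'.1 b'.2 hbb1 h).elim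
            · exact h
          have h6 : b.1.2 < dist (top1 θ b'.1) b.1.1 := by
            rcases lt_trichotomy (dist (top1 θ b'.1) b.1.1) b.1.2 with h | h | h
            · exact (hno ⟨b'.1, b', some b, rfl, Sym2.eq_swap, haa.symm, h⟩).elim
            · exact (hg b'.1 b'.2 b.1 b.2 hbb1.symm h).elim
            · exact h
          have h7 := cnt_edge_some hpos hZ hbb h5 h6 hadj hnp
          refine ⟨s(b.1, b'.1), ?_, b, b', rfl, rfl⟩
          rw [Finset.mem_erase]
          refine ⟨fun h8 => ?_, Finset.mem_image.mpr ⟨(b.1, b'.1), h7, rfl⟩⟩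
          rcases Sym2.eq_iff.mp h8 with ⟨h9, h10⟩ | ⟨h9, h10⟩
          · have e1 : b = b₀ := Subtype.ext h9
            have e2 : b' = b₀' := Subtype.ext h10
            rw [e1, e2] at hnp
            exact hnp hpath₀
          · have e1 : b = b₀' := Subtype.ext h9
            have e2 : b' = b₀ := Subtype.ext h10
            rw [e1, e2] at heT
            rw [Sym2.eq_swap] at heT
            exact (hT2 _ _ heT).2.2 hpath₀
    · rintro q hq e ⟨he, b, b', he', hqe⟩ e' ⟨hee, d, d', hee', hqe'⟩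
      rw [he', hee']
      rw [hqe] at hqe'
      rcases Sym2.eq_iff.mp hqe' with ⟨h9, h10⟩ | ⟨h9, h10⟩
      · have e1 : b = d := Subtype.ext h9
        have e2 : b' = d' := Subtype.ext h10
        rw [e1, e2]
      · have e1 : b = d' := Subtype.ext h9
        have e2 : b' = d := Subtype.ext h10
        rw [e1, e2, Sym2.eq_swap]
  have hmem₀ : s(b₀.1, b₀'.1) ∈ Mp := Finset.mem_image.mpr ⟨(b₀.1, b₀'.1), hmrg₀, rfl⟩
  have hC' : TC.card + 1 ≤ Mp.card := by
    rw [Finset.card_erase_of_mem hmem₀] at hC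
    have : 0 < Mp.card := Finset.card_pos.mpr ⟨_, hmem₀⟩
    omega
  have hMM : 2 * Mp.card ≤ M.card := by
    refine Finset.mul_card_image_le_card _ 2 ?_
    intro q hq
    obtain ⟨⟨c, c'⟩, hcM, hcq⟩ := Finset.mem_image.mp hq
    have hne' : c ≠ c' := mrg_ne hcM
    have hpair : ({(c, c'), (c', c)} : Finset ((ℂ × ℝ) × (ℂ × ℝ))) ⊆
        M.filter (fun a => s(a.1, a.2) = q) := by
      intro a ha
      rw [Finset.mem_insert, Finset.mem_singleton] at ha
      rw [Finset.mem_filter]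
      rcases ha with ha | ha
      · rw [ha]; exact ⟨hcM, hcq⟩
      · rw [ha]; exact ⟨mrg_symm hcM, by rw [← hcq]; exact Sym2.eq_swap⟩
    have hcard : ({(c, c'), (c', c)} : Finset ((ℂ × ℝ) × (ℂ × ℝ))).card = 2 := by
      refine Finset.card_pair fun h => hne' ?_
      exact (Prod.mk.inj h).1
    rw [← hcard]
    exact Finset.card_le_card hpair
  have hsub : Tp ⊆ N := by
    rw [hTp]; unfold tops; exact Finset.filter_subset _ _
  have hsd : (N \ Tp).card + Tp.card = N.card := Finset.card_sdiff_add_card_eq_card hsub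
  have hcardN : Fintype.card (Option ↥N) = N.card + 1 := by
    rw [Fintype.card_option, Fintype.card_coe]
  rw [hcardN] at hT1
  omega

end Pool.Agent.FKM
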