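import Mathlib
import Pool.Agent.Helper13.FKM.Basic
import Pool.Agent.Helper13.FKM.PartL
import Pool.Agent.Helper13.FKM.BesA

/-!
FKM-28: the functional and the components of `D`.

Plan. The components of the open set D are countably many, pairwise disjoint open sets D_i (index them by a
countable dense subset or by the set of components, countable because ℂ is second countable). ∫_D P is the
sum of the ∫_{D_i} P (|P| ≤ C, |D| finite), |D| = ∑ |D_i|. For b ∈ F the sets expo D_i b are pairwise disjoint
up to a finite set and contained in expo D b: if x on the circle b is in closure D_i and closure D_j and on no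
other circle of F then the points x + s e^{iθ'} near x outside the disc b form a connected subset of the
complement of cl F, so they are in one component. So ∑_i bInt F D_i g ≤ bInt F D g, and aF E |D_i| ≤ aF E |D|
(aF_mono). Sum the inequalities (all sums converge absolutely).
-/

set_option autoImplicit false

open Complex MeasureTheory Set Metric Filter
open scoped ComplexConjugate Topology

namespace Pool.Agent.FKM

/-- near a point of the circle `b` which is on no other circle, the complement of the discs is connected -/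
private theorem same_comp {F : Finset (ℂ × ℝ)} {D : Set ℂ} (h : Reg F D) {b : ℂ × ℝ} (hb : b ∈ F)
    {θ : ℝ} {z z' : ℂ} (hz : z ∈ D) (hz' : z' ∈ D)
    (h1 : circleMap b.1 b.2 θ ∈ closure (connectedComponentIn D z))
    (h2 : circleMap b.1 b.2 θ ∈ closure (connectedComponentIn D z'))
    (hno : ∀ b' ∈ F, b' ≠ b → dist (circleMap b.1 b.2 θ) b'.1 ≠ b'.2) :
    connectedComponentIn D z = connectedComponentIn D z' := by
  classical
  set x := circleMap b.1 b.2 θ with hx
  have hr : 0 < b.2 := h.pos b hb
  set f : ℂ → ℂ := fun w => b.1 + exp w with hf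
  have hfc : Continuous f := continuous_const.add Complex.continuous_exp
  have hfo : IsOpenMap f := (isOpenMap_add_left b.1).comp Complex.isOpenMap_exp
  set w0 : ℂ := (Real.log b.2 : ℂ) + θ * I with hw0
  have hfw0 : f w0 = x := by
    simp only [hf, hw0, hx, circleMap, Complex.exp_add]
    rw [← Complex.ofReal_exp, Real.exp_log hr]
  -- the complement of the other discs
  set O : Set ℂ := (⋃ b' ∈ F.erase b, closedBall b'.1 b'.2)ᶜ with hO
  have hOo : IsOpen O := by
    rw [hO, isOpen_compl_iff]
    exact (F.erase b).finite_toSet.isClosed_biUnion (fun b' _ => isClosed_closedBall)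
  have hxD : x ∈ closure D := closure_mono (connectedComponentIn_subset D z) h1
  have hxO : x ∈ O := by
    rw [hO, mem_compl_iff, mem_iUnion₂]
    rintro ⟨b', hb', hxb'⟩
    have hb'F := Finset.mem_of_mem_erase hb'
    have hne := Finset.ne_of_mem_erase hb'
    have := h.le_dist hb'F hxD
    rw [mem_closedBall] at hxb'
    exact hno b' hb'F hne (le_antisymm hxb' this)
  obtain ⟨δ, hδ, hδO⟩ : ∃ δ > 0, ball w0 δ ⊆ f ⁻¹' O :=
    Metric.isOpen_iff.1 (hOo.preimage hfc) w0 (by rw [mem_preimage, hfw0]; exact hxO)
  set V : Set ℂ := ball w0 δ ∩ {w | Real.log b.2 < w.re} with hV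
  have hVc : IsPreconnected V := by
    apply Convex.isPreconnected
    exact (convex_ball w0 δ).inter (convex_halfSpace_re_gt _)
  set A := f '' V with hA
  have hAc : IsPreconnected A := hVc.image f hfc.continuousOn
  have hnorm : ∀ w, dist (f w) b.1 = Real.exp w.re := by
    intro w
    simp [hf, dist_eq_norm, Complex.norm_exp]
  have hAcl : Disjoint A (cl F) := by
    rw [Set.disjoint_left]
    rintro y ⟨w, hw, rfl⟩ hy
    simp only [cl, mem_iUnion] at hy
    obtain ⟨b', hb', hyb'⟩ := hy
    by_cases hbb : b' = b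
    · subst hbb
      rw [mem_closedBall, hnorm] at hyb'
      have := hw.2
      simp only [mem_setOf_eq] at this
      have h3 := (Real.log_lt_iff_lt_exp hr).1 this
      linarith
    · have := hδO hw.1
      rw [mem_preimage, hO, mem_compl_iff, mem_iUnion₂] at this
      exact this ⟨b', Finset.mem_erase.2 ⟨hbb, hb'⟩, hyb'⟩
  -- a point of D in f '' ball is in A
  have hin : ∀ y ∈ D, y ∈ f '' ball w0 δ → y ∈ A := by
    rintro y hy ⟨w, hw, rfl⟩
    refine ⟨w, ⟨hw, ?_⟩, rfl⟩
    have := h.lt_dist hb hy
    rw [hnorm] at this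
    exact (Real.log_lt_iff_lt_exp hr).2 this
  have hnb : f '' ball w0 δ ∈ 𝓝 x := by
    rw [← hfw0]
    exact (hfo _ isOpen_ball).mem_nhds (mem_image_of_mem f (mem_ball_self hδ))
  obtain ⟨y1, hy1A, hy1⟩ := mem_closure_iff_nhds.1 h1 _ hnb
  obtain ⟨y2, hy2A, hy2⟩ := mem_closure_iff_nhds.1 h2 _ hnb
  have hy1D := connectedComponentIn_subset D z hy1
  have hy2D := connectedComponentIn_subset D z' hy2
  have hy1A' := hin y1 hy1D hy1A
  have hy2A' := hin y2 hy2D hy2A
  have hAD : A ⊆ D := by
    refine IsPreconnected.subset_left_of_subset_union h.op (isClosed_closure (s := D)).isOpen_compl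
      (disjoint_compl_right.mono_left subset_closure) ?_ ⟨y1, hy1A', hy1D⟩ hAc
    intro y hy
    by_contra hcon
    simp only [mem_union, mem_compl_iff, not_or, not_not] at hcon
    have hfr : y ∈ frontier D := by
      rw [h.op.frontier_eq]
      exact ⟨hcon.2, hcon.1⟩
    exact Set.disjoint_left.1 hAcl hy (h.front hfr)
  have hsub := hAc.subset_connectedComponentIn hy1A' hAD
  have e1 : connectedComponentIn D z = connectedComponentIn D y1 := connectedComponentIn_eq hy1
  have e2 : connectedComponentIn D z' = connectedComponentIn D y2 := connectedComponentIn_eq hy2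
  have e3 : connectedComponentIn D y1 = connectedComponentIn D y2 :=
    connectedComponentIn_eq (hsub hy2A')
  rw [e1, e2, e3]

/-- the set of the angles at which the circle `b` meets another circle of the family -/
private def badA (F : Finset (ℂ × ℝ)) (b : ℂ × ℝ) : Set ℝ :=
  {θ | θ ∈ Ioc (-Real.pi) Real.pi ∧ ∃ b' ∈ F, b' ≠ b ∧ dist (circleMap b.1 b.2 θ) b'.1 = b'.2}

private theorem badA_finite {F : Finset (ℂ × ℝ)} {D : Set ℂ} (h : Reg F D) {b : ℂ × ℝ}
    (hb : b ∈ F) : (badA F b).Finite := by
  have : badA F b ⊆ ⋃ b' ∈ {b' | b' ∈ F ∧ b' ≠ b},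
      {θ | θ ∈ Ioc (-Real.pi) Real.pi ∧ dist (circleMap b.1 b.2 θ) b'.1 = b'.2} := by
    rintro θ ⟨h1, b', hb', hne, h2⟩
    simp only [mem_iUnion]
    exact ⟨b', ⟨hb', hne⟩, h1, h2⟩
  refine Set.Finite.subset ?_ this
  refine Set.Finite.biUnion (F.finite_toSet.subset (fun b' hb' => hb'.1)) ?_
  rintro b' ⟨hb', hne⟩
  exact finite_circ (h.pos b hb) (h.pos b' hb') (fun e => hne (by
    rw [Prod.mk.injEq] at e; exact Prod.ext e.1.symm e.2.symm))

/-- the boundary integrals of finitely many components -/
private theorem sum_bInt {F : Finset (ℂ × ℝ)} {D : Set ℂ} (h : Reg F D) {g : ℂ → ℝ}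
    (hg : Continuous g) (hg0 : ∀ z, 0 ≤ g z)
    (s : Finset {K : Set ℂ // ∃ z ∈ D, K = connectedComponentIn D z}) :
    ∑ K ∈ s, bInt F K.1 (fun z _ => g z) ≤ bInt F D (fun z _ => g z) := by
  classical
  unfold bInt
  rw [Finset.sum_comm]
  refine Finset.sum_le_sum (fun b hb => ?_)
  rw [← Finset.mul_sum]
  refine mul_le_mul_of_nonneg_left ?_ (h.pos b hb).le
  set G : ℝ → ℝ := fun θ => g (circleMap b.1 b.2 θ) with hG
  have hGc : Continuous G := hg.comp (continuous_circleMap _ _)
  have hG0 : ∀ θ, 0 ≤ G θ := fun θ => hg0 _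
  have hint : ∀ D' : Set ℂ, IntegrableOn G (expo D' b) := fun D' =>
    ((hGc.integrableOn_Icc (a := -Real.pi) (b := Real.pi)).mono_set Ioc_subset_Icc_self).mono_set
      (expo_subset D' b)
  have e1 : ∀ D' : Set ℂ, ∫ θ in expo D' b, G θ = ∫ θ, (expo D' b).indicator G θ := fun D' =>
    (integral_indicator (measurableSet_expo D' b)).symm
  have e2 : ∑ K ∈ s, ∫ θ in expo K.1 b, G θ = ∫ θ, ∑ K ∈ s, (expo K.1 b).indicator G θ := by
    rw [integral_finset_sum]
    · exact Finset.sum_congr rfl (fun K _ => e1 K.1)
    · intro K _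
      exact (hint K.1).integrable_indicator (measurableSet_expo _ b)
  rw [show (∑ K ∈ s, ∫ θ in expo K.1 b, g (circleMap b.1 b.2 θ)) =
    ∑ K ∈ s, ∫ θ in expo K.1 b, G θ from rfl, e2,
    show (∫ θ in expo D b, g (circleMap b.1 b.2 θ)) = ∫ θ in expo D b, G θ from rfl, e1 D]
  have hnull : ∀ᵐ θ : ℝ, θ ∉ badA F b := by
    have := (badA_finite h hb).measure_zero volume
    rwa [ae_iff, show {a | ¬ a ∉ badA F b} = badA F b by ext; simp]
  refine integral_mono_ae ?_ ?_ ?_
  · refine integrable_finset_sum _ (fun K _ => ?_)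
    exact (hint K.1).integrable_indicator (measurableSet_expo _ b)
  · exact (hint D).integrable_indicator (measurableSet_expo _ b)
  · filter_upwards [hnull] with θ hθ
    by_cases hex : ∃ K ∈ s, θ ∈ expo K.1 b
    · obtain ⟨K, hK, hθK⟩ := hex
      have hθD : θ ∈ expo D b := by
        obtain ⟨z, hz, hKz⟩ := K.2
        refine expo_mono ?_ b hθK
        rw [hKz]
        exact connectedComponentIn_subset D z
      rw [Finset.sum_eq_single_of_mem K hK]
      · rw [indicator_of_mem hθK, indicator_of_mem hθD]
      · intro K' hK' hne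
        apply indicator_of_notMem
        intro hθK'
        apply hne
        obtain ⟨z, hz, hKz⟩ := K.2
        obtain ⟨z', hz', hKz'⟩ := K'.2
        apply Subtype.ext
        rw [hKz, hKz']
        refine same_comp h hb (θ := θ) hz' hz ?_ ?_ ?_
        · rw [← hKz']; exact hθK'.2
        · rw [← hKz]; exact hθK.2
        · intro b' hb' hne' he
          exact hθ ⟨hθK.1, b', hb', hne', he⟩
    · push_neg at hex
      rw [Finset.sum_eq_zero (fun K hK => indicator_of_notMem (hex K hK) _)]
      exact indicator_nonneg (fun _ _ => hG0 _) _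

theorem Q_comp (S : Dat) {F : Finset (ℂ × ℝ)} {D : Set ℂ} (h : Reg F D) (hD : D ⊆ S.W) {κ : ℝ}
    (hκ : ∀ z ∈ D, -κ * volume.real (connectedComponentIn D z) ≤
      S.Q F (connectedComponentIn D z)) :
    -κ * volume.real D ≤ S.Q F D := by
  classical
  set ι := {K : Set ℂ // ∃ z ∈ D, K = connectedComponentIn D z} with hι
  have hopen : ∀ K : ι, IsOpen K.1 := by
    rintro ⟨K, z, hz, rfl⟩
    exact h.op.connectedComponentIn
  have hne : ∀ K : ι, K.1.Nonempty := by
    rintro ⟨K, z, hz, rfl⟩
    exact ⟨z, mem_connectedComponentIn hz⟩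
  have hdisj : Pairwise (Function.onFun Disjoint (fun K : ι => K.1)) := by
    rintro ⟨K, z, hz, rfl⟩ ⟨K', z', hz', rfl⟩ hne
    by_contra hcon
    rw [Function.onFun, Set.not_disjoint_iff] at hcon
    obtain ⟨y, hy1, hy2⟩ := hcon
    apply hne
    apply Subtype.ext
    exact (connectedComponentIn_eq hy1).trans (connectedComponentIn_eq hy2).symm
  haveI : Countable ι := by
    have := Set.PairwiseDisjoint.countable_of_isOpen (s := fun K : ι => K.1) (a := univ)
      (fun i _ j _ hij => hdisj hij) (fun i _ => hopen i) (fun i _ => hne i)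
    exact countable_univ_iff.1 this
  have hU : ⋃ K : ι, K.1 = D := by
    ext y
    simp only [mem_iUnion]
    constructor
    · rintro ⟨⟨K, z, hz, rfl⟩, hy⟩
      exact connectedComponentIn_subset D z hy
    · intro hy
      exact ⟨⟨_, y, hy, rfl⟩, mem_connectedComponentIn hy⟩
  have hPi : IntegrableOn (fun z => S.P z + κ) D :=
    ((S.P_cont.add continuous_const).continuousOn.integrableOn_compact
      h.bdd.isCompact_closure).mono_set subset_closure
  have hPi1 : IntegrableOn S.P D :=
    (S.P_cont.continuousOn.integrableOn_compact h.bdd.isCompact_closure).mono_set subset_closure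
  have hfin : volume D ≠ ⊤ := (h.bdd.measure_lt_top).ne
  have hint : ∀ D' ⊆ D, ∫ z in D', (S.P z + κ) = (∫ z in D', S.P z) + κ * volume.real D' := by
    intro D' hD'
    rw [integral_add (hPi1.mono_set hD')]
    · simp [mul_comm]
    · exact integrableOn_const (ne_top_of_le_ne_top hfin (measure_mono hD'))
  have hsum : HasSum (fun K : ι => ∫ z in K.1, (S.P z + κ)) (∫ z in D, (S.P z + κ)) := by
    have := hasSum_integral_iUnion (μ := volume) (f := fun z => S.P z + κ) (s := fun K : ι => K.1)
      (fun K => (hopen K).measurableSet) hdisj (by rw [hU]; exact hPi)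
    rwa [hU] at this
  have hDE : S.E ^ 2 * volume.real D ≤ Real.pi * S.X ^ 2 := by
    refine le_trans ?_ S.area
    refine mul_le_mul_of_nonneg_left ?_ (sq_nonneg _)
    exact measureReal_mono hD (S.W_bdd.measure_lt_top).ne
  have hb0 : ∀ D', Reg F D' → 0 ≤ bInt F D' (fun z _ => S.g z) := fun D' h' =>
    bInt_nonneg h' (fun z _ => S.g_nonneg z)
  have hm0 : 0 ≤ aF S.E (volume.real D) :=
    (aF_mono S.hX S.E_pos le_rfl measureReal_nonneg hDE).1.trans
      (aF_mono S.hX S.E_pos le_rfl measureReal_nonneg hDE).2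
  have key : ∀ s : Finset ι, ∑ K ∈ s, -(∫ z in K.1, (S.P z + κ)) ≤
      aF S.E (volume.real D) * bInt F D (fun z _ => S.g z) := by
    intro s
    calc ∑ K ∈ s, -(∫ z in K.1, (S.P z + κ)) ≤
        ∑ K ∈ s, aF S.E (volume.real D) * bInt F K.1 (fun z _ => S.g z) := by
          refine Finset.sum_le_sum (fun K _ => ?_)
          obtain ⟨K, z, hz, rfl⟩ := K
          have hsub := connectedComponentIn_subset D z
          have h1 := hκ z hz
          rw [hint _ hsub]
          unfold Dat.Q QQ at h1
          have h2 := (reg_comp h hz).1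
          have h3 := (aF_mono S.hX S.E_pos (A' := volume.real (connectedComponentIn D z))
            measureReal_nonneg (measureReal_mono hsub hfin) hDE).2
          have h4 := mul_le_mul_of_nonneg_right h3 (hb0 _ h2)
          simp only at h1 h4 ⊢
          linarith
      _ = aF S.E (volume.real D) * ∑ K ∈ s, bInt F K.1 (fun z _ => S.g z) := by
          rw [Finset.mul_sum]
      _ ≤ _ := mul_le_mul_of_nonneg_left (sum_bInt h S.g_cont.continuous S.g_nonneg s) hm0
  have fin := hasSum_le_of_sum_le hsum.neg key
  rw [hint D subset_rfl] at fin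
  unfold Dat.Q QQ
  linarith

end Pool.Agent.FKM
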