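import Mathlib
import Pool.Agent.Helper13.FKM.Defs

/-!
FKM-9: the triangle of two discs.

Plan. Let c = cosA a b d, c' = cosA b a d, c'' = (a^2+b^2-d^2)/(2ab): the cosines of the angles of the
triangle with sides a, b, d; all three are in (-1,1) under the hypotheses. alp_add: cos (alp + alp') =
c c' - s s' = -c'' with s, s' > 0 (sum in (0,π)...), i.e. the angle sum of a triangle. psi_ineq: ψ = π - α - α',
so t (α̇ + α̇') = -t ψ̇, and from cos ψ = (a^2+b^2-(δ/t)^2)/(2ab): -t ψ̇ = (δ/t)^2/(a b sin ψ)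
= (a^2+b^2-2ab cos ψ)/(a b sin ψ) ≥ 2(1 - cos ψ)/sin ψ = 2 tan (ψ/2) ≥ ψ.
-/

set_option autoImplicit false

open Complex MeasureTheory Set Metric Filter
open scoped ComplexConjugate Topology

namespace Pool.Agent.FKM

private theorem Trig_cos_mem {a b d : ℝ} (ha : 0 < a) (hb : 0 < b) (h1 : |a - b| < d)
    (h2 : d < a + b) : -1 < cosA a b d ∧ cosA a b d < 1 := by
  have hd : 0 < d := lt_of_le_of_lt (abs_nonneg _) h1
  rw [abs_lt] at h1
  have h2ad : 0 < 2 * a * d := by positivity
  unfold cosA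
  constructor
  · rw [lt_div_iff₀ h2ad]
    nlinarith [mul_pos (show 0 < a + d - b by linarith) (show 0 < a + d + b by linarith)]
  · rw [div_lt_iff₀ h2ad]
    nlinarith [mul_pos (show 0 < b - (a - d) by linarith [h1.2]) (show 0 < b + (a - d) by linarith)]

private theorem Trig_psi_mem {a b d : ℝ} (ha : 0 < a) (hb : 0 < b) (h1 : |a - b| < d)
    (h2 : d < a + b) : -1 < (a ^ 2 + b ^ 2 - d ^ 2) / (2 * a * b) ∧
      (a ^ 2 + b ^ 2 - d ^ 2) / (2 * a * b) < 1 := by
  have hd : 0 < d := lt_of_le_of_lt (abs_nonneg _) h1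
  rw [abs_lt] at h1
  have h2ad : 0 < 2 * a * b := by positivity
  constructor
  · rw [lt_div_iff₀ h2ad]
    nlinarith [mul_pos (show 0 < a + b - d by linarith) (show 0 < a + b + d by linarith)]
  · rw [div_lt_iff₀ h2ad]
    nlinarith [mul_pos (show 0 < d - (a - b) by linarith) (show 0 < d + (a - b) by linarith)]

private theorem Trig_arccos_mem {x : ℝ} (h1 : -1 < x) (h2 : x < 1) :
    Real.arccos x ∈ Ioo 0 Real.pi := by
  refine ⟨Real.arccos_pos.mpr h2, lt_of_le_of_ne (Real.arccos_le_pi x) ?_⟩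
  intro h
  rw [Real.arccos_eq_pi] at h
  linarith

theorem alp_mem {a b d : ℝ} (ha : 0 < a) (hb : 0 < b) (h1 : |a - b| < d) (h2 : d < a + b) :
    alp a b d ∈ Ioo 0 Real.pi :=
  Trig_arccos_mem (Trig_cos_mem ha hb h1 h2).1 (Trig_cos_mem ha hb h1 h2).2

theorem psi_mem {a b d : ℝ} (ha : 0 < a) (hb : 0 < b) (h1 : |a - b| < d) (h2 : d < a + b) :
    psi a b d ∈ Ioo 0 Real.pi :=
  Trig_arccos_mem (Trig_psi_mem ha hb h1 h2).1 (Trig_psi_mem ha hb h1 h2).2

theorem alp_add {a b d : ℝ} (ha : 0 < a) (hb : 0 < b) (h1 : |a - b| < d) (h2 : d < a + b) :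
    alp a b d + alp b a d + psi a b d = Real.pi := by
  have hd : 0 < d := lt_of_le_of_lt (abs_nonneg _) h1
  have h1' : |b - a| < d := by rw [abs_sub_comm]; exact h1
  have h2' : d < b + a := by linarith
  have hc := Trig_cos_mem ha hb h1 h2
  have hc' := Trig_cos_mem hb ha h1' h2'
  have hc'' := Trig_psi_mem ha hb h1 h2
  have hm := alp_mem ha hb h1 h2
  have hm' := alp_mem hb ha h1' h2'
  have hp := psi_mem ha hb h1 h2
  -- the sum is less than pi
  have hsum : -cosA b a d < cosA a b d := by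
    have h3 : cosA a b d + cosA b a d = (a + b) * (d ^ 2 - (a - b) ^ 2) / (2 * a * b * d) := by
      unfold cosA
      field_simp
      ring
    have h4 : 0 < (a + b) * (d ^ 2 - (a - b) ^ 2) / (2 * a * b * d) := by
      apply div_pos _ (by positivity)
      apply mul_pos (by linarith)
      have h5 := abs_lt.mp h1
      nlinarith [mul_pos (show 0 < d - (a - b) by linarith) (show 0 < d + (a - b) by linarith)]
    linarith
  have hlt : alp a b d + alp b a d < Real.pi := by
    have h3 := Real.arccos_lt_arccos (x := -cosA b a d) (y := cosA a b d)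
      (by linarith) hsum (by linarith)
    rw [Real.arccos_neg] at h3
    unfold alp
    linarith
  have hcos : Real.cos (alp a b d + alp b a d) = Real.cos (Real.pi - psi a b d) := by
    rw [Real.cos_add, Real.cos_pi_sub]
    unfold alp psi
    rw [Real.cos_arccos hc.1.le hc.2.le, Real.cos_arccos hc'.1.le hc'.2.le,
      Real.cos_arccos hc''.1.le hc''.2.le, Real.sin_arccos, Real.sin_arccos,
      ← Real.sqrt_mul (by nlinarith [hc.1, hc.2])]
    set Δ : ℝ := (a + b + d) * (a + b - d) * ((d - (a - b)) * (d + (a - b))) with hΔ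
    have hΔ0 : 0 < Δ := by
      have h5 := abs_lt.mp h1
      apply mul_pos
      · apply mul_pos <;> linarith
      · apply mul_pos <;> linarith
    have h6 : (1 - cosA a b d ^ 2) * (1 - cosA b a d ^ 2) = (Δ / (4 * a * b * d ^ 2)) ^ 2 := by
      unfold cosA
      rw [hΔ]
      field_simp
      ring
    rw [h6, Real.sqrt_sq (by positivity)]
    unfold cosA
    rw [hΔ]
    field_simp
    ring
  have h7 := Real.injOn_cos ⟨by linarith [hm.1, hm'.1], hlt.le⟩
    (show Real.pi - psi a b d ∈ Icc 0 Real.pi from ⟨by linarith [hp.2], by linarith [hp.1]⟩) hcos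
  linarith

theorem diff_alp {a b δ t : ℝ} (ha : 0 < a) (hb : 0 < b) (ht : 0 < t) (h1 : |a - b| < δ / t)
    (h2 : δ / t < a + b) : DifferentiableAt ℝ (fun s => alp a b (δ / s)) t := by
  have hd : 0 < δ / t := lt_of_le_of_lt (abs_nonneg _) h1
  have hδ : 0 < δ := by
    by_contra h
    rw [not_lt] at h
    exact absurd (div_nonpos_of_nonpos_of_nonneg h ht.le) (not_le.mpr hd)
  have hc := Trig_cos_mem ha hb h1 h2
  have h3 : DifferentiableAt ℝ (fun s => cosA a b (δ / s)) t := by
    unfold cosA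
    have h4 : DifferentiableAt ℝ (fun s : ℝ => δ / s) t :=
      (differentiableAt_const δ).div differentiableAt_id ht.ne'
    apply DifferentiableAt.div
    · exact ((differentiableAt_const _).add (h4.pow 2)).sub (differentiableAt_const _)
    · exact (differentiableAt_const _).mul h4
    · positivity
  have h5 := (Real.hasDerivAt_arccos (x := cosA a b (δ / t)) (by linarith [hc.1])
    (by linarith [hc.2])).differentiableAt
  exact DifferentiableAt.comp (g := Real.arccos) (f := fun s => cosA a b (δ / s)) t h5 h3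

private theorem Trig_final {x : ℝ} (h0 : 0 < x) (h1 : x < Real.pi) :
    x * Real.sin x ≤ 2 * (1 - Real.cos x) := by
  have h2 : Real.sin x = 2 * Real.sin (x / 2) * Real.cos (x / 2) := by
    rw [← Real.sin_two_mul]; congr 1; ring
  have h3 : Real.cos x = 1 - 2 * Real.sin (x / 2) ^ 2 := by
    have h4 := Real.cos_two_mul (x / 2)
    have h5 := Real.sin_sq_add_cos_sq (x / 2)
    have h6 : 2 * (x / 2) = x := by ring
    rw [h6] at h4
    linarith
  have hs : 0 < Real.sin (x / 2) := Real.sin_pos_of_pos_of_lt_pi (by linarith) (by linarith)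
  have hc : 0 < Real.cos (x / 2) := Real.cos_pos_of_mem_Ioo ⟨by linarith, by linarith⟩
  have ht := Real.lt_tan (x := x / 2) (by linarith) (by linarith)
  rw [Real.tan_eq_sin_div_cos, lt_div_iff₀ hc] at ht
  rw [h2, h3]
  nlinarith [mul_lt_mul_of_pos_right ht hs]

theorem psi_ineq {a b δ t : ℝ} (ha : 0 < a) (hb : 0 < b) (ht : 0 < t) (h1 : |a - b| < δ / t)
    (h2 : δ / t < a + b) :
    psi a b (δ / t) ≤
      t * (deriv (fun s => alp a b (δ / s)) t + deriv (fun s => alp b a (δ / s)) t) := by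
  have h1' : |b - a| < δ / t := by rw [abs_sub_comm]; exact h1
  have h2' : δ / t < b + a := by linarith
  have hd : 0 < δ / t := lt_of_le_of_lt (abs_nonneg _) h1
  have hcont : ContinuousAt (fun s : ℝ => δ / s) t :=
    continuousAt_const.div continuousAt_id ht.ne'
  have hev : (fun s => alp a b (δ / s) + alp b a (δ / s)) =ᶠ[𝓝 t]
      fun s => Real.pi - psi a b (δ / s) := by
    have e1 : ∀ᶠ s in 𝓝 t, |a - b| < δ / s := hcont.eventually (lt_mem_nhds h1)
    have e2 : ∀ᶠ s in 𝓝 t, δ / s < a + b := hcont.eventually (gt_mem_nhds h2)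
    filter_upwards [e1, e2] with s hs1 hs2
    have := alp_add ha hb hs1 hs2
    linarith
  have hsum : deriv (fun s => alp a b (δ / s)) t + deriv (fun s => alp b a (δ / s)) t =
      deriv (fun s => alp a b (δ / s) + alp b a (δ / s)) t := by
    have h3 := (diff_alp ha hb ht h1 h2).hasDerivAt.add (diff_alp hb ha ht h1' h2').hasDerivAt
    exact h3.deriv.symm
  have hc := Trig_psi_mem ha hb h1 h2
  have hp := psi_mem ha hb h1 h2
  have hin : HasDerivAt (fun s : ℝ => (a ^ 2 + b ^ 2 - (δ / s) ^ 2) / (2 * a * b))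
      (δ ^ 2 / (a * b * t ^ 3)) t := by
    have h4 : HasDerivAt (fun s : ℝ => δ / s) (-δ / t ^ 2) t := by
      have := (hasDerivAt_const t δ).div (hasDerivAt_id t) ht.ne'
      refine this.congr_deriv ?_
      simp
    have h5 := ((h4.pow 2).const_sub (a ^ 2 + b ^ 2)).div_const (2 * a * b)
    refine h5.congr_deriv ?_
    push_cast
    field_simp
  have hpsi : HasDerivAt (fun s => psi a b (δ / s))
      (-(1 / Real.sqrt (1 - ((a ^ 2 + b ^ 2 - (δ / t) ^ 2) / (2 * a * b)) ^ 2)) *
        (δ ^ 2 / (a * b * t ^ 3))) t := by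
    have h5 := Real.hasDerivAt_arccos (x := (a ^ 2 + b ^ 2 - (δ / t) ^ 2) / (2 * a * b))
      (by linarith [hc.1]) (by linarith [hc.2])
    exact HasDerivAt.comp (h₂ := Real.arccos) t h5 hin
  have hder : deriv (fun s => alp a b (δ / s) + alp b a (δ / s)) t =
      (1 / Real.sqrt (1 - ((a ^ 2 + b ^ 2 - (δ / t) ^ 2) / (2 * a * b)) ^ 2)) *
        (δ ^ 2 / (a * b * t ^ 3)) := by
    rw [hev.deriv_eq]
    have h6 := (hpsi.const_sub Real.pi).deriv
    rw [h6]
    ring
  rw [hsum, hder]
  -- rewrite with the angle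
  set ψ := psi a b (δ / t) with hψ
  have hsin : Real.sqrt (1 - ((a ^ 2 + b ^ 2 - (δ / t) ^ 2) / (2 * a * b)) ^ 2) = Real.sin ψ := by
    rw [hψ]; unfold psi; rw [Real.sin_arccos]
  have hcosψ : Real.cos ψ = (a ^ 2 + b ^ 2 - (δ / t) ^ 2) / (2 * a * b) := by
    rw [hψ]; unfold psi; rw [Real.cos_arccos hc.1.le hc.2.le]
  rw [hsin]
  have hsp : 0 < Real.sin ψ := Real.sin_pos_of_pos_of_lt_pi hp.1 hp.2
  have h7 : (δ / t) ^ 2 = a ^ 2 + b ^ 2 - 2 * a * b * Real.cos ψ := by
    rw [hcosψ]; field_simp; ring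
  have h8 : t * (1 / Real.sin ψ * (δ ^ 2 / (a * b * t ^ 3))) = (δ / t) ^ 2 / (a * b * Real.sin ψ) := by
    field_simp
  rw [h8, h7, le_div_iff₀ (by positivity)]
  have h9 := Trig_final hp.1 hp.2
  have hab : 0 < a * b := mul_pos ha hb
  nlinarith [mul_le_mul_of_nonneg_left h9 hab.le, sq_nonneg (a - b)]

end Pool.Agent.FKM
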