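import Mathlib
import Pool.Agent.Helper13.FKM.Defs
import Pool.Agent.Helper13.FKM.Trig

/-!
FKM-10: corners of two discs.

Plan. circleMap p R (arg (q-p) + γ): squared distance to q is R^2 + d^2 - 2 R d cos γ. cor_dist follows from the
definition of alp (scale invariance cosA (t a) (t b) (t d) = cosA a b d). cor_symm: in the frame with
p = 0, q = d > 0 both sides have first coordinate (R^2 + d^2 - R'^2)/(2d) and the second coordinates have the
same sign (σ) and the same square; arg (p - q) = arg (q - p) ± π. cor_unique: a common point of the two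
circles is cor for one of the two signs. lnk: x = cor σ; put γ = θ - arg (q-p) modulo 2π in (-π, π]; the
point of circle p in direction θ is outside disc q iff |γ| > alp, that of q is outside disc p iff
|γ| < π - alp'; the corner of the same sign as γ has the larger height h = ip (exp (θ I)), so σ = sign γ
(heights of the two corners differ by 2 R sin α sin γ up to sign; use hmax at the other corner).
vol_wedge: the set is an interval of length psi modulo 2π (for σ = -1 the reflected interval).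
-/

set_option autoImplicit false

open Complex MeasureTheory Set Metric Filter
open scoped ComplexConjugate Topology

namespace Pool.Agent.FKM

private theorem CorG_polar (w : ℂ) : (‖w‖ : ℂ) * exp (arg w * I) = w :=
  Complex.norm_mul_exp_arg_mul_I w

private theorem CorG_circleMap (p q : ℂ) (R γ : ℝ) :
    circleMap p R (arg (q - p) + γ) = p + exp (arg (q - p) * I) * (R * exp (γ * I)) := by
  unfold circleMap
  rw [Complex.ofReal_add, add_mul, Complex.exp_add]
  ring

private theorem CorG_exp (γ : ℝ) : exp (γ * I) = (Real.cos γ : ℂ) + (Real.sin γ : ℂ) * I := by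
  rw [Complex.exp_mul_I, Complex.ofReal_cos, Complex.ofReal_sin]

private theorem CorG_normexp (p q : ℂ) : ‖exp (arg (q - p) * I)‖ = 1 :=
  Complex.norm_exp_ofReal_mul_I _

/-- squared distance of a point of the circle `p` to `q` -/
private theorem CorG_dist_sq (p q : ℂ) (R γ : ℝ) :
    dist (circleMap p R (arg (q - p) + γ)) q ^ 2 =
      R ^ 2 + dist p q ^ 2 - 2 * R * dist p q * Real.cos γ := by
  have hD : dist p q = ‖q - p‖ := by rw [dist_comm, dist_eq_norm]
  rw [hD, dist_eq_norm, CorG_circleMap]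
  have h1 : p + exp (arg (q - p) * I) * (R * exp (γ * I)) - q =
      exp (arg (q - p) * I) * (R * exp (γ * I) - (‖q - p‖ : ℂ)) := by
    have h2 := CorG_polar (q - p)
    have h3 : exp (arg (q - p) * I) * (R * exp (γ * I) - (‖q - p‖ : ℂ)) =
        exp (arg (q - p) * I) * (R * exp (γ * I)) - (‖q - p‖ : ℂ) * exp (arg (q - p) * I) := by
      ring
    rw [h3, h2]
    ring
  rw [h1, norm_mul, CorG_normexp, one_mul, ← Complex.normSq_eq_norm_sq, Complex.normSq_apply,
    CorG_exp]
  have hre : ((R : ℂ) * ((Real.cos γ : ℂ) + (Real.sin γ : ℂ) * I) - (‖q - p‖ : ℂ)).re =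
      R * Real.cos γ - ‖q - p‖ := by
    simp only [Complex.sub_re, Complex.mul_re, Complex.add_re, Complex.ofReal_re,
      Complex.ofReal_im, Complex.I_re, Complex.I_im, Complex.add_im, Complex.mul_im]
    ring
  have him : ((R : ℂ) * ((Real.cos γ : ℂ) + (Real.sin γ : ℂ) * I) - (‖q - p‖ : ℂ)).im =
      R * Real.sin γ := by
    simp only [Complex.sub_im, Complex.mul_re, Complex.add_re, Complex.ofReal_re,
      Complex.ofReal_im, Complex.I_re, Complex.I_im, Complex.add_im, Complex.mul_im]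
    ring
  rw [hre, him]
  have h5 := Real.sin_sq_add_cos_sq γ
  have h6 : Real.sin γ ^ 2 = 1 - Real.cos γ ^ 2 := by linarith
  calc (R * Real.cos γ - ‖q - p‖) * (R * Real.cos γ - ‖q - p‖) +
        R * Real.sin γ * (R * Real.sin γ)
      = R ^ 2 * (Real.cos γ ^ 2 + Real.sin γ ^ 2) + ‖q - p‖ ^ 2 -
        2 * R * ‖q - p‖ * Real.cos γ := by ring
    _ = _ := by rw [h6]; ring

private theorem CorG_cosA {a b d : ℝ} (ha : 0 < a) (hb : 0 < b) (h1 : |a - b| < d)
    (h2 : d < a + b) : Real.cos (alp a b d) = cosA a b d := by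
  have hm := alp_mem ha hb h1 h2
  unfold alp at hm ⊢
  apply Real.cos_arccos
  · by_contra h
    rw [not_le] at h
    rw [Real.arccos_of_le_neg_one h.le] at hm
    exact lt_irrefl _ hm.2
  · exact (Real.arccos_pos.mp hm.1).le

private theorem CorG_cos_sgn {σ : ℝ} (hσ : σ ∈ sgn2) (x : ℝ) : Real.cos (σ * x) = Real.cos x := by
  unfold sgn2 at hσ
  rw [Finset.mem_insert, Finset.mem_singleton] at hσ
  rcases hσ with h | h
  · rw [h, one_mul]
  · rw [h, neg_one_mul, Real.cos_neg]

private theorem CorG_sin_sgn {σ : ℝ} (hσ : σ ∈ sgn2) (x : ℝ) :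
    Real.sin (σ * x) = σ * Real.sin x := by
  unfold sgn2 at hσ
  rw [Finset.mem_insert, Finset.mem_singleton] at hσ
  rcases hσ with h | h
  · rw [h, one_mul, one_mul]
  · rw [h, neg_one_mul, Real.sin_neg, neg_one_mul]

theorem cor_dist {v : ℂ → ℝ} (hv : ∀ p, 0 < v p) {t : ℝ} (ht : 0 < t) {p q : ℂ}
    (hc : Cross v t p q) {σ : ℝ} (hσ : σ ∈ sgn2) :
    dist (cor v t p q σ) p = t * v p ∧ dist (cor v t p q σ) q = t * v q := by
  have hp := hv p
  have hq := hv q
  have hd : 0 < dist p q / t := lt_of_le_of_lt (abs_nonneg _) hc.1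
  have hD : 0 < dist p q := by
    have := mul_pos hd ht
    rwa [div_mul_cancel₀ _ ht.ne'] at this
  constructor
  · unfold cor circleMap
    rw [dist_eq_norm, add_sub_cancel_left, norm_mul, Complex.norm_exp_ofReal_mul_I, mul_one,
      Complex.norm_real, Real.norm_of_nonneg (by positivity)]
  · have h1 := CorG_dist_sq p q (t * v p) (σ * alp (v p) (v q) (dist p q / t))
    rw [CorG_cos_sgn hσ, CorG_cosA hp hq hc.1 hc.2] at h1
    have h2 : (t * v p) ^ 2 + dist p q ^ 2 - 2 * (t * v p) * dist p q *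
        cosA (v p) (v q) (dist p q / t) = (t * v q) ^ 2 := by
      unfold cosA
      field_simp
      ring
    rw [h2] at h1
    exact (pow_left_inj₀ dist_nonneg (by positivity) two_ne_zero).mp h1

private theorem CorG_law {a b d : ℝ} (ha : 0 < a) (hb : 0 < b) (h1 : |a - b| < d)
    (h2 : d < a + b) :
    a * Real.cos (alp a b d) + b * Real.cos (alp b a d) = d ∧
      a * Real.sin (alp a b d) = b * Real.sin (alp b a d) := by
  have hd : 0 < d := lt_of_le_of_lt (abs_nonneg _) h1
  have h1' : |b - a| < d := by rw [abs_sub_comm]; exact h1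
  have h2' : d < b + a := by linarith
  have hm := alp_mem ha hb h1 h2
  have hm' := alp_mem hb ha h1' h2'
  constructor
  · rw [CorG_cosA ha hb h1 h2, CorG_cosA hb ha h1' h2']
    unfold cosA
    field_simp
    ring
  · have h3 : (a * Real.sin (alp a b d)) ^ 2 = (b * Real.sin (alp b a d)) ^ 2 := by
      rw [mul_pow, mul_pow, Real.sin_sq, Real.sin_sq, CorG_cosA ha hb h1 h2,
        CorG_cosA hb ha h1' h2']
      unfold cosA
      field_simp
      ring
    refine (pow_left_inj₀ ?_ ?_ two_ne_zero).mp h3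
    · exact mul_nonneg ha.le (Real.sin_nonneg_of_nonneg_of_le_pi hm.1.le hm.2.le)
    · exact mul_nonneg hb.le (Real.sin_nonneg_of_nonneg_of_le_pi hm'.1.le hm'.2.le)

private theorem CorG_exp_arg_neg {w : ℂ} (hw : w ≠ 0) :
    exp (arg (-w) * I) = -exp (arg w * I) := by
  have h1 := CorG_polar (-w)
  have h2 := CorG_polar w
  rw [norm_neg] at h1
  have h3 : (‖w‖ : ℂ) ≠ 0 := by
    rw [Complex.ofReal_ne_zero]
    exact norm_ne_zero_iff.mpr hw
  apply mul_left_cancel₀ h3
  rw [h1, mul_neg, h2]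

private theorem CorG_neg_mem {σ : ℝ} (hσ : σ ∈ sgn2) : -σ ∈ sgn2 := by
  unfold sgn2 at *
  rw [Finset.mem_insert, Finset.mem_singleton] at hσ ⊢
  rcases hσ with h | h
  · right; rw [h]
  · left; rw [h]; norm_num

theorem cor_symm {v : ℂ → ℝ} (hv : ∀ p, 0 < v p) {t : ℝ} (ht : 0 < t) {p q : ℂ} (hpq : p ≠ q)
    (hc : Cross v t p q) {σ : ℝ} (hσ : σ ∈ sgn2) : cor v t p q σ = cor v t q p (-σ) := by
  have hp := hv p
  have hq := hv q
  have hlaw := CorG_law hp hq hc.1 hc.2
  have hsub : q - p ≠ 0 := sub_ne_zero.mpr (Ne.symm hpq)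
  unfold cor
  rw [CorG_circleMap, CorG_circleMap]
  have h1 : exp (arg (p - q) * I) = -exp (arg (q - p) * I) := by
    have := CorG_exp_arg_neg hsub
    rwa [neg_sub] at this
  rw [h1]
  have hD : dist q p = dist p q := dist_comm q p
  rw [hD]
  set u := exp (arg (q - p) * I) with hu
  have h2 : q = p + (dist p q : ℂ) * u := by
    have h3 := CorG_polar (q - p)
    have h4 : dist p q = ‖q - p‖ := by rw [dist_comm, dist_eq_norm]
    rw [h4, hu, h3]
    ring
  have h5 : ((t * v p : ℝ) : ℂ) * exp ((σ * alp (v p) (v q) (dist p q / t) : ℝ) * I) =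
      (dist p q : ℂ) - ((t * v q : ℝ) : ℂ) *
        exp ((-σ * alp (v q) (v p) (dist p q / t) : ℝ) * I) := by
    rw [CorG_exp, CorG_exp, CorG_cos_sgn hσ, CorG_cos_sgn (CorG_neg_mem hσ), CorG_sin_sgn hσ,
      CorG_sin_sgn (CorG_neg_mem hσ)]
    have hdt : dist p q = t * (v p * Real.cos (alp (v p) (v q) (dist p q / t)) +
        v q * Real.cos (alp (v q) (v p) (dist p q / t))) := by
      rw [hlaw.1]; field_simp
    have hs := hlaw.2
    apply Complex.ext
    · simp only [Complex.add_re, Complex.mul_re, Complex.sub_re, Complex.ofReal_re,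
        Complex.ofReal_im, Complex.I_re, Complex.I_im, Complex.add_im, Complex.mul_im]
      linarith [hdt]
    · simp only [Complex.add_re, Complex.mul_re, Complex.sub_im, Complex.ofReal_re,
        Complex.ofReal_im, Complex.I_re, Complex.I_im, Complex.add_im, Complex.mul_im]
      have h6 : t * (σ * (v p * Real.sin (alp (v p) (v q) (dist p q / t)))) =
        t * (σ * (v q * Real.sin (alp (v q) (v p) (dist p q / t)))) := by rw [hs]
      linarith [h6]
  rw [h5]
  calc p + u * ((dist p q : ℂ) - ((t * v q : ℝ) : ℂ) *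
        exp ((-σ * alp (v q) (v p) (dist p q / t) : ℝ) * I))
      = (p + (dist p q : ℂ) * u) + -u * (((t * v q : ℝ) : ℂ) *
        exp ((-σ * alp (v q) (v p) (dist p q / t) : ℝ) * I)) := by ring
    _ = q + -u * (((t * v q : ℝ) : ℂ) *
        exp ((-σ * alp (v q) (v p) (dist p q / t) : ℝ) * I)) := by rw [← h2]

theorem cor_unique {v : ℂ → ℝ} (hv : ∀ p, 0 < v p) {t : ℝ} (ht : 0 < t) {p q : ℂ} (hpq : p ≠ q)
    {x : ℂ} (h1 : dist x p = t * v p) (h2 : dist x q = t * v q) :
    ∃ σ ∈ sgn2, cor v t p q σ = x := by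
  have hp := hv p
  have hq := hv q
  have hD : 0 < dist p q := dist_pos.mpr hpq
  set γ : ℝ := arg (x - p) - arg (q - p) with hγ
  have hx : x = circleMap p (t * v p) (arg (q - p) + γ) := by
    unfold circleMap
    have h3 := CorG_polar (x - p)
    rw [← dist_eq_norm, h1] at h3
    have h4 : arg (q - p) + γ = arg (x - p) := by rw [hγ]; ring
    rw [h4, h3]
    ring
  have h3 := CorG_dist_sq p q (t * v p) γ
  rw [← hx, h2] at h3
  have hcos : Real.cos γ = cosA (v p) (v q) (dist p q / t) := by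
    unfold cosA
    rw [eq_div_iff (by positivity)]
    have h4 : 2 * (t * v p) * dist p q * Real.cos γ =
        (t * v p) ^ 2 + dist p q ^ 2 - (t * v q) ^ 2 := by linarith
    have h5 : Real.cos γ * (2 * v p * (dist p q / t)) * t ^ 2 =
        2 * (t * v p) * dist p q * Real.cos γ := by
      field_simp
    have h6 : (v p ^ 2 + (dist p q / t) ^ 2 - v q ^ 2) * t ^ 2 =
        (t * v p) ^ 2 + dist p q ^ 2 - (t * v q) ^ 2 := by
      field_simp
    have ht2 : t ^ 2 ≠ 0 := by positivity
    apply mul_right_cancel₀ ht2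
    rw [h5, h6, h4]
  set α := alp (v p) (v q) (dist p q / t) with hα
  have hcosα : Real.cos α = Real.cos γ := by
    rw [hα]; unfold alp
    rw [← hcos]
    exact Real.cos_arccos (Real.neg_one_le_cos γ) (Real.cos_le_one γ)
  have hsin2 : Real.sin α ^ 2 = Real.sin γ ^ 2 := by
    rw [Real.sin_sq, Real.sin_sq, hcosα]
  rcases sq_eq_sq_iff_eq_or_eq_neg.mp hsin2 with h | h
  · refine ⟨1, by simp [sgn2], ?_⟩
    rw [hx]
    unfold cor
    rw [CorG_circleMap, CorG_circleMap, ← hα, one_mul, CorG_exp α, CorG_exp γ, hcosα, h]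
  · refine ⟨-1, by simp [sgn2], ?_⟩
    rw [hx]
    unfold cor
    rw [CorG_circleMap, CorG_circleMap, ← hα, CorG_exp (-1 * α), CorG_exp γ, neg_one_mul,
      Real.cos_neg, Real.sin_neg, hcosα, h, neg_neg]

theorem cor_ne {v : ℂ → ℝ} (hv : ∀ p, 0 < v p) {t : ℝ} (ht : 0 < t) {p q : ℂ} (hpq : p ≠ q)
    (hc : Cross v t p q) : cor v t p q 1 ≠ cor v t p q (-1) := by
  intro h
  have hp := hv p
  have hm := alp_mem (hv p) (hv q) hc.1 hc.2
  have hs := Real.sin_pos_of_pos_of_lt_pi hm.1 hm.2
  unfold cor at h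
  rw [CorG_circleMap, CorG_circleMap, one_mul, neg_one_mul] at h
  have h1 := add_left_cancel h
  have h2 := mul_left_cancel₀ (Complex.exp_ne_zero _) h1
  have h3 : ((t * v p : ℝ) : ℂ) ≠ 0 := by
    rw [Complex.ofReal_ne_zero]; positivity
  have h4 := mul_left_cancel₀ h3 h2
  rw [CorG_exp, CorG_exp] at h4
  have h5 := congrArg Complex.im h4
  simp only [Complex.add_im, Complex.mul_im, Complex.ofReal_re,
        Complex.ofReal_im, Complex.I_re, Complex.I_im, Real.sin_neg] at h5
  linarith

private theorem CorG_cross {v : ℂ → ℝ} {t : ℝ} {p q : ℂ} (h : Cross v t p q) :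
    Cross v t q p := by
  unfold Cross at *
  rw [abs_sub_comm, dist_comm, add_comm (v q)]
  exact h

theorem cEx_symm {D : Set ℂ} {P : Finset ℂ} {v : ℂ → ℝ} (hv : ∀ p, 0 < v p) {t : ℝ} (ht : 0 < t)
    {p q : ℂ} (hpq : p ≠ q) {σ : ℝ} (hσ : σ ∈ sgn2) :
    cEx D P v t p q σ ↔ cEx D P v t q p (-σ) := by
  unfold cEx
  constructor
  · rintro ⟨h1, h2, h3⟩
    rw [cor_symm hv ht hpq h1 hσ] at h2 h3
    exact ⟨CorG_cross h1, h2, fun l hl hlq hlp => h3 l hl hlp hlq⟩
  · rintro ⟨h1, h2, h3⟩
    have h4 := CorG_cross h1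
    rw [← cor_symm hv ht hpq h4 hσ] at h2 h3
    exact ⟨h4, h2, fun l hl hlq hlp => h3 l hl hlp hlq⟩

end Pool.Agent.FKM
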