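import Mathlib
import Pool.Agent.Helper13.FKM.Defs

/-!
FKM-13: derivative of the measure of a moving set of angles.

Proof. Choose a period `(b, b + 2π]` with `b` slightly larger than `-π`, so that all the corners lie in its
interior. By compactness of `[b, b + 2π]`, for `t` close to `t0` the difference of the indicators of `E t`
and `E t0` on this period is the sum over the corners `c` of the differences of the indicators of
`0 < s c (x - ϑ c t)` and `0 < s c (x - c)`. Integrate.
-/

set_option autoImplicit false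

open Complex MeasureTheory Set Metric Filter
open scoped ComplexConjugate Topology

namespace Pool.Agent.FKM

theorem moving_half {b B y s : ℝ} (hy : y ∈ Icc b B) (hs : s = 1 ∨ s = -1) :
    IntervalIntegrable (fun x => if 0 < s * (x - y) then (1 : ℝ) else 0) volume b B ∧
      ∫ x in b..B, (if 0 < s * (x - y) then (1 : ℝ) else 0) = if s = 1 then B - y else y - b := by
  have hbB : b ≤ B := hy.1.trans hy.2
  rcases hs with rfl | rfl
  · have he : (fun x => if 0 < (1 : ℝ) * (x - y) then (1 : ℝ) else 0)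
        = (Ioi y).indicator (fun _ => (1 : ℝ)) := by
      ext x
      simp only [indicator_apply, mem_Ioi, one_mul, sub_pos]
    rw [he]
    constructor
    · rw [intervalIntegrable_iff_integrableOn_Ioc_of_le hbB]
      exact (integrableOn_const (by simp)).indicator measurableSet_Ioi
    · rw [intervalIntegral.integral_of_le hbB, setIntegral_indicator measurableSet_Ioi]
      have : Ioc b B ∩ Ioi y = Ioc y B := by
        ext x
        simp only [mem_inter_iff, mem_Ioc, mem_Ioi]
        constructor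
        · rintro ⟨⟨_, h2⟩, h3⟩; exact ⟨h3, h2⟩
        · rintro ⟨h1, h2⟩; exact ⟨⟨lt_of_le_of_lt hy.1 h1, h2⟩, h1⟩
      rw [this]
      simp [Real.volume_real_Ioc_of_le hy.2]
  · have he : (fun x => if 0 < (-1 : ℝ) * (x - y) then (1 : ℝ) else 0)
        = (Iio y).indicator (fun _ => (1 : ℝ)) := by
      ext x
      simp only [indicator_apply, mem_Iio]
      have : (0 < (-1 : ℝ) * (x - y)) ↔ x < y := by
        constructor <;> intro h <;> linarith
      simp only [this]
    rw [he]
    constructor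
    · rw [intervalIntegrable_iff_integrableOn_Ioc_of_le hbB]
      exact (integrableOn_const (by simp)).indicator measurableSet_Iio
    · rw [intervalIntegral.integral_of_le hbB, setIntegral_indicator measurableSet_Iio]
      have : Ioc b B ∩ Iio y = Ioo b y := by
        ext x
        simp only [mem_inter_iff, mem_Ioc, mem_Iio, mem_Ioo]
        constructor
        · rintro ⟨⟨h1, _⟩, h3⟩; exact ⟨h1, h3⟩
        · rintro ⟨h1, h2⟩; exact ⟨⟨h1, h2.le.trans hy.2⟩, h2⟩
      rw [this, if_neg (by norm_num)]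
      simp [Real.volume_real_Ioo_of_le hy.1]

theorem moving {E : ℝ → Set ℝ} (hper : ∀ t θ, θ ∈ E t ↔ θ + 2 * Real.pi ∈ E t)
    (hm : ∀ t, MeasurableSet (E t)) {t0 : ℝ} (Tc : Finset ℝ)
    (hT : ∀ c ∈ Tc, c ∈ Ioc (-Real.pi) Real.pi) (s : ℝ → ℝ) (hs : ∀ c ∈ Tc, s c = 1 ∨ s c = -1)
    (ϑ : ℝ → ℝ → ℝ) (d : ℝ → ℝ) (hd : ∀ c ∈ Tc, HasDerivAt (ϑ c) (d c) t0)
    (h0 : ∀ c ∈ Tc, ϑ c t0 = c)
    (hloc : ∀ c ∈ Tc, ∀ᶠ x : ℝ × ℝ in 𝓝 (t0, c), (x.2 ∈ E x.1 ↔ 0 < s c * (x.2 - ϑ c x.1)))
    (hconst : ∀ θ0 ∈ Ioc (-Real.pi) Real.pi, θ0 ∉ Tc →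
      (∀ᶠ x : ℝ × ℝ in 𝓝 (t0, θ0), x.2 ∈ E x.1) ∨ (∀ᶠ x : ℝ × ℝ in 𝓝 (t0, θ0), x.2 ∉ E x.1)) :
    HasDerivAt (fun t => volume.real (E t ∩ Ioc (-Real.pi) Real.pi)) (-(∑ c ∈ Tc, s c * d c))
      t0 := by
  classical
  have hπ := Real.pi_pos
  -- choice of the period
  obtain ⟨δ, ⟨hδ2, hδ⟩, hδ0⟩ : ∃ δ : ℝ, (δ < 2 * Real.pi ∧ ∀ c ∈ Tc, δ < c + Real.pi) ∧ 0 < δ := by
    have h1 : ∀ᶠ δ in 𝓝 (0 : ℝ), δ < 2 * Real.pi ∧ ∀ c ∈ Tc, δ < c + Real.pi := by
      refine Filter.Eventually.and (Iio_mem_nhds (show (0 : ℝ) < 2 * Real.pi by positivity)) ?_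
      rw [eventually_all_finset]
      intro c hc
      exact Iio_mem_nhds (show (0 : ℝ) < c + Real.pi by linarith [(hT c hc).1])
    have h2 : ∀ᶠ δ in 𝓝[>] (0 : ℝ), (δ < 2 * Real.pi ∧ ∀ c ∈ Tc, δ < c + Real.pi) ∧ 0 < δ :=
      (h1.filter_mono nhdsWithin_le_nhds).and self_mem_nhdsWithin
    exact h2.exists
  set b : ℝ := -Real.pi + δ with hb
  set B : ℝ := b + 2 * Real.pi with hB
  have hbB : b ≤ B := by linarith
  have hTb : ∀ c ∈ Tc, c ∈ Ioo b B := fun c hc =>
    ⟨by linarith [hδ c hc], by linarith [(hT c hc).2]⟩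
  -- extension of hconst
  have hconst' : ∀ θ0 ∈ Icc b B, θ0 ∉ Tc → (∀ᶠ x : ℝ × ℝ in 𝓝 (t0, θ0), x.2 ∈ E x.1) ∨
      (∀ᶠ x : ℝ × ℝ in 𝓝 (t0, θ0), x.2 ∉ E x.1) := by
    intro θ0 hθ hθT
    by_cases hle : θ0 ≤ Real.pi
    · exact hconst θ0 ⟨by linarith [hθ.1], hle⟩ hθT
    · push Not at hle
      have hmem : θ0 - 2 * Real.pi ∈ Ioc (-Real.pi) Real.pi :=
        ⟨by linarith, by linarith [hθ.2]⟩
      have hnT : θ0 - 2 * Real.pi ∉ Tc := by
        intro h
        have := (hTb _ h).1
        linarith [hθ.2]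
      have hcont : Tendsto (fun x : ℝ × ℝ => (x.1, x.2 - 2 * Real.pi)) (𝓝 (t0, θ0))
          (𝓝 (t0, θ0 - 2 * Real.pi)) := by
        have : Continuous (fun x : ℝ × ℝ => (x.1, x.2 - 2 * Real.pi)) := by fun_prop
        exact this.tendsto (t0, θ0)
      rcases hconst _ hmem hnT with h | h
      · left
        filter_upwards [hcont.eventually h] with x hx
        have := (hper x.1 (x.2 - 2 * Real.pi)).1 hx
        simpa using this
      · right
        filter_upwards [hcont.eventually h] with x hx hx2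
        apply hx
        rw [hper]
        simpa using hx2
  -- the measure as an integral over the new period
  set g : ℝ → ℝ → ℝ := fun t => (E t).indicator (fun _ => (1 : ℝ)) with hg
  have hmeas : ∀ t, volume.real (E t ∩ Ioc (-Real.pi) Real.pi) = ∫ x in b..B, g t x := by
    intro t
    have hp : Function.Periodic (g t) (2 * Real.pi) := by
      intro x
      simp only [hg, indicator_apply]
      rw [← hper]
    rw [hB, hp.intervalIntegral_add_eq b (-Real.pi),
      show -Real.pi + 2 * Real.pi = Real.pi by ring,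
      intervalIntegral.integral_of_le (by linarith), hg]
    simp only
    rw [setIntegral_indicator (hm t), setIntegral_const, inter_comm]
    simp
  have hgi : ∀ t, IntervalIntegrable (g t) volume b B := by
    intro t
    rw [intervalIntegrable_iff_integrableOn_Ioc_of_le hbB]
    exact (integrableOn_const (by simp)).indicator (hm t)
  -- the corner functions
  set k : ℝ → ℝ → ℝ → ℝ := fun c t x => if 0 < s c * (x - ϑ c t) then (1 : ℝ) else 0 with hk
  have hkaway : ∀ c ∈ Tc, ∀ x0, x0 ≠ c → ∀ᶠ x : ℝ × ℝ in 𝓝 (t0, x0),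
      k c x.1 x.2 = k c t0 x.2 := by
    intro c hc x0 hx0
    have hcont : Tendsto (fun x : ℝ × ℝ => s c * (x.2 - ϑ c x.1)) (𝓝 (t0, x0))
        (𝓝 (s c * (x0 - c))) := by
      have h1 : Tendsto (fun x : ℝ × ℝ => ϑ c x.1) (𝓝 (t0, x0)) (𝓝 c) := by
        have := ((hd c hc).continuousAt).tendsto
        rw [h0 c hc] at this
        exact this.comp (continuous_fst.tendsto (t0, x0))
      exact (((continuous_snd.tendsto (t0, x0))).sub h1).const_mul _
    have hcont2 : Tendsto (fun x : ℝ × ℝ => s c * (x.2 - c)) (𝓝 (t0, x0))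
        (𝓝 (s c * (x0 - c))) := by
      have : Continuous (fun x : ℝ × ℝ => s c * (x.2 - c)) := by fun_prop
      exact this.tendsto (t0, x0)
    have hne : s c * (x0 - c) ≠ 0 := by
      have : x0 - c ≠ 0 := sub_ne_zero.2 hx0
      rcases hs c hc with h | h <;> rw [h]
      · simpa using this
      · rw [neg_one_mul]
        exact neg_ne_zero.2 this
    rcases lt_or_gt_of_ne hne with hlt | hgt
    · filter_upwards [hcont.eventually_lt_const hlt, hcont2.eventually_lt_const hlt] with x h1 h2
      simp only [hk]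
      rw [if_neg (by linarith), if_neg (by rw [h0 c hc]; linarith)]
    · filter_upwards [hcont.eventually_const_lt hgt, hcont2.eventually_const_lt hgt] with x h1 h2
      simp only [hk]
      rw [if_pos h1, if_pos (by rw [h0 c hc]; exact h2)]
  have hmain : ∀ᶠ t in 𝓝 t0, ∀ x ∈ Icc b B, g t x - g t0 x = ∑ c ∈ Tc, (k c t x - k c t0 x) := by
    apply (isCompact_Icc).eventually_forall_of_forall_eventually
    intro x0 hx0
    have hother : ∀ᶠ x : ℝ × ℝ in 𝓝 (t0, x0), ∀ c ∈ Tc, c ≠ x0 → k c x.1 x.2 = k c t0 x.2 := by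
      rw [eventually_all_finset]
      intro c hc
      by_cases hcx : c = x0
      · exact Eventually.of_forall fun x h => absurd hcx h
      · filter_upwards [hkaway c hc x0 (fun h => hcx h.symm)] with x hx _
        exact hx
    have hback : Tendsto (fun x : ℝ × ℝ => ((t0, x.2) : ℝ × ℝ)) (𝓝 (t0, x0)) (𝓝 (t0, x0)) := by
      have : Continuous (fun x : ℝ × ℝ => ((t0, x.2) : ℝ × ℝ)) := by fun_prop
      exact this.tendsto (t0, x0)
    by_cases hxT : x0 ∈ Tc
    · filter_upwards [hother, hloc x0 hxT, hback.eventually (hloc x0 hxT)] with x h1 h2 h3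
      rw [Finset.sum_eq_single_of_mem x0 hxT
        (fun c hc hne => by rw [h1 c hc hne, sub_self])]
      simp only [hg, hk, indicator_apply]
      simp only [h2, h3]
    · have hall : ∀ᶠ x : ℝ × ℝ in 𝓝 (t0, x0), g x.1 x.2 - g t0 x.2 = 0 := by
        rcases hconst' x0 hx0 hxT with h | h
        · filter_upwards [h, hback.eventually h] with x h1 h2
          simp only [hg, indicator_apply]
          rw [if_pos h1, if_pos h2, sub_self]
        · filter_upwards [h, hback.eventually h] with x h1 h2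
          simp only [hg, indicator_apply]
          rw [if_neg h1, if_neg h2, sub_self]
      filter_upwards [hother, hall] with x h1 h2
      rw [h2, Finset.sum_eq_zero]
      intro c hc
      rw [h1 c hc (fun h => hxT (h ▸ hc)), sub_self]
  have hint : ∀ᶠ t in 𝓝 t0, ∀ c ∈ Tc, ϑ c t ∈ Ioo b B := by
    rw [eventually_all_finset]
    intro c hc
    have := (hd c hc).continuousAt
    apply this.eventually
    rw [h0 c hc]
    exact Ioo_mem_nhds (hTb c hc).1 (hTb c hc).2
  have hfin : (fun t => volume.real (E t ∩ Ioc (-Real.pi) Real.pi)) =ᶠ[𝓝 t0]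
      fun t => (∫ x in b..B, g t0 x) - ∑ c ∈ Tc, s c * (ϑ c t - c) := by
    filter_upwards [hmain, hint] with t h1 h2
    rw [hmeas t]
    have h3 : (∫ x in b..B, g t x) - ∫ x in b..B, g t0 x = -∑ c ∈ Tc, s c * (ϑ c t - c) := by
      rw [← intervalIntegral.integral_sub (hgi t) (hgi t0)]
      have h4 : ∫ x in b..B, (g t x - g t0 x) = ∫ x in b..B, ∑ c ∈ Tc, (k c t x - k c t0 x) := by
        apply intervalIntegral.integral_congr
        intro x hx
        rw [uIcc_of_le hbB] at hx
        exact h1 x hx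
      rw [h4, intervalIntegral.integral_finsetSum]
      · rw [← Finset.sum_neg_distrib]
        refine Finset.sum_congr rfl fun c hc => ?_
        have ha := moving_half (Ioo_subset_Icc_self (h2 c hc)) (hs c hc)
        have hc0 : ϑ c t0 ∈ Icc b B := by
          rw [h0 c hc]; exact Ioo_subset_Icc_self (hTb c hc)
        have hb' := moving_half hc0 (hs c hc)
        rw [hk]
        simp only
        rw [intervalIntegral.integral_sub ha.1 hb'.1, ha.2, hb'.2, h0 c hc]
        rcases hs c hc with h | h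
        · rw [if_pos h, if_pos h, h]; ring
        · rw [if_neg (by rw [h]; norm_num), if_neg (by rw [h]; norm_num), h]; ring
      · intro c hc
        have hc0 : ϑ c t0 ∈ Icc b B := by
          rw [h0 c hc]; exact Ioo_subset_Icc_self (hTb c hc)
        exact (moving_half (Ioo_subset_Icc_self (h2 c hc)) (hs c hc)).1.sub
          (moving_half hc0 (hs c hc)).1
    linarith
  refine HasDerivAt.congr_of_eventuallyEq ?_ hfin
  have h5 : HasDerivAt (fun t => ∑ c ∈ Tc, s c * (ϑ c t - c)) (∑ c ∈ Tc, s c * d c) t0 := by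
    apply HasDerivAt.fun_sum
    intro c hc
    exact ((hd c hc).sub_const c).const_mul (s c)
  exact h5.const_sub _

end Pool.Agent.FKM
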