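import Mathlib
import Pool.Agent.Helper13.FKM.Moving
import Pool.Agent.Helper13.FKM.Trig
import Pool.Agent.Helper13.FKM.CorG
import Pool.Agent.Helper13.FKM.Cont

/-!
FKM-14: derivative of the exposed angle of one disc.

Plan. Apply `moving` to E s = {θ | circleMap p (s v p) θ ∈ D ∧ ∀ q ∈ P, q ≠ p → s v q < dist (circleMap ..) q}.
Fix θ0, x0 = circleMap p (t v p) θ0. If some q ≠ p has dist x0 q < t v q, or if x0 ∉ D and all q ≠ p have
dist x0 q ≥ t v q, then near (t, θ0) no point is in E: in the second case x0 ∉ frontier D (hf.cover, hf.free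
as in `cont_E`), hence x0 ∉ closure D. If x0 ∈ D and all dist x0 q > t v q: locally in E. The remaining case:
x0 ∈ D, dist x0 q ≥ t v q for all q ≠ p with equality for some q: by Gen (no triple points) for exactly one
q; then x0 = cor v t p q σ for one σ (cor_unique, Cross by Gen), i.e. cEx D P v t p q σ, and
θ0 ≡ arg (q-p) + σ alp mod 2π. Near it, θ ∈ E s iff s v q < dist .. q iff
cos (θ - arg (q-p)) < cosA (v p) (v q) (dist p q / s) iff σ (θ - ϑ s) > 0 with
ϑ s = θ0 + σ (alp (.., dist p q / s) - alp (.., dist p q / t)). So s c * d c is the derivative of alp. The map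
(q, σ) ↦ θ0 ∈ (-π, π] is injective on exposed corners (cor_ne, no triple points), so the sum over Tc is the
double sum.
-/

set_option autoImplicit false

open Complex MeasureTheory Set Metric Filter
open scoped ComplexConjugate Topology

namespace Pool.Agent.FKM

namespace DerE

theorem dist_circ (p q : ℂ) (R θ : ℝ) :
    dist (circleMap p R θ) q ^ 2 =
      R ^ 2 + dist p q ^ 2 - 2 * R * dist p q * Real.cos (θ - arg (q - p)) := by
  have h1 := Complex.norm_mul_cos_arg (q - p)
  have h2 := Complex.norm_mul_sin_arg (q - p)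
  have h3 : dist p q = ‖q - p‖ := by rw [dist_comm, Complex.dist_eq]
  have h4 : ‖q - p‖ ^ 2 = (q - p).re ^ 2 + (q - p).im ^ 2 := by
    rw [Complex.sq_norm, Complex.normSq_apply]; ring
  have e1 : (circleMap p R θ - q).re = R * Real.cos θ - (q - p).re := by
    simp only [circleMap, Complex.sub_re, Complex.add_re, Complex.re_ofReal_mul,
      Complex.exp_ofReal_mul_I_re]
    ring
  have e2 : (circleMap p R θ - q).im = R * Real.sin θ - (q - p).im := by
    simp only [circleMap, Complex.sub_im, Complex.add_im, Complex.im_ofReal_mul,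
      Complex.exp_ofReal_mul_I_im]
    ring
  rw [Complex.dist_eq, Complex.sq_norm, Complex.normSq_apply, e1, e2, h3, h4, Real.cos_sub,
    ← h1, ← h2]
  have h5 := Real.sin_sq_add_cos_sq θ
  have h6 := Real.sin_sq_add_cos_sq (arg (q - p))
  linear_combination R ^ 2 * h5

theorem cont_circ (p : ℂ) (a : ℝ) : Continuous fun x : ℝ × ℝ => circleMap p (x.1 * a) x.2 := by
  unfold circleMap
  fun_prop

theorem circ_add_int (p : ℂ) (R θ : ℝ) (k : ℤ) :
    circleMap p R (θ + k * (2 * Real.pi)) = circleMap p R θ := by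
  have h := (periodic_circleMap p R).int_mul k θ
  exact h

/-- the membership condition in terms of the cosine -/
theorem lt_dist_iff {p q : ℂ} {a b s θ : ℝ} (ha : 0 < a) (hb : 0 < b) (hs : 0 < s)
    (hpq : p ≠ q) : s * b < dist (circleMap p (s * a) θ) q ↔
      Real.cos (θ - arg (q - p)) < cosA a b (dist p q / s) := by
  have hd : 0 < dist p q := dist_pos.2 hpq
  have hsb : 0 < s * b := mul_pos hs hb
  rw [← sq_lt_sq₀ hsb.le dist_nonneg, dist_circ]
  have h1 : cosA a b (dist p q / s) =
      ((s * a) ^ 2 + dist p q ^ 2 - (s * b) ^ 2) / (2 * (s * a) * dist p q) := by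
    unfold cosA
    field_simp
  rw [h1, lt_div_iff₀ (by positivity)]
  constructor <;> intro h <;> nlinarith

theorem cosA_mem {a b d : ℝ} (ha : 0 < a) (hb : 0 < b) (h1 : |a - b| < d) (h2 : d < a + b) :
    cosA a b d ∈ Ioo (-1) 1 := by
  have hd : 0 < d := (abs_nonneg _).trans_lt h1
  have h3 := abs_lt.1 h1
  unfold cosA
  constructor
  · rw [lt_div_iff₀ (by positivity)]
    nlinarith
  · rw [div_lt_iff₀ (by positivity)]
    nlinarith

theorem cos_alp {a b d : ℝ} (ha : 0 < a) (hb : 0 < b) (h1 : |a - b| < d) (h2 : d < a + b) :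
    Real.cos (alp a b d) = cosA a b d := by
  have h := cosA_mem ha hb h1 h2
  unfold alp
  exact Real.cos_arccos h.1.le h.2.le

theorem cross_eventually {v : ℂ → ℝ} {t : ℝ} (ht : 0 < t) {p q : ℂ} (hc : Cross v t p q) :
    ∀ᶠ s in 𝓝 t, Cross v s p q := by
  have hcont : ContinuousAt (fun s : ℝ => dist p q / s) t := continuousAt_const.div continuousAt_id
    ht.ne'
  unfold Cross at hc ⊢
  exact (hcont.eventually (lt_mem_nhds hc.1)).and (hcont.eventually (gt_mem_nhds hc.2))

theorem sgn_sq {σ : ℝ} (h : σ ∈ sgn2) : σ * σ = 1 := by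
  unfold sgn2 at h
  simp only [Finset.mem_insert, Finset.mem_singleton] at h
  rcases h with rfl | rfl <;> norm_num

theorem sgn_cos {σ : ℝ} (h : σ ∈ sgn2) (u : ℝ) : Real.cos (σ * u) = Real.cos u := by
  unfold sgn2 at h
  simp only [Finset.mem_insert, Finset.mem_singleton] at h
  rcases h with rfl | rfl
  · rw [one_mul]
  · rw [neg_one_mul, Real.cos_neg]

/-- the angle of the corner in `(-π, π]` -/
noncomputable def ang (v : ℂ → ℝ) (t : ℝ) (p : ℂ) (x : ℂ × ℝ) : ℝ :=
  toIocMod Real.two_pi_pos (-Real.pi) (arg (x.1 - p) + x.2 * alp (v p) (v x.1) (dist p x.1 / t))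

theorem ang_mem (v : ℂ → ℝ) (t : ℝ) (p : ℂ) (x : ℂ × ℝ) :
    ang v t p x ∈ Ioc (-Real.pi) Real.pi := by
  have h := toIocMod_mem_Ioc Real.two_pi_pos (-Real.pi)
    (arg (x.1 - p) + x.2 * alp (v p) (v x.1) (dist p x.1 / t))
  have e : -Real.pi + 2 * Real.pi = Real.pi := by ring
  rw [e] at h
  exact h

theorem ang_eq (v : ℂ → ℝ) (t : ℝ) (p : ℂ) (x : ℂ × ℝ) : ∃ k : ℤ,
    ang v t p x = arg (x.1 - p) + x.2 * alp (v p) (v x.1) (dist p x.1 / t) +
      k * (2 * Real.pi) := by
  refine ⟨-toIocDiv Real.two_pi_pos (-Real.pi)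
    (arg (x.1 - p) + x.2 * alp (v p) (v x.1) (dist p x.1 / t)), ?_⟩
  unfold ang
  rw [toIocMod]
  simp only [zsmul_eq_mul]
  push_cast
  ring

theorem circ_ang (v : ℂ → ℝ) (t : ℝ) (p : ℂ) (x : ℂ × ℝ) :
    circleMap p (t * v p) (ang v t p x) = cor v t p x.1 x.2 := by
  obtain ⟨k, hk⟩ := ang_eq v t p x
  rw [hk, circ_add_int]
  rfl

theorem circ_inj {p : ℂ} {R θ θ' : ℝ} (hR : 0 < R) (h : circleMap p R θ = circleMap p R θ')
    (h1 : θ ∈ Ioc (-Real.pi) Real.pi) (h2 : θ' ∈ Ioc (-Real.pi) Real.pi) : θ = θ' := by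
  rw [circleMap_eq_circleMap_iff p hR.ne'] at h
  obtain ⟨n, hn⟩ := h
  have h3 : θ = θ' + n * (2 * Real.pi) := by
    have h4 : (θ : ℂ) * I = (θ' + n * (2 * Real.pi)) * I := by rw [hn]; ring
    have h5 := mul_right_cancel₀ I_ne_zero h4
    exact_mod_cast h5
  have h6 : n = 0 := by
    by_contra hne
    rcases lt_or_gt_of_ne hne with h7 | h7
    · have h8 : (n : ℝ) ≤ -1 := by exact_mod_cast Int.le_sub_one_of_lt h7
      have := Real.pi_pos
      nlinarith [h1.1, h1.2, h2.1, h2.2]
    · have h8 : (1 : ℝ) ≤ n := by exact_mod_cast h7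
      have := Real.pi_pos
      nlinarith [h1.1, h1.2, h2.1, h2.2]
  rw [h6] at h3
  simpa using h3

theorem circ_dist (p : ℂ) {R : ℝ} (hR : 0 ≤ R) (θ : ℝ) : dist (circleMap p R θ) p = R := by
  have := circleMap_mem_sphere p hR θ
  exact this

end DerE

open DerE

open scoped Classical in
theorem deriv_E {D K K2 : Set ℂ} {P : Finset ℂ} {v : ℂ → ℝ} {t0 t1 : ℝ}
    (hf : Front D K K2 P v t0 t1) {t : ℝ} (ht : t ∈ Ioo t0 t1) (hg : Gen P v t) {p : ℂ}
    (hp : p ∈ P) :
    HasDerivAt (fun s => volume.real (Et D P v s p))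
      (-(∑ q ∈ P.erase p, ∑ σ ∈ sgn2, if cEx D P v t p q σ then
        deriv (fun s => alp (v p) (v q) (dist p q / s)) t else 0)) t := by
  have ht0 : 0 < t := hf.t0pos.trans ht.1
  have hv := hf.vpos
  let E : ℝ → Set ℝ := fun s => {θ | circleMap p (s * v p) θ ∈ D ∧
    ∀ q ∈ P, q ≠ p → s * v q < dist (circleMap p (s * v p) θ) q}
  have hE : ∀ s, Et D P v s p = E s ∩ Ioc (-Real.pi) Real.pi := by
    intro s
    ext θ
    simp only [Et, E, mem_setOf_eq, mem_inter_iff]
    tauto
  simp only [hE]
  let C : Finset (ℂ × ℝ) := (P.erase p ×ˢ sgn2).filter fun x => cEx D P v t p x.1 x.2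
  have hC : ∀ x, x ∈ C ↔ (x.1 ∈ P ∧ x.1 ≠ p) ∧ x.2 ∈ sgn2 ∧ cEx D P v t p x.1 x.2 := by
    intro x
    simp only [C, Finset.mem_filter, Finset.mem_product, Finset.mem_erase]
    tauto
  -- injectivity
  have hinj : ∀ x ∈ C, ∀ y ∈ C, ang v t p x = ang v t p y → x = y := by
    intro x hx y hy hxy
    rw [hC] at hx hy
    have h1 : cor v t p x.1 x.2 = cor v t p y.1 y.2 := by
      rw [← circ_ang, ← circ_ang, hxy]
    have hdx := cor_dist hv ht0 hx.2.2.1 hx.2.1
    have hdy := cor_dist hv ht0 hy.2.2.1 hy.2.1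
    by_cases hq : x.1 = y.1
    · refine Prod.ext hq ?_
      by_contra hne
      have hcr := hx.2.2.1
      have hcn := cor_ne hv ht0 (Ne.symm hx.1.2) hcr
      have hsx := hx.2.1
      have hsy := hy.2.1
      unfold sgn2 at hsx hsy
      simp only [Finset.mem_insert, Finset.mem_singleton] at hsx hsy
      rw [← hq] at h1
      rcases hsx with h2 | h2 <;> rcases hsy with h3 | h3 <;> rw [h2, h3] at h1 hne
      · exact hne rfl
      · exact hcn h1
      · exact hcn h1.symm
      · exact hne rfl
    · exfalso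
      refine hg.2 p hp x.1 hx.1.1 y.1 hy.1.1 (Ne.symm hx.1.2) hq (Ne.symm hy.1.2)
        (cor v t p x.1 x.2) ⟨hdx.1, hdx.2, ?_⟩
      rw [h1]; exact hdy.2
  let Tc : Finset ℝ := C.image (ang v t p)
  let inv : ℝ → ℂ × ℝ := fun c => if h : ∃ x ∈ C, ang v t p x = c then h.choose else (p, 1)
  have hinv : ∀ x ∈ C, inv (ang v t p x) = x := by
    intro x hx
    have h : ∃ y ∈ C, ang v t p y = ang v t p x := ⟨x, hx, rfl⟩
    have h1 : inv (ang v t p x) = h.choose := dif_pos h
    rw [h1]
    exact hinj _ h.choose_spec.1 _ hx h.choose_spec.2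
  let sg : ℝ → ℝ := fun c => (inv c).2
  let A : ℂ → ℝ → ℝ := fun q s => alp (v p) (v q) (dist p q / s)
  let ϑ : ℝ → ℝ → ℝ := fun c s => c + (inv c).2 * (A (inv c).1 s - A (inv c).1 t)
  let d : ℝ → ℝ := fun c => (inv c).2 * deriv (A (inv c).1) t
  have hmain := moving (E := E) (t0 := t) ?_ ?_ Tc ?_ sg ?_ ϑ d ?_ ?_ ?_ ?_
  · convert hmain using 2
    rw [Finset.sum_image (fun x hx y hy hxy => hinj x hx y hy hxy)]
    have h1 : ∀ x ∈ C, sg (ang v t p x) * d (ang v t p x) = deriv (A x.1) t := by
      intro x hx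
      simp only [sg, d, hinv x hx]
      rw [← mul_assoc, sgn_sq ((hC x).1 hx).2.1, one_mul]
    rw [Finset.sum_congr rfl h1]
    rw [← Finset.sum_product' (P.erase p) sgn2 (fun q σ => if cEx D P v t p q σ then
      deriv (fun s => alp (v p) (v q) (dist p q / s)) t else 0)]
    rw [Finset.sum_filter]
  · -- periodicity
    intro s θ
    simp only [E, mem_setOf_eq]
    have h1 : circleMap p (s * v p) (θ + 2 * Real.pi) = circleMap p (s * v p) θ :=
      periodic_circleMap p (s * v p) θ
    rw [h1]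
  · -- measurability
    intro s
    have hcc : Continuous fun θ : ℝ => circleMap p (s * v p) θ := continuous_circleMap _ _
    have hopen : IsOpen (E s) := by
      have e : E s = (fun θ : ℝ => circleMap p (s * v p) θ) ⁻¹' D ∩
          ⋂ q ∈ P.erase p, {θ | s * v q < dist (circleMap p (s * v p) θ) q} := by
        ext θ
        simp only [E, mem_setOf_eq, mem_inter_iff, mem_preimage, mem_iInter, Finset.mem_erase]
        constructor
        · rintro ⟨h1, h2⟩; exact ⟨h1, fun q hq => h2 q hq.2 hq.1⟩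
        · rintro ⟨h1, h2⟩; exact ⟨h1, fun q hq hqp => h2 q ⟨hqp, hq⟩⟩
      rw [e]
      refine (hf.op.preimage hcc).inter (isOpen_biInter_finset fun q _ => ?_)
      exact isOpen_lt continuous_const (hcc.dist continuous_const)
    exact hopen.measurableSet
  · -- corners are in the period
    intro c hc
    obtain ⟨x, _, rfl⟩ := Finset.mem_image.1 hc
    exact ang_mem v t p x
  · -- signs
    intro c hc
    obtain ⟨x, hx, rfl⟩ := Finset.mem_image.1 hc
    simp only [sg, hinv x hx]
    have h := ((hC x).1 hx).2.1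
    unfold sgn2 at h
    simpa using h
  · -- derivative
    intro c hc
    obtain ⟨x, hx, rfl⟩ := Finset.mem_image.1 hc
    simp only [ϑ, d, hinv x hx]
    have hcr := ((hC x).1 hx).2.2.1
    have h1 := (diff_alp (hv p) (hv x.1) ht0 hcr.1 hcr.2).hasDerivAt
    exact ((h1.sub_const _).const_mul x.2).const_add _
  · intro c _
    simp only [ϑ, sub_self, mul_zero, add_zero]
  · -- local structure at a corner
    intro c hc
    obtain ⟨x, hx, rfl⟩ := Finset.mem_image.1 hc
    obtain ⟨⟨hxP, hxp⟩, hσ, hex⟩ := (hC x).1 hx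
    obtain ⟨hcr, hcD, hcl⟩ := hex
    simp only [sg, ϑ, hinv x hx]
    have hcont : Continuous fun y : ℝ × ℝ => circleMap p (y.1 * v p) y.2 := cont_circ p (v p)
    have hx0 : circleMap p (t * v p) (ang v t p x) = cor v t p x.1 x.2 := circ_ang v t p x
    have hev1 : ∀ᶠ y : ℝ × ℝ in 𝓝 (t, ang v t p x), circleMap p (y.1 * v p) y.2 ∈ D := by
      apply hcont.continuousAt.eventually_mem
      apply hf.op.mem_nhds
      show circleMap p (t * v p) (ang v t p x) ∈ D
      rw [hx0]; exact hcD
    have hev2 : ∀ᶠ y : ℝ × ℝ in 𝓝 (t, ang v t p x), ∀ l ∈ (P.erase p).erase x.1,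
        y.1 * v l < dist (circleMap p (y.1 * v p) y.2) l := by
      rw [Filter.eventually_all_finset]
      intro l hl
      simp only [Finset.mem_erase] at hl
      have hc1 : ContinuousAt (fun y : ℝ × ℝ => y.1 * v l) (t, ang v t p x) := by fun_prop
      have hc2 : ContinuousAt (fun y : ℝ × ℝ => dist (circleMap p (y.1 * v p) y.2) l)
          (t, ang v t p x) := (hcont.dist continuous_const).continuousAt
      apply hc1.eventually_lt hc2
      show t * v l < dist (circleMap p (t * v p) (ang v t p x)) l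
      rw [hx0]
      exact hcl l hl.2.2 hl.2.1 hl.1
    have hfst : Tendsto (fun y : ℝ × ℝ => y.1) (𝓝 (t, ang v t p x)) (𝓝 t) :=
      continuous_fst.tendsto _
    have hev3 : ∀ᶠ y : ℝ × ℝ in 𝓝 (t, ang v t p x), Cross v y.1 p x.1 :=
      hfst.eventually (cross_eventually ht0 hcr)
    have hev4 : ∀ᶠ y : ℝ × ℝ in 𝓝 (t, ang v t p x), 0 < y.1 :=
      hfst.eventually (lt_mem_nhds ht0)
    obtain ⟨k, hk⟩ := ang_eq v t p x
    have hA := alp_mem (hv p) (hv x.1) hcr.1 hcr.2
    have hev5 : ∀ᶠ y : ℝ × ℝ in 𝓝 (t, ang v t p x),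
        x.2 * (y.2 - arg (x.1 - p) - k * (2 * Real.pi)) ∈ Ioo 0 Real.pi := by
      have hc1 : ContinuousAt (fun y : ℝ × ℝ =>
          x.2 * (y.2 - arg (x.1 - p) - k * (2 * Real.pi))) (t, ang v t p x) := by fun_prop
      apply hc1.eventually_mem
      apply Ioo_mem_nhds
      · show 0 < x.2 * (ang v t p x - arg (x.1 - p) - k * (2 * Real.pi))
        rw [hk]
        have e : x.2 * (arg (x.1 - p) + x.2 * alp (v p) (v x.1) (dist p x.1 / t) +
            k * (2 * Real.pi) - arg (x.1 - p) - k * (2 * Real.pi)) =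
            (x.2 * x.2) * alp (v p) (v x.1) (dist p x.1 / t) := by ring
        rw [e, sgn_sq hσ, one_mul]
        exact hA.1
      · show x.2 * (ang v t p x - arg (x.1 - p) - k * (2 * Real.pi)) < Real.pi
        rw [hk]
        have e : x.2 * (arg (x.1 - p) + x.2 * alp (v p) (v x.1) (dist p x.1 / t) +
            k * (2 * Real.pi) - arg (x.1 - p) - k * (2 * Real.pi)) =
            (x.2 * x.2) * alp (v p) (v x.1) (dist p x.1 / t) := by ring
        rw [e, sgn_sq hσ, one_mul]
        exact hA.2
    filter_upwards [hev1, hev2, hev3, hev4, hev5] with y h1 h2 h3 h4 h5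
    have hAs := alp_mem (hv p) (hv x.1) h3.1 h3.2
    have step1 : y.2 ∈ E y.1 ↔ y.1 * v x.1 < dist (circleMap p (y.1 * v p) y.2) x.1 := by
      simp only [E, mem_setOf_eq]
      constructor
      · rintro ⟨_, h⟩; exact h x.1 hxP hxp
      · intro h
        refine ⟨h1, fun q hq hqp => ?_⟩
        by_cases hqx : q = x.1
        · rw [hqx]; exact h
        · exact h2 q (by simp only [Finset.mem_erase]; exact ⟨hqx, hqp, hq⟩)
    rw [step1, lt_dist_iff (hv p) (hv x.1) h4 (Ne.symm hxp), ← cos_alp (hv p) (hv x.1) h3.1 h3.2]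
    have e1 : Real.cos (y.2 - arg (x.1 - p)) =
        Real.cos (x.2 * (y.2 - arg (x.1 - p) - k * (2 * Real.pi))) := by
      rw [sgn_cos hσ, Real.cos_sub_int_mul_two_pi]
    rw [e1]
    have e2 : Real.cos (x.2 * (y.2 - arg (x.1 - p) - k * (2 * Real.pi))) <
        Real.cos (alp (v p) (v x.1) (dist p x.1 / y.1)) ↔
        alp (v p) (v x.1) (dist p x.1 / y.1) <
          x.2 * (y.2 - arg (x.1 - p) - k * (2 * Real.pi)) :=
      Real.strictAntiOn_cos.lt_iff_gt ⟨h5.1.le, h5.2.le⟩ ⟨hAs.1.le, hAs.2.le⟩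
    rw [e2]
    have e3 : x.2 * (y.2 - (ang v t p x + x.2 * (A x.1 y.1 - A x.1 t))) =
        x.2 * (y.2 - arg (x.1 - p) - k * (2 * Real.pi)) -
          alp (v p) (v x.1) (dist p x.1 / y.1) := by
      rw [hk]
      simp only [A]
      have h6 := sgn_sq hσ
      linear_combination (-(alp (v p) (v x.1) (dist p x.1 / y.1))) * h6
    rw [e3, sub_pos]
  · -- away from the corners
    intro θ0 hθ0 hnot
    have hcont : Continuous fun y : ℝ × ℝ => circleMap p (y.1 * v p) y.2 := cont_circ p (v p)
    have hR : 0 < t * v p := mul_pos ht0 (hv p)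
    have hdp : dist (circleMap p (t * v p) θ0) p = t * v p := circ_dist p hR.le θ0
    by_cases hcase : ∃ q ∈ P, q ≠ p ∧ dist (circleMap p (t * v p) θ0) q < t * v q
    · right
      obtain ⟨q, hq, hqp, hlt⟩ := hcase
      have hc1 : ContinuousAt (fun y : ℝ × ℝ => y.1 * v q) (t, θ0) := by fun_prop
      have hc2 : ContinuousAt (fun y : ℝ × ℝ => dist (circleMap p (y.1 * v p) y.2) q)
          (t, θ0) := (hcont.dist continuous_const).continuousAt
      filter_upwards [hc2.eventually_lt hc1 hlt] with y hy hyE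
      exact absurd (hyE.2 q hq hqp) (not_lt.2 hy.le)
    · push Not at hcase
      by_cases hD : circleMap p (t * v p) θ0 ∈ D
      · left
        have hlt : ∀ q ∈ P.erase p, t * v q < dist (circleMap p (t * v p) θ0) q := by
          intro q hq
          rw [Finset.mem_erase] at hq
          refine lt_of_le_of_ne (hcase q hq.2 hq.1) fun heq => hnot ?_
          have hgq := hg.1 p hp q hq.2 (Ne.symm hq.1)
          have htri1 : dist p q ≤ t * (v p + v q) := by
            have h1 := dist_triangle p (circleMap p (t * v p) θ0) q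
            rw [dist_comm p (circleMap p (t * v p) θ0), hdp, ← heq] at h1
            linarith
          have htri2 : t * |v p - v q| ≤ dist p q := by
            have h1 := abs_dist_sub_le p q (circleMap p (t * v p) θ0)
            rw [dist_comm p (circleMap p (t * v p) θ0), dist_comm q (circleMap p (t * v p) θ0), hdp,
              ← heq, ← mul_sub, abs_mul, abs_of_pos ht0] at h1
            exact h1
          have hcr : Cross v t p q := by
            constructor
            · rw [lt_div_iff₀ ht0, mul_comm]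
              exact lt_of_le_of_ne htri2 (Ne.symm hgq.2)
            · rw [div_lt_iff₀ ht0, mul_comm]
              exact lt_of_le_of_ne htri1 hgq.1
          obtain ⟨σ, hσ, hcor⟩ := cor_unique hv ht0 (Ne.symm hq.1) hdp heq.symm
          have hmem : (q, σ) ∈ C := by
            rw [hC]
            refine ⟨⟨hq.2, hq.1⟩, hσ, hcr, ?_, ?_⟩
            · show cor v t p q σ ∈ D
              rw [hcor]; exact hD
            · intro l hl hlp hlq
              show t * v l < dist (cor v t p q σ) l
              rw [hcor]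
              refine lt_of_le_of_ne (hcase l hl hlp) fun heq2 => ?_
              exact hg.2 p hp q hq.2 l hl (Ne.symm hq.1) (Ne.symm hlq) (Ne.symm hlp) _
                ⟨hdp, heq.symm, heq2.symm⟩
          refine Finset.mem_image.2 ⟨(q, σ), hmem, ?_⟩
          refine circ_inj (p := p) hR ?_ (ang_mem v t p (q, σ)) hθ0
          rw [circ_ang]
          exact hcor
        have hev1 : ∀ᶠ y : ℝ × ℝ in 𝓝 (t, θ0), circleMap p (y.1 * v p) y.2 ∈ D :=
          hcont.continuousAt.eventually_mem (hf.op.mem_nhds hD)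
        have hev2 : ∀ᶠ y : ℝ × ℝ in 𝓝 (t, θ0), ∀ l ∈ P.erase p,
            y.1 * v l < dist (circleMap p (y.1 * v p) y.2) l := by
          rw [Filter.eventually_all_finset]
          intro l hl
          have hc1 : ContinuousAt (fun y : ℝ × ℝ => y.1 * v l) (t, θ0) := by fun_prop
          have hc2 : ContinuousAt (fun y : ℝ × ℝ => dist (circleMap p (y.1 * v p) y.2) l)
              (t, θ0) := (hcont.dist continuous_const).continuousAt
          exact hc1.eventually_lt hc2 (hlt l hl)
        filter_upwards [hev1, hev2] with y h1 h2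
        exact ⟨h1, fun q hq hqp => h2 q (Finset.mem_erase.2 ⟨hqp, hq⟩)⟩
      · right
        have hcl : circleMap p (t * v p) θ0 ∉ closure D := by
          intro hcl
          have hfr : circleMap p (t * v p) θ0 ∈ frontier D := by
            rw [frontier, hf.op.interior_eq]
            exact ⟨hcl, hD⟩
          have hK : circleMap p (t * v p) θ0 ∈ K := by
            have h1 : circleMap p (t * v p) θ0 ∈ closedBall p (t1 * v p) := by
              rw [mem_closedBall, hdp]
              exact mul_le_mul_of_nonneg_right ht.2.le (hv p).le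
            rcases hf.free p hp h1 with h2 | h2
            · exact h2
            · exact absurd h2 hD
          obtain ⟨q, hq, hlt⟩ := hf.cover _ hfr hK
          have hlt2 : dist (circleMap p (t * v p) θ0) q < t * v q :=
            hlt.trans_le (mul_le_mul_of_nonneg_right ht.1.le (hv q).le)
          by_cases hqp : q = p
          · rw [hqp, hdp] at hlt2
            exact lt_irrefl _ hlt2
          · exact absurd hlt2 (not_lt.2 (hcase q hq hqp))
        have hev : ∀ᶠ y : ℝ × ℝ in 𝓝 (t, θ0), circleMap p (y.1 * v p) y.2 ∈ (closure D)ᶜ :=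
          hcont.continuousAt.eventually_mem (isClosed_closure.isOpen_compl.mem_nhds hcl)
        filter_upwards [hev] with y hy hyE
        exact hy (subset_closure hyE.1)

end Pool.Agent.FKM
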