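import Mathlib
import Pool.Agent.Helper13.FKM.Basic

/-!
FKM-3: divergence theorem on `D`.

Proof (helper4): smooth cut-off chi_tau = product over b of eta((dist x b.1 - b.2)/tau) on `D`, integration
by parts, polar coordinates around each centre and dominated convergence as tau tends to 0.
-/

set_option autoImplicit false

open Complex MeasureTheory Set Metric Filter
open scoped ComplexConjugate Topology ContDiff

namespace Pool.Agent.FKM

/-! ### the cut-off function -/

/-- a smooth function, `0` for `s ≤ 1/2` and `1` for `s ≥ 1` -/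
private noncomputable def eta (s : ℝ) : ℝ := Real.smoothTransition (2 * s - 1)

private theorem eta_contDiff : ContDiff ℝ 2 eta := by
  unfold eta
  exact (Real.smoothTransition.contDiff (n := 2)).comp
    ((contDiff_const.mul contDiff_id).sub contDiff_const)

private theorem eta_zero {s : ℝ} (hs : s ≤ 1 / 2) : eta s = 0 :=
  Real.smoothTransition.zero_of_nonpos (by linarith)

private theorem eta_one {s : ℝ} (hs : 1 ≤ s) : eta s = 1 :=
  Real.smoothTransition.one_of_one_le (by linarith)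

private theorem eta_nonneg (s : ℝ) : 0 ≤ eta s := Real.smoothTransition.nonneg _

private theorem eta_le_one (s : ℝ) : eta s ≤ 1 := Real.smoothTransition.le_one _

private theorem eta_hasDerivAt (s : ℝ) : HasDerivAt eta (deriv eta s) s :=
  ((eta_contDiff.differentiable (by norm_num)) s).hasDerivAt

private theorem deta_cont : Continuous (deriv eta) :=
  eta_contDiff.continuous_deriv (by norm_num)

private theorem deta_zero_left {s : ℝ} (hs : s < 1 / 2) : deriv eta s = 0 := by
  have h1 : eta =ᶠ[𝓝 s] fun _ => 0 := by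
    filter_upwards [Iio_mem_nhds hs] with x hx
    exact eta_zero (le_of_lt hx)
  rw [h1.deriv_eq]
  simp

private theorem deta_zero_right {s : ℝ} (hs : 1 < s) : deriv eta s = 0 := by
  have h1 : eta =ᶠ[𝓝 s] fun _ => 1 := by
    filter_upwards [Ioi_mem_nhds hs] with x hx
    exact eta_one (le_of_lt hx)
  rw [h1.deriv_eq]
  simp

private theorem deta_support {s : ℝ} (hs : deriv eta s ≠ 0) : s ∈ Icc (1 / 2 : ℝ) 1 := by
  refine ⟨?_, ?_⟩
  · by_contra h
    exact hs (deta_zero_left (not_le.1 h))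
  · by_contra h
    exact hs (deta_zero_right (not_le.1 h))

private theorem deta_compact : HasCompactSupport (deriv eta) := by
  refine HasCompactSupport.intro (isCompact_Icc (a := (1 / 2 : ℝ)) (b := 1)) ?_
  intro s hs
  by_contra h
  exact hs (deta_support h)

private theorem deta_integrable : Integrable (deriv eta) :=
  deta_cont.integrable_of_hasCompactSupport deta_compact

private theorem deta_integral : ∫ s, deriv eta s = 1 := by
  have h1 : Tendsto eta atBot (𝓝 0) := by
    refine tendsto_const_nhds.congr' ?_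
    filter_upwards [Iic_mem_atBot (1 / 2 : ℝ)] with x hx
    exact (eta_zero hx).symm
  have h2 : Tendsto eta atTop (𝓝 1) := by
    refine tendsto_const_nhds.congr' ?_
    filter_upwards [Ici_mem_atTop (1 : ℝ)] with x hx
    exact (eta_one hx).symm
  rw [integral_of_hasDerivAt_of_tendsto eta_hasDerivAt deta_integrable h1 h2]
  norm_num

/-! ### the cut-off of one disc -/

private noncomputable def eb (τ : ℝ) (b : ℂ × ℝ) (x : ℂ) : ℝ := eta ((‖x - b.1‖ - b.2) / τ)

private theorem eb_nonneg (τ : ℝ) (b : ℂ × ℝ) (x : ℂ) : 0 ≤ eb τ b x := eta_nonneg _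
private theorem eb_le_one (τ : ℝ) (b : ℂ × ℝ) (x : ℂ) : eb τ b x ≤ 1 := eta_le_one _

private theorem eb_zero {τ : ℝ} (hτ : 0 < τ) {b : ℂ × ℝ} {x : ℂ} (hx : ‖x - b.1‖ ≤ b.2 + τ / 2) :
    eb τ b x = 0 := by
  apply eta_zero
  rw [div_le_iff₀ hτ]
  linarith

private theorem eb_one {τ : ℝ} (hτ : 0 < τ) {b : ℂ × ℝ} {x : ℂ} (hx : b.2 + τ ≤ ‖x - b.1‖) :
    eb τ b x = 1 := by
  apply eta_one
  rw [le_div_iff₀ hτ]
  linarith

private theorem eb_eventually_zero {τ : ℝ} (hτ : 0 < τ) {b : ℂ × ℝ} {x : ℂ}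
    (hx : ‖x - b.1‖ ≤ b.2) : ∀ᶠ y in 𝓝 x, eb τ b y = 0 := by
  have h1 : {y : ℂ | ‖y - b.1‖ < b.2 + τ / 2} ∈ 𝓝 x :=
    (isOpen_lt (by fun_prop) continuous_const).mem_nhds (by
      show ‖x - b.1‖ < b.2 + τ / 2
      linarith)
  filter_upwards [h1] with y hy
  exact eb_zero hτ (le_of_lt hy)

private theorem eb_contDiff {τ : ℝ} (hτ : 0 < τ) {b : ℂ × ℝ} (hb : 0 < b.2) :
    ContDiff ℝ 1 (eb τ b) := by
  rw [contDiff_iff_contDiffAt]
  intro x
  by_cases hx : x = b.1
  · have h1 : eb τ b =ᶠ[𝓝 x] fun _ => 0 := by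
      refine eb_eventually_zero hτ ?_
      rw [hx, sub_self, norm_zero]
      exact hb.le
    exact contDiffAt_const.congr_of_eventuallyEq h1
  · have h1 : ContDiffAt ℝ 1 (fun y : ℂ => ‖y - b.1‖) x :=
      (contDiffAt_id.sub contDiffAt_const).norm ℝ (sub_ne_zero.2 hx)
    have h2 : ContDiffAt ℝ 1 (fun y : ℂ => (‖y - b.1‖ - b.2) / τ) x :=
      (h1.sub contDiffAt_const).div_const τ
    have h3 : ContDiffAt ℝ 1 eta ((‖x - b.1‖ - b.2) / τ) :=
      (eta_contDiff.of_le (by norm_num)).contDiffAt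
    exact h3.comp x h2

/-- the derivative of the cut-off of one disc -/
private theorem eb_fderiv {τ : ℝ} (hτ : 0 < τ) {b : ℂ × ℝ} (hb : 0 < b.2) (x w : ℂ) :
    fderiv ℝ (eb τ b) x w =
      deriv eta ((‖x - b.1‖ - b.2) / τ) / τ * (ip ((x - b.1) / ‖x - b.1‖) w) := by
  by_cases hx : x = b.1
  · have h1 : eb τ b =ᶠ[𝓝 x] fun _ => 0 := by
      refine eb_eventually_zero hτ ?_
      rw [hx, sub_self, norm_zero]
      exact hb.le
    rw [h1.fderiv_eq, hx, sub_self, norm_zero]
    rw [deta_zero_left]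
    · simp
    · have : (0 - b.2) / τ < 0 := div_neg_of_neg_of_pos (by linarith) hτ
      linarith
  · have hxn : 0 < ‖x - b.1‖ := norm_pos_iff.2 (sub_ne_zero.2 hx)
    have h0 : HasFDerivAt (fun y : ℂ => y - b.1) (ContinuousLinearMap.id ℝ ℂ) x :=
      (hasFDerivAt_id x).sub_const b.1
    have h1 := h0.norm_sq
    have h2 : HasFDerivAt (fun y : ℂ => Real.sqrt (‖y - b.1‖ ^ 2)) _ x :=
      h1.sqrt (by positivity)
    have h3 : (fun y : ℂ => Real.sqrt (‖y - b.1‖ ^ 2)) = fun y : ℂ => ‖y - b.1‖ := by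
      funext y
      rw [Real.sqrt_sq (norm_nonneg _)]
    rw [h3] at h2
    have h4 := (h2.sub_const b.2).mul_const (τ⁻¹)
    have h5 := (eta_hasDerivAt ((‖x - b.1‖ - b.2) * τ⁻¹)).comp_hasFDerivAt x h4
    have h6 : eb τ b = eta ∘ fun y : ℂ => (‖y - b.1‖ - b.2) * τ⁻¹ := by
      funext y
      unfold eb
      rw [div_eq_mul_inv]
      rfl
    rw [h6, h5.fderiv, div_eq_mul_inv (‖x - b.1‖ - b.2) τ]
    simp only [Real.sqrt_sq (norm_nonneg _)]
    have h7 : (innerSL ℝ (x - b.1)) w = (x - b.1).re * w.re + (x - b.1).im * w.im := by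
      rw [innerSL_apply_apply, Complex.inner]
      simp
      ring
    have h8 : ip ((x - b.1) / ‖x - b.1‖) w =
        ((x - b.1).re * w.re + (x - b.1).im * w.im) / ‖x - b.1‖ := by
      unfold ip
      rw [map_div₀, Complex.conj_ofReal, div_mul_eq_mul_div, Complex.div_ofReal_re]
      simp
      ring
    rw [h8, ← h7]
    simp only [smul_apply, smul_eq_mul, ContinuousLinearMap.comp_id, nsmul_eq_mul]
    push_cast
    field_simp

/-! ### the product -/

private noncomputable def gp (τ : ℝ) (F : Finset (ℂ × ℝ)) (x : ℂ) : ℝ := ∏ b ∈ F, eb τ b x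

private theorem gp_nonneg (τ : ℝ) (F : Finset (ℂ × ℝ)) (x : ℂ) : 0 ≤ gp τ F x :=
  Finset.prod_nonneg (fun b _ => eb_nonneg τ b x)

private theorem gp_le_one (τ : ℝ) (F : Finset (ℂ × ℝ)) (x : ℂ) : gp τ F x ≤ 1 :=
  Finset.prod_le_one (fun b _ => eb_nonneg τ b x) (fun b _ => eb_le_one τ b x)

private theorem gp_contDiff {τ : ℝ} (hτ : 0 < τ) {F : Finset (ℂ × ℝ)} (hF : ∀ b ∈ F, 0 < b.2) :
    ContDiff ℝ 1 (gp τ F) := by
  unfold gp
  exact contDiff_prod (fun b hb => eb_contDiff hτ (hF b hb))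

private theorem gp_fderiv {τ : ℝ} (hτ : 0 < τ) {F : Finset (ℂ × ℝ)} (hF : ∀ b ∈ F, 0 < b.2)
    (x w : ℂ) : fderiv ℝ (gp τ F) x w = ∑ b ∈ F, gp τ (F.erase b) x * fderiv ℝ (eb τ b) x w := by
  classical
  have h1 : HasFDerivAt (gp τ F) (∑ b ∈ F, (∏ j ∈ F.erase b, eb τ j x) • fderiv ℝ (eb τ b) x) x := by
    have h2 := HasFDerivAt.finsetProd (u := F) (x := x) (g := fun b => eb τ b)
      (g' := fun b => fderiv ℝ (eb τ b) x)
      (fun b hb => (((eb_contDiff hτ (hF b hb)).differentiable (by norm_num)) x).hasFDerivAt)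
    exact h2
  rw [h1.fderiv]
  simp [gp]

/-- the cut-off of `D` -/
private noncomputable def chi (τ : ℝ) (F : Finset (ℂ × ℝ)) (D : Set ℂ) (x : ℂ) : ℝ :=
  D.indicator (gp τ F) x

private theorem chi_eventually_zero {τ : ℝ} (hτ : 0 < τ) {F : Finset (ℂ × ℝ)} {D : Set ℂ}
    (h : Reg F D) {x : ℂ} (hx : x ∉ D) : ∀ᶠ y in 𝓝 x, chi τ F D y = 0 := by
  by_cases hxc : x ∈ closure D
  · have hxf : x ∈ frontier D := by
      rw [frontier, h.op.interior_eq]
      exact ⟨hxc, hx⟩
    have h1 := h.front hxf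
    simp only [cl, mem_iUnion, exists_prop] at h1
    obtain ⟨b, hb, hxb⟩ := h1
    rw [mem_closedBall, dist_eq_norm] at hxb
    filter_upwards [eb_eventually_zero hτ hxb] with y hy
    unfold chi
    by_cases hyD : y ∈ D
    · rw [indicator_of_mem hyD]
      exact Finset.prod_eq_zero hb hy
    · rw [indicator_of_notMem hyD]
  · filter_upwards [isClosed_closure.isOpen_compl.mem_nhds hxc] with y hy
    unfold chi
    rw [indicator_of_notMem (fun hyD => hy (subset_closure hyD))]

private theorem chi_eventually_eq {τ : ℝ} {F : Finset (ℂ × ℝ)} {D : Set ℂ}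
    (h : Reg F D) {x : ℂ} (hx : x ∈ D) : chi τ F D =ᶠ[𝓝 x] gp τ F := by
  filter_upwards [h.op.mem_nhds hx] with y hy
  unfold chi
  rw [indicator_of_mem hy]

private theorem chi_contDiff {τ : ℝ} (hτ : 0 < τ) {F : Finset (ℂ × ℝ)} {D : Set ℂ}
    (h : Reg F D) : ContDiff ℝ 1 (chi τ F D) := by
  rw [contDiff_iff_contDiffAt]
  intro x
  by_cases hx : x ∈ D
  · exact (gp_contDiff hτ h.pos).contDiffAt.congr_of_eventuallyEq (chi_eventually_eq h hx)
  · have h1 : chi τ F D =ᶠ[𝓝 x] fun _ => 0 := chi_eventually_zero hτ h hx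
    exact contDiffAt_const.congr_of_eventuallyEq h1

private theorem chi_fderiv {τ : ℝ} (hτ : 0 < τ) {F : Finset (ℂ × ℝ)} {D : Set ℂ}
    (h : Reg F D) (x w : ℂ) :
    fderiv ℝ (chi τ F D) x w = D.indicator (fun y => fderiv ℝ (gp τ F) y w) x := by
  by_cases hx : x ∈ D
  · rw [indicator_of_mem hx, (chi_eventually_eq h hx).fderiv_eq]
  · have h1 : chi τ F D =ᶠ[𝓝 x] fun _ => 0 := chi_eventually_zero hτ h hx
    rw [indicator_of_notMem hx, h1.fderiv_eq]
    simp

private theorem chi_compact {τ : ℝ} {F : Finset (ℂ × ℝ)} {D : Set ℂ}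
    (h : Reg F D) : HasCompactSupport (chi τ F D) := by
  refine HasCompactSupport.intro h.bdd.isCompact_closure ?_
  intro x hx
  unfold chi
  rw [indicator_of_notMem (fun hxD => hx (subset_closure hxD))]

/-- integration by parts -/
private theorem parts {χ : ℂ → ℝ} (hχ : ContDiff ℝ 1 χ) (hc : HasCompactSupport χ) {Y : ℂ → ℂ}
    (hY : ContDiff ℝ 1 Y) : ∫ x, χ x * dv Y x = - ∫ x, fderiv ℝ χ x (Y x) := by
  have hχd : Differentiable ℝ χ := hχ.differentiable (by norm_num)
  have hYd : Differentiable ℝ Y := hY.differentiable (by norm_num)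
  have hχc' : Continuous (fderiv ℝ χ) := hχ.continuous_fderiv (by norm_num)
  have hYc' : Continuous (fderiv ℝ Y) := hY.continuous_fderiv (by norm_num)
  have hdχc : ∀ v : ℂ, Continuous (fun x => fderiv ℝ χ x v) := fun v => hχc'.clm_apply continuous_const
  have hdχs : ∀ v : ℂ, HasCompactSupport (fun x => fderiv ℝ χ x v) := fun v => hc.fderiv_apply ℝ v
  have hre : ContDiff ℝ 1 (fun x => (Y x).re) := Complex.reCLM.contDiff.comp hY
  have him : ContDiff ℝ 1 (fun x => (Y x).im) := Complex.imCLM.contDiff.comp hY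
  have hred : ∀ x v, fderiv ℝ (fun x => (Y x).re) x v = (fderiv ℝ Y x v).re := by
    intro x v
    have h1 : HasFDerivAt (fun x => (Y x).re) (Complex.reCLM.comp (fderiv ℝ Y x)) x :=
      Complex.reCLM.hasFDerivAt.comp x (hYd x).hasFDerivAt
    rw [h1.fderiv]
    rfl
  have himd : ∀ x v, fderiv ℝ (fun x => (Y x).im) x v = (fderiv ℝ Y x v).im := by
    intro x v
    have h1 : HasFDerivAt (fun x => (Y x).im) (Complex.imCLM.comp (fderiv ℝ Y x)) x :=
      Complex.imCLM.hasFDerivAt.comp x (hYd x).hasFDerivAt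
    rw [h1.fderiv]
    rfl
  have key : ∀ (u : ℂ → ℝ) (v : ℂ), ContDiff ℝ 1 u →
      Integrable (fun x => χ x * fderiv ℝ u x v) ∧ Integrable (fun x => fderiv ℝ χ x v * u x) ∧
      ∫ x, χ x * fderiv ℝ u x v = - ∫ x, fderiv ℝ χ x v * u x := by
    intro u v hu
    have hu' : Continuous (fun x => fderiv ℝ u x v) :=
      (hu.continuous_fderiv (by norm_num)).clm_apply continuous_const
    have i1 : Integrable (fun x => χ x * fderiv ℝ u x v) :=
      (hχ.continuous.mul hu').integrable_of_hasCompactSupport hc.mul_right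
    have i2 : Integrable (fun x => fderiv ℝ χ x v * u x) :=
      ((hdχc v).mul hu.continuous).integrable_of_hasCompactSupport (hdχs v).mul_right
    have i3 : Integrable (fun x => χ x * u x) :=
      (hχ.continuous.mul hu.continuous).integrable_of_hasCompactSupport hc.mul_right
    exact ⟨i1, i2, integral_mul_fderiv_eq_neg_fderiv_mul_of_integrable i2 i1 i3
      (fun x _ => hχd x) (fun x _ => (hu.differentiable (by norm_num)) x)⟩
  obtain ⟨a1, a2, a3⟩ := key (fun x => (Y x).re) 1 hre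
  obtain ⟨b1, b2, b3⟩ := key (fun x => (Y x).im) I him
  simp only [hred, himd] at a1 a3 b1 b3
  have e1 : (fun x => χ x * dv Y x) =
      fun x => χ x * (fderiv ℝ Y x 1).re + χ x * (fderiv ℝ Y x I).im := by
    funext x
    unfold dv
    ring
  have e2 : (fun x => fderiv ℝ χ x (Y x)) =
      fun x => fderiv ℝ χ x 1 * (Y x).re + fderiv ℝ χ x I * (Y x).im := by
    funext x
    have h1 : Y x = (Y x).re • (1 : ℂ) + (Y x).im • I := by
      apply Complex.ext <;> simp
    nth_rewrite 1 [h1]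
    rw [map_add, map_smul, map_smul, smul_eq_mul, smul_eq_mul]
    ring
  rw [e1, e2, integral_add a1 b1, integral_add a2 b2, a3, b3]
  ring

/-- the basic identity before the limit -/
private theorem identity {τ : ℝ} (hτ : 0 < τ) {F : Finset (ℂ × ℝ)} {D : Set ℂ}
    (h : Reg F D) {Y : ℂ → ℂ} (hY : ContDiff ℝ 1 Y) :
    ∫ x, chi τ F D x * dv Y x = - ∫ x, D.indicator (fun y => ∑ b ∈ F,
      gp τ (F.erase b) y * (deriv eta ((‖y - b.1‖ - b.2) / τ) / τ *
        ip ((y - b.1) / ‖y - b.1‖) (Y y))) x := by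
  rw [parts (chi_contDiff hτ h) (chi_compact h) hY]
  congr 2
  funext x
  rw [chi_fderiv hτ h]
  by_cases hx : x ∈ D
  · rw [indicator_of_mem hx, indicator_of_mem hx, gp_fderiv hτ h.pos]
    refine Finset.sum_congr rfl (fun b hb => ?_)
    rw [eb_fderiv hτ (h.pos b hb)]
  · rw [indicator_of_notMem hx, indicator_of_notMem hx]



/-- points outside the circle, near an exposed point which lies on no other circle, are in `D` -/
private theorem ray {F : Finset (ℂ × ℝ)} {D : Set ℂ} (h : Reg F D) {b : ℂ × ℝ} (hb : b ∈ F)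
    {θ : ℝ} (hθ : circleMap b.1 b.2 θ ∈ closure D)
    (hoth : ∀ b' ∈ F, b' ≠ b → dist (circleMap b.1 b.2 θ) b'.1 ≠ b'.2) :
    ∀ᶠ r in 𝓝[>] b.2, circleMap b.1 r θ ∈ D := by
  classical
  have hb0 := h.pos b hb
  -- the other discs are far away
  have hO : IsOpen {y : ℂ | ∀ b' ∈ F.erase b, b'.2 < dist y b'.1} := by
    have h1 : {y : ℂ | ∀ b' ∈ F.erase b, b'.2 < dist y b'.1} =
        ⋂ b' ∈ F.erase b, {y : ℂ | b'.2 < dist y b'.1} := by
      ext y
      simp
    rw [h1]
    exact isOpen_biInter_finset (fun b' _ =>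
      isOpen_lt continuous_const (continuous_id.dist continuous_const))
  have hx0 : circleMap b.1 b.2 θ ∈ {y : ℂ | ∀ b' ∈ F.erase b, b'.2 < dist y b'.1} := by
    intro b' hb'
    have hb'' := Finset.mem_erase.1 hb'
    exact lt_of_le_of_ne (h.le_dist hb''.2 hθ) (hoth b' hb''.2 hb''.1).symm
  have hpolar : Continuous (fun q : ℝ × ℝ => circleMap b.1 q.1 q.2) := by
    unfold circleMap
    fun_prop
  have hnb : (fun q : ℝ × ℝ => circleMap b.1 q.1 q.2) ⁻¹'
      {y : ℂ | ∀ b' ∈ F.erase b, b'.2 < dist y b'.1} ∈ 𝓝 ((b.2, θ) : ℝ × ℝ) :=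
    hpolar.continuousAt.preimage_mem_nhds (hO.mem_nhds hx0)
  obtain ⟨δ, hδ, hball⟩ := Metric.mem_nhds_iff.1 hnb
  -- the polar rectangle
  set R : Set (ℝ × ℝ) := Ioo b.2 (b.2 + δ) ×ˢ Ioo (θ - δ) (θ + δ) with hR
  have hRconn : IsPreconnected R := ((convex_Ioo _ _).prod (convex_Ioo _ _)).isPreconnected
  set A : Set ℂ := (fun q : ℝ × ℝ => circleMap b.1 q.1 q.2) '' R with hA
  have hAconn : IsPreconnected A := hRconn.image _ hpolar.continuousOn
  have hRball : R ⊆ ball ((b.2, θ) : ℝ × ℝ) δ := by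
    rintro ⟨r, φ⟩ ⟨h1, h2⟩
    rw [mem_ball, Prod.dist_eq, max_lt_iff]
    constructor
    · rw [Real.dist_eq, abs_lt]
      constructor <;> linarith [h1.1, h1.2]
    · rw [Real.dist_eq, abs_lt]
      constructor <;> linarith [h2.1, h2.2]
  have hAF : ∀ y ∈ A, y ∉ cl F := by
    rintro _ ⟨⟨r, φ⟩, hq, rfl⟩ hcl
    simp only [cl, mem_iUnion, exists_prop] at hcl
    obtain ⟨b', hb', hy⟩ := hcl
    rw [mem_closedBall] at hy
    by_cases hbb : b' = b
    · subst hbb
      have h1 : dist (circleMap b'.1 r φ) b'.1 = |r| := by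
        rw [dist_eq_norm, circleMap_sub_center, norm_circleMap_zero]
      rw [h1] at hy
      have h2 : b'.2 < r := hq.1.1
      have h3 := le_abs_self r
      linarith
    · have h1 := hball (hRball hq) b' (Finset.mem_erase.2 ⟨hbb, hb'⟩)
      simp only at h1
      linarith
  have hAsub : A ⊆ D ∪ (closure D)ᶜ := by
    intro y hy
    by_cases hyc : y ∈ closure D
    · left
      by_contra hyD
      refine hAF y hy (h.front ?_)
      rw [frontier, h.op.interior_eq]
      exact ⟨hyc, hyD⟩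
    · exact Or.inr hyc
  -- the rectangle meets D
  have hAD : (A ∩ D).Nonempty := by
    have hcont : ContinuousAt (fun y : ℂ => arg ((y - b.1) * exp (-(θ * I))))
        (circleMap b.1 b.2 θ) := by
      have h1 : (circleMap b.1 b.2 θ - b.1) * exp (-(θ * I)) = (b.2 : ℂ) := by
        rw [circleMap_sub_center, circleMap_zero, mul_assoc, ← Complex.exp_add, add_neg_cancel,
          Complex.exp_zero, mul_one]
      have h2 : ContinuousAt arg ((circleMap b.1 b.2 θ - b.1) * exp (-(θ * I))) := by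
        rw [h1]
        exact continuousAt_arg (Complex.ofReal_mem_slitPlane.2 hb0)
      exact ContinuousAt.comp (f := fun y : ℂ => (y - b.1) * exp (-(θ * I))) h2 (by fun_prop)
    have harg0 : arg ((circleMap b.1 b.2 θ - b.1) * exp (-(θ * I))) = 0 := by
      rw [circleMap_sub_center, circleMap_zero, mul_assoc, ← Complex.exp_add, add_neg_cancel,
        Complex.exp_zero, mul_one, arg_ofReal_of_nonneg hb0.le]
    have e1 : ∀ᶠ y in 𝓝 (circleMap b.1 b.2 θ), |arg ((y - b.1) * exp (-(θ * I)))| < δ := by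
      have h1 : {t : ℝ | |t| < δ} ∈ 𝓝 (arg ((circleMap b.1 b.2 θ - b.1) * exp (-(θ * I)))) := by
        rw [harg0]
        exact (isOpen_lt continuous_abs continuous_const).mem_nhds (by simpa using hδ)
      exact hcont.eventually h1
    have e2 : ∀ᶠ y in 𝓝 (circleMap b.1 b.2 θ), dist y b.1 < b.2 + δ := by
      have h1 : dist (circleMap b.1 b.2 θ) b.1 = b.2 := by
        rw [dist_eq_norm, circleMap_sub_center, norm_circleMap_zero, abs_of_pos hb0]
      exact (isOpen_lt (continuous_id.dist continuous_const) continuous_const).mem_nhds (by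
        show dist (circleMap b.1 b.2 θ) b.1 < b.2 + δ
        rw [h1]
        linarith)
    obtain ⟨y, hyD, hy1, hy2⟩ := (mem_closure_iff_frequently.1 hθ).and_eventually (e1.and e2)
      |>.exists
    have hy3 := h.lt_dist hb hyD
    refine ⟨y, ⟨(dist y b.1, θ + arg ((y - b.1) * exp (-(θ * I)))), ⟨⟨hy3, hy2⟩, ?_⟩, ?_⟩, hyD⟩
    · rw [abs_lt] at hy1
      constructor
      · show θ - δ < θ + arg ((y - b.1) * exp (-(θ * I)))
        linarith [hy1.1]
      · show θ + arg ((y - b.1) * exp (-(θ * I))) < θ + δ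
        linarith [hy1.2]
    · show circleMap b.1 (dist y b.1) (θ + arg ((y - b.1) * exp (-(θ * I)))) = y
      have h1 : ‖(y - b.1) * exp (-(θ * I))‖ = dist y b.1 := by
        rw [norm_mul, dist_eq_norm]
        have h2 : -(θ * I) = ((-θ : ℝ) : ℂ) * I := by push_cast; ring
        rw [h2, norm_exp_ofReal_mul_I, mul_one]
      have h3 := norm_mul_exp_arg_mul_I ((y - b.1) * exp (-(θ * I)))
      rw [h1] at h3
      unfold circleMap
      push_cast
      rw [add_mul, Complex.exp_add]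
      have h4 : (dist y b.1 : ℂ) * (exp (θ * I) * exp (arg ((y - b.1) * exp (-(θ * I))) * I)) =
          ((dist y b.1 : ℂ) * exp (arg ((y - b.1) * exp (-(θ * I))) * I)) * exp (θ * I) := by ring
      rw [h4, h3, mul_assoc, ← Complex.exp_add, neg_add_cancel, Complex.exp_zero, mul_one]
      ring
  have hAD2 : A ⊆ D := by
    refine IsPreconnected.subset_left_of_subset_union h.op isClosed_closure.isOpen_compl ?_
      hAsub hAD hAconn
    exact Set.disjoint_left.2 (fun y hy hy2 => hy2 (subset_closure hy))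
  have h5 : ∀ᶠ r in 𝓝[>] b.2, r ∈ Ioo b.2 (b.2 + δ) :=
    Ioo_mem_nhdsGT (by linarith)
  filter_upwards [h5] with r hr
  exact hAD2 ⟨(r, θ), ⟨hr, by constructor <;> simp only <;> linarith⟩, rfl⟩



/-- integration of a radial weight times a bounded kernel in polar coordinates -/
private theorem radial {ρ : ℝ → ℝ} {k : ℂ → ℝ} {c : ℂ} {M : ℝ}
    (hρ : IntegrableOn (fun r => r * ρ r) (Ioi 0)) (hk : Measurable k) (hM : ∀ x, |k x| ≤ M) :
    ∫ y, ρ ‖y - c‖ * k y =
      ∫ r in Ioi (0 : ℝ), r * ρ r * ∫ θ in Ioo (-Real.pi) Real.pi, k (circleMap c r θ) := by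
  have e1 : ∫ y, ρ ‖y - c‖ * k y = ∫ y : ℂ, ρ ‖y‖ * k (y + c) := by
    rw [← integral_add_right_eq_self (fun y : ℂ => ρ ‖y - c‖ * k y) c]
    simp
  have e2 : ∫ y : ℂ, ρ ‖y‖ * k (y + c) =
      ∫ p in Ioi (0 : ℝ) ×ˢ Ioo (-Real.pi) Real.pi,
        p.1 * ρ p.1 * k (circleMap c p.1 p.2) := by
    rw [← Complex.integral_comp_polarCoord_symm (fun y : ℂ => ρ ‖y‖ * k (y + c))]
    have ht : polarCoord.target = Ioi (0 : ℝ) ×ˢ Ioo (-Real.pi) Real.pi := rfl
    rw [ht]
    refine setIntegral_congr_fun (measurableSet_Ioi.prod measurableSet_Ioo) ?_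
    rintro ⟨r, θ⟩ ⟨h1, h2⟩
    have hr : 0 < r := h1
    have h3 : Complex.polarCoord.symm (r, θ) = circleMap 0 r θ := by
      rw [Complex.polarCoord_symm_apply, circleMap_zero, Complex.exp_mul_I]
      push_cast
      ring
    show r • (ρ ‖Complex.polarCoord.symm (r, θ)‖ * k (Complex.polarCoord.symm (r, θ) + c)) =
      r * ρ r * k (circleMap c r θ)
    rw [h3, norm_circleMap_zero, abs_of_pos hr]
    have h4 : circleMap 0 r θ + c = circleMap c r θ := by
      unfold circleMap
      ring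
    rw [h4, smul_eq_mul]
    ring
  rw [e1, e2]
  have hmeas : Measurable (fun p : ℝ × ℝ => k (circleMap c p.1 p.2)) := by
    refine hk.comp ?_
    unfold circleMap
    fun_prop
  have hint : IntegrableOn (fun p : ℝ × ℝ => p.1 * ρ p.1 * k (circleMap c p.1 p.2))
      (Ioi (0 : ℝ) ×ˢ Ioo (-Real.pi) Real.pi) (volume.prod volume) := by
    unfold IntegrableOn
    rw [← Measure.prod_restrict]
    have h1 : Integrable (fun p : ℝ × ℝ => p.1 * ρ p.1)
        ((volume.restrict (Ioi (0 : ℝ))).prod (volume.restrict (Ioo (-Real.pi) Real.pi))) :=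
      Integrable.comp_fst (f := fun r => r * ρ r) hρ _
    exact h1.mul_bdd hmeas.aestronglyMeasurable (Filter.Eventually.of_forall (fun p => hM _))
  rw [Measure.volume_eq_prod, setIntegral_prod _ hint]
  refine setIntegral_congr_fun measurableSet_Ioi ?_
  intro r _
  show ∫ θ in Ioo (-Real.pi) Real.pi, r * ρ r * k (circleMap c r θ) = _
  rw [integral_const_mul]

/-- the radial substitution -/
private theorem subst {g : ℝ → ℝ} {b τ : ℝ} (hτ : 0 < τ) :
    ∫ r, g r = τ * ∫ s, g (b + τ * s) := by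
  have h1 := Measure.integral_comp_mul_left (fun x => g (b + x)) τ
  rw [integral_add_left_eq_self g b, abs_of_pos (inv_pos.2 hτ), smul_eq_mul] at h1
  rw [h1]
  field_simp


private theorem limit_lemma {kk : ℝ → ℂ → ℝ} {M : ℝ} (hmeas : ∀ τ, 0 < τ → Measurable (kk τ))
    (hM : ∀ τ, 0 < τ → ∀ x, |kk τ x| ≤ M) {b : ℂ × ℝ} (hb : 0 < b.2) {L : ℝ → ℝ}
    (hL : ∀ᵐ θ ∂(volume.restrict (Ioo (-Real.pi) Real.pi)), ∀ s ∈ Icc (1 / 2 : ℝ) 1,
      Tendsto (fun τ => kk τ (circleMap b.1 (b.2 + τ * s) θ)) (𝓝[>] 0) (𝓝 (L θ))) :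
    Tendsto (fun τ => ∫ y, deriv eta ((‖y - b.1‖ - b.2) / τ) / τ * kk τ y) (𝓝[>] 0)
      (𝓝 (b.2 * ∫ θ in Ioo (-Real.pi) Real.pi, L θ)) := by
  have hM0 : 0 ≤ M := le_trans (abs_nonneg _) (hM 1 one_pos 0)
  have hcirc : ∀ r : ℝ, Measurable (fun θ : ℝ => circleMap b.1 r θ) := fun r =>
    (continuous_circleMap b.1 r).measurable
  -- the formula in polar coordinates
  have hform : ∀ τ : ℝ, 0 < τ → ∫ y, deriv eta ((‖y - b.1‖ - b.2) / τ) / τ * kk τ y =
      ∫ s, deriv eta s * ((b.2 + τ * s) *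
        ∫ θ in Ioo (-Real.pi) Real.pi, kk τ (circleMap b.1 (b.2 + τ * s) θ)) := by
    intro τ hτ
    have hρ0 : ∀ r : ℝ, r ≤ 0 → deriv eta ((r - b.2) / τ) = 0 := by
      intro r hr
      apply deta_zero_left
      have : (r - b.2) / τ < 0 := div_neg_of_neg_of_pos (by linarith) hτ
      linarith
    have hρc : Continuous (fun r : ℝ => r * (deriv eta ((r - b.2) / τ) / τ)) :=
      continuous_id.mul ((deta_cont.comp (by fun_prop)).div_const τ)
    have hρi : Integrable (fun r : ℝ => r * (deriv eta ((r - b.2) / τ) / τ)) := by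
      refine hρc.integrable_of_hasCompactSupport ?_
      refine HasCompactSupport.intro (isCompact_Icc (a := b.2) (b := b.2 + τ)) ?_
      intro r hr
      have h1 : deriv eta ((r - b.2) / τ) = 0 := by
        by_contra h2
        apply hr
        have h3 := deta_support h2
        have h4 : 0 ≤ (r - b.2) / τ := by linarith [h3.1]
        have h5 := h3.2
        rw [div_le_one hτ] at h5
        have h6 : 0 ≤ r - b.2 := by
          have := mul_nonneg h4 hτ.le
          rwa [div_mul_cancel₀ _ hτ.ne'] at this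
        exact ⟨by linarith, by linarith⟩
      rw [h1]
      simp
    have h1 := radial (ρ := fun r => deriv eta ((r - b.2) / τ) / τ) (k := kk τ) (c := b.1)
      hρi.integrableOn (hmeas τ hτ) (hM τ hτ)
    rw [h1]
    rw [setIntegral_eq_integral_of_forall_compl_eq_zero]
    · rw [subst (b := b.2) hτ, ← integral_const_mul]
      congr 1
      funext s
      have h2 : (b.2 + τ * s - b.2) / τ = s := by
        field_simp
        ring
      rw [h2]
      field_simp
    · intro r hr
      rw [hρ0 r (not_lt.1 hr)]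
      simp
  have h2 : Tendsto (fun τ => ∫ s, deriv eta s * ((b.2 + τ * s) *
        ∫ θ in Ioo (-Real.pi) Real.pi, kk τ (circleMap b.1 (b.2 + τ * s) θ))) (𝓝[>] 0)
      (𝓝 (∫ s, deriv eta s * (b.2 * ∫ θ in Ioo (-Real.pi) Real.pi, L θ))) := by
    refine tendsto_integral_filter_of_dominated_convergence
      (fun s => |deriv eta s| * ((b.2 + 1) * (2 * Real.pi * M))) ?_ ?_ ?_ ?_
    · filter_upwards [self_mem_nhdsWithin] with τ hτ
      have hτ : 0 < τ := hτ
      refine Measurable.aestronglyMeasurable ?_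
      refine deta_cont.measurable.mul (Measurable.mul (by fun_prop) ?_)
      have h3 : StronglyMeasurable (fun p : ℝ × ℝ => kk τ (circleMap b.1 (b.2 + τ * p.1) p.2)) := by
        refine ((hmeas τ hτ).comp ?_).stronglyMeasurable
        unfold circleMap
        fun_prop
      exact (h3.integral_prod_right (ν := volume.restrict (Ioo (-Real.pi) Real.pi))).measurable
    · have hτ1 : ∀ᶠ τ : ℝ in 𝓝[>] 0, τ ∈ Ioo (0 : ℝ) 1 := Ioo_mem_nhdsGT one_pos
      filter_upwards [hτ1] with τ hτ
      refine Filter.Eventually.of_forall (fun s => ?_)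
      rw [norm_mul, Real.norm_eq_abs]
      by_cases hs : deriv eta s = 0
      · rw [hs]
        simp
      · have hs' := deta_support hs
        refine mul_le_mul_of_nonneg_left ?_ (abs_nonneg _)
        rw [norm_mul, Real.norm_eq_abs]
        have h3 : |b.2 + τ * s| ≤ b.2 + 1 := by
          rw [abs_of_nonneg]
          · have : τ * s ≤ 1 := mul_le_one₀ hτ.2.le (by linarith [hs'.1]) hs'.2
            linarith
          · have : 0 ≤ τ * s := mul_nonneg hτ.1.le (by linarith [hs'.1])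
            linarith
        have h4 : ‖∫ θ in Ioo (-Real.pi) Real.pi, kk τ (circleMap b.1 (b.2 + τ * s) θ)‖ ≤
            2 * Real.pi * M := by
          have h5 := norm_setIntegral_le_of_norm_le_const (μ := volume)
            (s := Ioo (-Real.pi) Real.pi) (f := fun θ => kk τ (circleMap b.1 (b.2 + τ * s) θ))
            (C := M) (by rw [Real.volume_Ioo]; exact ENNReal.ofReal_lt_top)
            (fun θ _ => hM τ hτ.1 _)
          have h6 : volume.real (Ioo (-Real.pi) Real.pi) = 2 * Real.pi := by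
            rw [Real.volume_real_Ioo_of_le (by linarith [Real.pi_pos])]
            ring
          rw [h6] at h5
          linarith
        exact mul_le_mul h3 h4 (norm_nonneg _) (by linarith)
    · exact deta_integrable.abs.mul_const _
    · refine Filter.Eventually.of_forall (fun s => ?_)
      by_cases hs : deriv eta s = 0
      · rw [hs]
        simp only [zero_mul]
        exact tendsto_const_nhds
      · have hs' := deta_support hs
        refine Tendsto.mul tendsto_const_nhds (Tendsto.mul ?_ ?_)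
        · have h3 : Tendsto (fun τ : ℝ => b.2 + τ * s) (𝓝 0) (𝓝 (b.2 + 0 * s)) :=
            Continuous.tendsto (by fun_prop) 0
          rw [zero_mul, add_zero] at h3
          exact h3.mono_left nhdsWithin_le_nhds
        · refine tendsto_integral_filter_of_dominated_convergence (fun _ => M) ?_ ?_ ?_ ?_
          · filter_upwards [self_mem_nhdsWithin] with τ hτ
            exact ((hmeas τ hτ).comp (hcirc _)).aestronglyMeasurable
          · filter_upwards [self_mem_nhdsWithin] with τ hτ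
            exact Filter.Eventually.of_forall (fun θ => hM τ hτ _)
          · exact integrable_const _
          · filter_upwards [hL] with θ hθ
            exact hθ s hs'
  have h3 : ∫ s, deriv eta s * (b.2 * ∫ θ in Ioo (-Real.pi) Real.pi, L θ) =
      b.2 * ∫ θ in Ioo (-Real.pi) Real.pi, L θ := by
    rw [integral_mul_const, deta_integral, one_mul]
  rw [h3] at h2
  refine h2.congr' ?_
  filter_upwards [self_mem_nhdsWithin] with τ hτ
  exact (hform τ hτ).symm

/-- the kernel of the boundary term of the disc `b` -/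
private noncomputable def kf (F : Finset (ℂ × ℝ)) (D : Set ℂ) (Y : ℂ → ℂ) (b : ℂ × ℝ) (τ : ℝ)
    (y : ℂ) : ℝ :=
  D.indicator (fun y => gp τ (F.erase b) y * ip ((y - b.1) / ‖y - b.1‖) (Y y)) y

private theorem ip_le (u w : ℂ) : |ip u w| ≤ ‖u‖ * ‖w‖ := by
  unfold ip
  refine (abs_re_le_norm _).trans ?_
  rw [norm_mul, norm_conj]

private theorem unit_le (z : ℂ) : ‖z / (‖z‖ : ℂ)‖ ≤ 1 := by
  rw [norm_div, Complex.norm_real, norm_norm]
  exact div_self_le_one _

private theorem kf_measurable {F : Finset (ℂ × ℝ)} {D : Set ℂ} (h : Reg F D) {Y : ℂ → ℂ}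
    (hY : Continuous Y) (b : ℂ × ℝ) {τ : ℝ} (hτ : 0 < τ) : Measurable (kf F D Y b τ) := by
  have h1 : Measurable (gp τ (F.erase b)) :=
    (gp_contDiff hτ (fun b' hb' => h.pos b' (Finset.mem_of_mem_erase hb'))).continuous.measurable
  have h2 : Measurable (fun y : ℂ => ip ((y - b.1) / ‖y - b.1‖) (Y y)) := by
    unfold ip
    have hYm := hY.measurable
    have h3 : Measurable (fun y : ℂ => (y - b.1) / (‖y - b.1‖ : ℂ)) := by fun_prop
    exact Complex.measurable_re.comp
      ((Complex.continuous_conj.measurable.comp h3).mul hYm)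
  exact (h1.mul h2).indicator h.op.measurableSet

private theorem kf_le {F : Finset (ℂ × ℝ)} {D : Set ℂ} {Y : ℂ → ℂ} {M : ℝ} (hM0 : 0 ≤ M)
    (hM : ∀ x ∈ closure D, ‖Y x‖ ≤ M) (b : ℂ × ℝ) (τ : ℝ) (y : ℂ) : |kf F D Y b τ y| ≤ M := by
  unfold kf
  by_cases hy : y ∈ D
  · rw [indicator_of_mem hy, abs_mul, abs_of_nonneg (gp_nonneg _ _ _)]
    have h1 : |ip ((y - b.1) / ‖y - b.1‖) (Y y)| ≤ M := by
      refine (ip_le _ _).trans ?_
      calc ‖(y - b.1) / (‖y - b.1‖ : ℂ)‖ * ‖Y y‖ ≤ 1 * M :=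
            mul_le_mul (unit_le _) (hM y (subset_closure hy)) (norm_nonneg _) zero_le_one
        _ = M := one_mul M
    calc gp τ (F.erase b) y * |ip ((y - b.1) / ‖y - b.1‖) (Y y)| ≤ 1 * M :=
          mul_le_mul (gp_le_one _ _ _) h1 (abs_nonneg _) zero_le_one
      _ = M := one_mul M
  · rw [indicator_of_notMem hy, abs_zero]
    exact hM0

private theorem gp_eventually_one {F : Finset (ℂ × ℝ)} {u : ℝ → ℂ} {x : ℂ}
    (hu : Tendsto u (𝓝[>] 0) (𝓝 x)) (hF : ∀ b ∈ F, b.2 < dist x b.1) :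
    ∀ᶠ τ in 𝓝[>] (0 : ℝ), gp τ F (u τ) = 1 := by
  have h1 : ∀ b ∈ F, ∀ᶠ τ in 𝓝[>] (0 : ℝ), eb τ b (u τ) = 1 := by
    intro b hb
    have h2 : Tendsto (fun τ : ℝ => ‖u τ - b.1‖ - τ) (𝓝[>] 0) (𝓝 (‖x - b.1‖ - 0)) :=
      (hu.sub_const b.1).norm.sub (tendsto_id.mono_left nhdsWithin_le_nhds)
    have h3 : b.2 < ‖x - b.1‖ - 0 := by
      rw [sub_zero, ← dist_eq_norm]
      exact hF b hb
    filter_upwards [h2.eventually (lt_mem_nhds h3), self_mem_nhdsWithin] with τ h4 h5
    exact eb_one h5 (by linarith)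
  have h2 : ∀ᶠ τ in 𝓝[>] (0 : ℝ), ∀ b ∈ F, eb τ b (u τ) = 1 :=
    (Filter.eventually_all_finset F).2 h1
  filter_upwards [h2] with τ hτ
  unfold gp
  exact Finset.prod_eq_one hτ

private theorem kf_tendsto {F : Finset (ℂ × ℝ)} {D : Set ℂ} (h : Reg F D) {Y : ℂ → ℂ}
    (hY : Continuous Y) {b : ℂ × ℝ} (hb : b ∈ F) {θ : ℝ} (hθ : θ ∈ Ioc (-Real.pi) Real.pi)
    (hoth : ∀ b' ∈ F, b' ≠ b → dist (circleMap b.1 b.2 θ) b'.1 ≠ b'.2) {s : ℝ} (hs : 0 < s) :
    Tendsto (fun τ => kf F D Y b τ (circleMap b.1 (b.2 + τ * s) θ)) (𝓝[>] 0)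
      (𝓝 ((expo D b).indicator (fun θ => ip (exp (θ * I)) (Y (circleMap b.1 b.2 θ))) θ)) := by
  have hb0 := h.pos b hb
  have hr0 : Tendsto (fun τ : ℝ => b.2 + τ * s) (𝓝[>] 0) (𝓝 b.2) := by
    have h1 : Tendsto (fun τ : ℝ => b.2 + τ * s) (𝓝 0) (𝓝 (b.2 + 0 * s)) :=
      Continuous.tendsto (by fun_prop) 0
    rw [zero_mul, add_zero] at h1
    exact h1.mono_left nhdsWithin_le_nhds
  have hr : Tendsto (fun τ : ℝ => b.2 + τ * s) (𝓝[>] 0) (𝓝[>] b.2) := by
    rw [tendsto_nhdsWithin_iff]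
    refine ⟨hr0, ?_⟩
    filter_upwards [self_mem_nhdsWithin] with τ hτ
    have : 0 < τ * s := mul_pos hτ hs
    show b.2 < b.2 + τ * s
    linarith
  have hcm : Continuous (fun r : ℝ => circleMap b.1 r θ) := by
    unfold circleMap
    fun_prop
  have hu : Tendsto (fun τ : ℝ => circleMap b.1 (b.2 + τ * s) θ) (𝓝[>] 0)
      (𝓝 (circleMap b.1 b.2 θ)) := (hcm.tendsto b.2).comp hr0
  by_cases hE : circleMap b.1 b.2 θ ∈ closure D
  · rw [indicator_of_mem (show θ ∈ expo D b from ⟨hθ, hE⟩)]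
    have h1 := hr.eventually (ray h hb hE hoth)
    have h2 : ∀ᶠ τ in 𝓝[>] (0 : ℝ), gp τ (F.erase b) (circleMap b.1 (b.2 + τ * s) θ) = 1 := by
      refine gp_eventually_one hu (fun b' hb' => ?_)
      have hb'' := Finset.mem_erase.1 hb'
      exact lt_of_le_of_ne (h.le_dist hb''.2 hE) (hoth b' hb''.2 hb''.1).symm
    have h3 : Tendsto (fun τ : ℝ => ip (exp (θ * I)) (Y (circleMap b.1 (b.2 + τ * s) θ)))
        (𝓝[>] 0) (𝓝 (ip (exp (θ * I)) (Y (circleMap b.1 b.2 θ)))) := by
      have h4 : Continuous (fun y : ℂ => ip (exp (θ * I)) (Y y)) := by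
        unfold ip
        exact Complex.continuous_re.comp (continuous_const.mul hY)
      exact (h4.tendsto _).comp hu
    refine h3.congr' ?_
    filter_upwards [h1, h2, self_mem_nhdsWithin] with τ a1 a2 a3
    have a3 : 0 < τ := a3
    have a4 : 0 < b.2 + τ * s := by
      have := mul_pos a3 hs
      linarith
    unfold kf
    rw [indicator_of_mem a1, a2, one_mul, circleMap_sub_center, norm_circleMap_zero,
      abs_of_pos a4, circleMap_zero]
    congr 1
    have a5 : ((b.2 + τ * s : ℝ) : ℂ) ≠ 0 := by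
      exact_mod_cast a4.ne'
    rw [mul_div_assoc, mul_div_cancel₀ _ a5]
  · rw [indicator_of_notMem (fun hh => hE hh.2)]
    refine tendsto_const_nhds.congr' ?_
    filter_upwards [hu.eventually (isClosed_closure.isOpen_compl.mem_nhds hE)] with τ hτ
    unfold kf
    rw [indicator_of_notMem (fun hh => hτ (subset_closure hh))]

private theorem kf_ae {F : Finset (ℂ × ℝ)} {D : Set ℂ} (h : Reg F D) {Y : ℂ → ℂ}
    (hY : Continuous Y) {b : ℂ × ℝ} (hb : b ∈ F) :
    ∀ᵐ θ ∂(volume.restrict (Ioo (-Real.pi) Real.pi)), ∀ s ∈ Icc (1 / 2 : ℝ) 1,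
      Tendsto (fun τ => kf F D Y b τ (circleMap b.1 (b.2 + τ * s) θ)) (𝓝[>] 0)
        (𝓝 ((expo D b).indicator (fun θ => ip (exp (θ * I)) (Y (circleMap b.1 b.2 θ))) θ)) := by
  have hN : (⋃ b' ∈ F.erase b, {θ | θ ∈ Ioc (-Real.pi) Real.pi ∧
      dist (circleMap b.1 b.2 θ) b'.1 = b'.2}).Finite := by
    refine Set.Finite.biUnion (Finset.finite_toSet _) (fun b' hb' => ?_)
    have hb'' := Finset.mem_erase.1 (Finset.mem_coe.1 hb')
    exact finite_circ (h.pos b hb) (h.pos b' hb''.2) (fun hh => hb''.1 hh.symm)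
  have h1 : ∀ᵐ θ ∂(volume.restrict (Ioo (-Real.pi) Real.pi)),
      θ ∉ ⋃ b' ∈ F.erase b, {θ | θ ∈ Ioc (-Real.pi) Real.pi ∧
        dist (circleMap b.1 b.2 θ) b'.1 = b'.2} :=
    ae_restrict_of_ae (measure_eq_zero_iff_ae_notMem.1 (hN.measure_zero volume))
  filter_upwards [h1, ae_restrict_mem measurableSet_Ioo] with θ h2 h3 s hs
  have h4 : θ ∈ Ioc (-Real.pi) Real.pi := Ioo_subset_Ioc_self h3
  refine kf_tendsto h hY hb h4 (fun b' hb' hne heq => h2 ?_) (by linarith [hs.1])
  simp only [mem_iUnion]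
  exact ⟨b', Finset.mem_erase.2 ⟨hne, hb'⟩, h4, heq⟩

theorem div_thm {F : Finset (ℂ × ℝ)} {D : Set ℂ} (h : Reg F D) {Y : ℂ → ℂ}
    (hY : ContDiff ℝ 1 Y) :
    ∫ z in D, dv Y z = - bInt F D (fun z ν => ip ν (Y z)) := by
  classical
  have hYc := hY.continuous
  obtain ⟨M', hM'⟩ := h.bdd.isCompact_closure.exists_bound_of_continuousOn hYc.continuousOn
  set M := max M' 0 with hMdef
  have hM0 : 0 ≤ M := le_max_right _ _
  have hM : ∀ x ∈ closure D, ‖Y x‖ ≤ M := fun x hx => (hM' x hx).trans (le_max_left _ _)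
  have hdc : Continuous (dv Y) := by
    have h1 : Continuous (fderiv ℝ Y) := hY.continuous_fderiv (by norm_num)
    unfold dv
    exact (Complex.continuous_re.comp (h1.clm_apply continuous_const)).add
      (Complex.continuous_im.comp (h1.clm_apply continuous_const))
  have hdi : IntegrableOn (dv Y) D :=
    (hdc.continuousOn.integrableOn_compact h.bdd.isCompact_closure).mono_set subset_closure
  -- the left side
  have hleft : Tendsto (fun τ => ∫ x, chi τ F D x * dv Y x) (𝓝[>] 0) (𝓝 (∫ z in D, dv Y z)) := by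
    rw [← integral_indicator h.op.measurableSet]
    refine tendsto_integral_filter_of_dominated_convergence
      (fun x => ‖D.indicator (dv Y) x‖) ?_ ?_ ?_ ?_
    · filter_upwards [self_mem_nhdsWithin] with τ hτ
      exact ((chi_contDiff hτ h).continuous.mul hdc).aestronglyMeasurable
    · refine Filter.Eventually.of_forall (fun τ => Filter.Eventually.of_forall (fun x => ?_))
      unfold chi
      by_cases hx : x ∈ D
      · rw [indicator_of_mem hx, indicator_of_mem hx, norm_mul, Real.norm_eq_abs,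
          abs_of_nonneg (gp_nonneg _ _ _)]
        calc gp τ F x * ‖dv Y x‖ ≤ 1 * ‖dv Y x‖ :=
              mul_le_mul_of_nonneg_right (gp_le_one _ _ _) (norm_nonneg _)
          _ = ‖dv Y x‖ := one_mul _
      · rw [indicator_of_notMem hx, indicator_of_notMem hx]
        simp
    · exact ((integrable_indicator_iff h.op.measurableSet).2 hdi).norm
    · refine Filter.Eventually.of_forall (fun x => ?_)
      unfold chi
      by_cases hx : x ∈ D
      · rw [indicator_of_mem hx]
        refine tendsto_const_nhds.congr' ?_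
        filter_upwards [gp_eventually_one (F := F) (u := fun _ => x) (x := x)
          tendsto_const_nhds (fun b hb => h.lt_dist hb hx)] with τ hτ
        rw [indicator_of_mem hx, hτ, one_mul]
      · rw [indicator_of_notMem hx]
        refine tendsto_const_nhds.congr (fun τ => ?_)
        rw [indicator_of_notMem hx, zero_mul]
  -- the right side
  have hone : ∀ b ∈ F, Tendsto (fun τ => ∫ y, deriv eta ((‖y - b.1‖ - b.2) / τ) / τ *
      kf F D Y b τ y) (𝓝[>] 0) (𝓝 (b.2 * ∫ θ in expo D b,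
        ip (exp (θ * I)) (Y (circleMap b.1 b.2 θ)))) := by
    intro b hb
    have h1 := limit_lemma (kk := kf F D Y b) (M := M) (fun τ hτ => kf_measurable h hYc b hτ)
      (fun τ _ x => kf_le hM0 hM b τ x) (h.pos b hb) (kf_ae h hYc hb)
    have h2 : ∫ θ in Ioo (-Real.pi) Real.pi, (expo D b).indicator
        (fun θ => ip (exp (θ * I)) (Y (circleMap b.1 b.2 θ))) θ =
        ∫ θ in expo D b, ip (exp (θ * I)) (Y (circleMap b.1 b.2 θ)) := by
      rw [← integral_Ioc_eq_integral_Ioo, setIntegral_indicator (measurableSet_expo D b),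
        inter_eq_self_of_subset_right (expo_subset D b)]
    rw [h2] at h1
    exact h1
  have hsum : Tendsto (fun τ => ∑ b ∈ F, ∫ y, deriv eta ((‖y - b.1‖ - b.2) / τ) / τ *
      kf F D Y b τ y) (𝓝[>] 0) (𝓝 (bInt F D (fun z ν => ip ν (Y z)))) :=
    tendsto_finsetSum F hone
  have hright : ∀ᶠ τ in 𝓝[>] (0 : ℝ), ∫ x, chi τ F D x * dv Y x =
      - ∑ b ∈ F, ∫ y, deriv eta ((‖y - b.1‖ - b.2) / τ) / τ * kf F D Y b τ y := by
    filter_upwards [self_mem_nhdsWithin] with τ hτ
    have hτ : 0 < τ := hτ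
    rw [identity hτ h hY]
    congr 1
    rw [← integral_finsetSum]
    · congr 1
      funext x
      unfold kf
      by_cases hx : x ∈ D
      · simp only [indicator_of_mem hx]
        refine Finset.sum_congr rfl (fun b _ => ?_)
        ring
      · simp only [indicator_of_notMem hx]
        simp
    · intro b hb
      have hwc : Continuous (fun y : ℂ => deriv eta ((‖y - b.1‖ - b.2) / τ) / τ) :=
        (deta_cont.comp (by fun_prop)).div_const τ
      have hwi : Integrable (fun y : ℂ => deriv eta ((‖y - b.1‖ - b.2) / τ) / τ) := by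
        refine hwc.integrable_of_hasCompactSupport ?_
        refine HasCompactSupport.intro (isCompact_closedBall b.1 (b.2 + τ)) ?_
        intro y hy
        rw [mem_closedBall, dist_eq_norm, not_le] at hy
        rw [deta_zero_right, zero_div]
        rw [lt_div_iff₀ hτ]
        linarith
      exact hwi.mul_bdd (kf_measurable h hYc b hτ).aestronglyMeasurable
        (Filter.Eventually.of_forall (fun x => kf_le hM0 hM b τ x))
  exact tendsto_nhds_unique (hleft.congr' hright) hsum.neg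

end Pool.Agent.FKM
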