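import Mathlib
import Pool.Agent.Helper13.FKM.Defs

/-!
FKM-35: the flux identity in collars of the defining function.

Plan. χ_s(z) = min (max (-φ z / s) 0) 1 is Lipschitz with compact support closure Ω, ∇χ_s = -∇φ/s a.e. on
{-s < φ < 0} and 0 a.e. elsewhere. G = u₁ conj u₂: in Ω, dzb G = dzb u₁ conj u₂ + u₁ conj (dz u₂) = (iE/2)|u₂|^2 -
(iE/2)|u₁|^2 = -(iE/2)(‖u₁‖^2 - ‖u₂‖^2). Integration by parts
(LipschitzWith.integral_lineDeriv_mul_eq; G may be multiplied by a bump equal to 1 near closure Ω):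
∫ χ_s dzb G = -∫ G dzb χ_s = (1/(2s)) ∫_{-s<φ<0} G gr φ. On φ = 0 the boundary condition gives
G gr φ = -I ‖u₁‖^2 ‖gr φ‖. So G gr φ + I ‖u₁‖^2 ‖gr φ‖ is continuous and zero on {φ = 0}, hence uniformly small on
{z ∈ Ω | -s < φ z} (these sets shrink to frontier Ω; compactness of closure Ω). (1/s) |{z ∈ Ω | -s < φ z}| is
bounded: apply integration by parts to the field gr φ: (1/s) ∫_{-s<φ<0} ‖gr φ‖^2 = ∫ χ_s dv (gr φ) bounded, and
‖gr φ‖ ≥ c > 0 on {z ∈ Ω | -s < φ z} for small s. Passing to the limit: -(iE/2) ∫_Ω (‖u₁‖^2-‖u₂‖^2) =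
-(i/2) lim (1/s) ∫ ‖u₁‖^2 ‖gr φ‖.
-/

set_option autoImplicit false

open Complex MeasureTheory Set Metric Filter
open scoped ComplexConjugate Topology

namespace Pool.Agent.FKM

/-- the cut off profile -/
noncomputable def Flux_eta (s t : ℝ) : ℝ := min (max (-t / s) 0) 1

theorem Flux_eta_nonneg (s t : ℝ) : 0 ≤ Flux_eta s t := le_min (le_max_right _ _) zero_le_one

theorem Flux_eta_le (s t : ℝ) : Flux_eta s t ≤ 1 := min_le_right _ _

theorem Flux_eta_zero {s t : ℝ} (hs : 0 < s) (ht : 0 ≤ t) : Flux_eta s t = 0 := by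
  have : -t / s ≤ 0 := div_nonpos_of_nonpos_of_nonneg (by linarith) hs.le
  rw [Flux_eta, max_eq_right this]
  simp

theorem Flux_eta_one {s t : ℝ} (hs : 0 < s) (ht : t ≤ -s) : Flux_eta s t = 1 := by
  have : 1 ≤ -t / s := by rw [le_div_iff₀ hs]; linarith
  rw [Flux_eta, max_eq_left (by linarith), min_eq_right this]

theorem Flux_eta_mid {s t : ℝ} (hs : 0 < s) (h1 : -s ≤ t) (h2 : t ≤ 0) :
    Flux_eta s t = -(1 / s) * t := by
  have h3 : 0 ≤ -t / s := div_nonneg (by linarith) hs.le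
  have h4 : -t / s ≤ 1 := by rw [div_le_iff₀ hs]; linarith
  rw [Flux_eta, max_eq_left h3, min_eq_left h4]
  ring

theorem Flux_eta_lip {s : ℝ} (hs : 0 < s) : LipschitzWith (Real.toNNReal (1 / s)) (Flux_eta s) := by
  have h1 : LipschitzWith (Real.toNNReal (1 / s)) (fun t : ℝ => -t / s) := by
    refine LipschitzWith.of_dist_le_mul fun x y => ?_
    rw [Real.dist_eq, Real.dist_eq, Real.coe_toNNReal _ (by positivity)]
    have : -x / s - -y / s = -(1 / s) * (x - y) := by ring
    rw [this, abs_mul, abs_neg, abs_of_pos (by positivity)]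
  exact (h1.max_const 0).min_const 1

/-- the set up: `Ω = {φ < 0}` is contained in a ball -/
theorem Flux_ibp {Ω : Set ℂ} {φ : ℂ → ℝ}
    (hφ : ContDiff ℝ 1 φ) (hΩ : Ω = {z | φ z < 0}) (hb : Bornology.IsBounded Ω)
    {f : ℂ → ℝ} (hf : ContDiff ℝ 1 f) (v : ℂ) {s : ℝ} (hs : 0 < s) :
    (1 / s) * ∫ z in {z | z ∈ Ω ∧ -s < φ z}, fderiv ℝ φ z v * f z =
      ∫ z in Ω, Flux_eta s (φ z) * fderiv ℝ f z v := by
  obtain ⟨R, hR0, hR⟩ : ∃ R : ℝ, 0 < R ∧ Ω ⊆ ball (0 : ℂ) R := by
    obtain ⟨R, hR⟩ := hb.subset_ball (0 : ℂ)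
    exact ⟨max R 1, by positivity, hR.trans (ball_subset_ball (le_max_left _ _))⟩
  have hop : IsOpen Ω := by rw [hΩ]; exact isOpen_lt hφ.continuous continuous_const
  let ψ : ContDiffBump (0 : ℂ) := ⟨R, R + 1, hR0, by linarith⟩
  have hψc : ContDiff ℝ 1 (ψ : ℂ → ℝ) := ψ.contDiff
  have hψs : HasCompactSupport (ψ : ℂ → ℝ) := ψ.hasCompactSupport
  have hψ1 : ∀ z ∈ ball (0 : ℂ) R, ψ z = 1 := fun z hz =>
    ψ.one_of_mem_closedBall (ball_subset_closedBall hz)
  obtain ⟨C1, hC1⟩ := ContDiff.lipschitzWith_of_hasCompactSupport (𝕂 := ℝ) (n := 1)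
    (f := fun z => ψ z * φ z) (hψs.mul_right) (hψc.mul hφ) (by simp)
  obtain ⟨C2, hC2⟩ := ContDiff.lipschitzWith_of_hasCompactSupport (𝕂 := ℝ) (n := 1)
    (f := fun z => ψ z * f z) (hψs.mul_right) (hψc.mul hf) (by simp)
  have hχeq : ∀ z, Flux_eta s (ψ z * φ z) = Flux_eta s (φ z) := by
    intro z
    by_cases hz : z ∈ Ω
    · rw [hψ1 z (hR hz), one_mul]
    · have h0 : 0 ≤ φ z := by
        rw [hΩ] at hz
        simpa using hz
      rw [Flux_eta_zero hs h0, Flux_eta_zero hs (mul_nonneg ψ.nonneg h0)]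
  have hχ : LipschitzWith (Real.toNNReal (1 / s) * C1) (fun z => Flux_eta s (φ z)) := by
    have h1 := (Flux_eta_lip hs).comp hC1
    have h2 : (Flux_eta s ∘ fun z => ψ z * φ z) = fun z => Flux_eta s (φ z) := by
      funext z
      exact hχeq z
    rw [h2] at h1
    exact h1
  have hmain := LipschitzWith.integral_lineDeriv_mul_eq (μ := (volume : Measure ℂ)) hχ hC2
    (hψs.mul_right) v
  -- left side
  have hleft : ∀ z, lineDeriv ℝ (fun z => Flux_eta s (φ z)) z v * (ψ z * f z) =
      {z | z ∈ Ω ∧ -s < φ z}.indicator (fun z => -(1 / s) * (fderiv ℝ φ z v * f z)) z := by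
    intro z
    by_cases hz : z ∈ Ω ∧ -s < φ z
    · rw [indicator_of_mem (by exact hz), hψ1 z (hR hz.1), one_mul]
      have hz1 : φ z < 0 := by
        have := hz.1
        rw [hΩ] at this
        exact this
      have hev : (fun z => Flux_eta s (φ z)) =ᶠ[𝓝 z] fun z => -(1 / s) * φ z := by
        have h1 : ∀ᶠ w in 𝓝 z, -s < φ w := hφ.continuous.continuousAt.eventually_const_lt hz.2
        have h2 : ∀ᶠ w in 𝓝 z, φ w < 0 := hφ.continuous.continuousAt.eventually_lt_const hz1
        filter_upwards [h1, h2] with w hw1 hw2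
        exact Flux_eta_mid hs hw1.le hw2.le
      rw [Filter.EventuallyEq.lineDeriv_eq hev]
      have hd : DifferentiableAt ℝ (fun z => -(1 / s) * φ z) z :=
        ((hφ.differentiable (by simp)) z).const_mul _
      rw [hd.lineDeriv_eq_fderiv, fderiv_const_mul ((hφ.differentiable (by simp)) z)]
      simp
      ring
    · rw [indicator_of_notMem (by exact hz)]
      have h0 : lineDeriv ℝ (fun z => Flux_eta s (φ z)) z v = 0 := by
        rw [lineDeriv]
        by_cases h1 : 0 ≤ φ z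
        · apply IsLocalMin.deriv_eq_zero
          refine Filter.Eventually.of_forall fun t => ?_
          simp only [zero_smul, add_zero]
          rw [Flux_eta_zero hs h1]
          exact Flux_eta_nonneg _ _
        · have hzΩ : z ∈ Ω := by
            rw [hΩ]
            exact not_le.1 h1
          have h2 : φ z ≤ -s := by
            by_contra h3
            exact hz ⟨hzΩ, not_le.1 h3⟩
          apply IsLocalMax.deriv_eq_zero
          refine Filter.Eventually.of_forall fun t => ?_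
          simp only [zero_smul, add_zero]
          rw [Flux_eta_one hs h2]
          exact Flux_eta_le _ _
      rw [h0, zero_mul]
  have hright : ∀ z, lineDeriv ℝ (fun z => ψ z * f z) z (-v) * Flux_eta s (φ z) =
      Ω.indicator (fun z => -(Flux_eta s (φ z) * fderiv ℝ f z v)) z := by
    intro z
    by_cases hz : z ∈ Ω
    · rw [indicator_of_mem hz]
      have hev : (fun z => ψ z * f z) =ᶠ[𝓝 z] f := by
        filter_upwards [isOpen_ball.mem_nhds (hR hz)] with w hw
        rw [hψ1 w hw, one_mul]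
      rw [Filter.EventuallyEq.lineDeriv_eq hev, ((hf.differentiable (by simp)) z).lineDeriv_eq_fderiv, map_neg]
      ring
    · rw [indicator_of_notMem hz]
      have h0 : 0 ≤ φ z := by
        rw [hΩ] at hz
        simpa using hz
      rw [Flux_eta_zero hs h0, mul_zero]
  have hmeas : MeasurableSet {z | z ∈ Ω ∧ -s < φ z} :=
    (hop.inter (isOpen_lt continuous_const hφ.continuous)).measurableSet
  simp_rw [hleft, hright] at hmain
  rw [integral_indicator hmeas, integral_indicator hop.measurableSet, integral_const_mul,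
    integral_neg] at hmain
  linarith

theorem Flux_lim {Ω : Set ℂ} {φ : ℂ → ℝ}
    (hφ : ContDiff ℝ 1 φ) (hΩ : Ω = {z | φ z < 0}) (hb : Bornology.IsBounded Ω)
    {g : ℂ → ℝ} (hg : Continuous g) :
    Tendsto (fun s : ℝ => ∫ z in Ω, Flux_eta s (φ z) * g z) (𝓝[>] 0) (𝓝 (∫ z in Ω, g z)) := by
  have hop : IsOpen Ω := by rw [hΩ]; exact isOpen_lt hφ.continuous continuous_const
  have hint : IntegrableOn g Ω :=
    (hg.continuousOn.integrableOn_compact (hb.isCompact_closure)).mono_set subset_closure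
  refine tendsto_integral_filter_of_dominated_convergence (fun z => ‖g z‖) ?_ ?_ hint.norm ?_
  · filter_upwards [self_mem_nhdsWithin] with s hs
    have : Continuous fun z => Flux_eta s (φ z) * g z :=
      (((Flux_eta_lip hs).continuous).comp hφ.continuous).mul hg
    exact this.aestronglyMeasurable
  · filter_upwards with s
    filter_upwards with z
    rw [norm_mul, Real.norm_eq_abs (Flux_eta s (φ z)), abs_of_nonneg (Flux_eta_nonneg _ _)]
    exact mul_le_of_le_one_left (norm_nonneg _) (Flux_eta_le _ _)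
  · rw [ae_restrict_iff' hop.measurableSet]
    filter_upwards with z hz
    have hz1 : φ z < 0 := by
      rw [hΩ] at hz
      exact hz
    have : ∀ᶠ s in 𝓝[>] (0 : ℝ), Flux_eta s (φ z) * g z = g z := by
      have h1 : Ioo (0 : ℝ) (-φ z) ∈ 𝓝[>] (0 : ℝ) := Ioo_mem_nhdsGT (by linarith)
      filter_upwards [h1] with s hs
      rw [Flux_eta_one hs.1 (by linarith [hs.2]), one_mul]
    exact (tendsto_congr' this).2 tendsto_const_nhds

/-- real scalar product of the gradient and a field -/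
theorem Flux_field {Ω : Set ℂ} {φ : ℂ → ℝ}
    (hφ : ContDiff ℝ 1 φ) (hΩ : Ω = {z | φ z < 0}) (hb : Bornology.IsBounded Ω)
    {Y : ℂ → ℂ} (hY : ContDiff ℝ 1 Y) :
    Tendsto (fun s : ℝ => (1 / s) * ∫ z in {z | z ∈ Ω ∧ -s < φ z}, ip (gr φ z) (Y z))
      (𝓝[>] 0) (𝓝 (∫ z in Ω, dv Y z)) := by
  have hop : IsOpen Ω := by rw [hΩ]; exact isOpen_lt hφ.continuous continuous_const
  have hre : ContDiff ℝ 1 (fun z => (Y z).re) := Complex.reCLM.contDiff.comp hY
  have him : ContDiff ℝ 1 (fun z => (Y z).im) := Complex.imCLM.contDiff.comp hY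
  have hdre : ∀ z v, fderiv ℝ (fun z => (Y z).re) z v = (fderiv ℝ Y z v).re := by
    intro z v
    have h1 := Complex.reCLM.hasFDerivAt.comp z ((hY.differentiable (by simp)) z).hasFDerivAt
    have h2 : HasFDerivAt (fun z => (Y z).re) (Complex.reCLM.comp (fderiv ℝ Y z)) z := h1
    rw [h2.fderiv]
    rfl
  have hdim : ∀ z v, fderiv ℝ (fun z => (Y z).im) z v = (fderiv ℝ Y z v).im := by
    intro z v
    have h1 := Complex.imCLM.hasFDerivAt.comp z ((hY.differentiable (by simp)) z).hasFDerivAt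
    have h2 : HasFDerivAt (fun z => (Y z).im) (Complex.imCLM.comp (fderiv ℝ Y z)) z := h1
    rw [h2.fderiv]
    rfl
  have hdY : Continuous (fun z => fderiv ℝ Y z) := hY.continuous_fderiv (by simp)
  have hdφ : Continuous (fun z => fderiv ℝ φ z) := hφ.continuous_fderiv (by simp)
  have hdv : Continuous (dv Y) := by
    unfold dv
    have h1 : Continuous fun z => fderiv ℝ Y z 1 := hdY.clm_apply continuous_const
    have h2 : Continuous fun z => fderiv ℝ Y z I := hdY.clm_apply continuous_const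
    exact (Complex.continuous_re.comp h1).add (Complex.continuous_im.comp h2)
  refine (tendsto_congr' ?_).1 (Flux_lim hφ hΩ hb hdv)
  filter_upwards [self_mem_nhdsWithin] with s hs
  have hs' : 0 < s := hs
  have h1 := Flux_ibp hφ hΩ hb hre 1 hs'
  have h2 := Flux_ibp hφ hΩ hb him I hs'
  have hC : ∀ {g : ℂ → ℝ}, Continuous g → IntegrableOn g {z | z ∈ Ω ∧ -s < φ z} := fun {g} hg =>
    (hg.continuousOn.integrableOn_compact (hb.isCompact_closure)).mono_set
      (fun z hz => subset_closure hz.1)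
  have hO : ∀ {g : ℂ → ℝ}, Continuous g → IntegrableOn g Ω := fun {g} hg =>
    (hg.continuousOn.integrableOn_compact (hb.isCompact_closure)).mono_set subset_closure
  have hχc : Continuous fun z => Flux_eta s (φ z) :=
    ((Flux_eta_lip hs').continuous).comp hφ.continuous
  have e1 : ∫ z in Ω, Flux_eta s (φ z) * dv Y z =
      (∫ z in Ω, Flux_eta s (φ z) * fderiv ℝ (fun z => (Y z).re) z 1) +
      ∫ z in Ω, Flux_eta s (φ z) * fderiv ℝ (fun z => (Y z).im) z I := by
    rw [← integral_add]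
    · refine integral_congr_ae (Filter.Eventually.of_forall fun z => ?_)
      simp only [dv, hdre, hdim]
      ring
    · exact hO (hχc.mul ((hre.continuous_fderiv (by simp)).clm_apply continuous_const))
    · exact hO (hχc.mul ((him.continuous_fderiv (by simp)).clm_apply continuous_const))
  have e2 : ∫ z in {z | z ∈ Ω ∧ -s < φ z}, ip (gr φ z) (Y z) =
      (∫ z in {z | z ∈ Ω ∧ -s < φ z}, fderiv ℝ φ z 1 * (Y z).re) +
      ∫ z in {z | z ∈ Ω ∧ -s < φ z}, fderiv ℝ φ z I * (Y z).im := by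
    rw [← integral_add]
    · refine integral_congr_ae (Filter.Eventually.of_forall fun z => ?_)
      simp only [ip, gr, Complex.mul_re, Complex.conj_re, Complex.conj_im]
      ring
    · exact hC ((hdφ.clm_apply continuous_const).mul hre.continuous)
    · exact hC ((hdφ.clm_apply continuous_const).mul him.continuous)
  rw [e1, e2, mul_add, h1, h2]

theorem flux_collar {E : ℝ} {Ω : Set ℂ} {u₁ u₂ : ℂ → ℂ} {φ : ℂ → ℝ} (h : FK.Sol E Ω u₁ u₂)
    (hφ : ∀ k : ℕ, ContDiff ℝ k φ) (hΩ : Ω = {z | φ z < 0}) (hb : Bornology.IsBounded Ω)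
    (hnd : ∀ z, φ z = 0 → fderiv ℝ φ z ≠ 0)
    (hbc : ∀ z, φ z = 0 → I * (gr φ z / (‖gr φ z‖ : ℂ)) * u₁ z = u₂ z) :
    Tendsto (fun s : ℝ => (1 / s) * ∫ z in {z | z ∈ Ω ∧ -s < φ z}, ‖u₁ z‖ ^ 2 * ‖gr φ z‖)
      (𝓝[>] 0) (𝓝 (E * ∫ z in Ω, (‖u₁ z‖ ^ 2 - ‖u₂ z‖ ^ 2))) := by
  have hφ1 : ContDiff ℝ 1 φ := by exact_mod_cast hφ 1
  have hφ2 : ContDiff ℝ 2 φ := by exact_mod_cast hφ 2
  have hu1 : ContDiff ℝ 1 u₁ := by exact_mod_cast h.smooth₁ 1
  have hu2 : ContDiff ℝ 1 u₂ := by exact_mod_cast h.smooth₂ 1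
  have hop : IsOpen Ω := h.isOpen
  have hcl : ∀ z ∈ closure Ω, φ z ≤ 0 := by
    intro z hz
    have : closure Ω ⊆ {z | φ z ≤ 0} := by
      refine closure_minimal ?_ (isClosed_le hφ1.continuous continuous_const)
      rw [hΩ]
      exact fun z (hz : φ z < 0) => hz.le
    exact this hz
  -- the gradient field
  have hdφ : ContDiff ℝ 1 (fun z => fderiv ℝ φ z) := hφ2.fderiv_right (by norm_num)
  have hgr : ContDiff ℝ 1 (gr φ) := by
    have h1 : ContDiff ℝ 1 fun z => fderiv ℝ φ z 1 := hdφ.clm_apply contDiff_const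
    have h2 : ContDiff ℝ 1 fun z => fderiv ℝ φ z I := hdφ.clm_apply contDiff_const
    have h3 : gr φ = fun z => ((fderiv ℝ φ z 1 : ℝ) : ℂ) + ((fderiv ℝ φ z I : ℝ) : ℂ) * I := by
      funext z
      apply Complex.ext <;> simp [gr]
    rw [h3]
    exact (Complex.ofRealCLM.contDiff.comp h1).add
      ((Complex.ofRealCLM.contDiff.comp h2).mul contDiff_const)
  have hgr0 : ∀ z, φ z = 0 → gr φ z ≠ 0 := by
    intro z hz h0
    apply hnd z hz
    have h1 : fderiv ℝ φ z 1 = 0 := by
      have := congrArg Complex.re h0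
      simpa [gr] using this
    have h2 : fderiv ℝ φ z I = 0 := by
      have := congrArg Complex.im h0
      simpa [gr] using this
    ext w
    have hw : w = w.re • (1 : ℂ) + w.im • I := by
      apply Complex.ext <;> simp
    rw [hw, map_add, map_smul, map_smul, h1, h2]
    simp
  -- the flux field
  set Y : ℂ → ℂ := fun z => -I * (conj (u₁ z) * u₂ z) with hYdef
  have hconj : ContDiff ℝ 1 (fun z => conj (u₁ z)) :=
    (Complex.conjCLE : ℂ →L[ℝ] ℂ).contDiff.comp hu1
  have hY : ContDiff ℝ 1 Y := contDiff_const.mul (hconj.mul hu2)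
  have hdvY : ∀ z ∈ Ω, dv Y z = E * (‖u₁ z‖ ^ 2 - ‖u₂ z‖ ^ 2) := by
    intro z hz
    have d1 : DifferentiableAt ℝ u₁ z := (hu1.differentiable (by simp)) z
    have d2 : DifferentiableAt ℝ u₂ z := (hu2.differentiable (by simp)) z
    have d1c : HasFDerivAt (fun z => conj (u₁ z))
        ((Complex.conjCLE : ℂ →L[ℝ] ℂ).comp (fderiv ℝ u₁ z)) z :=
      (Complex.conjCLE : ℂ →L[ℝ] ℂ).hasFDerivAt.comp z d1.hasFDerivAt
    have hder : ∀ v, fderiv ℝ Y z v = -I * (conj (u₁ z) * fderiv ℝ u₂ z v +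
        u₂ z * conj (fderiv ℝ u₁ z v)) := by
      intro v
      have h1 := (d1c.mul d2.hasFDerivAt).const_mul (-I)
      have h2 : HasFDerivAt Y _ z := h1
      rw [h2.fderiv]
      simp
      ring
    have e1 := h.eq₁ z hz
    have e2 := h.eq₂ z hz
    rw [FK.dzb] at e1
    rw [FK.dz] at e2
    have f1 : fderiv ℝ u₁ z 1 = I * E * u₂ z - I * fderiv ℝ u₁ z I := by
      linear_combination 2 * e1
    have f2 : fderiv ℝ u₂ z 1 = I * E * u₁ z + I * fderiv ℝ u₂ z I := by
      linear_combination 2 * e2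
    rw [dv, hder, hder, f1, f2]
    rw [← Complex.normSq_eq_norm_sq, ← Complex.normSq_eq_norm_sq, Complex.normSq_apply,
      Complex.normSq_apply]
    simp only [Complex.mul_re, Complex.mul_im, Complex.add_re, Complex.add_im, Complex.neg_re,
      Complex.neg_im, Complex.I_re, Complex.I_im, Complex.conj_re, Complex.conj_im,
      Complex.sub_re, Complex.sub_im, Complex.ofReal_re, Complex.ofReal_im]
    ring
  have hlimY := Flux_field hφ1 hΩ hb hY
  have hlimg := Flux_field hφ1 hΩ hb hgr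
  have hIY : ∫ z in Ω, dv Y z = E * ∫ z in Ω, (‖u₁ z‖ ^ 2 - ‖u₂ z‖ ^ 2) := by
    rw [← integral_const_mul]
    exact setIntegral_congr_fun hop.measurableSet hdvY
  rw [hIY] at hlimY
  -- the error
  set e : ℂ → ℝ := fun z => ‖u₁ z‖ ^ 2 * ‖gr φ z‖ - ip (gr φ z) (Y z) with he
  have hipc : ∀ {V W : ℂ → ℂ}, Continuous V → Continuous W → Continuous fun z => ip (V z) (W z) := by
    intro V W hV hW
    exact Complex.continuous_re.comp ((Complex.continuous_conj.comp hV).mul hW)
  have hec : Continuous e :=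
    ((hu1.continuous.norm.pow 2).mul hgr.continuous.norm).sub (hipc hgr.continuous hY.continuous)
  have hee : ∀ z, φ z = 0 → e z = 0 := by
    intro z hz
    have hg0 := hgr0 z hz
    have hn0 : ‖gr φ z‖ ≠ 0 := norm_ne_zero_iff.2 hg0
    have hb' := hbc z hz
    simp only [he, hYdef, ip]
    rw [← hb']
    have h1 : conj (gr φ z) * (-I * (conj (u₁ z) * (I * (gr φ z / (‖gr φ z‖ : ℂ)) * u₁ z))) =
        ((‖u₁ z‖ ^ 2 * ‖gr φ z‖ : ℝ) : ℂ) := by
      have h2 : conj (gr φ z) * gr φ z = ((‖gr φ z‖ : ℝ) : ℂ) ^ 2 := by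
        rw [mul_comm, Complex.mul_conj, Complex.normSq_eq_norm_sq]
        push_cast
        rfl
      have h3 : conj (u₁ z) * u₁ z = ((‖u₁ z‖ : ℝ) : ℂ) ^ 2 := by
        rw [mul_comm, Complex.mul_conj, Complex.normSq_eq_norm_sq]
        push_cast
        rfl
      have hn0' : ((‖gr φ z‖ : ℝ) : ℂ) ≠ 0 := by exact_mod_cast hn0
      calc _ = -(I * I) * (conj (gr φ z) * gr φ z) * (conj (u₁ z) * u₁ z) /
            ((‖gr φ z‖ : ℝ) : ℂ) := by
            field_simp
        _ = _ := by
            rw [h2, h3, Complex.I_mul_I]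
            push_cast
            field_simp
    rw [h1, Complex.ofReal_re]
    ring
  -- smallness of the error
  have hsmall : ∀ ε : ℝ, 0 < ε → ∀ᶠ s in 𝓝[>] (0 : ℝ), ∀ z, z ∈ Ω → -s < φ z →
      |e z| ≤ ε * ip (gr φ z) (gr φ z) := by
    intro ε hε
    set B : Set ℂ := {z | z ∈ closure Ω ∧ ε * ip (gr φ z) (gr φ z) ≤ |e z|} with hB
    have hBc : IsCompact B := by
      have h1 : IsClosed {z | ε * ip (gr φ z) (gr φ z) ≤ |e z|} :=
        isClosed_le (continuous_const.mul (hipc hgr.continuous hgr.continuous)) hec.abs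
      exact hb.isCompact_closure.inter_right h1
    have hipp : ∀ z, gr φ z ≠ 0 → 0 < ip (gr φ z) (gr φ z) := by
      intro z hz
      have : ip (gr φ z) (gr φ z) = Complex.normSq (gr φ z) := by
        simp only [ip, Complex.mul_re, Complex.conj_re, Complex.conj_im, Complex.normSq_apply]
        ring
      rw [this]
      exact Complex.normSq_pos.2 hz
    have hBneg : ∀ z ∈ B, φ z < 0 := by
      intro z hz
      rcases (hcl z hz.1).lt_or_eq with h1 | h1
      · exact h1
      · exfalso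
        have h2 := hz.2
        rw [hee z h1, abs_zero] at h2
        have := mul_pos hε (hipp z (hgr0 z h1))
        linarith
    rcases B.eq_empty_or_nonempty with hBe | hBne
    · filter_upwards [self_mem_nhdsWithin] with s _ z hz _
      by_contra hcon
      have : z ∈ B := ⟨subset_closure hz, (not_le.1 hcon).le⟩
      rw [hBe] at this
      exact this
    · obtain ⟨w, hwB, hw⟩ := hBc.exists_isMaxOn hBne hφ1.continuous.continuousOn
      have h1 : Ioo (0 : ℝ) (-φ w) ∈ 𝓝[>] (0 : ℝ) := Ioo_mem_nhdsGT (by linarith [hBneg w hwB])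
      filter_upwards [h1] with s hs z hz hzs
      by_contra hcon
      have h2 : z ∈ B := ⟨subset_closure hz, (not_le.1 hcon).le⟩
      have h3 := hw h2
      have h4 : φ z ≤ φ w := h3
      linarith [hs.2]
  -- the error tends to zero
  have herr : Tendsto (fun s : ℝ => (1 / s) * ∫ z in {z | z ∈ Ω ∧ -s < φ z}, e z)
      (𝓝[>] 0) (𝓝 0) := by
    rw [Metric.tendsto_nhds]
    intro δ hδ
    set K : ℝ := |∫ z in Ω, dv (gr φ) z| + 1 with hK
    have hKpos : 0 < K := by positivity
    have hε : 0 < δ / (2 * K) := by positivity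
    have hbd : ∀ᶠ s in 𝓝[>] (0 : ℝ),
        (1 / s) * ∫ z in {z | z ∈ Ω ∧ -s < φ z}, ip (gr φ z) (gr φ z) < K := by
      refine hlimg.eventually_lt_const ?_
      rw [hK]
      have := le_abs_self (∫ z in Ω, dv (gr φ) z)
      linarith
    filter_upwards [hsmall _ hε, hbd, self_mem_nhdsWithin] with s h1 h2 hs
    have hs' : 0 < s := hs
    have hmeas : MeasurableSet {z | z ∈ Ω ∧ -s < φ z} :=
      (hop.inter (isOpen_lt continuous_const hφ1.continuous)).measurableSet
    have hC : ∀ {g : ℂ → ℝ}, Continuous g → IntegrableOn g {z | z ∈ Ω ∧ -s < φ z} := fun {g} hg =>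
      (hg.continuousOn.integrableOn_compact (hb.isCompact_closure)).mono_set
        (fun z hz => subset_closure hz.1)
    have h3 : |∫ z in {z | z ∈ Ω ∧ -s < φ z}, e z| ≤
        (δ / (2 * K)) * ∫ z in {z | z ∈ Ω ∧ -s < φ z}, ip (gr φ z) (gr φ z) := by
      calc _ ≤ ∫ z in {z | z ∈ Ω ∧ -s < φ z}, |e z| := abs_integral_le_integral_abs
        _ ≤ ∫ z in {z | z ∈ Ω ∧ -s < φ z}, (δ / (2 * K)) * ip (gr φ z) (gr φ z) := by
            refine setIntegral_mono_on (hC hec.abs)
              (hC (continuous_const.mul (hipc hgr.continuous hgr.continuous))) hmeas ?_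
            intro z hz
            exact h1 z hz.1 hz.2
        _ = _ := integral_const_mul _ _
    rw [Real.dist_eq, sub_zero, abs_mul, abs_of_pos (by positivity : (0 : ℝ) < 1 / s)]
    calc (1 / s) * |∫ z in {z | z ∈ Ω ∧ -s < φ z}, e z| ≤
          (1 / s) * ((δ / (2 * K)) * ∫ z in {z | z ∈ Ω ∧ -s < φ z}, ip (gr φ z) (gr φ z)) :=
          mul_le_mul_of_nonneg_left h3 (by positivity)
      _ = (δ / (2 * K)) * ((1 / s) * ∫ z in {z | z ∈ Ω ∧ -s < φ z}, ip (gr φ z) (gr φ z)) := by
          ring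
      _ ≤ (δ / (2 * K)) * K := mul_le_mul_of_nonneg_left h2.le hε.le
      _ = δ / 2 := by field_simp
      _ < δ := by linarith
  have hsum := hlimY.add herr
  rw [add_zero] at hsum
  refine (tendsto_congr' ?_).1 hsum
  filter_upwards [self_mem_nhdsWithin] with s hs
  have hC : ∀ {g : ℂ → ℝ}, Continuous g → IntegrableOn g {z | z ∈ Ω ∧ -s < φ z} := fun {g} hg =>
    (hg.continuousOn.integrableOn_compact (hb.isCompact_closure)).mono_set
      (fun z hz => subset_closure hz.1)
  rw [← mul_add, ← integral_add (hC (hipc hgr.continuous hY.continuous)) (hC hec)]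
  congr 1
  refine integral_congr_ae (Filter.Eventually.of_forall fun z => ?_)
  simp only [he]
  ring

end Pool.Agent.FKM
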