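import Mathlib
import Pool.Agent.Helper13.FKM.Defs

/-!
FKM-33: integrality of the winding number.

Plan. Choose a square grid of mesh ε such that every closed grid square which meets S is contained in U
(Lebesgue number), and a large box of grid squares containing S. Call these squares G-squares. For every
grid vertex w choose a real A(w) with f w = |f w| exp (i A(w)) if f w ≠ 0 (A(w) = 0 otherwise). For every
oriented grid edge e from w to w' let c(e) = ∫_e β·dx if e is in U and c(e) = A(w') - A(w) otherwise; in both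
cases c(e) ≡ A(w') - A(w) modulo 2π (on an edge in U, f(w') = f(w) exp(∫ f'/f)). For an edge e of a G-square let
χ(e) = ∫_e χ β·dx; for the other edges χ(e) = n_e c(e), where n_e is the integer value of χ on e (an edge not in
any G-square does not meet S... χ is constant on it because fderiv χ = 0 there). If an edge belongs to a
G-square and to a square which is not a G-square, χ is a constant integer n_e on it and χ(e) = n_e c(e) too.
Sum over all squares of the box of (bottom + right - top - left) edge values χ(e): interior edges cancel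
(telescoping sums over the two indices), the boundary of the box gives n (constant near the boundary: the
complement of the box... the boundary path does not meet S and is connected) times a sum ≡ 0 mod 2π. Each
non-G-square contributes n_q times a closed sum of c(e) ≡ 0. Each G-square contributes
∫_q (∂_x (χ β_2) - ∂_y (χ β_1)) = ∫_q ip (gr χ) (-I * be) (Green on a rectangle: Mathlib
integral2_divergence_prod_of_hasFDerivAt_off_countable or similar), because curl be = 0 in U. Hence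
∫_S ip (gr χ) (-I be) = ∫ over the G-squares ∈ 2π ℤ.
-/

set_option autoImplicit false

open Complex MeasureTheory Set Metric Filter
open scoped ComplexConjugate Topology

namespace Pool.Agent.FKM

/-- A nowhere vanishing path is recovered from its logarithmic derivative. -/
private theorem grid_logpath {k k' : ℝ → ℂ} {a b : ℝ} (hab : a ≤ b)
    (hk : ∀ s ∈ Icc a b, HasDerivAt k (k' s) s) (hk' : ContinuousOn k' (Icc a b))
    (hne : ∀ s ∈ Icc a b, k s ≠ 0) : k b = k a * exp (∫ s in a..b, k' s / k s) := by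
  have hkc : ContinuousOn k (Icc a b) := fun s hs => (hk s hs).continuousAt.continuousWithinAt
  have hrc : ContinuousOn (fun s => k' s / k s) (Icc a b) := hk'.div hkc hne
  set r : ℝ → ℂ := IccExtend hab ((Icc a b).domRestrict (fun s => k' s / k s)) with hr
  have hrcont : Continuous r := (continuousOn_iff_continuous_domRestrict.1 hrc).Icc_extend'
  have hreq : ∀ s ∈ Icc a b, r s = k' s / k s := by
    intro s hs
    rw [hr, IccExtend_of_mem _ _ hs]
    rfl
  set R : ℝ → ℂ := fun s => ∫ u in a..s, r u with hR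
  have hRd : ∀ s, HasDerivAt R (r s) s := fun s =>
    intervalIntegral.integral_hasDerivAt_right (hrcont.intervalIntegrable _ _)
      (hrcont.stronglyMeasurableAtFilter _ _) hrcont.continuousAt
  set G : ℝ → ℂ := fun s => k s * exp (-R s) with hG
  have hGd : ∀ s ∈ Icc a b, HasDerivAt G 0 s := by
    intro s hs
    have h1 := (hk s hs).mul ((hRd s).neg.cexp)
    have h0 : k' s * exp (-R s) + k s * (exp (-R s) * -r s) = 0 := by
      rw [hreq s hs]
      have := hne s hs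
      field_simp
      ring
    have h2 : HasDerivAt G (k' s * exp (-R s) + k s * (exp (-R s) * -r s)) s := h1
    rwa [h0] at h2
  have hconst := constant_of_has_deriv_right_zero (f := G) (a := a) (b := b)
    (fun s hs => (hGd s hs).continuousAt.continuousWithinAt)
    (fun s hs => (hGd s (Ico_subset_Icc_self hs)).hasDerivWithinAt) b (right_mem_Icc.2 hab)
  have hRb : R b = ∫ s in a..b, k' s / k s := by
    rw [hR]
    apply intervalIntegral.integral_congr
    intro s hs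
    rw [uIcc_of_le hab] at hs
    exact hreq s hs
  have hRa : R a = 0 := by rw [hR]; simp
  have h2 : k b * exp (-R b) = k a := by
    have : G a = k a := by rw [hG]; simp [hRa]
    rw [← this, ← hconst]
  rw [← hRb, ← h2, mul_assoc, ← exp_add]
  simp

private theorem grid_arg_exp (z : ℂ) : (arg (exp z) : Real.Angle) = (z.im : Real.Angle) := by
  have h := arg_mul_cos_add_sin_mul_I_coe_angle (Real.exp_pos z.re) (z.im : Real.Angle)
  rw [Real.Angle.cos_coe, Real.Angle.sin_coe] at h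
  rw [← h, exp_eq_exp_re_mul_sin_add_cos]
  push_cast
  rfl

/-- The change of the argument along a segment. -/
private theorem grid_angle {f : ℂ → ℂ} (hf : ContDiff ℝ 2 f) (w d : ℂ) {a b : ℝ} (hab : a ≤ b)
    (hne : ∀ s ∈ Icc a b, f (w + s * d) ≠ 0) :
    ((∫ s in a..b, (fderiv ℝ f (w + s * d) d / f (w + s * d)).im : ℝ) : Real.Angle) =
      (arg (f (w + b * d)) : Real.Angle) - (arg (f (w + a * d)) : Real.Angle) := by
  have hfd : Differentiable ℝ f := hf.differentiable (by norm_num)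
  have hfc : Continuous (fderiv ℝ f) := hf.continuous_fderiv (by norm_num)
  have hγ : ∀ s : ℝ, HasDerivAt (fun s : ℝ => w + s * d) d s := by
    intro s
    have h1 : HasDerivAt (fun s : ℝ => (s : ℂ)) 1 s := Complex.ofRealCLM.hasDerivAt
    simpa using (h1.mul_const d).const_add w
  have hγc : Continuous (fun s : ℝ => w + s * d) := by fun_prop
  have hk : ∀ s : ℝ, HasDerivAt (fun s : ℝ => f (w + s * d)) (fderiv ℝ f (w + s * d) d) s :=
    fun s => (hfd _).hasFDerivAt.comp_hasDerivAt s (hγ s)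
  have hk' : Continuous (fun s : ℝ => fderiv ℝ f (w + s * d) d) :=
    (hfc.comp hγc).clm_apply continuous_const
  have hkc : Continuous (fun s : ℝ => f (w + s * d)) := hfd.continuous.comp hγc
  have h1 := grid_logpath hab (fun s _ => hk s) hk'.continuousOn hne
  have h2 : (∫ s in a..b, (fderiv ℝ f (w + s * d) d / f (w + s * d)).im : ℝ) =
      (∫ s in a..b, fderiv ℝ f (w + s * d) d / f (w + s * d)).im := by
    have hint : IntervalIntegrable (fun s : ℝ => fderiv ℝ f (w + s * d) d / f (w + s * d))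
        volume a b := by
      apply ContinuousOn.intervalIntegrable
      rw [uIcc_of_le hab]
      exact hk'.continuousOn.div hkc.continuousOn hne
    exact Complex.imCLM.intervalIntegral_comp_comm hint
  rw [h2, h1, arg_mul_coe_angle (hne a (left_mem_Icc.2 hab)) (exp_ne_zero _), grid_arg_exp]
  abel

/-- The gradient of the argument is curl free. -/
private theorem grid_curl {f : ℂ → ℂ} {U : Set ℂ} (hU : IsOpen U) (hf : ContDiff ℝ 2 f)
    (hne : ∀ z ∈ U, f z ≠ 0) {be : ℂ → ℂ} (hbe : ContDiff ℝ 1 be)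
    (hb : ∀ z ∈ U, be z = ⟨(fderiv ℝ f z 1 / f z).im, (fderiv ℝ f z I / f z).im⟩)
    {z : ℂ} (hz : z ∈ U) : (fderiv ℝ be z 1).im = (fderiv ℝ be z I).re := by
  have hfd : Differentiable ℝ f := hf.differentiable (by norm_num)
  have hbd : Differentiable ℝ be := hbe.differentiable (by norm_num)
  have hDd : Differentiable ℝ (fderiv ℝ f) :=
    (hf.fderiv_right (m := 1) (by norm_num)).differentiable (by norm_num)
  have hsymm : fderiv ℝ (fderiv ℝ f) z 1 I = fderiv ℝ (fderiv ℝ f) z I 1 :=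
    (hf.contDiffAt.isSymmSndFDerivAt (by simp)) 1 I
  -- directional derivatives of the quotients
  have key : ∀ v w : ℂ, HasDerivAt (fun s : ℝ => fderiv ℝ f (z + s * v) w / f (z + s * v))
      ((fderiv ℝ (fderiv ℝ f) z v w * f z - fderiv ℝ f z w * fderiv ℝ f z v) / f z ^ 2) 0 := by
    intro v w
    have hγ : HasDerivAt (fun s : ℝ => z + s * v) v 0 := by
      have h1 : HasDerivAt (fun s : ℝ => (s : ℂ)) 1 0 := Complex.ofRealCLM.hasDerivAt
      simpa using (h1.mul_const v).const_add z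
    have hz0 : z + ((0 : ℝ) : ℂ) * v = z := by simp
    have h1 : HasDerivAt (fun s : ℝ => f (z + s * v)) (fderiv ℝ f z v) 0 := by
      have := (hfd (z + ((0 : ℝ) : ℂ) * v)).hasFDerivAt.comp_hasDerivAt (0 : ℝ) hγ
      rwa [hz0] at this
    have h2 : HasDerivAt (fun s : ℝ => fderiv ℝ f (z + s * v)) (fderiv ℝ (fderiv ℝ f) z v) 0 := by
      have := (hDd (z + ((0 : ℝ) : ℂ) * v)).hasFDerivAt.comp_hasDerivAt (0 : ℝ) hγ
      rwa [hz0] at this
    have h3 : HasDerivAt (fun s : ℝ => fderiv ℝ f (z + s * v) w)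
        (fderiv ℝ (fderiv ℝ f) z v w) 0 := by
      have := h2.clm_apply (hasDerivAt_const (0 : ℝ) w)
      simpa using this
    have h4 := h3.div h1 (by rw [hz0]; exact hne z hz)
    rw [hz0] at h4
    exact h4
  have hbdir : ∀ v : ℂ, HasDerivAt (fun s : ℝ => be (z + s * v)) (fderiv ℝ be z v) 0 := by
    intro v
    have hγ : HasDerivAt (fun s : ℝ => z + s * v) v 0 := by
      have h1 : HasDerivAt (fun s : ℝ => (s : ℂ)) 1 0 := Complex.ofRealCLM.hasDerivAt
      simpa using (h1.mul_const v).const_add z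
    have hz0 : z + ((0 : ℝ) : ℂ) * v = z := by simp
    have := (hbd (z + ((0 : ℝ) : ℂ) * v)).hasFDerivAt.comp_hasDerivAt (0 : ℝ) hγ
    rwa [hz0] at this
  have hev : ∀ v : ℂ, ∀ᶠ s : ℝ in 𝓝 0, z + s * v ∈ U := by
    intro v
    have hc : ContinuousAt (fun s : ℝ => z + s * v) 0 := by fun_prop
    apply hc.eventually_mem
    simpa using hU.mem_nhds hz
  have e1 : (fderiv ℝ be z 1).im =
      ((fderiv ℝ (fderiv ℝ f) z 1 I * f z - fderiv ℝ f z I * fderiv ℝ f z 1) / f z ^ 2).im := by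
    have h1 : HasDerivAt (fun s : ℝ => (be (z + s * 1)).im) (fderiv ℝ be z 1).im 0 :=
      Complex.imCLM.hasFDerivAt.comp_hasDerivAt (0 : ℝ) (hbdir 1)
    have h2 : HasDerivAt (fun s : ℝ => (fderiv ℝ f (z + s * 1) I / f (z + s * 1)).im)
        ((fderiv ℝ (fderiv ℝ f) z 1 I * f z - fderiv ℝ f z I * fderiv ℝ f z 1) / f z ^ 2).im 0 :=
      Complex.imCLM.hasFDerivAt.comp_hasDerivAt (0 : ℝ) (key 1 I)
    refine h1.unique (h2.congr_of_eventuallyEq ?_)
    filter_upwards [hev 1] with s hs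
    rw [hb _ hs]
  have e2 : (fderiv ℝ be z I).re =
      ((fderiv ℝ (fderiv ℝ f) z I 1 * f z - fderiv ℝ f z 1 * fderiv ℝ f z I) / f z ^ 2).im := by
    have h1 : HasDerivAt (fun s : ℝ => (be (z + s * I)).re) (fderiv ℝ be z I).re 0 :=
      Complex.reCLM.hasFDerivAt.comp_hasDerivAt (0 : ℝ) (hbdir I)
    have h2 : HasDerivAt (fun s : ℝ => (fderiv ℝ f (z + s * I) 1 / f (z + s * I)).im)
        ((fderiv ℝ (fderiv ℝ f) z I 1 * f z - fderiv ℝ f z 1 * fderiv ℝ f z I) / f z ^ 2).im 0 :=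
      Complex.imCLM.hasFDerivAt.comp_hasDerivAt (0 : ℝ) (key I 1)
    refine h1.unique (h2.congr_of_eventuallyEq ?_)
    filter_upwards [hev I] with s hs
    rw [hb _ hs]
  rw [e1, e2, hsymm, mul_comm (fderiv ℝ f z I)]

/-- the density -/
private noncomputable def gps (χ : ℂ → ℝ) (be : ℂ → ℂ) (z : ℂ) : ℝ :=
  fderiv ℝ χ z 1 * (be z).im - fderiv ℝ χ z I * (be z).re

private theorem gps_eq (χ : ℂ → ℝ) (be : ℂ → ℂ) (z : ℂ) :
    ip (gr χ z) (-I * be z) = gps χ be z := by
  unfold ip gr gps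
  simp [Complex.mul_re, Complex.mul_im]
  ring

/-- Green's formula on a rectangle. -/
private theorem grid_green {χ : ℂ → ℝ} {be : ℂ → ℂ} (hχ : ContDiff ℝ 1 χ) (hbe : ContDiff ℝ 1 be)
    {x0 x1 y0 y1 : ℝ} (hx : x0 ≤ x1) (hy : y0 ≤ y1)
    (hc : ∀ x ∈ Icc x0 x1, ∀ y ∈ Icc y0 y1, (fderiv ℝ be ⟨x, y⟩ 1).im = (fderiv ℝ be ⟨x, y⟩ I).re) :
    ∫ x in x0..x1, ∫ y in y0..y1, gps χ be ⟨x, y⟩ =
      (∫ x in x0..x1, χ ⟨x, y0⟩ * (be ⟨x, y0⟩).re) + (∫ y in y0..y1, χ ⟨x1, y⟩ * (be ⟨x1, y⟩).im) -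
      (∫ x in x0..x1, χ ⟨x, y1⟩ * (be ⟨x, y1⟩).re) -
      ∫ y in y0..y1, χ ⟨x0, y⟩ * (be ⟨x0, y⟩).im := by
  have hχd : Differentiable ℝ χ := hχ.differentiable (by norm_num)
  have hbd : Differentiable ℝ be := hbe.differentiable (by norm_num)
  set e : ℝ × ℝ →L[ℝ] ℂ := (equivRealProdCLM.symm : ℝ × ℝ →L[ℝ] ℂ) with he
  have hee : ∀ p : ℝ × ℝ, e p = ⟨p.1, p.2⟩ := by
    intro p
    apply Complex.ext <;> simp [he, equivRealProdCLM_symm_apply]
  set F : ℝ × ℝ → ℝ := fun p => χ (e p) * (be (e p)).im with hF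
  set Gg : ℝ × ℝ → ℝ := fun p => -(χ (e p) * (be (e p)).re) with hGg
  set F' : ℝ × ℝ → ℝ × ℝ →L[ℝ] ℝ := fun p => χ (e p) • (imCLM.comp ((fderiv ℝ be (e p)).comp e)) +
    (be (e p)).im • ((fderiv ℝ χ (e p)).comp e) with hF'
  set G' : ℝ × ℝ → ℝ × ℝ →L[ℝ] ℝ := fun p => -(χ (e p) • (reCLM.comp ((fderiv ℝ be (e p)).comp e)) +
    (be (e p)).re • ((fderiv ℝ χ (e p)).comp e)) with hG'
  have dF : ∀ p, HasFDerivAt F (F' p) p := by
    intro p
    have h1 : HasFDerivAt (fun p => χ (e p)) ((fderiv ℝ χ (e p)).comp e) p :=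
      (hχd (e p)).hasFDerivAt.comp p e.hasFDerivAt
    have h2 : HasFDerivAt (fun p => (be (e p)).im) (imCLM.comp ((fderiv ℝ be (e p)).comp e)) p :=
      imCLM.hasFDerivAt.comp p ((hbd (e p)).hasFDerivAt.comp p e.hasFDerivAt)
    exact h1.mul h2
  have dG : ∀ p, HasFDerivAt Gg (G' p) p := by
    intro p
    have h1 : HasFDerivAt (fun p => χ (e p)) ((fderiv ℝ χ (e p)).comp e) p :=
      (hχd (e p)).hasFDerivAt.comp p e.hasFDerivAt
    have h2 : HasFDerivAt (fun p => (be (e p)).re) (reCLM.comp ((fderiv ℝ be (e p)).comp e)) p :=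
      reCLM.hasFDerivAt.comp p ((hbd (e p)).hasFDerivAt.comp p e.hasFDerivAt)
    exact (h1.mul h2).neg
  have hval : ∀ p : ℝ × ℝ, F' p (1, 0) + G' p (0, 1) =
      gps χ be (e p) + χ (e p) * ((fderiv ℝ be (e p) 1).im - (fderiv ℝ be (e p) I).re) := by
    intro p
    have e1 : e (1, 0) = 1 := by rw [hee]; rfl
    have e2 : e (0, 1) = I := by rw [hee]; rfl
    simp only [hF', hG', gps, add_apply, smul_apply,
      neg_apply, ContinuousLinearMap.comp_apply, e1, e2, imCLM_apply,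
      reCLM_apply, smul_eq_mul]
    ring
  have hcont : Continuous fun p => F' p (1, 0) + G' p (0, 1) := by
    have c1 : Continuous (fun p => fderiv ℝ χ (e p)) :=
      (hχ.continuous_fderiv (by norm_num)).comp e.continuous
    have c2 : Continuous (fun p => fderiv ℝ be (e p)) :=
      (hbe.continuous_fderiv (by norm_num)).comp e.continuous
    have c3 : Continuous (fun p => χ (e p)) := hχd.continuous.comp e.continuous
    have c4 : Continuous (fun p => be (e p)) := hbd.continuous.comp e.continuous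
    simp only [hval, gps]
    have c5 : ∀ v : ℂ, Continuous (fun p => fderiv ℝ χ (e p) v) := fun v =>
      c1.clm_apply continuous_const
    have c6 : ∀ v : ℂ, Continuous (fun p => fderiv ℝ be (e p) v) := fun v =>
      c2.clm_apply continuous_const
    exact (((c5 1).mul (continuous_im.comp c4)).sub ((c5 I).mul (continuous_re.comp c4))).add
      (c3.mul ((continuous_im.comp (c6 1)).sub (continuous_re.comp (c6 I))))
  have hgreen := integral2_divergence_prod_of_hasFDerivAt_off_countable F Gg F' G' x0 y0 x1 y1 ∅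
    countable_empty (fun p _ => (dF p).continuousAt.continuousWithinAt)
    (fun p _ => (dG p).continuousAt.continuousWithinAt) (fun p _ => dF p) (fun p _ => dG p)
    (hcont.continuousOn.integrableOn_compact (isCompact_uIcc.prod isCompact_uIcc))
  have hl : ∫ x in x0..x1, ∫ y in y0..y1, gps χ be ⟨x, y⟩ =
      ∫ x in x0..x1, ∫ y in y0..y1, F' (x, y) (1, 0) + G' (x, y) (0, 1) := by
    apply intervalIntegral.integral_congr
    intro x hx'
    rw [uIcc_of_le hx] at hx'
    apply intervalIntegral.integral_congr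
    intro y hy'
    rw [uIcc_of_le hy] at hy'
    simp only [hval, hee]
    rw [hc x hx' y hy', sub_self, mul_zero, add_zero]
  rw [hl, hgreen]
  simp only [hF, hGg, hee, intervalIntegral.integral_neg]
  ring

private theorem grid_convex {s t : Set ℝ} (hs : Convex ℝ s) (ht : Convex ℝ t) :
    Convex ℝ {z : ℂ | z.re ∈ s ∧ z.im ∈ t} :=
  (hs.linear_preimage reLm).inter (ht.linear_preimage imLm)

/-- `χ` is constant on convex sets which do not meet `S`. -/
private theorem grid_const {χ : ℂ → ℝ} {S : Set ℂ} (hχ : ContDiff ℝ 1 χ)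
    (h0 : ∀ z ∉ S, fderiv ℝ χ z = 0) {C : Set ℂ} (hC : Convex ℝ C) (hd : ∀ z ∈ C, z ∉ S)
    {z w : ℂ} (hz : z ∈ C) (hw : w ∈ C) : χ w = χ z := by
  have h1 := hC.norm_image_sub_le_of_norm_fderiv_le (f := χ) (C := 0) (𝕜 := ℝ)
    (fun x _ => hχ.differentiable (by norm_num) x)
    (fun x hx => by rw [h0 x (hd x hx), norm_zero]) hz hw
  rw [zero_mul] at h1
  exact sub_eq_zero.1 (norm_le_zero_iff.1 h1)

open scoped Classical in
/-- the value of an edge, from `w` to `w + l d`, `d = 1` or `d = I` -/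
private noncomputable def ged (f : ℂ → ℂ) (U : Set ℂ) (be : ℂ → ℂ) (χ : ℂ → ℝ) (l : ℝ) (w d : ℂ) :
    Real.Angle :=
  if ∀ s ∈ Icc (0 : ℝ) l, w + s * d ∈ U then
    ((∫ s in (0 : ℝ)..l, χ (w + s * d) * (conj d * be (w + s * d)).re : ℝ) : Real.Angle)
  else ⌊χ w⌋ • ((arg (f (w + l * d)) : Real.Angle) - (arg (f w) : Real.Angle))

private theorem ged_good {f : ℂ → ℂ} {U : Set ℂ} {be : ℂ → ℂ} {χ : ℂ → ℝ} {l : ℝ} {w d : ℂ}
    (h : ∀ s ∈ Icc (0 : ℝ) l, w + s * d ∈ U) : ged f U be χ l w d =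
      ((∫ s in (0 : ℝ)..l, χ (w + s * d) * (conj d * be (w + s * d)).re : ℝ) : Real.Angle) := by
  unfold ged
  rw [if_pos h]

private theorem ged_const {f : ℂ → ℂ} {U : Set ℂ} (hf : ContDiff ℝ 2 f)
    (hne : ∀ z ∈ U, f z ≠ 0) {be : ℂ → ℂ}
    (hb : ∀ z ∈ U, be z = ⟨(fderiv ℝ f z 1 / f z).im, (fderiv ℝ f z I / f z).im⟩)
    {χ : ℂ → ℝ} {l : ℝ} (hl : 0 ≤ l) {w d : ℂ} (hd : d = 1 ∨ d = I) {n : ℤ}
    (hn : ∀ s ∈ Icc (0 : ℝ) l, χ (w + s * d) = n) :
    ged f U be χ l w d =
      n • ((arg (f (w + l * d)) : Real.Angle) - (arg (f w) : Real.Angle)) := by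
  unfold ged
  split_ifs with h
  · have h1 : (∫ s in (0 : ℝ)..l, χ (w + s * d) * (conj d * be (w + s * d)).re : ℝ) =
        n * ∫ s in (0 : ℝ)..l, (fderiv ℝ f (w + s * d) d / f (w + s * d)).im := by
      rw [← intervalIntegral.integral_const_mul]
      apply intervalIntegral.integral_congr
      intro s hs
      rw [uIcc_of_le hl] at hs
      simp only
      rw [hn s hs, hb _ (h s hs)]
      congr 1
      rcases hd with rfl | rfl
      · simp
      · simp
    have h2 := grid_angle hf w d hl (fun s hs => hne _ (h s hs))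
    have h3 : w + ((0 : ℝ) : ℂ) * d = w := by simp
    rw [h3] at h2
    rw [h1, ← h2, ← zsmul_eq_mul]
    rfl
  · have h1 : χ w = n := by
      have := hn 0 ⟨le_rfl, hl⟩
      simpa using this
    rw [h1, Int.floor_intCast]

/-- The sum around a square. -/
private theorem grid_square {f : ℂ → ℂ} {U : Set ℂ} (hU : IsOpen U) (hf : ContDiff ℝ 2 f)
    (hne : ∀ z ∈ U, f z ≠ 0) {be : ℂ → ℂ} (hbe : ContDiff ℝ 1 be)
    (hb : ∀ z ∈ U, be z = ⟨(fderiv ℝ f z 1 / f z).im, (fderiv ℝ f z I / f z).im⟩)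
    {χ : ℂ → ℝ} {S : Set ℂ} (hχ : ContDiff ℝ 1 χ)
    (h0 : ∀ z ∉ S, fderiv ℝ χ z = 0) (hk : ∀ z ∉ S, ∃ k : ℤ, χ z = k)
    {l x y : ℝ} (hl : 0 ≤ l)
    (hG : ∀ z ∈ S, z.re ∈ Icc x (x + l) → z.im ∈ Icc y (y + l) →
      ∀ w : ℂ, w.re ∈ Icc x (x + l) → w.im ∈ Icc y (y + l) → w ∈ U) :
    ged f U be χ l ⟨x, y⟩ 1 + ged f U be χ l ⟨x + l, y⟩ I - ged f U be χ l ⟨x, y + l⟩ 1 -
      ged f U be χ l ⟨x, y⟩ I =
      ((∫ u in x..(x + l), ∫ v in y..(y + l), gps χ be ⟨u, v⟩ : ℝ) : Real.Angle) := by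
  have hp1 : ∀ (a b s : ℝ), (⟨a, b⟩ : ℂ) + s * 1 = ⟨a + s, b⟩ := by
    intro a b s
    apply Complex.ext <;> simp
  have hpI : ∀ (a b s : ℝ), (⟨a, b⟩ : ℂ) + s * I = ⟨a, b + s⟩ := by
    intro a b s
    apply Complex.ext <;> simp
  have hxl : x ≤ x + l := by linarith
  have hyl : y ≤ y + l := by linarith
  by_cases hS : ∃ z ∈ S, z.re ∈ Icc x (x + l) ∧ z.im ∈ Icc y (y + l)
  · obtain ⟨z, hz, hz1, hz2⟩ := hS
    have hin : ∀ a ∈ Icc x (x + l), ∀ b ∈ Icc y (y + l), (⟨a, b⟩ : ℂ) ∈ U :=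
      fun a ha b hb' => hG z hz hz1 hz2 ⟨a, b⟩ ha hb'
    have g1 : ∀ b ∈ Icc y (y + l), ∀ s ∈ Icc (0 : ℝ) l, (⟨x, b⟩ : ℂ) + s * 1 ∈ U := by
      intro b hb' s hs
      rw [hp1]
      exact hin _ ⟨by linarith [hs.1], by linarith [hs.2]⟩ b hb'
    have g2 : ∀ a ∈ Icc x (x + l), ∀ s ∈ Icc (0 : ℝ) l, (⟨a, y⟩ : ℂ) + s * I ∈ U := by
      intro a ha s hs
      rw [hpI]
      exact hin a ha _ ⟨by linarith [hs.1], by linarith [hs.2]⟩
    have e1 : ∀ b ∈ Icc y (y + l), ged f U be χ l ⟨x, b⟩ 1 =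
        ((∫ u in x..(x + l), χ ⟨u, b⟩ * (be ⟨u, b⟩).re : ℝ) : Real.Angle) := by
      intro b hb'
      rw [ged_good (g1 b hb')]
      congr 1
      have := intervalIntegral.integral_comp_add_left
        (fun u : ℝ => χ ⟨u, b⟩ * (be ⟨u, b⟩).re) x (a := 0) (b := l)
      rw [add_zero] at this
      rw [← this]
      apply intervalIntegral.integral_congr
      intro s _
      simp only [hp1, map_one, one_mul]
    have e2 : ∀ a ∈ Icc x (x + l), ged f U be χ l ⟨a, y⟩ I =
        ((∫ v in y..(y + l), χ ⟨a, v⟩ * (be ⟨a, v⟩).im : ℝ) : Real.Angle) := by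
      intro a ha
      rw [ged_good (g2 a ha)]
      congr 1
      have := intervalIntegral.integral_comp_add_left
        (fun v : ℝ => χ ⟨a, v⟩ * (be ⟨a, v⟩).im) y (a := 0) (b := l)
      rw [add_zero] at this
      rw [← this]
      apply intervalIntegral.integral_congr
      intro s _
      simp only [hpI]
      congr 1
      simp
    rw [e1 y ⟨le_rfl, hyl⟩, e1 (y + l) ⟨hyl, le_rfl⟩, e2 x ⟨le_rfl, hxl⟩,
      e2 (x + l) ⟨hxl, le_rfl⟩, grid_green hχ hbe hxl hyl
      (fun a ha b hb' => grid_curl hU hf hne hbe hb (hin a ha b hb'))]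
    rfl
  · push Not at hS
    have hnS : ∀ z : ℂ, z.re ∈ Icc x (x + l) → z.im ∈ Icc y (y + l) → z ∉ S := by
      intro z hz1 hz2 hz
      exact absurd hz2 (fun h => (hS z hz hz1) h)
    have hcv := grid_convex (convex_Icc x (x + l)) (convex_Icc y (y + l))
    obtain ⟨n, hn⟩ := hk ⟨x, y⟩ (hnS _ ⟨le_rfl, hxl⟩ ⟨le_rfl, hyl⟩)
    have hcn : ∀ a ∈ Icc x (x + l), ∀ b ∈ Icc y (y + l), χ ⟨a, b⟩ = n := by
      intro a ha b hb'
      rw [← hn]
      exact grid_const hχ h0 hcv (fun z hz => hnS z hz.1 hz.2)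
        (show (⟨x, y⟩ : ℂ) ∈ _ from ⟨⟨le_rfl, hxl⟩, ⟨le_rfl, hyl⟩⟩)
        (show (⟨a, b⟩ : ℂ) ∈ _ from ⟨ha, hb'⟩)
    have c1 : ∀ b ∈ Icc y (y + l), ∀ s ∈ Icc (0 : ℝ) l, χ ((⟨x, b⟩ : ℂ) + s * 1) = n := by
      intro b hb' s hs
      rw [hp1]
      exact hcn _ ⟨by linarith [hs.1], by linarith [hs.2]⟩ b hb'
    have c2 : ∀ a ∈ Icc x (x + l), ∀ s ∈ Icc (0 : ℝ) l, χ ((⟨a, y⟩ : ℂ) + s * I) = n := by
      intro a ha s hs
      rw [hpI]
      exact hcn a ha _ ⟨by linarith [hs.1], by linarith [hs.2]⟩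
    have hz0 : ∫ u in x..(x + l), ∫ v in y..(y + l), gps χ be ⟨u, v⟩ = 0 := by
      rw [intervalIntegral.integral_congr (g := fun _ => (0 : ℝ)), intervalIntegral.integral_zero]
      intro u hu
      rw [uIcc_of_le hxl] at hu
      simp only
      rw [intervalIntegral.integral_congr (g := fun _ => (0 : ℝ)), intervalIntegral.integral_zero]
      intro v hv
      rw [uIcc_of_le hyl] at hv
      simp only [gps]
      rw [h0 _ (hnS ⟨u, v⟩ hu hv)]
      simp
    rw [hz0, ged_const hf hne hb hl (Or.inl rfl) (c1 y ⟨le_rfl, hyl⟩),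
      ged_const hf hne hb hl (Or.inl rfl) (c1 (y + l) ⟨hyl, le_rfl⟩),
      ged_const hf hne hb hl (Or.inr rfl) (c2 x ⟨le_rfl, hxl⟩),
      ged_const hf hne hb hl (Or.inr rfl) (c2 (x + l) ⟨hxl, le_rfl⟩)]
    rw [hp1, hp1, hpI, hpI]
    simp only [smul_sub, Real.Angle.coe_zero]
    abel

/-- Telescoping over a grid. -/
private theorem grid_tele {A : Type*} [AddCommGroup A] (H V : ℕ → ℕ → A) (M : ℕ) :
    ∑ i ∈ Finset.range M, ∑ j ∈ Finset.range M, (H i j + V (i + 1) j - H i (j + 1) - V i j) =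
      (∑ i ∈ Finset.range M, H i 0) - (∑ i ∈ Finset.range M, H i M) +
        (∑ j ∈ Finset.range M, V M j) - ∑ j ∈ Finset.range M, V 0 j := by
  have h1 : ∀ i, ∑ j ∈ Finset.range M, (H i j + V (i + 1) j - H i (j + 1) - V i j) =
      (H i 0 - H i M) + (∑ j ∈ Finset.range M, V (i + 1) j - ∑ j ∈ Finset.range M, V i j) := by
    intro i
    rw [← Finset.sum_range_sub' (fun j => H i j), ← Finset.sum_sub_distrib,
      ← Finset.sum_add_distrib]
    apply Finset.sum_congr rfl
    intro j _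
    abel
  rw [Finset.sum_congr rfl (fun i _ => h1 i), Finset.sum_add_distrib, Finset.sum_sub_distrib,
    Finset.sum_range_sub (fun i => ∑ j ∈ Finset.range M, V i j)]
  abel

private theorem gps_continuous {χ : ℂ → ℝ} {be : ℂ → ℂ} (hχ : ContDiff ℝ 1 χ)
    (hbe : ContDiff ℝ 1 be) : Continuous (gps χ be) := by
  have c1 : Continuous (fderiv ℝ χ) := hχ.continuous_fderiv (by norm_num)
  have c4 : Continuous be := hbe.continuous
  unfold gps
  exact ((c1.clm_apply continuous_const).mul (continuous_im.comp c4)).sub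
    ((c1.clm_apply continuous_const).mul (continuous_re.comp c4))

/-- The integral over `S` as an iterated integral over a large box. -/
private theorem grid_integral {ψ : ℂ → ℝ} (hψ : Continuous ψ) {S : Set ℂ} (hS : IsCompact S)
    (h0 : ∀ z ∉ S, ψ z = 0) {a b : ℝ}
    (hbox : ∀ z ∈ S, z.re ∈ Ioc a b ∧ z.im ∈ Ioc a b) :
    ∫ z in S, ψ z = ∫ x in a..b, ∫ y in a..b, ψ ⟨x, y⟩ := by
  have hsupp : HasCompactSupport ψ := by
    apply HasCompactSupport.of_support_subset_isCompact hS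
    intro z hz
    by_contra hcon
    exact hz (h0 z hcon)
  have hint : Integrable ψ := hψ.integrable_of_hasCompactSupport hsupp
  have hmp := Complex.volume_preserving_equiv_real_prod.symm
  rw [setIntegral_eq_integral_of_forall_compl_eq_zero h0,
    ← hmp.integral_comp' (g := ψ)]
  have hint2 : Integrable (fun p : ℝ × ℝ => ψ (measurableEquivRealProd.symm p)) := by
    have := (hmp.integrable_comp_emb measurableEquivRealProd.symm.measurableEmbedding (g := ψ)).2
      hint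
    exact this
  rw [MeasureTheory.Measure.volume_eq_prod] at hint2 ⊢
  rw [integral_prod _ hint2]
  have e1 : ∀ x y : ℝ, measurableEquivRealProd.symm (x, y) = (⟨x, y⟩ : ℂ) := fun x y => rfl
  simp only [e1]
  rw [← intervalIntegral.integral_eq_integral_of_support_subset (a := a) (b := b)]
  · apply intervalIntegral.integral_congr
    intro x _
    simp only
    rw [← intervalIntegral.integral_eq_integral_of_support_subset (a := a) (b := b)]
    intro y hy
    by_contra hcon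
    exact hy (h0 _ (fun hz => hcon (hbox _ hz).2))
  · intro x hx
    by_contra hcon
    apply hx
    simp only
    have : ∀ y : ℝ, ψ ⟨x, y⟩ = 0 := fun y => h0 _ (fun hz => hcon (hbox _ hz).1)
    simp [this]

/-- The iterated integral over a box as a sum over the squares of a grid. -/
private theorem grid_sum {ψ : ℂ → ℝ} (hψ : Continuous ψ) (X : ℕ → ℝ) (M : ℕ) :
    ∫ x in (X 0)..(X M), ∫ y in (X 0)..(X M), ψ ⟨x, y⟩ =
      ∑ i ∈ Finset.range M, ∑ j ∈ Finset.range M,
        ∫ x in (X i)..(X (i + 1)), ∫ y in (X j)..(X (j + 1)), ψ ⟨x, y⟩ := by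
  have hc : Continuous (Function.uncurry fun x y : ℝ => ψ ⟨x, y⟩) := by
    apply hψ.comp
    have : (fun p : ℝ × ℝ => (⟨p.1, p.2⟩ : ℂ)) = fun p => equivRealProdCLM.symm p := by
      funext p
      apply Complex.ext <;> simp [equivRealProdCLM_symm_apply]
    change Continuous (fun p : ℝ × ℝ => (⟨p.1, p.2⟩ : ℂ))
    rw [this]
    exact equivRealProdCLM.symm.continuous
  have hcx : ∀ x : ℝ, Continuous fun y : ℝ => ψ ⟨x, y⟩ := fun x =>
    hc.comp (Continuous.prodMk_right x)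
  have hcp : ∀ c d : ℝ, Continuous fun x : ℝ => ∫ y in c..d, ψ ⟨x, y⟩ := fun c d =>
    intervalIntegral.continuous_parametric_intervalIntegral_of_continuous' hc c d
  rw [← intervalIntegral.sum_integral_adjacent_intervals
    (fun k _ => (hcp _ _).intervalIntegrable _ _)]
  apply Finset.sum_congr rfl
  intro i _
  rw [← intervalIntegral.integral_finsetSum (fun j _ => (hcp _ _).intervalIntegrable _ _)]
  apply intervalIntegral.integral_congr
  intro x _
  simp only
  rw [intervalIntegral.sum_integral_adjacent_intervals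
    (fun k _ => (hcx x).intervalIntegrable _ _)]

theorem grid_int {f : ℂ → ℂ} {U : Set ℂ} (hU : IsOpen U) (hf : ContDiff ℝ 2 f)
    (hne : ∀ z ∈ U, f z ≠ 0) {be : ℂ → ℂ} (hbe : ContDiff ℝ 1 be)
    (hb : ∀ z ∈ U, be z = ⟨(fderiv ℝ f z 1 / f z).im, (fderiv ℝ f z I / f z).im⟩)
    {χ : ℂ → ℝ} {S : Set ℂ} (hχ : ContDiff ℝ 1 χ) (hS : IsCompact S) (hSU : S ⊆ U)
    (h0 : ∀ z ∉ S, fderiv ℝ χ z = 0) (hk : ∀ z ∉ S, ∃ k : ℤ, χ z = k) :
    ∃ m : ℤ, ∫ z in S, ip (gr χ z) (-I * be z) = 2 * Real.pi * m := by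
  -- the mesh and the box
  obtain ⟨δ, hδ, hδU⟩ := hS.exists_cthickening_subset_open hU hSU
  obtain ⟨R, hR⟩ := hS.isBounded.subset_closedBall (0 : ℂ)
  set R' : ℝ := |R| + 1 with hR'
  have hR'pos : 0 < R' := by positivity
  have hSR : ∀ z ∈ S, |z.re| < R' ∧ |z.im| < R' := by
    intro z hz
    have h1 : ‖z‖ ≤ R := by simpa using hR hz
    have h2 : R ≤ |R| := le_abs_self R
    exact ⟨by linarith [abs_re_le_norm z], by linarith [abs_im_le_norm z]⟩
  set l : ℝ := δ / 2 with hl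
  have hl0 : 0 < l := by positivity
  obtain ⟨M, hM⟩ := exists_nat_ge (2 * R' / l)
  have hMl : 2 * R' ≤ M * l := by
    rwa [div_le_iff₀ hl0] at hM
  set X : ℕ → ℝ := fun i => -R' + i * l with hX
  have hX0 : X 0 = -R' := by simp [hX]
  have hXs : ∀ i, X (i + 1) = X i + l := by
    intro i
    simp only [hX]
    push_cast
    ring
  have hXM : R' ≤ X M := by
    simp only [hX]
    linarith
  -- squares
  have hsq : ∀ i j : ℕ,
      ged f U be χ l ⟨X i, X j⟩ 1 + ged f U be χ l ⟨X (i + 1), X j⟩ I -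
        ged f U be χ l ⟨X i, X (j + 1)⟩ 1 - ged f U be χ l ⟨X i, X j⟩ I =
      ((∫ u in (X i)..(X (i + 1)), ∫ v in (X j)..(X (j + 1)), gps χ be ⟨u, v⟩ : ℝ) :
        Real.Angle) := by
    intro i j
    rw [hXs, hXs]
    apply grid_square hU hf hne hbe hb hχ h0 hk hl0.le
    intro z hz hz1 hz2 w hw1 hw2
    apply hδU
    apply mem_cthickening_of_dist_le w z δ S hz
    rw [dist_eq]
    have h1 : |(w - z).re| ≤ l := by
      rw [sub_re, abs_le]
      constructor <;> linarith [hz1.1, hz1.2, hw1.1, hw1.2]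
    have h2 : |(w - z).im| ≤ l := by
      rw [sub_im, abs_le]
      constructor <;> linarith [hz2.1, hz2.2, hw2.1, hw2.2]
    have h3 := norm_le_abs_re_add_abs_im (w - z)
    linarith
  -- the boundary
  have hline1 : ∀ c : ℝ, R' ≤ |c| → ∀ x x' : ℝ, χ ⟨x, c⟩ = χ ⟨x', c⟩ := by
    intro c hc x x'
    refine grid_const hχ h0 (grid_convex convex_univ (convex_singleton c)) ?_
      (show (⟨x', c⟩ : ℂ) ∈ _ from ⟨mem_univ _, rfl⟩) (show (⟨x, c⟩ : ℂ) ∈ _ from ⟨mem_univ _, rfl⟩)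
    rintro z ⟨-, hz⟩ hzS
    have h1 : z.im = c := hz
    have h2 := (hSR z hzS).2
    rw [h1] at h2
    linarith
  have hline2 : ∀ c : ℝ, R' ≤ |c| → ∀ y y' : ℝ, χ ⟨c, y⟩ = χ ⟨c, y'⟩ := by
    intro c hc y y'
    refine grid_const hχ h0 (grid_convex (convex_singleton c) convex_univ) ?_
      (show (⟨c, y'⟩ : ℂ) ∈ _ from ⟨rfl, mem_univ _⟩) (show (⟨c, y⟩ : ℂ) ∈ _ from ⟨rfl, mem_univ _⟩)
    rintro z ⟨hz, -⟩ hzS
    have h1 : z.re = c := hz
    have h2 := (hSR z hzS).1
    rw [h1] at h2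
    linarith
  have ha0 : R' ≤ |X 0| := by rw [hX0, abs_neg, abs_of_pos hR'pos]
  have haM : R' ≤ |X M| := hXM.trans (le_abs_self _)
  obtain ⟨n, hn⟩ := hk ⟨X 0, X 0⟩ (fun h => by
    have := (hSR _ h).1
    simp only at this
    linarith)
  have b1 : ∀ x : ℝ, χ ⟨x, X 0⟩ = n := fun x => by rw [hline1 _ ha0 x (X 0), hn]
  have b2 : ∀ y : ℝ, χ ⟨X 0, y⟩ = n := fun y => by rw [hline2 _ ha0 y (X 0), hn]
  have b3 : ∀ x : ℝ, χ ⟨x, X M⟩ = n := fun x => by rw [hline1 _ haM x (X 0), b2]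
  have b4 : ∀ y : ℝ, χ ⟨X M, y⟩ = n := fun y => by rw [hline2 _ haM y (X 0), b1]
  have hp1 : ∀ (a b s : ℝ), (⟨a, b⟩ : ℂ) + s * 1 = ⟨a + s, b⟩ := by
    intro a b s
    apply Complex.ext <;> simp
  have hpI : ∀ (a b s : ℝ), (⟨a, b⟩ : ℂ) + s * I = ⟨a, b + s⟩ := by
    intro a b s
    apply Complex.ext <;> simp
  set Ar : ℝ → ℝ → Real.Angle := fun x y => (arg (f ⟨x, y⟩) : Real.Angle) with hAr
  have s1 : ∀ c : ℝ, (∀ x : ℝ, χ ⟨x, c⟩ = n) →
      ∑ i ∈ Finset.range M, ged f U be χ l ⟨X i, c⟩ 1 = n • (Ar (X M) c - Ar (X 0) c) := by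
    intro c hc
    have h1 : ∀ i ∈ Finset.range M, ged f U be χ l ⟨X i, c⟩ 1 =
        n • Ar (X (i + 1)) c - n • Ar (X i) c := by
      intro i _
      rw [ged_const hf hne hb hl0.le (Or.inl rfl) (n := n), hp1, ← hXs, smul_sub]
      intro s _
      rw [hp1]
      exact hc _
    rw [Finset.sum_congr rfl h1, Finset.sum_range_sub (fun i => n • Ar (X i) c), smul_sub]
  have s2 : ∀ c : ℝ, (∀ y : ℝ, χ ⟨c, y⟩ = n) →
      ∑ j ∈ Finset.range M, ged f U be χ l ⟨c, X j⟩ I = n • (Ar c (X M) - Ar c (X 0)) := by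
    intro c hc
    have h1 : ∀ j ∈ Finset.range M, ged f U be χ l ⟨c, X j⟩ I =
        n • Ar c (X (j + 1)) - n • Ar c (X j) := by
      intro j _
      rw [ged_const hf hne hb hl0.le (Or.inr rfl) (n := n), hpI, ← hXs, smul_sub]
      intro s _
      rw [hpI]
      exact hc _
    rw [Finset.sum_congr rfl h1, Finset.sum_range_sub (fun j => n • Ar c (X j)), smul_sub]
  -- the total
  have htot : ((∫ x in (X 0)..(X M), ∫ y in (X 0)..(X M), gps χ be ⟨x, y⟩ : ℝ) : Real.Angle) =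
      0 := by
    rw [grid_sum (gps_continuous hχ hbe) X M]
    have h1 : ((∑ i ∈ Finset.range M, ∑ j ∈ Finset.range M,
        ∫ x in (X i)..(X (i + 1)), ∫ y in (X j)..(X (j + 1)), gps χ be ⟨x, y⟩ : ℝ) :
          Real.Angle) = ∑ i ∈ Finset.range M, ∑ j ∈ Finset.range M,
        ((∫ x in (X i)..(X (i + 1)), ∫ y in (X j)..(X (j + 1)), gps χ be ⟨x, y⟩ : ℝ) :
          Real.Angle) := by
      have h2 := map_sum Real.Angle.coeHom (fun i => ∑ j ∈ Finset.range M,
        ∫ x in (X i)..(X (i + 1)), ∫ y in (X j)..(X (j + 1)), gps χ be ⟨x, y⟩) (Finset.range M)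
      rw [Real.Angle.coe_coeHom] at h2
      rw [h2]
      apply Finset.sum_congr rfl
      intro i _
      have h3 := map_sum Real.Angle.coeHom (fun j =>
        ∫ x in (X i)..(X (i + 1)), ∫ y in (X j)..(X (j + 1)), gps χ be ⟨x, y⟩) (Finset.range M)
      rw [Real.Angle.coe_coeHom] at h3
      exact h3
    rw [h1, Finset.sum_congr rfl (fun i _ => Finset.sum_congr rfl (fun j _ => (hsq i j).symm)),
      grid_tele (fun i j => ged f U be χ l ⟨X i, X j⟩ 1) (fun i j => ged f U be χ l ⟨X i, X j⟩ I),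
      s1 _ b1, s1 _ b3, s2 _ b4, s2 _ b2, ← smul_sub, ← smul_add, ← smul_sub]
    have h4 : Ar (X M) (X 0) - Ar (X 0) (X 0) - (Ar (X M) (X M) - Ar (X 0) (X M)) +
        (Ar (X M) (X M) - Ar (X M) (X 0)) - (Ar (X 0) (X M) - Ar (X 0) (X 0)) = 0 := by abel
    rw [h4, smul_zero]
  have hfin : ∫ z in S, ip (gr χ z) (-I * be z) =
      ∫ x in (X 0)..(X M), ∫ y in (X 0)..(X M), gps χ be ⟨x, y⟩ := by
    simp only [gps_eq]
    apply grid_integral (gps_continuous hχ hbe) hS
    · intro z hz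
      simp only [gps]
      rw [h0 z hz]
      simp
    · intro z hz
      obtain ⟨h1, h2⟩ := hSR z hz
      rw [abs_lt] at h1 h2
      rw [hX0]
      exact ⟨⟨h1.1, by linarith⟩, ⟨h2.1, by linarith⟩⟩
  rw [hfin]
  obtain ⟨k, hk'⟩ := Real.Angle.angle_eq_iff_two_pi_dvd_sub.1
    (htot.trans Real.Angle.coe_zero.symm)
  refine ⟨k, ?_⟩
  rw [sub_zero] at hk'
  exact hk'

end Pool.Agent.FKM
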