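import Mathlib
import Pool.Agent.Helper13.FKM.Grid

/-!
FKM-34: the data of a smooth function without zeros on closure W.

Plan. closure W is compact, u ≠ 0 there; choose an open U ⊇ closure W with u ≠ 0 on U and a smooth compactly
supported ζ with ζ = 1 near closure W, 0 ≤ ζ ≤ 1, support in U. g = ζ |u|^2, P = ζ PU, Om = ζ 2 dzb u / u, be =
ζ (Im (u_x/u), Im (u_y/u)): smooth with compact support (so all the global bounds hold for a large C;
g_taylor: second order Taylor with bounded second derivative). grad: gr |u|^2 = |u|^2 (2 Om - 2 I be) as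
conj: u_x = (dz + dzb) u ...; P_eq clear. curl: symmetric second derivatives. integ: grid_int.
-/

set_option autoImplicit false

open Complex MeasureTheory Set Metric Filter
open scoped ComplexConjugate Topology

namespace Pool.Agent.FKM

private theorem mk_bd {F : Type*} [NormedAddCommGroup F] {f : ℂ → F} (hf : Continuous f)
    (hs : HasCompactSupport f) : ∃ C : ℝ, 0 ≤ C ∧ ∀ z, ‖f z‖ ≤ C := by
  obtain ⟨C, hC⟩ := hs.exists_bound_of_continuous hf
  exact ⟨C, (norm_nonneg _).trans (hC 0), hC⟩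

private theorem mk_ip_gr (g : ℂ → ℝ) (z v : ℂ) : ip (gr g z) v = fderiv ℝ g z v := by
  have hv : v = v.re • (1 : ℂ) + v.im • I := by
    apply Complex.ext <;> simp
  conv_rhs => rw [hv, map_add, map_smul, map_smul]
  simp only [ip, gr, Complex.mul_re, Complex.conj_re, Complex.conj_im, smul_eq_mul]
  ring

private theorem mk_taylor {g : ℂ → ℝ} (hg : ContDiff ℝ 2 g) (hs : HasCompactSupport g) :
    ∃ C : ℝ, 0 ≤ C ∧ (∀ z w, |g z - g w| ≤ C * dist z w) ∧
      ∀ z w, |g w - g z - ip (gr g z) (w - z)| ≤ C * dist z w ^ 2 := by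
  have h1 : ContDiff ℝ 1 (fderiv ℝ g) := hg.fderiv_right (by norm_num)
  have h2 : ContDiff ℝ 0 (fderiv ℝ (fderiv ℝ g)) := h1.fderiv_right (by norm_num)
  have hs1 := hs.fderiv (𝕜 := ℝ)
  have hs2 := hs1.fderiv (𝕜 := ℝ)
  obtain ⟨C1, hC1, hb1⟩ := mk_bd h1.continuous hs1
  obtain ⟨C2, hC2, hb2⟩ := mk_bd h2.continuous hs2
  have hd : Differentiable ℝ g := hg.differentiable (by norm_num)
  have hd1 : Differentiable ℝ (fderiv ℝ g) := h1.differentiable (by norm_num)
  refine ⟨max C1 C2, le_max_of_le_left hC1, fun z w => ?_, fun z w => ?_⟩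
  · have h := convex_univ.norm_image_sub_le_of_norm_fderiv_le (𝕜 := ℝ) (f := g) (C := C1)
      (fun x _ => hd x) (fun x _ => hb1 x) (mem_univ w) (mem_univ z)
    rw [Real.norm_eq_abs, ← dist_eq_norm] at h
    exact h.trans (mul_le_mul_of_nonneg_right (le_max_left _ _) dist_nonneg)
  · have hlip : ∀ x, ‖fderiv ℝ g x - fderiv ℝ g z‖ ≤ C2 * ‖x - z‖ := fun x =>
      convex_univ.norm_image_sub_le_of_norm_fderiv_le (𝕜 := ℝ) (f := fderiv ℝ g) (C := C2)
        (fun x _ => hd1 x) (fun x _ => hb2 x) (mem_univ z) (mem_univ x)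
    have h := (convex_closedBall z (dist w z)).norm_image_sub_le_of_norm_fderiv_le' (𝕜 := ℝ)
      (f := g) (C := C2 * dist w z) (φ := fderiv ℝ g z) (x := z) (y := w)
      (fun x _ => hd x) (fun x hx => by
        refine (hlip x).trans (mul_le_mul_of_nonneg_left ?_ hC2)
        rw [← dist_eq_norm]
        exact hx) (mem_closedBall_self dist_nonneg) (mem_closedBall.2 le_rfl)
    rw [Real.norm_eq_abs, ← dist_eq_norm] at h
    rw [mk_ip_gr]
    refine h.trans ?_
    rw [dist_comm w z, mul_assoc, ← sq]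
    exact mul_le_mul_of_nonneg_right (le_max_right _ _) (by positivity)

private theorem mk_cut {K U : Set ℂ} (hK : IsCompact K) (hU : IsOpen U) (hKU : K ⊆ U) :
    ∃ (ζ : ℂ → ℝ) (L : Set ℂ), IsCompact L ∧ L ⊆ U ∧ (∀ k : ℕ, ContDiff ℝ k ζ) ∧
      (∀ z ∈ K, ∀ᶠ y in 𝓝 z, ζ y = 1) ∧ (∀ z ∉ L, ζ z = 0) ∧ ∀ z, 0 ≤ ζ z := by
  obtain ⟨L, hL, hKL, hLU⟩ := exists_compact_between hK hU hKU
  obtain ⟨f, hf1, hf0, hf⟩ := exists_contMDiffMap_one_nhds_of_subset_interior
    (modelWithCornersSelf ℝ ℂ) (n := (⊤ : ℕ∞)) hK.isClosed hKL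
  refine ⟨f, L, hL, hLU, fun k => ?_, fun z hz => ?_, hf0, fun z => (hf z).1⟩
  · have h1 : ContDiff ℝ ((⊤ : ℕ∞) : WithTop ℕ∞) f := f.contMDiff.contDiff
    exact h1.of_le (by exact_mod_cast le_top)
  · exact hf1.filter_mono (nhds_le_nhdsSet hz)

private theorem mk_inv {ζ : ℂ → ℝ} {u : ℂ → ℂ} {L : Set ℂ} (hL : IsCompact L)
    (hζ : ∀ k : ℕ, ContDiff ℝ k ζ) (hu : ∀ k : ℕ, ContDiff ℝ k u) (hLu : ∀ z ∈ L, u z ≠ 0)
    (h0 : ∀ z ∉ L, ζ z = 0) (k : ℕ) : ContDiff ℝ k (fun z => (ζ z : ℂ) * (u z)⁻¹) := by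
  rw [contDiff_iff_contDiffAt]
  intro z
  by_cases hz : z ∈ L
  · have h1 : ContDiffAt ℝ k (fun z => (ζ z : ℂ)) z :=
      (Complex.ofRealCLM.contDiff.comp (hζ k)).contDiffAt
    exact h1.mul ((hu k).contDiffAt.inv (hLu z hz))
  · have h1 : (fun z => (ζ z : ℂ) * (u z)⁻¹) =ᶠ[𝓝 z] fun _ => 0 := by
      filter_upwards [hL.isClosed.isOpen_compl.mem_nhds hz] with y hy
      rw [h0 y hy]; simp
    exact contDiffAt_const.congr_of_eventuallyEq h1

theorem mkDat {E X : ℝ} {u : ℂ → ℂ} {W : Set ℂ} (hX : FK.Profile X) (hE : 0 < E)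
    (hu : ∀ k : ℕ, ContDiff ℝ k u) (hW : IsOpen W) (hWb : Bornology.IsBounded W)
    (hne : ∀ z ∈ closure W, u z ≠ 0) (harea : E ^ 2 * volume.real W ≤ Real.pi * X ^ 2) :
    ∃ S : Dat, S.E = E ∧ S.X = X ∧ S.W = W ∧ (∀ z ∈ closure W, S.g z = gU u z) ∧
      ∀ z ∈ closure W, S.P z = PU E u z := by
  have hK : IsCompact (closure W) := hWb.isCompact_closure
  have hUo : IsOpen {z | u z ≠ 0} := isOpen_ne_fun (hu 0).continuous continuous_const
  obtain ⟨ζ, L, hL, hLU, hζ, hζ1, hζ0, hζn⟩ := mk_cut hK hUo hne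
  have hζ1' : ∀ z ∈ closure W, ζ z = 1 := fun z hz => (hζ1 z hz).self_of_nhds
  -- the smooth functions
  obtain ⟨w, hw⟩ : ∃ w : ℂ → ℂ, w = fun z => (ζ z : ℂ) * (u z)⁻¹ := ⟨_, rfl⟩
  have hwc : ∀ k : ℕ, ContDiff ℝ k w := fun k => by
    rw [hw]; exact mk_inv hL hζ hu hLU hζ0 k
  have hw0 : ∀ z ∉ L, w z = 0 := fun z hz => by
    rw [hw]; simp [hζ0 z hz]
  have hw1 : ∀ z ∈ closure W, w z = (u z)⁻¹ := fun z hz => by
    rw [hw]; simp [hζ1' z hz]
  have hfd : ∀ k : ℕ, ContDiff ℝ k (fderiv ℝ u) := fun k =>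
    (hu (k + 1)).fderiv_right (by norm_cast)
  obtain ⟨ux, hux⟩ : ∃ ux : ℂ → ℂ, ux = fun z => fderiv ℝ u z 1 := ⟨_, rfl⟩
  obtain ⟨uy, huy⟩ : ∃ uy : ℂ → ℂ, uy = fun z => fderiv ℝ u z I := ⟨_, rfl⟩
  have huxc : ∀ k : ℕ, ContDiff ℝ k ux := fun k => by
    rw [hux]; exact (hfd k).clm_apply contDiff_const
  have huyc : ∀ k : ℕ, ContDiff ℝ k uy := fun k => by
    rw [huy]; exact (hfd k).clm_apply contDiff_const
  have hdzb : ∀ z, FK.dzb u z = (ux z + I * uy z) / 2 := fun z => by rw [FK.dzb, hux, huy]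
  obtain ⟨A, hA⟩ : ∃ A : ℂ → ℂ, A = fun z => ux z * w z := ⟨_, rfl⟩
  obtain ⟨B, hB⟩ : ∃ B : ℂ → ℂ, B = fun z => uy z * w z := ⟨_, rfl⟩
  have hAc : ∀ k : ℕ, ContDiff ℝ k A := fun k => by rw [hA]; exact (huxc k).mul (hwc k)
  have hBc : ∀ k : ℕ, ContDiff ℝ k B := fun k => by rw [hB]; exact (huyc k).mul (hwc k)
  have hA0 : ∀ z ∉ L, A z = 0 := fun z hz => by rw [hA]; simp [hw0 z hz]
  have hB0 : ∀ z ∉ L, B z = 0 := fun z hz => by rw [hB]; simp [hw0 z hz]
  obtain ⟨Om, hOm⟩ : ∃ Om : ℂ → ℂ, Om = fun z => A z + I * B z := ⟨_, rfl⟩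
  obtain ⟨be, hbe⟩ : ∃ be : ℂ → ℂ, be = fun z => ((A z).im : ℂ) + I * ((B z).im : ℂ) :=
    ⟨_, rfl⟩
  obtain ⟨g, hg⟩ : ∃ g : ℂ → ℝ, g = fun z => ζ z * ‖u z‖ ^ 2 := ⟨_, rfl⟩
  obtain ⟨P, hP⟩ : ∃ P : ℂ → ℝ, P = fun z => ζ z * PU E u z := ⟨_, rfl⟩
  have hOmc : ContDiff ℝ 1 Om := by
    rw [hOm]; exact (hAc 1).add (contDiff_const.mul (hBc 1))
  have hbec : ContDiff ℝ 1 be := by
    rw [hbe]
    have h1 : ContDiff ℝ 1 (fun z => ((A z).im : ℂ)) :=
      (Complex.ofRealCLM.comp Complex.imCLM).contDiff.comp (hAc 1)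
    have h2 : ContDiff ℝ 1 (fun z => ((B z).im : ℂ)) :=
      (Complex.ofRealCLM.comp Complex.imCLM).contDiff.comp (hBc 1)
    exact h1.add (contDiff_const.mul h2)
  have hgc : ContDiff ℝ 2 g := by
    rw [hg]; exact (hζ 2).mul ((hu 2).norm_sq ℝ)
  have hPc : Continuous P := by
    rw [hP]
    refine (hζ 0).continuous.mul ?_
    unfold PU
    have h1 : Continuous (FK.dzb u) := by
      have : FK.dzb u = fun z => (ux z + I * uy z) / 2 := funext hdzb
      rw [this]
      have h2 := (huxc 0).continuous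
      have h3 := (huyc 0).continuous
      fun_prop
    have h4 := (hu 0).continuous
    fun_prop
  have hgs : HasCompactSupport g := HasCompactSupport.intro hL (fun z hz => by
    rw [hg]; simp [hζ0 z hz])
  have hPs : HasCompactSupport P := HasCompactSupport.intro hL (fun z hz => by
    rw [hP]; simp [hζ0 z hz])
  have hOms : HasCompactSupport Om := HasCompactSupport.intro hL (fun z hz => by
    rw [hOm]; simp [hA0 z hz, hB0 z hz])
  have hbes : HasCompactSupport be := HasCompactSupport.intro hL (fun z hz => by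
    rw [hbe]; simp [hA0 z hz, hB0 z hz])
  -- the bounds
  obtain ⟨c1, hc1, hc1'⟩ := mk_bd hgc.continuous hgs
  obtain ⟨c2, hc2, hc2'⟩ := mk_bd hPc hPs
  obtain ⟨c3, hc3, hc3'⟩ := mk_bd hOmc.continuous hOms
  obtain ⟨c4, hc4, hc4'⟩ := mk_bd hbec.continuous hbes
  obtain ⟨c5, hc5, hc5'⟩ := mk_bd (hOmc.continuous_fderiv (by norm_num)) (hOms.fderiv (𝕜 := ℝ))
  obtain ⟨c6, hc6, hc6', hc6''⟩ := mk_taylor hgc hgs
  obtain ⟨c7, hc7, hc7'⟩ : ∃ c : ℝ, 0 ≤ c ∧ ∀ z ∈ closure W, 1 ≤ c * ‖u z‖ ^ 2 := by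
    have h1 : ContinuousOn (fun z => (‖u z‖ ^ 2)⁻¹) (closure W) := by
      refine ContinuousOn.inv₀ ?_ ?_
      · exact ((hu 0).continuous.norm.pow 2).continuousOn
      · intro z hz
        have := norm_pos_iff.2 (hne z hz)
        positivity
    obtain ⟨c, hc⟩ := hK.exists_bound_of_continuousOn h1
    refine ⟨max c 0, le_max_right _ _, fun z hz => ?_⟩
    have h2 := norm_pos_iff.2 (hne z hz)
    have h3 : 0 < ‖u z‖ ^ 2 := by positivity
    have h4 := (le_abs_self _).trans (hc z hz)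
    have h5 := mul_le_mul_of_nonneg_right (h4.trans (le_max_left c 0)) h3.le
    rwa [inv_mul_cancel₀ h3.ne'] at h5
  have hgn : ∀ z, 0 ≤ g z := fun z => by
    rw [hg]; exact mul_nonneg (hζn z) (by positivity)
  have hg1 : ∀ z ∈ closure W, g z = ‖u z‖ ^ 2 := fun z hz => by
    rw [hg]; simp [hζ1' z hz]
  have hP1 : ∀ z ∈ closure W, P z = PU E u z := fun z hz => by
    rw [hP]; simp [hζ1' z hz]
  have hA1 : ∀ z ∈ closure W, ux z = A z * u z := fun z hz => by
    rw [hA]; simp only [hw1 z hz]; field_simp [hne z hz]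
  have hB1 : ∀ z ∈ closure W, uy z = B z * u z := fun z hz => by
    rw [hB]; simp only [hw1 z hz]; field_simp [hne z hz]
  -- the gradient of g
  have hgrad : ∀ z ∈ closure W, gr g z = g z * (2 * Om z - 2 * I * be z) := by
    intro z hz
    have h1 : g =ᶠ[𝓝 z] fun y => ‖u y‖ ^ 2 := by
      filter_upwards [hζ1 z hz] with y hy
      rw [hg]; simp [hy]
    have h2 : HasFDerivAt u (fderiv ℝ u z) z :=
      ((hu 1).differentiable (by norm_num) z).hasFDerivAt
    have h3 := h2.norm_sq
    have h4 : fderiv ℝ g z = 2 • (innerSL ℝ (u z)).comp (fderiv ℝ u z) :=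
      (h3.congr_of_eventuallyEq h1).fderiv
    have h5 : ∀ v a : ℂ, fderiv ℝ u z v = a * u z → fderiv ℝ g z v = 2 * (‖u z‖ ^ 2 * a.re) := by
      intro v a ha
      rw [h4]
      have h6 : (2 • (innerSL ℝ (u z)).comp (fderiv ℝ u z)) v =
          2 * inner ℝ (u z) (fderiv ℝ u z v) := by
        rw [FunLike.coe_smul, Pi.smul_apply, ContinuousLinearMap.comp_apply,
          innerSL_apply_apply, nsmul_eq_mul]
        norm_num
      rw [h6, ha]
      have h7 : inner ℝ (u z) (a * u z) = ‖u z‖ ^ 2 * a.re := by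
        rw [Complex.inner, ← Complex.normSq_eq_norm_sq, Complex.normSq_apply]
        simp only [Complex.mul_re, Complex.mul_im, Complex.conj_re, Complex.conj_im]
        ring
      rw [h7]
    have h8 := h5 1 (A z) (by have := hA1 z hz; rw [hux] at this; exact this)
    have h9 := h5 I (B z) (by have := hB1 z hz; rw [huy] at this; exact this)
    rw [gr, h8, h9, hg1 z hz, hOm, hbe]
    apply Complex.ext
    · simp [Complex.mul_re, Complex.mul_im]
      norm_cast
      simp
      ring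
    · simp [Complex.mul_re, Complex.mul_im]
      norm_cast
      simp
      ring
  refine ⟨{
    E := E
    X := X
    W := W
    g := g
    P := P
    Om := Om
    be := be
    C := 1 + c1 + c2 + c3 + c4 + 2 * c5 + c6 + c7
    hX := hX
    E_pos := hE
    W_op := hW
    W_bdd := hWb
    area := harea
    g_cont := hgc.of_le (by norm_num)
    P_cont := hPc
    Om_cont := hOmc
    be_cont := hbec
    C_one := by linarith
    g_low := fun z hz => by
      rw [hg1 z hz]
      refine (hc7' z hz).trans (mul_le_mul_of_nonneg_right ?_ (by positivity))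
      linarith
    g_nonneg := hgn
    g_le := fun z => by
      have := (le_abs_self _).trans (hc1' z)
      linarith
    g_lip := fun z y => (hc6' z y).trans
      (mul_le_mul_of_nonneg_right (by linarith) dist_nonneg)
    g_taylor := fun z y => by
      have h1 : c6 ≤ 1 + c1 + c2 + c3 + c4 + 2 * c5 + c6 + c7 := by linarith
      have h2 := (hc6'' y z).trans (mul_le_mul_of_nonneg_right h1 (by positivity))
      have h3 : g y - g z - ip (gr g y) (y - z) = -(g z - g y - ip (gr g y) (z - y)) := by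
        rw [mk_ip_gr, mk_ip_gr, ← neg_sub y z, map_neg]
        ring
      rw [h3, abs_neg, dist_comm z y]
      exact h2
    P_le := fun z => by
      have := hc2' z
      rw [Real.norm_eq_abs] at this
      linarith
    Om_le := fun z => by
      have := hc3' z
      linarith
    dvOm_le := fun z => by
      have h1 : ‖fderiv ℝ Om z 1‖ ≤ c5 := by
        have := (fderiv ℝ Om z).le_opNorm 1
        rw [norm_one, mul_one] at this
        exact this.trans (hc5' z)
      have h2 : ‖fderiv ℝ Om z I‖ ≤ c5 := by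
        have := (fderiv ℝ Om z).le_opNorm I
        rw [Complex.norm_I, mul_one] at this
        exact this.trans (hc5' z)
      have h3 : |(fderiv ℝ Om z 1).re| ≤ c5 := (Complex.abs_re_le_norm _).trans h1
      have h4 : |(fderiv ℝ Om z I).im| ≤ c5 := (Complex.abs_im_le_norm _).trans h2
      have h5 : |dv Om z| ≤ |(fderiv ℝ Om z 1).re| + |(fderiv ℝ Om z I).im| := abs_add_le _ _
      linarith
    be_le := fun z => by
      have := hc4' z
      linarith
    grad := hgrad
    P_eq := fun z hz => by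
      rw [hP1 z hz, hg1 z hz, PU, hdzb]
      have h1 : (ux z + I * uy z) / 2 = (Om z / 2) * u z := by
        rw [hA1 z hz, hB1 z hz, hOm]; ring
      rw [h1, norm_mul, norm_div]
      simp only [Complex.norm_ofNat]
      ring
    curl := fun z hz => by
      have hz' : z ∈ closure W := subset_closure hz
      have hnz := hne z hz'
      have hu' : HasFDerivAt u (fderiv ℝ u z) z :=
        ((hu 1).differentiable (by norm_num) z).hasFDerivAt
      have hA' : HasFDerivAt A (fderiv ℝ A z) z :=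
        ((hAc 1).differentiable (by norm_num) z).hasFDerivAt
      have hB' : HasFDerivAt B (fderiv ℝ B z) z :=
        ((hBc 1).differentiable (by norm_num) z).hasFDerivAt
      have hDu : HasFDerivAt (fderiv ℝ u) (fderiv ℝ (fderiv ℝ u) z) z :=
        ((hfd 1).differentiable (by norm_num) z).hasFDerivAt
      have h1 : ∀ a : ℂ, HasFDerivAt (fun y => fderiv ℝ u y a)
          ((fderiv ℝ (fderiv ℝ u) z).flip a) z := by
        intro a
        have := hDu.clm_apply (hasFDerivAt_const a z)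
        simpa using this
      have hWn : W ∈ 𝓝 z := hW.mem_nhds hz
      have hAe : (fun y => A y * u y) =ᶠ[𝓝 z] fun y => fderiv ℝ u y 1 := by
        filter_upwards [hWn] with y hy
        have := hA1 y (subset_closure hy)
        rw [hux] at this
        exact this.symm
      have hBe : (fun y => B y * u y) =ᶠ[𝓝 z] fun y => fderiv ℝ u y I := by
        filter_upwards [hWn] with y hy
        have := hB1 y (subset_closure hy)
        rw [huy] at this
        exact this.symm
      have h2 := (hA'.mul hu').unique ((h1 1).congr_of_eventuallyEq hAe)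
      have h3 := (hB'.mul hu').unique ((h1 I).congr_of_eventuallyEq hBe)
      have h4 := congrArg (fun T => T I) h2
      have h5 := congrArg (fun T => T 1) h3
      have hsymm : fderiv ℝ (fderiv ℝ u) z I 1 = fderiv ℝ (fderiv ℝ u) z 1 I := by
        have h6 : IsSymmSndFDerivAt ℝ u z :=
          ((hu 2).contDiffAt).isSymmSndFDerivAt (by simp)
        exact h6 I 1
      have hx1 : fderiv ℝ u z 1 = A z * u z := by
        have := hA1 z hz'
        rw [hux] at this
        exact this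
      have hy1 : fderiv ℝ u z I = B z * u z := by
        have := hB1 z hz'
        rw [huy] at this
        exact this
      simp only [_root_.add_apply, _root_.smul_apply, smul_eq_mul,
        ContinuousLinearMap.flip_apply, hx1, hy1] at h4 h5
      have h7 : u z * fderiv ℝ A z I = u z * fderiv ℝ B z 1 := by
        have h8 : A z * (B z * u z) + u z * fderiv ℝ A z I =
            B z * (A z * u z) + u z * fderiv ℝ B z 1 := by
          rw [h4, h5, hsymm]
        linear_combination h8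
      have h9 : fderiv ℝ A z I = fderiv ℝ B z 1 := mul_left_cancel₀ hnz h7
      have hF : HasFDerivAt (fun y => -I * be y)
          ((-I) • (((Complex.ofRealCLM.comp Complex.imCLM).comp (fderiv ℝ A z)) +
            I • ((Complex.ofRealCLM.comp Complex.imCLM).comp (fderiv ℝ B z)))) z := by
        rw [hbe]
        have h10 : HasFDerivAt (fun y => ((A y).im : ℂ))
            ((Complex.ofRealCLM.comp Complex.imCLM).comp (fderiv ℝ A z)) z :=
          (Complex.ofRealCLM.comp Complex.imCLM).hasFDerivAt.comp z hA'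
        have h11 : HasFDerivAt (fun y => ((B y).im : ℂ))
            ((Complex.ofRealCLM.comp Complex.imCLM).comp (fderiv ℝ B z)) z :=
          (Complex.ofRealCLM.comp Complex.imCLM).hasFDerivAt.comp z hB'
        exact (h10.add (h11.const_mul I)).const_mul (-I)
      rw [dv, hF.fderiv]
      simp [h9]
    integ := fun χ S hχ hS hSW h0 hk => by
      refine grid_int hW (hu 2) (fun z hz => hne z (subset_closure hz)) hbec (fun z hz => ?_)
        hχ hS hSW h0 hk
      have hz' : z ∈ closure W := subset_closure hz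
      rw [hbe, hA, hB]
      simp only [hw1 z hz', hux, huy]
      rw [div_eq_mul_inv, div_eq_mul_inv]
      generalize fderiv ℝ u z 1 * (u z)⁻¹ = a
      generalize fderiv ℝ u z I * (u z)⁻¹ = b
      apply Complex.ext <;> simp }, rfl, rfl, rfl, ?_, ?_⟩
  · intro z hz
    exact hg1 z hz
  · intro z hz
    exact hP1 z hz

end Pool.Agent.FKM
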