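import Mathlib
import Pool.Agent.Helper13.FKM.Div
import Pool.Agent.Helper13.FKM.PartL
import Pool.Agent.Helper13.FKM.ExF

/-!
FKM-29: circulation of `be` (import Div, ExF).

Plan. Y = -I * be is C^1 with dv Y = 0 on W ⊇ D: div_thm gives wind_sum. wind: if K is bounded let η be as in
part_sep, S' = {z | η/3 ≤ infDist z K ≤ 2η/3}: compact and contained in D. Choose χ smooth with values in
[0,1], χ = 1 on {infDist z K ≤ η/3}, χ = 0 on {2η/3 ≤ infDist z K} (smooth Urysohn between disjoint closed sets;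
fderiv χ = 0 off S' by interior points and χ ∈ {0,1} off S'). div_thm for χ Y:
w = bInt F D (χ ip ν Y) = - ∫_D (χ dv Y + ip (gr χ) Y) = - ∫_{S'} ip (gr χ) Y and S.integ. If K2 is bounded instead use w K = - w K2 (wind_sum, bInt_split). flux_front: wind_sum for (F, D)
and for (Ft, D \ Ut) with bInt_front. flux_Om: div_thm for Om on D \ Ut t and on D \ Ut t', bInt_front;
|dv Om| ≤ C.
-/

set_option autoImplicit false

open Complex MeasureTheory Set Metric Filter
open scoped ComplexConjugate Topology Manifold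

namespace Pool.Agent.FKM

private theorem WindS_contY (S : Dat) : ContDiff ℝ 1 (fun w => -I * S.be w) :=
  contDiff_const.mul S.be_cont

theorem wind_sum (S : Dat) {F : Finset (ℂ × ℝ)} {D : Set ℂ} (h : Reg F D) (hD : D ⊆ S.W) :
    bInt F D (fun z ν => ip ν (-I * S.be z)) = 0 := by
  have h1 := div_thm h (WindS_contY S)
  have h2 : ∫ z in D, dv (fun w => -I * S.be w) z = 0 := by
    rw [setIntegral_congr_fun h.op.measurableSet (g := fun _ => (0 : ℝ))
      (fun z hz => S.curl z (hD hz))]
    simp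
  rw [h2] at h1
  have h3 : bInt F D (fun z ν => ip ν ((fun w => -I * S.be w) z)) = 0 := by linarith
  exact h3

private theorem WindS_dv_mul {χ : ℂ → ℝ} {Y : ℂ → ℂ} (hχ : ContDiff ℝ 1 χ) (hY : ContDiff ℝ 1 Y)
    (z : ℂ) : dv (fun w => (χ w : ℂ) * Y w) z = χ z * dv Y z + ip (gr χ z) (Y z) := by
  have hc : DifferentiableAt ℝ χ z := (hχ.differentiable (by norm_num)) z
  have hy : DifferentiableAt ℝ Y z := (hY.differentiable (by norm_num)) z
  have h1 : HasFDerivAt (fun w => χ w • Y w)
      (χ z • fderiv ℝ Y z + (fderiv ℝ χ z).smulRight (Y z)) z :=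
    hc.hasFDerivAt.smul hy.hasFDerivAt
  have h2 : (fun w => (χ w : ℂ) * Y w) = fun w => χ w • Y w := by
    funext w
    rw [Complex.real_smul]
  have h3 : fderiv ℝ (fun w => (χ w : ℂ) * Y w) z =
      χ z • fderiv ℝ Y z + (fderiv ℝ χ z).smulRight (Y z) := by
    rw [h2]
    exact h1.fderiv
  unfold dv ip gr
  rw [h3]
  simp
  ring

private theorem WindS_wind_bdd (S : Dat) {F : Finset (ℂ × ℝ)} {D K K2 : Set ℂ} (h : Reg F D)
    (hD : D ⊆ S.W) (hp : Part D K K2) (hKb : Bornology.IsBounded K) :
    ∃ m : ℤ, S.w F D K = 2 * Real.pi * m := by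
  classical
  rcases K.eq_empty_or_nonempty with hKe | hKne
  · refine ⟨0, ?_⟩
    have h1 : inK F K = ∅ := by
      unfold inK
      rw [Finset.filter_eq_empty_iff]
      intro b _ hb
      rw [hKe] at hb
      exact hb
    unfold Dat.w
    rw [h1]
    simp [bInt]
  obtain ⟨η, hη, hsep⟩ := part_sep h.bdd hp
  set S' : Set ℂ := {z | η / 3 ≤ infDist z K ∧ infDist z K ≤ 2 * η / 3} with hS'
  have hcont : Continuous (fun z => infDist z K) := continuous_infDist_pt K
  have hS'cl : IsClosed S' :=
    (isClosed_le continuous_const hcont).inter (isClosed_le hcont continuous_const)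
  have hS'b : Bornology.IsBounded S' := by
    have h1 : S' ⊆ Metric.cthickening (2 * η / 3) K := by
      intro z hz
      rw [Metric.mem_cthickening_iff]
      have h2 := hz.2
      rw [Metric.infDist] at h2
      rw [← ENNReal.ofReal_toReal (Metric.infEDist_ne_top hKne)]
      exact ENNReal.ofReal_le_ofReal h2
    exact hKb.cthickening.subset h1
  have hS'cpt : IsCompact S' := Metric.isCompact_of_isClosed_isBounded hS'cl hS'b
  have hK2dist : ∀ z ∈ K2, η ≤ infDist z K := by
    intro z hz
    rw [Metric.le_infDist hKne]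
    intro y hy
    have := hsep y hy z hz
    rwa [dist_comm] at this
  have hKdist : ∀ z ∈ K, infDist z K = 0 := fun z hz => Metric.infDist_zero_of_mem hz
  have hS'D : S' ⊆ D := by
    intro z hz
    by_contra hzD
    have h1 : z ∈ K ∪ K2 := by
      rw [hp.union]
      exact hzD
    rcases h1 with h1 | h1
    · have h2 := hKdist z h1
      have h3 := hz.1
      linarith
    · have h2 := hK2dist z h1
      have h3 := hz.2
      linarith
  -- the cut-off function
  obtain ⟨f, hf0, hf1, hf01⟩ := exists_contMDiffMap_zero_one_of_isClosed (n := 1) (𝓘(ℝ, ℂ))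
    (s := {z : ℂ | 2 * η / 3 ≤ infDist z K}) (t := {z : ℂ | infDist z K ≤ η / 3})
    (isClosed_le continuous_const hcont) (isClosed_le hcont continuous_const)
    (by
      rw [Set.disjoint_left]
      intro z hz1 hz2
      simp only [mem_ofPred_eq] at hz1 hz2
      linarith)
  set χ : ℂ → ℝ := fun z => f z with hχdef
  have hχ : ContDiff ℝ 1 χ := by
    have := f.contMDiff
    exact this.contDiff
  have hχ0 : ∀ z, 2 * η / 3 ≤ infDist z K → χ z = 0 := fun z hz => hf0 hz
  have hχ1 : ∀ z, infDist z K ≤ η / 3 → χ z = 1 := fun z hz => hf1 hz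
  have hoff : ∀ z ∉ S', infDist z K < η / 3 ∨ 2 * η / 3 < infDist z K := by
    intro z hz
    by_contra hcon
    push Not at hcon
    exact hz ⟨hcon.1, hcon.2⟩
  have hfd : ∀ z ∉ S', fderiv ℝ χ z = 0 := by
    intro z hz
    rcases hoff z hz with h1 | h1
    · have h2 : χ =ᶠ[𝓝 z] fun _ => (1 : ℝ) := by
        filter_upwards [(isOpen_lt hcont continuous_const).mem_nhds h1] with w hw
        exact hχ1 w (le_of_lt hw)
      rw [h2.fderiv_eq]
      simp
    · have h2 : χ =ᶠ[𝓝 z] fun _ => (0 : ℝ) := by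
        filter_upwards [(isOpen_lt continuous_const hcont).mem_nhds h1] with w hw
        exact hχ0 w (le_of_lt hw)
      rw [h2.fderiv_eq]
      simp
  have hint : ∀ z ∉ S', ∃ k : ℤ, χ z = k := by
    intro z hz
    rcases hoff z hz with h1 | h1
    · exact ⟨1, by rw [hχ1 z h1.le]; simp⟩
    · exact ⟨0, by rw [hχ0 z h1.le]; simp⟩
  obtain ⟨m, hm⟩ := S.integ χ S' hχ hS'cpt (hS'D.trans hD) hfd hint
  refine ⟨-m, ?_⟩
  -- divergence theorem
  have hYc : ContDiff ℝ 1 (fun w => (χ w : ℂ) * (-I * S.be w)) := by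
    have h1 : ContDiff ℝ 1 (fun w => (χ w : ℂ)) := Complex.ofRealCLM.contDiff.comp hχ
    exact h1.mul (WindS_contY S)
  have hdiv := div_thm h hYc
  have hL : ∫ z in D, dv (fun w => (χ w : ℂ) * (-I * S.be w)) z =
      ∫ z in S', ip (gr χ z) (-I * S.be z) := by
    have h1 : ∫ z in D, dv (fun w => (χ w : ℂ) * (-I * S.be w)) z =
        ∫ z in D, ip (gr χ z) (-I * S.be z) := by
      refine setIntegral_congr_fun h.op.measurableSet (fun z hz => ?_)
      have h2 := WindS_dv_mul hχ (WindS_contY S) z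
      have h3 := S.curl z (hD hz)
      rw [h3, mul_zero, zero_add] at h2
      exact h2
    rw [h1]
    refine setIntegral_eq_of_subset_of_forall_sdiff_eq_zero h.op.measurableSet hS'D ?_
    intro z hz
    have h2 := hfd z hz.2
    unfold gr ip
    rw [h2]
    simp
  have hR : bInt F D (fun z ν => ip ν ((χ z : ℂ) * (-I * S.be z))) = S.w F D K := by
    have hsplit := bInt_split h hp (fun z ν => ip ν ((χ z : ℂ) * (-I * S.be z)))
    have hA : bInt (inK F K) D (fun z ν => ip ν ((χ z : ℂ) * (-I * S.be z))) = S.w F D K := by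
      unfold Dat.w bInt
      refine Finset.sum_congr rfl (fun b hb => ?_)
      unfold inK at hb
      rw [Finset.mem_filter] at hb
      congr 1
      refine setIntegral_congr_fun (measurableSet_expo D b) (fun θ _ => ?_)
      have hx : circleMap b.1 b.2 θ ∈ K := by
        refine ball_sub_part hp (h.pos b hb.1).le (disj_ball h.disj hb.1) hb.2 ?_
        exact circleMap_mem_closedBall _ (h.pos b hb.1).le _
      have h1 : χ (circleMap b.1 b.2 θ) = 1 := by
        apply hχ1
        rw [hKdist _ hx]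
        positivity
      simp only [h1, Complex.ofReal_one, one_mul]
    have hB : bInt (inK F K2) D (fun z ν => ip ν ((χ z : ℂ) * (-I * S.be z))) = 0 := by
      unfold bInt
      refine Finset.sum_eq_zero (fun b hb => ?_)
      unfold inK at hb
      rw [Finset.mem_filter] at hb
      have h0 : ∫ θ in expo D b, ip (exp (θ * I))
          ((χ (circleMap b.1 b.2 θ) : ℂ) * (-I * S.be (circleMap b.1 b.2 θ))) =
          ∫ θ in expo D b, (0 : ℝ) := by
        refine setIntegral_congr_fun (measurableSet_expo D b) (fun θ _ => ?_)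
        have hx : circleMap b.1 b.2 θ ∈ K2 := by
          refine ball_sub_part hp.symm' (h.pos b hb.1).le (disj_ball h.disj hb.1) hb.2 ?_
          exact circleMap_mem_closedBall _ (h.pos b hb.1).le _
        have h1 : χ (circleMap b.1 b.2 θ) = 0 := by
          apply hχ0
          have := hK2dist _ hx
          linarith
        simp [h1, ip]
      rw [h0]
      simp
    rw [hsplit, hA, hB, add_zero]
  have hdiv2 : ∫ z in D, dv (fun w => (χ w : ℂ) * (-I * S.be w)) z =
      - bInt F D (fun z ν => ip ν ((χ z : ℂ) * (-I * S.be z))) := hdiv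
  rw [hL, hR, hm] at hdiv2
  push_cast
  linarith

theorem wind (S : Dat) {F : Finset (ℂ × ℝ)} {D K K2 : Set ℂ} (h : Reg F D) (hD : D ⊆ S.W)
    (hp : Part D K K2) : ∃ m : ℤ, S.w F D K = 2 * Real.pi * m := by
  rcases part_bdd h.bdd hp with hb | hb
  · exact WindS_wind_bdd S h hD hp hb
  · obtain ⟨m, hm⟩ := WindS_wind_bdd S h hD hp.symm' hb
    have h1 := bInt_split h hp (fun z ν => ip ν (-I * S.be z))
    have h2 := wind_sum S h hD
    refine ⟨-m, ?_⟩
    unfold Dat.w at hm ⊢
    push_cast
    linarith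

theorem flux_front (S : Dat) {F : Finset (ℂ × ℝ)} {D K K2 : Set ℂ} {P : Finset ℂ} {v : ℂ → ℝ}
    {t0 t1 : ℝ} (h : Reg F D) (hD : D ⊆ S.W) (hf : Front D K K2 P v t0 t1) {t : ℝ}
    (ht : t ∈ Icc t0 t1) : fInt D P v t (fun z ν => ip ν (-I * S.be z)) = S.w F D K := by
  have hG : Continuous (Function.uncurry (fun z ν : ℂ => ip ν (-I * S.be z))) := by
    have h1 : Continuous S.be := S.be_cont.continuous
    unfold Function.uncurry ip
    fun_prop
  have h1 := bInt_front h.pos h.disj hf ht _ hG
  have h2 := wind_sum S (reg_front h hf ht) (sdiff_subset.trans hD)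
  have h3 := bInt_split h hf.part (fun z ν => ip ν (-I * S.be z))
  have h4 := wind_sum S h hD
  unfold Dat.w
  linarith

private theorem WindS_Ut_mono {P : Finset ℂ} {v : ℂ → ℝ} (hv : ∀ p, 0 < v p) {t t' : ℝ}
    (htt : t ≤ t') : Ut P v t ⊆ Ut P v t' := by
  unfold Ut
  refine iUnion₂_mono (fun p _ => ?_)
  exact closedBall_subset_closedBall (mul_le_mul_of_nonneg_right htt (hv p).le)

theorem flux_Om (S : Dat) {F : Finset (ℂ × ℝ)} {D K K2 : Set ℂ} {P : Finset ℂ} {v : ℂ → ℝ}
    {t0 t1 : ℝ} (h : Reg F D) (hf : Front D K K2 P v t0 t1) {t t' : ℝ} (ht : t0 ≤ t)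
    (htt : t ≤ t') (ht' : t' ≤ t1) :
    |fInt D P v t (fun z ν => ip ν (S.Om z)) - fInt D P v t' (fun z ν => ip ν (S.Om z))| ≤
      S.C * (volume.real (D \ Ut P v t) - volume.real (D \ Ut P v t')) := by
  have hG : Continuous (Function.uncurry (fun z ν : ℂ => ip ν (S.Om z))) := by
    have h1 : Continuous S.Om := S.Om_cont.continuous
    unfold Function.uncurry ip
    fun_prop
  have htI : t ∈ Icc t0 t1 := ⟨ht, htt.trans ht'⟩
  have htI' : t' ∈ Icc t0 t1 := ⟨ht.trans htt, ht'⟩
  have h1 := bInt_front h.pos h.disj hf htI _ hG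
  have h2 := bInt_front h.pos h.disj hf htI' _ hG
  have h3 := div_thm (reg_front h hf htI) S.Om_cont
  have h4 := div_thm (reg_front h hf htI') S.Om_cont
  set A := D \ Ut P v t with hA
  set A' := D \ Ut P v t' with hA'
  have hsub : A' ⊆ A := sdiff_subset_sdiff_right (WindS_Ut_mono hf.vpos htt)
  have hAm : MeasurableSet A := (reg_front h hf htI).op.measurableSet
  have hAm' : MeasurableSet A' := (reg_front h hf htI').op.measurableSet
  have hAfin : volume A ≠ ⊤ := (reg_front h hf htI).bdd.measure_lt_top.ne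
  have hdvc : Continuous (dv S.Om) := by
    have h5 : Continuous (fderiv ℝ S.Om) := S.Om_cont.continuous_fderiv (by norm_num)
    unfold dv
    fun_prop
  have hdvi : IntegrableOn (dv S.Om) A := by
    refine Measure.integrableOn_of_bounded (M := S.C) hAfin hdvc.aestronglyMeasurable ?_
    refine ae_of_all _ (fun z => ?_)
    rw [Real.norm_eq_abs]
    exact S.dvOm_le z
  have h5 : ∫ z in A \ A', dv S.Om z = (∫ z in A, dv S.Om z) - ∫ z in A', dv S.Om z :=
    setIntegral_sdiff hAm' hdvi hsub
  have h6 : |∫ z in A \ A', dv S.Om z| ≤ S.C * volume.real (A \ A') := by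
    rw [← Real.norm_eq_abs]
    refine norm_setIntegral_le_of_norm_le_const ?_ (fun z _ => ?_)
    · exact (measure_mono sdiff_subset).trans_lt hAfin.lt_top
    · rw [Real.norm_eq_abs]
      exact S.dvOm_le z
  have h7 : volume.real (A \ A') = volume.real A - volume.real A' :=
    measureReal_sdiff hsub hAm' hAfin
  rw [h7] at h6
  have h8 : fInt D P v t (fun z ν => ip ν (S.Om z)) - fInt D P v t' (fun z ν => ip ν (S.Om z)) =
      -(∫ z in A \ A', dv S.Om z) := by
    have h3' : ∫ z in A, dv S.Om z = - bInt (Ft F P v t) A (fun z ν => ip ν (S.Om z)) := h3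
    have h4' : ∫ z in A', dv S.Om z = - bInt (Ft F P v t') A' (fun z ν => ip ν (S.Om z)) := h4
    rw [h5, h3', h4', h1, h2]
    ring
  rw [h8, abs_neg]
  exact h6

end Pool.Agent.FKM
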