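import Mathlib
import Pool.Agent.Helper13.FKM.FrDefs
import Pool.Agent.Helper13.FKM.Basic
import Pool.Agent.Helper13.FKM.Cont
import Pool.Agent.Helper13.FKM.ExF
import Pool.Agent.Helper13.FKM.WindS
import Pool.Agent.Helper13.FKM.NetT0

/-!
FKM-38: inequalities on the front.

Plan. Facts v_facts: 1/C ≤ v ≤ C and v p * g p = 1 for p ∈ frontier D ⊆ closure W.
cs_front: Cauchy-Schwarz for the sums of t v |E|, t v^2 |E|, t |E|. comp_front: 1/C ≤ v ≤ C.
P_low: for θ ∈ Et the point x = circleMap p (t v p) θ is in D ⊆ W, S.P x = g x (‖Om x‖^2 - E^2) and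
|v p g x - 1| = v p |g x - g p| ≤ C^3 t, so v p S.P x ≥ ‖Om x‖^2 - E^2 - C^3 t (C^2 + E^2), and
‖Om‖^2 ≥ 2 a ip ν Om - a^2 (‖Om - a ν‖^2 ≥ 0, ‖ν‖ = 1). Integrate with weight t v p.
g_up: Taylor g x ≤ g p + ip (gr g x) (x - p) + C (t v p)^2 with x - p = t v p ν, gr g x = g x (2 Om - 2 I be),
v p g x = 1 + O(t): t v p g x ≤ t + t v p t (2 ip ν Om + 2 ip ν (-I be)) + C4 t^2 t v p. Integrate over Et and sum;
flux_front: the circulation term is 2 t S.w F D K. All sets Et are measurable (measurableSet_Et), functions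
continuous on circles.
-/

set_option autoImplicit false

open Complex MeasureTheory Set Metric Filter
open scoped ComplexConjugate Topology

namespace Pool.Agent.FKM

theorem cs_front (S : Dat) {D : Set ℂ} {P : Finset ℂ} {t : ℝ} (ht : 0 ≤ t) :
    LL S D P t ^ 2 ≤ VV S D P t * (t * Th D P S.v t) := by
  unfold LL VV Th
  rw [Finset.mul_sum]
  apply Finset.sum_sq_le_sum_mul_sum_of_sq_eq_mul
  · intro p _
    positivity
  · intro p _
    positivity
  · intro p _
    ring

theorem comp_front (S : Dat) {D : Set ℂ} {P : Finset ℂ} {t : ℝ} (ht : 0 ≤ t) :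
    0 ≤ LL S D P t ∧ 0 ≤ VV S D P t ∧ 0 ≤ Th D P S.v t ∧ LL S D P t ≤ S.C * VV S D P t ∧
      VV S D P t ≤ S.C * LL S D P t ∧ t * Th D P S.v t ≤ S.C * LL S D P t ∧
      LL S D P t ≤ S.C * (t * Th D P S.v t) := by
  obtain ⟨v0, v1, v2, -⟩ := v_facts S
  have hC : 0 < S.C := lt_of_lt_of_le one_pos S.C_one
  have v1' : ∀ z, 1 ≤ S.C * S.v z := by
    intro z
    have := v1 z
    rw [div_le_iff₀ hC] at this
    linarith
  unfold LL VV Th
  refine ⟨?_, ?_, ?_, ?_, ?_, ?_, ?_⟩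
  · exact Finset.sum_nonneg fun p _ =>
      mul_nonneg (mul_nonneg ht (v0 p).le) measureReal_nonneg
  · exact Finset.sum_nonneg fun p _ => by positivity
  · exact Finset.sum_nonneg fun p _ => measureReal_nonneg
  · rw [Finset.mul_sum]
    refine Finset.sum_le_sum fun p _ => ?_
    have h1 : 0 ≤ t * S.v p * volume.real (Et D P S.v t p) :=
      mul_nonneg (mul_nonneg ht (v0 p).le) measureReal_nonneg
    have h2 := mul_le_mul_of_nonneg_left (v1' p) h1
    calc t * S.v p * volume.real (Et D P S.v t p)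
        = t * S.v p * volume.real (Et D P S.v t p) * 1 := by ring
      _ ≤ _ := h2
      _ = _ := by ring
  · rw [Finset.mul_sum]
    refine Finset.sum_le_sum fun p _ => ?_
    have h1 : 0 ≤ t * S.v p * volume.real (Et D P S.v t p) :=
      mul_nonneg (mul_nonneg ht (v0 p).le) measureReal_nonneg
    have h2 := mul_le_mul_of_nonneg_left (v2 p) h1
    calc t * S.v p ^ 2 * volume.real (Et D P S.v t p)
        = t * S.v p * volume.real (Et D P S.v t p) * S.v p := by ring
      _ ≤ _ := h2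
      _ = _ := by ring
  · rw [Finset.mul_sum, Finset.mul_sum]
    refine Finset.sum_le_sum fun p _ => ?_
    have h1 : 0 ≤ t * volume.real (Et D P S.v t p) := mul_nonneg ht measureReal_nonneg
    have h2 := mul_le_mul_of_nonneg_left (v1' p) h1
    calc t * volume.real (Et D P S.v t p)
        = t * volume.real (Et D P S.v t p) * 1 := by ring
      _ ≤ _ := h2
      _ = _ := by ring
  · rw [Finset.mul_sum, Finset.mul_sum]
    refine Finset.sum_le_sum fun p _ => ?_
    have h1 : 0 ≤ t * volume.real (Et D P S.v t p) := mul_nonneg ht measureReal_nonneg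
    have h2 := mul_le_mul_of_nonneg_left (v2 p) h1
    calc t * S.v p * volume.real (Et D P S.v t p)
        = t * volume.real (Et D P S.v t p) * S.v p := by ring
      _ ≤ _ := h2
      _ = _ := by ring

theorem LL_eq (S : Dat) {D : Set ℂ} {P : Finset ℂ} {t : ℝ} :
    fInt D P S.v t (fun _ _ => 1) = LL S D P t := by
  unfold fInt LL
  refine Finset.sum_congr rfl fun p _ => ?_
  rw [setIntegral_const, smul_eq_mul, mul_one]

private theorem Et_sub (D : Set ℂ) (P : Finset ℂ) (v : ℂ → ℝ) (t : ℝ) (p : ℂ) :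
    Et D P v t p ⊆ Icc (-Real.pi) Real.pi := fun _ h => Ioc_subset_Icc_self h.1

private theorem Et_top (D : Set ℂ) (P : Finset ℂ) (v : ℂ → ℝ) (t : ℝ) (p : ℂ) :
    volume (Et D P v t p) < ⊤ :=
  lt_of_le_of_lt (measure_mono (Et_sub D P v t p)) (by rw [Real.volume_Icc]; exact ENNReal.ofReal_lt_top)

private theorem Et_integrable (D : Set ℂ) (P : Finset ℂ) (v : ℂ → ℝ) (t : ℝ) (p : ℂ)
    {f : ℝ → ℝ} (hf : Continuous f) : IntegrableOn f (Et D P v t p) volume :=
  (hf.continuousOn.integrableOn_compact isCompact_Icc).mono_set (Et_sub D P v t p)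

private theorem ip_comm (a b : ℂ) : ip a b = ip b a := by
  simp only [ip, Complex.mul_re, Complex.conj_re, Complex.conj_im]
  ring

private theorem norm_e (θ : ℝ) : ‖exp (θ * I)‖ = 1 := norm_exp_ofReal_mul_I θ

private theorem abs_ip_le (θ : ℝ) (b : ℂ) : |ip (exp (θ * I)) b| ≤ ‖b‖ := by
  unfold ip
  refine (abs_re_le_norm _).trans (le_of_eq ?_)
  rw [norm_mul, RCLike.norm_conj, norm_e, one_mul]

private theorem fInt_le (S : Dat) {D : Set ℂ} {P : Finset ℂ} {t : ℝ} (ht : 0 ≤ t)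
    {G : ℂ → ℂ → ℝ} (hG : ∀ z (θ : ℝ), |G z (exp (θ * I))| ≤ S.C) :
    |fInt D P S.v t G| ≤ S.C * LL S D P t := by
  obtain ⟨v0, -, -, -⟩ := v_facts S
  unfold fInt LL
  rw [Finset.mul_sum]
  refine (Finset.abs_sum_le_sum_abs _ _).trans (Finset.sum_le_sum fun p _ => ?_)
  have h0 : 0 ≤ t * S.v p := mul_nonneg ht (v0 p).le
  rw [abs_mul, abs_of_nonneg h0]
  have h1 : |∫ θ in Et D P S.v t p, G (circleMap p (t * S.v p) θ) (exp (θ * I))| ≤
      S.C * volume.real (Et D P S.v t p) := by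
    rw [← Real.norm_eq_abs]
    exact norm_setIntegral_le_of_norm_le_const (Et_top D P S.v t p) fun θ _ => by
      rw [Real.norm_eq_abs]
      exact hG _ θ
  calc t * S.v p * |∫ θ in Et D P S.v t p, G (circleMap p (t * S.v p) θ) (exp (θ * I))|
      ≤ t * S.v p * (S.C * volume.real (Et D P S.v t p)) := mul_le_mul_of_nonneg_left h1 h0
    _ = _ := by ring

theorem PsiO_le (S : Dat) {D : Set ℂ} (hD : IsOpen D) {P : Finset ℂ} {t : ℝ} (ht : 0 ≤ t) :
    |PsiO S D P t| ≤ S.C * LL S D P t ∧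
      |fInt D P S.v t (fun z ν => ip ν (-I * S.be z))| ≤ S.C * LL S D P t := by
  constructor
  · exact fInt_le S ht fun z θ => (abs_ip_le θ _).trans (S.Om_le z)
  · refine fInt_le S ht fun z θ => (abs_ip_le θ _).trans ?_
    rw [norm_mul, norm_neg, norm_I, one_mul]
    exact S.be_le z

private theorem near_one (S : Dat) {p x : ℂ} {t : ℝ} (ht : 0 ≤ t) (hp : p ∈ closure S.W)
    (hx : dist x p = t * S.v p) : |S.v p * S.g x - 1| ≤ S.C ^ 3 * t := by
  obtain ⟨v0, -, v2, v3⟩ := v_facts S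
  have hC : 0 < S.C := lt_of_lt_of_le one_pos S.C_one
  have h1 : S.v p * S.g x - 1 = S.v p * (S.g x - S.g p) := by
    rw [mul_sub, v3 p hp]
  rw [h1, abs_mul, abs_of_pos (v0 p)]
  have h2 : |S.g x - S.g p| ≤ S.C * (t * S.v p) := by
    rw [← hx]
    exact S.g_lip x p
  have h3 : t * S.v p ≤ t * S.C := mul_le_mul_of_nonneg_left (v2 p) ht
  calc S.v p * |S.g x - S.g p| ≤ S.C * (S.C * (t * S.C)) := by
        apply mul_le_mul (v2 p) _ (abs_nonneg _) hC.le
        exact h2.trans (mul_le_mul_of_nonneg_left h3 hC.le)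
    _ = S.C ^ 3 * t := by ring

private theorem circle_dist {p : ℂ} {r : ℝ} (hr : 0 ≤ r) (θ : ℝ) :
    dist (circleMap p r θ) p = r := by
  rw [dist_eq_norm, circleMap_sub_center, norm_circleMap_zero, abs_of_nonneg hr]

theorem P_low (S : Dat) : ∃ C3 : ℝ, 0 < C3 ∧ ∀ (D : Set ℂ) (P : Finset ℂ) (t a : ℝ),
    IsOpen D → D ⊆ S.W → (∀ p ∈ P, p ∈ frontier D) → 0 ≤ t → t ≤ 1 →
    2 * a * PsiO S D P t - (a ^ 2 + S.E ^ 2) * LL S D P t - C3 * t * LL S D P t ≤
      PPf S D P t := by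
  obtain ⟨v0, -, -, -⟩ := v_facts S
  have hC : 0 < S.C := lt_of_lt_of_le one_pos S.C_one
  have hE := S.E_pos
  refine ⟨S.C ^ 3 * (S.C ^ 2 + S.E ^ 2), by positivity, ?_⟩
  intro D P t a hD hDW hP ht _
  set C3 := S.C ^ 3 * (S.C ^ 2 + S.E ^ 2) with hC3
  have h1 : 2 * a * PsiO S D P t - (a ^ 2 + S.E ^ 2) * LL S D P t - C3 * t * LL S D P t =
      ∑ p ∈ P, t * S.v p * (2 * a * (∫ θ in Et D P S.v t p,
        ip (exp (θ * I)) (S.Om (circleMap p (t * S.v p) θ))) -
        (a ^ 2 + S.E ^ 2 + C3 * t) * volume.real (Et D P S.v t p)) := by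
    unfold PsiO fInt LL
    rw [Finset.mul_sum, Finset.mul_sum, Finset.mul_sum, ← Finset.sum_sub_distrib,
      ← Finset.sum_sub_distrib]
    refine Finset.sum_congr rfl fun p _ => ?_
    ring
  rw [h1]
  unfold PPf
  refine Finset.sum_le_sum fun p hp => ?_
  have h0 : 0 ≤ t * S.v p := mul_nonneg ht (v0 p).le
  have e1 : t * S.v p ^ 2 * ∫ θ in Et D P S.v t p, S.P (circleMap p (t * S.v p) θ) =
      t * S.v p * ∫ θ in Et D P S.v t p, S.v p * S.P (circleMap p (t * S.v p) θ) := by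
    rw [integral_const_mul]
    ring
  rw [e1]
  apply mul_le_mul_of_nonneg_left _ h0
  have cOm : Continuous fun θ : ℝ => ip (exp (θ * I)) (S.Om (circleMap p (t * S.v p) θ)) := by
    have c1 : Continuous S.Om := S.Om_cont.continuous
    have c2 : Continuous (circleMap p (t * S.v p)) := continuous_circleMap _ _
    unfold ip
    fun_prop
  have cP : Continuous fun θ : ℝ => S.v p * S.P (circleMap p (t * S.v p) θ) :=
    continuous_const.mul (S.P_cont.comp (continuous_circleMap _ _))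
  have e2 : 2 * a * (∫ θ in Et D P S.v t p,
        ip (exp (θ * I)) (S.Om (circleMap p (t * S.v p) θ))) -
        (a ^ 2 + S.E ^ 2 + C3 * t) * volume.real (Et D P S.v t p) =
      ∫ θ in Et D P S.v t p, (2 * a * ip (exp (θ * I)) (S.Om (circleMap p (t * S.v p) θ)) -
        (a ^ 2 + S.E ^ 2 + C3 * t)) := by
    rw [integral_sub ((Et_integrable D P S.v t p cOm).const_mul _)
      (Et_integrable D P S.v t p continuous_const), integral_const_mul, setIntegral_const,
      smul_eq_mul]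
    ring
  rw [e2]
  apply setIntegral_mono_on ((Et_integrable D P S.v t p cOm).const_mul _ |>.sub
    (Et_integrable D P S.v t p continuous_const)) (Et_integrable D P S.v t p cP)
    (measurableSet_Et hD P S.v t p)
  intro θ hθ
  set x := circleMap p (t * S.v p) θ with hx
  have hxW : x ∈ S.W := hDW hθ.2.1
  have hpW : p ∈ closure S.W := closure_mono hDW (hP p hp).1
  have h2 := near_one S ht hpW (circle_dist h0 θ)
  rw [← hx] at h2
  rw [S.P_eq x (subset_closure hxW)]
  have h3 : ‖S.Om x‖ ≤ S.C := S.Om_le x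
  have h4 : 0 ≤ ‖S.Om x‖ := norm_nonneg _
  have h5 : |‖S.Om x‖ ^ 2 - S.E ^ 2| ≤ S.C ^ 2 + S.E ^ 2 := by
    rw [abs_le]
    constructor
    · nlinarith [sq_nonneg S.C, sq_nonneg (‖S.Om x‖)]
    · nlinarith [sq_nonneg S.E, pow_le_pow_left₀ h4 h3 2]
  have h6 : |(S.v p * S.g x - 1) * (‖S.Om x‖ ^ 2 - S.E ^ 2)| ≤ C3 * t := by
    rw [abs_mul, hC3]
    calc |S.v p * S.g x - 1| * |‖S.Om x‖ ^ 2 - S.E ^ 2|
        ≤ (S.C ^ 3 * t) * (S.C ^ 2 + S.E ^ 2) :=
          mul_le_mul h2 h5 (abs_nonneg _) (by positivity)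
      _ = _ := by ring
  have h7 : 2 * a * ip (exp (θ * I)) (S.Om x) - a ^ 2 ≤ ‖S.Om x‖ ^ 2 := by
    have h8 : |ip (exp (θ * I)) (S.Om x)| ≤ ‖S.Om x‖ := abs_ip_le θ _
    have h9 : ip (exp (θ * I)) (S.Om x) ^ 2 ≤ ‖S.Om x‖ ^ 2 := by
      rw [← sq_abs]
      exact pow_le_pow_left₀ (abs_nonneg _) h8 2
    nlinarith [sq_nonneg (a - ip (exp (θ * I)) (S.Om x))]
  have h10 := (abs_le.1 h6).1
  have h11 : S.v p * (S.g x * (‖S.Om x‖ ^ 2 - S.E ^ 2)) = (‖S.Om x‖ ^ 2 - S.E ^ 2) +
      (S.v p * S.g x - 1) * (‖S.Om x‖ ^ 2 - S.E ^ 2) := by ring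
  rw [h11]
  show 2 * a * ip (exp (θ * I)) (S.Om x) - (a ^ 2 + S.E ^ 2 + C3 * t) ≤
    (‖S.Om x‖ ^ 2 - S.E ^ 2) + (S.v p * S.g x - 1) * (‖S.Om x‖ ^ 2 - S.E ^ 2)
  linarith

theorem g_up (S : Dat) : ∃ C4 : ℝ, 0 < C4 ∧ ∀ (F : Finset (ℂ × ℝ)) (D K K2 : Set ℂ)
    (P : Finset ℂ) (t0 t1 t : ℝ), Reg F D → D ⊆ S.W → (∀ p ∈ P, p ∈ frontier D) →
    Front D K K2 P S.v t0 t1 → t ∈ Icc t0 t1 → t ≤ 1 →
    fInt D P S.v t (fun z _ => S.g z) ≤
      t * Th D P S.v t + t * (2 * PsiO S D P t + 2 * S.w F D K) + C4 * t ^ 2 * LL S D P t := by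
  obtain ⟨v0, -, v2, v3⟩ := v_facts S
  have hC : 0 < S.C := lt_of_lt_of_le one_pos S.C_one
  refine ⟨4 * S.C ^ 4 + S.C ^ 3, by positivity, ?_⟩
  intro F D K K2 P t0 t1 t hF hDW hP hf ht _
  have ht0 : 0 ≤ t := hf.t0pos.le.trans ht.1
  set C4 := 4 * S.C ^ 4 + S.C ^ 3 with hC4
  rw [← flux_front S hF hDW hf ht]
  have h1 : t * Th D P S.v t + t * (2 * PsiO S D P t +
      2 * fInt D P S.v t (fun z ν => ip ν (-I * S.be z))) + C4 * t ^ 2 * LL S D P t =
      ∑ p ∈ P, (t * volume.real (Et D P S.v t p) + t * S.v p * (t * (2 * (∫ θ in Et D P S.v t p,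
        ip (exp (θ * I)) (S.Om (circleMap p (t * S.v p) θ))) + 2 * (∫ θ in Et D P S.v t p,
        ip (exp (θ * I)) (-I * S.be (circleMap p (t * S.v p) θ)))) +
        C4 * t ^ 2 * volume.real (Et D P S.v t p))) := by
    unfold PsiO fInt LL Th
    simp only [Finset.mul_sum]
    rw [← Finset.sum_add_distrib, Finset.mul_sum, ← Finset.sum_add_distrib,
      ← Finset.sum_add_distrib]
    refine Finset.sum_congr rfl fun p _ => ?_
    ring
  rw [h1]
  unfold fInt
  refine Finset.sum_le_sum fun p hp => ?_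
  have h0 : 0 ≤ t * S.v p := mul_nonneg ht0 (v0 p).le
  have cc : Continuous (circleMap p (t * S.v p)) := continuous_circleMap _ _
  have cOm : Continuous fun θ : ℝ => ip (exp (θ * I)) (S.Om (circleMap p (t * S.v p) θ)) := by
    have c1 : Continuous S.Om := S.Om_cont.continuous
    unfold ip
    fun_prop
  have cbe : Continuous fun θ : ℝ =>
      ip (exp (θ * I)) (-I * S.be (circleMap p (t * S.v p) θ)) := by
    have c1 : Continuous S.be := S.be_cont.continuous
    unfold ip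
    fun_prop
  have cg : Continuous fun θ : ℝ => t * S.v p * S.g (circleMap p (t * S.v p) θ) :=
    continuous_const.mul (S.g_cont.continuous.comp cc)
  have iOm := Et_integrable D P S.v t p cOm
  have ibe := Et_integrable D P S.v t p cbe
  have ig := Et_integrable D P S.v t p cg
  have e1 : t * volume.real (Et D P S.v t p) + t * S.v p * (t * (2 * (∫ θ in Et D P S.v t p,
        ip (exp (θ * I)) (S.Om (circleMap p (t * S.v p) θ))) + 2 * (∫ θ in Et D P S.v t p,
        ip (exp (θ * I)) (-I * S.be (circleMap p (t * S.v p) θ)))) +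
        C4 * t ^ 2 * volume.real (Et D P S.v t p)) =
      ∫ θ in Et D P S.v t p, ((t * S.v p * t * 2 * ip (exp (θ * I))
        (S.Om (circleMap p (t * S.v p) θ)) + t * S.v p * t * 2 * ip (exp (θ * I))
        (-I * S.be (circleMap p (t * S.v p) θ))) + (t + t * S.v p * (C4 * t ^ 2))) := by
    have i1 : IntegrableOn (fun θ : ℝ => t * S.v p * t * 2 * ip (exp (θ * I))
        (S.Om (circleMap p (t * S.v p) θ))) (Et D P S.v t p) volume := iOm.const_mul _
    have i2 : IntegrableOn (fun θ : ℝ => t * S.v p * t * 2 * ip (exp (θ * I))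
        (-I * S.be (circleMap p (t * S.v p) θ))) (Et D P S.v t p) volume := ibe.const_mul _
    have i3 : IntegrableOn (fun θ : ℝ => t * S.v p * t * 2 * ip (exp (θ * I))
        (S.Om (circleMap p (t * S.v p) θ)) + t * S.v p * t * 2 * ip (exp (θ * I))
        (-I * S.be (circleMap p (t * S.v p) θ))) (Et D P S.v t p) volume := i1.add i2
    rw [integral_add i3 (Et_integrable D P S.v t p continuous_const), integral_add i1 i2,
      integral_const_mul, integral_const_mul, setIntegral_const, smul_eq_mul]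
    ring
  rw [e1, ← integral_const_mul]
  apply setIntegral_mono_on ig (((iOm.const_mul _).add (ibe.const_mul _)).add
      (Et_integrable D P S.v t p continuous_const)) (measurableSet_Et hf.op P S.v t p)
  intro θ hθ
  have hxp : circleMap p (t * S.v p) θ - p = ((t * S.v p : ℝ) : ℂ) * exp (θ * I) := by
    rw [circleMap_sub_center, circleMap_zero]
  set x := circleMap p (t * S.v p) θ with hx
  have hxW : x ∈ S.W := hDW hθ.2.1
  have hpW : p ∈ closure S.W := closure_mono hDW (hP p hp).1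
  have hdist := circle_dist (p := p) h0 θ
  rw [← hx] at hdist
  have h2 := near_one S ht0 hpW hdist
  have h3 := S.g_taylor p x
  rw [dist_comm, hdist, S.grad x (subset_closure hxW), hxp] at h3
  set ν := exp (θ * I) with hν
  have h4 : ip (S.g x * (2 * S.Om x - 2 * I * S.be x)) (((t * S.v p : ℝ) : ℂ) * ν) =
      t * S.v p * S.g x * (2 * ip ν (S.Om x) + 2 * ip ν (-I * S.be x)) := by
    simp only [ip, Complex.mul_re, Complex.mul_im, Complex.conj_re, Complex.conj_im,
      Complex.sub_re, Complex.sub_im, Complex.ofReal_re, Complex.ofReal_im, Complex.I_re,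
      Complex.I_im, Complex.neg_re, Complex.neg_im, Complex.re_ofNat, Complex.im_ofNat]
    ring
  rw [h4] at h3
  set q := 2 * ip ν (S.Om x) + 2 * ip ν (-I * S.be x) with hq
  have hq4 : |q| ≤ 4 * S.C := by
    have a1 : |ip ν (S.Om x)| ≤ S.C := (abs_ip_le θ _).trans (S.Om_le x)
    have a2 : |ip ν (-I * S.be x)| ≤ S.C := by
      refine (abs_ip_le θ _).trans ?_
      rw [norm_mul, norm_neg, norm_I, one_mul]
      exact S.be_le x
    rw [abs_le] at a1 a2 ⊢
    constructor <;> linarith [a1.1, a1.2, a2.1, a2.2]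
  have h5 : |(S.v p * S.g x - 1) * q| ≤ 4 * S.C ^ 4 * t := by
    rw [abs_mul]
    calc |S.v p * S.g x - 1| * |q| ≤ (S.C ^ 3 * t) * (4 * S.C) :=
          mul_le_mul h2 hq4 (abs_nonneg _) (by positivity)
      _ = _ := by ring
  have h6 := (abs_le.1 h3).2
  have h7 := (abs_le.1 h5).2
  have h8 : S.v p ^ 2 ≤ S.C ^ 2 := pow_le_pow_left₀ (v0 p).le (v2 p) 2
  -- assemble
  have h9 : t * S.v p * S.g x ≤ t * (S.v p * S.g p) + t * S.v p * (t * S.v p * S.g x * q) +
      t * S.v p * (S.C * (t * S.v p) ^ 2) := by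
    have := mul_le_mul_of_nonneg_left h6 h0
    nlinarith
  rw [v3 p hpW, mul_one] at h9
  have h10 : t * S.v p * (t * S.v p * S.g x * q) =
      t * S.v p * t * q + t * S.v p * t * ((S.v p * S.g x - 1) * q) := by ring
  have h11 : t * S.v p * t * ((S.v p * S.g x - 1) * q) ≤
      t * S.v p * t * (4 * S.C ^ 4 * t) := mul_le_mul_of_nonneg_left h7 (by positivity)
  have h12 : t * S.v p * (S.C * (t * S.v p) ^ 2) ≤ t * S.v p * (S.C ^ 3 * t ^ 2) := by
    apply mul_le_mul_of_nonneg_left _ h0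
    calc S.C * (t * S.v p) ^ 2 = S.C * t ^ 2 * S.v p ^ 2 := by ring
      _ ≤ S.C * t ^ 2 * S.C ^ 2 := mul_le_mul_of_nonneg_left h8 (by positivity)
      _ = _ := by ring
  calc t * S.v p * S.g x ≤ t + t * S.v p * t * q + t * S.v p * t * (4 * S.C ^ 4 * t) +
        t * S.v p * (S.C ^ 3 * t ^ 2) := by linarith
    _ = t * S.v p * t * 2 * ip ν (S.Om x) + t * S.v p * t * 2 * ip ν (-I * S.be x) +
        (t + t * S.v p * (C4 * t ^ 2)) := by
        rw [hq, hC4]
        ring

end Pool.Agent.FKM
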