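import Mathlib
import Pool.Agent.Helper13.FKM.Collar
import Pool.Agent.Helper99.FK.Iso1

/-!
FKM-5: isoperimetric inequality for the outer boundary.

Plan. O = Kᶜ is bounded and open (K closed), D ⊆ O. S_τ = {x ∈ O | τ < infDist x K} is open. FK.iso1_bm
(Pool.Agent.Helper99.FK.Iso1) with S = S_τ, T = O, d = τ: |S_τ| + 2 sqrt π τ sqrt |S_τ| ≤ |O|. For small τ
(part_sep, K2 at positive distance from K) O \ S_τ ⊆ {x ∈ D | ∃ p ∈ K ∩ closure D, dist x p ≤ τ} (part_near),
whose measure is at most τ (L + γ) by `collar` with g = v = 1, C = 1. So 2 sqrt π sqrt |S_τ| ≤ L + γ; let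
τ → 0 (|S_τ| → |O| ≥ |D|, continuity from below) and γ → 0.
-/

set_option autoImplicit false

open Complex MeasureTheory Set Metric Filter
open scoped ComplexConjugate Topology

namespace Pool.Agent.FKM

private theorem iso_step {F : Finset (ℂ × ℝ)} {D K K2 : Set ℂ} (h : Reg F D)
    (hp : Part D K K2) (hK : Bornology.IsBounded Kᶜ) {γ : ℝ} (hγ : 0 < γ) :
    ∃ τ0 > 0, ∀ τ ∈ Ioc 0 τ0, ∃ s : ℝ, 0 ≤ s ∧
      volume.real D ≤ s + τ * (bInt (inK F K) D (fun _ _ => 1) + γ) ∧
      2 * Real.sqrt Real.pi * Real.sqrt s ≤ bInt (inK F K) D (fun _ _ => 1) + γ := by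
  have hKne : K.Nonempty := by
    by_contra hne
    rw [not_nonempty_iff_eq_empty] at hne
    rw [hne, compl_empty] at hK
    exact NormedSpace.unbounded_univ ℝ ℂ hK
  have hKD : K ⊆ Dᶜ := by rw [← hp.union]; exact subset_union_left
  have hDO : D ⊆ Kᶜ := fun x hx hxK => hKD hxK hx
  obtain ⟨η, hη, hsep⟩ := part_sep h.bdd hp
  obtain ⟨τ1, hτ1, hcol⟩ := collar (C := 1) (g := fun _ => 1) (v := fun _ => 1) h hp one_pos
    (fun z w => by simp) (fun _ => le_rfl) (fun _ => zero_le_one) (fun _ _ => one_mul 1)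
    (fun _ _ => le_rfl) hγ
  refine ⟨min τ1 (η / 2), by positivity, fun τ hτ => ?_⟩
  have hτ0 : 0 < τ := hτ.1
  have hτ1' : τ ≤ τ1 := hτ.2.trans (min_le_left _ _)
  have hτη : τ < η := by
    have := hτ.2.trans (min_le_right _ _)
    linarith
  set L : ℝ := bInt (inK F K) D (fun _ _ => 1) with hL
  have hc := hcol τ ⟨hτ0, hτ1'⟩ (K ∩ closure D) inter_subset_left inter_subset_right
  set B : Set ℂ := {z | z ∈ D ∧ ∃ p ∈ K ∩ closure D, dist z p ≤ τ * 1} with hB
  have hBreal : volume.real B ≤ τ * (L + γ) := by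
    have h1 : ∫ _z in B, (1 : ℝ) ^ 2 = volume.real B := by simp
    rw [← h1]
    exact hc
  set S : Set ℂ := {x | τ < infDist x K} with hS
  have hSopen : IsOpen S := isOpen_lt continuous_const (continuous_infDist_pt K)
  have hSO : S ⊆ Kᶜ := by
    intro x hx hxK
    have h1 : infDist x K = 0 := infDist_zero_of_mem hxK
    have h2 : τ < infDist x K := hx
    linarith
  have hSb : Bornology.IsBounded S := hK.subset hSO
  have hOfin : volume Kᶜ ≠ ⊤ := hK.measure_lt_top.ne
  have hSfin : volume S ≠ ⊤ := hSb.measure_lt_top.ne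
  have hBfin : volume B ≠ ⊤ := (h.bdd.subset (fun x hx => hx.1)).measure_lt_top.ne
  have hbm := FK.iso1_bm hSopen hSb hτ0 (T := Kᶜ) (by
    intro a ha y hy hay
    have h1 : infDist a K ≤ dist a (a + y) := infDist_le_dist_of_mem hay
    have h2 : τ < infDist a K := ha
    rw [dist_self_add_right] at h1
    linarith)
  have hbm' : volume.real S + 2 * Real.sqrt Real.pi * τ * Real.sqrt (volume.real S) ≤
      volume.real Kᶜ := by
    have h1 := (ENNReal.toReal_le_toReal (ENNReal.add_ne_top.2 ⟨hSfin, ENNReal.ofReal_ne_top⟩)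
      hOfin).2 hbm
    rw [ENNReal.toReal_add hSfin ENNReal.ofReal_ne_top, ENNReal.toReal_ofReal (by positivity)] at h1
    exact h1
  have hsub : Kᶜ ⊆ S ∪ B := by
    intro x hx
    by_cases hxS : τ < infDist x K
    · exact Or.inl hxS
    · right
      obtain ⟨y, hy, hxy, -, -⟩ := part_near h.op hp hKne hx
      have hxy' : dist x y ≤ τ := by rw [hxy]; exact not_lt.1 hxS
      refine ⟨?_, y, ⟨hy.2, frontier_subset_closure hy.1⟩, by rwa [mul_one]⟩
      by_contra hxD
      have h1 : x ∈ K ∪ K2 := by rw [hp.union]; exact hxD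
      rcases h1 with h1 | h1
      · exact hx h1
      · have h2 := hsep y hy.2 x h1
        rw [dist_comm] at h2
        linarith
  have hle : volume.real Kᶜ ≤ volume.real S + volume.real B := by
    refine (measureReal_mono hsub (measure_union_lt_top hSfin.lt_top hBfin.lt_top).ne).trans ?_
    exact measureReal_union_le S B
  have hDle : volume.real D ≤ volume.real Kᶜ := measureReal_mono hDO hOfin
  refine ⟨volume.real S, measureReal_nonneg, by linarith, ?_⟩
  have h1 : τ * (2 * Real.sqrt Real.pi * Real.sqrt (volume.real S)) ≤ τ * (L + γ) := by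
    calc τ * (2 * Real.sqrt Real.pi * Real.sqrt (volume.real S)) =
        2 * Real.sqrt Real.pi * τ * Real.sqrt (volume.real S) := by ring
      _ ≤ volume.real B := by linarith
      _ ≤ _ := hBreal
  exact le_of_mul_le_mul_left h1 hτ0

theorem iso {F : Finset (ℂ × ℝ)} {D K K2 : Set ℂ} (h : Reg F D) (hp : Part D K K2)
    (hK : Bornology.IsBounded Kᶜ) :
    2 * Real.sqrt (Real.pi * volume.real D) ≤ bInt (inK F K) D (fun _ _ => 1) := by
  refine le_of_forall_pos_le_add fun γ hγ => ?_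
  obtain ⟨τ0, hτ0, hstep⟩ := iso_step h hp hK hγ
  set L : ℝ := bInt (inK F K) D (fun _ _ => 1) with hL
  have hLγ : 0 ≤ L + γ := by
    obtain ⟨s, hs, -, h2⟩ := hstep τ0 ⟨hτ0, le_rfl⟩
    exact le_trans (by positivity) h2
  have hpi := Real.pi_pos
  have hD0 : 0 ≤ volume.real D := measureReal_nonneg
  have key : 4 * Real.pi * volume.real D ≤ (L + γ) ^ 2 := by
    refine le_of_forall_pos_le_add fun ε hε => ?_
    have hden : 0 < 4 * Real.pi * (L + γ) + 1 := by positivity
    set τ : ℝ := min τ0 (ε / (4 * Real.pi * (L + γ) + 1)) with hτ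
    have hτpos : 0 < τ := by positivity
    obtain ⟨s, hs, h1, h2⟩ := hstep τ ⟨hτpos, min_le_left _ _⟩
    have h3 : (2 * Real.sqrt Real.pi * Real.sqrt s) ^ 2 ≤ (L + γ) ^ 2 :=
      pow_le_pow_left₀ (by positivity) h2 2
    rw [mul_pow, mul_pow, Real.sq_sqrt hpi.le, Real.sq_sqrt hs] at h3
    have h4 : τ * (4 * Real.pi * (L + γ) + 1) ≤ ε := by
      rw [← le_div_iff₀ hden]
      exact min_le_right _ _
    have h5 : 4 * Real.pi * volume.real D ≤ 4 * Real.pi * (s + τ * (L + γ)) :=
      mul_le_mul_of_nonneg_left h1 (by positivity)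
    nlinarith
  have h6 : 2 * Real.sqrt (Real.pi * volume.real D) = Real.sqrt (4 * Real.pi * volume.real D) := by
    have h7 : 4 * Real.pi * volume.real D = 2 ^ 2 * (Real.pi * volume.real D) := by ring
    rw [h7, Real.sqrt_mul (x := (2 : ℝ) ^ 2) (by norm_num), Real.sqrt_sq (by norm_num)]
  rw [h6, ← Real.sqrt_sq hLγ]
  exact Real.sqrt_le_sqrt key

end Pool.Agent.FKM
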