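import Mathlib
import Pool.Agent.Helper13.FKM.Defs

/-!
FKM-12: only finitely many times are exceptional.

Plan. Tangencies: t = dist p q / (v p + v q) or dist p q / |v p - v q|. Triple points: |x-p|^2 = v_p^2 T,
|x-q|^2 = v_q^2 T, |x-l|^2 = v_l^2 T with T = t^2. Put p = 0: subtracting, 2<x,q> = |q|^2 + (v_p^2 - v_q^2) T
and 2<x,l> = |l|^2 + (v_p^2 - v_l^2) T. By Cramer's rule
`|A1 l - A2 q|^2 = 4 (det)^2 v_p^2 T` with `A1 = |q|^2 + (v_p^2 - v_q^2) T`, `A2 = |l|^2 + (v_p^2 - v_l^2) T`,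
a polynomial equation for t with constant term `||q|^2 l - |l|^2 q|^2`, which is not zero as `q ≠ l`.
-/

set_option autoImplicit false

open Complex MeasureTheory Set Metric Filter
open scoped ComplexConjugate Topology

namespace Pool.Agent.FKM

private lemma genfin_lin {d s : ℝ} (hd : d ≠ 0) : {t : ℝ | d = t * s}.Finite := by
  refine Set.Subsingleton.finite ?_
  intro t ht t' ht'
  simp only [mem_setOf_eq] at ht ht'
  have hs : s ≠ 0 := by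
    rintro rfl
    exact hd (by rw [ht, mul_zero])
  exact mul_right_cancel₀ hs (ht.symm.trans ht')

private lemma genfin_dist {x p : ℂ} {r : ℝ} (h : dist x p = r) :
    (x.re - p.re) ^ 2 + (x.im - p.im) ^ 2 = r ^ 2 := by
  rw [← h, Complex.dist_eq, Complex.sq_norm, Complex.normSq_apply, Complex.sub_re, Complex.sub_im]
  ring

private lemma genfin_const {a b c d : ℝ} (h1 : 0 < a ^ 2 + b ^ 2) (h2 : 0 < c ^ 2 + d ^ 2)
    (e1 : (a ^ 2 + b ^ 2) * c = (c ^ 2 + d ^ 2) * a)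
    (e2 : (a ^ 2 + b ^ 2) * d = (c ^ 2 + d ^ 2) * b) : a = c ∧ b = d := by
  have h3 : (a ^ 2 + b ^ 2) ^ 2 * (c ^ 2 + d ^ 2) = (c ^ 2 + d ^ 2) ^ 2 * (a ^ 2 + b ^ 2) := by
    have : (a ^ 2 + b ^ 2) ^ 2 * (c ^ 2 + d ^ 2) =
        ((a ^ 2 + b ^ 2) * c) ^ 2 + ((a ^ 2 + b ^ 2) * d) ^ 2 := by ring
    rw [this, e1, e2]; ring
  have h4 : a ^ 2 + b ^ 2 = c ^ 2 + d ^ 2 := by
    have h5 : (a ^ 2 + b ^ 2) * (c ^ 2 + d ^ 2) ≠ 0 := (mul_pos h1 h2).ne'
    apply mul_left_cancel₀ h5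
    nlinarith
  rw [← h4] at e1 e2
  exact ⟨(mul_left_cancel₀ h1.ne' e1).symm, (mul_left_cancel₀ h1.ne' e2).symm⟩

private lemma genfin_triple {v : ℂ → ℝ} {p q l : ℂ} (hpq : p ≠ q) (hql : q ≠ l) (hpl : p ≠ l) :
    {t : ℝ | ∃ x : ℂ, dist x p = t * v p ∧ dist x q = t * v q ∧ dist x l = t * v l}.Finite := by
  classical
  obtain ⟨a, ha⟩ : ∃ a, a = q.re - p.re := ⟨_, rfl⟩
  obtain ⟨b, hb⟩ : ∃ b, b = q.im - p.im := ⟨_, rfl⟩
  obtain ⟨c, hc⟩ : ∃ c, c = l.re - p.re := ⟨_, rfl⟩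
  obtain ⟨d, hd⟩ : ∃ d, d = l.im - p.im := ⟨_, rfl⟩
  have pos1 : 0 < a ^ 2 + b ^ 2 := by
    rcases eq_or_ne a 0 with h | h
    · rcases eq_or_ne b 0 with h' | h'
      · exact absurd (Complex.ext (by linarith) (by linarith)) hpq
      · positivity
    · positivity
  have pos2 : 0 < c ^ 2 + d ^ 2 := by
    rcases eq_or_ne c 0 with h | h
    · rcases eq_or_ne d 0 with h' | h'
      · exact absurd (Complex.ext (by linarith) (by linarith)) hpl
      · positivity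
    · positivity
  obtain ⟨α, hα⟩ : ∃ α, α = v p ^ 2 - v q ^ 2 := ⟨_, rfl⟩
  obtain ⟨β, hβ⟩ : ∃ β, β = v p ^ 2 - v l ^ 2 := ⟨_, rfl⟩
  let A1 : Polynomial ℝ := Polynomial.C (a ^ 2 + b ^ 2) + Polynomial.C α * Polynomial.X ^ 2
  let A2 : Polynomial ℝ := Polynomial.C (c ^ 2 + d ^ 2) + Polynomial.C β * Polynomial.X ^ 2
  let f : Polynomial ℝ := (A1 * Polynomial.C d - A2 * Polynomial.C b) ^ 2 +
    (A2 * Polynomial.C a - A1 * Polynomial.C c) ^ 2 -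
    Polynomial.C (4 * (a * d - b * c) ^ 2 * v p ^ 2) * Polynomial.X ^ 2
  have hev : ∀ t : ℝ, f.eval t = (((a ^ 2 + b ^ 2) + α * t ^ 2) * d -
      ((c ^ 2 + d ^ 2) + β * t ^ 2) * b) ^ 2 + (((c ^ 2 + d ^ 2) + β * t ^ 2) * a -
      ((a ^ 2 + b ^ 2) + α * t ^ 2) * c) ^ 2 - 4 * (a * d - b * c) ^ 2 * v p ^ 2 * t ^ 2 := by
    intro t
    simp [f, A1, A2]
  have hf : f ≠ 0 := by
    intro h
    have h0 := hev 0
    rw [h, Polynomial.eval_zero] at h0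
    have e : ((a ^ 2 + b ^ 2) * d - (c ^ 2 + d ^ 2) * b) ^ 2 +
        ((c ^ 2 + d ^ 2) * a - (a ^ 2 + b ^ 2) * c) ^ 2 = 0 := by
      rw [h0]; ring
    have e1 : (a ^ 2 + b ^ 2) * d - (c ^ 2 + d ^ 2) * b = 0 := by
      have := sq_nonneg ((a ^ 2 + b ^ 2) * d - (c ^ 2 + d ^ 2) * b)
      have := sq_nonneg ((c ^ 2 + d ^ 2) * a - (a ^ 2 + b ^ 2) * c)
      exact pow_eq_zero_iff two_ne_zero |>.1 (by linarith)
    have e2 : (c ^ 2 + d ^ 2) * a - (a ^ 2 + b ^ 2) * c = 0 := by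
      have := sq_nonneg ((a ^ 2 + b ^ 2) * d - (c ^ 2 + d ^ 2) * b)
      have := sq_nonneg ((c ^ 2 + d ^ 2) * a - (a ^ 2 + b ^ 2) * c)
      exact pow_eq_zero_iff two_ne_zero |>.1 (by linarith)
    obtain ⟨h1, h2⟩ := genfin_const pos1 pos2 (by linarith) (by linarith)
    exact hql (Complex.ext (by linarith) (by linarith))
  refine (f.roots.toFinset.finite_toSet).subset ?_
  rintro t ⟨x, h1, h2, h3⟩
  rw [Finset.mem_coe, Multiset.mem_toFinset, Polynomial.mem_roots hf, Polynomial.IsRoot.def, hev]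
  have g1 := genfin_dist h1
  have g2 := genfin_dist h2
  have g3 := genfin_dist h3
  obtain ⟨y, hy⟩ : ∃ y, y = x.re - p.re := ⟨_, rfl⟩
  obtain ⟨z, hz⟩ : ∃ z, z = x.im - p.im := ⟨_, rfl⟩
  have ex1 : x.re - q.re = y - a := by rw [hy, ha]; ring
  have ex2 : x.im - q.im = z - b := by rw [hz, hb]; ring
  have ex3 : x.re - l.re = y - c := by rw [hy, hc]; ring
  have ex4 : x.im - l.im = z - d := by rw [hz, hd]; ring
  rw [← hy, ← hz] at g1
  rw [ex1, ex2] at g2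
  rw [ex3, ex4] at g3
  have k1 : (a ^ 2 + b ^ 2) + α * t ^ 2 = 2 * (a * y + b * z) := by
    rw [hα]; linarith
  have k2 : (c ^ 2 + d ^ 2) + β * t ^ 2 = 2 * (c * y + d * z) := by
    rw [hβ]; linarith
  have k3 : v p ^ 2 * t ^ 2 = y ^ 2 + z ^ 2 := by linarith
  rw [k1, k2]
  linear_combination (-(4 * (a * d - b * c) ^ 2)) * k3

theorem gen_finite {P : Finset ℂ} {v : ℂ → ℝ} (hv : ∀ p, 0 < v p) :
    {t : ℝ | 0 < t ∧ ¬ Gen P v t}.Finite := by
  classical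
  let S1 : Set ℝ := ⋃ p ∈ P, ⋃ q ∈ P, {t : ℝ | p ≠ q ∧ dist p q = t * (v p + v q)}
  let S2 : Set ℝ := ⋃ p ∈ P, ⋃ q ∈ P, {t : ℝ | p ≠ q ∧ dist p q = t * |v p - v q|}
  let S3 : Set ℝ := ⋃ p ∈ P, ⋃ q ∈ P, ⋃ l ∈ P, {t : ℝ | (p ≠ q ∧ q ≠ l ∧ p ≠ l) ∧
    ∃ x : ℂ, dist x p = t * v p ∧ dist x q = t * v q ∧ dist x l = t * v l}
  have f1 : S1.Finite := by
    refine P.finite_toSet.biUnion (fun p _ => P.finite_toSet.biUnion (fun q _ => ?_))
    by_cases h : p = q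
    · simp [h]
    · exact (genfin_lin (s := v p + v q) (dist_ne_zero.2 h)).subset (fun t ht => ht.2)
  have f2 : S2.Finite := by
    refine P.finite_toSet.biUnion (fun p _ => P.finite_toSet.biUnion (fun q _ => ?_))
    by_cases h : p = q
    · simp [h]
    · exact (genfin_lin (s := |v p - v q|) (dist_ne_zero.2 h)).subset (fun t ht => ht.2)
  have f3 : S3.Finite := by
    refine P.finite_toSet.biUnion (fun p _ => P.finite_toSet.biUnion (fun q _ =>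
      P.finite_toSet.biUnion (fun l _ => ?_)))
    by_cases h : p ≠ q ∧ q ≠ l ∧ p ≠ l
    · exact (genfin_triple h.1 h.2.1 h.2.2).subset (fun t ht => ht.2)
    · refine Set.finite_empty.subset (fun t ht => h ht.1)
  refine ((f1.union f2).union f3).subset ?_
  rintro t ⟨ht, hg⟩
  unfold Gen at hg
  rw [not_and_or] at hg
  rcases hg with hg | hg
  · push Not at hg
    obtain ⟨p, hp, q, hq, hpq, hg⟩ := hg
    left
    by_cases h : dist p q = t * (v p + v q)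
    · left
      exact mem_biUnion hp (mem_biUnion hq ⟨hpq, h⟩)
    · right
      exact mem_biUnion hp (mem_biUnion hq ⟨hpq, hg h⟩)
  · push Not at hg
    obtain ⟨p, hp, q, hq, l, hl, hpq, hql, hpl, x, hx⟩ := hg
    right
    exact mem_biUnion hp (mem_biUnion hq (mem_biUnion hl ⟨⟨hpq, hql, hpl⟩, x, hx⟩))

end Pool.Agent.FKM
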