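import Mathlib
import Pool.Agent.Helper13.FKM.Defs
import Pool.Agent.Helper13.FKM.Trig
import Pool.Agent.Helper13.FKM.CorG

/-!
FKM-11: directions and corners; see the plan of FKM-10 (CorG).

lnk: x = cor σ (cor_unique); put γ = θ - arg (q-p) modulo 2π in (-π, π]; the point of circle p in direction
θ is outside disc q iff |γ| > alp, that of q is outside disc p iff |γ| < π - alp'; the corner of the same
sign as γ has the larger height ip (exp (θ I)), so σ = sign γ by hmax.
vol_wedge: the set is an interval of length psi modulo 2π (for σ = -1 the reflected one).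
-/

set_option autoImplicit false

open Complex MeasureTheory Set Metric Filter
open scoped ComplexConjugate Topology

namespace Pool.Agent.FKM

/-- squared distance of a point of a circle to another point -/
private theorem dist_sq_circle (p q : ℂ) (R θ : ℝ) :
    dist (circleMap p R θ) q ^ 2 =
      R ^ 2 + dist p q ^ 2 - 2 * R * dist p q * Real.cos (θ - arg (q - p)) := by
  have hz : q - p = ((dist p q : ℝ) : ℂ) * exp (arg (q - p) * I) := by
    conv_lhs => rw [← Complex.norm_mul_exp_arg_mul_I (q - p)]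
    rw [dist_comm, dist_eq_norm]
  set d := dist p q with hd
  set φ := arg (q - p) with hφ
  have h1 : circleMap p R θ - q = R * exp (θ * I) - d * exp (φ * I) := by
    rw [← hz]; unfold circleMap; ring
  rw [dist_eq_norm, h1, ← Complex.normSq_eq_norm_sq, Real.cos_sub]
  rw [Complex.exp_mul_I, Complex.exp_mul_I, Complex.normSq_apply]
  simp only [← Complex.ofReal_cos, ← Complex.ofReal_sin]
  simp only [sub_re, sub_im, mul_re, mul_im, add_re, add_im, ofReal_re, ofReal_im, I_re, I_im]
  have e1 := Real.sin_sq_add_cos_sq θ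
  have e2 := Real.sin_sq_add_cos_sq φ
  linear_combination R ^ 2 * e1 + d ^ 2 * e2

private theorem arg_swap_cos {p q : ℂ} (hpq : p ≠ q) (θ : ℝ) :
    Real.cos (θ - arg (p - q)) = -Real.cos (θ - arg (q - p)) := by
  have hne : q - p ≠ 0 := sub_ne_zero.2 hpq.symm
  have hc1 : Real.cos (arg (p - q)) = -Real.cos (arg (q - p)) := by
    rw [Complex.cos_arg (sub_ne_zero.2 hpq), Complex.cos_arg hne, norm_sub_rev]
    simp only [sub_re]; ring
  have hs1 : Real.sin (arg (p - q)) = -Real.sin (arg (q - p)) := by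
    rw [Complex.sin_arg, Complex.sin_arg, norm_sub_rev]
    simp only [sub_im]; ring
  rw [Real.cos_sub, Real.cos_sub, hc1, hs1]; ring

private theorem ip_circle (p : ℂ) (R φ θ : ℝ) :
    ip (exp (θ * I)) (circleMap p R φ) = ip (exp (θ * I)) p + R * Real.cos (φ - θ) := by
  unfold ip circleMap
  rw [Complex.exp_mul_I, Complex.exp_mul_I, Real.cos_sub]
  simp only [← Complex.ofReal_cos, ← Complex.ofReal_sin]
  simp only [map_add, map_mul, conj_ofReal, conj_I, mul_re, mul_im, add_re, add_im, ofReal_re,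
    ofReal_im, I_re, I_im, neg_re, neg_im]
  ring

private theorem cos_alp {v : ℂ → ℝ} (hv : ∀ p, 0 < v p) {t : ℝ} (ht : 0 < t) {p q : ℂ}
    (hc : Cross v t p q) :
    Real.cos (alp (v p) (v q) (dist p q / t)) = cosA (t * v p) (t * v q) (dist p q) := by
  have hp := hv p
  have hq := hv q
  have hd : 0 < dist p q / t := lt_of_le_of_lt (abs_nonneg _) hc.1
  have hd' : 0 < dist p q := by
    by_contra hcon
    push_neg at hcon
    have := div_nonpos_of_nonpos_of_nonneg hcon ht.le
    linarith
  have habs := abs_lt.1 hc.1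
  have h2 := hc.2
  set D := dist p q / t with hD
  have hDt : dist p q = t * D := by rw [hD]; field_simp
  have e : cosA (v p) (v q) D = cosA (t * v p) (t * v q) (dist p q) := by
    unfold cosA
    rw [hDt]
    field_simp
  rw [← e]
  unfold alp
  apply Real.cos_arccos
  · unfold cosA
    rw [le_div_iff₀ (by positivity)]
    nlinarith
  · unfold cosA
    rw [div_le_iff₀ (by positivity)]
    nlinarith

theorem lnk {v : ℂ → ℝ} (hv : ∀ p, 0 < v p) {t : ℝ} (ht : 0 < t) {p q : ℂ} (hpq : p ≠ q)
    (hc : Cross v t p q) {θ : ℝ} (hθ : θ ∈ Ioc (-Real.pi) Real.pi)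
    (h1 : t * v q < dist (circleMap p (t * v p) θ) q)
    (h2 : t * v p < dist (circleMap q (t * v q) θ) p) {x : ℂ}
    (hx1 : dist x p = t * v p) (hx2 : dist x q = t * v q)
    (hmax : ∀ y, dist y p ≤ t * v p → dist y q ≤ t * v q →
      ip (exp (θ * I)) y ≤ ip (exp (θ * I)) x) :
    ∃ σ ∈ sgn2, cor v t p q σ = x ∧ θ ∈ wedge v t p q σ := by
  have hp : 0 < t * v p := mul_pos ht (hv p)
  have hq : 0 < t * v q := mul_pos ht (hv q)
  have hd' : 0 < dist p q := dist_pos.2 hpq
  have hcs : Cross v t q p := by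
    unfold Cross
    rw [dist_comm q p, abs_sub_comm, add_comm]
    exact hc
  set φ := arg (q - p) with hφ
  set α := alp (v p) (v q) (dist p q / t) with hα
  set α' := alp (v q) (v p) (dist p q / t) with hα'
  have hαm : α ∈ Ioo 0 Real.pi := alp_mem (hv p) (hv q) hc.1 hc.2
  have hα'm : α' ∈ Ioo 0 Real.pi := alp_mem (hv q) (hv p) (by rw [abs_sub_comm]; exact hc.1)
    (by rw [add_comm]; exact hc.2)
  have hcα : Real.cos α = cosA (t * v p) (t * v q) (dist p q) := cos_alp hv ht hc
  have hcα' : Real.cos α' = cosA (t * v q) (t * v p) (dist p q) := by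
    have := cos_alp hv ht hcs
    rwa [dist_comm q p] at this
  -- the angle modulo 2π
  obtain ⟨k, hk⟩ : ∃ k : ℤ, θ - φ + 2 * Real.pi * k ∈ Ioc (-Real.pi) Real.pi := by
    have h2pi : (0 : ℝ) < 2 * Real.pi := by positivity
    have := toIocMod_mem_Ioc h2pi (-Real.pi) (θ - φ)
    refine ⟨-toIocDiv h2pi (-Real.pi) (θ - φ), ?_⟩
    have e := self_sub_toIocDiv_zsmul h2pi (-Real.pi) (θ - φ)
    rw [zsmul_eq_mul] at e
    have e' : θ - φ + 2 * Real.pi * ((-toIocDiv h2pi (-Real.pi) (θ - φ) : ℤ) : ℝ) =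
        toIocMod h2pi (-Real.pi) (θ - φ) := by
      rw [← e]; push_cast; ring
    rw [e']
    have e2 : -Real.pi + 2 * Real.pi = Real.pi := by ring
    rw [e2] at this
    exact this
  set γ := θ - φ + 2 * Real.pi * k with hγ
  have hcos : Real.cos (θ - φ) = Real.cos γ := by
    rw [hγ, mul_comm (2 * Real.pi) (k : ℝ), Real.cos_add_int_mul_two_pi]
  have hsq1 : (t * v q) ^ 2 < dist (circleMap p (t * v p) θ) q ^ 2 :=
    pow_lt_pow_left₀ h1 hq.le two_ne_zero
  have hsq2 : (t * v p) ^ 2 < dist (circleMap q (t * v q) θ) p ^ 2 :=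
    pow_lt_pow_left₀ h2 hp.le two_ne_zero
  rw [dist_sq_circle, ← hφ, hcos] at hsq1
  rw [dist_sq_circle, arg_swap_cos hpq, ← hφ, hcos, dist_comm q p] at hsq2
  have c1 : Real.cos |γ| < Real.cos α := by
    rw [Real.cos_abs, hcα, cosA, lt_div_iff₀ (by positivity)]
    linarith
  have c2 : Real.cos (Real.pi - α') < Real.cos |γ| := by
    rw [Real.cos_abs, Real.cos_pi_sub, hcα', neg_lt, cosA, lt_div_iff₀ (by positivity)]
    linarith
  have habs : |γ| ≤ Real.pi := abs_le.2 ⟨hk.1.le, hk.2⟩
  have g1 : α < |γ| := by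
    by_contra hcon
    push_neg at hcon
    exact absurd (Real.cos_le_cos_of_nonneg_of_le_pi (abs_nonneg γ) hαm.2.le hcon) (not_le.2 c1)
  have g2 : |γ| < Real.pi - α' := by
    by_contra hcon
    push_neg at hcon
    exact absurd (Real.cos_le_cos_of_nonneg_of_le_pi (by linarith [hα'm.2]) habs hcon)
      (not_le.2 c2)
  have hγpos : 0 < |γ| := hαm.1.trans g1
  -- the sign
  obtain ⟨σ, hσ, hσγ, hσk, hσ2⟩ : ∃ σ : ℝ, σ ∈ sgn2 ∧ σ * γ = |γ| ∧ (∃ m : ℤ, σ * k = m) ∧
      σ ^ 2 = 1 := by
    rcases le_or_gt 0 γ with h0 | h0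
    · exact ⟨1, by simp [sgn2], by rw [abs_of_nonneg h0, one_mul], ⟨k, by ring⟩, by norm_num⟩
    · exact ⟨-1, by simp [sgn2], by rw [abs_of_neg h0]; ring, ⟨-k, by push_cast; ring⟩,
        by norm_num⟩
  refine ⟨σ, hσ, ?_, hθ, ?_⟩
  · obtain ⟨σ₀, hσ₀, hx⟩ := cor_unique hv ht hpq hx1 hx2
    by_cases hs : σ₀ = σ
    · rw [← hs]; exact hx
    · exfalso
      have hneg : σ₀ = -σ := by
        simp only [sgn2, Finset.mem_insert, Finset.mem_singleton] at hσ hσ₀
        rcases hσ with rfl | rfl <;> rcases hσ₀ with rfl | rfl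
        · exact absurd rfl hs
        · rfl
        · norm_num
        · exact absurd rfl hs
      obtain ⟨d1, d2⟩ := cor_dist hv ht hc hσ
      have hm := hmax _ d1.le d2.le
      rw [← hx, hneg] at hm
      unfold cor at hm
      rw [ip_circle, ip_circle, ← hφ, ← hα] at hm
      have hm2 : Real.cos (φ + σ * α - θ) ≤ Real.cos (φ + -σ * α - θ) := by
        by_contra hcon
        push_neg at hcon
        have := mul_lt_mul_of_pos_left hcon hp
        linarith
      have e1 : Real.cos (φ + σ * α - θ) = Real.cos (σ * α - γ) := by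
        rw [← Real.cos_add_int_mul_two_pi (σ * α - γ) k]
        congr 1
        rw [hγ]; ring
      have e2 : Real.cos (φ + -σ * α - θ) = Real.cos (-σ * α - γ) := by
        rw [← Real.cos_add_int_mul_two_pi (-σ * α - γ) k]
        congr 1
        rw [hγ]; ring
      rw [e1, e2, Real.cos_sub, Real.cos_sub] at hm2
      have e3 : Real.cos (-σ * α) = Real.cos (σ * α) := by rw [neg_mul, Real.cos_neg]
      have e4 : Real.sin (-σ * α) = -Real.sin (σ * α) := by rw [neg_mul, Real.sin_neg]
      rw [e3, e4] at hm2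
      have hpos : 0 < Real.sin (σ * α) * Real.sin γ := by
        have s1 : 0 < Real.sin α := Real.sin_pos_of_pos_of_lt_pi hαm.1 hαm.2
        have s2 : 0 < Real.sin |γ| :=
          Real.sin_pos_of_pos_of_lt_pi hγpos (by linarith [hα'm.1])
        rw [← hσγ] at s2
        simp only [sgn2, Finset.mem_insert, Finset.mem_singleton] at hσ
        rcases hσ with rfl | rfl
        · rw [one_mul] at s2 ⊢
          exact mul_pos s1 s2
        · rw [neg_one_mul, Real.sin_neg] at s2 ⊢
          nlinarith
      linarith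
  · obtain ⟨m, hm⟩ := hσk
    refine ⟨m, ?_⟩
    rw [← hφ, ← hα, ← hα', ← hm]
    have e : σ * (θ - φ) + 2 * Real.pi * (σ * k) = σ * γ := by rw [hγ]; ring
    rw [e, hσγ]
    exact ⟨g1, g2⟩

/-- the periodic set whose trace is the wedge -/
private def perA (φ a b σ : ℝ) : Set ℝ :=
  {θ | ∃ k : ℤ, σ * (θ - φ) + 2 * Real.pi * k ∈ Ioo a b}

private theorem measurableSet_perA (φ a b σ : ℝ) : MeasurableSet (perA φ a b σ) := by
  have : perA φ a b σ = ⋃ k : ℤ, (fun θ : ℝ => σ * (θ - φ) + 2 * Real.pi * k) ⁻¹' Ioo a b := by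
    ext θ; simp [perA]
  rw [this]
  refine MeasurableSet.iUnion (fun k => ?_)
  refine (isOpen_Ioo.preimage ?_).measurableSet
  fun_prop

private theorem wedge_eq (v : ℂ → ℝ) (t : ℝ) (p q : ℂ) (σ : ℝ) :
    wedge v t p q σ = Ioc (-Real.pi) Real.pi ∩ perA (arg (q - p))
      (alp (v p) (v q) (dist p q / t)) (Real.pi - alp (v q) (v p) (dist p q / t)) σ := rfl

theorem measurableSet_wedge (v : ℂ → ℝ) (t : ℝ) (p q : ℂ) (σ : ℝ) :
    MeasurableSet (wedge v t p q σ) := by
  rw [wedge_eq]
  exact measurableSet_Ioc.inter (measurableSet_perA _ _ _ _)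

private theorem vol_periodic {A : Set ℝ} (hA : MeasurableSet A)
    (hper : ∀ x, x + 2 * Real.pi ∈ A ↔ x ∈ A) (s : ℝ) :
    volume.real (Ioc (-Real.pi) Real.pi ∩ A) = volume.real (Ioc s (s + 2 * Real.pi) ∩ A) := by
  have hpi := Real.pi_pos
  set f : ℝ → ℝ := A.indicator 1 with hf
  have hfp : Function.Periodic f (2 * Real.pi) := by
    intro x
    simp only [hf, indicator]
    by_cases hx : x ∈ A
    · rw [if_pos hx, if_pos ((hper x).2 hx)]; rfl
    · rw [if_neg hx, if_neg (fun h => hx ((hper x).1 h))]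
  have e : ∀ c d : ℝ, c ≤ d → ∫ x in c..d, f x = volume.real (Ioc c d ∩ A) := by
    intro c d hcd
    rw [intervalIntegral.integral_of_le hcd, hf, integral_indicator_one hA,
      measureReal_restrict_apply hA, inter_comm]
  have h1 := hfp.intervalIntegral_add_eq (-Real.pi) s
  rw [e _ _ (by linarith), e _ _ (by linarith)] at h1
  rw [← h1]
  congr 2
  congr 1
  ring

theorem vol_wedge {v : ℂ → ℝ} (hv : ∀ p, 0 < v p) {t : ℝ} (ht : 0 < t) {p q : ℂ} (hpq : p ≠ q)
    (hc : Cross v t p q) {σ : ℝ} (hσ : σ ∈ sgn2) :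
    volume.real (wedge v t p q σ) = psi (v p) (v q) (dist p q / t) := by
  have hpi := Real.pi_pos
  have hαm := alp_mem (hv p) (hv q) hc.1 hc.2
  have hα'm := alp_mem (hv q) (hv p) (d := dist p q / t) (by rw [abs_sub_comm]; exact hc.1)
    (by rw [add_comm]; exact hc.2)
  have hψm := psi_mem (hv p) (hv q) hc.1 hc.2
  have hadd := alp_add (hv p) (hv q) hc.1 hc.2
  rw [wedge_eq]
  set φ := arg (q - p) with hφ
  set α := alp (v p) (v q) (dist p q / t) with hα
  set α' := alp (v q) (v p) (dist p q / t) with hα'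
  set ψ := psi (v p) (v q) (dist p q / t) with hψ
  have hper : ∀ x, x + 2 * Real.pi ∈ perA φ α (Real.pi - α') σ ↔
      x ∈ perA φ α (Real.pi - α') σ := by
    intro x
    simp only [sgn2, Finset.mem_insert, Finset.mem_singleton] at hσ
    simp only [perA, mem_setOf_eq]
    constructor
    · rintro ⟨k, hk⟩
      rcases hσ with rfl | rfl
      · refine ⟨k + 1, ?_⟩
        convert hk using 1; push_cast; ring
      · refine ⟨k - 1, ?_⟩
        convert hk using 1; push_cast; ring
    · rintro ⟨k, hk⟩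
      rcases hσ with rfl | rfl
      · refine ⟨k - 1, ?_⟩
        convert hk using 1; push_cast; ring
      · refine ⟨k + 1, ?_⟩
        convert hk using 1; push_cast; ring
  simp only [sgn2, Finset.mem_insert, Finset.mem_singleton] at hσ
  rcases hσ with rfl | rfl
  · rw [vol_periodic (measurableSet_perA _ _ _ _) hper φ]
    have e : Ioc φ (φ + 2 * Real.pi) ∩ perA φ α (Real.pi - α') 1 =
        Ioo (φ + α) (φ + (Real.pi - α')) := by
      ext x
      simp only [perA, mem_inter_iff, mem_Ioc, mem_setOf_eq, mem_Ioo, one_mul]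
      constructor
      · rintro ⟨⟨a1, a2⟩, k, a3, a4⟩
        have hk0 : k = 0 := by
          by_contra hne
          rcases lt_or_gt_of_ne hne with hlt | hgt
          · have : (k : ℝ) ≤ -1 := by exact_mod_cast Int.le_sub_one_of_lt hlt
            nlinarith [hαm.1]
          · have : (1 : ℝ) ≤ k := by exact_mod_cast hgt
            nlinarith [hα'm.1]
        subst hk0
        simp only [Int.cast_zero, mul_zero, add_zero] at a3 a4
        constructor <;> linarith
      · rintro ⟨a1, a2⟩
        refine ⟨⟨by linarith [hαm.1], by linarith [hα'm.1]⟩, 0, ?_, ?_⟩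
        · simp only [Int.cast_zero, mul_zero, add_zero]; linarith
        · simp only [Int.cast_zero, mul_zero, add_zero]; linarith
    rw [e, measureReal_def, Real.volume_Ioo, ENNReal.toReal_ofReal (by linarith [hψm.1])]
    linarith
  · rw [vol_periodic (measurableSet_perA _ _ _ _) hper (φ - 2 * Real.pi)]
    have e : Ioc (φ - 2 * Real.pi) (φ - 2 * Real.pi + 2 * Real.pi) ∩
        perA φ α (Real.pi - α') (-1) = Ioo (φ - (Real.pi - α')) (φ - α) := by
      ext x
      simp only [perA, mem_inter_iff, mem_Ioc, mem_setOf_eq, mem_Ioo, neg_one_mul]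
      constructor
      · rintro ⟨⟨a1, a2⟩, k, a3, a4⟩
        have hk0 : k = 0 := by
          by_contra hne
          rcases lt_or_gt_of_ne hne with hlt | hgt
          · have : (k : ℝ) ≤ -1 := by exact_mod_cast Int.le_sub_one_of_lt hlt
            nlinarith [hαm.1]
          · have : (1 : ℝ) ≤ k := by exact_mod_cast hgt
            nlinarith [hα'm.1]
        subst hk0
        simp only [Int.cast_zero, mul_zero, add_zero] at a3 a4
        constructor <;> linarith
      · rintro ⟨a1, a2⟩
        refine ⟨⟨by linarith [hα'm.1], by linarith [hαm.1]⟩, 0, ?_, ?_⟩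
        · simp only [Int.cast_zero, mul_zero, add_zero]; linarith
        · simp only [Int.cast_zero, mul_zero, add_zero]; linarith
    rw [e, measureReal_def, Real.volume_Ioo, ENNReal.toReal_ofReal (by linarith [hψm.1])]
    linarith

end Pool.Agent.FKM
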