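import Mathlib
import Pool.Agent.Helper13.FKM.CntI
import Pool.Agent.Helper13.FKM.CntO
import Pool.Agent.Helper13.FKM.Lnk
import Pool.Agent.Helper13.FKM.AuxC
import Pool.Agent.Helper13.FKM.Cont
import Pool.Agent.Helper13.FKM.CorG
import Pool.Agent.Helper13.FKM.Trig

/-!
FKM-22: the turning inequality.

Plan. Choose R with D ⊆ ball 0 R and (K ⊆ ball 0 R, or Kᶜ ⊆ ball 0 R). Q from aux_cover. N = P.image (p, t v p) ∪ Q.
For a.e. θ ∈ (-π, π] GenDir N θ holds (finite_circ) and, in the outer case, h3 of cnt_outer (finite_inter: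
finitely many crossing points, two of them have equal heights for two directions only).
Island: cl N = K ∪ Ut is connected (each closed disc p contains p ∈ K). Outer: cl N ∪ {R ≤ ‖z‖} = K ∪ Ut.
For p ∈ P with θ ∈ Et D P v t p: (p, t v p) ∈ tops (the top is in D so in no disc of Q).
For (b, b') ∈ mrg with point x (‖x‖ < R in the outer case): x is in no open ball of N, so x ∉ K (K ∩ closedBall 0 R is
covered by the open balls; in the island case K ⊆ ball 0 R, x in a disc of N so x ∈ K ∪ Ut fine), hence b, b'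
are front discs (discs of Q are inside K), x ∈ K ∪ D so x ∈ D; Gen gives Cross and strict inequality for the
other l ∈ P. By lnk there is σ with cEx D P v t p q σ and θ ∈ wedge v t p q σ. So for a.e. θ
2 #{p | θ ∈ Et p} ≤ 2 X + #{(p,q,σ) | cEx .. ∧ θ ∈ wedge ..}. Integrate over θ (vol_wedge, measurability).
Outer: h2 holds since x ∉ K for such x, so only front discs pass through x, and Gen. P empty: island trivial;
outer impossible (frontier K ≠ ∅).
-/

set_option autoImplicit false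

open Complex MeasureTheory Set Metric Filter
open scoped ComplexConjugate Topology

namespace Pool.Agent.FKM

theorem turn_genDir_countable {N : Finset (ℂ × ℝ)} (hpos : ∀ b ∈ N, 0 < b.2) :
    {θ : ℝ | θ ∈ Ioc (-Real.pi) Real.pi ∧ ¬ GenDir N θ}.Countable := by
  have hsub : {θ : ℝ | θ ∈ Ioc (-Real.pi) Real.pi ∧ ¬ GenDir N θ} ⊆
      ⋃ b ∈ (N : Set (ℂ × ℝ)), ⋃ b' ∈ (N : Set (ℂ × ℝ)),
        {θ : ℝ | b ≠ b' ∧ θ ∈ Ioc (-Real.pi) Real.pi ∧ dist (circleMap b.1 b.2 θ) b'.1 = b'.2} := by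
    rintro θ ⟨h1, h2⟩
    unfold GenDir top1 at h2
    push Not at h2
    obtain ⟨b, hb, b', hb', hne, he⟩ := h2
    simp only [mem_iUnion]
    exact ⟨b, hb, b', hb', hne, h1, he⟩
  refine Set.Countable.mono hsub ?_
  refine Set.Countable.biUnion (Finset.countable_toSet N) fun b hb => ?_
  refine Set.Countable.biUnion (Finset.countable_toSet N) fun b' hb' => ?_
  by_cases h : b = b'
  · have : {θ : ℝ | b ≠ b' ∧ θ ∈ Ioc (-Real.pi) Real.pi ∧
        dist (circleMap b.1 b.2 θ) b'.1 = b'.2} = ∅ := by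
      ext θ; simp [h]
    rw [this]; exact Set.countable_empty
  · refine Set.Countable.mono ?_ (finite_circ (hpos b hb) (hpos b' hb') (by
      intro h'; exact h h')).countable
    rintro θ ⟨_, h1, h2⟩
    exact ⟨h1, h2⟩

theorem turn_ip_countable {x y : ℂ} (h : x ≠ y) :
    {θ : ℝ | ip (exp (θ * I)) x = ip (exp (θ * I)) y}.Countable := by
  have hw : x - y ≠ 0 := sub_ne_zero.mpr h
  refine Set.Countable.mono ?_
    (Set.countable_range (fun k : ℤ => arg (x - y) - (2 * (k : ℝ) + 1) * Real.pi / 2))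
  intro θ hθ
  have h1 : ip (exp (θ * I)) x = ip (exp (θ * I)) y := hθ
  have h2 : (conj (exp (θ * I)) * (x - y)).re = 0 := by
    unfold ip at h1
    rw [mul_sub, Complex.sub_re, h1, sub_self]
  have h3 : conj (exp (θ * I)) * (x - y) = (‖x - y‖ : ℂ) * exp (((arg (x - y) - θ : ℝ) : ℂ) * I) := by
    have h4 : conj (exp (θ * I)) = exp (-(θ * I)) := by
      rw [← Complex.exp_conj]
      simp
    conv_lhs => rw [h4, ← Complex.norm_mul_exp_arg_mul_I (x - y)]
    have h5 : exp (((arg (x - y) - θ : ℝ) : ℂ) * I) =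
        exp (-(θ * I)) * exp ((arg (x - y) : ℂ) * I) := by
      rw [← Complex.exp_add]; congr 1; push_cast; ring
    rw [h5]; ring
  rw [h3, Complex.re_ofReal_mul, Complex.exp_ofReal_mul_I_re] at h2
  rcases mul_eq_zero.mp h2 with h6 | h6
  · exact absurd (norm_eq_zero.mp h6) hw
  · obtain ⟨k, hk⟩ := Real.cos_eq_zero_iff.mp h6
    exact ⟨k, by simp only; linarith⟩

theorem turn_h3_countable {N : Finset (ℂ × ℝ)} (hpos : ∀ b ∈ N, 0 < b.2) :
    {θ : ℝ | ¬ ∀ x y : ℂ, x ≠ y →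
      (∃ b ∈ N, ∃ b' ∈ N, b ≠ b' ∧ dist x b.1 = b.2 ∧ dist x b'.1 = b'.2) →
      (∃ b ∈ N, ∃ b' ∈ N, b ≠ b' ∧ dist y b.1 = b.2 ∧ dist y b'.1 = b'.2) →
      ip (exp (θ * I)) x ≠ ip (exp (θ * I)) y}.Countable := by
  set C : Set ℂ := {x | ∃ b ∈ N, ∃ b' ∈ N, b ≠ b' ∧ dist x b.1 = b.2 ∧ dist x b'.1 = b'.2} with hC
  have hCfin : C.Finite := by
    have hsub : C ⊆ ⋃ b ∈ (N : Set (ℂ × ℝ)), ⋃ b' ∈ (N : Set (ℂ × ℝ)),
        {x : ℂ | b ≠ b' ∧ dist x b.1 = b.2 ∧ dist x b'.1 = b'.2} := by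
      rintro x ⟨b, hb, b', hb', h⟩
      simp only [mem_iUnion]
      exact ⟨b, hb, b', hb', h⟩
    refine Set.Finite.subset ?_ hsub
    refine Set.Finite.biUnion (Finset.finite_toSet N) fun b hb => ?_
    refine Set.Finite.biUnion (Finset.finite_toSet N) fun b' hb' => ?_
    by_cases h : b = b'
    · have : {x : ℂ | b ≠ b' ∧ dist x b.1 = b.2 ∧ dist x b'.1 = b'.2} = ∅ := by
        ext θ; simp [h]
      rw [this]; exact Set.finite_empty
    · refine Set.Finite.subset (finite_inter (hpos b hb) (hpos b' hb') h) ?_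
      rintro x ⟨_, h1, h2⟩
      exact ⟨h1, h2⟩
  have hsub : {θ : ℝ | ¬ ∀ x y : ℂ, x ≠ y →
      (∃ b ∈ N, ∃ b' ∈ N, b ≠ b' ∧ dist x b.1 = b.2 ∧ dist x b'.1 = b'.2) →
      (∃ b ∈ N, ∃ b' ∈ N, b ≠ b' ∧ dist y b.1 = b.2 ∧ dist y b'.1 = b'.2) →
      ip (exp (θ * I)) x ≠ ip (exp (θ * I)) y} ⊆
      ⋃ x ∈ C, ⋃ y ∈ C, {θ : ℝ | x ≠ y ∧ ip (exp (θ * I)) x = ip (exp (θ * I)) y} := by
    intro θ hθ
    simp only [mem_ofPred_eq] at hθ
    push Not at hθ
    obtain ⟨x, y, hxy, hx, hy, he⟩ := hθ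
    simp only [mem_iUnion]
    exact ⟨x, hx, y, hy, hxy, he⟩
  refine Set.Countable.mono hsub ?_
  refine Set.Countable.biUnion hCfin.countable fun x hx => ?_
  refine Set.Countable.biUnion hCfin.countable fun y hy => ?_
  by_cases h : x = y
  · have : {θ : ℝ | x ≠ y ∧ ip (exp (θ * I)) x = ip (exp (θ * I)) y} = ∅ := by
      ext θ; simp [h]
    rw [this]; exact Set.countable_empty
  · refine Set.Countable.mono ?_ (turn_ip_countable h)
    rintro θ ⟨_, h1⟩
    exact h1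

open scoped Classical in
theorem turn_not_K {D K K2 : Set ℂ} {P : Finset ℂ} {v : ℂ → ℝ} {t : ℝ}
    (hf : Front D K K2 P v t t) {R : ℝ} {Q : Finset (ℂ × ℝ)}
    (hcov : K ∩ closedBall 0 R ⊆ (⋃ p ∈ P, ball p (t * v p)) ∪ ⋃ b ∈ Q, ball b.1 b.2)
    {x : ℂ} (hx : x ∈ closedBall (0 : ℂ) R)
    (hl : ∀ l ∈ P.image (fun p => (p, t * v p)) ∪ Q, l.2 ≤ dist x l.1) : x ∉ K := by
  intro hK
  rcases hcov ⟨hK, hx⟩ with h | h
  · simp only [mem_iUnion] at h
    obtain ⟨p, hp, hxp⟩ := h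
    have := hl (p, t * v p) (Finset.mem_union_left _ (Finset.mem_image_of_mem _ hp))
    have h2 := mem_ball.mp hxp
    simp only at this
    linarith
  · simp only [mem_iUnion] at h
    obtain ⟨b, hb, hxb⟩ := h
    have := hl b (Finset.mem_union_right _ hb)
    have h2 := mem_ball.mp hxb
    linarith

open scoped Classical in
theorem turn_front_disc {D K K2 : Set ℂ} {P : Finset ℂ} {v : ℂ → ℝ} {t : ℝ}
    {Q : Finset (ℂ × ℝ)}
    (hQ : ∀ b ∈ Q, 0 < b.2 ∧ closedBall b.1 b.2 ⊆ interior K)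
    {x : ℂ} (hx : x ∉ K) {b : ℂ × ℝ}
    (hb : b ∈ P.image (fun p => (p, t * v p)) ∪ Q) (hxb : dist x b.1 = b.2) :
    ∃ p ∈ P, b = (p, t * v p) := by
  rcases Finset.mem_union.mp hb with h | h
  · obtain ⟨p, hp, rfl⟩ := Finset.mem_image.mp h
    exact ⟨p, hp, rfl⟩
  · exact absurd (interior_subset ((hQ b h).2 (mem_closedBall.mpr hxb.le))) hx

theorem turn_cross {P : Finset ℂ} {v : ℂ → ℝ} {t : ℝ} (ht : 0 < t) (hg : Gen P v t) {p q x : ℂ}
    (hp : p ∈ P) (hq : q ∈ P) (hpq : p ≠ q) (h1 : dist x p = t * v p) (h2 : dist x q = t * v q) :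
    Cross v t p q := by
  obtain ⟨h3, h4⟩ := hg.1 p hp q hq hpq
  have h5 : dist p q ≤ t * (v p + v q) := by
    have := dist_triangle_left p q x
    rw [h1, h2] at this
    linarith
  have h6 : t * |v p - v q| ≤ dist p q := by
    have := abs_dist_sub_le p q x
    rw [dist_comm p x, dist_comm q x, h1, h2, ← mul_sub, abs_mul, abs_of_pos ht] at this
    exact this
  constructor
  · rw [lt_div_iff₀ ht, mul_comm]
    exact lt_of_le_of_ne h6 (Ne.symm h4)
  · rw [div_lt_iff₀ ht, mul_comm]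
    exact lt_of_le_of_ne h5 h3

open scoped Classical in
theorem turn_count {D K K2 : Set ℂ} {P : Finset ℂ} {v : ℂ → ℝ} {t : ℝ}
    (hf : Front D K K2 P v t t) (hg : Gen P v t) {R : ℝ} {Q : Finset (ℂ × ℝ)}
    (hQ : ∀ b ∈ Q, 0 < b.2 ∧ closedBall b.1 b.2 ⊆ interior K)
    (hcov : K ∩ closedBall 0 R ⊆ (⋃ p ∈ P, ball p (t * v p)) ∪ ⋃ b ∈ Q, ball b.1 b.2)
    {O : ℂ → Prop} (hO : ∀ z ∈ D, O z) (hO2 : ∀ z, O z → z ∈ K → z ∈ closedBall (0 : ℂ) R)
    {θ : ℝ} (hθ : θ ∈ Ioc (-Real.pi) Real.pi) :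
    (∑ p ∈ P, (Et D P v t p).indicator (1 : ℝ → ℝ) θ) ≤
        ((tops (P.image (fun p => (p, t * v p)) ∪ Q) O θ).card : ℝ) ∧
    ((mrg (P.image (fun p => (p, t * v p)) ∪ Q) O θ).card : ℝ) ≤
      ∑ p ∈ P, ∑ q ∈ P.erase p, ∑ σ ∈ sgn2,
        if cEx D P v t p q σ then (wedge v t p q σ).indicator (1 : ℝ → ℝ) θ else 0 := by
  have hDK : ∀ z ∈ D, z ∉ K := fun z hz hK => by
    have : z ∈ Dᶜ := by rw [← hf.part.union]; exact Or.inl hK
    exact this hz
  constructor
  · have h1 : (∑ p ∈ P, (Et D P v t p).indicator (1 : ℝ → ℝ) θ) =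
        ((P.filter (fun p => θ ∈ Et D P v t p)).card : ℝ) := by
      rw [← Finset.sum_boole]
      refine Finset.sum_congr rfl fun p _ => ?_
      simp [Set.indicator_apply]
    rw [h1]
    norm_cast
    refine Finset.card_le_card_of_injOn (fun p => (p, t * v p)) ?_ ?_
    · intro p hp
      obtain ⟨hp1, hp2⟩ := Finset.mem_filter.mp (Finset.mem_coe.mp hp)
      refine Finset.mem_coe.mpr (Finset.mem_filter.mpr ⟨Finset.mem_union_left _
        (Finset.mem_image_of_mem _ hp1), ?_, ?_⟩)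
      · exact hO _ hp2.2.1
      · intro b' hb' hne
        rcases Finset.mem_union.mp hb' with h | h
        · obtain ⟨q, hq, rfl⟩ := Finset.mem_image.mp h
          have hqp : q ≠ p := by rintro rfl; exact hne rfl
          exact hp2.2.2 q hq hqp
        · by_contra hcon
          push Not at hcon
          exact hDK _ hp2.2.1 (interior_subset ((hQ b' h).2 (mem_closedBall.mpr hcon)))
    · intro p _ q _ h
      exact (Prod.mk.inj h).1
  · have h2 : (∑ p ∈ P, ∑ q ∈ P.erase p, ∑ σ ∈ sgn2,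
        if cEx D P v t p q σ then (wedge v t p q σ).indicator (1 : ℝ → ℝ) θ else 0) =
        ((((P ×ˢ P) ×ˢ sgn2).filter (fun c => c.1.1 ≠ c.1.2 ∧ cEx D P v t c.1.1 c.1.2 c.2 ∧
          θ ∈ wedge v t c.1.1 c.1.2 c.2)).card : ℝ) := by
      rw [← Finset.sum_boole, Finset.sum_product, Finset.sum_product]
      refine Finset.sum_congr rfl fun p _ => ?_
      rw [← Finset.sum_erase P (a := p)
        (f := fun q => ∑ σ ∈ sgn2, if (p ≠ q ∧ cEx D P v t p q σ ∧ θ ∈ wedge v t p q σ)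
          then (1 : ℝ) else 0) (by simp)]
      refine Finset.sum_congr rfl fun q hq => ?_
      have hqp : p ≠ q := (Finset.ne_of_mem_erase hq).symm
      refine Finset.sum_congr rfl fun σ _ => ?_
      by_cases h3 : cEx D P v t p q σ
      · simp [h3, hqp, Set.indicator_apply]
      · simp [h3]
    rw [h2]
    norm_cast
    have h4 : mrg (P.image (fun p => (p, t * v p)) ∪ Q) O θ ⊆
        (((P ×ˢ P) ×ˢ sgn2).filter (fun c => c.1.1 ≠ c.1.2 ∧ cEx D P v t c.1.1 c.1.2 c.2 ∧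
          θ ∈ wedge v t c.1.1 c.1.2 c.2)).image
          (fun c => (((c.1.1, t * v c.1.1) : ℂ × ℝ), ((c.1.2, t * v c.1.2) : ℂ × ℝ))) := by
      rintro ⟨b, b'⟩ hb
      obtain ⟨hbN, hne, x, hx⟩ := Finset.mem_filter.mp hb
      obtain ⟨hbN1, hbN2⟩ := Finset.mem_product.mp hbN
      simp only at hne hx hbN1 hbN2
      obtain ⟨k1, k2, k3, k4, k5, k6, k7⟩ := hx
      have hxK : x ∉ K := by
        intro hK
        exact turn_not_K hf hcov (hO2 x k6 hK) k7 hK
      obtain ⟨p, hp, rfl⟩ := turn_front_disc (D := D) (K2 := K2) hQ hxK hbN1 k3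
      obtain ⟨q, hq, rfl⟩ := turn_front_disc (D := D) (K2 := K2) hQ hxK hbN2 k4
      simp only at k1 k2 k3 k4 k5
      have hpq : p ≠ q := by rintro rfl; exact hne rfl
      have hcr : Cross v t p q := turn_cross hf.t0pos hg hp hq hpq k3 k4
      obtain ⟨σ, hσ, hcor, hw⟩ := lnk hf.vpos hf.t0pos hpq hcr hθ k1 k2 k3 k4 k5
      have hxD : x ∈ D := by
        rcases hf.free p hp (mem_closedBall.mpr k3.le) with h | h
        · exact absurd h hxK
        · exact h
      refine Finset.mem_image.mpr ⟨((p, q), σ), Finset.mem_filter.mpr ⟨?_, hpq, ⟨hcr, ?_, ?_⟩, hw⟩, rfl⟩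
      · exact Finset.mem_product.mpr ⟨Finset.mem_product.mpr ⟨hp, hq⟩, hσ⟩
      · rw [hcor]; exact hxD
      · intro l hl hlp hlq
        rw [hcor]
        have h5 := k7 (l, t * v l) (Finset.mem_union_left _ (Finset.mem_image_of_mem _ hl))
        simp only at h5
        refine lt_of_le_of_ne h5 ?_
        intro h6
        exact hg.2 p hp q hq l hl hpq (Ne.symm hlq) (Ne.symm hlp) x ⟨k3, k4, h6.symm⟩
    exact (Finset.card_le_card h4).trans Finset.card_image_le

theorem turn_conn {D K K2 : Set ℂ} {P : Finset ℂ} {v : ℂ → ℝ} {t : ℝ}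
    (hf : Front D K K2 P v t t) (hK : IsConnected K) : IsPreconnected (K ∪ Ut P v t) := by
  obtain ⟨z0, hz0⟩ := hK.nonempty
  refine isPreconnected_of_forall z0 ?_
  rintro y (hy | hy)
  · exact ⟨K, subset_union_left, hz0, hy, hK.isPreconnected⟩
  · simp only [Ut, mem_iUnion] at hy
    obtain ⟨p, hp, hyp⟩ := hy
    refine ⟨K ∪ closedBall p (t * v p), ?_, Or.inl hz0, Or.inr hyp, ?_⟩
    · refine union_subset_union_right K ?_
      intro z hz
      simp only [Ut, mem_iUnion]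
      exact ⟨p, hp, hz⟩
    · refine IsPreconnected.union p (hf.sub p hp) ?_ hK.isPreconnected ?_
      · exact mem_closedBall_self (mul_pos hf.t0pos (hf.vpos p)).le
      · exact (convex_closedBall p _).isPreconnected

open scoped Classical in
theorem turn_cl {D K K2 : Set ℂ} {P : Finset ℂ} {v : ℂ → ℝ} {t : ℝ}
    {Q : Finset (ℂ × ℝ)}
    (hQ : ∀ b ∈ Q, 0 < b.2 ∧ closedBall b.1 b.2 ⊆ interior K) :
    cl (P.image (fun p => (p, t * v p)) ∪ Q) ⊆ K ∪ Ut P v t ∧
    Ut P v t ⊆ cl (P.image (fun p => (p, t * v p)) ∪ Q) := by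
  constructor
  · intro z hz
    simp only [cl, mem_iUnion] at hz
    obtain ⟨b, hb, hzb⟩ := hz
    rcases Finset.mem_union.mp hb with h | h
    · obtain ⟨p, hp, rfl⟩ := Finset.mem_image.mp h
      right
      simp only [Ut, mem_iUnion]
      exact ⟨p, hp, hzb⟩
    · left
      exact interior_subset ((hQ b h).2 hzb)
  · intro z hz
    simp only [Ut, mem_iUnion] at hz
    obtain ⟨p, hp, hzp⟩ := hz
    simp only [cl, mem_iUnion]
    exact ⟨(p, t * v p), Finset.mem_union_left _ (Finset.mem_image_of_mem _ hp), hzp⟩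

open scoped Classical in
theorem turn_cov_cl {K : Set ℂ} {P : Finset ℂ} {v : ℂ → ℝ} {t R : ℝ}
    {Q : Finset (ℂ × ℝ)}
    (hcov : K ∩ closedBall 0 R ⊆ (⋃ p ∈ P, ball p (t * v p)) ∪ ⋃ b ∈ Q, ball b.1 b.2)
    {z : ℂ} (hz : z ∈ K) (hzR : z ∈ closedBall (0 : ℂ) R) :
    ∃ b ∈ P.image (fun p => (p, t * v p)) ∪ Q, dist z b.1 < b.2 := by
  rcases hcov ⟨hz, hzR⟩ with h | h
  · simp only [mem_iUnion] at h
    obtain ⟨p, hp, hxp⟩ := h
    exact ⟨(p, t * v p), Finset.mem_union_left _ (Finset.mem_image_of_mem _ hp), mem_ball.mp hxp⟩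
  · simp only [mem_iUnion] at h
    obtain ⟨b, hb, hxb⟩ := h
    exact ⟨b, Finset.mem_union_right _ hb, mem_ball.mp hxb⟩

theorem mem_cl_of_lt {N : Finset (ℂ × ℝ)} {z : ℂ} (h : ∃ b ∈ N, dist z b.1 < b.2) : z ∈ cl N := by
  obtain ⟨b, hb, h⟩ := h
  simp only [cl, mem_iUnion]
  exact ⟨b, hb, mem_closedBall.mpr h.le⟩

open scoped Classical in
theorem turn_ae {D K K2 : Set ℂ} {P : Finset ℂ} {v : ℂ → ℝ} {t : ℝ}
    (hf : Front D K K2 P v t t) (hK : IsConnected K) (hg : Gen P v t) {X : ℝ}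
    (hX : (Bornology.IsBounded K ∧ X = 1) ∨
      (Bornology.IsBounded Kᶜ ∧ (D \ Ut P v t).Nonempty ∧ X = -1)) :
    ∃ B : Set ℝ, B.Countable ∧ ∀ θ ∈ Ioc (-Real.pi) Real.pi, θ ∉ B →
      2 * (∑ p ∈ P, (Et D P v t p).indicator (1 : ℝ → ℝ) θ) ≤ 2 * X +
        ∑ p ∈ P, ∑ q ∈ P.erase p, ∑ σ ∈ sgn2,
        if cEx D P v t p q σ then (wedge v t p q σ).indicator (1 : ℝ → ℝ) θ else 0 := by
  have hDK : ∀ z ∈ D, z ∉ K := fun z hz hK => by
    have : z ∈ Dᶜ := by rw [← hf.part.union]; exact Or.inl hK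
    exact this hz
  rcases hX with ⟨hb, rfl⟩ | ⟨hb, hne, rfl⟩
  · -- island
    obtain ⟨R, hR⟩ := hb.subset_closedBall (0 : ℂ)
    obtain ⟨Q, hQ, hcov⟩ := aux_cover hf R
    set N := P.image (fun p => (p, t * v p)) ∪ Q with hN
    have hpos : ∀ b ∈ N, 0 < b.2 := by
      intro b hb
      rcases Finset.mem_union.mp hb with h | h
      · obtain ⟨p, hp, rfl⟩ := Finset.mem_image.mp h
        exact mul_pos hf.t0pos (hf.vpos p)
      · exact (hQ b h).1
    refine ⟨_, turn_genDir_countable hpos, fun θ hθ hθB => ?_⟩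
    have hgd : GenDir N θ := by
      by_contra hcon
      exact hθB ⟨hθ, hcon⟩
    have hcl : cl N = K ∪ Ut P v t := by
      refine Subset.antisymm (turn_cl (D := D) (K2 := K2) hQ).1 ?_
      refine union_subset ?_ (turn_cl (D := D) (K2 := K2) hQ).2
      intro z hz
      exact mem_cl_of_lt (turn_cov_cl hcov hz (hR hz))
    have hcnt := cnt_island hpos (by rw [hcl]; exact turn_conn hf hK) hgd
    obtain ⟨c1, c2⟩ := turn_count hf hg hQ hcov (O := fun _ => True) (fun _ _ => trivial)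
      (fun z _ hz => hR hz) hθ
    have hcnt' : 2 * ((tops N (fun _ => True) θ).card : ℝ) ≤ 2 + ((mrg N (fun _ => True) θ).card : ℝ) := by
      exact_mod_cast hcnt
    linarith
  · -- outer
    obtain ⟨R', hR'⟩ := hb.subset_ball (0 : ℂ)
    set R := max R' 1 with hRdef
    have hR : Kᶜ ⊆ ball (0 : ℂ) R := hR'.trans (ball_subset_ball (le_max_left _ _))
    have hRpos : 0 < R := lt_of_lt_of_le one_pos (le_max_right _ _)
    have hR2 : ∀ z : ℂ, R ≤ ‖z‖ → z ∈ K := by
      intro z hz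
      by_contra hcon
      have := hR hcon
      rw [mem_ball_zero_iff] at this
      linarith
    have hR3 : ∀ z ∈ D, ‖z‖ < R := by
      intro z hz
      exact mem_ball_zero_iff.mp (hR (hDK z hz))
    obtain ⟨Q, hQ, hcov⟩ := aux_cover hf R
    set N := P.image (fun p => (p, t * v p)) ∪ Q with hN
    have hpos : ∀ b ∈ N, 0 < b.2 := by
      intro b hb
      rcases Finset.mem_union.mp hb with h | h
      · obtain ⟨p, hp, rfl⟩ := Finset.mem_image.mp h
        exact mul_pos hf.t0pos (hf.vpos p)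
      · exact (hQ b h).1
    refine ⟨_, (turn_genDir_countable hpos).union (turn_h3_countable hpos), fun θ hθ hθB => ?_⟩
    have hgd : GenDir N θ := by
      by_contra hcon
      exact hθB (Or.inl ⟨hθ, hcon⟩)
    have h3 : ∀ x y : ℂ, x ≠ y →
      (∃ b ∈ N, ∃ b' ∈ N, b ≠ b' ∧ dist x b.1 = b.2 ∧ dist x b'.1 = b'.2) →
      (∃ b ∈ N, ∃ b' ∈ N, b ≠ b' ∧ dist y b.1 = b.2 ∧ dist y b'.1 = b'.2) →
      ip (exp (θ * I)) x ≠ ip (exp (θ * I)) y := by
      by_contra hcon
      exact hθB (Or.inr hcon)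
    have hcl : cl N ∪ {z | R ≤ ‖z‖} = K ∪ Ut P v t := by
      refine Subset.antisymm ?_ ?_
      · refine union_subset (turn_cl (D := D) (K2 := K2) hQ).1 ?_
        intro z hz
        exact Or.inl (hR2 z hz)
      · refine union_subset ?_ ((turn_cl (D := D) (K2 := K2) hQ).2.trans subset_union_left)
        intro z hz
        by_cases h : R ≤ ‖z‖
        · exact Or.inr h
        · left
          push Not at h
          exact mem_cl_of_lt (turn_cov_cl hcov hz (by rw [mem_closedBall_zero_iff]; exact h.le))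
    have hZ : ∀ z : ℂ, ‖z‖ = R → ∃ b ∈ N, dist z b.1 < b.2 := by
      intro z hz
      exact turn_cov_cl hcov (hR2 z hz.ge) (by rw [mem_closedBall_zero_iff]; exact hz.le)
    have hne' : ∃ z : ℂ, ‖z‖ < R ∧ z ∉ cl N := by
      obtain ⟨z, hz1, hz2⟩ := hne
      refine ⟨z, hR3 z hz1, fun hz => ?_⟩
      rcases (turn_cl (D := D) (K2 := K2) hQ).1 hz with h | h
      · exact hDK z hz1 h
      · exact hz2 h
    have h2 : ∀ x : ℂ, ‖x‖ < R → (∀ l ∈ N, l.2 ≤ dist x l.1) →
      (∀ b ∈ N, ∀ b' ∈ N, b ≠ b' → dist x b.1 = b.2 → dist x b'.1 = b'.2 →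
        |b.2 - b'.2| < dist b.1 b'.1 ∧ dist b.1 b'.1 < b.2 + b'.2) ∧
      (∀ b ∈ N, ∀ b' ∈ N, ∀ l ∈ N, b ≠ b' → b' ≠ l → b ≠ l →
        ¬ (dist x b.1 = b.2 ∧ dist x b'.1 = b'.2 ∧ dist x l.1 = l.2)) := by
      intro x hx hl
      have hxK : x ∉ K := turn_not_K hf hcov (by rw [mem_closedBall_zero_iff]; exact hx.le) hl
      constructor
      · intro b hb b' hb' hbb k3 k4
        obtain ⟨p, hp, rfl⟩ := turn_front_disc (D := D) (K2 := K2) hQ hxK hb k3
        obtain ⟨q, hq, rfl⟩ := turn_front_disc (D := D) (K2 := K2) hQ hxK hb' k4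
        have hpq : p ≠ q := by rintro rfl; exact hbb rfl
        obtain ⟨c1, c2⟩ := turn_cross hf.t0pos hg hp hq hpq k3 k4
        simp only
        rw [lt_div_iff₀ hf.t0pos] at c1
        rw [div_lt_iff₀ hf.t0pos] at c2
        constructor
        · rw [← mul_sub, abs_mul, abs_of_pos hf.t0pos, mul_comm]; exact c1
        · rw [← mul_add, mul_comm]; exact c2
      · rintro b hb b' hb' l hl' hbb hbl hbl' ⟨k3, k4, k5⟩
        obtain ⟨p, hp, rfl⟩ := turn_front_disc (D := D) (K2 := K2) hQ hxK hb k3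
        obtain ⟨q, hq, rfl⟩ := turn_front_disc (D := D) (K2 := K2) hQ hxK hb' k4
        obtain ⟨s, hs, rfl⟩ := turn_front_disc (D := D) (K2 := K2) hQ hxK hl' k5
        refine hg.2 p hp q hq s hs ?_ ?_ ?_ x ⟨k3, k4, k5⟩
        · rintro rfl; exact hbb rfl
        · rintro rfl; exact hbl rfl
        · rintro rfl; exact hbl' rfl
    have hcnt := cnt_outer hRpos hpos (by rw [hcl]; exact turn_conn hf hK) hZ hne' hgd h2 h3
    obtain ⟨c1, c2⟩ := turn_count hf hg hQ hcov (O := fun z => ‖z‖ < R) hR3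
      (fun z hz _ => by rw [mem_closedBall_zero_iff]; exact le_of_lt hz) hθ
    have hcnt' : 2 * ((tops N (fun z => ‖z‖ < R) θ).card : ℝ) + 2 ≤
        ((mrg N (fun z => ‖z‖ < R) θ).card : ℝ) := by
      exact_mod_cast hcnt
    linarith

theorem turn_int {S : Set ℝ} (hS : MeasurableSet S) (hS2 : S ⊆ Ioc (-Real.pi) Real.pi) :
    ∫ θ in Ioc (-Real.pi) Real.pi, S.indicator (1 : ℝ → ℝ) θ = volume.real S := by
  rw [integral_indicator_one hS, Measure.real, Measure.restrict_apply hS,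
    Set.inter_eq_left.mpr hS2]
  rfl

theorem turn_integrable {S : Set ℝ} (hS : MeasurableSet S) :
    Integrable (fun θ => S.indicator (1 : ℝ → ℝ) θ)
      (volume.restrict (Ioc (-Real.pi) Real.pi)) := by
  have : Integrable (fun _ : ℝ => (1 : ℝ)) (volume.restrict (Ioc (-Real.pi) Real.pi)) :=
    integrable_const _
  exact this.indicator hS

open scoped Classical in
theorem turn_le {D K K2 : Set ℂ} {P : Finset ℂ} {v : ℂ → ℝ} {t : ℝ}
    (hf : Front D K K2 P v t t) (hK : IsConnected K) (hg : Gen P v t) {X : ℝ}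
    (hX : (Bornology.IsBounded K ∧ X = 1) ∨
      (Bornology.IsBounded Kᶜ ∧ (D \ Ut P v t).Nonempty ∧ X = -1)) :
    Th D P v t ≤ 2 * Real.pi * X + (1 / 2) * ∑ p ∈ P, ∑ q ∈ P.erase p, ∑ σ ∈ sgn2,
      if cEx D P v t p q σ then psi (v p) (v q) (dist p q / t) else 0 := by
  obtain ⟨B, hB, hmain⟩ := turn_ae hf hK hg hX
  have hEt : ∀ p, MeasurableSet (Et D P v t p) := fun p => measurableSet_Et hf.op P v t p
  have hiR : ∀ p ∈ P, ∀ q ∈ P.erase p, ∀ σ ∈ sgn2, Integrable (fun θ =>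
      if cEx D P v t p q σ then (wedge v t p q σ).indicator (1 : ℝ → ℝ) θ else 0)
      (volume.restrict (Ioc (-Real.pi) Real.pi)) := by
    intro p hp q hq σ hσ
    by_cases h : cEx D P v t p q σ
    · simp only [h, if_true]
      exact turn_integrable (measurableSet_wedge v t p q σ)
    · simp only [h, if_false]
      exact integrable_zero _ _ _
  have hi1 : Integrable (fun θ => 2 * (∑ p ∈ P, (Et D P v t p).indicator (1 : ℝ → ℝ) θ))
      (volume.restrict (Ioc (-Real.pi) Real.pi)) :=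
    (integrable_finsetSum _ fun p _ => turn_integrable (hEt p)).const_mul 2
  have hi2 : Integrable (fun θ => ∑ p ∈ P, ∑ q ∈ P.erase p, ∑ σ ∈ sgn2,
        if cEx D P v t p q σ then (wedge v t p q σ).indicator (1 : ℝ → ℝ) θ else 0)
      (volume.restrict (Ioc (-Real.pi) Real.pi)) :=
    integrable_finsetSum _ fun p hp => integrable_finsetSum _ fun q hq =>
      integrable_finsetSum _ fun σ hσ => hiR p hp q hq σ hσ
  have hi3 : Integrable (fun _ : ℝ => 2 * X) (volume.restrict (Ioc (-Real.pi) Real.pi)) :=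
    integrable_const _
  have hle : ∫ θ in Ioc (-Real.pi) Real.pi,
      2 * (∑ p ∈ P, (Et D P v t p).indicator (1 : ℝ → ℝ) θ) ≤
      ∫ θ in Ioc (-Real.pi) Real.pi, (2 * X +
        ∑ p ∈ P, ∑ q ∈ P.erase p, ∑ σ ∈ sgn2,
        if cEx D P v t p q σ then (wedge v t p q σ).indicator (1 : ℝ → ℝ) θ else 0) := by
    refine integral_mono_ae hi1 (hi3.add hi2) ?_
    have h1 : ∀ᵐ θ ∂(volume : Measure ℝ), θ ∉ B := by
      have := hB.measure_zero volume
      exact measure_eq_zero_iff_ae_notMem.mp this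
    have h2 : ∀ᵐ θ ∂(volume.restrict (Ioc (-Real.pi) Real.pi)), θ ∈ Ioc (-Real.pi) Real.pi :=
      ae_restrict_mem measurableSet_Ioc
    filter_upwards [ae_restrict_of_ae h1, h2] with θ h3 h4
    exact hmain θ h4 h3
  rw [integral_const_mul, integral_finsetSum _ (fun p _ => turn_integrable (hEt p)),
    integral_add hi3 hi2] at hle
  rw [integral_finsetSum _ (fun p hp => integrable_finsetSum _ fun q hq =>
      integrable_finsetSum _ fun σ hσ => hiR p hp q hq σ hσ)] at hle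
  have hT : ∑ p ∈ P, ∫ θ in Ioc (-Real.pi) Real.pi, (Et D P v t p).indicator (1 : ℝ → ℝ) θ =
      Th D P v t := by
    unfold Th
    refine Finset.sum_congr rfl fun p _ => turn_int (hEt p) fun θ h => h.1
  rw [hT] at hle
  have hconst : ∫ _θ in Ioc (-Real.pi) Real.pi, 2 * X = 2 * (2 * Real.pi * X) := by
    rw [setIntegral_const]
    simp only [smul_eq_mul]
    rw [Measure.real, Real.volume_Ioc, ENNReal.toReal_ofReal (by linarith [Real.pi_pos])]
    ring
  rw [hconst] at hle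
  have hS : ∑ p ∈ P, ∫ θ in Ioc (-Real.pi) Real.pi, (∑ q ∈ P.erase p, ∑ σ ∈ sgn2,
        if cEx D P v t p q σ then (wedge v t p q σ).indicator (1 : ℝ → ℝ) θ else 0) =
      ∑ p ∈ P, ∑ q ∈ P.erase p, ∑ σ ∈ sgn2,
      if cEx D P v t p q σ then psi (v p) (v q) (dist p q / t) else 0 := by
    refine Finset.sum_congr rfl fun p hp => ?_
    rw [integral_finsetSum _ (fun q hq => integrable_finsetSum _ fun σ hσ => hiR p hp q hq σ hσ)]
    refine Finset.sum_congr rfl fun q hq => ?_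
    rw [integral_finsetSum _ (fun σ hσ => hiR p hp q hq σ hσ)]
    refine Finset.sum_congr rfl fun σ hσ => ?_
    by_cases h : cEx D P v t p q σ
    · simp only [h, if_true]
      have hpq : p ≠ q := (Finset.ne_of_mem_erase hq).symm
      rw [turn_int (measurableSet_wedge v t p q σ) (fun θ h => h.1),
        vol_wedge hf.vpos hf.t0pos hpq h.1 hσ]
    · simp [h]
  rw [hS] at hle
  linarith

end Pool.Agent.FKM
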