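import Mathlib
import Pool.Agent.Helper13.FKM.Turn
import Pool.Agent.Helper13.FKM.DerE
import Pool.Agent.Helper13.FKM.GenFin

/-!
FKM-23: growth of the weighted length of a front (assembly of FKM-9..22).
-/

set_option autoImplicit false

open Complex MeasureTheory Set Metric Filter
open scoped ComplexConjugate Topology

namespace Pool.Agent.FKM

theorem Front.mono {D K K2 : Set ℂ} {P : Finset ℂ} {v : ℂ → ℝ} {t0 t1 s0 s1 : ℝ}
    (hf : Front D K K2 P v t0 t1) (h0 : t0 ≤ s0) (h01 : s0 ≤ s1) (h1 : s1 ≤ t1) :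
    Front D K K2 P v s0 s1 where
  op := hf.op
  bdd := hf.bdd
  part := hf.part
  sub := hf.sub
  vpos := hf.vpos
  t0pos := hf.t0pos.trans_le h0
  t01 := h01
  cover := by
    intro z hz hzK
    obtain ⟨p, hp, h⟩ := hf.cover z hz hzK
    exact ⟨p, hp, h.trans_le (mul_le_mul_of_nonneg_right h0 (hf.vpos p).le)⟩
  free := by
    intro p hp
    exact (closedBall_subset_closedBall
      (mul_le_mul_of_nonneg_right h1 (hf.vpos p).le)).trans (hf.free p hp)

open scoped Classical in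
/-- swapping the two discs of a corner -/
theorem corner_swap {D : Set ℂ} {P : Finset ℂ} {v : ℂ → ℝ} (hv : ∀ p, 0 < v p) {t : ℝ}
    (ht : 0 < t) (f : ℂ → ℂ → ℝ) :
    (∑ p ∈ P, ∑ q ∈ P.erase p, ∑ σ ∈ sgn2, if cEx D P v t p q σ then f p q else 0) =
      ∑ p ∈ P, ∑ q ∈ P.erase p, ∑ σ ∈ sgn2, if cEx D P v t p q σ then f q p else 0 := by
  have hσ : ∀ σ ∈ sgn2, -σ ∈ sgn2 := by
    intro σ hσ
    simp only [sgn2, Finset.mem_insert, Finset.mem_singleton] at hσ ⊢
    rcases hσ with rfl | rfl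
    · right; rfl
    · left; norm_num
  have e1 : ∀ g : ℂ → ℂ → ℝ → ℝ, (∑ p ∈ P, ∑ q ∈ P.erase p, ∑ σ ∈ sgn2, g p q σ) =
      ∑ c ∈ P.sigma (fun p => P.erase p), ∑ σ ∈ sgn2, g c.1 c.2 σ := by
    intro g
    rw [Finset.sum_sigma]
  rw [e1 (fun p q σ => if cEx D P v t p q σ then f p q else 0),
    e1 (fun p q σ => if cEx D P v t p q σ then f q p else 0)]
  refine Finset.sum_bij' (fun c _ => ⟨c.2, c.1⟩) (fun c _ => ⟨c.2, c.1⟩) ?_ ?_ ?_ ?_ ?_
  · intro c hc
    simp only [Finset.mem_sigma, Finset.mem_erase] at hc ⊢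
    exact ⟨hc.2.2, fun h => hc.2.1 h.symm, hc.1⟩
  · intro c hc
    simp only [Finset.mem_sigma, Finset.mem_erase] at hc ⊢
    exact ⟨hc.2.2, fun h => hc.2.1 h.symm, hc.1⟩
  · intro c _; rfl
  · intro c _; rfl
  · intro c hc
    simp only [Finset.mem_sigma, Finset.mem_erase] at hc
    refine Finset.sum_bij' (fun σ _ => -σ) (fun σ _ => -σ) (fun σ h => hσ σ h)
      (fun σ h => hσ σ h) (fun σ _ => neg_neg σ) (fun σ _ => neg_neg σ) ?_
    intro σ h
    have h3 : c.1 ≠ c.2 := fun h => hc.2.1 h.symm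
    have := cEx_symm (D := D) (P := P) hv ht h3 h
    simp only [this]

theorem star {D K K2 : Set ℂ} {P : Finset ℂ} {v : ℂ → ℝ} {t0 t1 : ℝ}
    (hf : Front D K K2 P v t0 t1) (hK : IsConnected K) {X : ℝ}
    (hX : (Bornology.IsBounded K ∧ X = 1) ∨ (Bornology.IsBounded Kᶜ ∧ X = -1)) :
    ∃ S : Finset ℝ, ∀ t ∈ Ioo t0 t1, t ∉ S → (X = 1 ∨ (D \ Ut P v t).Nonempty) →
      ∃ m, HasDerivAt (fun s => s * Th D P v s) m t ∧ m ≤ 2 * Real.pi * X := by
  classical
  refine ⟨(gen_finite (P := P) hf.vpos).toFinset, ?_⟩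
  intro t ht hS hne
  have htpos : 0 < t := hf.t0pos.trans ht.1
  have hgen : Gen P v t := by
    by_contra h
    apply hS
    rw [Set.Finite.mem_toFinset]
    exact ⟨htpos, h⟩
  have hft : Front D K K2 P v t t := hf.mono ht.1.le le_rfl ht.2.le
  set al : ℂ → ℂ → ℝ := fun p q => deriv (fun s => alp (v p) (v q) (dist p q / s)) t with hal
  set SA : ℝ := ∑ p ∈ P, ∑ q ∈ P.erase p, ∑ σ ∈ sgn2,
    if cEx D P v t p q σ then al p q else 0 with hSA
  have hd : HasDerivAt (fun s => Th D P v s) (-SA) t := by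
    have h1 : HasDerivAt (fun s => ∑ p ∈ P, volume.real (Et D P v s p))
        (∑ p ∈ P, -(∑ q ∈ P.erase p, ∑ σ ∈ sgn2,
          if cEx D P v t p q σ then al p q else 0)) t := by
      apply HasDerivAt.fun_sum
      intro p hp
      exact deriv_E hf ht hgen hp
    rw [Finset.sum_neg_distrib] at h1
    exact h1
  refine ⟨1 * Th D P v t + t * (-SA), (hasDerivAt_id t).mul hd, ?_⟩
  have hX' : (Bornology.IsBounded K ∧ X = 1) ∨
      (Bornology.IsBounded Kᶜ ∧ (D \ Ut P v t).Nonempty ∧ X = -1) := by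
    rcases hX with h | h
    · exact Or.inl h
    · rcases hne with h' | h'
      · rw [h.2] at h'; norm_num at h'
      · exact Or.inr ⟨h.1, h', h.2⟩
  have hturn := turn_le hft hK hgen hX'
  have hsym : SA = ∑ p ∈ P, ∑ q ∈ P.erase p, ∑ σ ∈ sgn2,
      if cEx D P v t p q σ then al q p else 0 := corner_swap hf.vpos htpos al
  have hkey : (1 / 2) * ∑ p ∈ P, ∑ q ∈ P.erase p, ∑ σ ∈ sgn2,
      (if cEx D P v t p q σ then psi (v p) (v q) (dist p q / t) else 0) ≤ t * SA := by
    have e : t * SA = (1 / 2) * ∑ p ∈ P, ∑ q ∈ P.erase p, ∑ σ ∈ sgn2,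
        (if cEx D P v t p q σ then t * (al p q + al q p) else 0) := by
      have : 2 * SA = ∑ p ∈ P, ∑ q ∈ P.erase p, ∑ σ ∈ sgn2,
        (if cEx D P v t p q σ then (al p q + al q p) else 0) := by
        rw [two_mul]
        nth_rewrite 2 [hsym]
        rw [hSA, ← Finset.sum_add_distrib]
        refine Finset.sum_congr rfl fun p _ => ?_
        rw [← Finset.sum_add_distrib]
        refine Finset.sum_congr rfl fun q _ => ?_
        rw [← Finset.sum_add_distrib]
        refine Finset.sum_congr rfl fun σ _ => ?_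
        split_ifs <;> simp
      have h2 : t * SA = (1 / 2) * (t * (2 * SA)) := by ring
      rw [h2, this, Finset.mul_sum]
      congr 1
      refine Finset.sum_congr rfl fun p _ => ?_
      rw [Finset.mul_sum]
      refine Finset.sum_congr rfl fun q _ => ?_
      rw [Finset.mul_sum]
      refine Finset.sum_congr rfl fun σ _ => ?_
      split_ifs <;> simp
    rw [e]
    apply mul_le_mul_of_nonneg_left _ (by norm_num)
    refine Finset.sum_le_sum fun p _ => Finset.sum_le_sum fun q _ => Finset.sum_le_sum fun σ _ => ?_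
    split_ifs with h
    · have h1 := psi_ineq (hf.vpos p) (hf.vpos q) htpos h.1.1 h.1.2
      simp only [hal]
      rw [dist_comm q p]
      exact h1
    · exact le_rfl
  linarith

end Pool.Agent.FKM
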