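import Mathlib
import Pool.Agent.Helper13.FKM.Star
import Pool.Agent.Helper13.FKM.FrI
import Pool.Agent.Helper13.FKM.AreaT
import Pool.Agent.Helper13.FKM.Bracket
import Pool.Agent.Helper13.FKM.Iso
import Pool.Agent.Helper13.FKM.WindS

/-!
FKM-40: preparations for the growth estimate
-/

set_option autoImplicit false

open Complex MeasureTheory Set Metric Filter
open scoped ComplexConjugate Topology

namespace Pool.Agent.FKM

/-- a continuous function whose derivative is nonpositive off a finite set does not increase -/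
theorem le_of_off_finite {f : ℝ → ℝ} (S : Finset ℝ) : ∀ {a b : ℝ}, a ≤ b →
    ContinuousOn f (Icc a b) →
    (∀ t ∈ Ioo a b, t ∉ S → ∃ m, HasDerivAt f m t ∧ m ≤ 0) → f b ≤ f a := by
  classical
  induction S using Finset.induction with
  | empty =>
    intro a b hab hc hd
    have hanti : AntitoneOn f (Icc a b) := by
      apply antitoneOn_of_deriv_nonpos (convex_Icc a b) hc
      · rw [interior_Icc]
        intro t ht
        obtain ⟨m, hm, _⟩ := hd t ht (Finset.notMem_empty t)
        exact hm.differentiableAt.differentiableWithinAt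
      · rw [interior_Icc]
        intro t ht
        obtain ⟨m, hm, hm0⟩ := hd t ht (Finset.notMem_empty t)
        rw [hm.deriv]; exact hm0
    exact hanti ⟨le_rfl, hab⟩ ⟨hab, le_rfl⟩ hab
  | insert c S hcS ih =>
    intro a b hab hc hd
    by_cases h : c ∈ Ioo a b
    · have h1 : f c ≤ f a := by
        apply ih h.1.le (hc.mono (Icc_subset_Icc le_rfl h.2.le))
        intro t ht htS
        apply hd t ⟨ht.1, ht.2.trans h.2⟩
        rw [Finset.mem_insert]
        rintro (h' | h')
        · exact absurd h' ht.2.ne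
        · exact htS h'
      have h2 : f b ≤ f c := by
        apply ih h.2.le (hc.mono (Icc_subset_Icc h.1.le le_rfl))
        intro t ht htS
        apply hd t ⟨h.1.trans ht.1, ht.2⟩
        rw [Finset.mem_insert]
        rintro (h' | h')
        · exact absurd h' ht.1.ne'
        · exact htS h'
      exact h2.trans h1
    · apply ih hab hc
      intro t ht htS
      apply hd t ht
      rw [Finset.mem_insert]
      rintro (h' | h')
      · exact h (h' ▸ ht)
      · exact htS h'

section bint

variable {F : Finset (ℂ × ℝ)} {D : Set ℂ}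

theorem intOn_expo {g : ℂ → ℝ} (hg : Continuous g) (D : Set ℂ) (b : ℂ × ℝ) :
    IntegrableOn (fun θ : ℝ => g (circleMap b.1 b.2 θ)) (expo D b) := by
  have hc : Continuous (fun θ : ℝ => g (circleMap b.1 b.2 θ)) :=
    hg.comp (continuous_circleMap b.1 b.2)
  exact ((hc.integrableOn_Icc (a := -Real.pi) (b := Real.pi)).mono_set
    (fun θ hθ => ⟨hθ.1.1.le, hθ.1.2⟩))

theorem bInt_sub_nonneg (h : Reg F D) {F' : Finset (ℂ × ℝ)} (hF : F' ⊆ F) {G : ℂ → ℂ → ℝ}
    (hG : ∀ z ν, 0 ≤ G z ν) : 0 ≤ bInt F' D G := by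
  unfold bInt
  apply Finset.sum_nonneg
  intro b hb
  apply mul_nonneg (h.pos b (hF hb)).le
  exact setIntegral_nonneg (measurableSet_expo D b) (fun θ _ => hG _ _)

theorem bInt_sub_mono (h : Reg F D) {F' : Finset (ℂ × ℝ)} (hF : F' ⊆ F) {g1 g2 : ℂ → ℝ}
    (h1 : Continuous g1) (h2 : Continuous g2) (h12 : ∀ z ∈ closure D, g1 z ≤ g2 z) :
    bInt F' D (fun z _ => g1 z) ≤ bInt F' D (fun z _ => g2 z) := by
  unfold bInt
  apply Finset.sum_le_sum
  intro b hb
  apply mul_le_mul_of_nonneg_left _ (h.pos b (hF hb)).le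
  apply setIntegral_mono_on (intOn_expo h1 D b) (intOn_expo h2 D b) (measurableSet_expo D b)
  intro θ hθ
  exact h12 _ hθ.2

theorem inK_sub (K : Set ℂ) : inK F K ⊆ F := by
  classical
  exact Finset.filter_subset _ _

end bint

theorem rad_sq {A : ℝ} (hA : 0 < A) : 2 * Real.sqrt (Real.pi * A) = 2 * Real.pi * rad A := by
  unfold rad
  have : Real.sqrt (Real.pi * A) = Real.pi * Real.sqrt (A / Real.pi) := by
    have hpi := Real.pi_pos
    have e : Real.pi * A = Real.pi ^ 2 * (A / Real.pi) := by field_simp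
    rw [e, Real.sqrt_mul (by positivity), Real.sqrt_sq hpi.le]
  rw [this]; ring

/-- hypotheses of the growth estimate -/
structure Hyp (S : Dat) (ε : ℝ) (F : Finset (ℂ × ℝ)) (D K K2 : Set ℂ) (P : Finset ℂ)
    (t0 t1 γ X l0 p : ℝ) (m : ℤ) : Prop where
  reg : Reg F D
  sub : D ⊆ S.W
  conn : IsConnected K
  hP : ∀ q ∈ P, q ∈ frontier D
  fr : Front D K K2 P S.v t0 t1
  area : 0 < volume.real D
  Qneg : S.Q F D ≤ 0
  εpos : 0 < ε
  ε1 : ε ≤ 1
  t1le : t1 ≤ ε * rad (volume.real D)
  t1one : t1 ≤ 1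
  γpos : 0 < γ
  γle : γ ≤ ε * rad (volume.real D)
  γle2 : γ ≤ ε * rad (volume.real D) ^ 2
  start : t0 * Th D P S.v t0 ≤ S.M F D K + γ
  vol : volume.real (D ∩ Ut P S.v t0) ≤ γ
  type : (Bornology.IsBounded K ∧ X = 1 ∧ l0 = 0 ∧
      p = max (S.M F D K / bInt F D (fun z _ => S.g z)) (1 / 2)) ∨
    (Bornology.IsBounded Kᶜ ∧ X = -1 ∧ l0 = 2 * Real.pi ∧
      p = S.M F D K / bInt F D (fun z _ => S.g z))
  idx : 2 * Real.pi * m = -2 * Real.pi * X - 2 * S.w F D K
  good : Good (kF S.E (volume.real D)) (dF S.E (volume.real D)) p m l0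

section basic

variable {S : Dat} {F : Finset (ℂ × ℝ)} {D K K2 : Set ℂ}

theorem W_fin (S : Dat) : volume S.W < ⊤ := S.W_bdd.measure_lt_top

theorem area_le (hD : D ⊆ S.W) : S.E ^ 2 * volume.real D ≤ Real.pi * S.X ^ 2 := by
  refine le_trans ?_ S.area
  apply mul_le_mul_of_nonneg_left _ (sq_nonneg _)
  exact measureReal_mono hD (W_fin S).ne

/-- upper bound of the total weighted length if `Q ≤ 0` -/
theorem M_up (h : Reg F D) (hD : D ⊆ S.W) (hA : 0 < volume.real D) (hQ : S.Q F D ≤ 0) :
    bInt F D (fun z _ => S.g z) ≤ (2 * Real.pi * S.C / S.E ^ 2) * rad (volume.real D) := by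
  set A := volume.real D with hAdef
  have hb := aF_bounds S.hX S.E_pos hA (area_le hD)
  obtain ⟨hr, hrA⟩ := rad_pos hA
  have hP : -(S.C * A) ≤ ∫ z in D, S.P z := by
    have h1 : ‖∫ z in D, S.P z‖ ≤ S.C * volume.real D := by
      apply norm_setIntegral_le_of_norm_le_const
      · exact (measure_mono hD).trans_lt (W_fin S)
      · intro z _
        rw [Real.norm_eq_abs]
        exact S.P_le z
    rw [Real.norm_eq_abs] at h1
    exact (abs_le.1 h1).1
  have hQ' : aF S.E A * bInt F D (fun z _ => S.g z) ≤ S.C * A := by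
    unfold Dat.Q QQ at hQ
    linarith
  have hE := S.E_pos
  have hE2 : 0 < S.E ^ 2 := by positivity
  have ha : S.E ^ 2 / 2 * rad A ≤ aF S.E A := by
    have h2 := hb.2.2.2.1
    unfold dF at h2
    rw [le_div_iff₀ hr] at h2
    exact h2
  have hM0 : 0 ≤ bInt F D (fun z _ => S.g z) :=
    bInt_sub_nonneg h (Finset.Subset.refl _) (fun z _ => S.g_nonneg z)
  have h3 : S.E ^ 2 / 2 * rad A * bInt F D (fun z _ => S.g z) ≤ S.C * (Real.pi * rad A ^ 2) := by
    rw [hrA]
    exact (mul_le_mul_of_nonneg_right ha hM0).trans hQ'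
  have h4 : S.E ^ 2 / 2 * bInt F D (fun z _ => S.g z) ≤ S.C * (Real.pi * rad A) := by
    have h5 : rad A * (S.E ^ 2 / 2 * bInt F D (fun z _ => S.g z)) ≤
        rad A * (S.C * (Real.pi * rad A)) := by nlinarith
    exact le_of_mul_le_mul_left h5 hr
  have h6 : bInt F D (fun z _ => S.g z) = (S.E ^ 2 / 2 * bInt F D (fun z _ => S.g z)) * (2 / S.E ^ 2) := by
    field_simp
  rw [h6]
  calc _ ≤ (S.C * (Real.pi * rad A)) * (2 / S.E ^ 2) :=
        mul_le_mul_of_nonneg_right h4 (by positivity)
    _ = _ := by ring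

/-- lower bound of the weighted length of the outer part -/
theorem M_low (h : Reg F D) (hD : D ⊆ S.W) (hA : 0 < volume.real D) (hp : Part D K K2)
    (hK : Bornology.IsBounded Kᶜ) :
    2 * Real.pi * rad (volume.real D) ≤ S.C * S.M F D K := by
  have h1 := iso h hp hK
  rw [rad_sq hA] at h1
  refine h1.trans ?_
  have h2 : S.C * S.M F D K = bInt (inK F K) D (fun z _ => S.C * S.g z) := by
    unfold Dat.M bInt
    rw [Finset.mul_sum]
    refine Finset.sum_congr rfl fun b _ => ?_
    rw [integral_const_mul]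
    ring
  rw [h2]
  apply bInt_sub_mono h (inK_sub K) continuous_const (continuous_const.mul S.g_cont.continuous)
  intro z hz
  exact S.g_low z (closure_mono hD hz)

theorem M_split (h : Reg F D) (hp : Part D K K2) :
    bInt F D (fun z _ => S.g z) = S.M F D K + S.M F D K2 := bInt_split h hp _

theorem M_nonneg (h : Reg F D) : 0 ≤ S.M F D K :=
  bInt_sub_nonneg h (inK_sub K) (fun z _ => S.g_nonneg z)

/-- lower bound of the total weighted length -/
theorem M_low_tot (h : Reg F D) (hD : D ⊆ S.W) (hA : 0 < volume.real D) (hp : Part D K K2) :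
    2 * Real.pi * rad (volume.real D) ≤ S.C * bInt F D (fun z _ => S.g z) := by
  have hC : 0 < S.C := lt_of_lt_of_le one_pos S.C_one
  rw [M_split h hp]
  have h0 : 0 ≤ S.M F D K := M_nonneg h
  have h02 : 0 ≤ S.M F D K2 := M_nonneg h
  have hun : K ∪ K2 = Dᶜ := hp.union
  rcases part_bdd h.bdd hp with hb | hb
  · have hK2 : Bornology.IsBounded K2ᶜ := by
      refine (hb.union h.bdd).subset ?_
      intro z hz
      by_cases hzD : z ∈ D
      · exact Or.inr hzD
      · have : z ∈ K ∪ K2 := by rw [hun]; exact hzD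
        rcases this with h' | h'
        · exact Or.inl h'
        · exact absurd h' hz
    have := M_low (S := S) h hD hA hp.symm' hK2
    nlinarith
  · have hK : Bornology.IsBounded Kᶜ := by
      refine (hb.union h.bdd).subset ?_
      intro z hz
      by_cases hzD : z ∈ D
      · exact Or.inr hzD
      · have : z ∈ K ∪ K2 := by rw [hun]; exact hzD
        rcases this with h' | h'
        · exact absurd h' hz
        · exact Or.inl h'
    have := M_low (S := S) h hD hA hp hK
    nlinarith

end basic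

end Pool.Agent.FKM
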