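import Mathlib
import Pool.Agent.Helper13.FKM.GrowA

/-!
FKM-41: bounds along the front
-/

set_option autoImplicit false

open Complex MeasureTheory Set Metric Filter
open scoped ComplexConjugate Topology

namespace Pool.Agent.FKM

variable {S : Dat} {ε : ℝ} {F : Finset (ℂ × ℝ)} {D K K2 : Set ℂ} {P : Finset ℂ}
  {t0 t1 γ X l0 p : ℝ} {m : ℤ}

theorem gmono_Ut {P : Finset ℂ} {v : ℂ → ℝ} (hv : ∀ p, 0 < v p) {s t : ℝ} (h : s ≤ t) :
    Ut P v s ⊆ Ut P v t := by
  unfold Ut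
  apply iUnion₂_mono
  intro p _
  exact closedBall_subset_closedBall (mul_le_mul_of_nonneg_right h (hv p).le)

theorem gclosed_Ut (P : Finset ℂ) (v : ℂ → ℝ) (t : ℝ) : IsClosed (Ut P v t) := by
  unfold Ut
  exact P.finite_toSet.isClosed_biUnion (fun p _ => isClosed_closedBall)

namespace Hyp

theorem Dfin (H : Hyp S ε F D K K2 P t0 t1 γ X l0 p m) : volume D ≠ ⊤ :=
  H.reg.bdd.measure_lt_top.ne

theorem AA_anti (H : Hyp S ε F D K K2 P t0 t1 γ X l0 p m) {s t : ℝ} (h : s ≤ t) :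
    AA S D P t ≤ AA S D P s := by
  unfold AA
  apply measureReal_mono _ ((measure_mono sdiff_subset).trans_lt H.reg.bdd.measure_lt_top).ne
  exact sdiff_subset_sdiff_right (gmono_Ut H.fr.vpos h)

theorem AA_le (H : Hyp S ε F D K K2 P t0 t1 γ X l0 p m) (t : ℝ) :
    AA S D P t ≤ volume.real D := measureReal_mono sdiff_subset H.Dfin

theorem AA_t0 (H : Hyp S ε F D K K2 P t0 t1 γ X l0 p m) :
    volume.real D - γ ≤ AA S D P t0 := by
  have h1 := measureReal_inter_add_sdiff (μ := volume) (s := D)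
    (gclosed_Ut P S.v t0).measurableSet H.Dfin
  have h2 := H.vol
  unfold AA
  linarith

theorem Xle (H : Hyp S ε F D K K2 P t0 t1 γ X l0 p m) : X ≤ 1 := by
  rcases H.type with h | h
  · exact h.2.1.le
  · rw [h.2.1]; norm_num

theorem growth (H : Hyp S ε F D K K2 P t0 t1 γ X l0 p m) {s t : ℝ} (hs : t0 ≤ s) (hst : s ≤ t)
    (ht : t ≤ t1) (hpos : ∀ τ ∈ Icc s t, 0 < AA S D P τ) :
    t * Th D P S.v t - 2 * Real.pi * X * t ≤ s * Th D P S.v s - 2 * Real.pi * X * s := by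
  have hX : (Bornology.IsBounded K ∧ X = 1) ∨ (Bornology.IsBounded Kᶜ ∧ X = -1) := by
    rcases H.type with h | h
    · exact Or.inl ⟨h.1, h.2.1⟩
    · exact Or.inr ⟨h.1, h.2.1⟩
  obtain ⟨T, hT⟩ := star H.fr H.conn hX
  have hcT := (cont_front S H.fr).1
  have hcont : ContinuousOn (fun τ => τ * Th D P S.v τ - 2 * Real.pi * X * τ) (Icc s t) := by
    apply ContinuousOn.sub
    · exact continuousOn_id.mul (hcT.mono (Icc_subset_Icc hs ht))
    · exact (continuous_const.mul continuous_id).continuousOn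
  apply le_of_off_finite T hst hcont
  intro τ hτ hτT
  have hne : (D \ Ut P S.v τ).Nonempty := by
    by_contra h
    rw [not_nonempty_iff_eq_empty] at h
    have h1 := hpos τ ⟨hτ.1.le, hτ.2.le⟩
    unfold AA at h1
    rw [h] at h1
    simp at h1
  obtain ⟨μ, hμ, hμ2⟩ := hT τ ⟨hs.trans_lt hτ.1, hτ.2.trans_le ht⟩ hτT (Or.inr hne)
  refine ⟨μ - 2 * Real.pi * X * 1, hμ.sub ((hasDerivAt_id τ).const_mul _), by linarith⟩

theorem growth1 (H : Hyp S ε F D K K2 P t0 t1 γ X l0 p m) {s t : ℝ} (hs : t0 ≤ s) (hst : s ≤ t)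
    (ht : t ≤ t1) (hpos : ∀ τ ∈ Icc s t, 0 < AA S D P τ) :
    t * Th D P S.v t ≤ s * Th D P S.v s + 2 * Real.pi * (t - s) := by
  have h1 := H.growth hs hst ht hpos
  have h2 : 2 * Real.pi * X * (t - s) ≤ 2 * Real.pi * 1 * (t - s) := by
    apply mul_le_mul_of_nonneg_right _ (by linarith)
    exact mul_le_mul_of_nonneg_left H.Xle (by positivity)
  linarith

end Hyp

/-- the constants of the growth estimate -/
noncomputable def c1 (S : Dat) : ℝ := 2 * Real.pi * S.C / S.E ^ 2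

noncomputable def c3 (S : Dat) : ℝ := c1 S + 8

noncomputable def c4 (S : Dat) : ℝ := 1 + S.C ^ 2 * c3 S

theorem C_pos (S : Dat) : 0 < S.C := lt_of_lt_of_le one_pos S.C_one

theorem c1_pos (S : Dat) : 0 < c1 S := by
  have := S.E_pos
  have := C_pos S
  have := Real.pi_pos
  unfold c1; positivity

theorem c3_ge (S : Dat) : 8 ≤ c3 S := by
  have := c1_pos S
  unfold c3; linarith

theorem c4_ge (S : Dat) : c3 S ≤ c4 S := by
  have h1 := S.C_one
  have h2 := c3_ge S
  unfold c4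
  nlinarith [sq_nonneg (S.C - 1), mul_le_mul h1 h1 zero_le_one (by linarith : (0:ℝ) ≤ S.C)]

namespace Hyp

theorem rpos (H : Hyp S ε F D K K2 P t0 t1 γ X l0 p m) : 0 < rad (volume.real D) :=
  (rad_pos H.area).1

theorem r2 (H : Hyp S ε F D K K2 P t0 t1 γ X l0 p m) :
    Real.pi * rad (volume.real D) ^ 2 = volume.real D := (rad_pos H.area).2

theorem Mtot (H : Hyp S ε F D K K2 P t0 t1 γ X l0 p m) :
    bInt F D (fun z _ => S.g z) = S.M F D K + S.M F D K2 := M_split H.reg H.fr.part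

theorem MK_le (H : Hyp S ε F D K K2 P t0 t1 γ X l0 p m) :
    S.M F D K ≤ c1 S * rad (volume.real D) := by
  have h1 := M_up H.reg H.sub H.area H.Qneg
  rw [H.Mtot] at h1
  have h2 : 0 ≤ S.M F D K2 := M_nonneg H.reg
  unfold c1; linarith

/-- bound of the frozen length as long as the area is positive -/
theorem Mf_le (H : Hyp S ε F D K K2 P t0 t1 γ X l0 p m) {t : ℝ} (h0 : t0 ≤ t) (ht : t ≤ t1)
    (hpos : ∀ τ ∈ Icc t0 t, 0 < AA S D P τ) :
    t * Th D P S.v t ≤ S.M F D K + γ + 2 * Real.pi * t1 ∧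
      t * Th D P S.v t ≤ c3 S * rad (volume.real D) := by
  have h1 := H.growth1 le_rfl h0 ht hpos
  have h2 := H.start
  have hpi := Real.pi_pos
  have h3 : 2 * Real.pi * (t - t0) ≤ 2 * Real.pi * t1 := by
    apply mul_le_mul_of_nonneg_left _ (by positivity)
    have := H.fr.t0pos
    linarith
  have h4 : t * Th D P S.v t ≤ S.M F D K + γ + 2 * Real.pi * t1 := by linarith
  refine ⟨h4, h4.trans ?_⟩
  have h5 := H.MK_le
  have hr := H.rpos
  have h6 : ε * rad (volume.real D) ≤ rad (volume.real D) := by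
    nlinarith [H.ε1]
  have h7 := H.γle.trans h6
  have h8 := H.t1le.trans h6
  have h9 : 2 * Real.pi * t1 ≤ 2 * Real.pi * rad (volume.real D) :=
    mul_le_mul_of_nonneg_left h8 (by positivity)
  have h10 : Real.pi ≤ 3.15 := Real.pi_lt_d2.le
  unfold c3
  nlinarith

theorem VV_le (H : Hyp S ε F D K K2 P t0 t1 γ X l0 p m) {t : ℝ} (h0 : t0 ≤ t) (ht : t ≤ t1)
    (hpos : ∀ τ ∈ Icc t0 t, 0 < AA S D P τ) :
    VV S D P t ≤ S.C ^ 2 * c3 S * rad (volume.real D) := by
  have h1 := H.Mf_le h0 ht hpos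
  have ht0 : 0 ≤ t := H.fr.t0pos.le.trans h0
  obtain ⟨hL0, hV0, hT0, hLV, hVL, hML, hLM⟩ := comp_front S (D := D) (P := P) ht0
  have hC := C_pos S
  calc VV S D P t ≤ S.C * LL S D P t := hVL
    _ ≤ S.C * (S.C * (t * Th D P S.v t)) := mul_le_mul_of_nonneg_left hLM hC.le
    _ ≤ S.C * (S.C * (c3 S * rad (volume.real D))) := by
        apply mul_le_mul_of_nonneg_left _ hC.le
        exact mul_le_mul_of_nonneg_left h1.2 hC.le
    _ = _ := by ring

theorem drop_le (H : Hyp S ε F D K K2 P t0 t1 γ X l0 p m) {t : ℝ} (h0 : t0 ≤ t) (ht : t ≤ t1)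
    (hpos : ∀ τ ∈ Icc t0 t, 0 < AA S D P τ) :
    volume.real D - AA S D P t ≤ c4 S * ε * rad (volume.real D) ^ 2 := by
  have h1 := (area_int S H.fr le_rfl h0 ht).1
  have hVc := (cont_front S H.fr).2.2.1
  have h2 : ∫ τ in t0..t, VV S D P τ ≤
      ∫ τ in t0..t, S.C ^ 2 * c3 S * rad (volume.real D) := by
    apply intervalIntegral.integral_mono_on h0
    · apply ContinuousOn.intervalIntegrable
      rw [uIcc_of_le h0]
      exact hVc.mono (Icc_subset_Icc le_rfl ht)
    · exact intervalIntegrable_const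
    · intro τ hτ
      exact H.VV_le hτ.1 (hτ.2.trans ht) (fun τ' hτ' => hpos τ' ⟨hτ'.1, hτ'.2.trans hτ.2⟩)
  rw [intervalIntegral.integral_const, smul_eq_mul] at h2
  have h3 := H.AA_t0
  have h4 := H.γle2
  have hC := C_pos S
  have hc3 := c3_ge S
  have hr := H.rpos
  have h5 : (t - t0) * (S.C ^ 2 * c3 S * rad (volume.real D)) ≤
      (ε * rad (volume.real D)) * (S.C ^ 2 * c3 S * rad (volume.real D)) := by
    apply mul_le_mul_of_nonneg_right _ (by positivity)
    have := H.t1le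
    have := H.fr.t0pos
    linarith
  unfold c4
  nlinarith

theorem AA_half (H : Hyp S ε F D K K2 P t0 t1 γ X l0 p m) (hε : c4 S * ε ≤ 1 / 4) {t : ℝ}
    (h0 : t0 ≤ t) (ht : t ≤ t1) : volume.real D / 2 ≤ AA S D P t := by
  by_contra hlt
  push Not at hlt
  have hA := H.area
  have hr2 := H.r2
  have hpi : (1 : ℝ) ≤ Real.pi := by linarith [Real.pi_gt_three]
  have hr2le : rad (volume.real D) ^ 2 ≤ volume.real D := by
    have : 1 * rad (volume.real D) ^ 2 ≤ Real.pi * rad (volume.real D) ^ 2 :=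
      mul_le_mul_of_nonneg_right hpi (sq_nonneg _)
    linarith
  have hc4 : 0 < c4 S := by linarith [c3_ge S, c4_ge S]
  have hεp := H.εpos
  have hsmall : c4 S * ε * rad (volume.real D) ^ 2 ≤ 1 / 4 * volume.real D := by
    apply mul_le_mul hε hr2le (sq_nonneg _) (by norm_num)
  have ht0A : volume.real D / 2 ≤ AA S D P t0 := by
    have h1 := H.AA_t0
    have h2 := H.γle2
    have h3 : ε * rad (volume.real D) ^ 2 ≤ c4 S * ε * rad (volume.real D) ^ 2 := by
      have : 1 ≤ c4 S := by linarith [c3_ge S, c4_ge S]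
      have h4 : 0 ≤ ε * rad (volume.real D) ^ 2 := by positivity
      nlinarith
    linarith
  have hcont := (area_cont S H.fr).1.mono (Icc_subset_Icc le_rfl ht : Icc t0 t ⊆ Icc t0 t1)
  have hmem : volume.real D / 2 ∈ Icc (AA S D P t) (AA S D P t0) := ⟨hlt.le, ht0A⟩
  obtain ⟨t', ht', hval⟩ := intermediate_value_Icc' h0 hcont hmem
  have hpos : ∀ τ ∈ Icc t0 t', 0 < AA S D P τ := by
    intro τ hτ
    have := H.AA_anti hτ.2
    rw [hval] at this
    linarith
  have h5 := H.drop_le ht'.1 (ht'.2.trans ht) hpos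
  rw [hval] at h5
  linarith

end Hyp

end Pool.Agent.FKM
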