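import Mathlib
import Pool.Agent.Helper13.FKM.GrowB

/-!
FKM-42: the bracket along the front
-/

set_option autoImplicit false

open Complex MeasureTheory Set Metric Filter
open scoped ComplexConjugate Topology

namespace Pool.Agent.FKM

variable {S : Dat} {ε : ℝ} {F : Finset (ℂ × ℝ)} {D K K2 : Set ℂ} {P : Finset ℂ}
  {t0 t1 γ X l0 p : ℝ} {m : ℤ}

noncomputable def c5 (S : Dat) : ℝ := c4 S + 3 * S.C

noncomputable def c6 (S : Dat) : ℝ := min (1 / 2) (S.E ^ 2 / S.C ^ 2)

theorem c6_pos (S : Dat) : 0 < c6 S := by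
  have := S.E_pos
  have := C_pos S
  unfold c6
  apply lt_min (by norm_num)
  positivity

theorem c5_one (S : Dat) : 1 ≤ c5 S := by
  have := c3_ge S
  have := c4_ge S
  have := C_pos S
  unfold c5; linarith

/-- the isoperimetric inequality for the front -/
theorem iso_front {v : ℂ → ℝ} (h : Reg F D) (hf : Front D K K2 P v t0 t1)
    (hK : Bornology.IsBounded Kᶜ) {t : ℝ} (ht : t ∈ Icc t0 t1)
    (hA : 0 < volume.real (D \ Ut P v t)) :
    2 * Real.pi * rad (volume.real (D \ Ut P v t)) ≤ fInt D P v t (fun _ _ => 1) := by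
  have h1 := reg_front h hf ht
  have h2 := part_front hf ht
  have h3 : Bornology.IsBounded (K ∪ Ut P v t)ᶜ :=
    hK.subset (compl_subset_compl.2 subset_union_left)
  have h4 := iso h1 h2 h3
  rw [bInt_front_inK h hf ht (fun _ _ => 1) continuous_const, rad_sq hA] at h4
  exact h4

namespace Hyp

theorem p_ge (H : Hyp S ε F D K K2 P t0 t1 γ X l0 p m) :
    c6 S ≤ p ∧ S.M F D K / bInt F D (fun z _ => S.g z) ≤ p ∧ 0 ≤ l0 := by
  have hr := H.rpos
  have hC := C_pos S
  have hE := S.E_pos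
  have hpi := Real.pi_pos
  rcases H.type with h | h
  · refine ⟨?_, ?_, h.2.2.1.ge⟩
    · rw [h.2.2.2]
      exact (min_le_left _ _).trans (le_max_right _ _)
    · rw [h.2.2.2]; exact le_max_left _ _
  · refine ⟨?_, h.2.2.2.ge, by rw [h.2.2.1]; positivity⟩
    rw [h.2.2.2]
    refine (min_le_right _ _).trans ?_
    have h1 := M_low H.reg H.sub H.area H.fr.part h.1
    have h2 := M_up H.reg H.sub H.area H.Qneg
    set r := rad (volume.real D)
    set M := bInt F D (fun z _ => S.g z)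
    set MK := S.M F D K
    have hMK : 0 < MK := by
      have : 0 < 2 * Real.pi * r := by positivity
      by_contra hneg
      push Not at hneg
      nlinarith
    have hM : 0 < M := by
      have h3 : 0 ≤ S.M F D K2 := M_nonneg H.reg
      have h4 : M = MK + S.M F D K2 := H.Mtot
      linarith
    rw [div_le_div_iff₀ (by positivity) hM]
    have h5 : S.E ^ 2 * M ≤ 2 * Real.pi * S.C * r := by
      have : S.E ^ 2 * M ≤ S.E ^ 2 * (2 * Real.pi * S.C / S.E ^ 2 * r) :=
        mul_le_mul_of_nonneg_left h2 (sq_nonneg _)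
      calc _ ≤ _ := this
        _ = _ := by field_simp
    calc S.E ^ 2 * M ≤ S.C * (2 * Real.pi * r) := by linarith
      _ ≤ S.C * (S.C * MK) := mul_le_mul_of_nonneg_left h1 hC.le
      _ = MK * S.C ^ 2 := by ring

theorem share (H : Hyp S ε F D K K2 P t0 t1 γ X l0 p m) {t : ℝ} (h0 : 0 ≤ t * Th D P S.v t)
    (hM : t * Th D P S.v t ≤ S.M F D K + γ + 2 * Real.pi * t1) :
    t * Th D P S.v t ≤ (p + c5 S * ε) * (t * Th D P S.v t + S.M F D K2) := by
  have hr := H.rpos
  have hC := C_pos S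
  have hpi := Real.pi_pos
  have hpi3 := Real.pi_gt_three
  have hpi2 : Real.pi ≤ 3.15 := Real.pi_lt_d2.le
  obtain ⟨_, hq, _⟩ := H.p_ge
  have hMlow := M_low_tot H.reg H.sub H.area H.fr.part
  have hMt := H.Mtot
  have hK2 : 0 ≤ S.M F D K2 := M_nonneg H.reg
  have hMK : 0 ≤ S.M F D K := M_nonneg H.reg
  have hγ := H.γle
  have ht1 := H.t1le
  have hγ0 := H.γpos
  have ht10 : 0 < t1 := H.fr.t0pos.trans_le H.fr.t01
  have hε := H.εpos
  set r := rad (volume.real D)
  set M := bInt F D (fun z _ => S.g z)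
  set MK := S.M F D K
  set Mo := S.M F D K2
  set Mf := t * Th D P S.v t
  set e := γ + 2 * Real.pi * t1
  have he : e ≤ 8 * (ε * r) := by
    have : 2 * Real.pi * t1 ≤ 2 * Real.pi * (ε * r) := mul_le_mul_of_nonneg_left ht1 (by positivity)
    have h2 : 2 * Real.pi * (ε * r) ≤ 7 * (ε * r) := by
      apply mul_le_mul_of_nonneg_right _ (by positivity)
      linarith
    simp only [e]; linarith
  have he0 : 0 ≤ e := by positivity
  have hMpos : 0 < M := by
    have : 0 < 2 * Real.pi * r := by positivity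
    by_contra hneg
    push Not at hneg
    nlinarith
  have h1 : Mf * M ≤ (MK + e) * (Mf + Mo) := by
    have h2 : Mf ≤ MK + e := by simp only [e]; linarith
    have h3 : 0 ≤ Mo * (MK + e - Mf) := mul_nonneg hK2 (by linarith)
    have h4 : 0 ≤ e * Mf := mul_nonneg he0 h0
    rw [hMt]
    nlinarith
  have h5 : Mf ≤ ((MK + e) / M) * (Mf + Mo) := by
    rw [div_mul_eq_mul_div, le_div_iff₀ hMpos]
    exact h1
  refine h5.trans ?_
  apply mul_le_mul_of_nonneg_right _ (by linarith)
  have h6 : e / M ≤ c5 S * ε := by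
    rw [div_le_iff₀ hMpos]
    have h7 : 8 * (ε * r) ≤ 3 * S.C * ε * M := by
      have h8 : 8 * r ≤ 3 * (S.C * M) := by nlinarith
      nlinarith
    have h9 : 3 * S.C * ε * M ≤ c5 S * ε * M := by
      have : 3 * S.C ≤ c5 S := by
        have := c3_ge S
        have := c4_ge S
        unfold c5; linarith
      have h10 : 0 ≤ ε * M := by positivity
      nlinarith
    linarith
  rw [add_div]
  linarith

theorem drop_rel (H : Hyp S ε F D K K2 P t0 t1 γ X l0 p m) (hε : c4 S * ε ≤ 1 / 4) {t : ℝ}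
    (h0 : t0 ≤ t) (ht : t ≤ t1) : 1 - AA S D P t / volume.real D ≤ c4 S * ε := by
  have hA := H.area
  have h1 := H.drop_le h0 ht (fun τ hτ => by
    have := H.AA_half hε hτ.1 (hτ.2.trans ht)
    linarith)
  have hr2 := H.r2
  have hpi : (1 : ℝ) ≤ Real.pi := by linarith [Real.pi_gt_three]
  have hr2le : rad (volume.real D) ^ 2 ≤ volume.real D := by
    have : 1 * rad (volume.real D) ^ 2 ≤ Real.pi * rad (volume.real D) ^ 2 :=
      mul_le_mul_of_nonneg_right hpi (sq_nonneg _)
    linarith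
  have hc4 : 0 < c4 S := by linarith [c3_ge S, c4_ge S]
  have h2 : volume.real D - AA S D P t ≤ c4 S * ε * volume.real D := by
    refine h1.trans ?_
    apply mul_le_mul_of_nonneg_left hr2le
    have := H.εpos
    positivity
  rw [sub_le_iff_le_add, ← sub_le_iff_le_add', le_div_iff₀ hA]
  linarith

end Hyp

theorem bracket_front (S : Dat) : ∃ CB : ℝ, 0 < CB ∧ ∀ (ε : ℝ) (F : Finset (ℂ × ℝ))
    (D K K2 : Set ℂ) (P : Finset ℂ) (t0 t1 γ X l0 p : ℝ) (m : ℤ),
    Hyp S ε F D K K2 P t0 t1 γ X l0 p m → c4 S * ε ≤ 1 / 4 → ∀ t ∈ Icc t0 t1,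
    -(CB * (ε * VV S D P t + |(m : ℝ)| * (1 - AA S D P t / volume.real D)
      * rad (volume.real D))) ≤
      (kF S.E (AA S D P t) - dF S.E (AA S D P t)) / (2 * Real.pi * rad (AA S D P t)) *
        VV S D P t * (t * Th D P S.v t + S.M F D K2) - kF S.E (AA S D P t) * LL S D P t
        + 2 * Real.pi * m * aF S.E (AA S D P t) := by
  obtain ⟨CB, hCB, hbr⟩ := bracket S.hX S.E_pos (c5_one S) (c6_pos S)
  refine ⟨CB, hCB, ?_⟩
  intro ε F D K K2 P t0 t1 γ X l0 p m H hε t ht
  have hC := C_pos S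
  have hA := H.area
  have ht0 : 0 ≤ t := H.fr.t0pos.le.trans ht.1
  obtain ⟨hL0, hV0, hT0, hLV, hVL, hML, hLM⟩ := comp_front S (D := D) (P := P) ht0
  have hpos : ∀ τ ∈ Icc t0 t, 0 < AA S D P τ := fun τ hτ => by
    have := H.AA_half hε hτ.1 (hτ.2.trans ht.2)
    linarith
  have hMf := H.Mf_le ht.1 ht.2 hpos
  have hhalf := H.AA_half hε ht.1 ht.2
  have hApos : 0 < AA S D P t := by linarith
  obtain ⟨hp1, hp2, hl0⟩ := H.p_ge
  have hMf0 : 0 ≤ t * Th D P S.v t := mul_nonneg ht0 hT0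
  have hc34 := c4_ge S
  have hc3 := c3_ge S
  refine hbr (volume.real D) (AA S D P t) ε (LL S D P t) (VV S D P t) (t * Th D P S.v t)
    (S.M F D K2) p l0 m hA (area_le H.sub) hhalf (H.AA_le t) H.εpos H.ε1 ?_ hL0 hV0 hMf0
    (M_nonneg H.reg) (cs_front S ht0) ?_ ?_ hp1 hl0 ?_ (H.share hMf0 hMf.1) H.good
  · refine (H.drop_rel hε ht.1 ht.2).trans ?_
    apply mul_le_mul_of_nonneg_right _ H.εpos.le
    unfold c5; linarith
  · refine hLV.trans (mul_le_mul_of_nonneg_right ?_ hV0)
    unfold c5; linarith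
  · refine hMf.2.trans (mul_le_mul_of_nonneg_right ?_ H.rpos.le)
    unfold c5; linarith
  · rcases H.type with h | h
    · rw [h.2.2.1, zero_mul]; exact hL0
    · rw [h.2.2.1, ← LL_eq]
      exact iso_front H.reg H.fr h.1 ht hApos

end Pool.Agent.FKM
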