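import Mathlib
import Pool.Agent.Helper13.FKM.GrowC

/-!
FKM-43: the integrated growth inequality
-/

set_option autoImplicit false

open Complex MeasureTheory Set Metric Filter
open scoped ComplexConjugate Topology

namespace Pool.Agent.FKM

variable {S : Dat} {ε : ℝ} {F : Finset (ℂ × ℝ)} {D K K2 : Set ℂ} {P : Finset ℂ}
  {t0 t1 γ X l0 p : ℝ} {m : ℤ}

/-- derivative of the profile function -/
noncomputable def daF (E A : ℝ) : ℝ := (kF E A - dF E A) / (2 * Real.pi * rad A)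

/-- the integrand -/
noncomputable def JJ (S : Dat) (D : Set ℂ) (P : Finset ℂ) (C3 X Mo t : ℝ) : ℝ :=
  2 * aF S.E (AA S D P t) * PsiO S D P t - kF S.E (AA S D P t) * LL S D P t
    - C3 * t * LL S D P t
    + daF S.E (AA S D P t) * VV S D P t * (t * Th D P S.v t + Mo)
    - 2 * Real.pi * X * aF S.E (AA S D P t)

theorem continuous_rad : Continuous rad := by
  unfold rad
  exact Real.continuous_sqrt.comp (continuous_id.div_const _)

namespace Hyp

theorem area_ok (H : Hyp S ε F D K K2 P t0 t1 γ X l0 p m) {A : ℝ} (h : A ≤ volume.real D) :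
    S.E ^ 2 * A ≤ Real.pi * S.X ^ 2 :=
  (mul_le_mul_of_nonneg_left h (sq_nonneg _)).trans (area_le H.sub)

theorem AA_pos (H : Hyp S ε F D K K2 P t0 t1 γ X l0 p m) (hε : c4 S * ε ≤ 1 / 4) {t : ℝ}
    (ht : t ∈ Icc t0 t1) : 0 < AA S D P t := by
  have := H.AA_half hε ht.1 ht.2
  have := H.area
  linarith

theorem cont_aF (H : Hyp S ε F D K K2 P t0 t1 γ X l0 p m) (hε : c4 S * ε ≤ 1 / 4) :
    ContinuousOn (fun t => aF S.E (AA S D P t)) (Icc t0 t1) := by
  intro t ht
  have h1 := (area_cont S H.fr).1 t ht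
  have h2 := (aF_deriv S.hX S.E_pos (H.AA_pos hε ht) (H.area_ok (H.AA_le t))).continuousAt
  exact ContinuousAt.comp_continuousWithinAt h2 h1

theorem cont_JJ (H : Hyp S ε F D K K2 P t0 t1 γ X l0 p m) (hε : c4 S * ε ≤ 1 / 4)
    (C3 Mo : ℝ) : ContinuousOn (JJ S D P C3 X Mo) (Icc t0 t1) := by
  have ha := H.cont_aF hε
  obtain ⟨hT, hL, hV, hΨ, _⟩ := cont_front S H.fr
  have hAc := (area_cont S H.fr).1
  have hk : ContinuousOn (fun t => kF S.E (AA S D P t)) (Icc t0 t1) := by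
    unfold kF
    exact continuousOn_const.add (ha.pow 2)
  have hr : ContinuousOn (fun t => rad (AA S D P t)) (Icc t0 t1) :=
    continuous_rad.comp_continuousOn hAc
  have hr0 : ∀ t ∈ Icc t0 t1, rad (AA S D P t) ≠ 0 := fun t ht =>
    (rad_pos (H.AA_pos hε ht)).1.ne'
  have hd : ContinuousOn (fun t => dF S.E (AA S D P t)) (Icc t0 t1) := by
    unfold dF
    exact ha.div hr hr0
  have hda : ContinuousOn (fun t => daF S.E (AA S D P t)) (Icc t0 t1) := by
    unfold daF
    apply (hk.sub hd).div (continuousOn_const.mul hr)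
    intro t ht
    exact mul_ne_zero (mul_ne_zero two_ne_zero Real.pi_pos.ne') (hr0 t ht)
  unfold JJ
  have hid : ContinuousOn (fun t : ℝ => t) (Icc t0 t1) := continuousOn_id
  exact ((((continuousOn_const.mul ha).mul hΨ).sub (hk.mul hL)).sub
    ((continuousOn_const.mul hid).mul hL)).add ((hda.mul hV).mul ((hid.mul hT).add
    continuousOn_const)) |>.sub (continuousOn_const.mul ha)

end Hyp

theorem G_int (S : Dat) : ∃ C3 : ℝ, 0 < C3 ∧ ∀ (ε : ℝ) (F : Finset (ℂ × ℝ))
    (D K K2 : Set ℂ) (P : Finset ℂ) (t0 t1 γ X l0 p : ℝ) (m : ℤ),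
    Hyp S ε F D K K2 P t0 t1 γ X l0 p m → c4 S * ε ≤ 1 / 4 →
    IP S D P t1 + aF S.E (AA S D P t1) * (t1 * Th D P S.v t1 + S.M F D K2)
      + ∫ t in t0..t1, JJ S D P C3 X (S.M F D K2) t ≤
    IP S D P t0 + aF S.E (AA S D P t0) * (t0 * Th D P S.v t0 + S.M F D K2) := by
  obtain ⟨C3, hC3, hP⟩ := P_low S
  refine ⟨C3, hC3, ?_⟩
  intro ε F D K K2 P t0 t1 γ X l0 p m H hε
  set Mo := S.M F D K2 with hMo
  have ht01 := H.fr.t01
  have hX : (Bornology.IsBounded K ∧ X = 1) ∨ (Bornology.IsBounded Kᶜ ∧ X = -1) := by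
    rcases H.type with h | h
    · exact Or.inl ⟨h.1, h.2.1⟩
    · exact Or.inr ⟨h.1, h.2.1⟩
  obtain ⟨T, hT⟩ := star H.fr H.conn hX
  have hcJ := H.cont_JJ hε C3 Mo
  have hint : IntervalIntegrable (JJ S D P C3 X Mo) volume t0 t1 := by
    apply ContinuousOn.intervalIntegrable
    rw [uIcc_of_le ht01]
    exact hcJ
  obtain ⟨hTc, hLc, hVc, hΨc, hPc⟩ := cont_front S H.fr
  have hid : ContinuousOn (fun t : ℝ => t) (Icc t0 t1) := continuousOn_id
  set G : ℝ → ℝ := fun t => IP S D P t + aF S.E (AA S D P t) * (t * Th D P S.v t + Mo) with hG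
  have hGc : ContinuousOn G (Icc t0 t1) :=
    (area_cont S H.fr).2.add ((H.cont_aF hε).mul ((hid.mul hTc).add continuousOn_const))
  have hIc : ContinuousOn (fun t => ∫ τ in t0..t, JJ S D P C3 X Mo τ) (Icc t0 t1) := by
    have := intervalIntegral.continuousOn_primitive_interval (f := JJ S D P C3 X Mo)
      (μ := volume) (a := t0) (b := t1) (by
        rw [uIcc_of_le ht01]
        exact hcJ.integrableOn_Icc)
    rw [uIcc_of_le ht01] at this
    exact this
  have key := le_of_off_finite (f := fun t => G t + ∫ τ in t0..t, JJ S D P C3 X Mo τ) T ht01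
    (hGc.add hIc) ?_
  · simp only [intervalIntegral.integral_same, add_zero] at key
    exact key
  intro t ht htT
  have htI : t ∈ Icc t0 t1 := ⟨ht.1.le, ht.2.le⟩
  have hApos := H.AA_pos hε htI
  have hne : (D \ Ut P S.v t).Nonempty := by
    by_contra h
    rw [not_nonempty_iff_eq_empty] at h
    unfold AA at hApos
    rw [h] at hApos
    simp at hApos
  obtain ⟨μ, hμ, hμ2⟩ := hT t ht htT (Or.inr hne)
  obtain ⟨hA', hI'⟩ := area_deriv S H.fr ht
  have ha' : HasDerivAt (aF S.E) (daF S.E (AA S D P t)) (AA S D P t) :=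
    aF_deriv S.hX S.E_pos hApos (H.area_ok (H.AA_le t))
  have hcomp : HasDerivAt (fun τ => aF S.E (AA S D P τ))
      (daF S.E (AA S D P t) * (-(VV S D P t))) t := ha'.comp t hA'
  have hGd : HasDerivAt G (-(PPf S D P t) + (daF S.E (AA S D P t) * (-(VV S D P t)) *
      (t * Th D P S.v t + Mo) + aF S.E (AA S D P t) * μ)) t :=
    hI'.add (hcomp.mul (hμ.add_const Mo))
  have hJd : HasDerivAt (fun t => ∫ τ in t0..t, JJ S D P C3 X Mo τ) (JJ S D P C3 X Mo t) t := by
    apply intervalIntegral.integral_hasDerivAt_right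
    · apply ContinuousOn.intervalIntegrable
      rw [uIcc_of_le ht.1.le]
      exact hcJ.mono (Icc_subset_Icc le_rfl ht.2.le)
    · exact (hcJ.mono Ioo_subset_Icc_self).stronglyMeasurableAtFilter isOpen_Ioo t ht
    · exact hcJ.continuousAt (Icc_mem_nhds ht.1 ht.2)
  refine ⟨_, hGd.add hJd, ?_⟩
  have h1 := hP D P t (aF S.E (AA S D P t)) H.reg.op H.sub H.hP (H.fr.t0pos.le.trans ht.1.le)
    (ht.2.le.trans H.t1one)
  have ha0 : 0 ≤ aF S.E (AA S D P t) :=
    (aF_bounds S.hX S.E_pos hApos (H.area_ok (H.AA_le t))).1.le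
  have h2 : aF S.E (AA S D P t) * μ ≤ aF S.E (AA S D P t) * (2 * Real.pi * X) :=
    mul_le_mul_of_nonneg_left hμ2 ha0
  unfold JJ kF
  nlinarith

end Pool.Agent.FKM
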