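import Mathlib
import Pool.Agent.Helper13.FKM.GrowD

/-!
FKM-44: the growth estimate
-/

set_option autoImplicit false

open Complex MeasureTheory Set Metric Filter
open scoped ComplexConjugate Topology

namespace Pool.Agent.FKM

variable {S : Dat} {ε : ℝ} {F : Finset (ℂ × ℝ)} {D K K2 : Set ℂ} {P : Finset ℂ}
  {t0 t1 γ X l0 p : ℝ} {m : ℤ}

namespace Hyp

theorem Er (H : Hyp S ε F D K K2 P t0 t1 γ X l0 p m) : S.E * rad (volume.real D) ≤ S.X := by
  have h1 := area_le H.sub
  rw [← H.r2] at h1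
  have hr := H.rpos
  have hE := S.E_pos
  have hX := S.hX.pos
  have hpi := Real.pi_pos
  have h2 : (S.E * rad (volume.real D)) ^ 2 ≤ S.X ^ 2 := by
    have h3 : Real.pi * (S.E * rad (volume.real D)) ^ 2 ≤ Real.pi * S.X ^ 2 := by
      have e : Real.pi * (S.E * rad (volume.real D)) ^ 2 =
        S.E ^ 2 * (Real.pi * rad (volume.real D) ^ 2) := by ring
      rw [e]
      rw [H.r2] at h1 ⊢
      exact h1
    exact le_of_mul_le_mul_left h3 hpi
  exact le_of_sq_le_sq h2 hX.le

theorem r_le (H : Hyp S ε F D K K2 P t0 t1 γ X l0 p m) :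
    rad (volume.real D) ≤ S.X / S.E := by
  rw [le_div_iff₀ S.E_pos, mul_comm]
  exact H.Er

/-- variation of the profile function along the front -/
theorem aF_var (H : Hyp S ε F D K K2 P t0 t1 γ X l0 p m) (hε : c4 S * ε ≤ 1 / 4) {t : ℝ}
    (ht : t ∈ Icc t0 t1) :
    0 ≤ aF S.E (AA S D P t1) ∧ aF S.E (AA S D P t1) ≤ aF S.E (AA S D P t) ∧
      aF S.E (AA S D P t) ≤ S.E ∧
      aF S.E (AA S D P t) - aF S.E (AA S D P t1) ≤
        S.E ^ 2 / rad (volume.real D) * (volume.real D - AA S D P t1) := by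
  have ht1 : t1 ∈ Icc t0 t1 := ⟨H.fr.t01, le_rfl⟩
  have hA := H.area
  have hA1 := H.AA_pos hε ht1
  have hAt := H.AA_pos hε ht
  have hanti := H.AA_anti ht.2
  have hmono := aF_mono S.hX S.E_pos hA1.le hanti (H.area_ok (H.AA_le t))
  have hb := aF_bounds S.hX S.E_pos hAt (H.area_ok (H.AA_le t))
  refine ⟨hmono.1, hmono.2, hb.2.1, ?_⟩
  have hr := H.rpos
  have hhalf := H.AA_half hε ht1.1 ht1.2
  have hder : ∀ A' ∈ Icc (AA S D P t1) (AA S D P t),
      HasDerivWithinAt (aF S.E) (daF S.E A') (Icc (AA S D P t1) (AA S D P t)) A' := by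
    intro A' hA'
    exact (aF_deriv S.hX S.E_pos (hA1.trans_le hA'.1)
      (H.area_ok (hA'.2.trans (H.AA_le t)))).hasDerivWithinAt
  have hbd : ∀ A' ∈ Icc (AA S D P t1) (AA S D P t), ‖daF S.E A'‖ ≤
      S.E ^ 2 / rad (volume.real D) := by
    intro A' hA'
    have hA'pos := hA1.trans_le hA'.1
    have hb' := aF_bounds S.hX S.E_pos hA'pos (H.area_ok (hA'.2.trans (H.AA_le t)))
    obtain ⟨hr', hr2'⟩ := rad_pos hA'pos
    have hE := S.E_pos
    have hpi := Real.pi_pos
    have hrr : rad (volume.real D) ≤ 2 * rad A' := by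
      have h1 : rad (volume.real D) ^ 2 ≤ (2 * rad A') ^ 2 := by
        have h2 : Real.pi * rad (volume.real D) ^ 2 ≤ Real.pi * (2 * rad A') ^ 2 := by
          rw [H.r2]
          have : Real.pi * (2 * rad A') ^ 2 = 4 * (Real.pi * rad A' ^ 2) := by ring
          rw [this, hr2']
          have := hA'.1
          linarith
        exact le_of_mul_le_mul_left h2 hpi
      exact le_of_sq_le_sq h1 (by positivity)
    have hnn : 0 ≤ daF S.E A' := by
      unfold daF
      apply div_nonneg _ (by positivity)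
      linarith [hb'.2.2.1, hb'.2.2.2.1, sq_nonneg S.E]
    rw [Real.norm_eq_abs, abs_of_nonneg hnn]
    unfold daF
    rw [div_le_div_iff₀ (by positivity) hr]
    have h3 : kF S.E A' - dF S.E A' ≤ 2 * S.E ^ 2 := by
      linarith [hb'.2.2.2.2.2.2, hb'.2.2.2.1, sq_nonneg S.E]
    calc (kF S.E A' - dF S.E A') * rad (volume.real D) ≤ 2 * S.E ^ 2 * (2 * rad A') := by
          apply mul_le_mul h3 hrr hr.le (by positivity)
      _ ≤ S.E ^ 2 * (2 * Real.pi * rad A') := by
          have hpi2 : 2 ≤ Real.pi := by linarith [Real.pi_gt_three]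
          have : 0 ≤ S.E ^ 2 * rad A' := by positivity
          nlinarith
  have hmv := (convex_Icc (AA S D P t1) (AA S D P t)).norm_image_sub_le_of_norm_hasDerivWithin_le
    hder hbd ⟨le_rfl, hanti⟩ ⟨hanti, le_rfl⟩
  rw [Real.norm_eq_abs, Real.norm_eq_abs, abs_of_nonneg (by linarith [hmono.2]),
    abs_of_nonneg (by linarith)] at hmv
  refine hmv.trans ?_
  apply mul_le_mul_of_nonneg_left _ (by have := S.E_pos; positivity)
  linarith [H.AA_le t]

/-- the circulation and the index are bounded -/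
theorem w_le (H : Hyp S ε F D K K2 P t0 t1 γ X l0 p m) (hε : c4 S * ε ≤ 1 / 4) :
    |PsiO S D P t1 + S.w F D K| ≤ 2 * S.C * LL S D P t1 ∧
      LL S D P t1 ≤ S.C * (c3 S * rad (volume.real D)) ∧
      |(m : ℝ)| ≤ 1 + S.C ^ 2 * c3 S * (S.X / S.E) := by
  have ht1 : t1 ∈ Icc t0 t1 := ⟨H.fr.t01, le_rfl⟩
  have ht10 : 0 ≤ t1 := H.fr.t0pos.le.trans H.fr.t01
  have h1 := PsiO_le S H.reg.op (P := P) ht10
  have h2 := flux_front S H.reg H.sub H.fr ht1
  rw [h2] at h1
  obtain ⟨hL0, hV0, hT0, hLV, hVL, hML, hLM⟩ := comp_front S (D := D) (P := P) ht10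
  have hMf := H.Mf_le H.fr.t01 le_rfl (fun τ hτ => H.AA_pos hε hτ)
  have hC := C_pos S
  have hL : LL S D P t1 ≤ S.C * (c3 S * rad (volume.real D)) :=
    hLM.trans (mul_le_mul_of_nonneg_left hMf.2 hC.le)
  refine ⟨?_, hL, ?_⟩
  · calc |PsiO S D P t1 + S.w F D K| ≤ |PsiO S D P t1| + |S.w F D K| := abs_add_le _ _
      _ ≤ 2 * S.C * LL S D P t1 := by linarith [h1.1, h1.2]
  · have h3 : 2 * Real.pi * |(m : ℝ)| ≤ 2 * Real.pi + 2 * (S.C * LL S D P t1) := by
      have h4 : 2 * Real.pi * |(m : ℝ)| = |2 * Real.pi * m| := by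
        rw [abs_mul, abs_of_pos (by positivity : (0:ℝ) < 2 * Real.pi)]
      rw [h4, H.idx]
      have h5 : |X| ≤ 1 := by
        rcases H.type with h | h
        · rw [h.2.1]; norm_num
        · rw [h.2.1]; norm_num
      have h6 : |2 * Real.pi * X| ≤ 2 * Real.pi := by
        rw [abs_mul, abs_of_pos (by positivity : (0:ℝ) < 2 * Real.pi)]
        have := Real.pi_pos
        nlinarith
      calc |(-2) * Real.pi * X - 2 * S.w F D K| ≤ |2 * Real.pi * X| + 2 * |S.w F D K| := by
            have e : (-2) * Real.pi * X - 2 * S.w F D K =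
              -(2 * Real.pi * X) + -(2 * S.w F D K) := by ring
            rw [e]
            refine (abs_add_le _ _).trans ?_
            rw [abs_neg, abs_neg, abs_mul 2 (S.w F D K), abs_of_pos (by norm_num : (0:ℝ) < 2)]
        _ ≤ _ := by linarith [h1.2]
    have hr := H.r_le
    have hr0 := H.rpos
    have hpi := Real.pi_gt_three
    have hc3 := c3_ge S
    have h7 : S.C * LL S D P t1 ≤ S.C ^ 2 * c3 S * (S.X / S.E) := by
      calc S.C * LL S D P t1 ≤ S.C * (S.C * (c3 S * rad (volume.real D))) :=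
            mul_le_mul_of_nonneg_left hL hC.le
        _ = S.C ^ 2 * c3 S * rad (volume.real D) := by ring
        _ ≤ _ := by
            apply mul_le_mul_of_nonneg_left hr
            positivity
    have h8 : 0 ≤ S.C * LL S D P t1 := mul_nonneg hC.le hL0
    by_contra hcon
    push Not at hcon
    nlinarith [mul_pos (show (0:ℝ) < Real.pi by positivity) (sub_pos.2 hcon)]

/-- bound of the length at the end -/
theorem L_end (H : Hyp S ε F D K K2 P t0 t1 γ X l0 p m) (hε : c4 S * ε ≤ 1 / 4) :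
    t1 * LL S D P t1 ≤ S.C * (t0 * (c3 S * rad (volume.real D)) +
      S.C ^ 2 * (volume.real D - AA S D P t1) + 2 * Real.pi * t1 ^ 2) := by
  have ht10 : 0 ≤ t1 := H.fr.t0pos.le.trans H.fr.t01
  obtain ⟨hL0, hV0, hT0, hLV, hVL, hML, hLM⟩ := comp_front S (D := D) (P := P) ht10
  have hMf := H.Mf_le H.fr.t01 le_rfl (fun τ hτ => H.AA_pos hε hτ)
  have hC := C_pos S
  have h01 := H.fr.t01
  have ht0 := H.fr.t0pos
  have hpi := Real.pi_pos
  have hpt : ∀ t ∈ Icc t0 t1, t1 * Th D P S.v t1 ≤ S.C ^ 2 * VV S D P t + 2 * Real.pi * t1 := by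
    intro t ht
    have hg := H.growth1 ht.1 ht.2 le_rfl (fun τ hτ => H.AA_pos hε ⟨ht.1.trans hτ.1, hτ.2⟩)
    have htp : 0 ≤ t := ht0.le.trans ht.1
    obtain ⟨hL0', hV0', hT0', hLV', hVL', hML', hLM'⟩ := comp_front S (D := D) (P := P) htp
    have h1 : t * Th D P S.v t ≤ S.C ^ 2 * VV S D P t := by
      calc t * Th D P S.v t ≤ S.C * LL S D P t := hML'
        _ ≤ S.C * (S.C * VV S D P t) := mul_le_mul_of_nonneg_left hLV' hC.le
        _ = _ := by ring
    have h2 : 2 * Real.pi * (t1 - t) ≤ 2 * Real.pi * t1 :=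
      mul_le_mul_of_nonneg_left (by linarith) (by positivity)
    linarith
  have hint : (t1 - t0) * (t1 * Th D P S.v t1) ≤
      S.C ^ 2 * (AA S D P t0 - AA S D P t1) + (t1 - t0) * (2 * Real.pi * t1) := by
    have h1 := (area_int S H.fr le_rfl h01 le_rfl).1
    have hVc := (cont_front S H.fr).2.2.1
    have hVi : IntervalIntegrable (VV S D P) volume t0 t1 := by
      apply ContinuousOn.intervalIntegrable
      rw [uIcc_of_le h01]; exact hVc
    have h2 : ∫ t in t0..t1, (t1 * Th D P S.v t1) ≤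
        ∫ t in t0..t1, (S.C ^ 2 * VV S D P t + 2 * Real.pi * t1) := by
      apply intervalIntegral.integral_mono_on h01 intervalIntegrable_const
      · exact (hVi.const_mul _).add intervalIntegrable_const
      · exact hpt
    rw [intervalIntegral.integral_const, smul_eq_mul,
      intervalIntegral.integral_add (hVi.const_mul _) intervalIntegrable_const,
      intervalIntegral.integral_const_mul, intervalIntegral.integral_const, smul_eq_mul, ← h1] at h2
    exact h2
  have hAA := H.AA_le t0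
  have h3 : t1 * (t1 * Th D P S.v t1) ≤ t0 * (c3 S * rad (volume.real D)) +
      S.C ^ 2 * (volume.real D - AA S D P t1) + 2 * Real.pi * t1 ^ 2 := by
    have h4 : t0 * (t1 * Th D P S.v t1) ≤ t0 * (c3 S * rad (volume.real D)) :=
      mul_le_mul_of_nonneg_left hMf.2 ht0.le
    have h5 : S.C ^ 2 * (AA S D P t0 - AA S D P t1) ≤
        S.C ^ 2 * (volume.real D - AA S D P t1) :=
      mul_le_mul_of_nonneg_left (by linarith) (by positivity)
    have h6 : (t1 - t0) * (2 * Real.pi * t1) ≤ 2 * Real.pi * t1 ^ 2 := by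
      have : 0 ≤ t0 * (2 * Real.pi * t1) := by positivity
      nlinarith
    nlinarith
  calc t1 * LL S D P t1 ≤ t1 * (S.C * (t1 * Th D P S.v t1)) :=
        mul_le_mul_of_nonneg_left hLM ht10
    _ = S.C * (t1 * (t1 * Th D P S.v t1)) := by ring
    _ ≤ _ := mul_le_mul_of_nonneg_left h3 hC.le

/-- the functional at the starting time -/
theorem start_le (H : Hyp S ε F D K K2 P t0 t1 γ X l0 p m) (hε : c4 S * ε ≤ 1 / 4) :
    IP S D P t0 + aF S.E (AA S D P t0) * (t0 * Th D P S.v t0 + S.M F D K2) ≤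
      S.Q F D + (S.C + S.E) * γ := by
  have ht0 : t0 ∈ Icc t0 t1 := ⟨le_rfl, H.fr.t01⟩
  have hPi : IntegrableOn S.P D := by
    have hc : IsCompact (closure D) := H.reg.bdd.isCompact_closure
    exact (S.P_cont.continuousOn.integrableOn_compact hc).mono_set subset_closure
  have h1 : (∫ z in D ∩ Ut P S.v t0, S.P z) + (∫ z in D \ Ut P S.v t0, S.P z) =
      ∫ z in D, S.P z :=
    integral_inter_add_diff (isClosed_Ut P S.v t0).measurableSet hPi
  have h2 : -(S.C * γ) ≤ ∫ z in D ∩ Ut P S.v t0, S.P z := by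
    have h3 : ‖∫ z in D ∩ Ut P S.v t0, S.P z‖ ≤ S.C * volume.real (D ∩ Ut P S.v t0) := by
      apply norm_setIntegral_le_of_norm_le_const
      · exact (measure_mono inter_subset_left).trans_lt H.reg.bdd.measure_lt_top
      · intro z _
        rw [Real.norm_eq_abs]; exact S.P_le z
    rw [Real.norm_eq_abs] at h3
    have h4 := (abs_le.1 h3).1
    have h5 : S.C * volume.real (D ∩ Ut P S.v t0) ≤ S.C * γ :=
      mul_le_mul_of_nonneg_left H.vol (C_pos S).le
    linarith
  have hA := H.area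
  have hb := aF_bounds S.hX S.E_pos hA (area_le H.sub)
  have hmono := aF_mono S.hX S.E_pos (H.AA_pos hε ht0).le (H.AA_le t0) (area_le H.sub)
  have hM : t0 * Th D P S.v t0 + S.M F D K2 ≤ bInt F D (fun z _ => S.g z) + γ := by
    rw [H.Mtot]; linarith [H.start]
  have hM0 : 0 ≤ t0 * Th D P S.v t0 + S.M F D K2 := by
    have h6 : 0 ≤ S.M F D K2 := M_nonneg H.reg
    have h7 := (comp_front S (D := D) (P := P) H.fr.t0pos.le).2.2.1
    have := mul_nonneg H.fr.t0pos.le h7
    linarith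
  have h8 : aF S.E (AA S D P t0) * (t0 * Th D P S.v t0 + S.M F D K2) ≤
      aF S.E (volume.real D) * (bInt F D (fun z _ => S.g z) + γ) :=
    mul_le_mul hmono.2 hM hM0 (hmono.1.trans hmono.2)
  have h9 : aF S.E (volume.real D) * γ ≤ S.E * γ :=
    mul_le_mul_of_nonneg_right hb.2.1 H.γpos.le
  unfold Dat.Q QQ
  have h10 : IP S D P t0 = ∫ z in D \ Ut P S.v t0, S.P z := rfl
  nlinarith

end Hyp

end Pool.Agent.FKM
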