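import Mathlib
import Pool.Agent.Helper13.FKM.GrowE

/-!
FKM-45: the growth estimate (final form)
-/

set_option autoImplicit false

open Complex MeasureTheory Set Metric Filter
open scoped ComplexConjugate Topology

namespace Pool.Agent.FKM

variable {S : Dat} {ε : ℝ} {F : Finset (ℂ × ℝ)} {D K K2 : Set ℂ} {P : Finset ℂ}
  {t0 t1 γ X l0 p : ℝ} {m : ℤ}

/-- lower bound of the integrand -/
theorem J_point {CB C3 : ℝ} (hCB : 0 < CB) (hC3 : 0 < C3)
    (H : Hyp S ε F D K K2 P t0 t1 γ X l0 p m) (hε : c4 S * ε ≤ 1 / 4) {t : ℝ}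
    (ht : t ∈ Icc t0 t1)
    (hbr : -(CB * (ε * VV S D P t + |(m : ℝ)| * (1 - AA S D P t / volume.real D)
      * rad (volume.real D))) ≤
      (kF S.E (AA S D P t) - dF S.E (AA S D P t)) / (2 * Real.pi * rad (AA S D P t)) *
        VV S D P t * (t * Th D P S.v t + S.M F D K2) - kF S.E (AA S D P t) * LL S D P t
        + 2 * Real.pi * m * aF S.E (AA S D P t)) :
    2 * aF S.E (AA S D P t) * (PsiO S D P t1 + S.w F D K)
      - (CB * ε + C3 * S.C * t1) * VV S D P t
      - (CB * |(m : ℝ)| * ((volume.real D - AA S D P t1) / volume.real D) * rad (volume.real D)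
        + 2 * S.E * S.C * (volume.real D - AA S D P t1)) ≤
      JJ S D P C3 X (S.M F D K2) t := by
  have hC := C_pos S
  have hA := H.area
  have hr := H.rpos
  have hE := S.E_pos
  have ht0 : 0 ≤ t := H.fr.t0pos.le.trans ht.1
  obtain ⟨hL0, hV0, hT0, hLV, hVL, hML, hLM⟩ := comp_front S (D := D) (P := P) ht0
  obtain ⟨ha1, ha2, ha3, _⟩ := H.aF_var hε ht
  have hflux := flux_Om S H.reg H.fr ht.1 ht.2 le_rfl
  have hanti := H.AA_anti ht.2
  have hAAle := H.AA_le t
  set a := aF S.E (AA S D P t) with ha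
  have ha0 : 0 ≤ a := ha1.trans ha2
  set Δ := volume.real D - AA S D P t1 with hΔ
  have hΔ0 : 0 ≤ Δ := by rw [hΔ]; linarith
  have hw : 2 * Real.pi * m = -2 * Real.pi * X - 2 * S.w F D K := H.idx
  have hΨ : PsiO S D P t1 - S.C * Δ ≤ PsiO S D P t := by
    have h1 : |PsiO S D P t - PsiO S D P t1| ≤
        S.C * (AA S D P t - AA S D P t1) := hflux
    have h2 := (abs_le.1 h1).1
    have h3 : S.C * (AA S D P t - AA S D P t1) ≤ S.C * Δ :=
      mul_le_mul_of_nonneg_left (by rw [hΔ]; linarith) hC.le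
    linarith
  have h4 : 2 * a * (PsiO S D P t1 - S.C * Δ) ≤ 2 * a * PsiO S D P t :=
    mul_le_mul_of_nonneg_left hΨ (by positivity)
  have h5 : 2 * a * (S.C * Δ) ≤ 2 * S.E * S.C * Δ := by
    have : 0 ≤ S.C * Δ := by positivity
    nlinarith
  have h6 : C3 * t * LL S D P t ≤ C3 * S.C * t1 * VV S D P t := by
    have h7 : t * LL S D P t ≤ t1 * (S.C * VV S D P t) :=
      mul_le_mul ht.2 hLV hL0 (ht0.trans ht.2)
    nlinarith
  have h8 : CB * (|(m : ℝ)| * (1 - AA S D P t / volume.real D) * rad (volume.real D)) ≤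
      CB * |(m : ℝ)| * (Δ / volume.real D) * rad (volume.real D) := by
    have h9 : 1 - AA S D P t / volume.real D ≤ Δ / volume.real D := by
      rw [hΔ, sub_div, div_self hA.ne']
      have : AA S D P t1 / volume.real D ≤ AA S D P t / volume.real D := by gcongr
      linarith
    have h10 : |(m : ℝ)| * (1 - AA S D P t / volume.real D) ≤ |(m : ℝ)| * (Δ / volume.real D) :=
      mul_le_mul_of_nonneg_left h9 (abs_nonneg _)
    have h11 := mul_le_mul_of_nonneg_right h10 hr.le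
    have h12 := mul_le_mul_of_nonneg_left h11 hCB.le
    calc _ ≤ _ := h12
      _ = _ := by ring
  have hJ : JJ S D P C3 X (S.M F D K2) t =
      ((kF S.E (AA S D P t) - dF S.E (AA S D P t)) / (2 * Real.pi * rad (AA S D P t)) *
        VV S D P t * (t * Th D P S.v t + S.M F D K2) - kF S.E (AA S D P t) * LL S D P t
        + 2 * Real.pi * m * a) + 2 * a * PsiO S D P t + 2 * a * S.w F D K
        - C3 * t * LL S D P t := by
    unfold JJ daF
    rw [hw]; ring
  rw [hJ]
  have h13 : CB * (ε * VV S D P t + |(m : ℝ)| * (1 - AA S D P t / volume.real D)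
      * rad (volume.real D)) = CB * ε * VV S D P t +
      CB * (|(m : ℝ)| * (1 - AA S D P t / volume.real D) * rad (volume.real D)) := by ring
  rw [h13] at hbr
  nlinarith

/-- integrated lower bound -/
theorem J_int {CB C3 : ℝ} (hCB : 0 < CB) (hC3 : 0 < C3)
    (H : Hyp S ε F D K K2 P t0 t1 γ X l0 p m) (hε : c4 S * ε ≤ 1 / 4)
    (hbr : ∀ t ∈ Icc t0 t1,
      -(CB * (ε * VV S D P t + |(m : ℝ)| * (1 - AA S D P t / volume.real D)
        * rad (volume.real D))) ≤
      (kF S.E (AA S D P t) - dF S.E (AA S D P t)) / (2 * Real.pi * rad (AA S D P t)) *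
        VV S D P t * (t * Th D P S.v t + S.M F D K2) - kF S.E (AA S D P t) * LL S D P t
        + 2 * Real.pi * m * aF S.E (AA S D P t)) :
    2 * (PsiO S D P t1 + S.w F D K) * (∫ t in t0..t1, aF S.E (AA S D P t))
      - (CB * ε + C3 * S.C * t1) * (volume.real D - AA S D P t1)
      - t1 * (CB * |(m : ℝ)| * ((volume.real D - AA S D P t1) / volume.real D)
          * rad (volume.real D) + 2 * S.E * S.C * (volume.real D - AA S D P t1)) ≤
      ∫ t in t0..t1, JJ S D P C3 X (S.M F D K2) t := by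
  have hC := C_pos S
  have hE := S.E_pos
  have hA := H.area
  have hr := H.rpos
  have h01 := H.fr.t01
  have ht0 := H.fr.t0pos
  have hca := H.cont_aF hε
  have hcV := (cont_front S H.fr).2.2.1
  have hia : IntervalIntegrable (fun t => aF S.E (AA S D P t)) volume t0 t1 := by
    apply ContinuousOn.intervalIntegrable
    rw [uIcc_of_le h01]; exact hca
  have hiV : IntervalIntegrable (VV S D P) volume t0 t1 := by
    apply ContinuousOn.intervalIntegrable
    rw [uIcc_of_le h01]; exact hcV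
  have hiJ : IntervalIntegrable (JJ S D P C3 X (S.M F D K2)) volume t0 t1 := by
    apply ContinuousOn.intervalIntegrable
    rw [uIcc_of_le h01]; exact H.cont_JJ hε C3 _
  set Δ := volume.real D - AA S D P t1 with hΔ
  set E0 := CB * |(m : ℝ)| * (Δ / volume.real D) * rad (volume.real D)
        + 2 * S.E * S.C * Δ with hE0
  have hΔ0 : 0 ≤ Δ := by rw [hΔ]; linarith [H.AA_le t1]
  have hE00 : 0 ≤ E0 := by
    rw [hE0]
    have : 0 ≤ |(m : ℝ)| := abs_nonneg _
    positivity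
  set cV := CB * ε + C3 * S.C * t1 with hcV'
  have hcV0 : 0 ≤ cV := by
    have h1 := H.εpos
    have h2 : 0 ≤ t1 := ht0.le.trans h01
    rw [hcV']; positivity
  have hmono : ∫ t in t0..t1, (2 * aF S.E (AA S D P t) * (PsiO S D P t1 + S.w F D K)
      - cV * VV S D P t - E0) ≤ ∫ t in t0..t1, JJ S D P C3 X (S.M F D K2) t := by
    apply intervalIntegral.integral_mono_on h01 _ hiJ
    · intro t ht
      exact J_point hCB hC3 H hε ht (hbr t ht)
    · exact (((hia.const_mul 2).mul_const _).sub (hiV.const_mul _)).sub intervalIntegrable_const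
  refine le_trans ?_ hmono
  have hV := (area_int S H.fr le_rfl h01 le_rfl).1
  rw [intervalIntegral.integral_sub (((hia.const_mul 2).mul_const _).sub (hiV.const_mul _))
      intervalIntegrable_const,
    intervalIntegral.integral_sub ((hia.const_mul 2).mul_const _) (hiV.const_mul _),
    intervalIntegral.integral_mul_const, intervalIntegral.integral_const_mul,
    intervalIntegral.integral_const_mul, ← hV, intervalIntegral.integral_const, smul_eq_mul]
  have h1 : cV * (AA S D P t0 - AA S D P t1) ≤ cV * Δ :=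
    mul_le_mul_of_nonneg_left (by rw [hΔ]; linarith [H.AA_le t0]) hcV0
  have h2 : (t1 - t0) * E0 ≤ t1 * E0 := mul_le_mul_of_nonneg_right (by linarith) hE00
  linarith

/-- the integral of the profile function along the front -/
theorem a_int (H : Hyp S ε F D K K2 P t0 t1 γ X l0 p m) (hε : c4 S * ε ≤ 1 / 4) :
    |t1 * aF S.E (AA S D P t1) - ∫ t in t0..t1, aF S.E (AA S D P t)| ≤
      t0 * S.E + t1 * (S.E ^ 2 / rad (volume.real D) * (volume.real D - AA S D P t1)) := by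
  have hE := S.E_pos
  have hr := H.rpos
  have h01 := H.fr.t01
  have ht0 := H.fr.t0pos
  have hca := H.cont_aF hε
  have hia : IntervalIntegrable (fun t => aF S.E (AA S D P t)) volume t0 t1 := by
    apply ContinuousOn.intervalIntegrable
    rw [uIcc_of_le h01]; exact hca
  set Δ := volume.real D - AA S D P t1 with hΔ
  have hΔ0 : 0 ≤ Δ := by rw [hΔ]; linarith [H.AA_le t1]
  set a1 := aF S.E (AA S D P t1) with ha1
  set b := S.E ^ 2 / rad (volume.real D) * Δ with hb
  have hb0 : 0 ≤ b := by rw [hb]; positivity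
  have h1 : (t1 - t0) * a1 ≤ ∫ t in t0..t1, aF S.E (AA S D P t) := by
    have : ∫ t in t0..t1, a1 ≤ ∫ t in t0..t1, aF S.E (AA S D P t) :=
      intervalIntegral.integral_mono_on h01 intervalIntegrable_const hia
        (fun t ht => (H.aF_var hε ht).2.1)
    rw [intervalIntegral.integral_const, smul_eq_mul] at this
    exact this
  have h2 : ∫ t in t0..t1, aF S.E (AA S D P t) ≤ (t1 - t0) * (a1 + b) := by
    have : ∫ t in t0..t1, aF S.E (AA S D P t) ≤ ∫ t in t0..t1, (a1 + b) :=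
      intervalIntegral.integral_mono_on h01 hia intervalIntegrable_const
        (fun t ht => by
          have := (H.aF_var hε ht).2.2.2
          linarith)
    rw [intervalIntegral.integral_const, smul_eq_mul] at this
    exact this
  have ha1E : a1 ≤ S.E := by
    have := H.aF_var hε (t := t1) ⟨h01, le_rfl⟩
    exact this.2.2.1
  have ha10 : 0 ≤ a1 := (H.aF_var hε (t := t1) ⟨h01, le_rfl⟩).1
  have h3 : t0 * a1 ≤ t0 * S.E := mul_le_mul_of_nonneg_left ha1E ht0.le
  have h4 : (t1 - t0) * b ≤ t1 * b := mul_le_mul_of_nonneg_right (by linarith) hb0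
  have h5 : 0 ≤ t0 * a1 := mul_nonneg ht0.le ha10
  have h6 : 0 ≤ t1 * b := mul_nonneg (ht0.le.trans h01) hb0
  have h7 : 0 ≤ t0 * S.E := by positivity
  rw [abs_le]
  constructor
  · nlinarith
  · nlinarith

/-- **growth estimate** -/
theorem grow (S : Dat) : ∃ C0 : ℝ, 1 ≤ C0 ∧ ∀ (ε : ℝ) (F : Finset (ℂ × ℝ))
    (D K K2 : Set ℂ) (P : Finset ℂ) (t0 t1 γ X l0 p : ℝ) (m : ℤ),
    Hyp S ε F D K K2 P t0 t1 γ X l0 p m → c4 S * ε ≤ 1 / 4 →
    S.Q (Ft F P S.v t1) (D \ Ut P S.v t1) ≤ S.Q F D +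
      C0 * (ε * ((volume.real D - AA S D P t1) + t1 ^ 2) + γ + t0) := by
  obtain ⟨CB, hCB, hbr⟩ := bracket_front S
  obtain ⟨C3, hC3, hG⟩ := G_int S
  obtain ⟨C4, hC4, hgu⟩ := g_up S
  have hC := C_pos S
  have hE := S.E_pos
  have hX := S.hX.pos
  have hpi := Real.pi_pos
  have hc3 := c3_ge S
  set R0 := S.X / S.E with hR0
  have hR0p : 0 < R0 := by rw [hR0]; positivity
  set mm := 1 + S.C ^ 2 * c3 S * R0 with hmm
  have hmmp : 0 < mm := by rw [hmm]; positivity
  set B1 := CB + C3 * S.C * R0 with hB1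
  set B2 := CB * mm with hB2
  set B3 := 2 * S.E * S.C * R0 with hB3
  set B4 := 4 * S.C ^ 2 * c3 S * S.E ^ 2 * R0 with hB4
  set B5 := S.E * C4 * S.C ^ 3 * R0 with hB5
  set B6 := S.E * C4 * S.C * 2 * Real.pi * R0 with hB6
  set B7 := 4 * S.C ^ 2 * c3 S * S.X with hB7
  set B8 := C4 * S.C * c3 S * S.X with hB8
  set B9 := S.C + S.E with hB9
  have p1 : 0 < B1 := by rw [hB1]; positivity
  have p2 : 0 < B2 := by rw [hB2]; positivity
  have p3 : 0 < B3 := by rw [hB3]; positivity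
  have p4 : 0 < B4 := by rw [hB4]; positivity
  have p5 : 0 < B5 := by rw [hB5]; positivity
  have p6 : 0 < B6 := by rw [hB6]; positivity
  have p7 : 0 < B7 := by rw [hB7]; positivity
  have p8 : 0 < B8 := by rw [hB8]; positivity
  have p9 : 0 < B9 := by rw [hB9]; positivity
  refine ⟨1 + (B1 + B2 + B3 + B4 + B5) + B6 + (B7 + B8) + B9, by linarith, ?_⟩
  intro ε F D K K2 P t0 t1 γ X l0 p m H hε
  have hA := H.area
  have hr := H.rpos
  have hεp := H.εpos
  have h01 := H.fr.t01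
  have ht0 := H.fr.t0pos
  have ht10 : 0 < t1 := ht0.trans_le h01
  have ht1 : t1 ∈ Icc t0 t1 := ⟨h01, le_rfl⟩
  have hrR : rad (volume.real D) ≤ R0 := H.r_le
  have hEr := H.Er
  have hbr' := hbr ε F D K K2 P t0 t1 γ X l0 p m H hε
  have hG' := hG ε F D K K2 P t0 t1 γ X l0 p m H hε
  have hgu' := hgu F D K K2 P t0 t1 t1 H.reg H.sub H.hP H.fr ht1 H.t1one
  have hJ := J_int hCB hC3 H hε hbr'
  have hai := a_int H hε
  obtain ⟨hw1, hw2, hw3⟩ := H.w_le hε
  have hLe := H.L_end hε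
  have hst := H.start_le hε
  obtain ⟨ha10, _, ha1E, _⟩ := H.aF_var hε ht1
  obtain ⟨hL0, hV0, hT0, hLV, hVL, hML, hLM⟩ := comp_front S (D := D) (P := P) ht10.le
  -- the functional at the final time
  have hQ : S.Q (Ft F P S.v t1) (D \ Ut P S.v t1) = IP S D P t1 +
      aF S.E (AA S D P t1) * (S.M F D K2 + fInt D P S.v t1 (fun z _ => S.g z)) := by
    unfold Dat.Q QQ
    rw [bInt_front H.reg.pos H.reg.disj H.fr ht1 (fun z _ => S.g z)
      (S.g_cont.continuous.comp continuous_fst)]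
    rfl
  rw [hQ]
  set r := rad (volume.real D) with hrdef
  set A := volume.real D with hAdef
  set a1 := aF S.E (AA S D P t1) with ha1
  set Δ := A - AA S D P t1 with hΔ
  set L1 := LL S D P t1 with hL1
  set M1 := t1 * Th D P S.v t1 with hM1
  set W1 := PsiO S D P t1 + S.w F D K with hW1
  set Ia := ∫ t in t0..t1, aF S.E (AA S D P t) with hIa
  set Mo := S.M F D K2 with hMo
  have hΔ0 : 0 ≤ Δ := by rw [hΔ]; linarith [H.AA_le t1]
  have hA2 : Real.pi * r ^ 2 = A := H.r2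
  have ht1r := H.t1le
  -- (1)
  have s1 : a1 * (Mo + fInt D P S.v t1 (fun z _ => S.g z)) ≤
      a1 * (M1 + Mo) + 2 * (t1 * a1) * W1 + a1 * (C4 * t1 ^ 2 * L1) := by
    have : a1 * (Mo + fInt D P S.v t1 (fun z _ => S.g z)) ≤
        a1 * (Mo + (M1 + t1 * (2 * PsiO S D P t1 + 2 * S.w F D K) + C4 * t1 ^ 2 * L1)) :=
      mul_le_mul_of_nonneg_left (by linarith) ha10
    refine this.trans (le_of_eq ?_)
    rw [hW1]; ring
  -- (2)
  have s2 : 2 * (t1 * a1) * W1 - 2 * W1 * Ia ≤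
      B7 * t0 + B4 * ε * Δ := by
    have e1 : 2 * (t1 * a1) * W1 - 2 * W1 * Ia = 2 * (W1 * (t1 * a1 - Ia)) := by ring
    rw [e1]
    have e2 : W1 * (t1 * a1 - Ia) ≤ |W1| * |t1 * a1 - Ia| := by
      rw [← abs_mul]; exact le_abs_self _
    have e3 : |W1| ≤ 2 * S.C * (S.C * (c3 S * r)) :=
      hw1.trans (mul_le_mul_of_nonneg_left hw2 (by positivity))
    have e4 : |W1| * |t1 * a1 - Ia| ≤ 2 * S.C * (S.C * (c3 S * r)) *
        (t0 * S.E + t1 * (S.E ^ 2 / r * Δ)) :=
      mul_le_mul e3 hai (abs_nonneg _) (by positivity)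
    have e5 : 2 * S.C * (S.C * (c3 S * r)) * (t0 * S.E + t1 * (S.E ^ 2 / r * Δ)) =
        2 * S.C ^ 2 * c3 S * (S.E * r) * t0 + 2 * S.C ^ 2 * c3 S * S.E ^ 2 * t1 * Δ := by
      field_simp
    have e6 : 2 * S.C ^ 2 * c3 S * (S.E * r) * t0 ≤ 2 * S.C ^ 2 * c3 S * S.X * t0 := by
      apply mul_le_mul_of_nonneg_right _ ht0.le
      exact mul_le_mul_of_nonneg_left hEr (by positivity)
    have e7 : 2 * S.C ^ 2 * c3 S * S.E ^ 2 * t1 * Δ ≤
        2 * S.C ^ 2 * c3 S * S.E ^ 2 * (ε * R0) * Δ := by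
      apply mul_le_mul_of_nonneg_right _ hΔ0
      apply mul_le_mul_of_nonneg_left _ (by positivity)
      exact ht1r.trans (mul_le_mul_of_nonneg_left hrR hεp.le)
    rw [hB7, hB4]
    nlinarith
  -- (3)
  have s3 : (CB * ε + C3 * S.C * t1) * Δ ≤ B1 * ε * Δ := by
    apply mul_le_mul_of_nonneg_right _ hΔ0
    have e1 : C3 * S.C * t1 ≤ C3 * S.C * (ε * R0) :=
      mul_le_mul_of_nonneg_left (ht1r.trans (mul_le_mul_of_nonneg_left hrR hεp.le)) (by positivity)
    rw [hB1]; linarith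
  -- (4)
  have s4 : t1 * (CB * |(m : ℝ)| * (Δ / A) * r + 2 * S.E * S.C * Δ) ≤
      B2 * ε * Δ + B3 * ε * Δ := by
    have e1 : t1 * (CB * |(m : ℝ)| * (Δ / A) * r) ≤ B2 * ε * Δ := by
      have e2 : t1 * r / A ≤ ε := by
        rw [div_le_iff₀ hA, ← hA2]
        have : t1 * r ≤ (ε * r) * r := mul_le_mul_of_nonneg_right ht1r hr.le
        have h3 : (1:ℝ) ≤ Real.pi := by linarith [Real.pi_gt_three]
        have h4 : 0 ≤ ε * r * r := by positivity
        nlinarith
      have e3 : t1 * (CB * |(m : ℝ)| * (Δ / A) * r) = CB * |(m : ℝ)| * (t1 * r / A) * Δ := by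
        ring
      rw [e3]
      apply mul_le_mul_of_nonneg_right _ hΔ0
      have e4 : CB * |(m : ℝ)| ≤ B2 := by
        rw [hB2]
        exact mul_le_mul_of_nonneg_left hw3 hCB.le
      exact mul_le_mul e4 e2 (by positivity) p2.le
    have e5 : t1 * (2 * S.E * S.C * Δ) ≤ B3 * ε * Δ := by
      have e6 : t1 ≤ ε * R0 := ht1r.trans (mul_le_mul_of_nonneg_left hrR hεp.le)
      have e7 : t1 * (2 * S.E * S.C * Δ) ≤ (ε * R0) * (2 * S.E * S.C * Δ) :=
        mul_le_mul_of_nonneg_right e6 (by positivity)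
      rw [hB3]; linarith
    rw [mul_add]; linarith
  -- (5)
  have s5 : a1 * (C4 * t1 ^ 2 * L1) ≤ B8 * t0 + B5 * ε * Δ + B6 * ε * t1 ^ 2 := by
    have e1 : a1 * (C4 * t1 ^ 2 * L1) ≤ S.E * (C4 * t1 ^ 2 * L1) :=
      mul_le_mul_of_nonneg_right ha1E (by positivity)
    have e2 : S.E * (C4 * t1 ^ 2 * L1) = S.E * C4 * t1 * (t1 * L1) := by ring
    have e3 : S.E * C4 * t1 * (t1 * L1) ≤ S.E * C4 * t1 *
        (S.C * (t0 * (c3 S * r) + S.C ^ 2 * Δ + 2 * Real.pi * t1 ^ 2)) :=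
      mul_le_mul_of_nonneg_left hLe (by positivity)
    have e4 : S.E * C4 * t1 * (S.C * (t0 * (c3 S * r) + S.C ^ 2 * Δ + 2 * Real.pi * t1 ^ 2)) =
        t1 * (C4 * S.C * c3 S * (S.E * r) * t0) + t1 * (S.E * C4 * S.C ^ 3 * Δ) +
        t1 * (S.E * C4 * S.C * 2 * Real.pi * t1 ^ 2) := by ring
    have e5 : t1 * (C4 * S.C * c3 S * (S.E * r) * t0) ≤ B8 * t0 := by
      have f1 : C4 * S.C * c3 S * (S.E * r) * t0 ≤ B8 * t0 := by
        rw [hB8]
        apply mul_le_mul_of_nonneg_right _ ht0.le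
        exact mul_le_mul_of_nonneg_left hEr (by positivity)
      have f2 : 0 ≤ C4 * S.C * c3 S * (S.E * r) * t0 := by positivity
      calc t1 * (C4 * S.C * c3 S * (S.E * r) * t0) ≤ 1 * (C4 * S.C * c3 S * (S.E * r) * t0) :=
            mul_le_mul_of_nonneg_right H.t1one f2
        _ ≤ _ := by rw [one_mul]; exact f1
    have e6 : t1 ≤ ε * R0 := ht1r.trans (mul_le_mul_of_nonneg_left hrR hεp.le)
    have e7 : t1 * (S.E * C4 * S.C ^ 3 * Δ) ≤ B5 * ε * Δ := by
      have := mul_le_mul_of_nonneg_right e6 (show 0 ≤ S.E * C4 * S.C ^ 3 * Δ by positivity)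
      rw [hB5]; linarith
    have e8 : t1 * (S.E * C4 * S.C * 2 * Real.pi * t1 ^ 2) ≤ B6 * ε * t1 ^ 2 := by
      have := mul_le_mul_of_nonneg_right e6
        (show 0 ≤ S.E * C4 * S.C * 2 * Real.pi * t1 ^ 2 by positivity)
      rw [hB6]; linarith
    linarith
  -- conclusion
  have h1 : IP S D P t1 + a1 * (M1 + Mo) ≤ S.Q F D + (S.C + S.E) * γ
      - (2 * W1 * Ia - (CB * ε + C3 * S.C * t1) * Δ
        - t1 * (CB * |(m : ℝ)| * (Δ / A) * r + 2 * S.E * S.C * Δ)) := by
    linarith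
  have q1 : 0 ≤ ε * Δ := by positivity
  have q2 : 0 ≤ ε * t1 ^ 2 := by positivity
  have q3 := H.γpos
  have hfin : IP S D P t1 + a1 * (Mo + fInt D P S.v t1 (fun z _ => S.g z)) ≤
      S.Q F D + (B1 + B2 + B3 + B4 + B5) * (ε * Δ) + B6 * (ε * t1 ^ 2) + (B7 + B8) * t0
        + B9 * γ := by
    rw [hB9]
    linarith
  refine hfin.trans ?_
  have r1 : (B1 + B2 + B3 + B4 + B5) * (ε * Δ) ≤
      (1 + (B1 + B2 + B3 + B4 + B5) + B6 + (B7 + B8) + B9) * (ε * Δ) :=
    mul_le_mul_of_nonneg_right (by linarith) q1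
  have r2 : B6 * (ε * t1 ^ 2) ≤
      (1 + (B1 + B2 + B3 + B4 + B5) + B6 + (B7 + B8) + B9) * (ε * t1 ^ 2) :=
    mul_le_mul_of_nonneg_right (by linarith) q2
  have r3 : (B7 + B8) * t0 ≤
      (1 + (B1 + B2 + B3 + B4 + B5) + B6 + (B7 + B8) + B9) * t0 :=
    mul_le_mul_of_nonneg_right (by linarith) ht0.le
  have r4 : B9 * γ ≤ (1 + (B1 + B2 + B3 + B4 + B5) + B6 + (B7 + B8) + B9) * γ :=
    mul_le_mul_of_nonneg_right (by linarith) q3.le
  linarith

end Pool.Agent.FKM
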