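import Mathlib
import Pool.Agent.Helper13.FKM.Basic
import Pool.Agent.Helper13.FKM.PartL

/-!
FKM-24: the components of the complement of `D`.
-/

set_option autoImplicit false

open Complex MeasureTheory Set Metric Filter
open scoped ComplexConjugate Topology

namespace Pool.Agent.FKM

theorem cc_eq {D K : Set ℂ} (hK : K ∈ CC D) {x : ℂ} (hx : x ∈ K) :
    K = connectedComponentIn Dᶜ x := by
  obtain ⟨z, hz, rfl⟩ := hK
  exact connectedComponentIn_eq hx

theorem cc_sub {D K : Set ℂ} (hK : K ∈ CC D) : K ⊆ Dᶜ := by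
  obtain ⟨z, hz, rfl⟩ := hK
  exact connectedComponentIn_subset _ _

theorem cc_conn {D K : Set ℂ} (hK : K ∈ CC D) : IsConnected K := by
  obtain ⟨z, hz, rfl⟩ := hK
  exact isConnected_connectedComponentIn_iff.2 hz

theorem cc_max {D K : Set ℂ} (hK : K ∈ CC D) {s : Set ℂ} (hs : IsPreconnected s) (hsD : s ⊆ Dᶜ)
    {x : ℂ} (hx : x ∈ K) (hxs : x ∈ s) : s ⊆ K := by
  rw [cc_eq hK hx]
  exact hs.subset_connectedComponentIn hxs hsD

theorem cc_closed {D K : Set ℂ} (hD : IsOpen D) (hK : K ∈ CC D) : IsClosed K := by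
  obtain ⟨x, hx⟩ := (cc_conn hK).nonempty
  have h1 : closure K ⊆ K := cc_max hK (cc_conn hK).isPreconnected.closure
    (closure_minimal (cc_sub hK) hD.isClosed_compl) hx (subset_closure hx)
  exact isClosed_of_closure_subset h1

theorem cc_disj {D K K' : Set ℂ} (hK : K ∈ CC D) (hK' : K' ∈ CC D) (hne : K ≠ K') :
    Disjoint K K' := by
  rw [Set.disjoint_left]
  intro x hx hx'
  exact hne ((cc_eq hK hx).trans (cc_eq hK' hx').symm)

theorem cc_frontier {F : Finset (ℂ × ℝ)} {D : Set ℂ} (h : Reg F D) (hne : D.Nonempty)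
    {K : Set ℂ} (hK : K ∈ CC D) : (frontier D ∩ K).Nonempty := by
  have hcl := cc_closed h.op hK
  have hne1 : K ≠ ∅ := (cc_conn hK).nonempty.ne_empty
  have hne2 : K ≠ univ := by
    rintro h1
    obtain ⟨x, hx⟩ := hne
    exact cc_sub hK (h1 ▸ mem_univ x) hx
  have hfr : (frontier K).Nonempty := by
    rw [nonempty_iff_ne_empty]
    intro h1
    rcases isClopen_iff.1 (isClopen_iff_frontier_eq_empty.2 h1) with h2 | h2
    · exact hne1 h2
    · exact hne2 h2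
  obtain ⟨x, hx⟩ := hfr
  have hxK : x ∈ K := hcl.frontier_subset hx
  refine ⟨x, ?_, hxK⟩
  rw [h.op.frontier_eq]
  refine ⟨?_, cc_sub hK hxK⟩
  by_contra hxD
  have h1 : (closure D)ᶜ ∈ 𝓝 x := isClosed_closure.isOpen_compl.mem_nhds hxD
  obtain ⟨ε, hε, h2⟩ := Metric.mem_nhds_iff.1 h1
  have h3 : ball x ε ⊆ K := cc_max hK (convex_ball x ε).isPreconnected
    (h2.trans (compl_subset_compl.2 subset_closure)) hxK (mem_ball_self hε)
  have h4 : x ∈ interior K := mem_interior.2 ⟨_, h3, isOpen_ball, mem_ball_self hε⟩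
  exact hx.2 h4

theorem cc_ball_sub {F : Finset (ℂ × ℝ)} {D : Set ℂ} (h : Reg F D) {b : ℂ × ℝ} (hb : b ∈ F) :
    closedBall b.1 b.2 ⊆ Dᶜ := by
  intro x hx hxD
  exact Set.disjoint_left.1 h.disj hxD (mem_biUnion hb hx)

theorem cc_ball {F : Finset (ℂ × ℝ)} {D : Set ℂ} (h : Reg F D) (hne : D.Nonempty)
    {K : Set ℂ} (hK : K ∈ CC D) : ∃ b ∈ F, closedBall b.1 b.2 ⊆ K := by
  obtain ⟨x, hx, hxK⟩ := cc_frontier h hne hK
  obtain ⟨b, hb, hxb⟩ := mem_iUnion₂.1 (h.front hx)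
  exact ⟨b, hb, cc_max hK (convex_closedBall _ _).isPreconnected (cc_ball_sub h hb) hxK hxb⟩

theorem cc_finite {F : Finset (ℂ × ℝ)} {D : Set ℂ} (h : Reg F D) (hne : D.Nonempty) :
    (CC D).Finite := by
  classical
  refine ((F.image fun b => connectedComponentIn Dᶜ b.1).finite_toSet).subset fun K hK => ?_
  obtain ⟨b, hb, hbK⟩ := cc_ball h hne hK
  rw [Finset.mem_coe, Finset.mem_image]
  exact ⟨b, hb, (cc_eq hK (hbK (mem_closedBall_self (h.pos b hb).le))).symm⟩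

theorem cc_sUnion (D : Set ℂ) : ⋃₀ CC D = Dᶜ := by
  apply Subset.antisymm
  · exact sUnion_subset fun K hK => cc_sub hK
  · intro x hx
    exact ⟨connectedComponentIn Dᶜ x, ⟨x, hx, rfl⟩, mem_connectedComponentIn hx⟩

theorem cc_basic {F : Finset (ℂ × ℝ)} {D : Set ℂ} (h : Reg F D) (hne : D.Nonempty) :
    (CC D).Finite ∧ ⋃₀ CC D = Dᶜ ∧ ∀ K ∈ CC D, IsConnected K ∧ Part D K (Dᶜ \ K) ∧
      (∃ b ∈ F, closedBall b.1 b.2 ⊆ K) ∧ (frontier D ∩ K).Nonempty := by
  refine ⟨cc_finite h hne, cc_sUnion D, fun K hK => ⟨cc_conn hK, ?_, cc_ball h hne hK,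
    cc_frontier h hne hK⟩⟩
  have h1 : Dᶜ \ K = ⋃₀ (CC D \ {K}) := by
    ext x
    constructor
    · rintro ⟨hx, hxK⟩
      refine ⟨connectedComponentIn Dᶜ x, ⟨⟨x, hx, rfl⟩, ?_⟩, mem_connectedComponentIn hx⟩
      intro h2
      rw [mem_singleton_iff] at h2
      exact hxK (h2 ▸ mem_connectedComponentIn hx)
    · rintro ⟨K', ⟨hK', hne'⟩, hx⟩
      exact ⟨cc_sub hK' hx, fun hxK => Set.disjoint_left.1 (cc_disj hK' hK hne') hx hxK⟩
  refine ⟨cc_closed h.op hK, ?_, ?_, ?_⟩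
  · rw [h1]
    rw [sUnion_eq_biUnion]
    exact ((cc_finite h hne).subset sdiff_subset).isClosed_biUnion
      fun K' hK' => cc_closed h.op hK'.1
  · exact disjoint_sdiff_right
  · exact union_sdiff_cancel (cc_sub hK)

theorem cc_ext {R : ℝ} (hR : 0 ≤ R) : IsPreconnected {z : ℂ | R ≤ ‖z‖} := by
  have h1 : {z : ℂ | R ≤ ‖z‖} =
      (fun p : ℝ × ℝ => (p.1 : ℂ) * exp (p.2 * I)) '' (Ici R ×ˢ (univ : Set ℝ)) := by
    ext z
    constructor
    · intro hz
      exact ⟨(‖z‖, arg z), ⟨hz, mem_univ _⟩, norm_mul_exp_arg_mul_I z⟩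
    · rintro ⟨⟨r, θ⟩, ⟨hr, _⟩, rfl⟩
      have hr' : R ≤ r := hr
      simp only [mem_ofPred_eq, norm_mul, norm_exp_ofReal_mul_I, mul_one, norm_real,
        Real.norm_eq_abs]
      rwa [abs_of_nonneg (hR.trans hr')]
  rw [h1]
  refine (isPreconnected_Ici.prod isPreconnected_univ).image _ ?_
  fun_prop

theorem cc_outer {F : Finset (ℂ × ℝ)} {D : Set ℂ} (h : Reg F D) (hne : D.Nonempty) :
    ∃ K0 ∈ CC D, Bornology.IsBounded K0ᶜ ∧ ∀ K ∈ CC D, K ≠ K0 → Bornology.IsBounded K := by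
  obtain ⟨R, hR0, hR⟩ := h.bdd.subset_ball_lt 0 0
  have hsub : {z : ℂ | R ≤ ‖z‖} ⊆ Dᶜ := by
    intro z hz hzD
    have h1 := hR hzD
    rw [mem_ball_zero_iff] at h1
    exact absurd h1 (not_lt.2 hz)
  have hx : (R : ℂ) ∈ {z : ℂ | R ≤ ‖z‖} := by
    simp only [mem_ofPred_eq, norm_real, Real.norm_eq_abs]
    exact le_abs_self R
  have hK0 : connectedComponentIn Dᶜ (R : ℂ) ∈ CC D := ⟨R, hsub hx, rfl⟩
  have h1 : {z : ℂ | R ≤ ‖z‖} ⊆ connectedComponentIn Dᶜ (R : ℂ) :=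
    (cc_ext hR0.le).subset_connectedComponentIn hx hsub
  have h2 : Bornology.IsBounded (connectedComponentIn Dᶜ (R : ℂ))ᶜ := by
    refine Bornology.IsBounded.subset (isBounded_ball (x := (0 : ℂ)) (r := R)) ?_
    intro z hz
    rw [mem_ball_zero_iff]
    by_contra h3
    exact hz (h1 (not_lt.1 h3))
  refine ⟨_, hK0, h2, fun K hK hne' => h2.subset ?_⟩
  intro x hx hx0
  exact Set.disjoint_left.1 (cc_disj hK hK0 hne') hx hx0

theorem cc_card_le {F : Finset (ℂ × ℝ)} {D : Set ℂ} (h : Reg F D) (hne : D.Nonempty)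
    (T : Finset (Set ℂ)) (hT : ∀ s ∈ T, IsPreconnected s ∧ s ⊆ Dᶜ)
    (hfr : ∀ z ∈ frontier D, ∃ s ∈ T, z ∈ s) : (CC D).ncard ≤ T.card := by
  classical
  let f : Set ℂ → Set ℂ := fun s => if hs : s.Nonempty then connectedComponentIn Dᶜ hs.some else ∅
  have h1 : CC D ⊆ (T.image f : Finset (Set ℂ)) := by
    intro K hK
    obtain ⟨z, hz, hzK⟩ := cc_frontier h hne hK
    obtain ⟨s, hs, hzs⟩ := hfr z hz
    have hsne : s.Nonempty := ⟨z, hzs⟩
    have h2 : s ⊆ K := cc_max hK (hT s hs).1 (hT s hs).2 hzK hzs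
    rw [Finset.mem_coe, Finset.mem_image]
    refine ⟨s, hs, ?_⟩
    simp only [f, dif_pos hsne]
    exact (cc_eq hK (h2 hsne.some_mem)).symm
  calc (CC D).ncard ≤ ((T.image f : Finset (Set ℂ)) : Set (Set ℂ)).ncard :=
        Set.ncard_le_ncard h1 (Finset.finite_toSet _)
    _ = (T.image f).card := Set.ncard_coe_finset _
    _ ≤ T.card := Finset.card_image_le

/-- the boundary integral over the components of the complement -/
theorem bInt_sum_cc {F : Finset (ℂ × ℝ)} {D : Set ℂ} (h : Reg F D) (hne : D.Nonempty)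
    (G : ℂ → ℂ → ℝ) (hfin : (CC D).Finite) :
    bInt F D G = ∑ K ∈ hfin.toFinset, bInt (inK F K) D G := by
  classical
  unfold bInt
  have hc : ∀ b ∈ F, b.1 ∈ Dᶜ := fun b hb =>
    cc_ball_sub h hb (mem_closedBall_self (h.pos b hb).le)
  rw [← Finset.sum_fiberwise_of_maps_to (t := hfin.toFinset)
    (g := fun b : ℂ × ℝ => connectedComponentIn Dᶜ b.1)
    (fun b hb => hfin.mem_toFinset.2 ⟨b.1, hc b hb, rfl⟩)]
  refine Finset.sum_congr rfl fun K hK => ?_
  have hK' : K ∈ CC D := hfin.mem_toFinset.1 hK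
  have h1 : F.filter (fun b => connectedComponentIn Dᶜ b.1 = K) = inK F K := by
    unfold inK
    refine Finset.filter_congr fun b hb => ?_
    constructor
    · intro h2
      rw [← h2]
      exact mem_connectedComponentIn (hc b hb)
    · intro h2
      exact (cc_eq hK' h2).symm
  rw [h1]

end Pool.Agent.FKM
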