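import Mathlib
import Pool.Agent.Helper13.FKM.GrowA
import Pool.Agent.Helper13.FKM.TopC

/-!
FKM-46: choice of the part to be swept
-/

set_option autoImplicit false

open Complex MeasureTheory Set Metric Filter
open scoped ComplexConjugate Topology

namespace Pool.Agent.FKM

theorem area_pos {D : Set ℂ} (ho : IsOpen D) (hb : Bornology.IsBounded D) (hne : D.Nonempty) :
    0 < volume.real D := by
  have h1 : 0 < volume D := ho.measure_pos volume hne
  exact ENNReal.toReal_pos h1.ne' hb.measure_lt_top.ne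

theorem choose_part (S : Dat) {F : Finset (ℂ × ℝ)} {D : Set ℂ} (h : Reg F D)
    (hne : D.Nonempty) (hD : D ⊆ S.W) :
    ∃ (K : Set ℂ) (X l0 p : ℝ) (m : ℤ), K ∈ CC D ∧
      ((Bornology.IsBounded K ∧ X = 1 ∧ l0 = 0 ∧
        p = max (S.M F D K / bInt F D (fun z _ => S.g z)) (1 / 2)) ∨
      (Bornology.IsBounded Kᶜ ∧ X = -1 ∧ l0 = 2 * Real.pi ∧
        p = S.M F D K / bInt F D (fun z _ => S.g z))) ∧
      2 * Real.pi * m = -2 * Real.pi * X - 2 * S.w F D K ∧
      Good (kF S.E (volume.real D)) (dF S.E (volume.real D)) p m l0 := by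
  classical
  obtain ⟨hfin, hun, hcc⟩ := cc_basic h hne
  obtain ⟨K0, hK0, hK0b, hother⟩ := cc_outer h hne
  have hA := area_pos h.op h.bdd hne
  obtain ⟨hr, hr2⟩ := rad_pos hA
  have hC : 0 < S.C := lt_of_lt_of_le one_pos S.C_one
  have hpi := Real.pi_pos
  have hE := S.E_pos
  have hw : ∀ K : Set ℂ, ∃ n : ℤ, K ∈ CC D → S.w F D K = 2 * Real.pi * n := by
    intro K
    by_cases hK : K ∈ CC D
    · obtain ⟨n, hn⟩ := wind S h hD (hcc K hK).2.1
      exact ⟨n, fun _ => hn⟩
    · exact ⟨0, fun h => absurd h hK⟩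
  choose n hn using hw
  set m : Set ℂ → ℤ := fun K => if K = K0 then 1 - 2 * n K else -1 - 2 * n K with hm
  have hK0' : K0 ∈ hfin.toFinset := (Set.Finite.mem_toFinset hfin).2 hK0
  have hsumn : ∑ K ∈ hfin.toFinset, n K = 0 := by
    have h1 := bInt_sum_cc h hne (fun z ν => ip ν (-I * S.be z)) hfin
    rw [wind_sum S h hD] at h1
    have h2 : ∑ K ∈ hfin.toFinset, bInt (inK F K) D (fun z ν => ip ν (-I * S.be z)) =
        2 * Real.pi * ((∑ K ∈ hfin.toFinset, n K : ℤ) : ℝ) := by
      push_cast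
      rw [Finset.mul_sum]
      refine Finset.sum_congr rfl fun K hK => ?_
      exact hn K ((Set.Finite.mem_toFinset hfin).1 hK)
    rw [h2] at h1
    have h3 : ((∑ K ∈ hfin.toFinset, n K : ℤ) : ℝ) = 0 := by
      rcases mul_eq_zero.1 h1.symm with h4 | h4
      · exact absurd h4 (by positivity)
      · exact h4
    exact_mod_cast h3
  have hsumm : ∑ K ∈ hfin.toFinset, m K = 2 - (hfin.toFinset.card : ℤ) := by
    have h1 : ∀ K ∈ hfin.toFinset, m K = (-1 - 2 * n K) + (if K = K0 then 2 else 0) := by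
      intro K _
      simp only [hm]
      split_ifs <;> ring
    rw [Finset.sum_congr rfl h1, Finset.sum_add_distrib, Finset.sum_ite_eq' hfin.toFinset K0,
      if_pos hK0', Finset.sum_sub_distrib, ← Finset.mul_sum, hsumn]
    simp
    ring
  set M := bInt F D (fun z _ => S.g z) with hMdef
  have hMlow := M_low_tot (S := S) h hD hA (hcc K0 hK0).2.1
  have hM : 0 < M := by
    have h1 : 0 < 2 * Real.pi * rad (volume.real D) := by positivity
    by_contra hneg
    push Not at hneg
    nlinarith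
  have hM0 : 0 < S.M F D K0 := by
    have h1 := M_low (S := S) h hD hA (hcc K0 hK0).2.1 hK0b
    have h2 : 0 < 2 * Real.pi * rad (volume.real D) := by positivity
    by_contra hneg
    push Not at hneg
    nlinarith
  have hsump : ∑ K ∈ hfin.toFinset, S.M F D K / M = 1 := by
    rw [← Finset.sum_div, div_eq_one_iff_eq hM.ne']
    exact (bInt_sum_cc h hne (fun z _ => S.g z) hfin).symm
  have hb := aF_bounds S.hX S.E_pos hA (area_le hD)
  set k := kF S.E (volume.real D) with hk
  set δ := dF S.E (volume.real D) with hδ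
  have hδ0 : 0 < δ := by
    have := hb.2.2.2.1
    have : 0 < S.E ^ 2 := by positivity
    linarith
  have hk4 : k ≤ 4 * δ := by linarith [hb.2.2.2.1, hb.2.2.2.2.2.2]
  have key := select (ι := hfin.toFinset) ⟨K0, hK0'⟩ (fun K => m K.1) ?_ ?_
    (fun K => S.M F D K.1 / M) ?_ ?_ ?_ hδ0 hb.2.2.1 hk4
  · rcases key with hg | ⟨i, hi, hg⟩
    · refine ⟨K0, -1, 2 * Real.pi, S.M F D K0 / M, m K0, hK0, Or.inr ⟨hK0b, rfl, rfl, rfl⟩, ?_, hg⟩
      rw [hn K0 hK0]
      simp only [hm, if_true]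
      push_cast
      ring
    · have hiK : i.1 ∈ CC D := (Set.Finite.mem_toFinset hfin).1 i.2
      have hne' : i.1 ≠ K0 := fun h' => hi (Subtype.ext h')
      refine ⟨i.1, 1, 0, max (S.M F D i.1 / M) (1 / 2), m i.1, hiK,
        Or.inl ⟨hother i.1 hiK hne', rfl, rfl, rfl⟩, ?_, hg⟩
      rw [hn i.1 hiK]
      simp only [hm, if_neg hne']
      push_cast
      ring
  · intro i
    simp only [hm]
    split_ifs
    · exact ⟨-n i.1, by ring⟩
    · exact ⟨-n i.1 - 1, by ring⟩
  · rw [Finset.sum_coe_sort hfin.toFinset m, hsumm, Fintype.card_coe]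
  · intro i
    exact div_nonneg (M_nonneg h) hM.le
  · exact div_pos hM0 hM
  · rw [Finset.sum_coe_sort hfin.toFinset (fun K => S.M F D K / M)]
    exact hsump

end Pool.Agent.FKM
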