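import Mathlib
import Pool.Agent.Helper13.FKM.StepA
import Pool.Agent.Helper13.FKM.ExF

/-!
FKM-47: number of components of the complement after a step
-/

set_option autoImplicit false

open Complex MeasureTheory Set Metric Filter
open scoped ComplexConjugate Topology

namespace Pool.Agent.FKM

theorem frontier_comp {D : Set ℂ} (hD : IsOpen D) (z : ℂ) :
    frontier (connectedComponentIn D z) ⊆ frontier D := by
  intro y hy
  have hopen : IsOpen (connectedComponentIn D z) := hD.connectedComponentIn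
  have hsub : connectedComponentIn D z ⊆ D := connectedComponentIn_subset D z
  rw [hopen.frontier_eq] at hy
  rw [hD.frontier_eq]
  refine ⟨closure_mono hsub hy.1, fun hyD => ?_⟩
  have h2 : IsOpen (connectedComponentIn D y) := hD.connectedComponentIn
  have h3 : y ∈ connectedComponentIn D y := mem_connectedComponentIn hyD
  obtain ⟨x, hx1, hx2⟩ := mem_closure_iff.1 hy.1 _ h2 h3
  have e1 := connectedComponentIn_eq hx1
  have e2 := connectedComponentIn_eq hx2
  apply hy.2
  rw [e2, ← e1]
  exact h3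

theorem count_gen {F' : Finset (ℂ × ℝ)} {D' : Set ℂ} (h : Reg F' D') (T : Finset (Set ℂ))
    (hT : ∀ s ∈ T, IsPreconnected s ∧ s ⊆ D'ᶜ) (hfr : ∀ z ∈ frontier D', ∃ s ∈ T, z ∈ s)
    {z : ℂ} (hz : z ∈ D') : (CC (connectedComponentIn D' z)).ncard ≤ T.card := by
  have h1 := reg_comp h hz
  have hsub : connectedComponentIn D' z ⊆ D' := connectedComponentIn_subset D' z
  apply cc_card_le h1.1 h1.2.nonempty T
  · intro s hs
    exact ⟨(hT s hs).1, (hT s hs).2.trans (compl_subset_compl.2 hsub)⟩
  · intro y hy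
    exact hfr y (frontier_comp h.op z hy)

theorem preconn_front {K : Set ℂ} (hK : IsConnected K) {P : Finset ℂ} {v : ℂ → ℝ} {t : ℝ}
    (hP : ∀ p ∈ P, p ∈ K) (ht : 0 ≤ t) (hv : ∀ p, 0 < v p) :
    IsPreconnected (K ∪ Ut P v t) := by
  obtain ⟨x, hx⟩ := hK.nonempty
  apply isPreconnected_of_forall x
  intro y hy
  rcases hy with hy | hy
  · exact ⟨K, subset_union_left, hx, hy, hK.isPreconnected⟩
  · unfold Ut at hy
    simp only [mem_iUnion] at hy
    obtain ⟨p, hp, hy⟩ := hy
    refine ⟨K ∪ closedBall p (t * v p), ?_, Or.inl hx, Or.inr hy, ?_⟩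
    · apply union_subset_union_right
      intro w hw
      unfold Ut
      simp only [mem_iUnion]
      exact ⟨p, hp, hw⟩
    · apply hK.isPreconnected.union p (hP p hp)
      · exact mem_closedBall_self (mul_nonneg ht (hv p).le)
      · exact (convex_closedBall p _).isPreconnected

section

variable {F : Finset (ℂ × ℝ)} {D K K2 : Set ℂ} {P : Finset ℂ} {v : ℂ → ℝ} {t0 t1 : ℝ}

theorem count_A (h : Reg F D) (hne : D.Nonempty) (hK : K ∈ CC D)
    (hf : Front D K K2 P v t0 t1) {z : ℂ} (hz : z ∈ D \ Ut P v t1) :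
    (CC (connectedComponentIn (D \ Ut P v t1) z)).ncard ≤ (CC D).ncard := by
  classical
  obtain ⟨hfin, hun, hcc⟩ := cc_basic h hne
  have hreg := reg_front h hf (t := t1) ⟨hf.t01, le_rfl⟩
  set T : Finset (Set ℂ) := insert (K ∪ Ut P v t1) (hfin.toFinset.erase K) with hT
  have hKm : K ∈ hfin.toFinset := (Set.Finite.mem_toFinset hfin).2 hK
  have hcard : T.card ≤ (CC D).ncard := by
    rw [Set.ncard_eq_toFinset_card (CC D) hfin, hT]
    refine (Finset.card_insert_le _ _).trans ?_
    rw [Finset.card_erase_of_mem hKm]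
    have : 0 < hfin.toFinset.card := Finset.card_pos.2 ⟨K, hKm⟩
    omega
  refine le_trans (count_gen hreg T ?_ ?_ hz) hcard
  · intro s hs
    rw [hT, Finset.mem_insert] at hs
    rcases hs with rfl | hs
    · refine ⟨preconn_front (hcc K hK).1 hf.sub (hf.t0pos.le.trans hf.t01) hf.vpos, ?_⟩
      apply union_subset
      · intro y hy hyD
        have : y ∈ Dᶜ := by rw [← hun]; exact ⟨K, hK, hy⟩
        exact this hyD.1
      · intro y hy hyD
        exact hyD.2 hy
    · have hs' := (Set.Finite.mem_toFinset hfin).1 (Finset.mem_of_mem_erase hs)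
      refine ⟨(hcc s hs').1.isPreconnected, ?_⟩
      intro y hy hyD
      have : y ∈ Dᶜ := by rw [← hun]; exact ⟨s, hs', hy⟩
      exact this hyD.1
  · intro y hy
    rw [hreg.op.frontier_eq] at hy
    by_cases hyU : y ∈ Ut P v t1
    · exact ⟨K ∪ Ut P v t1, by rw [hT]; exact Finset.mem_insert_self _ _, Or.inr hyU⟩
    · have hyD : y ∉ D := fun h' => hy.2 ⟨h', hyU⟩
      have : y ∈ ⋃₀ CC D := by rw [hun]; exact hyD
      obtain ⟨s, hs, hys⟩ := this
      by_cases hsK : s = K
      · refine ⟨K ∪ Ut P v t1, by rw [hT]; exact Finset.mem_insert_self _ _, Or.inl ?_⟩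
        rw [← hsK]; exact hys
      · refine ⟨s, ?_, hys⟩
        rw [hT]
        exact Finset.mem_insert_of_mem (Finset.mem_erase.2
          ⟨hsK, (Set.Finite.mem_toFinset hfin).2 hs⟩)

theorem count_B (h : Reg F D) (hne : D.Nonempty) (hK : K ∈ CC D) {K' : Set ℂ}
    (hK' : K' ∈ CC D) (hKK : K' ≠ K) (hf : Front D K K2 P v t0 t1) {q : ℂ} {e : ℝ}
    (he : 0 < e) (hq : q ∈ K') (hqU : (closedBall q e ∩ Ut P v t1).Nonempty) {z : ℂ}
    (hz : z ∈ (D \ Ut P v t1) \ closedBall q e) :
    (CC (connectedComponentIn ((D \ Ut P v t1) \ closedBall q e) z)).ncard < (CC D).ncard := by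
  classical
  obtain ⟨hfin, hun, hcc⟩ := cc_basic h hne
  have hreg0 := reg_front h hf (t := t1) ⟨hf.t01, le_rfl⟩
  have hreg : Reg (Ft F P v t1 ∪ {(q, e)}) ((D \ Ut P v t1) \ closedBall q e) := by
    have h1 := reg_add (N := {(q, e)}) hreg0 (by
      intro b hb
      rw [Finset.mem_singleton] at hb
      rw [hb]; exact he)
    have h2 : cl {(q, e)} = closedBall q e := by
      unfold cl
      simp
    rw [h2] at h1
    exact h1
  set big : Set ℂ := (K ∪ Ut P v t1) ∪ (closedBall q e ∪ K') with hbig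
  set T : Finset (Set ℂ) := insert big ((hfin.toFinset.erase K).erase K') with hT
  have hKm : K ∈ hfin.toFinset := (Set.Finite.mem_toFinset hfin).2 hK
  have hKm' : K' ∈ hfin.toFinset.erase K :=
    Finset.mem_erase.2 ⟨hKK, (Set.Finite.mem_toFinset hfin).2 hK'⟩
  have hcard : T.card < (CC D).ncard := by
    rw [Set.ncard_eq_toFinset_card (CC D) hfin, hT]
    refine (Finset.card_insert_le _ _).trans_lt ?_
    have h1 : 0 < (hfin.toFinset.erase K).card := Finset.card_pos.2 ⟨K', hKm'⟩
    rw [Finset.card_erase_of_mem hKm'] 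
    rw [Finset.card_erase_of_mem hKm] at h1 ⊢
    omega
  refine lt_of_le_of_lt (count_gen hreg T ?_ ?_ hz) hcard
  · intro s hs
    rw [hT, Finset.mem_insert] at hs
    rcases hs with rfl | hs
    · constructor
      · obtain ⟨x, hx1, hx2⟩ := hqU
        have hA : IsPreconnected (closedBall q e ∪ K') :=
          (convex_closedBall q e).isPreconnected.union q (mem_closedBall_self he.le) hq
            (hcc K' hK').1.isPreconnected
        exact (preconn_front (hcc K hK).1 hf.sub (hf.t0pos.le.trans hf.t01) hf.vpos).union x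
          (Or.inr hx2) (Or.inl hx1) hA
      · rw [hbig]
        refine union_subset (union_subset ?_ ?_) (union_subset ?_ ?_)
        · intro y hy hyD
          have : y ∈ Dᶜ := by rw [← hun]; exact ⟨K, hK, hy⟩
          exact this hyD.1.1
        · intro y hy hyD
          exact hyD.1.2 hy
        · intro y hy hyD
          exact hyD.2 hy
        · intro y hy hyD
          have : y ∈ Dᶜ := by rw [← hun]; exact ⟨K', hK', hy⟩
          exact this hyD.1.1
    · have hs' := (Set.Finite.mem_toFinset hfin).1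
        (Finset.mem_of_mem_erase (Finset.mem_of_mem_erase hs))
      refine ⟨(hcc s hs').1.isPreconnected, ?_⟩
      intro y hy hyD
      have : y ∈ Dᶜ := by rw [← hun]; exact ⟨s, hs', hy⟩
      exact this hyD.1.1
  · intro y hy
    rw [hreg.op.frontier_eq] at hy
    have hbm : big ∈ T := by rw [hT]; exact Finset.mem_insert_self _ _
    by_cases hyU : y ∈ Ut P v t1
    · exact ⟨big, hbm, Or.inl (Or.inr hyU)⟩
    by_cases hyq : y ∈ closedBall q e
    · exact ⟨big, hbm, Or.inr (Or.inl hyq)⟩
    have hyD : y ∉ D := fun h' => hy.2 ⟨⟨h', hyU⟩, hyq⟩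
    have : y ∈ ⋃₀ CC D := by rw [hun]; exact hyD
    obtain ⟨s, hs, hys⟩ := this
    by_cases hsK : s = K
    · exact ⟨big, hbm, Or.inl (Or.inl (hsK ▸ hys))⟩
    by_cases hsK' : s = K'
    · exact ⟨big, hbm, Or.inr (Or.inr (hsK' ▸ hys))⟩
    refine ⟨s, ?_, hys⟩
    rw [hT]
    exact Finset.mem_insert_of_mem (Finset.mem_erase.2 ⟨hsK', Finset.mem_erase.2
      ⟨hsK, (Set.Finite.mem_toFinset hfin).2 hs⟩⟩)

end

end Pool.Agent.FKM
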