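import Mathlib
import Pool.Agent.Helper13.FKM.PartL

/-!
FKM-31: the swept area is at least of order t1^2.

Plan. Let x0 ∈ D \ Ut, q a nearest point of K to x0 (part_near: q ∈ frontier D ∩ K), R0 = dist x0 q, p ∈ P with
dist q p ≤ t1 c/4. x0 ∉ closedBall p (t1 v p) and v p ≥ c give R0 ≥ 3 t1 c/4. Put s = t1 c/4 and
m = q + s (x0 - q)/R0. ball m s ⊆ ball x0 R0 misses K, and ball m s ⊆ closedBall p (t1 v p) (distances add up to
at most 3 s < t1 c), so ball m s ⊆ (K ∪ D) \ K by hf.free: it is contained in D ∩ Ut. Its area is π s^2.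
-/

set_option autoImplicit false

open Complex MeasureTheory Set Metric Filter
open scoped ComplexConjugate Topology

namespace Pool.Agent.FKM

theorem swept {D K K2 : Set ℂ} {P : Finset ℂ} {v : ℂ → ℝ} {t0 t1 : ℝ}
    (hf : Front D K K2 P v t0 t1) (hK : K.Nonempty) {c : ℝ} (hc : 0 < c) (hv : ∀ p, c ≤ v p)
    (hne : (D \ Ut P v t1).Nonempty)
    (hnet : ∀ z ∈ frontier D, z ∈ K → ∃ p ∈ P, dist z p ≤ t1 * c / 4) :
    Real.pi * (t1 * c / 4) ^ 2 ≤ volume.real (D ∩ Ut P v t1) := by
  obtain ⟨x0, hx0D, hx0U⟩ := hne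
  have ht1 : 0 < t1 := hf.t0pos.trans_le hf.t01
  have hx0K : x0 ∉ K := by
    intro h
    have h1 : x0 ∈ Dᶜ := by rw [← hf.part.union]; exact Or.inl h
    exact h1 hx0D
  obtain ⟨q, ⟨hqf, hqK⟩, -, hR0, hmin⟩ := part_near hf.op hf.part hK hx0K
  obtain ⟨p, hp, hqp⟩ := hnet q hqf hqK
  set R0 := dist x0 q with hR0def
  set s := t1 * c / 4 with hs
  have hs0 : 0 < s := by positivity
  have htc : t1 * c ≤ t1 * v p := mul_le_mul_of_nonneg_left (hv p) ht1.le
  have hx0p : t1 * v p < dist x0 p := by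
    by_contra hcon
    push Not at hcon
    apply hx0U
    simp only [Ut, mem_iUnion, exists_prop]
    exact ⟨p, hp, hcon⟩
  have hR0s : 3 * s < R0 := by
    have h1 : dist x0 p ≤ R0 + dist q p := dist_triangle _ _ _
    have h2 : t1 * c = 4 * s := by rw [hs]; ring
    linarith
  set m : ℂ := q + ((s / R0 : ℝ) : ℂ) * (x0 - q) with hm
  have hn : ‖x0 - q‖ = R0 := by rw [hR0def, dist_eq_norm]
  have hmq : dist m q = s := by
    rw [dist_eq_norm, hm, add_sub_cancel_left, norm_mul, hn, norm_real,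
      Real.norm_of_nonneg (by positivity)]
    field_simp
  have hmx : dist m x0 = R0 - s := by
    have h1 : m - x0 = ((s / R0 - 1 : ℝ) : ℂ) * (x0 - q) := by
      rw [hm]; push_cast; ring
    have h2 : s / R0 - 1 ≤ 0 := by
      rw [sub_nonpos, div_le_one hR0]
      linarith
    rw [dist_eq_norm, h1, norm_mul, hn, norm_real, Real.norm_of_nonpos h2]
    field_simp
    ring
  have hsub : ball m s ⊆ D ∩ Ut P v t1 := by
    intro y hy
    rw [mem_ball] at hy
    have hyp : y ∈ closedBall p (t1 * v p) := by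
      rw [mem_closedBall]
      have h1 : dist y p ≤ dist y m + dist m q + dist q p :=
        dist_triangle4 _ _ _ _
      have h2 : t1 * c = 4 * s := by rw [hs]; ring
      linarith
    have hyK : y ∉ K := by
      intro hyK
      have h1 := hmin y hyK
      have h2 : dist x0 y ≤ dist x0 m + dist m y := dist_triangle _ _ _
      rw [dist_comm x0 m, dist_comm m y] at h2
      linarith
    refine ⟨(hf.free p hp hyp).resolve_left hyK, ?_⟩
    simp only [Ut, mem_iUnion, exists_prop]
    exact ⟨p, hp, hyp⟩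
  have hfin : volume (D ∩ Ut P v t1) ≠ ⊤ :=
    ((hf.bdd.subset inter_subset_left).measure_lt_top).ne
  have hvol : volume.real (ball m s) = Real.pi * s ^ 2 := by
    rw [measureReal_def, Complex.volume_ball, ENNReal.toReal_mul, ENNReal.toReal_pow,
      ENNReal.toReal_ofReal hs0.le]
    rw [mul_comm]
    simp
  rw [← hvol]
  exact measureReal_mono hsub hfin

end Pool.Agent.FKM
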