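import Mathlib
import Pool.Agent.Helper13.FKM.GrowF
import Pool.Agent.Helper13.FKM.StepB
import Pool.Agent.Helper13.FKM.NetT0
import Pool.Agent.Helper13.FKM.Swept
import Pool.Agent.Helper13.FKM.AddD

/-!
FKM-48: one step of the sweeping argument
-/

set_option autoImplicit false

open Complex MeasureTheory Set Metric Filter
open scoped ComplexConjugate Topology

namespace Pool.Agent.FKM

theorem mem_K2 {D K K2 : Set ℂ} (hp : Part D K K2) {y : ℂ} (hy : y ∉ K ∪ D) : y ∈ K2 := by
  have h1 : y ∈ Dᶜ := fun h => hy (Or.inr h)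
  rw [← hp.union] at h1
  rcases h1 with h1 | h1
  · exact absurd (Or.inl h1) hy
  · exact h1

/-- conclusion of one step -/
def StepOut (S : Dat) (C c ε γ : ℝ) (F : Finset (ℂ × ℝ)) (D : Set ℂ) : Prop :=
  ∃ (F' : Finset (ℂ × ℝ)) (D' : Set ℂ), Reg F' D' ∧ D' ⊆ D ∧
    ((c * ε ^ 2 * volume.real D ≤ volume.real D - volume.real D' ∧
        S.Q F' D' ≤ S.Q F D + C * ε * (volume.real D - volume.real D') + γ ∧
        ∀ z ∈ D', (CC (connectedComponentIn D' z)).ncard ≤ (CC D).ncard) ∨
      (S.Q F' D' ≤ S.Q F D + C * ε * volume.real D + γ ∧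
        ∀ z ∈ D', (CC (connectedComponentIn D' z)).ncard < (CC D).ncard))

theorem step (S : Dat) : ∃ (C c : ℝ), 1 ≤ C ∧ 0 < c ∧ ∀ ε : ℝ, 0 < ε → C * ε ≤ 1 →
    ∀ (F : Finset (ℂ × ℝ)) (D : Set ℂ), Reg F D → D.Nonempty → D ⊆ S.W → S.Q F D ≤ 0 →
    ∀ γ : ℝ, 0 < γ → StepOut S C c ε γ F D := by
  obtain ⟨C0, hC0, hgrow⟩ := grow S
  have hC := C_pos S
  have hE := S.E_pos
  have hX := S.hX.pos
  have hpi := Real.pi_pos
  have hc3 := c3_ge S
  have hc4 := c4_ge S
  set R0 := S.X / S.E with hR0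
  have hR0p : 0 < R0 := by rw [hR0]; positivity
  set Cst := 4 * c4 S + R0 + C0 * (1 + 6 * S.C ^ 2) + 2 * C0 + 1 with hCst
  have hCC : 0 < S.C ^ 2 := by positivity
  have hC0p : 0 < C0 := by linarith
  have hCst1 : 1 ≤ Cst := by
    have : 0 < C0 * (1 + 6 * S.C ^ 2) := by positivity
    rw [hCst]; linarith
  refine ⟨Cst, 1 / (16 * S.C ^ 2), hCst1, by positivity, ?_⟩
  intro ε hε hCε F D h hne hD hQ γ hγ
  have hA := area_pos h.op h.bdd hne
  obtain ⟨hr, hr2⟩ := rad_pos hA
  set A := volume.real D with hAdef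
  set r := rad A with hrdef
  -- small constants
  have hbig : 0 < C0 * (1 + 6 * S.C ^ 2) := by positivity
  have hε1 : ε ≤ 1 := by nlinarith
  have hε4 : c4 S * ε ≤ 1 / 4 := by
    have : (4 * c4 S) * ε ≤ Cst * ε := by
      apply mul_le_mul_of_nonneg_right _ hε.le
      rw [hCst]; linarith
    linarith
  have hεR : ε * R0 ≤ 1 := by
    have : R0 * ε ≤ Cst * ε := by
      apply mul_le_mul_of_nonneg_right _ hε.le
      rw [hCst]; linarith
    linarith
  -- choice of the part
  obtain ⟨K, X, l0, p, m, hK, htype, hidx, hgood⟩ := choose_part S h hne hD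
  obtain ⟨hfin, hun, hcc⟩ := cc_basic h hne
  obtain ⟨hKc, hpart, _, hfrK⟩ := hcc K hK
  set K2 := Dᶜ \ K with hK2
  obtain ⟨η, hη, hsep⟩ := part_sep h.bdd hpart
  obtain ⟨hv0, hv1, hv2, hv3⟩ := v_facts S
  -- r ≤ R0
  have hrR : r ≤ R0 := by
    have h1 := area_le hD
    rw [← hAdef, ← hr2] at h1
    have h2 : (S.E * r) ^ 2 ≤ S.X ^ 2 := by
      have h3 : Real.pi * (S.E * r) ^ 2 ≤ Real.pi * S.X ^ 2 := by
        calc Real.pi * (S.E * r) ^ 2 = S.E ^ 2 * (Real.pi * r ^ 2) := by ring
          _ ≤ _ := h1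
      exact le_of_mul_le_mul_left h3 hpi
    have h3 : S.E * r ≤ S.X := le_of_sq_le_sq h2 hX.le
    rw [hR0, le_div_iff₀ hE]
    linarith
  set hh := ε * r with hhh
  have hhp : 0 < hh := by rw [hhh]; positivity
  have hh1 : hh ≤ 1 := by
    rw [hhh]
    exact (mul_le_mul_of_nonneg_left hrR hε.le).trans hεR
  set Kd := S.C * Real.pi + S.E * (2 * Real.pi * S.C) with hKd
  have hKdp : 0 < Kd := by rw [hKd]; positivity
  set e := min 1 (γ / (4 * Kd)) with he
  have hep : 0 < e := by rw [he]; apply lt_min one_pos; positivity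
  have he1 : e ≤ 1 := min_le_left _ _
  have heγ : Kd * e ≤ γ / 4 := by
    have : e ≤ γ / (4 * Kd) := min_le_right _ _
    calc Kd * e ≤ Kd * (γ / (4 * Kd)) := mul_le_mul_of_nonneg_left this hKdp.le
      _ = γ / 4 := by field_simp
  set γ' := min (γ / (4 * C0)) (min (ε * r) (ε * r ^ 2)) with hγ'
  have hγ'p : 0 < γ' := by
    rw [hγ']
    apply lt_min (by positivity)
    apply lt_min <;> positivity
  have hγ'1 : C0 * γ' ≤ γ / 4 := by
    have : γ' ≤ γ / (4 * C0) := min_le_left _ _
    calc C0 * γ' ≤ C0 * (γ / (4 * C0)) := mul_le_mul_of_nonneg_left this hC0p.le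
      _ = γ / 4 := by field_simp
  have hγ'2 : γ' ≤ ε * r := (min_le_right _ _).trans (min_le_left _ _)
  have hγ'3 : γ' ≤ ε * r ^ 2 := (min_le_right _ _).trans (min_le_right _ _)
  obtain ⟨τ1, hτ1, ρ, hρ, hstart⟩ := exists_t0 S h hD hpart hγ'p
  set τ := min τ1 (min (hh / 2) (min (η / (2 * S.C)) γ')) with hτ
  have hτp : 0 < τ := by
    rw [hτ]
    apply lt_min hτ1
    apply lt_min (by positivity)
    apply lt_min (by positivity) hγ'p
  have hττ1 : τ ≤ τ1 := min_le_left _ _
  have hτh : τ ≤ hh / 2 := (min_le_right _ _).trans (min_le_left _ _)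
  have hτη : τ ≤ η / (2 * S.C) :=
    (min_le_right _ _).trans ((min_le_right _ _).trans (min_le_left _ _))
  have hτγ : τ ≤ γ' := (min_le_right _ _).trans ((min_le_right _ _).trans (min_le_right _ _))
  have hρτ : 0 < ρ * τ := mul_pos hρ.1 hτp
  have hρτ2 : ρ * τ ≤ τ := by nlinarith [hρ.2]
  have hKcpt : IsCompact (frontier D ∩ K) := by
    apply IsCompact.of_isClosed_subset h.bdd.isCompact_closure
      (isClosed_frontier.inter hpart.closed)
    exact inter_subset_left.trans frontier_subset_closure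
  obtain ⟨P, hPm, hPn⟩ := exists_net hKcpt (δ := min (ρ * τ / S.C) (hh / (4 * S.C)))
    (lt_min (by positivity) (by positivity))
  have hmk : ∀ s t : ℝ, ρ * τ ≤ s → s ≤ t →
      (∀ q ∈ P, closedBall q (t * S.v q) ⊆ K ∪ D) → Front D K K2 P S.v s t := by
    intro s t hs hst hfree
    refine ⟨h.op, h.bdd, hpart, fun q hq => (hPm q hq).2, hv0, hρτ.trans_le hs, hst, ?_, hfree⟩
    intro z hz hzK
    obtain ⟨q, hq, hd⟩ := hPn z ⟨hz, hzK⟩
    refine ⟨q, hq, ?_⟩
    have h1 : dist z q < ρ * τ / S.C := hd.trans_le (min_le_left _ _)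
    have h2 : ρ * τ / S.C ≤ s * S.v q := by
      calc ρ * τ / S.C = (ρ * τ) * (1 / S.C) := by ring
        _ ≤ s * S.v q := mul_le_mul hs (hv1 q) (by positivity) (hρτ.le.trans hs)
    exact h1.trans_le h2
  have hfr0 : Front D K K2 P S.v (ρ * τ) τ := by
    apply hmk _ _ le_rfl hρτ2
    intro q hq y hy
    by_contra hcon
    have hy2 := mem_K2 hpart hcon
    have h1 := hsep q (hPm q hq).2 y hy2
    rw [mem_closedBall, dist_comm] at hy
    have h2 : τ * S.v q ≤ η / 2 := by
      calc τ * S.v q ≤ (η / (2 * S.C)) * S.C :=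
            mul_le_mul hτη (hv2 q) (hv0 q).le (by positivity)
        _ = η / 2 := by field_simp
    linarith
  obtain ⟨⟨t0, ht0, hst⟩, hvol⟩ := hstart τ ⟨hτp, hττ1⟩ P (fun q hq => (hPm q hq).1) hfr0
  have ht0p : 0 < t0 := hρτ.trans_le ht0.1
  have hHyp : ∀ t1 : ℝ, t0 ≤ t1 → t1 ≤ hh →
      (∀ q ∈ P, closedBall q (t1 * S.v q) ⊆ K ∪ D) →
      Hyp S ε F D K K2 P t0 t1 γ' X l0 p m := by
    intro t1 h01 h1h hfree
    exact ⟨h, hD, hKc, fun q hq => (hPm q hq).1, hmk t0 t1 ht0.1 h01 hfree, hA, hQ, hε, hε1,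
      h1h, h1h.trans hh1, hγ'p, hγ'2, hγ'3, hst, hvol t0 ht0, htype, hidx, hgood⟩
  have hsmall : C0 * (γ' + t0) ≤ γ / 2 := by
    have : t0 ≤ γ' := ht0.2.trans hτγ
    nlinarith
  have hr2A : r ^ 2 ≤ A := by
    have h3 : (1:ℝ) ≤ Real.pi := by linarith [Real.pi_gt_three]
    have h4 : 1 * r ^ 2 ≤ Real.pi * r ^ 2 := mul_le_mul_of_nonneg_right h3 (sq_nonneg _)
    linarith
  have hpi4 : Real.pi ≤ 4 := Real.pi_le_four
  by_cases hfree : ∀ q ∈ P, closedBall q (hh * S.v q) ⊆ K ∪ D
  · -- full step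
    have H := hHyp hh (ht0.2.trans (hτh.trans (by linarith))) le_rfl hfree
    have hg := hgrow ε F D K K2 P t0 hh γ' X l0 p m H hε4
    refine ⟨Ft F P S.v hh, D \ Ut P S.v hh, reg_front h H.fr ⟨H.fr.t01, le_rfl⟩,
      sdiff_subset, Or.inl ⟨?_, ?_, ?_⟩⟩
    · have hswept : Real.pi * (hh * (1 / S.C) / 4) ^ 2 ≤ volume.real (D ∩ Ut P S.v hh) := by
        apply swept H.fr hKc.nonempty (by positivity : 0 < 1 / S.C) hv1
        · by_contra hcon
          rw [not_nonempty_iff_eq_empty] at hcon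
          have := H.AA_half hε4 H.fr.t01 le_rfl
          unfold AA at this
          rw [hcon] at this
          simp at this
          linarith
        · intro z hz hzK
          obtain ⟨q, hq, hd⟩ := hPn z ⟨hz, hzK⟩
          refine ⟨q, hq, (hd.le.trans (min_le_right _ _)).trans (le_of_eq ?_)⟩
          field_simp
      have hdiff := measureReal_inter_add_sdiff (μ := volume) (s := D)
        (gclosed_Ut P S.v hh).measurableSet h.bdd.measure_lt_top.ne
      have e1 : 1 / (16 * S.C ^ 2) * ε ^ 2 * A = Real.pi * (hh * (1 / S.C) / 4) ^ 2 := by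
        rw [hhh, ← hr2]; field_simp; ring
      rw [e1]
      linarith
    · have hswept : Real.pi * (hh * (1 / S.C) / 4) ^ 2 ≤ volume.real (D ∩ Ut P S.v hh) := by
        apply swept H.fr hKc.nonempty (by positivity : 0 < 1 / S.C) hv1
        · by_contra hcon
          rw [not_nonempty_iff_eq_empty] at hcon
          have := H.AA_half hε4 H.fr.t01 le_rfl
          unfold AA at this
          rw [hcon] at this
          simp at this
          linarith
        · intro z hz hzK
          obtain ⟨q, hq, hd⟩ := hPn z ⟨hz, hzK⟩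
          refine ⟨q, hq, (hd.le.trans (min_le_right _ _)).trans (le_of_eq ?_)⟩
          field_simp
      have hdiff := measureReal_inter_add_sdiff (μ := volume) (s := D)
        (gclosed_Ut P S.v hh).measurableSet h.bdd.measure_lt_top.ne
      set Δ := A - volume.real (D \ Ut P S.v hh) with hΔ
      have hΔ1 : hh ^ 2 ≤ 6 * S.C ^ 2 * Δ := by
        have h5 : Real.pi * (hh * (1 / S.C) / 4) ^ 2 ≤ Δ := by rw [hΔ]; linarith
        have h6 : Real.pi * (hh * (1 / S.C) / 4) ^ 2 = Real.pi * hh ^ 2 / (16 * S.C ^ 2) := by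
          field_simp
          ring
        rw [h6, div_le_iff₀ (by positivity)] at h5
        have h7 := Real.pi_gt_three
        have h8 : 3 * hh ^ 2 ≤ Real.pi * hh ^ 2 :=
          mul_le_mul_of_nonneg_right h7.le (sq_nonneg _)
        nlinarith
      have hΔ0 : 0 ≤ Δ := by
        rw [hΔ]
        have := measureReal_nonneg (μ := volume) (s := D ∩ Ut P S.v hh)
        linarith
      have hg' : S.Q (Ft F P S.v hh) (D \ Ut P S.v hh) ≤ S.Q F D +
          C0 * (ε * (Δ + hh ^ 2) + γ' + t0) := hg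
      have h9 : C0 * (ε * (Δ + hh ^ 2)) ≤ Cst * ε * Δ := by
        have h10 : Δ + hh ^ 2 ≤ (1 + 6 * S.C ^ 2) * Δ := by linarith
        have h11 : C0 * (ε * (Δ + hh ^ 2)) ≤ C0 * (ε * ((1 + 6 * S.C ^ 2) * Δ)) := by
          apply mul_le_mul_of_nonneg_left _ hC0p.le
          exact mul_le_mul_of_nonneg_left h10 hε.le
        have h12 : C0 * (1 + 6 * S.C ^ 2) ≤ Cst := by rw [hCst]; linarith
        have h13 : 0 ≤ ε * Δ := by positivity
        nlinarith
      nlinarith
    · intro z hz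
      exact count_A h hne hK H.fr hz
  · -- bridge
    push Not at hfree
    obtain ⟨q1, hq1, hnot⟩ := hfree
    rw [not_subset] at hnot
    obtain ⟨y1, hy1, hy1'⟩ := hnot
    have hy1K := mem_K2 hpart hy1'
    have hK2ne : K2.Nonempty := ⟨y1, hy1K⟩
    obtain ⟨ps, hps, hmin⟩ := Finset.exists_min_image P
      (fun q => infDist q K2 / S.v q) ⟨q1, hq1⟩
    set ts := infDist ps K2 / S.v ps with hts
    have hd0 : ∀ q ∈ P, η ≤ infDist q K2 := by
      intro q hq
      rw [le_infDist hK2ne]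
      intro y hy
      exact hsep q (hPm q hq).2 y hy
    have hts1 : 2 * τ ≤ ts := by
      rw [hts, le_div_iff₀ (hv0 ps)]
      have h1 : τ * S.v ps ≤ (η / (2 * S.C)) * S.C :=
        mul_le_mul hτη (hv2 ps) (hv0 ps).le (by positivity)
      have h2 : (η / (2 * S.C)) * S.C = η / 2 := by field_simp
      have h3 := hd0 ps hps
      linarith
    have hts2 : ts ≤ hh := by
      have h1 := hmin q1 hq1
      refine h1.trans ?_
      rw [div_le_iff₀ (hv0 q1)]
      have h2 : infDist q1 K2 ≤ dist q1 y1 := infDist_le_dist_of_mem hy1K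
      rw [mem_closedBall, dist_comm] at hy1
      exact h2.trans hy1
    obtain ⟨q, hqK2, hqd⟩ := hpart.closed2.exists_infDist_eq_dist hK2ne ps
    set κ := min (ts / 2) (e / S.C) with hκ
    have htsp : 0 < ts := by linarith
    have hκp : 0 < κ := by rw [hκ]; apply lt_min <;> positivity
    set t1 := ts - κ with ht1
    have hκ1 : κ ≤ ts / 2 := min_le_left _ _
    have hκ2 : κ ≤ e / S.C := min_le_right _ _
    have h01 : t0 ≤ t1 := by
      have := ht0.2
      rw [ht1]; linarith
    have h1h : t1 ≤ hh := by rw [ht1]; linarith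
    have hfree1 : ∀ q ∈ P, closedBall q (t1 * S.v q) ⊆ K ∪ D := by
      intro q hq y hy
      by_contra hcon
      have hyK := mem_K2 hpart hcon
      have h1 : infDist q K2 ≤ dist q y := infDist_le_dist_of_mem hyK
      rw [mem_closedBall, dist_comm] at hy
      have h2 := hmin q hq
      rw [le_div_iff₀ (hv0 q)] at h2
      have h3 : t1 * S.v q < ts * S.v q := by
        apply mul_lt_mul_of_pos_right _ (hv0 q)
        rw [ht1]; linarith
      linarith
    have H := hHyp t1 h01 h1h hfree1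
    have hg := hgrow ε F D K K2 P t0 t1 γ' X l0 p m H hε4
    have hreg1 := reg_front h H.fr (t := t1) ⟨H.fr.t01, le_rfl⟩
    have hsub1 : D \ Ut P S.v t1 ⊆ S.W := sdiff_subset.trans hD
    obtain ⟨hadd1, hadd2⟩ := add_disc S hreg1 hsub1 (z := q) hep
    have hqD : q ∈ Dᶜ := by
      rw [← hpart.union]; exact Or.inr hqK2
    rw [← hun] at hqD
    obtain ⟨K', hK', hqK'⟩ := hqD
    have hKK : K' ≠ K := by
      intro heq
      rw [heq] at hqK'
      exact (disjoint_left.1 hpart.disj hqK') hqK2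
    refine ⟨_, _, hadd1, sdiff_subset.trans sdiff_subset, Or.inr ⟨?_, ?_⟩⟩
    · have hΔ : A - AA S D P t1 ≤ A := by
        have : 0 ≤ AA S D P t1 := measureReal_nonneg
        linarith
      have ht1p : 0 ≤ t1 := ht0p.le.trans h01
      have ht12 : t1 ^ 2 ≤ A := by
        have h1 : t1 ≤ r := by
          have : ε * r ≤ 1 * r := mul_le_mul_of_nonneg_right hε1 hr.le
          linarith
        have h2 : t1 ^ 2 ≤ r ^ 2 := pow_le_pow_left₀ ht1p h1 2
        linarith
      have h9 : C0 * (ε * ((A - AA S D P t1) + t1 ^ 2)) ≤ Cst * ε * A := by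
        have h10 : (A - AA S D P t1) + t1 ^ 2 ≤ 2 * A := by linarith
        have h11 : C0 * (ε * ((A - AA S D P t1) + t1 ^ 2)) ≤ C0 * (ε * (2 * A)) := by
          apply mul_le_mul_of_nonneg_left _ hC0p.le
          exact mul_le_mul_of_nonneg_left h10 hε.le
        have h12 : 2 * C0 ≤ Cst := by rw [hCst]; linarith
        have h13 : 0 ≤ ε * A := by positivity
        nlinarith
      have h14 : S.C * (Real.pi * e ^ 2) + S.E * (2 * Real.pi * e * S.C) ≤ Kd * e := by
        have : e ^ 2 ≤ e := by nlinarith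
        have h15 : S.C * Real.pi * e ^ 2 ≤ S.C * Real.pi * e :=
          mul_le_mul_of_nonneg_left this (by positivity)
        rw [hKd]
        nlinarith
      linarith
    · intro z hz
      refine count_B h hne hK hK' hKK H.fr hep hqK' ?_ hz
      -- the bridge
      have hdpos : 0 < dist ps q := by
        have h1 := hd0 ps hps
        rw [hqd] at h1
        linarith
      have hdts : dist ps q = ts * S.v ps := by
        rw [hts, ← hqd, div_mul_cancel₀ _ (hv0 ps).ne']
      set x : ℂ := ps + ((t1 * S.v ps / dist ps q : ℝ) : ℂ) * (q - ps) with hx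
      have hnorm : ‖q - ps‖ = dist ps q := by rw [dist_comm, dist_eq_norm]
      have ht1v : 0 ≤ t1 * S.v ps := mul_nonneg (ht0p.le.trans h01) (hv0 ps).le
      have hx1 : dist x ps = t1 * S.v ps := by
        rw [dist_eq_norm, hx, add_sub_cancel_left, norm_mul, hnorm, Complex.norm_real,
          Real.norm_eq_abs, abs_of_nonneg (div_nonneg ht1v hdpos.le)]
        field_simp
      have hx2 : dist x q ≤ e := by
        have e1 : x - q = ((-(1 - t1 * S.v ps / dist ps q) : ℝ) : ℂ) * (q - ps) := by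
          rw [hx]; push_cast; ring
        have e2 : 0 ≤ 1 - t1 * S.v ps / dist ps q := by
          rw [sub_nonneg, div_le_one hdpos, hdts]
          apply mul_le_mul_of_nonneg_right _ (hv0 ps).le
          rw [ht1]; linarith
        rw [dist_eq_norm, e1, norm_mul, hnorm, Complex.norm_real, Real.norm_eq_abs, abs_neg,
          abs_of_nonneg e2]
        have e3 : (1 - t1 * S.v ps / dist ps q) * dist ps q = κ * S.v ps := by
          have : (1 - t1 * S.v ps / dist ps q) * dist ps q = dist ps q - t1 * S.v ps := by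
            field_simp
          rw [this, hdts, ht1]; ring
        rw [e3]
        calc κ * S.v ps ≤ (e / S.C) * S.C := mul_le_mul hκ2 (hv2 ps) (hv0 ps).le (by positivity)
          _ = e := by field_simp
      refine ⟨x, mem_closedBall.2 hx2, ?_⟩
      unfold Ut
      simp only [mem_iUnion]
      exact ⟨ps, hps, mem_closedBall.2 hx1.le⟩

end Pool.Agent.FKM
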