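import Mathlib
import Pool.Agent.Helper13.FKM.StepC
import Pool.Agent.Helper13.FKM.CompQ
import Pool.Agent.Helper13.FKM.MkDat

/-!
FKM-49: the functional is nonnegative
-/

set_option autoImplicit false

open Complex MeasureTheory Set Metric Filter
open scoped ComplexConjugate Topology

namespace Pool.Agent.FKM

theorem Q_low (S : Dat) {F : Finset (ℂ × ℝ)} {D : Set ℂ} (h : Reg F D) (hD : D ⊆ S.W) :
    -(S.C * volume.real D) ≤ S.Q F D := by
  have h1 : ‖∫ z in D, S.P z‖ ≤ S.C * volume.real D := by
    apply norm_setIntegral_le_of_norm_le_const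
    · exact (measure_mono hD).trans_lt (W_fin S)
    · intro z _
      rw [Real.norm_eq_abs]
      exact S.P_le z
  rw [Real.norm_eq_abs] at h1
  have h2 := (abs_le.1 h1).1
  have h3 : 0 ≤ bInt F D (fun z _ => S.g z) :=
    bInt_sub_nonneg h (Finset.Subset.refl _) (fun z _ => S.g_nonneg z)
  have h4 := (aF_mono S.hX S.E_pos (measureReal_nonneg (μ := volume) (s := D)) le_rfl
    (area_le hD)).1
  unfold Dat.Q QQ
  have := mul_nonneg h4 h3
  linarith

theorem Q_conn (S : Dat) : ∀ (n : ℕ) (F : Finset (ℂ × ℝ)) (D : Set ℂ), Reg F D →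
    IsConnected D → D ⊆ S.W → (CC D).ncard ≤ n → 0 ≤ S.Q F D := by
  intro n
  induction n with
  | zero =>
    intro F D h hc hD hn
    exfalso
    obtain ⟨K0, hK0, _⟩ := cc_outer h hc.nonempty
    have hfin := (cc_basic h hc.nonempty).1
    have := (Set.ncard_eq_zero hfin).1 (Nat.le_zero.1 hn)
    rw [this] at hK0
    exact hK0
  | succ n ih =>
    intro F0 D0 h0 hc0 hD0 hn0
    by_contra hneg
    push Not at hneg
    obtain ⟨C, c, hC1, hc, hstep⟩ := step S
    set L : Set ℝ := {x | ∃ (F : Finset (ℂ × ℝ)) (D : Set ℂ), Reg F D ∧ IsConnected D ∧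
      D ⊆ S.W ∧ (CC D).ncard ≤ n + 1 ∧ x = -S.Q F D / volume.real D} with hL
    have hLb : BddAbove L := by
      refine ⟨S.C, ?_⟩
      rintro x ⟨F, D, h, hc', hD, _, rfl⟩
      have hA := area_pos h.op h.bdd hc'.nonempty
      rw [div_le_iff₀ hA]
      linarith [Q_low S h hD]
    have hA0 := area_pos h0.op h0.bdd hc0.nonempty
    have hmem0 : -S.Q F0 D0 / volume.real D0 ∈ L := ⟨F0, D0, h0, hc0, hD0, hn0, rfl⟩
    set κ := sSup L with hκ
    have hκpos : 0 < κ := by
      have h1 := le_csSup hLb hmem0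
      have h2 : 0 < -S.Q F0 D0 / volume.real D0 := div_pos (by linarith) hA0
      linarith
    have hCp : 0 < C := by linarith
    set ε := min (1 / C) (κ / (4 * C)) with hε
    have hεp : 0 < ε := by rw [hε]; apply lt_min <;> positivity
    have hε1 : C * ε ≤ 1 := by
      have : ε ≤ 1 / C := min_le_left _ _
      calc C * ε ≤ C * (1 / C) := mul_le_mul_of_nonneg_left this hCp.le
        _ = 1 := by field_simp
    have hε2 : C * ε ≤ κ / 4 := by
      have : ε ≤ κ / (4 * C) := min_le_right _ _
      calc C * ε ≤ C * (κ / (4 * C)) := mul_le_mul_of_nonneg_left this hCp.le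
        _ = κ / 4 := by field_simp
    set η := min (κ / 4) (κ * (c * ε ^ 2) / 4) with hη
    have hηp : 0 < η := by rw [hη]; apply lt_min <;> positivity
    have hη1 : η ≤ κ / 4 := min_le_left _ _
    have hη2 : η ≤ κ * (c * ε ^ 2) / 4 := min_le_right _ _
    obtain ⟨x, ⟨F, D, h, hcD, hD, hn, rfl⟩, hx⟩ :=
      exists_lt_of_lt_csSup ⟨_, hmem0⟩ (show κ - η < sSup L by rw [← hκ]; linarith)
    have hA := area_pos h.op h.bdd hcD.nonempty
    set A := volume.real D with hAdef
    have hQ : S.Q F D < (-κ + η) * A := by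
      rw [lt_div_iff₀ hA] at hx
      linarith
    have hQ0 : S.Q F D ≤ 0 := by
      have : (-κ + η) * A ≤ 0 := by
        apply mul_nonpos_of_nonpos_of_nonneg _ hA.le
        linarith
      linarith
    set γ := min (κ * A / 4) (κ * (c * ε ^ 2) * A / 4) with hγ
    have hγp : 0 < γ := by rw [hγ]; apply lt_min <;> positivity
    have hγ1 : γ ≤ κ * A / 4 := min_le_left _ _
    have hγ2 : γ ≤ κ * (c * ε ^ 2) * A / 4 := min_le_right _ _
    obtain ⟨F', D', h', hsub, hcase⟩ := hstep ε hεp hε1 F D h hcD.nonempty hD hQ0 γ hγp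
    have hD' : D' ⊆ S.W := hsub.trans hD
    rcases hcase with ⟨hΔ, hQ', hcount⟩ | ⟨hQ', hcount⟩
    · have hlow : -κ * volume.real D' ≤ S.Q F' D' := by
        apply Q_comp S h' hD'
        intro z hz
        obtain ⟨hr, hcn⟩ := reg_comp h' hz
        have hsub' : connectedComponentIn D' z ⊆ D' := connectedComponentIn_subset D' z
        have hmem : -S.Q F' (connectedComponentIn D' z) /
            volume.real (connectedComponentIn D' z) ∈ L :=
          ⟨F', _, hr, hcn, hsub'.trans hD', (hcount z hz).trans hn, rfl⟩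
        have h1 := le_csSup hLb hmem
        have hA' := area_pos hr.op hr.bdd hcn.nonempty
        rw [div_le_iff₀ hA'] at h1
        linarith
      set Δ := A - volume.real D' with hΔdef
      have h1 : κ * Δ < η * A + C * ε * Δ + γ := by
        have : -κ * volume.real D' = -κ * A + κ * Δ := by rw [hΔdef]; ring
        linarith
      have hΔ0 : 0 ≤ Δ := by
        have : 0 ≤ c * ε ^ 2 * A := by positivity
        linarith
      have h2 : C * ε * Δ ≤ κ / 4 * Δ := mul_le_mul_of_nonneg_right hε2 hΔ0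
      have h3 : κ * (c * ε ^ 2 * A) ≤ κ * Δ := mul_le_mul_of_nonneg_left hΔ hκpos.le
      have h4 : η * A ≤ κ * (c * ε ^ 2) / 4 * A := mul_le_mul_of_nonneg_right hη2 hA.le
      have h5 : 0 < κ * (c * ε ^ 2 * A) := by positivity
      nlinarith
    · have hlow : -0 * volume.real D' ≤ S.Q F' D' := by
        apply Q_comp S h' hD'
        intro z hz
        obtain ⟨hr, hcn⟩ := reg_comp h' hz
        have hsub' : connectedComponentIn D' z ⊆ D' := connectedComponentIn_subset D' z
        have h1 : (CC (connectedComponentIn D' z)).ncard ≤ n := by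
          have := hcount z hz
          omega
        have := ih F' _ hr hcn (hsub'.trans hD') h1
        simpa using this
      have h2 : C * ε * A ≤ κ / 4 * A := mul_le_mul_of_nonneg_right hε2 hA.le
      have h4 : η * A ≤ κ / 4 * A := mul_le_mul_of_nonneg_right hη1 hA.le
      have h5 : 0 < κ * A := by positivity
      nlinarith

theorem Q_nonneg (S : Dat) {F : Finset (ℂ × ℝ)} {D : Set ℂ} (h : Reg F D) (hD : D ⊆ S.W) :
    0 ≤ S.Q F D := by
  have h1 : -0 * volume.real D ≤ S.Q F D := by
    apply Q_comp S h hD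
    intro z hz
    obtain ⟨hr, hcn⟩ := reg_comp h hz
    have hsub' : connectedComponentIn D z ⊆ D := connectedComponentIn_subset D z
    have := Q_conn S _ F _ hr hcn (hsub'.trans hD) le_rfl
    simpa using this
  simpa using h1

/-- **main inequality**: for every smooth function without zeros on the closure of `D` -/
theorem main_nonneg {E X : ℝ} {u : ℂ → ℂ} {F : Finset (ℂ × ℝ)} {D : Set ℂ}
    (hX : FK.Profile X) (hE : 0 < E) (hu : ∀ k : ℕ, ContDiff ℝ k u) (h : Reg F D)
    (hne : ∀ z ∈ closure D, u z ≠ 0) (harea : E ^ 2 * volume.real D ≤ Real.pi * X ^ 2) :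
    0 ≤ QQ E (gU u) (PU E u) F D := by
  obtain ⟨S, hSE, hSX, hSW, hSg, hSP⟩ := mkDat hX hE hu h.op h.bdd hne harea
  have h1 := Q_nonneg S h (by rw [hSW])
  have h2 : S.Q F D = QQ E (gU u) (PU E u) F D := by
    unfold Dat.Q QQ
    rw [hSE]
    have e1 : ∫ z in D, S.P z = ∫ z in D, PU E u z :=
      setIntegral_congr_fun h.op.measurableSet (fun z hz => hSP z (subset_closure hz))
    have e2 : bInt F D (fun z _ => S.g z) = bInt F D (fun z _ => gU u z) := by
      unfold bInt
      refine Finset.sum_congr rfl fun b _ => ?_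
      congr 1
      exact setIntegral_congr_fun (measurableSet_expo D b) (fun θ hθ => hSg _ hθ.2)
    rw [e1, e2]
  rw [← h2]; exact h1

end Pool.Agent.FKM
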