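import Mathlib
import Pool.Agent.Helper13.FKM.Basic
import Pool.Agent.Helper13.FKM.BesA

/-!
FKM-37: removing the zeros.

Plan. Z = {z ∈ closure D | u z = 0} is compact; u is Lipschitz on a neighbourhood of closure D, so
‖u z‖ ≤ C s for dist z Z ≤ s. For s ∈ (0,1] there is a finite N0 ⊆ Z with at most C'/s^2 points such that Z is
covered by the open balls of radius s around N0 (one point in every square of a grid of mesh s/2 which meets
Z). N = N0.image (z, s), D' = D \ cl N, F' = F ∪ N (reg_add). closure D' misses the open balls, so u ≠ 0 on it.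
bInt_add: bInt F' D' g ≤ bInt F D g + (C'/s^2) 2π s (C s)^2. ∫_{D'} PU = ∫_D PU - ∫_{D ∩ cl N} PU ≤ ∫_D PU +
E^2 (C s)^2 |D|, since PU ≥ -E^2 ‖u‖^2. aF_mono, aF ≤ E. Let s → 0.
-/

set_option autoImplicit false

open Complex MeasureTheory Set Metric Filter
open scoped ComplexConjugate Topology

namespace Pool.Agent.FKM

/-- A finite `s`-net of a bounded set with at most `C / s ^ 2` points. -/
private theorem exists_net {R : ℝ} (hR : 0 ≤ R) {Z : Set ℂ} (hZ : ∀ z ∈ Z, ‖z‖ ≤ R) {s : ℝ}
    (hs : 0 < s) (hs1 : s ≤ 1) :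
    ∃ N0 : Finset ℂ, (∀ z ∈ N0, z ∈ Z) ∧ (∀ z ∈ Z, ∃ w ∈ N0, dist z w < s) ∧
      (N0.card : ℝ) * s ^ 2 ≤ (4 * R + 5) ^ 2 := by
  classical
  set f : ℂ → ℤ × ℤ := fun z => (⌊2 * z.re / s⌋, ⌊2 * z.im / s⌋) with hf
  set M : ℤ := ⌈2 * R / s⌉ + 1 with hM
  set T : Finset (ℤ × ℤ) := Finset.Icc (-M) M ×ˢ Finset.Icc (-M) M with hT
  have hfloor : ∀ x : ℝ, |x| ≤ R → ⌊2 * x / s⌋ ∈ Finset.Icc (-M) M := by
    intro x hx
    rw [abs_le] at hx
    have h1 : 2 * x / s ≤ 2 * R / s := by
      apply div_le_div_of_nonneg_right _ hs.le; linarith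
    have h2 : -(2 * R / s) ≤ 2 * x / s := by
      rw [← neg_div]
      apply div_le_div_of_nonneg_right _ hs.le; linarith
    rw [Finset.mem_Icc]
    constructor
    · rw [Int.le_floor]
      have h3 := Int.le_ceil (2 * R / s)
      rw [hM]; push_cast
      linarith
    · have h3 := Int.floor_le_ceil (2 * x / s)
      have h4 := Int.ceil_le_ceil h1
      omega
  have hfT : ∀ z ∈ Z, f z ∈ T := by
    intro z hz
    rw [hT, Finset.mem_product]
    exact ⟨hfloor _ ((Complex.abs_re_le_norm z).trans (hZ z hz)),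
      hfloor _ ((Complex.abs_im_le_norm z).trans (hZ z hz))⟩
  set ch : ℤ × ℤ → ℂ := fun c => if h : ∃ z ∈ Z, f z = c then h.choose else 0 with hch
  refine ⟨(T.filter (fun c => ∃ z ∈ Z, f z = c)).image ch, ?_, ?_, ?_⟩
  · intro w hw
    rw [Finset.mem_image] at hw
    obtain ⟨c, hc, rfl⟩ := hw
    rw [Finset.mem_filter] at hc
    simp only [hch, dif_pos hc.2]
    exact hc.2.choose_spec.1
  · intro z hz
    have hex : ∃ w ∈ Z, f w = f z := ⟨z, hz, rfl⟩
    refine ⟨ch (f z), Finset.mem_image_of_mem _ (Finset.mem_filter.2 ⟨hfT z hz, hex⟩), ?_⟩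
    have h1 : ch (f z) = hex.choose := by simp only [hch, dif_pos hex]
    have h2 : f (ch (f z)) = f z := by rw [h1]; exact hex.choose_spec.2
    set w := ch (f z) with hw
    simp only [hf, Prod.mk.injEq] at h2
    have key : ∀ x y : ℝ, ⌊2 * x / s⌋ = ⌊2 * y / s⌋ → |y - x| < s / 2 := by
      intro x y hxy
      have h3 := Int.abs_sub_lt_one_of_floor_eq_floor hxy
      rw [abs_sub_comm, ← sub_div, abs_div, abs_of_pos hs, div_lt_one hs,
        show 2 * y - 2 * x = 2 * (y - x) by ring, abs_mul, abs_two] at h3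
      linarith
    have h3 := key _ _ h2.1
    have h4 := key _ _ h2.2
    rw [dist_eq_norm]
    calc ‖z - w‖ ≤ |(z - w).re| + |(z - w).im| := Complex.norm_le_abs_re_add_abs_im _
      _ < s / 2 + s / 2 := by
        rw [Complex.sub_re, Complex.sub_im]
        exact add_lt_add h3 h4
      _ = s := by ring
  · have h1 : ((T.filter (fun c => ∃ z ∈ Z, f z = c)).image ch).card ≤ T.card :=
      Finset.card_image_le.trans (Finset.card_filter_le _ _)
    have hM0 : 0 ≤ M := by
      rw [hM]
      have : 0 ≤ ⌈2 * R / s⌉ := Int.ceil_nonneg (by positivity)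
      omega
    have h2 : (T.card : ℝ) = (2 * M + 1 : ℝ) ^ 2 := by
      rw [hT, Finset.card_product, Int.card_Icc]
      have : ((M + 1 - -M).toNat : ℝ) = 2 * M + 1 := by
        have h5 : ((M + 1 - -M).toNat : ℤ) = 2 * M + 1 := by
          rw [Int.toNat_of_nonneg (by omega)]; ring
        exact_mod_cast h5
      push_cast
      rw [this]; ring
    have h3 : (2 * M + 1 : ℝ) * s ≤ 4 * R + 5 := by
      have h4 : (M : ℝ) ≤ 2 * R / s + 2 := by
        rw [hM]; push_cast
        have := Int.ceil_lt_add_one (2 * R / s)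
        linarith
      have h5 : (2 * M + 1 : ℝ) * s ≤ (2 * (2 * R / s + 2) + 1) * s :=
        mul_le_mul_of_nonneg_right (by linarith) hs.le
      have h6 : (2 * (2 * R / s + 2) + 1) * s = 4 * R + 5 * s := by
        field_simp
        ring
      linarith
    have h7 : 0 ≤ (2 * M + 1 : ℝ) * s := by
      have : (0 : ℝ) ≤ M := by exact_mod_cast hM0
      positivity
    calc ((((T.filter (fun c => ∃ z ∈ Z, f z = c)).image ch).card : ℕ) : ℝ) * s ^ 2
        ≤ (T.card : ℝ) * s ^ 2 := by
          apply mul_le_mul_of_nonneg_right _ (by positivity)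
          exact_mod_cast h1
      _ = ((2 * M + 1 : ℝ) * s) ^ 2 := by rw [h2]; ring
      _ ≤ (4 * R + 5) ^ 2 := pow_le_pow_left₀ h7 h3 2

private theorem lip_ball {u : ℂ → ℂ} (hu : ContDiff ℝ 1 u) (R : ℝ) :
    ∃ C : ℝ, 0 ≤ C ∧ ∀ z ∈ closedBall (0 : ℂ) R, ∀ w ∈ closedBall (0 : ℂ) R,
      ‖u z - u w‖ ≤ C * ‖z - w‖ := by
  have hc : Continuous (fderiv ℝ u) := hu.continuous_fderiv (by norm_num)
  obtain ⟨C, hC⟩ := (isCompact_closedBall (0 : ℂ) R).exists_bound_of_continuousOn
    (f := fderiv ℝ u) hc.continuousOn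
  refine ⟨|C|, abs_nonneg C, fun z hz w hw => ?_⟩
  exact Convex.norm_image_sub_le_of_norm_fderiv_le (𝕜 := ℝ)
    (fun x _ => (hu.differentiable (by norm_num)) x)
    (fun x hx => (hC x hx).trans (le_abs_self C)) (convex_closedBall 0 R) hw hz

private theorem continuous_PU (E : ℝ) {u : ℂ → ℂ} (hu : ContDiff ℝ 1 u) :
    Continuous (PU E u) := by
  have hc : Continuous (fderiv ℝ u) := hu.continuous_fderiv (by norm_num)
  have h1 : Continuous (FK.dzb u) := by
    unfold FK.dzb
    have h2 : Continuous (fun z => fderiv ℝ u z 1) := hc.clm_apply continuous_const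
    have h3 : Continuous (fun z => fderiv ℝ u z I) := hc.clm_apply continuous_const
    exact (h2.add (continuous_const.mul h3)).div_const 2
  have h4 : Continuous u := hu.continuous
  unfold PU
  fun_prop

theorem remove_zeros {E X : ℝ} {u : ℂ → ℂ} {F : Finset (ℂ × ℝ)} {D : Set ℂ}
    (hX : FK.Profile X) (hE : 0 < E) (hu : ContDiff ℝ 1 u) (h : Reg F D)
    (harea : E ^ 2 * volume.real D ≤ Real.pi * X ^ 2) {ε : ℝ} (hε : 0 < ε) :
    ∃ (F' : Finset (ℂ × ℝ)) (D' : Set ℂ), Reg F' D' ∧ D' ⊆ D ∧ (∀ z ∈ closure D', u z ≠ 0) ∧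
      QQ E (gU u) (PU E u) F' D' ≤ QQ E (gU u) (PU E u) F D + ε := by
  classical
  -- a large ball
  obtain ⟨R0, hR0⟩ := h.bdd.subset_closedBall (0 : ℂ)
  set R : ℝ := max R0 0 with hRdef
  have hRpos : 0 ≤ R := le_max_right _ _
  have hDR : closure D ⊆ closedBall (0 : ℂ) R :=
    closure_minimal (hR0.trans (closedBall_subset_closedBall (le_max_left _ _))) isClosed_closedBall
  obtain ⟨C, hC0, hC⟩ := lip_ball hu (R + 1)
  set Z : Set ℂ := {z | z ∈ closure D ∧ u z = 0} with hZdef
  have hZR : ∀ z ∈ Z, ‖z‖ ≤ R := fun z hz => by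
    have := hDR hz.1
    rwa [mem_closedBall, dist_zero_right] at this
  have hucont : Continuous u := hu.continuous
  have hfin : volume D ≠ ⊤ := by
    have : volume D ≤ volume (closedBall (0 : ℂ) R) := measure_mono (subset_closure.trans hDR)
    exact (this.trans_lt measure_closedBall_lt_top).ne
  -- the constant
  set a : ℝ := aF E (volume.real D) with ha
  have hvol0 : 0 ≤ volume.real D := measureReal_nonneg
  have ha0 : 0 ≤ a := (aF_mono hX hE hvol0 le_rfl harea).1
  set K : ℝ := a * ((4 * R + 5) ^ 2 * (2 * Real.pi) * C ^ 2) + E ^ 2 * C ^ 2 * volume.real D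
    with hK
  have hK0 : 0 ≤ K := by positivity
  set s : ℝ := min 1 (ε / (K + 1)) with hsdef
  have hs : 0 < s := lt_min one_pos (by positivity)
  have hs1 : s ≤ 1 := min_le_left _ _
  have hsε : s * K ≤ ε := by
    have h1 : s ≤ ε / (K + 1) := min_le_right _ _
    have h2 : s * (K + 1) ≤ ε := by rwa [le_div_iff₀ (by positivity)] at h1
    nlinarith
  obtain ⟨N0, hN0Z, hN0c, hN0n⟩ := exists_net hRpos hZR hs hs1
  set N : Finset (ℂ × ℝ) := N0.image (fun z => (z, s)) with hN
  have hNpos : ∀ b ∈ N, 0 < b.2 := by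
    intro b hb
    rw [hN, Finset.mem_image] at hb
    obtain ⟨z, _, rfl⟩ := hb
    exact hs
  have hNZ : ∀ b ∈ N, b.1 ∈ Z ∧ b.2 = s := by
    intro b hb
    rw [hN, Finset.mem_image] at hb
    obtain ⟨z, hz, rfl⟩ := hb
    exact ⟨hN0Z z hz, rfl⟩
  -- smallness near the zeros
  have hsmall : ∀ z ∈ Z, ∀ w : ℂ, dist w z ≤ s → ‖u w‖ ≤ C * s := by
    intro z hz w hw
    have h1 : z ∈ closedBall (0 : ℂ) (R + 1) := by
      rw [mem_closedBall, dist_zero_right]
      linarith [hZR z hz]
    have h2 : w ∈ closedBall (0 : ℂ) (R + 1) := by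
      rw [mem_closedBall, dist_zero_right]
      have h3 : ‖w‖ ≤ ‖z‖ + dist w z := by
        rw [dist_eq_norm]
        calc ‖w‖ = ‖z + (w - z)‖ := by congr 1; ring
          _ ≤ _ := norm_add_le _ _
      linarith [hZR z hz]
    have h3 := hC w h2 z h1
    rw [hz.2, sub_zero] at h3
    refine h3.trans (mul_le_mul_of_nonneg_left ?_ hC0)
    rwa [dist_eq_norm] at hw
  have hreg : Reg (F ∪ N) (D \ cl N) := reg_add h hNpos
  refine ⟨F ∪ N, D \ cl N, hreg, sdiff_subset, ?_, ?_⟩
  · intro z hz hz0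
    have hzD : z ∈ closure D := closure_mono sdiff_subset hz
    obtain ⟨w, hw, hzw⟩ := hN0c z ⟨hzD, hz0⟩
    rw [_root_.mem_closure_iff] at hz
    obtain ⟨y, hy1, hy2⟩ := hz (ball w s) isOpen_ball hzw
    apply hy2.2
    rw [cl]
    refine mem_iUnion₂.2 ⟨(w, s), Finset.mem_image_of_mem _ hw, ?_⟩
    exact ball_subset_closedBall hy1
  · have hg0 : ∀ z, 0 ≤ gU u z := fun z => by unfold gU; positivity
    have hgc : Continuous (gU u) := by unfold gU; fun_prop
    have hb := bInt_add h hNpos hgc hg0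
    have hsum : ∑ b ∈ N, b.2 * ∫ θ in Ioc (-Real.pi) Real.pi, gU u (circleMap b.1 b.2 θ) ≤
        s * ((4 * R + 5) ^ 2 * (2 * Real.pi) * C ^ 2) := by
      have h1 : ∀ b ∈ N, b.2 * ∫ θ in Ioc (-Real.pi) Real.pi, gU u (circleMap b.1 b.2 θ) ≤
          s * ((C * s) ^ 2 * (2 * Real.pi)) := by
        intro b hb
        obtain ⟨hbZ, hbs⟩ := hNZ b hb
        rw [hbs]
        apply mul_le_mul_of_nonneg_left _ hs.le
        have h2 : ∀ θ, gU u (circleMap b.1 s θ) ≤ (C * s) ^ 2 := by
          intro θ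
          unfold gU
          apply pow_le_pow_left₀ (norm_nonneg _)
          apply hsmall b.1 hbZ
          rw [dist_eq_norm, circleMap_sub_center, norm_circleMap_zero, abs_of_pos hs]
        have h3 : ∫ θ in Ioc (-Real.pi) Real.pi, gU u (circleMap b.1 s θ) ≤
            ∫ θ in Ioc (-Real.pi) Real.pi, (C * s) ^ 2 := by
          apply setIntegral_mono_on
          · have : Continuous (fun θ => gU u (circleMap b.1 s θ)) :=
              hgc.comp (continuous_circleMap _ _)
            exact this.integrableOn_Ioc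
          · exact continuous_const.integrableOn_Ioc
          · exact measurableSet_Ioc
          · exact fun θ _ => h2 θ
        refine h3.trans ?_
        rw [setIntegral_const, smul_eq_mul, Real.volume_real_Ioc_of_le (by linarith [Real.pi_pos])]
        apply le_of_eq; ring
      refine (Finset.sum_le_sum h1).trans ?_
      rw [Finset.sum_const, nsmul_eq_mul]
      have hcard : (N.card : ℝ) ≤ N0.card := by
        rw [hN]; exact_mod_cast Finset.card_image_le
      have h4 : (N.card : ℝ) * s ^ 2 ≤ (4 * R + 5) ^ 2 :=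
        (mul_le_mul_of_nonneg_right hcard (by positivity)).trans hN0n
      calc (N.card : ℝ) * (s * ((C * s) ^ 2 * (2 * Real.pi)))
          = (N.card * s ^ 2) * (s * (2 * Real.pi * C ^ 2)) := by ring
        _ ≤ (4 * R + 5) ^ 2 * (s * (2 * Real.pi * C ^ 2)) :=
          mul_le_mul_of_nonneg_right h4 (by positivity)
        _ = _ := by ring
    -- the area integral
    have hPc : Continuous (PU E u) := continuous_PU E hu
    have hint : IntegrableOn (PU E u) D := by
      have h1 : IntegrableOn (PU E u) (closedBall (0 : ℂ) R) :=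
        hPc.continuousOn.integrableOn_compact (isCompact_closedBall _ _)
      exact h1.mono_set (subset_closure.trans hDR)
    have hclm : MeasurableSet (cl N) := by
      unfold cl
      exact Finset.measurableSet_biUnion _ (fun b _ => isClosed_closedBall.measurableSet)
    have hsplit : ∫ z in D, PU E u z =
        (∫ z in D ∩ cl N, PU E u z) + ∫ z in D \ cl N, PU E u z :=
      (integral_inter_add_sdiff hclm hint).symm
    have hlow : -(E ^ 2 * (C * s) ^ 2 * volume.real D) ≤ ∫ z in D ∩ cl N, PU E u z := by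
      have h1 : ∀ z ∈ D ∩ cl N, -(E ^ 2 * (C * s) ^ 2) ≤ PU E u z := by
        intro z hz
        obtain ⟨_, hz2⟩ := hz
        rw [cl] at hz2
        obtain ⟨b, hb, hzb⟩ := mem_iUnion₂.1 hz2
        obtain ⟨hbZ, hbs⟩ := hNZ b hb
        rw [mem_closedBall, hbs] at hzb
        have h2 := hsmall b.1 hbZ z hzb
        have h3 : ‖u z‖ ^ 2 ≤ (C * s) ^ 2 := pow_le_pow_left₀ (norm_nonneg _) h2 2
        unfold PU
        have h4 : E ^ 2 * ‖u z‖ ^ 2 ≤ E ^ 2 * (C * s) ^ 2 :=
          mul_le_mul_of_nonneg_left h3 (by positivity)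
        have h5 : 0 ≤ 4 * ‖FK.dzb u z‖ ^ 2 := by positivity
        linarith
      have hm : MeasurableSet (D ∩ cl N) := h.op.measurableSet.inter hclm
      have hfin2 : volume (D ∩ cl N) ≠ ⊤ := ne_top_of_le_ne_top hfin (measure_mono inter_subset_left)
      have h2 : ∫ z in D ∩ cl N, (-(E ^ 2 * (C * s) ^ 2) : ℝ) ≤ ∫ z in D ∩ cl N, PU E u z := by
        apply setIntegral_mono_on
        · exact integrableOn_const hfin2
        · exact hint.mono_set inter_subset_left
        · exact hm
        · exact h1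
      rw [setIntegral_const, smul_eq_mul] at h2
      refine le_trans ?_ h2
      have h3 : volume.real (D ∩ cl N) ≤ volume.real D :=
        measureReal_mono inter_subset_left hfin
      have h4 : 0 ≤ E ^ 2 * (C * s) ^ 2 := by positivity
      nlinarith
    have hvle : volume.real (D \ cl N) ≤ volume.real D := measureReal_mono sdiff_subset hfin
    have haa := aF_mono hX hE (measureReal_nonneg (μ := volume) (s := D \ cl N)) hvle harea
    have hbn : 0 ≤ bInt (F ∪ N) (D \ cl N) (fun z _ => gU u z) :=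
      bInt_nonneg hreg (fun z _ => hg0 z)
    unfold QQ
    have h1 : aF E (volume.real (D \ cl N)) * bInt (F ∪ N) (D \ cl N) (fun z _ => gU u z) ≤
        a * (bInt F D (fun z _ => gU u z) + s * ((4 * R + 5) ^ 2 * (2 * Real.pi) * C ^ 2)) := by
      refine (mul_le_mul_of_nonneg_right haa.2 hbn).trans ?_
      exact mul_le_mul_of_nonneg_left (by linarith) ha0
    have h2 : E ^ 2 * (C * s) ^ 2 * volume.real D ≤ s * (E ^ 2 * C ^ 2 * volume.real D) := by
      have h3 : s ^ 2 ≤ s := by nlinarith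
      have h4 : 0 ≤ E ^ 2 * C ^ 2 * volume.real D := by positivity
      calc E ^ 2 * (C * s) ^ 2 * volume.real D = s ^ 2 * (E ^ 2 * C ^ 2 * volume.real D) := by ring
        _ ≤ s * (E ^ 2 * C ^ 2 * volume.real D) := mul_le_mul_of_nonneg_right h3 h4
    have h5 : s * K = a * (s * ((4 * R + 5) ^ 2 * (2 * Real.pi) * C ^ 2)) +
        s * (E ^ 2 * C ^ 2 * volume.real D) := by
      rw [hK]; ring
    rw [← ha]
    nlinarith

end Pool.Agent.FKM
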