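import Mathlib
import Pool.Agent.Helper13.FKM.Kappa
import Pool.Agent.Helper13.FKM.Flux
import Pool.Agent.Helper13.FKM.Approx
import Pool.Agent.Helper13.FKM.Zeros
import Pool.Agent.Helper99.FK.Bes3
import Pool.Agent.Helper99.FK.Conv

/-!
Faber-Krahn inequality for the infinite-mass Dirac operator on all bounded smooth domains: assembly
-/

set_option autoImplicit false

open Complex MeasureTheory Set Metric Filter
open scoped ComplexConjugate Topology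

namespace Pool.Agent.FKM

private theorem cont_PU (E : ℝ) {u : ℂ → ℂ} (hu : ContDiff ℝ 1 u) : Continuous (PU E u) := by
  have hc : Continuous (fderiv ℝ u) := hu.continuous_fderiv (by norm_num)
  have h1 : Continuous (FK.dzb u) := by
    unfold FK.dzb
    have h2 : Continuous (fun z => fderiv ℝ u z 1) := hc.clm_apply continuous_const
    have h3 : Continuous (fun z => fderiv ℝ u z I) := hc.clm_apply continuous_const
    exact (h2.add (continuous_const.mul h3)).div_const 2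
  have h4 : Continuous u := hu.continuous
  unfold PU
  fun_prop

private theorem integrable_bdd {S : Set ℂ} (hS : Bornology.IsBounded S) {f : ℂ → ℝ}
    (hf : Continuous f) : IntegrableOn f S := by
  have h1 : IsCompact (closure S) := hS.isCompact_closure
  exact (hf.continuousOn.integrableOn_compact h1).mono_set subset_closure

/-- the integral of `|u₁|²` is positive -/
private theorem N1_pos {ν : ℝ} {Ω : Set ℂ} {u₁ u₂ : ℂ → ℂ} (h : FK.Sol ν Ω u₁ u₂)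
    (hb : Bornology.IsBounded Ω) (hne : ∃ z ∈ Ω, u₁ z ≠ 0 ∨ u₂ z ≠ 0) :
    0 < ∫ z in Ω, ‖u₁ z‖ ^ 2 := by
  have hc : Continuous u₁ := (h.smooth₁ 0).continuous
  have hop := h.isOpen
  have h0 : 0 ≤ ∫ z in Ω, ‖u₁ z‖ ^ 2 := integral_nonneg fun z => by positivity
  rcases h0.lt_or_eq with h1 | h1
  · exact h1
  exfalso
  have hcont : Continuous fun z => ‖u₁ z‖ ^ 2 := by fun_prop
  have h2 : (fun z => ‖u₁ z‖ ^ 2) =ᵐ[volume.restrict Ω] 0 := by
    have := (setIntegral_eq_zero_iff_of_nonneg_ae (μ := volume) (s := Ω)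
      (f := fun z => ‖u₁ z‖ ^ 2) (Eventually.of_forall fun z => by positivity)
      (integrable_bdd hb hcont)).1 h1.symm
    exact this
  have h3 : EqOn (fun z => ‖u₁ z‖ ^ 2) 0 Ω :=
    Measure.eqOn_open_of_ae_eq h2 hop hcont.continuousOn continuousOn_const
  have h4 : ∀ z ∈ Ω, u₁ z = 0 := by
    intro z hz
    have := h3 hz
    simpa using this
  obtain ⟨z, hz, hz2⟩ := hne
  have h5 : fderiv ℝ u₁ z = 0 := by
    have : u₁ =ᶠ[𝓝 z] fun _ => 0 := by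
      filter_upwards [hop.mem_nhds hz] with w hw using h4 w hw
    rw [this.fderiv_eq]
    simp
  have h6 : FK.dzb u₁ z = 0 := by
    unfold FK.dzb
    rw [h5]
    simp
  have h7 := h.eq₁ z hz
  rw [h6] at h7
  have hν : (ν : ℂ) ≠ 0 := by exact_mod_cast h.pos.ne'
  have h8 : u₂ z = 0 := by
    have h9 : I * ν / 2 ≠ 0 := by
      apply div_ne_zero (mul_ne_zero I_ne_zero hν) two_ne_zero
    rcases mul_eq_zero.1 h7.symm with h10 | h10
    · exact absurd h10 h9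
    · exact h10
  rcases hz2 with h11 | h11
  · exact h11 (h4 z hz)
  · exact h11 h8

/-- **Faber-Krahn inequality** on the complex plane: a positive eigenvalue `ν` of a bounded
smooth domain `Ω` satisfies `π X² ≤ ν² |Ω|`, where `X` is the first root of `J₀ = J₁` -/
theorem fk_core {ν X : ℝ} {Ω : Set ℂ} {u₁ u₂ : ℂ → ℂ} {φ : ℂ → ℝ} (hX : FK.Profile X)
    (h : FK.Sol ν Ω u₁ u₂)
    (hφ : ∀ k : ℕ, ContDiff ℝ k φ) (hΩ : Ω = {z | φ z < 0}) (hb : Bornology.IsBounded Ω)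
    (hnd : ∀ z, φ z = 0 → fderiv ℝ φ z ≠ 0)
    (hne : ∃ z ∈ Ω, u₁ z ≠ 0 ∨ u₂ z ≠ 0)
    (hbc : ∀ z, φ z = 0 → I * (gr φ z / (‖gr φ z‖ : ℂ)) * u₁ z = u₂ z) :
    Real.pi * X ^ 2 ≤ ν ^ 2 * volume.real Ω := by
  by_contra hlt
  push Not at hlt
  have hop : IsOpen Ω := h.isOpen
  have hνp : 0 < ν := h.pos
  have hApos : 0 < volume.real Ω := area_pos hop hb ⟨_, hne.choose_spec.1⟩
  have hfin : volume Ω ≠ ⊤ := hb.measure_lt_top.ne
  obtain ⟨-, E', hE', hE'A, haF⟩ := aF_cont hX hνp hApos hlt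
  have hE'p : 0 < E' := hνp.trans hE'
  have hu1 : ContDiff ℝ 1 u₁ := by exact_mod_cast h.smooth₁ 1
  have hc1 : Continuous u₁ := hu1.continuous
  have hc2 : Continuous u₂ := (h.smooth₂ 0).continuous
  have hcU1 : Continuous fun z => ‖u₁ z‖ ^ 2 := by fun_prop
  have hcU2 : Continuous fun z => ‖u₂ z‖ ^ 2 := by fun_prop
  have hi1 := integrable_bdd hb hcU1
  have hi2 := integrable_bdd hb hcU2
  set N1 := ∫ z in Ω, ‖u₁ z‖ ^ 2 with hN1
  set N2 := ∫ z in Ω, ‖u₂ z‖ ^ 2 with hN2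
  have hN1p : 0 < N1 := N1_pos h hb hne
  have hJ0 : ∫ z in Ω, (‖u₁ z‖ ^ 2 - ‖u₂ z‖ ^ 2) = N1 - N2 := integral_sub hi1 hi2
  have hfl := flux_collar h hφ hΩ hb hnd hbc
  rw [hJ0] at hfl
  obtain ⟨L1, hL1⟩ := collar_bdd hφ hΩ hb hnd
  -- the density
  have hPc := cont_PU E' hu1
  obtain ⟨Cb, hCb⟩ : ∃ Cb : ℝ, ∀ z ∈ closure Ω, |PU E' u₁ z| ≤ Cb := by
    obtain ⟨C, hC⟩ := (hb.isCompact_closure).exists_bound_of_continuousOn hPc.continuousOn
    exact ⟨C, fun z hz => by simpa [Real.norm_eq_abs] using hC z hz⟩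
  have hCb0 : 0 ≤ Cb := by
    obtain ⟨z, hz, -⟩ := hne
    exact (abs_nonneg _).trans (hCb z (subset_closure hz))
  have hPΩ : ∫ z in Ω, PU E' u₁ z = ν ^ 2 * N2 - E' ^ 2 * N1 := by
    have e1 : ∫ z in Ω, PU E' u₁ z = ∫ z in Ω, (ν ^ 2 * ‖u₂ z‖ ^ 2 - E' ^ 2 * ‖u₁ z‖ ^ 2) := by
      apply setIntegral_congr_fun hop.measurableSet
      intro z hz
      simp only [PU]
      rw [h.eq₁ z hz]
      simp only [norm_mul, norm_div, Complex.norm_I, Complex.norm_real, Real.norm_eq_abs,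
        abs_of_pos hνp, Complex.norm_ofNat]
      ring
    rw [e1, integral_sub (hi2.const_mul _) (hi1.const_mul _), integral_const_mul,
      integral_const_mul]
  set G := (E' ^ 2 - ν ^ 2) * N1 with hG
  have hGp : 0 < G := by
    rw [hG]
    apply mul_pos _ hN1p
    nlinarith
  set ε := G / (2 * (ν + Cb)) with hε
  have hνC : 0 < ν + Cb := by linarith
  have hεp : 0 < ε := by rw [hε]; positivity
  have hε2 : (ν + Cb) * ε = G / 2 := by
    rw [hε]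
    field_simp
  obtain ⟨F, D, hreg, hcl, hvol, hbI⟩ := approx hφ hΩ hb hnd hcU1 (fun z => by positivity) hfl
    hL1 hεp
  have hDΩ : D ⊆ Ω := subset_closure.trans hcl
  have hDA : volume.real D ≤ volume.real Ω := measureReal_mono hDΩ hfin
  have haD := aF_mono hX hE'p (measureReal_nonneg (μ := volume) (s := D)) hDA hE'A.le
  have hbI0 : 0 ≤ bInt F D (fun z _ => ‖u₁ z‖ ^ 2) := bInt_nonneg hreg (fun z _ => by positivity)
  have hPi := integrable_bdd hb hPc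
  have hPD : ∫ z in D, PU E' u₁ z ≤ (∫ z in Ω, PU E' u₁ z) + Cb * ε := by
    have e1 : ∫ z in Ω, PU E' u₁ z = (∫ z in D, PU E' u₁ z) + ∫ z in Ω \ D, PU E' u₁ z := by
      rw [← setIntegral_union disjoint_sdiff_right (hop.measurableSet.diff hreg.op.measurableSet)
        (hPi.mono_set hDΩ) (hPi.mono_set diff_subset), union_diff_cancel hDΩ]
    have e2 : ‖∫ z in Ω \ D, PU E' u₁ z‖ ≤ Cb * volume.real (Ω \ D) := by
      apply norm_setIntegral_le_of_norm_le_const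
      · exact (measure_mono diff_subset).trans_lt hfin.lt_top
      · intro z hz
        rw [Real.norm_eq_abs]
        exact hCb z (subset_closure hz.1)
    rw [Real.norm_eq_abs] at e2
    have e3 := (abs_le.1 e2).1
    have e4 : Cb * volume.real (Ω \ D) ≤ Cb * ε := mul_le_mul_of_nonneg_left hvol hCb0
    linarith
  have hQ : QQ E' (gU u₁) (PU E' u₁) F D ≤ -(G / 2) := by
    unfold QQ
    have e0 : bInt F D (fun z _ => gU u₁ z) = bInt F D (fun z _ => ‖u₁ z‖ ^ 2) := rfl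
    rw [e0]
    have e1 : aF E' (volume.real D) * bInt F D (fun z _ => ‖u₁ z‖ ^ 2) ≤
        ν * (ν * (N1 - N2) + ε) := by
      calc _ ≤ ν * bInt F D (fun z _ => ‖u₁ z‖ ^ 2) :=
            mul_le_mul_of_nonneg_right (haD.2.trans haF) hbI0
        _ ≤ _ := mul_le_mul_of_nonneg_left hbI hνp.le
    have e2 : ν ^ 2 * N2 - E' ^ 2 * N1 + ν * (ν * (N1 - N2)) = -G := by rw [hG]; ring
    have e3 : (ν + Cb) * ε = ν * ε + Cb * ε := by ring
    rw [hPΩ] at hPD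
    have e4 : ν * (ν * (N1 - N2) + ε) = ν * (ν * (N1 - N2)) + ν * ε := by ring
    linarith
  have hareaD : E' ^ 2 * volume.real D ≤ Real.pi * X ^ 2 :=
    (mul_le_mul_of_nonneg_left hDA (sq_nonneg _)).trans hE'A.le
  obtain ⟨F', D', hreg', hsub, hnz, hQ'⟩ := remove_zeros hX hE'p hu1 hreg hareaD
    (show 0 < G / 4 by positivity)
  have hD'A : volume.real D' ≤ volume.real D :=
    measureReal_mono hsub hreg.bdd.measure_lt_top.ne
  have hmain := main_nonneg hX hE'p h.smooth₁ hreg' hnz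
    ((mul_le_mul_of_nonneg_left hD'A (sq_nonneg _)).trans hareaD)
  linarith

/-- conversion of the gradient -/
theorem conv_gr {φ : ℝ × ℝ → ℝ} (hφ : ContDiff ℝ 1 φ) (z v : ℂ) :
    fderiv ℝ (fun z : ℂ => φ (z.re, z.im)) z v = fderiv ℝ φ (z.re, z.im) (v.re, v.im) := by
  have h1 : HasFDerivAt φ (fderiv ℝ φ (z.re, z.im)) (Complex.equivRealProdCLM z) :=
    (hφ.differentiable (by norm_num)).differentiableAt.hasFDerivAt
  have h2 : HasFDerivAt (fun z : ℂ => Complex.equivRealProdCLM z)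
      (Complex.equivRealProdCLM : ℂ →L[ℝ] ℝ × ℝ) z :=
    Complex.equivRealProdCLM.hasFDerivAt
  have h3 := h1.comp z h2
  have h4 : HasFDerivAt (fun z : ℂ => φ (z.re, z.im))
      ((fderiv ℝ φ (z.re, z.im)).comp (Complex.equivRealProdCLM : ℂ →L[ℝ] ℝ × ℝ)) z := h3
  rw [h4.fderiv]
  rfl

theorem fk_full (Ω : Set (ℝ × ℝ)) (φ : ℝ × ℝ → ℝ)
    (hφ : ∀ k : ℕ, ContDiff ℝ k φ)
    (hΩ : Ω = {x | φ x < 0})
    (hnd : ∀ x, φ x = 0 → fderiv ℝ φ x ≠ 0)
    (hbd : Bornology.IsBounded Ω)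
    (r : ℝ) (hr : 0 < r)
    (hvol : volume Ω = volume {x : ℝ × ℝ | x.1 ^ 2 + x.2 ^ 2 < r ^ 2})
    (ν : ℝ) (hν : 0 < ν) (u₁ u₂ : ℝ × ℝ → ℂ)
    (h₁ : ∀ k : ℕ, ContDiff ℝ k u₁) (h₂ : ∀ k : ℕ, ContDiff ℝ k u₂)
    (hne : ∃ x ∈ Ω, u₁ x ≠ 0 ∨ u₂ x ≠ 0)
    (he : ∀ x ∈ Ω,
      -Complex.I * fderiv ℝ u₂ x (1, 0) - fderiv ℝ u₂ x (0, 1) = (ν : ℂ) * u₁ x ∧
      -Complex.I * fderiv ℝ u₁ x (1, 0) + fderiv ℝ u₁ x (0, 1) = (ν : ℂ) * u₂ x)
    (hbc : ∀ x, φ x = 0 →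
      Complex.I *
        (((fderiv ℝ φ x (1, 0) /
            Real.sqrt (fderiv ℝ φ x (1, 0) ^ 2 + fderiv ℝ φ x (0, 1) ^ 2) : ℝ) : ℂ) +
         Complex.I *
          ((fderiv ℝ φ x (0, 1) /
            Real.sqrt (fderiv ℝ φ x (1, 0) ^ 2 + fderiv ℝ φ x (0, 1) ^ 2) : ℝ) : ℂ)) *
        u₁ x = u₂ x) :
    ∃ μ : ℝ, 0 < μ ∧ μ ≤ ν ∧
      ∃ v₁ v₂ : ℝ × ℝ → ℂ,
        (∀ k : ℕ, ContDiff ℝ k v₁) ∧ (∀ k : ℕ, ContDiff ℝ k v₂) ∧
        (∃ x : ℝ × ℝ, x.1 ^ 2 + x.2 ^ 2 < r ^ 2 ∧ (v₁ x ≠ 0 ∨ v₂ x ≠ 0)) ∧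
        (∀ x : ℝ × ℝ, x.1 ^ 2 + x.2 ^ 2 < r ^ 2 →
          -Complex.I * fderiv ℝ v₂ x (1, 0) - fderiv ℝ v₂ x (0, 1) = (μ : ℂ) * v₁ x ∧
          -Complex.I * fderiv ℝ v₁ x (1, 0) + fderiv ℝ v₁ x (0, 1) = (μ : ℂ) * v₂ x) ∧
        (∀ x : ℝ × ℝ, x.1 ^ 2 + x.2 ^ 2 = r ^ 2 →
          Complex.I * (((x.1 / r : ℝ) : ℂ) + Complex.I * ((x.2 / r : ℝ) : ℂ)) * v₁ x
            = v₂ x) := by
  obtain ⟨X, hX⟩ := FK.exists_profile
  have hopen : IsOpen Ω := by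
    rw [hΩ]
    exact isOpen_lt (hφ 0).continuous continuous_const
  set Ω' : Set ℂ := {z : ℂ | (z.re, z.im) ∈ Ω} with hΩ'
  have hsol := FK.toSol hν hopen h₁ h₂ he
  have hΩ'' : Ω' = {z : ℂ | φ (z.re, z.im) < 0} := by
    rw [hΩ', hΩ]; rfl
  have hφ1 : ContDiff ℝ 1 φ := by exact_mod_cast hφ 1
  have hsm : ∀ k : ℕ, ContDiff ℝ k (fun z : ℂ => (z.re, z.im)) := fun k =>
    Complex.equivRealProdCLM.contDiff
  have hφ' : ∀ k : ℕ, ContDiff ℝ k (fun z : ℂ => φ (z.re, z.im)) := fun k =>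
    (hφ k).comp (hsm k)
  have hbd' : Bornology.IsBounded Ω' := by
    obtain ⟨R, hR⟩ := hbd.subset_closedBall (0 : ℝ × ℝ)
    rw [isBounded_iff_forall_norm_le]
    refine ⟨R + R, fun z hz => ?_⟩
    have h1 := hR hz
    rw [mem_closedBall, dist_zero_right, Prod.norm_def, max_le_iff] at h1
    have h2 := Complex.norm_le_abs_re_add_abs_im z
    simp only [Real.norm_eq_abs] at h1
    linarith [h1.1, h1.2]
  have hnd' : ∀ z : ℂ, φ (z.re, z.im) = 0 → fderiv ℝ (fun z : ℂ => φ (z.re, z.im)) z ≠ 0 := by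
    intro z hz h0
    apply hnd _ hz
    ext w
    · have := conv_gr hφ1 z 1
      rw [h0] at this
      simpa using this.symm
    · have := conv_gr hφ1 z I
      rw [h0] at this
      simpa using this.symm
  have hne' : ∃ z ∈ Ω', u₁ (z.re, z.im) ≠ 0 ∨ u₂ (z.re, z.im) ≠ 0 := by
    obtain ⟨x, hx, h⟩ := hne
    exact ⟨⟨x.1, x.2⟩, hx, h⟩
  have hbc' : ∀ z : ℂ, φ (z.re, z.im) = 0 →
      I * (gr (fun z : ℂ => φ (z.re, z.im)) z /
        (‖gr (fun z : ℂ => φ (z.re, z.im)) z‖ : ℂ)) * u₁ (z.re, z.im) = u₂ (z.re, z.im) := by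
    intro z hz
    rw [← hbc _ hz]
    congr 2
    have e1 : gr (fun z : ℂ => φ (z.re, z.im)) z =
        ((fderiv ℝ φ (z.re, z.im) (1, 0) : ℝ) : ℂ) +
          I * ((fderiv ℝ φ (z.re, z.im) (0, 1) : ℝ) : ℂ) := by
      unfold gr
      rw [conv_gr hφ1, conv_gr hφ1]
      apply Complex.ext <;> simp
    have e2 : ‖gr (fun z : ℂ => φ (z.re, z.im)) z‖ =
        Real.sqrt (fderiv ℝ φ (z.re, z.im) (1, 0) ^ 2 + fderiv ℝ φ (z.re, z.im) (0, 1) ^ 2) := by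
      unfold gr
      rw [conv_gr hφ1, conv_gr hφ1, Complex.norm_def, Complex.normSq_apply]
      congr 1
      simp only [Complex.one_re, Complex.one_im, Complex.I_re, Complex.I_im]
      ring
    rw [e2, e1]
    push_cast
    ring
  have key := fk_core hX hsol hφ' hΩ'' hbd' hnd' hne' hbc'
  have hv : volume.real Ω' = Real.pi * r ^ 2 := by
    unfold Measure.real
    rw [hΩ', FK.volume_conv Ω hopen.measurableSet, hvol, FK.volume_disc hr]
  rw [hv] at key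
  refine ⟨X / r, div_pos hX.pos hr, ?_, FK.disc_eig hX hr⟩
  rw [div_le_iff₀ hr]
  have hpi := Real.pi_pos
  have h3 : X ^ 2 ≤ (ν * r) ^ 2 := by
    have : Real.pi * X ^ 2 ≤ Real.pi * (ν * r) ^ 2 := by
      calc _ ≤ _ := key
        _ = _ := by ring
    exact le_of_mul_le_mul_left this hpi
  exact le_of_sq_le_sq h3 (by positivity)

end Pool.Agent.FKM
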